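import Pool.Agent.FCT.Defs

/-! Row FCT-A1: algebra of the shift action `act`. Use `act_apply` (a finite sum over `range N`) as the
basic tool; everything else is bookkeeping.  (`Polynomial.sum_over_range'`, `Polynomial.sum_def`.) -/

set_option autoImplicit false

namespace Pool.Agent.FCT

open Polynomial Finset

variable {A : Type*} [CommRing A]

theorem act_apply (P : A[X]) (a : ℕ → A) (n : ℕ) {N : ℕ} (hN : P.natDegree < N) :
    act P a n = ∑ j ∈ range N, P.coeff j * a (n + j) := by
  unfold act
  exact Polynomial.sum_over_range' P (fun j => by rw [zero_mul]) N hN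

theorem A1_mono (i : ℕ) (r : A) (a : ℕ → A) : act (monomial i r) a = fun n => r * a (n + i) := by
  funext n
  unfold act
  exact Polynomial.sum_monomial_index r _ (by rw [zero_mul])

/-- a bound for two polynomials -/
theorem A1_two (P Q : A[X]) : ∃ N : ℕ, P.natDegree < N ∧ Q.natDegree < N :=
  ⟨max P.natDegree Q.natDegree + 1, by have := le_max_left P.natDegree Q.natDegree; omega,
    by have := le_max_right P.natDegree Q.natDegree; omega⟩

theorem act_zero (a : ℕ → A) : act (0 : A[X]) a = 0 := by
  funext n
  unfold act
  rw [Polynomial.sum_zero_index]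
  rfl

theorem act_zero_right (P : A[X]) : act P (0 : ℕ → A) = 0 := by
  funext n
  rw [act_apply P 0 n (Nat.lt_succ_self _)]
  simp

theorem act_add (P Q : A[X]) (a : ℕ → A) : act (P + Q) a = act P a + act Q a := by
  funext n
  obtain ⟨N, hP, hQ⟩ := A1_two P Q
  rw [Pi.add_apply, act_apply P a n hP, act_apply Q a n hQ,
    act_apply (P + Q) a n ((natDegree_add_le P Q).trans_lt (max_lt hP hQ)), ← sum_add_distrib]
  refine sum_congr rfl fun j _ => ?_
  rw [coeff_add, add_mul]

theorem act_sub (P Q : A[X]) (a : ℕ → A) : act (P - Q) a = act P a - act Q a := by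
  have h := act_add (P - Q) Q a
  rw [sub_add_cancel] at h
  rw [h, add_sub_cancel_right]

theorem act_add_right (P : A[X]) (a b : ℕ → A) : act P (a + b) = act P a + act P b := by
  funext n
  rw [Pi.add_apply, act_apply P a n (Nat.lt_succ_self _), act_apply P b n (Nat.lt_succ_self _),
    act_apply P (a + b) n (Nat.lt_succ_self _), ← sum_add_distrib]
  refine sum_congr rfl fun j _ => ?_
  rw [Pi.add_apply, mul_add]

theorem act_sub_right (P : A[X]) (a b : ℕ → A) : act P (a - b) = act P a - act P b := by
  have h := act_add_right P (a - b) b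
  rw [sub_add_cancel] at h
  rw [h, add_sub_cancel_right]

theorem act_sum_left {ι : Type*} (s : Finset ι) (P : ι → A[X]) (a : ℕ → A) :
    act (∑ i ∈ s, P i) a = ∑ i ∈ s, act (P i) a := by
  classical
  induction s using Finset.induction_on with
  | empty => rw [sum_empty, sum_empty, act_zero]
  | insert i s hi ih => rw [sum_insert hi, sum_insert hi, act_add, ih]

theorem act_sum_right {ι : Type*} (s : Finset ι) (P : A[X]) (a : ι → ℕ → A) :
    act P (∑ i ∈ s, a i) = ∑ i ∈ s, act P (a i) := by
  classical
  induction s using Finset.induction_on with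
  | empty => rw [sum_empty, sum_empty, act_zero_right]
  | insert i s hi ih => rw [sum_insert hi, sum_insert hi, act_add_right, ih]

theorem act_C (r : A) (a : ℕ → A) : act (C r) a = fun n => r * a n := by
  have h := A1_mono 0 r a
  rw [monomial_zero_left] at h
  exact h

theorem act_one (a : ℕ → A) : act (1 : A[X]) a = a := by
  have h := act_C (1 : A) a
  rw [C_1] at h
  rw [h]
  funext n
  rw [one_mul]

theorem act_X (a : ℕ → A) : act (X : A[X]) a = fun n => a (n + 1) := by
  have h := A1_mono 1 (1 : A) a
  rw [monomial_one_one_eq_X] at h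
  rw [h]
  funext n
  rw [one_mul]

theorem act_X_pow (j : ℕ) (a : ℕ → A) : act (X ^ j : A[X]) a = fun n => a (n + j) := by
  have h := A1_mono j (1 : A) a
  rw [monomial_one_right_eq_X_pow] at h
  rw [h]
  funext n
  rw [one_mul]

theorem act_mul (P Q : A[X]) (a : ℕ → A) : act (P * Q) a = act P (act Q a) := by
  induction P using Polynomial.induction_on' with
  | add p q hp hq => rw [add_mul, act_add, hp, hq, act_add]
  | monomial i r =>
    induction Q using Polynomial.induction_on' with
    | add p q hp hq => rw [mul_add, act_add, hp, hq, act_add, act_add_right]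
    | monomial j t =>
      rw [monomial_mul_monomial, A1_mono, A1_mono, A1_mono]
      funext n
      have h : n + (i + j) = n + i + j := by omega
      rw [h]
      ring

/-- Compatibility with ring homomorphisms. -/
theorem act_map {B : Type*} [CommRing B] (φ : A →+* B) (P : A[X]) (a : ℕ → A) (n : ℕ) :
    φ (act P a n) = act (P.map φ) (fun m => φ (a m)) n := by
  rw [act_apply P a n (Nat.lt_succ_self _),
    act_apply (P.map φ) _ n (Nat.lt_succ_of_le (natDegree_map_le (f := φ) (p := P))), map_sum]
  refine sum_congr rfl fun j _ => ?_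
  rw [map_mul, coeff_map]

/-- Leibniz rule. -/
theorem act_deriv {K : Type*} [Field K] (P : K[X][X]) (a : ℕ → K[X]) :
    dd (act P a) = act (dmap ds P) a + act P (dd a) := by
  funext n
  have hd : (dmap ds P).natDegree < P.natDegree + 1 := by
    refine Nat.lt_succ_of_le (natDegree_le_iff_coeff_eq_zero.2 fun i hi => ?_)
    rw [dmap_coeff, coeff_eq_zero_of_natDegree_lt hi, map_zero]
  rw [Pi.add_apply, act_apply _ a n hd, act_apply P (dd a) n (Nat.lt_succ_self _), ← sum_add_distrib]
  unfold dd
  rw [act_apply P a n (Nat.lt_succ_self _), derivative_sum]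
  refine sum_congr rfl fun j _ => ?_
  rw [derivative_mul, dmap_coeff]
  rfl

end Pool.Agent.FCT
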