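import Pool.Agent.FCT.A1

/-! Row FCT-A2: iteration of the connection. -/

set_option autoImplicit false

namespace Pool.Agent.FCT

open Polynomial Finset

theorem A2_deg {K : Type*} [Field K] (P : K[X][X]) : (dmap ds P).natDegree ≤ P.natDegree := by
  refine natDegree_le_iff_coeff_eq_zero.2 fun i hi => ?_
  rw [dmap_coeff, coeff_eq_zero_of_natDegree_lt hi, map_zero]

theorem A2_pow {K : Type*} [Field K] (q : K[X][X]) (k : ℕ) :
    dmap ds (q ^ (k + 1)) = ((k + 1 : ℕ) : K[X][X]) * q ^ k * dmap ds q := by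
  rw [Derivation.leibniz_pow, Nat.add_sub_cancel, nsmul_eq_mul, smul_eq_mul]
  ring

theorem A2_dd_add {K : Type*} [Field K] (a b : ℕ → K[X]) : dd (a + b) = dd a + dd b := by
  funext n
  simp only [dd, Pi.add_apply, derivative_add]

theorem A2_dd_sub {K : Type*} [Field K] (a b : ℕ → K[X]) : dd (a - b) = dd a - dd b := by
  funext n
  simp only [dd, Pi.sub_apply, derivative_sub]

theorem A2_dd_sum {K : Type*} [Field K] {ι : Type*} (s : Finset ι) (a : ι → ℕ → K[X]) :
    dd (∑ i ∈ s, a i) = ∑ i ∈ s, dd (a i) := by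
  funext n
  simp only [dd, Finset.sum_apply, derivative_sum]

/-- Proof: induction on `k`.  `k = 0` is `h1` (`q^1 = q`).  Step: put `a = dd^[k] ψ`, so
`dd^[k+1] ψ = dd a` (`Function.iterate_succ_apply'`).  Apply `dd` to the induction hypothesis and `act_deriv`:
`act (q^(k+1)) (dd a) = ∑ l, (act (dmap ds (B' l)) (e l) + act (B' l) (dd (e l))) - act (dmap ds (q^(k+1))) a`, and
`dmap ds (q^(k+1)) = (k+1) q^k * dmap ds q` (`Derivation.leibniz_pow`).  Act by `q` (`act_mul`), use
`act (B' j) (act q (dd (e j))) = ∑ l, act (B' j * Bj j l) (e l)` (h2) and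
`q * ((k+1) q^k * dmap ds q) = (k+1) * dmap ds q * q^(k+1)` with the induction hypothesis again:
new coefficients `q * dmap ds (B' l) + ∑ j, B' j * Bj j l - (k+1) * dmap ds q * B' l`, of degree `≤ D + D (k+1)`
(`natDegree (dmap ds P) ≤ natDegree P`, from `dmap_coeff`). -/
theorem iter_psi {K : Type*} [Field K] {ι : Type*} [Fintype ι] (ψ : ℕ → K[X]) (e : ι → ℕ → K[X])
    (q : K[X][X]) (D : ℕ) (hq : q.natDegree ≤ D) (B : ι → K[X][X]) (hB : ∀ l, (B l).natDegree ≤ D)
    (Bj : ι → ι → K[X][X]) (hBj : ∀ j l, (Bj j l).natDegree ≤ D)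
    (h1 : act q ψ = ∑ l, act (B l) (e l))
    (h2 : ∀ j, act q (dd (e j)) = ∑ l, act (Bj j l) (e l)) (k : ℕ) :
    ∃ B' : ι → K[X][X], (∀ l, (B' l).natDegree ≤ D * (k + 1)) ∧
      act (q ^ (k + 1)) (dd^[k] ψ) = ∑ l, act (B' l) (e l) := by
  classical
  induction k with
  | zero =>
    refine ⟨B, fun l => by simpa using hB l, ?_⟩
    rw [zero_add, pow_one, Function.iterate_zero, id_eq, h1]
  | succ k ih =>
    obtain ⟨B', hB', h3⟩ := ih
    set a : ℕ → K[X] := dd^[k] ψ with ha
    have hda : dd^[k + 1] ψ = dd a := by rw [Function.iterate_succ_apply', ha]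
    have hl : dd (act (q ^ (k + 1)) a) = act (dmap ds (q ^ (k + 1))) a + act (q ^ (k + 1)) (dd a) :=
      act_deriv (q ^ (k + 1)) a
    have hr : dd (act (q ^ (k + 1)) a) = ∑ l, (act (dmap ds (B' l)) (e l) + act (B' l) (dd (e l))) := by
      rw [h3, A2_dd_sum]
      exact sum_congr rfl fun l _ => act_deriv (B' l) (e l)
    have h4 : act (q ^ (k + 1)) (dd a) =
        ∑ l, (act (dmap ds (B' l)) (e l) + act (B' l) (dd (e l))) - act (dmap ds (q ^ (k + 1))) a := by
      rw [← hr, hl]
      abel
    refine ⟨fun l => q * dmap ds (B' l) + ∑ j, B' j * Bj j l -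
      ((k + 1 : ℕ) : K[X][X]) * dmap ds q * B' l, fun l => ?_, ?_⟩
    · have e1 : (q * dmap ds (B' l)).natDegree ≤ D * (k + 1 + 1) := by
        refine natDegree_mul_le.trans ?_
        have := (A2_deg (B' l)).trans (hB' l)
        calc q.natDegree + (dmap ds (B' l)).natDegree ≤ D + D * (k + 1) := Nat.add_le_add hq this
          _ = D * (k + 1 + 1) := by ring
      have e2 : (∑ j, B' j * Bj j l).natDegree ≤ D * (k + 1 + 1) := by
        refine natDegree_sum_le_of_forall_le _ _ fun j _ => ?_
        refine natDegree_mul_le.trans ?_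
        calc (B' j).natDegree + (Bj j l).natDegree ≤ D * (k + 1) + D := Nat.add_le_add (hB' j) (hBj j l)
          _ = D * (k + 1 + 1) := by ring
      have e3 : (((k + 1 : ℕ) : K[X][X]) * dmap ds q * B' l).natDegree ≤ D * (k + 1 + 1) := by
        refine natDegree_mul_le.trans ?_
        have h5 : (((k + 1 : ℕ) : K[X][X]) * dmap ds q).natDegree ≤ D := by
          refine natDegree_mul_le.trans ?_
          rw [natDegree_natCast, zero_add]
          exact (A2_deg q).trans hq
        calc (((k + 1 : ℕ) : K[X][X]) * dmap ds q).natDegree + (B' l).natDegree ≤ D + D * (k + 1) :=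
              Nat.add_le_add h5 (hB' l)
          _ = D * (k + 1 + 1) := by ring
      exact (natDegree_sub_le _ _).trans (max_le ((natDegree_add_le _ _).trans (max_le e1 e2)) e3)
    · rw [hda, pow_succ' q (k + 1), act_mul, h4, act_sub_right, act_sum_right]
      have h6 : act q (act (dmap ds (q ^ (k + 1))) a) =
          ∑ l, act (((k + 1 : ℕ) : K[X][X]) * dmap ds q * B' l) (e l) := by
        have h7 : ∑ l, act (((k + 1 : ℕ) : K[X][X]) * dmap ds q * B' l) (e l) =
            act (((k + 1 : ℕ) : K[X][X]) * dmap ds q) (∑ l, act (B' l) (e l)) := by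
          rw [act_sum_right]
          exact sum_congr rfl fun l _ => act_mul _ _ _
        rw [h7, ← h3, ← act_mul, ← act_mul, A2_pow]
        congr 1
        ring
      have h8 : ∑ i, act q (act (dmap ds (B' i)) (e i) + act (B' i) (dd (e i))) =
          ∑ l, (act (q * dmap ds (B' l)) (e l) + act (∑ j, B' j * Bj j l) (e l)) := by
        have h9 : ∀ i, act q (act (dmap ds (B' i)) (e i) + act (B' i) (dd (e i))) =
            act (q * dmap ds (B' i)) (e i) + ∑ l, act (B' i * Bj i l) (e l) := by
          intro i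
          rw [act_add_right, ← act_mul, ← act_mul, mul_comm q (B' i), act_mul (B' i) q, h2 i, act_sum_right]
          congr 1
          exact sum_congr rfl fun l _ => (act_mul _ _ _).symm
        rw [sum_congr rfl fun i _ => h9 i, sum_add_distrib, sum_add_distrib]
        congr 1
        rw [sum_comm]
        exact sum_congr rfl fun l _ => (act_sum_left _ _ _).symm
      rw [h6, h8, ← sum_sub_distrib]
      refine sum_congr rfl fun l _ => ?_
      rw [act_sub, act_add]

/-- Proof: `dd h = h + ψ` gives `h = dd^[k] h - ∑_{j<k} dd^[j] ψ` (induction; `dd` is additive).  Act by `q^k` and write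
`q^k = q^(k-1-j) * q^(j+1)`; use `iter_psi` for each `j < k`.  Degrees: `D (k-1-j) + D (j+1) = D k`. -/
theorem iter_h {K : Type*} [Field K] {ι : Type*} [Fintype ι] (h ψ : ℕ → K[X]) (e : ι → ℕ → K[X])
    (hh : dd h = h + ψ)
    (q : K[X][X]) (D : ℕ) (hq : q.natDegree ≤ D) (B : ι → K[X][X]) (hB : ∀ l, (B l).natDegree ≤ D)
    (Bj : ι → ι → K[X][X]) (hBj : ∀ j l, (Bj j l).natDegree ≤ D)
    (h1 : act q ψ = ∑ l, act (B l) (e l))
    (h2 : ∀ j, act q (dd (e j)) = ∑ l, act (Bj j l) (e l)) (k : ℕ) :
    ∃ B' : ι → K[X][X], (∀ l, (B' l).natDegree ≤ D * k) ∧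
      act (q ^ k) h = act (q ^ k) (dd^[k] h) - ∑ l, act (B' l) (e l) := by
  classical
  have hsum : ∀ k : ℕ, dd^[k] h = h + ∑ j ∈ range k, dd^[j] ψ := by
    intro k
    induction k with
    | zero => simp
    | succ k ih =>
      have h3 : ∀ m : ℕ, dd^[m] (h + ψ) = dd^[m] h + dd^[m] ψ := by
        intro m
        induction m with
        | zero => rfl
        | succ m ih2 => rw [Function.iterate_succ_apply', ih2, A2_dd_add, Function.iterate_succ_apply' dd m h,
            Function.iterate_succ_apply' dd m ψ]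
      rw [Function.iterate_succ_apply, hh, h3, ih, sum_range_succ, add_assoc]
  choose B' hB' hB2 using fun j => iter_psi ψ e q D hq B hB Bj hBj h1 h2 j
  refine ⟨fun l => ∑ j ∈ range k, q ^ (k - 1 - j) * B' j l, fun l => ?_, ?_⟩
  · refine natDegree_sum_le_of_forall_le _ _ fun j hj => ?_
    have hjk := mem_range.1 hj
    refine natDegree_mul_le.trans ?_
    have h5 : (q ^ (k - 1 - j)).natDegree ≤ (k - 1 - j) * D :=
      natDegree_pow_le.trans (Nat.mul_le_mul_left _ hq)
    calc (q ^ (k - 1 - j)).natDegree + (B' j l).natDegree ≤ (k - 1 - j) * D + D * (j + 1) :=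
          Nat.add_le_add h5 (hB' j l)
      _ = D * ((k - 1 - j) + (j + 1)) := by ring
      _ = D * k := by
        congr 1
        omega
  · have h6 : ∑ l, act (∑ j ∈ range k, q ^ (k - 1 - j) * B' j l) (e l) =
        act (q ^ k) (∑ j ∈ range k, dd^[j] ψ) := by
      rw [act_sum_right]
      have h7 : ∀ l, act (∑ j ∈ range k, q ^ (k - 1 - j) * B' j l) (e l) =
          ∑ j ∈ range k, act (q ^ (k - 1 - j) * B' j l) (e l) := fun l => act_sum_left _ _ _
      rw [sum_congr rfl fun l _ => h7 l, sum_comm]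
      refine sum_congr rfl fun j hj => ?_
      have hjk := mem_range.1 hj
      have h8 : q ^ k = q ^ (k - 1 - j) * q ^ (j + 1) := by
        rw [← pow_add]
        congr 1
        omega
      rw [h8, act_mul, hB2 j, act_sum_right]
      exact sum_congr rfl fun l _ => act_mul _ _ _
    rw [h6, hsum k, act_add_right, add_sub_cancel_right]

end Pool.Agent.FCT
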