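import Pool.Agent.FCT.Defs

/-! Definitions for the determinant argument. -/

set_option autoImplicit false

namespace Pool.Agent.FCT

open Polynomial Finset

variable {K : Type*} [Field K] {ι : Type*}

/-- The minor with rows `r ρ`: columns `c^i h` (`i < M`) and `c^j e_l` (`j < M2`). -/
noncomputable def Amat (h : ℕ → K[X]) (e : ι → ℕ → K[X]) (M M2 : ℕ) (r : (Fin M ⊕ ι × Fin M2) → ℕ) :
    Matrix (Fin M ⊕ ι × Fin M2) (Fin M ⊕ ι × Fin M2) K[X] :=
  Matrix.of fun ρ col => Sum.elim (fun i : Fin M => h (r ρ + i)) (fun p : ι × Fin M2 => e p.1 (r ρ + p.2)) col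

/-- The same with the column `c^i h` replaced by `c^(i % d) q^(i / d) (∂^(i/d) / (i/d)!) h`. -/
noncomputable def Bmat (h : ℕ → K[X]) (e : ι → ℕ → K[X]) (q : K[X][X]) (d : ℕ) (M M2 : ℕ)
    (r : (Fin M ⊕ ι × Fin M2) → ℕ) :
    Matrix (Fin M ⊕ ι × Fin M2) (Fin M ⊕ ι × Fin M2) K[X] :=
  Matrix.of fun ρ col => Sum.elim
    (fun i : Fin M => act (X ^ ((i : ℕ) % d) * q ^ ((i : ℕ) / d))
      (fun n => hasseDeriv ((i : ℕ) / d) (h n)) (r ρ))
    (fun p : ι × Fin M2 => e p.1 (r ρ + p.2)) col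

end Pool.Agent.FCT
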