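import Pool.Agent.FCT.A1
import Pool.Agent.FCT.ADefs

/-! Row FCT-A4: the column operations. -/

set_option autoImplicit false

namespace Pool.Agent.FCT

open Polynomial Finset

theorem A4_dd_iter {K : Type*} [Field K] (h : ℕ → K[X]) (k : ℕ) :
    dd^[k] h = fun n => ((k.factorial : ℕ) : K[X]) * hasseDeriv k (h n) := by
  have h1 : ∀ k : ℕ, dd^[k] h = fun n => (derivative (R := K))^[k] (h n) := by
    intro k
    induction k with
    | zero => rfl
    | succ k ih =>
      rw [Function.iterate_succ_apply', ih]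
      funext n
      rw [Function.iterate_succ_apply']
      rfl
  rw [h1 k]
  funext n
  have h2 := Polynomial.factorial_smul_hasseDeriv (R := K) (k := k)
  rw [← h2]
  simp [nsmul_eq_mul]

theorem A4_natDegree {K : Type*} [Field K] (q : K[X][X]) (d : ℕ) (hd : 1 ≤ d) (hqd : q.natDegree = d) (i : ℕ) :
    (X ^ (i % d) * q ^ (i / d) : K[X][X]).natDegree = i := by
  have hq : q ≠ 0 := by
    rintro rfl
    simp at hqd
    omega
  rw [Polynomial.natDegree_mul (pow_ne_zero _ X_ne_zero) (pow_ne_zero _ hq), natDegree_X_pow,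
    natDegree_pow, hqd, mul_comm]
  exact Nat.mod_add_div i d

theorem A4_leadingCoeff {K : Type*} [Field K] (q : K[X][X]) (d : ℕ) (i : ℕ) :
    (X ^ (i % d) * q ^ (i / d) : K[X][X]).leadingCoeff = q.leadingCoeff ^ (i / d) := by
  rw [Polynomial.leadingCoeff_mul, Polynomial.leadingCoeff_pow, Polynomial.leadingCoeff_pow,
    Polynomial.leadingCoeff_X, one_pow, one_mul]

/-- The key identity for one column. -/
theorem A4_col {K : Type*} [Field K] {ι : Type*} [Fintype ι]
    (h : ℕ → K[X]) (e : ι → ℕ → K[X]) (q : K[X][X]) (d D M M2 : ℕ) (hd : 1 ≤ d) (hqd : q.natDegree = d)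
    (hM2 : M + D * M ≤ M2) (i : Fin M) (B : ι → K[X][X]) (hB : ∀ l, (B l).natDegree ≤ D * ((i : ℕ) / d))
    (hBi : act (q ^ ((i : ℕ) / d)) h = act (q ^ ((i : ℕ) / d)) (dd^[(i : ℕ) / d] h) - ∑ l, act (B l) (e l)) (n : ℕ) :
    (((((i : ℕ) / d).factorial : ℕ) : K[X])) *
      act (X ^ ((i : ℕ) % d) * q ^ ((i : ℕ) / d)) (fun n => hasseDeriv ((i : ℕ) / d) (h n)) n =
    (∑ i' : Fin M, h (n + i') * (X ^ ((i : ℕ) % d) * q ^ ((i : ℕ) / d) : K[X][X]).coeff i') +
      ∑ p : ι × Fin M2, e p.1 (n + p.2) * (X ^ ((i : ℕ) % d) * B p.1 : K[X][X]).coeff p.2 := by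
  set k := (i : ℕ) / d with hk
  set a := (i : ℕ) % d with ha
  set P : K[X][X] := X ^ a * q ^ k with hP
  have hdegP : P.natDegree = i := A4_natDegree q d hd hqd i
  have e1 : (((k.factorial : ℕ) : K[X])) * act P (fun n => hasseDeriv k (h n)) n =
      act P (dd^[k] h) n := by
    rw [A4_dd_iter h k]
    rw [act_apply P _ n (Nat.lt_succ_self _), act_apply P _ n (Nat.lt_succ_self _), Finset.mul_sum]
    refine Finset.sum_congr rfl fun j _ => ?_
    ring
  have e2 : act P (dd^[k] h) = act P h + ∑ l, act (X ^ a * B l) (e l) := by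
    have e3 : act (q ^ k) (dd^[k] h) = act (q ^ k) h + ∑ l, act (B l) (e l) := by
      rw [hBi]; abel
    rw [hP, act_mul, e3, act_add_right, ← act_mul, act_sum_right]
    congr 1
    refine Finset.sum_congr rfl fun l _ => ?_
    rw [act_mul]
  rw [e1, e2]
  rw [Pi.add_apply, Finset.sum_apply]
  congr 1
  · rw [act_apply P h n (N := M) (by rw [hdegP]; exact i.2)]
    rw [Finset.sum_range]
    refine Finset.sum_congr rfl fun j _ => ?_
    ring
  · rw [Fintype.sum_prod_type]
    refine Finset.sum_congr rfl fun l _ => ?_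
    have hdeg : (X ^ a * B l : K[X][X]).natDegree < M2 := by
      have h1 : (X ^ a * B l : K[X][X]).natDegree ≤ a + D * k := by
        refine le_trans Polynomial.natDegree_mul_le ?_
        rw [natDegree_X_pow]
        exact Nat.add_le_add_left (hB l) a
      have h2 : a + D * k < M + D * M := by
        have h3 : a ≤ i := Nat.mod_le _ _
        have h4 : k ≤ i := Nat.div_le_self _ _
        have h5 : (i : ℕ) < M := i.2
        have h6 : D * k ≤ D * M := Nat.mul_le_mul_left D (by omega)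
        omega
      omega
    rw [act_apply _ _ n hdeg, Finset.sum_range]
    refine Finset.sum_congr rfl fun j _ => ?_
    ring

/-- Proof.  Put `k_i = i / d`, `P_i = X^(i % d) * q^(k_i)`: `natDegree P_i = i`, `leadingCoeff P_i = q.leadingCoeff^(k_i)`.
(1) `dd^[k] h = k! • (fun n => hasseDeriv k (h n))` (`Polynomial.factorial_smul_hasseDeriv`), so by `hiter`
`act P_i h = (k_i)! * act P_i (hasseDeriv k_i ∘ h) - ∑ l, act (X^(i % d) * B' l) (e l)`, degrees `≤ i + D k_i < M2`.
(2) Let `U` be the matrix with `U (inl i') (inl i) = (P_i).coeff i'`, `U (inr (l,j)) (inl i) = (X^(i%d) * B'_{k_i} l).coeff j`,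
`U (inl _) (inr _) = 0`, `U (inr p) (inr p') = if p = p' then 1 else 0`.  By `act_apply` the product `Amat * U` is the matrix
`Bmat` with the columns `inl i` multiplied by `(k_i)!`.  `det U = ∏ q.leadingCoeff^(k_i)`
(`Matrix.det_fromBlocks_zero₁₂`/`₂₁`, `Matrix.det_of_upperTriangular`), and scaling columns gives `∏ (k_i)!`
(`Matrix.det_mul_row`/`det_mul_column`).  Take determinants. -/
theorem det_Amat {K : Type*} [Field K] {ι : Type*} [Fintype ι] [DecidableEq ι]
    (h : ℕ → K[X]) (e : ι → ℕ → K[X]) (q : K[X][X]) (d D M M2 : ℕ) (hd : 1 ≤ d) (hqd : q.natDegree = d)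
    (hiter : ∀ k : ℕ, ∃ B' : ι → K[X][X], (∀ l, (B' l).natDegree ≤ D * k) ∧
      act (q ^ k) h = act (q ^ k) (dd^[k] h) - ∑ l, act (B' l) (e l))
    (hM2 : M + D * M ≤ M2) (r : (Fin M ⊕ ι × Fin M2) → ℕ) :
    (Amat h e M M2 r).det * ∏ i : Fin M, q.leadingCoeff ^ ((i : ℕ) / d) =
      (∏ i : Fin M, ((((i : ℕ) / d).factorial : ℕ) : K[X])) * (Bmat h e q d M M2 r).det := by
  choose B hBdeg hBeq using hiter
  set U11 : Matrix (Fin M) (Fin M) K[X] :=
    Matrix.of fun i' i => (X ^ ((i : ℕ) % d) * q ^ ((i : ℕ) / d) : K[X][X]).coeff i' with hU11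
  set U21 : Matrix (ι × Fin M2) (Fin M) K[X] :=
    Matrix.of fun p i => (X ^ ((i : ℕ) % d) * B ((i : ℕ) / d) p.1 : K[X][X]).coeff p.2 with hU21
  set U : Matrix (Fin M ⊕ ι × Fin M2) (Fin M ⊕ ι × Fin M2) K[X] :=
    Matrix.fromBlocks U11 0 U21 1 with hU
  set Dg : Matrix (Fin M ⊕ ι × Fin M2) (Fin M ⊕ ι × Fin M2) K[X] :=
    Matrix.diagonal (Sum.elim (fun i : Fin M => ((((i : ℕ) / d).factorial : ℕ) : K[X])) (fun _ => 1)) with hDg
  have hprod : Amat h e M M2 r * U = Bmat h e q d M M2 r * Dg := by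
    ext1 ρ col
    rw [hDg, Matrix.mul_diagonal, Matrix.mul_apply, Fintype.sum_sum_type]
    rcases col with i | p
    · have hcol := A4_col h e q d D M M2 hd hqd hM2 i (B ((i : ℕ) / d)) (hBdeg _) (hBeq _) (r ρ)
      have hB1 : Bmat h e q d M M2 r ρ (Sum.inl i) = act (X ^ ((i : ℕ) % d) * q ^ ((i : ℕ) / d))
          (fun n => hasseDeriv ((i : ℕ) / d) (h n)) (r ρ) := rfl
      rw [hB1, Sum.elim_inl, mul_comm, hcol]
      rfl
    · have hA1 : ∀ i : Fin M, U (Sum.inl i) (Sum.inr p) = 0 := fun i => rfl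
      have hA2 : ∀ p' : ι × Fin M2, U (Sum.inr p') (Sum.inr p) = if p' = p then 1 else 0 := by
        intro p'
        show (1 : Matrix (ι × Fin M2) (ι × Fin M2) K[X]) p' p = _
        rw [Matrix.one_apply]
      simp only [hA1, hA2, mul_zero, Finset.sum_const_zero, zero_add, mul_ite, mul_one,
        Finset.sum_ite_eq', Finset.mem_univ, if_true, Sum.elim_inr]
      rfl
  have hdetU11 : U11.det = ∏ i : Fin M, q.leadingCoeff ^ ((i : ℕ) / d) := by
    have htri : U11.BlockTriangular id := by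
      intro i' i hlt
      show (X ^ ((i : ℕ) % d) * q ^ ((i : ℕ) / d) : K[X][X]).coeff i' = 0
      apply Polynomial.coeff_eq_zero_of_natDegree_lt
      rw [A4_natDegree q d hd hqd]
      exact hlt
    rw [Matrix.det_of_isUpperTriangular htri]
    refine Finset.prod_congr rfl fun i _ => ?_
    show (X ^ ((i : ℕ) % d) * q ^ ((i : ℕ) / d) : K[X][X]).coeff i = _
    rw [← A4_leadingCoeff q d i, Polynomial.leadingCoeff, A4_natDegree q d hd hqd]
  have hdetU : U.det = ∏ i : Fin M, q.leadingCoeff ^ ((i : ℕ) / d) := by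
    rw [hU, Matrix.det_fromBlocks_zero₁₂, Matrix.det_one, mul_one, hdetU11]
  have hdetD : Dg.det = ∏ i : Fin M, ((((i : ℕ) / d).factorial : ℕ) : K[X]) := by
    rw [hDg, Matrix.det_diagonal, Fintype.prod_sum_type]
    simp
  have := congrArg Matrix.det hprod
  rw [Matrix.det_mul, Matrix.det_mul, hdetU, hdetD] at this
  rw [this, mul_comm]

end Pool.Agent.FCT
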