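import Pool.Agent.FCT.Defs

/-! Row FCT-A5: the norm `hs` and integrality of polynomials over a number field.
`NumberField.house_mul_le`, `house_add_le`, `house_sum_le_sum_house`, `house_intCast`,
`one_le_house_of_isIntegral` are in Mathlib (NumberTheory/NumberField/House.lean). -/

set_option autoImplicit false

namespace Pool.Agent.FCT

open Polynomial Finset NumberField

variable {K : Type*} [Field K] [NumberField K]

theorem A5_zero : house (0 : K) = 0 := by
  have h := house_intCast (K := K) 0
  simpa using h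

theorem A5_neg (a : K) : house (-a) = house a := by
  unfold house
  rw [map_neg, norm_neg]

theorem hs_nonneg (p : K[X]) : 0 ≤ hs p :=
  sum_nonneg fun _ _ => house_nonneg _

theorem hs_eq_sum_range (p : K[X]) {N : ℕ} (hN : p.natDegree < N) :
    hs p = ∑ j ∈ range N, house (p.coeff j) := by
  unfold hs
  refine sum_subset (fun j hj => ?_) fun j _ hj => ?_
  · rw [mem_range]
    exact (le_natDegree_of_mem_supp j hj).trans_lt hN
  · rw [notMem_support_iff.1 hj, A5_zero]

theorem hs_zero : hs (0 : K[X]) = 0 := by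
  unfold hs
  rw [support_zero, sum_empty]

theorem A5_mono (n : ℕ) (a : K) : hs (monomial n a) = house a := by
  rw [hs_eq_sum_range (N := n + 1) (monomial n a) (Nat.lt_succ_of_le (natDegree_monomial_le a)),
    sum_eq_single_of_mem n (mem_range.2 (Nat.lt_succ_self n))]
  · rw [coeff_monomial_same]
  · intro j _ hj
    rw [coeff_monomial_of_ne _ hj, A5_zero]

theorem hs_one : hs (1 : K[X]) = 1 := by
  rw [← monomial_zero_one, A5_mono]
  have h := house_intCast (K := K) 1
  simpa using h

theorem hs_natCast (n : ℕ) : hs (n : K[X]) = n := by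
  have h1 : (n : K[X]) = monomial 0 (n : K) := by
    rw [monomial_zero_left, C_eq_natCast]
  rw [h1, A5_mono]
  have h := house_intCast (K := K) (n : ℤ)
  simpa using h

theorem hs_add_le (p q : K[X]) : hs (p + q) ≤ hs p + hs q := by
  obtain ⟨N, hp, hq⟩ : ∃ N : ℕ, p.natDegree < N ∧ q.natDegree < N :=
    ⟨max p.natDegree q.natDegree + 1, by have := le_max_left p.natDegree q.natDegree; omega,
      by have := le_max_right p.natDegree q.natDegree; omega⟩
  rw [hs_eq_sum_range p hp, hs_eq_sum_range q hq,
    hs_eq_sum_range (p + q) ((natDegree_add_le p q).trans_lt (max_lt hp hq)), ← sum_add_distrib]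
  refine sum_le_sum fun j _ => ?_
  rw [coeff_add]
  exact house_add_le _ _

theorem hs_neg (p : K[X]) : hs (-p) = hs p := by
  unfold hs
  rw [support_neg]
  exact sum_congr rfl fun j _ => by rw [coeff_neg, A5_neg]

theorem hs_sum_le {α : Type*} (s : Finset α) (f : α → K[X]) : hs (∑ i ∈ s, f i) ≤ ∑ i ∈ s, hs (f i) := by
  classical
  induction s using Finset.induction_on with
  | empty => rw [sum_empty, sum_empty, hs_zero]
  | insert i s hi ih =>
    rw [sum_insert hi, sum_insert hi]
    exact (hs_add_le _ _).trans (by linarith)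

/-- product of a monomial and a polynomial -/
theorem A5_mono_mul (n : ℕ) (a : K) (q : K[X]) : hs (monomial n a * q) ≤ house a * hs q := by
  have h1 : monomial n a * q = ∑ j ∈ range (q.natDegree + 1), monomial (n + j) (a * q.coeff j) := by
    conv_lhs => rw [q.as_sum_range]
    rw [mul_sum]
    exact sum_congr rfl fun j _ => monomial_mul_monomial _ _ _ _
  rw [h1, hs_eq_sum_range q (Nat.lt_succ_self _), mul_sum]
  refine (hs_sum_le _ _).trans (sum_le_sum fun j _ => ?_)
  rw [A5_mono]
  exact house_mul_le _ _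

theorem hs_mul_le (p q : K[X]) : hs (p * q) ≤ hs p * hs q := by
  have h1 : p * q = ∑ j ∈ range (p.natDegree + 1), monomial j (p.coeff j) * q := by
    conv_lhs => rw [p.as_sum_range]
    rw [sum_mul]
  rw [h1, hs_eq_sum_range p (Nat.lt_succ_self _), sum_mul]
  exact (hs_sum_le _ _).trans (sum_le_sum fun j _ => A5_mono_mul _ _ _)

theorem hs_pow_le (p : K[X]) (n : ℕ) : hs (p ^ n) ≤ hs p ^ n := by
  induction n with
  | zero => rw [pow_zero, pow_zero, hs_one]
  | succ n ih =>
    rw [pow_succ, pow_succ]
    exact (hs_mul_le _ _).trans (mul_le_mul_of_nonneg_right ih (hs_nonneg p))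

theorem hs_prod_le {α : Type*} (s : Finset α) (f : α → K[X]) : hs (∏ i ∈ s, f i) ≤ ∏ i ∈ s, hs (f i) := by
  classical
  induction s using Finset.induction_on with
  | empty => rw [prod_empty, prod_empty, hs_one]
  | insert i s hi ih =>
    rw [prod_insert hi, prod_insert hi]
    exact (hs_mul_le _ _).trans (mul_le_mul_of_nonneg_left ih (hs_nonneg _))

theorem hs_X_pow (n : ℕ) : hs (X ^ n : K[X]) = 1 := by
  rw [← monomial_one_right_eq_X_pow, A5_mono]
  have h := house_intCast (K := K) 1
  simpa using h

theorem hs_C (a : K) : hs (C a) = house a := by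
  rw [← monomial_zero_left, A5_mono]

theorem hs_det_le {n : Type*} [Fintype n] [DecidableEq n] (A : Matrix n n K[X]) (b : ℝ) (hb : 0 ≤ b)
    (hA : ∀ i j, hs (A i j) ≤ b) : hs A.det ≤ (Fintype.card n).factorial * b ^ Fintype.card n := by
  rw [Matrix.det_apply]
  have h1 : ∀ σ : Equiv.Perm n, hs (Equiv.Perm.sign σ • ∏ i, A (σ i) i) ≤ b ^ Fintype.card n := by
    intro σ
    have h2 : hs (Equiv.Perm.sign σ • ∏ i, A (σ i) i) = hs (∏ i, A (σ i) i) := by
      rcases Int.units_eq_one_or (Equiv.Perm.sign σ) with h | h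
      · rw [h, one_smul]
      · rw [h, Units.neg_smul, one_smul, hs_neg]
    rw [h2]
    refine (hs_prod_le _ _).trans ?_
    calc ∏ i, hs (A (σ i) i) ≤ ∏ _i : n, b := prod_le_prod (fun i _ => hs_nonneg _) fun i _ => hA _ _
      _ = b ^ Fintype.card n := by rw [prod_const, card_univ]
  refine (hs_sum_le _ _).trans ((sum_le_sum fun σ _ => h1 σ).trans (le_of_eq ?_))
  rw [sum_const, card_univ, Fintype.card_perm, nsmul_eq_mul]

end Pool.Agent.FCT
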