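import Pool.Agent.FCT.Defs

/-! Row FCT-A5b: integrality. -/

set_option autoImplicit false

namespace Pool.Agent.FCT

open Polynomial Finset NumberField

variable {K : Type*} [Field K] [NumberField K]

theorem IntP.add {p q : K[X]} (hp : IntP p) (hq : IntP q) : IntP (p + q) := by
  intro j
  rw [coeff_add]
  exact (hp j).add (hq j)

theorem IntP.neg {p : K[X]} (hp : IntP p) : IntP (-p) := by
  intro j
  rw [coeff_neg]
  exact (hp j).neg

theorem IntP.mul {p q : K[X]} (hp : IntP p) (hq : IntP q) : IntP (p * q) := by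
  intro j
  rw [coeff_mul]
  exact IsIntegral.sum _ fun x _ => (hp x.1).mul (hq x.2)

theorem IntP.natCast (n : ℕ) : IntP ((n : ℕ) : K[X]) := by
  intro j
  rw [← C_eq_natCast, coeff_C]
  split_ifs
  · have h := isIntegral_algebraMap (R := ℤ) (A := K) (x := (n : ℤ))
    simpa using h
  · exact isIntegral_zero

theorem IntP.one : IntP (1 : K[X]) := by
  have h := IntP.natCast (K := K) 1
  rwa [Nat.cast_one] at h

theorem IntP.zero : IntP (0 : K[X]) := by
  have h := IntP.natCast (K := K) 0
  rwa [Nat.cast_zero] at h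

theorem IntP.X_pow (n : ℕ) : IntP (X ^ n : K[X]) := by
  intro j
  rw [coeff_X_pow]
  split_ifs
  · exact isIntegral_one
  · exact isIntegral_zero

theorem IntP.pow {p : K[X]} (hp : IntP p) (n : ℕ) : IntP (p ^ n) := by
  induction n with
  | zero =>
    rw [pow_zero]
    exact IntP.one
  | succ n ih =>
    rw [pow_succ]
    exact ih.mul hp

theorem IntP.sum {α : Type*} (s : Finset α) (f : α → K[X]) (hf : ∀ i ∈ s, IntP (f i)) : IntP (∑ i ∈ s, f i) := by
  intro j
  rw [finset_sum_coeff]
  exact IsIntegral.sum _ fun x hx => hf x hx j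

theorem IntP.prod {α : Type*} (s : Finset α) (f : α → K[X]) (hf : ∀ i ∈ s, IntP (f i)) : IntP (∏ i ∈ s, f i) := by
  classical
  induction s using Finset.induction_on with
  | empty =>
    rw [prod_empty]
    exact IntP.one
  | insert i s hi ih =>
    rw [prod_insert hi]
    exact (hf i (mem_insert_self i s)).mul (ih fun k hk => hf k (mem_insert_of_mem hk))

/-- `Matrix.det_apply`; the sign is an integer. -/
theorem IntP.det {n : Type*} [Fintype n] [DecidableEq n] (A : Matrix n n K[X]) (hA : ∀ i j, IntP (A i j)) :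
    IntP A.det := by
  rw [Matrix.det_apply]
  refine IntP.sum _ _ fun σ _ => ?_
  have h1 : IntP (∏ i, A (σ i) i) := IntP.prod _ _ fun i _ => hA _ _
  rcases Int.units_eq_one_or (Equiv.Perm.sign σ) with h | h
  · rw [h, one_smul]
    exact h1
  · rw [h, Units.neg_smul, one_smul]
    exact h1.neg

/-- `(hasseDeriv k p).coeff n = choose (n+k) k * p.coeff (n+k)` (`Polynomial.hasseDeriv_coeff`). -/
theorem IntP.hasse (B : ℕ) (k : ℕ) {p : K[X]} (hp : IntP ((B : K[X]) * p)) :
    IntP ((B : K[X]) * hasseDeriv k p) := by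
  intro n
  have h1 := hp (n + k)
  rw [coeff_natCast_mul] at h1
  rw [coeff_natCast_mul, hasseDeriv_coeff]
  have h2 : (B : K) * (((n + k).choose k : K) * p.coeff (n + k)) = ((n + k).choose k : K) * ((B : K) * p.coeff (n + k)) := by
    ring
  rw [h2]
  refine IsIntegral.mul ?_ h1
  have h := isIntegral_algebraMap (R := ℤ) (A := K) (x := ((n + k).choose k : ℤ))
  simpa using h

/-- A polynomial divisible by the integer `B` in `O_K[s]` and of norm `< B` is zero: each coefficient is `B x`, `x` integral,
`house (B x) = B * house x < B`, so `house x < 1` and `x = 0` (`NumberField.one_le_house_of_isIntegral`). -/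
theorem eq_zero_of_dvd (p r : K[X]) (B : ℕ) (hr : IntP r) (hp : p = (B : K[X]) * r) (h : hs p < B) : p = 0 := by
  ext j
  rw [coeff_zero]
  by_contra hj
  have h1 : house (p.coeff j) ≤ hs p :=
    single_le_sum (f := fun j => house (p.coeff j)) (fun i _ => house_nonneg _) (mem_support_iff.2 hj)
  have h2 : p.coeff j = (B : K) * r.coeff j := by rw [hp, coeff_natCast_mul]
  have hr0 : r.coeff j ≠ 0 := by
    intro h0
    rw [h2, h0, mul_zero] at hj
    exact hj rfl
  have h3 := one_le_house_of_isIntegral (hr j) hr0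
  rw [h2, house_nat_mul] at h1
  have hB : (0 : ℝ) ≤ B := Nat.cast_nonneg B
  nlinarith

/-- Every polynomial over `K[s]` has a nonzero integral multiple (`exists_integer_multiples` or: every element of a number field
is `x / m` with `x` integral, `m` a positive integer). -/
theorem exists_int_mul (q : K[X][X]) : ∃ m : ℕ, 1 ≤ m ∧ ∀ i, IntP ((m : K[X]) * q.coeff i) := by
  classical
  have h1 : ∀ z : K, ∃ m : ℕ, 1 ≤ m ∧ IsIntegral ℤ ((m : K) * z) := by
    intro z
    have hz : IsAlgebraic ℤ z := by
      have h2 : IsAlgebraic ℚ z := Algebra.IsAlgebraic.isAlgebraic z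
      exact (IsFractionRing.isAlgebraic_iff ℤ ℚ K).2 h2
    obtain ⟨y, hy, hi⟩ := hz.exists_integral_multiple
    refine ⟨y.natAbs, Int.natAbs_pos.2 hy, ?_⟩
    have h3 : ((y.natAbs : ℕ) : K) * z = y • z ∨ ((y.natAbs : ℕ) : K) * z = -(y • z) := by
      rw [zsmul_eq_mul]
      rcases Int.natAbs_eq y with h | h
      · left
        conv_rhs => rw [h]
        rw [Int.cast_natCast]
      · right
        conv_rhs => rw [h]
        rw [Int.cast_neg, Int.cast_natCast]
        ring
    rcases h3 with h | h
    · rw [h]; exact hi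
    · rw [h]; exact hi.neg
  choose m hm1 hm using h1
  refine ⟨∏ i ∈ q.support, ∏ j ∈ (q.coeff i).support, m ((q.coeff i).coeff j),
    Nat.one_le_iff_ne_zero.2 (prod_ne_zero_iff.2 fun i _ => prod_ne_zero_iff.2 fun j _ => by
      have := hm1 ((q.coeff i).coeff j); omega), fun i j => ?_⟩
  rw [coeff_natCast_mul]
  by_cases hi : q.coeff i = 0
  · rw [hi, coeff_zero, mul_zero]
    exact isIntegral_zero
  by_cases hj : (q.coeff i).coeff j = 0
  · rw [hj, mul_zero]
    exact isIntegral_zero
  have hnat : ∀ n : ℕ, IsIntegral ℤ (n : K) := fun n => by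
    have h := isIntegral_algebraMap (R := ℤ) (A := K) (x := (n : ℤ))
    simpa using h
  rw [← mul_prod_erase q.support _ (mem_support_iff.2 hi), ← mul_prod_erase (q.coeff i).support _ (mem_support_iff.2 hj)]
  set P1 : ℕ := ∏ x ∈ (q.coeff i).support.erase j, m ((q.coeff i).coeff x)
  set P2 : ℕ := ∏ x ∈ q.support.erase i, ∏ j ∈ (q.coeff x).support, m ((q.coeff x).coeff j)
  have h4 : ((m ((q.coeff i).coeff j) * P1 * P2 : ℕ) : K) * (q.coeff i).coeff j =
      (P1 : K) * (P2 : K) * ((m ((q.coeff i).coeff j) : K) * (q.coeff i).coeff j) := by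
    push_cast
    ring
  rw [h4]
  exact ((hnat P1).mul (hnat P2)).mul (hm _)

end Pool.Agent.FCT
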