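import Pool.Agent.FCT.A1
import Pool.Agent.FCT.ADefs
import Pool.Agent.FCT.A5
import Pool.Agent.FCT.A5b

/-! Row FCT-A6: vanishing of the minors, from the identity `hdet` (= `det_Amat`). -/

set_option autoImplicit false

namespace Pool.Agent.FCT

open Polynomial Finset NumberField

theorem A6_coeff_mul {K : Type*} [Field K] [NumberField K] {p q : K[X][X]} (hp : ∀ i, IntP (p.coeff i))
    (hq : ∀ i, IntP (q.coeff i)) (i : ℕ) : IntP ((p * q).coeff i) := by
  rw [Polynomial.coeff_mul]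
  exact IntP.sum _ _ fun x _ => (hp _).mul (hq _)

theorem A6_coeff_pow {K : Type*} [Field K] [NumberField K] {q : K[X][X]}
    (hq : ∀ i, IntP (q.coeff i)) (n : ℕ) : ∀ i, IntP ((q ^ n).coeff i) := by
  induction n with
  | zero =>
    intro i
    rw [pow_zero, Polynomial.coeff_one]
    split_ifs
    · exact IntP.one
    · exact IntP.zero
  | succ n ih =>
    intro i
    rw [pow_succ]
    exact A6_coeff_mul ih hq i

theorem A6_coeff_X_pow {K : Type*} [Field K] [NumberField K] (n i : ℕ) :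
    IntP ((X ^ n : K[X][X]).coeff i) := by
  rw [Polynomial.coeff_X_pow]
  split_ifs
  · exact IntP.one
  · exact IntP.zero

/-- Proof.  `W = M + card ι * M2` is the size of the matrices, `T = N + M2`, `Δ = den T`.
All indices occurring are `≤ T`: `r ρ + i < N + M ≤ N + M2` etc., and in `Bmat` the operator `X^(i%d) q^(i/d)` has degree
`i < M ≤ M2`.  Multiply `hdet` by `Δ^W`: `Δ^W det(Amat) * ∏ lc^(i/d) = ∏ (i/d)! * det(Δ • Bmat)` (`Matrix.det_smul`), and
`Δ • Bmat` has integral entries (`IntP.hasse`, `IntP.mul`, `IntP.sum`; `hden`, `hdene`, `hqi`), so `IntP (det (Δ • Bmat))`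
(`IntP.det`).  The left side is `det (Δ • Amat) * ∏ lc^(i/d)`; by `hs_mul_le`, `hs_det_le` (entries `≤ Δ C^(T+1)`;
`Δ ≤ C^(T+1)`) and `hs lc ≤ Q0` its norm is at most the left side of `hbig`.  So `eq_zero_of_dvd` (with `B = ∏ (i/d)!`)
gives `det (Δ • Amat) * ∏ lc^(i/d) = 0`, and `lc ≠ 0`, `Δ ≠ 0`. -/
theorem minor_zero {K : Type*} [Field K] [NumberField K] {ι : Type*} [Fintype ι] [DecidableEq ι]
    (h : ℕ → K[X]) (e : ι → ℕ → K[X]) (q : K[X][X]) (d M M2 N : ℕ) (hd : 1 ≤ d) (hqd : q.natDegree = d)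
    (hqi : ∀ i, IntP (q.coeff i)) (Q0 : ℕ) (hQ0 : 1 ≤ Q0) (hQ : hs q.leadingCoeff ≤ Q0)
    (C : ℕ) (hC : 1 ≤ C) (hsh : ∀ n, hs (h n) ≤ (C : ℝ) ^ (n + 1)) (hse : ∀ l n, hs (e l n) ≤ (C : ℝ) ^ (n + 1))
    (den : ℕ → ℕ) (hden1 : ∀ n, 1 ≤ den n ∧ den n ≤ C ^ (n + 1))
    (hden : ∀ m n, m ≤ n → IntP (((den n : ℕ) : K[X]) * h m))
    (hdene : ∀ l m n, m ≤ n → IntP (((den n : ℕ) : K[X]) * e l m))
    (hM2 : M ≤ M2) (r : (Fin M ⊕ ι × Fin M2) → ℕ) (hr : ∀ ρ, r ρ < N)
    (hdet : (Amat h e M M2 r).det * ∏ i : Fin M, q.leadingCoeff ^ ((i : ℕ) / d) =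
      (∏ i : Fin M, ((((i : ℕ) / d).factorial : ℕ) : K[X])) * (Bmat h e q d M M2 r).det)
    (hbig : (M + Fintype.card ι * M2).factorial * (C ^ (N + M2 + 1)) ^ (2 * (M + Fintype.card ι * M2)) * Q0 ^ (M * M) <
      ∏ i ∈ range M, (i / d).factorial) :
    (Amat h e M M2 r).det = 0 := by
  classical
  set T := N + M2 with hT
  set Δ : K[X] := ((den T : ℕ) : K[X]) with hΔ
  set W := M + Fintype.card ι * M2 with hW
  have hcard : Fintype.card (Fin M ⊕ ι × Fin M2) = W := by
    rw [Fintype.card_sum, Fintype.card_prod, Fintype.card_fin, Fintype.card_fin]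
  have hC1 : (1 : ℝ) ≤ C := by exact_mod_cast hC
  set b : ℝ := (C : ℝ) ^ (T + 1) * (C : ℝ) ^ (T + 1) with hb
  have hb0 : 0 ≤ b := by positivity
  have hΔs : hs Δ ≤ (C : ℝ) ^ (T + 1) := by
    rw [hΔ, hs_natCast]
    exact_mod_cast (hden1 T).2
  have hmono : ∀ m, m ≤ T → (C : ℝ) ^ (m + 1) ≤ (C : ℝ) ^ (T + 1) := fun m hm =>
    pow_le_pow_right₀ hC1 (by omega)
  have hent : ∀ x : K[X], hs x ≤ (C : ℝ) ^ (T + 1) → hs (Δ * x) ≤ b := fun x hx =>
    (hs_mul_le _ _).trans (mul_le_mul hΔs hx (hs_nonneg _) (by positivity))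
  -- the norm of the left side
  have hA : ∀ i j, hs ((Δ • Amat h e M M2 r) i j) ≤ b := by
    intro ρ col
    rw [Matrix.smul_apply, smul_eq_mul]
    apply hent
    rcases col with i | p
    · have h1 : r ρ + (i : ℕ) ≤ T := by
        have := hr ρ
        have := i.2
        omega
      simpa [Amat] using (hsh _).trans (hmono _ h1)
    · have h1 : r ρ + (p.2 : ℕ) ≤ T := by
        have := hr ρ
        have := p.2.2
        omega
      simpa [Amat] using (hse _ _).trans (hmono _ h1)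
  have hB : ∀ i j, IntP ((Δ • Bmat h e q d M M2 r) i j) := by
    intro ρ col
    rw [Matrix.smul_apply, smul_eq_mul]
    rcases col with i | p
    · have hdeg : (X ^ ((i : ℕ) % d) * q ^ ((i : ℕ) / d) : K[X][X]).natDegree < M := by
        have h1 : (X ^ ((i : ℕ) % d) * q ^ ((i : ℕ) / d) : K[X][X]).natDegree ≤
            (i : ℕ) % d + (i : ℕ) / d * d := by
          refine Polynomial.natDegree_mul_le.trans (Nat.add_le_add ?_ ?_)
          · exact Polynomial.natDegree_X_pow_le _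
          · refine Polynomial.natDegree_pow_le.trans ?_
            rw [hqd]
        have h2 : (i : ℕ) % d + (i : ℕ) / d * d = i := by
          rw [Nat.mul_comm]
          exact Nat.mod_add_div _ _
        have := i.2
        omega
      have h3 : Bmat h e q d M M2 r ρ (Sum.inl i) =
          act (X ^ ((i : ℕ) % d) * q ^ ((i : ℕ) / d))
            (fun n => hasseDeriv ((i : ℕ) / d) (h n)) (r ρ) := rfl
      rw [h3, act_apply _ _ _ hdeg, Finset.mul_sum]
      refine IntP.sum _ _ fun j hj => ?_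
      have h4 : Δ * ((X ^ ((i : ℕ) % d) * q ^ ((i : ℕ) / d) : K[X][X]).coeff j *
          hasseDeriv ((i : ℕ) / d) (h (r ρ + j))) =
          (X ^ ((i : ℕ) % d) * q ^ ((i : ℕ) / d) : K[X][X]).coeff j *
            (Δ * hasseDeriv ((i : ℕ) / d) (h (r ρ + j))) := by ring
      rw [h4]
      refine (A6_coeff_mul (A6_coeff_X_pow _) (A6_coeff_pow hqi _) j).mul ?_
      refine IntP.hasse _ _ (hden _ _ ?_)
      have := hr ρ
      have := Finset.mem_range.1 hj
      omega
    · have h3 : Bmat h e q d M M2 r ρ (Sum.inr p) = e p.1 (r ρ + p.2) := rfl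
      rw [h3]
      refine hdene _ _ _ ?_
      have := hr ρ
      have := p.2.2
      omega
  set F : K[X] := ∏ i : Fin M, q.leadingCoeff ^ ((i : ℕ) / d) with hF
  have hFs : hs F ≤ (Q0 : ℝ) ^ (M * M) := by
    have hQ1 : (1 : ℝ) ≤ Q0 := by exact_mod_cast hQ0
    have h1 : hs F ≤ ∏ _i : Fin M, (Q0 : ℝ) ^ M := by
      rw [hF]
      refine (hs_prod_le _ _).trans ?_
      refine Finset.prod_le_prod (fun i _ => hs_nonneg _) fun i _ => ?_
      refine (hs_pow_le _ _).trans ?_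
      refine (pow_le_pow_left₀ (hs_nonneg _) hQ _).trans ?_
      refine pow_le_pow_right₀ hQ1 ?_
      have h2 := Nat.div_le_self (i : ℕ) d
      have := i.2
      omega
    refine h1.trans (le_of_eq ?_)
    rw [Finset.prod_const, Finset.card_univ, Fintype.card_fin, ← pow_mul]
  have hdetA : hs (Δ • Amat h e M M2 r).det ≤ (W.factorial : ℝ) * b ^ W := by
    have h1 := hs_det_le (Δ • Amat h e M M2 r) b hb0 hA
    rwa [hcard] at h1
  have hPs : hs ((Δ • Amat h e M M2 r).det * F) < ((∏ i ∈ range M, (i / d).factorial : ℕ) : ℝ) := by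
    have h1 : hs ((Δ • Amat h e M M2 r).det * F) ≤
        ((W.factorial * (C ^ (N + M2 + 1)) ^ (2 * W) * Q0 ^ (M * M) : ℕ) : ℝ) := by
      refine (hs_mul_le _ _).trans ?_
      refine (mul_le_mul hdetA hFs (hs_nonneg _) (by positivity)).trans (le_of_eq ?_)
      push_cast
      rw [hb, ← pow_two, ← pow_mul, ← pow_mul]
    exact lt_of_le_of_lt h1 (by exact_mod_cast hbig)
  have hprod : (∏ i : Fin M, ((((i : ℕ) / d).factorial : ℕ) : K[X])) =
      ((∏ i ∈ range M, (i / d).factorial : ℕ) : K[X]) := by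
    rw [Nat.cast_prod, Finset.prod_range]
  have hkey : (Δ • Amat h e M M2 r).det * F =
      ((∏ i ∈ range M, (i / d).factorial : ℕ) : K[X]) * (Δ • Bmat h e q d M M2 r).det := by
    rw [Matrix.det_smul, Matrix.det_smul, mul_assoc, hdet, hprod]
    ring
  have hzero := eq_zero_of_dvd _ _ _ (IntP.det _ hB) hkey hPs
  have hlc : q.leadingCoeff ≠ 0 := by
    intro h0
    rw [Polynomial.leadingCoeff_eq_zero] at h0
    rw [h0, Polynomial.natDegree_zero] at hqd
    omega
  have hFne : F ≠ 0 := by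
    rw [hF]
    exact Finset.prod_ne_zero_iff.2 fun i _ => pow_ne_zero _ hlc
  have hΔne : Δ ≠ 0 := by
    rw [hΔ]
    have h1 := (hden1 T).1
    exact_mod_cast (by omega : den T ≠ 0)
  have h5 := (mul_eq_zero.1 hzero).resolve_right hFne
  rw [Matrix.det_smul] at h5
  exact (mul_eq_zero.1 h5).resolve_left (pow_ne_zero _ hΔne)

end Pool.Agent.FCT
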