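import Mathlib

/-! Row FCT-A7: the product of factorials beats `A^(M^2)`. -/

set_option autoImplicit false

namespace Pool.Agent.FCT

open Finset

theorem A7_fac (B m : ℕ) (hB : 1 ≤ B) : B ^ m ≤ B ^ B * m.factorial := by
  induction m with
  | zero =>
    rw [pow_zero, Nat.factorial_zero, mul_one]
    exact Nat.one_le_pow _ _ hB
  | succ m ih =>
    by_cases h : m + 1 ≤ B
    · calc B ^ (m + 1) ≤ B ^ B := Nat.pow_le_pow_right hB h
        _ = B ^ B * 1 := (mul_one _).symm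
        _ ≤ B ^ B * (m + 1).factorial := Nat.mul_le_mul_left _ (Nat.factorial_pos _)
    · calc B ^ (m + 1) = B * B ^ m := by rw [pow_succ, mul_comm]
        _ ≤ (m + 1) * (B ^ B * m.factorial) := Nat.mul_le_mul (by omega) ih
        _ = B ^ B * (m + 1).factorial := by rw [Nat.factorial_succ]; ring

theorem A7_lin (c x : ℕ) (hx : 2 * c + 4 ≤ x) : c * (x + 1) ≤ 2 ^ x := by
  induction x, hx using Nat.le_induction with
  | base =>
    have h1 : c + 1 ≤ 2 ^ c := Nat.lt_two_pow_self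
    have h2 : 2 ^ (2 * c + 4) = 16 * (2 ^ c * 2 ^ c) := by
      rw [pow_add, two_mul, pow_add]
      norm_num
      ring
    rw [h2]
    have h3 : (c + 1) * (c + 1) ≤ 2 ^ c * 2 ^ c := Nat.mul_le_mul h1 h1
    nlinarith
  | succ x hx ih =>
    have h1 : c ≤ 2 ^ x := by
      calc c = c * 1 := (mul_one c).symm
        _ ≤ c * (x + 1) := Nat.mul_le_mul_left _ (by omega)
        _ ≤ 2 ^ x := ih
    rw [pow_succ]
    nlinarith

/-- Proof.  For `i ≥ M/2` (about `M/2` of the factors, the others are `≥ 1`) `i / d ≥ m := (M/2)/d`, so the product is at least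
`(m!)^(M/2)`.  Use `m! ≥ (m/3)^m` or `m! ≥ B^m / B^B`: for every natural `B`: `B^m ≤ B^B * m!`
(as `m! ≥ B^(m-B)` for `m ≥ B`; `Nat.factorial_lt`-type induction: `m! * B^B ≥ B^m`).  So the product times `B^(B M)` is at least
`B^(m (M/2))`, and `m (M/2) ≥ M^2/(5 d)` for `M` large; the right side is `≤ A^(M^2) * (A M)^(A M) ≤ (A+1)^(2 M^2)` for large `M`
(`(A M)^(A M) ≤ A'^(M^2)` as `M log M = o(M^2)`; e.g. `A * M ≤ 2^(M / A')`...).  Choose `B = (A+2)^(20 d)`. -/
theorem prod_factorial_big (A d : ℕ) (hd : 1 ≤ d) :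
    ∃ M0 : ℕ, ∀ M : ℕ, M0 ≤ M → A ^ (M * M) * (A * M) ^ (A * M) < ∏ i ∈ range M, (i / d).factorial := by
  obtain ⟨a, ha⟩ : ∃ a : ℕ, a = A + 2 := ⟨_, rfl⟩
  obtain ⟨B, hB⟩ : ∃ B : ℕ, B = a ^ (20 * d) := ⟨_, rfl⟩
  have ha2 : 2 ≤ a := by omega
  have hB1 : 1 ≤ B := by rw [hB]; exact Nat.one_le_pow _ _ (by omega)
  refine ⟨2 * (20 * (d * (B + 1)) + 20) + (A + 1) * (2 * (A * (A + 1)) + 5), fun M hM => ?_⟩
  obtain ⟨H, hH⟩ : ∃ H : ℕ, H = M / 2 := ⟨_, rfl⟩
  obtain ⟨m, hm⟩ : ∃ m : ℕ, m = H / d := ⟨_, rfl⟩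
  have hH1 : 20 * (d * (B + 1)) + 20 ≤ H := by
    rw [hH, Nat.le_div_iff_mul_le (by norm_num)]
    omega
  have hH2 : M ≤ 2 * H + 1 := by omega
  have hH3 : H ≤ M - H := by omega
  have hH4 : H ≤ M := by omega
  have hdm : H < d * m + d := by
    have h1 := Nat.div_add_mod H d
    have h2 := Nat.mod_lt H (show 0 < d by omega)
    rw [hm]
    omega
  -- the small factors
  have hx : (A * M) ^ (A * M) ≤ a ^ (M * M) := by
    obtain ⟨x, hxd⟩ : ∃ x : ℕ, x = M / (A + 1) := ⟨_, rfl⟩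
    have h1 : 2 * (A * (A + 1)) + 4 ≤ x := by
      rw [hxd, Nat.le_div_iff_mul_le (by omega)]
      nlinarith
    have h2 := A7_lin (A * (A + 1)) x h1
    have h3 : M ≤ (A + 1) * (x + 1) := by
      have h4 := Nat.div_add_mod M (A + 1)
      have h5 := Nat.mod_lt M (show 0 < A + 1 by omega)
      rw [← hxd] at h4
      nlinarith
    have h4 : A * M ≤ 2 ^ x := by
      calc A * M ≤ A * ((A + 1) * (x + 1)) := Nat.mul_le_mul_left _ h3
        _ = A * (A + 1) * (x + 1) := by ring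
        _ ≤ 2 ^ x := h2
    have h5 : x * (A * M) ≤ M * M := by
      have h6 : x * (A + 1) ≤ M := by rw [hxd]; exact Nat.div_mul_le_self M (A + 1)
      have h7 : x * A ≤ M := by nlinarith
      calc x * (A * M) = x * A * M := by ring
        _ ≤ M * M := Nat.mul_le_mul_right _ h7
    calc (A * M) ^ (A * M) ≤ (2 ^ x) ^ (A * M) := Nat.pow_le_pow_left h4 _
      _ = 2 ^ (x * (A * M)) := by rw [← pow_mul]
      _ ≤ 2 ^ (M * M) := Nat.pow_le_pow_right (by norm_num) h5
      _ ≤ a ^ (M * M) := Nat.pow_le_pow_left ha2 _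
  have hA : A ^ (M * M) ≤ a ^ (M * M) := Nat.pow_le_pow_left (by omega) _
  have hexp : M * M + M * M + 20 * d * (B * H) < 20 * d * (m * H) := by
    have h1 : M * M ≤ (2 * H + 1) * (2 * H + 1) := Nat.mul_le_mul hH2 hH2
    have h2 : H * H < (d * m + d) * H := Nat.mul_lt_mul_of_pos_right hdm (by omega)
    have h3 : (20 * (d * (B + 1)) + 20) * H ≤ H * H := Nat.mul_le_mul_right _ hH1
    nlinarith
  have hB2 : B ^ (B * H) = a ^ (20 * d * (B * H)) := by rw [hB, ← pow_mul]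
  have hB3 : B ^ (m * H) = a ^ (20 * d * (m * H)) := by rw [hB, ← pow_mul]
  have h1 : A ^ (M * M) * (A * M) ^ (A * M) * B ^ (B * H) < B ^ (B * H) * (m.factorial) ^ H := by
    calc A ^ (M * M) * (A * M) ^ (A * M) * B ^ (B * H) ≤ a ^ (M * M) * a ^ (M * M) * a ^ (20 * d * (B * H)) := by
          rw [hB2]
          exact Nat.mul_le_mul_right _ (Nat.mul_le_mul hA hx)
      _ = a ^ (M * M + M * M + 20 * d * (B * H)) := by rw [pow_add, pow_add]
      _ < a ^ (20 * d * (m * H)) := Nat.pow_lt_pow_right (by omega) hexp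
      _ = (B ^ m) ^ H := by rw [← hB3, pow_mul]
      _ ≤ (B ^ B * m.factorial) ^ H := Nat.pow_le_pow_left (A7_fac B m hB1) _
      _ = B ^ (B * H) * (m.factorial) ^ H := by rw [mul_pow, ← pow_mul]
  have h2 : A ^ (M * M) * (A * M) ^ (A * M) < (m.factorial) ^ H := by
    rw [mul_comm (B ^ (B * H))] at h1
    exact lt_of_mul_lt_mul_right h1 (Nat.zero_le _)
  refine h2.trans_le ?_
  have hM' : M = H + (M - H) := by omega
  rw [hM', prod_range_add]
  have h3 : 1 ≤ ∏ x ∈ range H, (x / d).factorial := Finset.prod_pos fun i _ => Nat.factorial_pos _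
  have h4 : (m.factorial) ^ (M - H) ≤ ∏ x ∈ range (M - H), ((H + x) / d).factorial := by
    have h5 : (m.factorial) ^ (M - H) = ∏ _x ∈ range (M - H), m.factorial := by rw [prod_const, card_range]
    rw [h5]
    refine prod_le_prod (fun _ _ => Nat.zero_le _) fun i _ => Nat.factorial_le ?_
    rw [hm]
    exact Nat.div_le_div_right (Nat.le_add_right H i)
  calc (m.factorial) ^ H ≤ (m.factorial) ^ (M - H) := Nat.pow_le_pow_right (Nat.factorial_pos _) hH3
    _ ≤ ∏ x ∈ range (M - H), ((H + x) / d).factorial := h4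
    _ = 1 * ∏ x ∈ range (M - H), ((H + x) / d).factorial := (one_mul _).symm
    _ ≤ _ := Nat.mul_le_mul_right _ h3

end Pool.Agent.FCT
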