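import Mathlib

/-! Row FCT-A8: vanishing of all maximal minors gives a kernel vector. -/

set_option autoImplicit false

namespace Pool.Agent.FCT

open Finset

/-- Proof.  If not, the columns `A · c` (`c : n`) are linearly independent over `κ`, so the matrix has rank `card n`, hence its rows
span `n → κ` (row rank = column rank, `Matrix.rank_transpose`), so some `card n` of the rows form a basis
(`exists_linearIndependent`, or `Submodule.exists_...`), i.e. there is `r : n → Fin N` with linearly independent rows
`A (r ·)`, and the determinant of this square matrix is nonzero (`Matrix.linearIndependent_rows_iff_isUnit`). -/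
theorem exists_kernel {κ : Type*} [Field κ] {n : Type*} [Fintype n] [DecidableEq n] (N : ℕ)
    (A : Fin N → n → κ) (hA : ∀ r : n → Fin N, (Matrix.of fun ρ c => A (r ρ) c).det = 0) :
    ∃ v : n → κ, v ≠ 0 ∧ ∀ ν, ∑ c, A ν c * v c = 0 := by
  by_contra hcon
  push Not at hcon
  have hspan : Submodule.span κ (Set.range A) = ⊤ := by
    by_contra hne
    obtain ⟨f, hf0, hf⟩ := Submodule.exists_le_ker_of_lt_top _ (lt_top_iff_ne_top.2 hne)
    have hfv : ∀ w : n → κ, f w = ∑ c, w c * f (Pi.single c 1) := by
      intro w
      conv_lhs => rw [pi_eq_sum_univ' w]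
      rw [map_sum]
      refine sum_congr rfl fun c _ => ?_
      rw [map_smul, smul_eq_mul]
    have hv : (fun c => f (Pi.single c 1)) ≠ 0 := by
      intro h0
      apply hf0
      ext w
      rw [LinearMap.comp_apply]
      have h1 := hfv (LinearMap.single κ (fun _ => κ) w 1)
      rw [h1, LinearMap.comp_apply, LinearMap.zero_apply]
      refine sum_eq_zero fun c _ => ?_
      have h2 : f (Pi.single c 1) = 0 := congrFun h0 c
      rw [h2, mul_zero]
    obtain ⟨ν, hν⟩ := hcon _ hv
    apply hν
    rw [← hfv (A ν)]
    exact hf (Submodule.subset_span ⟨ν, rfl⟩)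
  obtain ⟨b, hb, hbs, hbi⟩ := exists_linearIndependent κ (Set.range A)
  rw [hspan] at hbs
  have hbs' : ⊤ ≤ Submodule.span κ (Set.range (Subtype.val : b → n → κ)) := by
    rw [Subtype.range_coe, hbs]
  let bb : Module.Basis b κ (n → κ) := Module.Basis.mk hbi hbs'
  have hfb : Finite b := Set.Finite.subset (Set.finite_range A) hb
  have : Fintype b := Fintype.ofFinite b
  have hcard : Fintype.card n = Fintype.card b := by
    rw [← Module.finrank_eq_card_basis bb, Module.finrank_fintype_fun_eq_card]
  let e : n ≃ b := Fintype.equivOfCardEq hcard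
  have hr : ∀ ρ : n, ∃ i : Fin N, A i = (e ρ : n → κ) := fun ρ => hb (e ρ).2
  choose r hr using hr
  have hli : LinearIndependent κ (fun ρ : n => A (r ρ)) := by
    have h1 : (fun ρ : n => A (r ρ)) = (Subtype.val : b → n → κ) ∘ e := by
      funext ρ
      rw [hr ρ]
      rfl
    rw [h1]
    exact hbi.comp e e.injective
  have hdet := hA r
  have h2 : LinearIndependent κ (Matrix.of fun ρ c => A (r ρ) c).row := hli
  rw [Matrix.linearIndependent_rows_iff_isUnit, Matrix.isUnit_iff_isUnit_det, hdet] at h2
  exact not_isUnit_zero h2

end Pool.Agent.FCT
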