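import Pool.Agent.FCT.A2
import Pool.Agent.FCT.A4
import Pool.Agent.FCT.A6
import Pool.Agent.FCT.A7
import Pool.Agent.FCT.A8

/-! Row FCT-A9: the arithmetic lemma. -/

set_option autoImplicit false

namespace Pool.Agent.FCT

open Polynomial Finset NumberField

theorem A9_poly {κ : Type*} [Field κ] (M : ℕ) (v : Fin M → κ) :
    ∃ P : κ[X], P.natDegree ≤ M ∧ (∀ i : Fin M, P.coeff i = v i) ∧
      ∀ (a : ℕ → κ) (n : ℕ), act P a n = ∑ i : Fin M, v i * a (n + i) := by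
  refine ⟨∑ i : Fin M, C (v i) * X ^ (i : ℕ), ?_, ?_, ?_⟩
  · refine natDegree_sum_le_of_forall_le _ _ (fun i _ => ?_)
    exact (natDegree_C_mul_X_pow_le _ _).trans i.2.le
  · intro i
    rw [finsetSum_coeff]
    rw [Finset.sum_eq_single i]
    · simp
    · intro b _ hb
      rw [coeff_C_mul, coeff_X_pow, if_neg, mul_zero]
      intro h
      exact hb (Fin.ext h.symm)
    · simp
  · intro a n
    rw [act_sum_left, Finset.sum_apply]
    refine Finset.sum_congr rfl (fun i _ => ?_)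
    rw [act_mul, act_C, act_X_pow]

/-- a common constant for finitely many G-type sequences -/
theorem A9_common {K : Type*} [Field K] [NumberField K] {ι : Type*} [Fintype ι]
    (h : ℕ → K[X]) (e : ι → ℕ → K[X]) (hG : GType h) (hGe : ∀ l, GType (e l)) :
    ∃ C : ℕ, 1 ≤ C ∧ (∀ n, hs (h n) ≤ (C : ℝ) ^ (n + 1)) ∧ (∀ l n, hs (e l n) ≤ (C : ℝ) ^ (n + 1)) ∧
      ∃ den : ℕ → ℕ, (∀ n, 1 ≤ den n ∧ den n ≤ C ^ (n + 1)) ∧
        (∀ m n, m ≤ n → IntP (((den n : ℕ) : K[X]) * h m)) ∧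
        ∀ l m n, m ≤ n → IntP (((den n : ℕ) : K[X]) * e l m) := by
  classical
  obtain ⟨Ch, hCh, hsh, dh, hdh, hih⟩ := hG
  choose Ce hCe hse de hde hie using hGe
  have hprod : ∀ l, Ce l ≤ ∏ l, Ce l := fun l =>
    Finset.single_le_prod' (fun i _ => hCe i) (Finset.mem_univ l)
  have hprod1 : 1 ≤ ∏ l, Ce l := Finset.one_le_prod' (fun i _ => hCe i)
  have hle1 : Ch ≤ Ch * ∏ l, Ce l := Nat.le_mul_of_pos_right _ (by omega)
  have hle2 : ∀ l, Ce l ≤ Ch * ∏ l, Ce l := fun l =>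
    (hprod l).trans (Nat.le_mul_of_pos_left _ (by omega))
  refine ⟨Ch * ∏ l, Ce l, Nat.mul_pos hCh hprod1, ?_, ?_, fun n => dh n * ∏ l, de l n, ?_, ?_, ?_⟩
  · intro n
    refine (hsh n).trans ?_
    exact pow_le_pow_left₀ (by positivity) (by exact_mod_cast hle1) _
  · intro l n
    refine (hse l n).trans ?_
    exact pow_le_pow_left₀ (by positivity) (by exact_mod_cast hle2 l) _
  · intro n
    refine ⟨Nat.mul_pos (hdh n).1 (Finset.one_le_prod' (fun i _ => (hde i n).1)), ?_⟩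
    rw [mul_pow, ← Finset.prod_pow]
    exact Nat.mul_le_mul (hdh n).2 (Finset.prod_le_prod' (fun i _ => (hde i n).2))
  · intro m n hmn
    have := (IntP.natCast (K := K) (∏ l, de l n)).mul (hih m n hmn)
    convert this using 1
    push_cast
    ring
  · intro l m n hmn
    have := (IntP.natCast (K := K) (dh n * ∏ l' ∈ univ.erase l, de l' n)).mul (hie l m n hmn)
    convert this using 1
    have h2 : (∏ l' : ι, de l' n) = de l n * ∏ l' ∈ univ.erase l, de l' n :=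
      (Finset.mul_prod_erase _ _ (Finset.mem_univ l)).symm
    beta_reduce
    rw [h2]
    push_cast
    ring

/-- the numerical condition -/
theorem A9_big (c D d C Q0 Λ : ℕ) (hd : 1 ≤ d) (hC : 1 ≤ C) (hQ0 : 1 ≤ Q0) :
    ∃ M0 : ℕ, 1 ≤ M0 ∧ ∀ M, M0 ≤ M →
      (M + c * (M + D * M)).factorial * (C ^ (Λ * M + (M + D * M) + 1)) ^ (2 * (M + c * (M + D * M))) *
        Q0 ^ (M * M) < ∏ i ∈ range M, (i / d).factorial := by
  set a := 1 + c * (D + 1) with ha
  set A1 := C ^ (2 * a * (Λ + D + 2)) * Q0 with hA1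
  have ha1 : 1 ≤ a := by omega
  have hA11 : 1 ≤ A1 := Nat.mul_pos (Nat.pow_pos (by omega)) hQ0
  obtain ⟨M0, hM0⟩ := prod_factorial_big (a * A1) d hd
  refine ⟨max M0 1, le_max_right _ _, fun M hM => ?_⟩
  have hM1 : 1 ≤ M := (le_max_right _ _).trans hM
  refine lt_of_le_of_lt ?_ (hM0 M ((le_max_left _ _).trans hM))
  have hW : M + c * (M + D * M) = a * M := by rw [ha]; ring
  rw [hW]
  have e1 : (a * M).factorial ≤ (a * A1 * M) ^ (a * A1 * M) := by
    refine (Nat.factorial_le_pow _).trans ?_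
    have h1 : a * M ≤ a * A1 * M := by
      calc a * M = a * 1 * M := by ring
        _ ≤ a * A1 * M := by gcongr
    calc (a * M) ^ (a * M) ≤ (a * A1 * M) ^ (a * M) := Nat.pow_le_pow_left h1 _
      _ ≤ (a * A1 * M) ^ (a * A1 * M) := Nat.pow_le_pow_right (by positivity) h1
  have e2 : (C ^ (Λ * M + (M + D * M) + 1)) ^ (2 * (a * M)) ≤ (C ^ (2 * a * (Λ + D + 2))) ^ (M * M) := by
    rw [← pow_mul, ← pow_mul]
    refine Nat.pow_le_pow_right hC ?_
    calc (Λ * M + (M + D * M) + 1) * (2 * (a * M)) ≤ (Λ * M + (M + D * M) + M) * (2 * (a * M)) := by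
          gcongr
      _ = 2 * a * (Λ + D + 2) * (M * M) := by ring
  calc (a * M).factorial * (C ^ (Λ * M + (M + D * M) + 1)) ^ (2 * (a * M)) * Q0 ^ (M * M)
      ≤ (a * A1 * M) ^ (a * A1 * M) * (C ^ (2 * a * (Λ + D + 2))) ^ (M * M) * Q0 ^ (M * M) := by
        gcongr
    _ = A1 ^ (M * M) * (a * A1 * M) ^ (a * A1 * M) := by rw [hA1, mul_pow]; ring
    _ ≤ (a * A1) ^ (M * M) * (a * A1 * M) ^ (a * A1 * M) := by
        gcongr
        exact Nat.le_mul_of_pos_left _ ha1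

/-- The core with `q` normalised. -/
theorem A9_core {K : Type} [Field K] [NumberField K] {ι : Type} [Fintype ι] [DecidableEq ι]
    (h ψ : ℕ → K[X]) (e : ι → ℕ → K[X]) (hh : dd h = h + ψ) (hG : GType h) (hGe : ∀ l, GType (e l))
    (q : K[X][X]) (hq0 : q ≠ 0) (hqd : 1 ≤ q.natDegree) (hqi : ∀ i, IntP (q.coeff i))
    (B : ι → K[X][X]) (Bj : ι → ι → K[X][X])
    (h1 : act q ψ = ∑ l, act (B l) (e l))
    (h2 : ∀ j, act q (dd (e j)) = ∑ l, act (Bj j l) (e l)) :
    ∃ C1 : ℕ, ∀ Λ : ℕ, ∃ M0 : ℕ, ∀ M, M0 ≤ M → ∃ (P : (RatFunc K)[X]) (Q : ι → (RatFunc K)[X]),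
      (P ≠ 0 ∨ ∃ l, Q l ≠ 0) ∧ P.natDegree ≤ C1 * M ∧ (∀ l, (Q l).natDegree ≤ C1 * M) ∧
      ∀ ν < Λ * M, act P (fun n => algebraMap K[X] (RatFunc K) (h n)) ν +
        ∑ l, act (Q l) (fun n => algebraMap K[X] (RatFunc K) (e l n)) ν = 0 := by
  classical
  obtain ⟨C, hC, hsh, hse, den, hden1, hden, hdene⟩ := A9_common h e hG hGe
  set D := q.natDegree + ∑ l, (B l).natDegree + ∑ j, ∑ l, (Bj j l).natDegree with hD
  have hqD : q.natDegree ≤ D := by omega
  have hBD : ∀ l, (B l).natDegree ≤ D := fun l => by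
    have := Finset.single_le_sum (f := fun l => (B l).natDegree) (fun i _ => Nat.zero_le _)
      (Finset.mem_univ l)
    omega
  have hBjD : ∀ j l, (Bj j l).natDegree ≤ D := fun j l => by
    have t1 := Finset.single_le_sum (f := fun l => (Bj j l).natDegree) (fun i _ => Nat.zero_le _)
      (Finset.mem_univ l)
    have t2 := Finset.single_le_sum (f := fun j => ∑ l, (Bj j l).natDegree) (fun i _ => Nat.zero_le _)
      (Finset.mem_univ j)
    omega
  have hit := iter_h h ψ e hh q D hqD B hBD Bj hBjD h1 h2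
  set Q0 := ⌈hs q.leadingCoeff⌉₊ + 1 with hQ0d
  have hQ01 : 1 ≤ Q0 := by omega
  have hQ0 : hs q.leadingCoeff ≤ Q0 := by
    have := Nat.le_ceil (hs q.leadingCoeff)
    have h3 : ((⌈hs q.leadingCoeff⌉₊ : ℕ) : ℝ) ≤ (Q0 : ℕ) := by
      exact_mod_cast (by omega : ⌈hs q.leadingCoeff⌉₊ ≤ Q0)
    linarith
  refine ⟨D + 1, fun Λ => ?_⟩
  obtain ⟨M0, hM01, hM0⟩ := A9_big (Fintype.card ι) D q.natDegree C Q0 Λ hqd hC hQ01
  refine ⟨M0, fun M hM => ?_⟩
  have hbig := hM0 M hM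
  have hminor : ∀ r : (Fin M ⊕ ι × Fin (M + D * M)) → ℕ, (∀ ρ, r ρ < Λ * M) →
      (Amat h e M (M + D * M) r).det = 0 := by
    intro r hr
    exact minor_zero h e q q.natDegree M (M + D * M) (Λ * M) hqd rfl hqi Q0 hQ01 hQ0 C hC hsh hse den
      hden1 hden hdene (by omega) r hr
      (det_Amat h e q q.natDegree D M (M + D * M) hqd rfl hit le_rfl r) hbig
  obtain ⟨v, hv0, hv⟩ := exists_kernel (κ := RatFunc K) (n := Fin M ⊕ ι × Fin (M + D * M)) (Λ * M)
    (fun ν c => algebraMap K[X] (RatFunc K)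
      (Sum.elim (fun i : Fin M => h ((ν : ℕ) + i)) (fun p : ι × Fin (M + D * M) => e p.1 ((ν : ℕ) + p.2)) c))
    (by
      intro r
      have := hminor (fun ρ => (r ρ : ℕ)) (fun ρ => (r ρ).2)
      have h4 := congrArg (algebraMap K[X] (RatFunc K)) this
      rw [RingHom.map_det, map_zero] at h4
      exact h4)
  obtain ⟨P, hPd, hPc, hPa⟩ := A9_poly M (fun i => v (Sum.inl i))
  choose Q hQd hQc hQa using fun l : ι => A9_poly (M + D * M) (fun j => v (Sum.inr (l, j)))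
  refine ⟨P, Q, ?_, ?_, ?_, ?_⟩
  · by_contra hcon
    push Not at hcon
    obtain ⟨hP0, hQ0'⟩ := hcon
    apply hv0
    funext c
    rcases c with i | ⟨l, j⟩
    · rw [← hPc i, hP0]; simp
    · rw [← hQc l j, hQ0' l]; simp
  · refine hPd.trans ?_
    nlinarith
  · intro l
    refine (hQd l).trans ?_
    nlinarith
  · intro ν hν
    have := hv ⟨ν, hν⟩
    rw [Fintype.sum_sum_type, Fintype.sum_prod_type] at this
    simp only [Sum.elim_inl, Sum.elim_inr] at this
    rw [hPa]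
    simp only [hQa]
    rw [← this]
    congr 1
    · exact Finset.sum_congr rfl (fun i _ => mul_comm _ _)
    · exact Finset.sum_congr rfl (fun l _ => Finset.sum_congr rfl (fun j _ => mul_comm _ _))

/-- Proof.  Normalise `q`: multiply it by `X` (so that `d = natDegree q ≥ 1`; multiply `B`, `Bj` by `X` too) and by a natural number
`m ≥ 1` with `m q` integral (`exists_int_mul`; multiply `B`, `Bj` by `m`): the hypotheses `h1`, `h2` are preserved (`act_mul`).
`D :=` a bound for the degrees of `q, B l, Bj j l`; `M2 := M + D * M`, `W = M + card ι * M2 ≤ a M`, `a := 1 + card ι (D+1)`,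
`C1 := D + 1`.  `C` := a common G-type constant: take the maximum (or product) of the constants, and as denominators the product
`den_h n * ∏ l, den_l n` (so that one `C` works for all: `C^(n+1)` with `C` the product of the constants).
Given `Λ`: `N := Λ * M`.  For `r : _ → ℕ` with values `< N`: `minor_zero` with `det_Amat`, `iter_h`; the condition `hbig` for
`M ≥ M0`: `W! ≤ (a M)^(a M)`, `(C^(N+M2+1))^(2W) ≤ (C^(2 (Λ+D+3) a))^(M*M)` for `M ≥ 1`, so `prod_factorial_big` with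
`A = max` of `a` and `C^(2(Λ+D+3)a) * Q0` works (`Q0 = ⌈hs (leadingCoeff)⌉₊ + 1`).
So all minors of the matrix `A : Fin N → (Fin M ⊕ ι × Fin M2) → K[X]` vanish; map to `RatFunc K` (`RingHom.map_det`) and use
`exists_kernel`.  The kernel vector `v` gives `P = ∑ i, v (inl i) X^i`, `Q l = ∑ j, v (inr (l,j)) X^j` (degrees `< M`, `< M2`,
`≤ C1 * M`), and `act P h ν + ∑ act (Q l) (e l) ν = ∑_c A ν c v c = 0`. -/
theorem AR {K : Type} [Field K] [NumberField K] {ι : Type} [Fintype ι] [DecidableEq ι]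
    (h ψ : ℕ → K[X]) (e : ι → ℕ → K[X]) (hh : dd h = h + ψ) (hG : GType h) (hGe : ∀ l, GType (e l))
    (q : K[X][X]) (hq0 : q ≠ 0) (B : ι → K[X][X]) (Bj : ι → ι → K[X][X])
    (h1 : act q ψ = ∑ l, act (B l) (e l))
    (h2 : ∀ j, act q (dd (e j)) = ∑ l, act (Bj j l) (e l)) :
    ∃ C1 : ℕ, ∀ Λ : ℕ, ∃ M0 : ℕ, ∀ M, M0 ≤ M → ∃ (P : (RatFunc K)[X]) (Q : ι → (RatFunc K)[X]),
      (P ≠ 0 ∨ ∃ l, Q l ≠ 0) ∧ P.natDegree ≤ C1 * M ∧ (∀ l, (Q l).natDegree ≤ C1 * M) ∧
      ∀ ν < Λ * M, act P (fun n => algebraMap K[X] (RatFunc K) (h n)) ν +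
        ∑ l, act (Q l) (fun n => algebraMap K[X] (RatFunc K) (e l n)) ν = 0 := by
  obtain ⟨m, hm1, hm⟩ := exists_int_mul (X * q)
  have hmK : (m : K) ≠ 0 := by
    exact_mod_cast (show m ≠ 0 by omega)
  have hmC : C (C (m : K)) = (m : K[X][X]) := by simp
  have hXq : X * q ≠ 0 := mul_ne_zero X_ne_zero hq0
  have hm0 : (m : K[X][X]) ≠ 0 := by
    rw [← hmC]
    simpa using hmK
  refine A9_core h ψ e hh hG hGe ((m : K[X][X]) * (X * q)) (mul_ne_zero hm0 hXq) ?_ ?_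
    (fun l => ((m : K[X][X]) * X) * B l) (fun j l => ((m : K[X][X]) * X) * Bj j l) ?_ ?_
  · rw [natDegree_mul hm0 hXq, natDegree_X_mul hq0]
    omega
  · intro i
    have h3 : (m : K[X][X]) = C (m : K[X]) := by simp
    rw [h3, coeff_C_mul]
    exact hm i
  · rw [← mul_assoc, act_mul, h1, act_sum_right]
    exact Finset.sum_congr rfl (fun l _ => (act_mul _ _ _).symm)
  · intro j
    rw [← mul_assoc, act_mul, h2, act_sum_right]
    exact Finset.sum_congr rfl (fun l _ => (act_mul _ _ _).symm)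

end Pool.Agent.FCT
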