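import Pool.Agent.FCT.Defs

/-! Row FCT-D4: two algebraic lemmas in `K[s][y]`. -/

set_option autoImplicit false

namespace Pool.Agent.FCT

open Polynomial Finset

variable {K : Type*} [Field K]

/-- Proof.  `F_y ≠ 0` (`natDegree F ≥ 1`, characteristic 0).  Over `κ = RatFunc K` (or `FractionRing K[X]`) the algebra
`κ[y]/(F_y)` is finite dimensional, so the classes of the powers `F^j` are linearly dependent: there is `χ ≠ 0` in `κ[c]` with
`F_y ∣ χ(F)` in `κ[y]`.  Clear the denominators (of `χ` and of the quotient) by an element of `K[s]`.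
(Alternative: `χ = charpoly`.) -/
theorem exists_chi [CharZero K] (F : K[X][X]) (hF : 1 ≤ F.natDegree) :
    ∃ χ Q : K[X][X], χ ≠ 0 ∧ χ.comp F = derivative F * Q := by
  classical
  have hD : derivative F ≠ 0 := by
    intro h0
    have h1 := derivative_eq_zero.1 h0
    omega
  have hinj : Function.Injective (algebraMap K[X] (FractionRing K[X])) := IsFractionRing.injective _ _
  set D : (FractionRing K[X])[X] := (derivative F).map (algebraMap K[X] (FractionRing K[X])) with hDdef
  have hD' : D ≠ 0 := by
    rw [hDdef]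
    exact (Polynomial.map_ne_zero_iff hinj).2 hD
  set F' : (FractionRing K[X])[X] := F.map (algebraMap K[X] (FractionRing K[X])) with hF'
  have : Module.Finite (FractionRing K[X]) (AdjoinRoot D) := (AdjoinRoot.powerBasis hD').finite
  have hint : IsIntegral (FractionRing K[X]) (AdjoinRoot.mk D F') := IsIntegral.of_finite _ _
  obtain ⟨χ', hχm, hχ⟩ := hint
  have hχ0 : χ' ≠ 0 := hχm.ne_zero
  have h1 : AdjoinRoot.mk D (χ'.comp F') = 0 := by
    rw [← hχ]
    rw [Polynomial.comp, Polynomial.hom_eval₂]
    rfl
  rw [AdjoinRoot.mk_eq_zero] at h1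
  obtain ⟨Q', hQ'⟩ := h1
  obtain ⟨b, hb, hb'⟩ := IsLocalization.integerNormalization_spec (nonZeroDivisors K[X]) χ'
  obtain ⟨d, hd, hd'⟩ := IsLocalization.integerNormalization_spec (nonZeroDivisors K[X]) Q'
  set χ₁ := IsLocalization.integerNormalization (nonZeroDivisors K[X]) χ' with hχ₁
  set Q₁ := IsLocalization.integerNormalization (nonZeroDivisors K[X]) Q' with hQ₁
  have hb0 : b ≠ 0 := nonZeroDivisors.ne_zero hb
  have hd0 : d ≠ 0 := nonZeroDivisors.ne_zero hd
  have hχ₁0 : χ₁ ≠ 0 := by
    intro h0
    exact hχ0 (IsFractionRing.integerNormalization_eq_zero_iff.1 h0)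
  refine ⟨C d * χ₁, C b * Q₁, mul_ne_zero (C_ne_zero.2 hd0) hχ₁0, ?_⟩
  refine Polynomial.map_injective _ hinj ?_
  rw [Polynomial.map_comp, Polynomial.map_mul, Polynomial.map_mul, Polynomial.map_mul, hb', hd', map_C, map_C,
    ← hF', ← hDdef]
  rw [Algebra.smul_def, Algebra.smul_def]
  rw [mul_comp, mul_comp, hQ']
  have e1 : (algebraMap K[X] (FractionRing K[X])[X]) b = C (algebraMap K[X] (FractionRing K[X]) b) := rfl
  have e2 : (algebraMap K[X] (FractionRing K[X])[X]) d = C (algebraMap K[X] (FractionRing K[X]) d) := rfl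
  rw [e1, e2, C_comp, C_comp]
  ring

/-- Division: strong induction on `natDegree G`.  If `natDegree G < E := natDegree F`, `G = ∑_{l<E} C (G_l) X^l` (`N = 0`,
`B l = C (G.coeff l)`).  Otherwise `natDegree G = E k + r`, `r < E`, `k ≥ 1`; `a = leadingCoeff F`, `g = leadingCoeff G`:
`G1 = C (a^k) * G - C g * X^r * F^k` has smaller degree; apply the induction hypothesis to `G1`, and note
`C g * X^r * F^k = (C g * X^k).comp F * X^r`. -/
theorem exists_div (F : K[X][X]) (hF : 1 ≤ F.natDegree) (G : K[X][X]) :
    ∃ (N : ℕ) (B : Fin F.natDegree → K[X][X]),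
      C (F.leadingCoeff ^ N) * G = ∑ l : Fin F.natDegree, (B l).comp F * X ^ (l : ℕ) := by
  classical
  have hF0 : F ≠ 0 := by
    rintro rfl
    simp at hF
  have ha : F.leadingCoeff ≠ 0 := leadingCoeff_ne_zero.2 hF0
  have main : ∀ n : ℕ, ∀ G : K[X][X], G.natDegree < n → ∃ (N : ℕ) (B : Fin F.natDegree → K[X][X]),
      C (F.leadingCoeff ^ N) * G = ∑ l : Fin F.natDegree, (B l).comp F * X ^ (l : ℕ) := by
    intro n
    induction n with
    | zero => intro G hG; omega
    | succ n ih =>
      intro G hG
      by_cases hlt : G.natDegree < F.natDegree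
      · refine ⟨0, fun l => C (G.coeff l), ?_⟩
        rw [pow_zero, C_1, one_mul]
        have h1 : ∑ l : Fin F.natDegree, (C (G.coeff l)).comp F * X ^ (l : ℕ) =
            ∑ l ∈ range F.natDegree, C (G.coeff l) * X ^ l := by
          rw [← Fin.sum_univ_eq_sum_range (fun l => C (G.coeff l) * X ^ l)]
          refine Finset.sum_congr rfl fun l _ => ?_
          rw [C_comp]
        rw [h1]
        exact as_sum_range_C_mul_X_pow' G hlt
      · have hE : 0 < F.natDegree := hF
        set k := G.natDegree / F.natDegree with hk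
        set r := G.natDegree % F.natDegree with hr
        have hdm : F.natDegree * k + r = G.natDegree := Nat.div_add_mod _ _
        have hrlt : r < F.natDegree := Nat.mod_lt _ hE
        have hG0 : G ≠ 0 := by
          rintro rfl
          simp at hlt
          omega
        have hlcG : G.leadingCoeff ≠ 0 := leadingCoeff_ne_zero.2 hG0
        -- the correction
        have hX : (X : K[X][X]) ^ r ≠ 0 := pow_ne_zero _ X_ne_zero
        have hFk : F ^ k ≠ 0 := pow_ne_zero _ hF0
        have d1 : (C (F.leadingCoeff ^ k) * G).natDegree = G.natDegree :=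
          natDegree_C_mul (pow_ne_zero _ ha)
        have d2 : (C G.leadingCoeff * X ^ r * F ^ k).natDegree = G.natDegree := by
          rw [natDegree_mul (mul_ne_zero (C_ne_zero.2 hlcG) hX) hFk, natDegree_C_mul hlcG, natDegree_X_pow,
            natDegree_pow, ← hdm]
          ring
        have n1 : C (F.leadingCoeff ^ k) * G ≠ 0 := mul_ne_zero (C_ne_zero.2 (pow_ne_zero _ ha)) hG0
        have n2 : C G.leadingCoeff * X ^ r * F ^ k ≠ 0 := mul_ne_zero (mul_ne_zero (C_ne_zero.2 hlcG) hX) hFk
        have l1 : (C (F.leadingCoeff ^ k) * G).leadingCoeff = F.leadingCoeff ^ k * G.leadingCoeff := by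
          rw [leadingCoeff_mul, leadingCoeff_C]
        have l2 : (C G.leadingCoeff * X ^ r * F ^ k).leadingCoeff = F.leadingCoeff ^ k * G.leadingCoeff := by
          rw [leadingCoeff_mul, leadingCoeff_mul, leadingCoeff_C, leadingCoeff_X_pow, leadingCoeff_pow, mul_one]
          ring
        have hdeg : (C (F.leadingCoeff ^ k) * G - C G.leadingCoeff * X ^ r * F ^ k).natDegree < n := by
          by_cases h0 : C (F.leadingCoeff ^ k) * G - C G.leadingCoeff * X ^ r * F ^ k = 0
          · rw [h0, natDegree_zero]
            omega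
          · have h2 := degree_sub_lt_left (p := C (F.leadingCoeff ^ k) * G)
              (q := C G.leadingCoeff * X ^ r * F ^ k)
              (by rw [degree_eq_natDegree n1, degree_eq_natDegree n2, d1, d2]) n1 (by rw [l1, l2])
            have h3 := natDegree_lt_natDegree h0 h2
            rw [d1] at h3
            omega
        obtain ⟨N, B, hB⟩ := ih _ hdeg
        refine ⟨N + k, fun l => B l + if (l : ℕ) = r then C (F.leadingCoeff ^ N * G.leadingCoeff) * X ^ k else 0, ?_⟩
        have h4 : C (F.leadingCoeff ^ (N + k)) * G =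
            C (F.leadingCoeff ^ N) * (C (F.leadingCoeff ^ k) * G - C G.leadingCoeff * X ^ r * F ^ k) +
              C (F.leadingCoeff ^ N) * (C G.leadingCoeff * X ^ r * F ^ k) := by
          rw [pow_add, C_mul]; ring
        rw [h4, hB]
        have h5 : ∀ l : Fin F.natDegree,
            (B l + if (l : ℕ) = r then C (F.leadingCoeff ^ N * G.leadingCoeff) * X ^ k else 0).comp F * X ^ (l : ℕ) =
            (B l).comp F * X ^ (l : ℕ) +
              if l = ⟨r, hrlt⟩ then C (F.leadingCoeff ^ N * G.leadingCoeff) * F ^ k * X ^ r else 0 := by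
          intro l
          by_cases hl : (l : ℕ) = r
          · have hl' : l = ⟨r, hrlt⟩ := Fin.ext hl
            rw [if_pos hl, if_pos hl', add_comp, mul_comp, C_comp, X_pow_comp, add_mul, hl]
          · have hl' : l ≠ ⟨r, hrlt⟩ := fun h => hl (by rw [h])
            rw [if_neg hl, if_neg hl', add_zero, add_zero]
        rw [Finset.sum_congr rfl fun l _ => h5 l, Finset.sum_add_distrib, Finset.sum_ite_eq', if_pos (mem_univ _)]
        rw [C_mul]
        ring
  exact main (G.natDegree + 1) G (Nat.lt_succ_self _)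

end Pool.Agent.FCT
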