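import Pool.Agent.FCT.D2
import Pool.Agent.FCT.D4

/-! Row FCT-D6: the connection on the moment sequences. -/

set_option autoImplicit false

namespace Pool.Agent.FCT

open Polynomial Finset

variable {K : Type*} [Field K]

theorem D6_div (F : K[X][X]) (hF : 1 ≤ F.natDegree) (G : K[X][X]) :
    ∃ (N : ℕ) (B : Fin F.natDegree → K[X][X]),
      act (C (F.leadingCoeff ^ N)) (eG F G) = ∑ l : Fin F.natDegree, act (B l) (ee F l) := by
  obtain ⟨N, B, hB⟩ := exists_div F hF G
  refine ⟨N, B, ?_⟩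
  rw [act_eG, C_comp, hB, eG_sum]
  refine Finset.sum_congr rfl (fun l _ => ?_)
  rw [← act_eG, eG_X_pow]

theorem D6_psi (F : K[X][X]) : act (X : K[X][X]) (psi F) = act (X : K[X][X]) (ee F 0) := by
  rw [act_X, act_X]
  funext n
  simp [psi, ee]

/-- Proof.  With `exists_chi`: `q1 = (X - C A)(X - C B) χ ≠ 0`.  For each `j`, `connection_eG` for `G = X^j` gives `G'_j`, and
`exists_div` for `G'_j` gives `act (C (a^N_j)) (eG F G'_j) = ∑ act (B l) (ee F l)` (`act_eG`, `eG_sum`, `eG_X_pow`).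
`psi F` and `ee F 0` differ only at `n = 0`, so `act X (psi F) = act X (ee F 0)`.
Take `q = X * C (a^(max N_j)) * q1` and adjust the coefficients (`act_mul`). -/
theorem connection [CharZero K] (F : K[X][X]) (hF : 1 ≤ F.natDegree) :
    ∃ (q : K[X][X]) (B : Fin F.natDegree → K[X][X]) (Bj : Fin F.natDegree → Fin F.natDegree → K[X][X]),
      q ≠ 0 ∧ act q (psi F) = ∑ l : Fin F.natDegree, act (B l) (ee F l) ∧
      ∀ j : Fin F.natDegree, act q (dd (ee F j)) = ∑ l : Fin F.natDegree, act (Bj j l) (ee F l) := by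
  classical
  obtain ⟨χ, Q, hχ0, hχ⟩ := exists_chi F hF
  choose G' hG' using fun j : Fin F.natDegree => connection_eG F χ Q hχ (X ^ (j : ℕ))
  choose N B hB using fun j : Fin F.natDegree => D6_div F hF (G' j)
  set q1 : K[X][X] := (X - C (eval X F)) * (X - C (eval 0 F)) * χ with hq1
  have hF0 : F ≠ 0 := by
    rintro rfl
    simp at hF
  have hlc : F.leadingCoeff ≠ 0 := leadingCoeff_ne_zero.2 hF0
  obtain ⟨NN, hNle⟩ : ∃ NN, ∀ j, N j ≤ NN := ⟨∑ j, N j, fun j =>
    Finset.single_le_sum (f := N) (fun i _ => Nat.zero_le _) (Finset.mem_univ j)⟩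
  refine ⟨X * C (F.leadingCoeff ^ NN) * q1,
    fun l => if (l : ℕ) = 0 then X * C (F.leadingCoeff ^ NN) * q1 else 0,
    fun j l => X * C (F.leadingCoeff ^ (NN - N j)) * B j l, ?_, ?_, ?_⟩
  · refine mul_ne_zero (mul_ne_zero X_ne_zero ?_) ?_
    · rw [Ne, C_eq_zero]
      exact pow_ne_zero _ hlc
    · exact mul_ne_zero (mul_ne_zero (X_sub_C_ne_zero _) (X_sub_C_ne_zero _)) hχ0
  · beta_reduce
    rw [Finset.sum_eq_single (⟨0, by omega⟩ : Fin F.natDegree)]
    · rw [if_pos rfl]
      have e1 : X * C (F.leadingCoeff ^ NN) * q1 = (C (F.leadingCoeff ^ NN) * q1) * X := by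
        ring
      rw [e1, act_mul, D6_psi, ← act_mul]
    · intro b _ hb
      rw [if_neg, act_zero]
      intro h
      exact hb (Fin.ext h)
    · intro h
      exact absurd (Finset.mem_univ _) h
  · intro j
    beta_reduce
    have e1 : X * C (F.leadingCoeff ^ NN) * q1 =
        (X * C (F.leadingCoeff ^ (NN - N j))) * (C (F.leadingCoeff ^ (N j)) * q1) := by
      have h2 : F.leadingCoeff ^ NN = F.leadingCoeff ^ (NN - N j) * F.leadingCoeff ^ (N j) := by
        rw [← pow_add, Nat.sub_add_cancel (hNle j)]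
      rw [h2, C_mul]
      ring
    rw [e1, act_mul, act_mul (C (F.leadingCoeff ^ (N j))) q1, ← eG_X_pow, hG', hB, act_sum_right]
    exact Finset.sum_congr rfl (fun l _ => (act_mul _ _ _).symm)

end Pool.Agent.FCT
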