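import Pool.Agent.FCT.A1

/-! Row FCT-I1: a maximal independent subfamily. -/

set_option autoImplicit false

namespace Pool.Agent.FCT

open Polynomial Finset

/-- Proof.  Among the subsets `I` of `ι` that are independent (first property; `∅` is) choose one of maximal cardinality.
For `j ∈ I` take `q = 1`.  For `j ∉ I` the set `insert j I` is dependent: a relation `∑ act (B l) (e l) = 0`, `B ≠ 0`, supported on
`insert j I`; `B j ≠ 0` by independence of `I`; so `q = B j`, and `act (B j) (e j) = ∑_{l ∈ I} act (- B l) (e l)`. -/
theorem exists_indep {A : Type*} [CommRing A] [IsDomain A] {ι : Type*} [Fintype ι] [DecidableEq ι]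
    (e : ι → ℕ → A) :
    ∃ I : Finset ι, (∀ B : ι → A[X], (∀ l, l ∉ I → B l = 0) → ∑ l, act (B l) (e l) = 0 → ∀ l, B l = 0) ∧
      ∀ j, ∃ (q : A[X]) (B : ι → A[X]), q ≠ 0 ∧ (∀ l, l ∉ I → B l = 0) ∧
        act q (e j) = ∑ l, act (B l) (e l) := by
  classical
  let P : Finset ι → Prop := fun I => ∀ B : ι → A[X], (∀ l, l ∉ I → B l = 0) → ∑ l, act (B l) (e l) = 0 → ∀ l, B l = 0
  have h0 : P ∅ := fun B hB _ l => hB l (Finset.notMem_empty l)
  obtain ⟨I, hI, hmax⟩ := (Finset.univ.filter P).exists_max_image Finset.card
    ⟨∅, Finset.mem_filter.2 ⟨Finset.mem_univ _, h0⟩⟩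
  have hPI : P I := (Finset.mem_filter.1 hI).2
  refine ⟨I, hPI, fun j => ?_⟩
  by_cases hj : j ∈ I
  · refine ⟨1, fun l => if l = j then 1 else 0, one_ne_zero, fun l hl => ?_, ?_⟩
    · have : l ≠ j := by rintro rfl; exact hl hj
      simp only [this, if_false]
    · rw [Finset.sum_eq_single j]
      · simp only [if_true]
      · intro l _ hl
        simp only [hl, if_false, act_zero]
      · intro h
        exact absurd (Finset.mem_univ j) h
  · have hnP : ¬ P (insert j I) := by
      intro h
      have h1 := hmax (insert j I) (Finset.mem_filter.2 ⟨Finset.mem_univ _, h⟩)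
      rw [Finset.card_insert_of_notMem hj] at h1
      omega
    simp only [P, not_forall] at hnP
    obtain ⟨B, hB, hs, l₀, hl₀⟩ := hnP
    have hBj : B j ≠ 0 := by
      intro h
      apply hl₀
      refine hPI B (fun l hl => ?_) hs l₀
      by_cases hlj : l = j
      · rw [hlj, h]
      · exact hB l (by rw [Finset.mem_insert]; tauto)
    refine ⟨B j, fun l => if l = j then 0 else - B l, hBj, fun l hl => ?_, ?_⟩
    · by_cases hlj : l = j
      · simp only [hlj, if_true]
      · simp only [hlj, if_false, neg_eq_zero]
        exact hB l (by rw [Finset.mem_insert]; tauto)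
    · have h1 : ∀ l, act (if l = j then 0 else - B l) (e l) = (if l = j then act (B j) (e j) else 0) - act (B l) (e l) := by
        intro l
        by_cases hlj : l = j
        · subst hlj
          simp only [if_true, act_zero, sub_self]
        · simp only [hlj, if_false]
          have : (- B l) = 0 - B l := by ring
          rw [this, act_sub, act_zero]
      rw [Finset.sum_congr rfl (fun l _ => h1 l), Finset.sum_sub_distrib, hs, sub_zero, Finset.sum_ite_eq' Finset.univ j,
        if_pos (Finset.mem_univ j)]

end Pool.Agent.FCT
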