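import Pool.Agent.FCT.A1

/-! Row FCT-I2: clearing denominators. -/

set_option autoImplicit false

namespace Pool.Agent.FCT

open Polynomial Finset

/-- Clearing denominators in a relation over `RatFunc K`.  Multiply `B` by a common denominator in `K[s]`
(`IsLocalization.exist_integer_multiples_of_finset` for the coefficients), use `act_map` and injectivity of
`K[X] → RatFunc K`. -/
theorem indep_ratFunc {K : Type*} [Field K] {ι : Type*} [Fintype ι] [DecidableEq ι] (e : ι → ℕ → K[X])
    (I : Finset ι)
    (hI : ∀ B : ι → K[X][X], (∀ l, l ∉ I → B l = 0) → ∑ l, act (B l) (e l) = 0 → ∀ l, B l = 0)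
    (B : ι → (RatFunc K)[X]) (hB : ∀ l, l ∉ I → B l = 0)
    (h : ∀ ν, ∑ l, act (B l) (fun n => algebraMap K[X] (RatFunc K) (e l n)) ν = 0) : ∀ l, B l = 0 := by
  classical
  obtain ⟨b, hb⟩ := IsLocalization.exist_integer_multiples_of_finset (nonZeroDivisors K[X])
    (Finset.univ.biUnion fun l : ι => (B l).support.image (B l).coeff)
  have hb0 : (b : K[X]) ≠ 0 := nonZeroDivisors.coe_ne_zero b
  have hinj : Function.Injective (algebraMap K[X] (RatFunc K)) := IsFractionRing.injective K[X] (RatFunc K)
  have hb0' : algebraMap K[X] (RatFunc K) b ≠ 0 := by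
    rw [Ne, ← map_zero (algebraMap K[X] (RatFunc K))]
    exact fun h1 => hb0 (hinj h1)
  have hex : ∀ l i, ∃ c : K[X], algebraMap K[X] (RatFunc K) c = algebraMap K[X] (RatFunc K) b * (B l).coeff i := by
    intro l i
    by_cases hi : (B l).coeff i = 0
    · exact ⟨0, by rw [hi, mul_zero, map_zero]⟩
    · obtain ⟨c, hc⟩ := hb ((B l).coeff i) (Finset.mem_biUnion.2 ⟨l, Finset.mem_univ l,
        Finset.mem_image.2 ⟨i, Polynomial.mem_support_iff.2 hi, rfl⟩⟩)
      refine ⟨c, ?_⟩
      rw [hc, Algebra.smul_def]
  choose c hc using hex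
  let B' : ι → K[X][X] := fun l => ∑ i ∈ (B l).support, monomial i (c l i)
  have hB' : ∀ l, (B' l).map (algebraMap K[X] (RatFunc K)) = C (algebraMap K[X] (RatFunc K) b) * B l := by
    intro l
    ext i
    rw [coeff_map, coeff_C_mul, ← hc l i, finsetSum_coeff]
    simp only [coeff_monomial]
    rw [Finset.sum_ite_eq' (B l).support i]
    split_ifs with hi
    · rfl
    · rw [hc l i, Polynomial.notMem_support_iff.1 hi, mul_zero, map_zero]
  have hz : ∀ l, B' l = 0 := by
    apply hI
    · intro l hl
      simp only [B', hB l hl, support_zero, Finset.sum_empty]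
    · funext n
      apply hinj
      rw [Finset.sum_apply, map_sum]
      have h1 : ∀ l, algebraMap K[X] (RatFunc K) (act (B' l) (e l) n) =
          algebraMap K[X] (RatFunc K) b * act (B l) (fun n => algebraMap K[X] (RatFunc K) (e l n)) n := by
        intro l
        rw [act_map, hB', act_mul, act_C]
      rw [Finset.sum_congr rfl (fun l _ => h1 l), ← Finset.mul_sum, h n, mul_zero]
      exact (map_zero _).symm
  intro l
  have h2 := hB' l
  rw [hz l, Polynomial.map_zero] at h2
  rcases mul_eq_zero.1 h2.symm with h3 | h3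
  · exact absurd (Polynomial.C_eq_zero.1 h3) hb0'
  · exact h3

end Pool.Agent.FCT
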