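import Pool.Agent.FCT.M3

/-! Row FCT-M3b: the sequence `h`. -/

set_option autoImplicit false

namespace Pool.Agent.FCT

open Polynomial Finset NumberField

variable {K : Type*} [Field K] [NumberField K]

omit [NumberField K] in
theorem M3b_coeff (F : K[X][X]) {d : ℕ} (hd : ∀ j, (F.coeff j).natDegree ≤ d) (n j : ℕ) :
    ((F ^ n).coeff j).natDegree ≤ n * d := by
  induction n generalizing j with
  | zero =>
    rw [pow_zero, zero_mul, coeff_one]
    split_ifs <;> simp
  | succ n ih =>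
    rw [pow_succ, coeff_mul]
    refine natDegree_sum_le_of_forall_le _ _ fun x _ => ?_
    refine natDegree_mul_le.trans ?_
    have h1 := ih x.1
    have h2 := hd x.2
    have h3 : (n + 1) * d = n * d + d := by ring
    omega

omit [NumberField K] in
theorem M3b_IS (F : K[X][X]) {d : ℕ} (hd : ∀ j, (F.coeff j).natDegree ≤ d) (n : ℕ) :
    (IS (F ^ n)).natDegree ≤ n * d + n * F.natDegree + 1 := by
  rw [IS_eq_sum_range (F ^ n) (Nat.lt_succ_self _)]
  refine natDegree_sum_le_of_forall_le _ _ fun j hj => ?_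
  have h1 := M3b_coeff F hd n j
  have h2 : j ≤ n * F.natDegree := (Nat.lt_succ_iff.1 (mem_range.1 hj)).trans natDegree_pow_le
  refine natDegree_mul_le.trans ?_
  have h3 : (C ((j + 1 : K)⁻¹) * X ^ (j + 1)).natDegree ≤ j + 1 := natDegree_C_mul_X_pow_le _ _
  omega

theorem M3b_pow (a n : ℕ) : n * a + 2 ≤ (a + 2) ^ (n + 1) := by
  have h1 : n + 1 ≤ (a + 2) ^ n := by
    have h2 : n < 2 ^ n := Nat.lt_two_pow_self
    have h3 : 2 ^ n ≤ (a + 2) ^ n := Nat.pow_le_pow_left (by omega) n
    omega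
  rw [pow_succ]
  nlinarith

/-- The sequence `h` (with `h 0 = 0`): for `n ≥ 1` apply `exists_h` to `p = IS (F^n)`.  G-type: `natDegree (IS (F^n)) + 1 ≤ C^(n+1)`
and `gtype_ee F 0` (`ee F 0 n = IS (F^n)`). -/
theorem exists_seq_h (F : K[X][X]) (hL : ∀ m, 1 ≤ m → L1 (IS (F ^ m)) = 0) :
    ∃ h : ℕ → K[X], dd h = h + psi F ∧ GType h := by
  classical
  obtain ⟨C₁, hC₁, hsz, den, hden, hint⟩ := gtype_ee F 0
  have hee : ∀ n, ee F 0 n = IS (F ^ n) := by
    intro n
    rw [ee, pow_zero, one_mul]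
  -- the solutions
  have hex : ∀ n : ℕ, ∃ q : K[X], (n = 0 → q = 0) ∧ (1 ≤ n → derivative q = q + IS (F ^ n) ∧
      hs q ≤ ((IS (F ^ n)).natDegree + 1 : ℕ) * hs (IS (F ^ n)) ∧
      ∀ B : ℕ, IntP ((B : K[X]) * IS (F ^ n)) → IntP ((B : K[X]) * q)) := by
    intro n
    by_cases hn : 1 ≤ n
    · obtain ⟨q, hq⟩ := exists_h (IS (F ^ n)) (hL n hn)
      exact ⟨q, fun h0 => absurd h0 (by omega), fun _ => hq⟩
    · exact ⟨0, fun _ => rfl, fun h => absurd h hn⟩
  choose h h0 h1 using hex
  -- the degree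
  obtain ⟨d, hd⟩ : ∃ d : ℕ, ∀ j, (F.coeff j).natDegree ≤ d := by
    refine ⟨F.support.sup fun j => (F.coeff j).natDegree, fun j => ?_⟩
    by_cases hj : j ∈ F.support
    · exact Finset.le_sup (f := fun j => (F.coeff j).natDegree) hj
    · rw [notMem_support_iff.1 hj, natDegree_zero]
      exact Nat.zero_le _
  refine ⟨h, ?_, ?_⟩
  · funext n
    change derivative (h n) = h n + psi F n
    by_cases hn : n = 0
    · rw [h0 n hn, psi, if_pos hn, derivative_zero, add_zero]
    · rw [psi, if_neg hn]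
      exact (h1 n (Nat.one_le_iff_ne_zero.2 hn)).1
  · have hbig : ∀ n : ℕ, C₁ ^ (n + 1) ≤ ((d + F.natDegree + 2) * C₁) ^ (n + 1) := by
      intro n
      refine Nat.pow_le_pow_left ?_ _
      exact Nat.le_mul_of_pos_left _ (by omega)
    refine ⟨(d + F.natDegree + 2) * C₁, ?_, ?_, den, ?_, ?_⟩
    · exact Nat.mul_pos (by omega) hC₁
    · intro n
      by_cases hn : n = 0
      · rw [h0 n hn, hs, support_zero, sum_empty]
        positivity
      · have h2 := (h1 n (Nat.one_le_iff_ne_zero.2 hn)).2.1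
        have h3 := hsz n
        rw [hee] at h3
        have h4 : (IS (F ^ n)).natDegree + 1 ≤ (d + F.natDegree + 2) ^ (n + 1) := by
          have h5 := M3b_IS F hd n
          have h6 := M3b_pow (d + F.natDegree) n
          have h7 : n * (d + F.natDegree) = n * d + n * F.natDegree := by ring
          omega
        have h5 : (((IS (F ^ n)).natDegree + 1 : ℕ) : ℝ) ≤ ((d + F.natDegree + 2 : ℕ) : ℝ) ^ (n + 1) := by
          exact_mod_cast h4
        have h6 : 0 ≤ hs (IS (F ^ n)) := by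
          unfold hs
          exact Finset.sum_nonneg fun j _ => house_nonneg _
        calc hs (h n) ≤ (((IS (F ^ n)).natDegree + 1 : ℕ) : ℝ) * hs (IS (F ^ n)) := h2
          _ ≤ ((d + F.natDegree + 2 : ℕ) : ℝ) ^ (n + 1) * (C₁ : ℝ) ^ (n + 1) :=
            mul_le_mul h5 h3 h6 (by positivity)
          _ = (((d + F.natDegree + 2) * C₁ : ℕ) : ℝ) ^ (n + 1) := by
            rw [← mul_pow, Nat.cast_mul]
    · intro n
      exact ⟨(hden n).1, (hden n).2.trans (hbig n)⟩
    · intro m n hmn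
      by_cases hm : m = 0
      · rw [h0 m hm, mul_zero]
        intro j
        rw [coeff_zero]
        exact isIntegral_zero
      · have h2 := hint m n hmn
        rw [hee] at h2
        exact (h1 m (Nat.one_le_iff_ne_zero.2 hm)).2.2 (den n) h2

end Pool.Agent.FCT
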