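import Pool.Agent.FCT.A9
import Pool.Agent.FCT.M3b
import Pool.Agent.FCT.D6
import Pool.Agent.FCT.I1
import Pool.Agent.FCT.I2

/-! Row FCT-AF: the arithmetic lemma for `f`. -/

set_option autoImplicit false

namespace Pool.Agent.FCT

open Polynomial Finset NumberField

/-- the sequence `a` of polynomials viewed in `RatFunc K` -/
noncomputable def rf {K : Type*} [Field K] (a : ℕ → K[X]) : ℕ → RatFunc K :=
  fun n => algebraMap K[X] (RatFunc K) (a n)

theorem AF_sum {M : Type*} [AddCommMonoid M] {E : ℕ} (I : Finset (Fin E)) (f : Fin E → M) (hf : ∀ l, l ∉ I → f l = 0) :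
    ∑ l, f l = ∑ l : I, f l := by
  rw [Finset.sum_coe_sort I f]
  exact (Finset.sum_subset (Finset.subset_univ I) fun l _ hl => hf l hl).symm

theorem AF_reduce {A : Type*} [CommRing A] [IsDomain A] {E : ℕ} (e : Fin E → ℕ → A) (I : Finset (Fin E))
    (hrel : ∀ j, ∃ (q : A[X]) (B : Fin E → A[X]), q ≠ 0 ∧ (∀ l, l ∉ I → B l = 0) ∧ act q (e j) = ∑ l, act (B l) (e l)) :
    ∃ q : A[X], q ≠ 0 ∧ ∀ B : Fin E → A[X], ∃ B' : Fin E → A[X], (∀ l, l ∉ I → B' l = 0) ∧
      act q (∑ l, act (B l) (e l)) = ∑ l, act (B' l) (e l) := by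
  choose qj Cj hq0 hC0 hC using hrel
  refine ⟨∏ j, qj j, Finset.prod_ne_zero_iff.2 fun j _ => hq0 j, fun B => ?_⟩
  refine ⟨fun m => ∑ l, B l * (∏ i ∈ Finset.univ.erase l, qj i) * Cj l m, fun m hm => ?_, ?_⟩
  · refine Finset.sum_eq_zero fun l _ => ?_
    rw [hC0 l m hm, mul_zero]
  · rw [act_sum_right]
    have h1 : ∀ l, act (∏ j, qj j) (act (B l) (e l)) =
        ∑ m, act (B l * (∏ i ∈ Finset.univ.erase l, qj i) * Cj l m) (e m) := by
      intro l
      rw [← act_mul]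
      have h2 : (∏ j, qj j) * B l = B l * (∏ i ∈ Finset.univ.erase l, qj i) * qj l := by
        rw [← Finset.prod_erase_mul Finset.univ qj (Finset.mem_univ l)]
        ring
      rw [h2, act_mul, hC, act_sum_right]
      refine Finset.sum_congr rfl fun m _ => ?_
      rw [← act_mul]
    rw [Finset.sum_congr rfl (fun l _ => h1 l), Finset.sum_comm]
    refine Finset.sum_congr rfl fun m _ => ?_
    rw [act_sum_left]

/-- Proof.  `E = natDegree F`, `e l = ee F l` (`l : Fin E`).  `I` from `exists_indep`, `q, B, Bj` from `connection`.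
Combine: for each `j` let `q_j e_j = ∑_{l ∈ I} ...` (second part of `exists_indep`), `q' = q * ∏ q_j`; then `act q' (psi F)` and
`act q' (dd (e j))`, `j ∈ I`, are `act`-combinations of the `e l`, `l ∈ I` (replace each `e_l`, `l ∉ I`, using the factor `q_l`).
Apply `AR` with index type `ι = ↥I` (`{l // l ∈ I}`), `exists_seq_h`, `gtype_ee`; extend `Q` by zero to `Fin E`
(`Finset.sum_subtype`/`Finset.sum_attach`).  Independence: `indep_ratFunc`. -/
theorem AR_F {K : Type} [Field K] [NumberField K] (F : K[X][X]) (hF : 1 ≤ F.natDegree)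
    (hL : ∀ m, 1 ≤ m → L1 (IS (F ^ m)) = 0) :
    ∃ (h : ℕ → K[X]) (I : Finset (Fin F.natDegree)), dd h = h + psi F ∧
      (∀ B : Fin F.natDegree → (RatFunc K)[X], (∀ l, l ∉ I → B l = 0) →
        (∀ ν, ∑ l, act (B l) (rf (ee F l)) ν = 0) → ∀ l, B l = 0) ∧
      ∃ C1 : ℕ, ∀ Λ : ℕ, ∃ M0 : ℕ, ∀ M, M0 ≤ M →
        ∃ (P : (RatFunc K)[X]) (Q : Fin F.natDegree → (RatFunc K)[X]),
          (P ≠ 0 ∨ ∃ l, Q l ≠ 0) ∧ (∀ l, l ∉ I → Q l = 0) ∧ P.natDegree ≤ C1 * M ∧
          (∀ l, (Q l).natDegree ≤ C1 * M) ∧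
          ∀ ν < Λ * M, act P (rf h) ν + ∑ l, act (Q l) (rf (ee F l)) ν = 0 := by
  classical
  obtain ⟨h, hh, hGh⟩ := exists_seq_h F hL
  obtain ⟨q, B, Bj, hq0, h1, h2⟩ := connection F hF
  obtain ⟨I, hI, hrel⟩ := exists_indep (fun l : Fin F.natDegree => ee F l)
  obtain ⟨q1, hq1, hred⟩ := AF_reduce (fun l : Fin F.natDegree => ee F l) I hrel
  refine ⟨h, I, hh, indep_ratFunc (fun l : Fin F.natDegree => ee F l) I hI, ?_⟩
  have hred' : ∀ B : Fin F.natDegree → K[X][X], ∃ B' : I → K[X][X],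
      act q1 (∑ l, act (B l) (ee F l)) = ∑ l : I, act (B' l) (ee F (l : Fin F.natDegree)) := by
    intro B
    obtain ⟨B', hB', hB''⟩ := hred B
    refine ⟨fun l => B' l, ?_⟩
    rw [hB'']
    exact AF_sum I (fun l => act (B' l) (ee F l)) fun l hl => by rw [hB' l hl, act_zero]
  obtain ⟨B', hB'⟩ := hred' B
  have hBj : ∀ j : I, ∃ B'' : I → K[X][X],
      act (q1 * q) (dd (ee F (j : Fin F.natDegree))) = ∑ l : I, act (B'' l) (ee F (l : Fin F.natDegree)) := by
    intro j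
    obtain ⟨B'', hB''⟩ := hred' (Bj j)
    exact ⟨B'', by rw [act_mul, h2, hB'']⟩
  choose Bj' hBj' using hBj
  obtain ⟨C1, hC1⟩ := AR (ι := I) h (psi F) (fun l : I => ee F (l : Fin F.natDegree)) hh hGh (fun l => gtype_ee F _)
    (q1 * q) (mul_ne_zero hq1 hq0) B' Bj' (by rw [act_mul, h1, hB']) hBj'
  refine ⟨C1, fun Λ => ?_⟩
  obtain ⟨M0, hM0⟩ := hC1 Λ
  refine ⟨M0, fun M hM => ?_⟩
  obtain ⟨P, Q, hPQ, hP, hQ, hz⟩ := hM0 M hM
  refine ⟨P, fun l => if hl : l ∈ I then Q ⟨l, hl⟩ else 0, ?_, fun l hl => dif_neg hl, hP, fun l => ?_, fun ν hν => ?_⟩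
  · rcases hPQ with h3 | ⟨l, h3⟩
    · exact Or.inl h3
    · refine Or.inr ⟨l, ?_⟩
      simp only [l.2, dif_pos]
      exact h3
  · by_cases hl : l ∈ I
    · simp only [hl, dif_pos]
      exact hQ _
    · simp only [hl, dif_neg, not_false_eq_true, natDegree_zero]
      exact Nat.zero_le _
  · rw [← hz ν hν, AF_sum I (fun l => act (if hl : l ∈ I then Q ⟨l, hl⟩ else 0) (rf (ee F l)) ν)]
    · simp only [Subtype.coe_eta, SetLike.coe_mem, dif_pos]
      rfl
    · intro l hl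
      simp only [hl, dif_neg, not_false_eq_true]
      rw [act_zero]
      rfl

end Pool.Agent.FCT
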