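import Pool.Agent.FCT.Defs

/-! Row FCT-M1: basic properties of `IS = ∫_0^s dy`, and the Beta integral. -/

set_option autoImplicit false

namespace Pool.Agent.FCT

open Polynomial Finset

variable {K : Type*} [Field K]

theorem IS_eq_sum_range (G : K[X][X]) {N : ℕ} (hN : G.natDegree < N) :
    IS G = ∑ j ∈ range N, G.coeff j * (C ((j + 1 : K)⁻¹) * X ^ (j + 1)) := by
  unfold IS
  exact Polynomial.sum_over_range' G (fun n => by simp) N hN

theorem IS_zero : IS (0 : K[X][X]) = 0 := by
  unfold IS
  simp

theorem IS_add (G H : K[X][X]) : IS (G + H) = IS G + IS H := by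
  unfold IS
  exact Polynomial.sum_add_index G H _ (fun i => by simp) (fun i a b => by ring)

theorem IS_sub (G H : K[X][X]) : IS (G - H) = IS G - IS H := by
  have h := IS_add (G - H) H
  rw [sub_add_cancel] at h
  rw [h]; ring

theorem IS_sum {α : Type*} (s : Finset α) (G : α → K[X][X]) : IS (∑ i ∈ s, G i) = ∑ i ∈ s, IS (G i) := by
  classical
  induction s using Finset.induction_on with
  | empty => simp [IS_zero]
  | insert a s ha ih => rw [Finset.sum_insert ha, Finset.sum_insert ha, IS_add, ih]

theorem M1_monomial (j : ℕ) (g : K[X]) :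
    IS (monomial j g : K[X][X]) = g * (C ((j + 1 : K)⁻¹) * X ^ (j + 1)) := by
  unfold IS
  exact Polynomial.sum_monomial_index g _ (by simp)

theorem IS_C_mul (g : K[X]) (G : K[X][X]) : IS (C g * G) = g * IS G := by
  induction G using Polynomial.induction_on' with
  | add p q hp hq => rw [mul_add, IS_add, IS_add, hp, hq]; ring
  | monomial j a => rw [C_mul_monomial, M1_monomial, M1_monomial]; ring

theorem IS_natCast_mul (n : ℕ) (G : K[X][X]) : IS ((n : K[X][X]) * G) = (n : K[X]) * IS G := by
  have h : ((n : ℕ) : K[X][X]) = C ((n : ℕ) : K[X]) := by simp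
  rw [h, IS_C_mul]

theorem IS_X_pow (j : ℕ) : IS (X ^ j : K[X][X]) = C ((j + 1 : K)⁻¹) * X ^ (j + 1) := by
  rw [← monomial_one_right_eq_X_pow, M1_monomial, one_mul]

theorem IS_one : IS (1 : K[X][X]) = X := by
  have h := IS_X_pow (K := K) 0
  simpa using h

/-- `∫_0^s ∂_y G dy = G(s,s) - G(s,0)` (characteristic zero). -/
theorem IS_derivative [CharZero K] (G : K[X][X]) : IS (derivative G) = eval X G - eval 0 G := by
  induction G using Polynomial.induction_on' with
  | add p q hp hq => rw [derivative_add, IS_add, hp, hq, eval_add, eval_add]; ring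
  | monomial j a =>
    rw [derivative_monomial, M1_monomial, eval_monomial, eval_monomial]
    cases j with
    | zero => simp
    | succ j =>
      have h : ((j : K) + 1) ≠ 0 := by exact_mod_cast Nat.succ_ne_zero j
      have h2 : C ((j : K) + 1) * C (((j : K) + 1)⁻¹) = (1 : K[X]) := by
        rw [← C_mul, mul_inv_cancel₀ h, C_1]
      have h3 : (((j + 1 : ℕ) : K[X])) = C ((j : K) + 1) := by simp
      rw [h3]
      simp only [Nat.add_sub_cancel]
      calc a * C ((j : K) + 1) * (C (((j : K) + 1)⁻¹) * X ^ (j + 1))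
          = a * X ^ (j + 1) * (C ((j : K) + 1) * C (((j : K) + 1)⁻¹)) := by ring
        _ = a * X ^ (j + 1) - a * 0 ^ (j + 1) := by rw [h2]; simp

/-- `d/ds ∫_0^s G(s,y) dy = G(s,s) + ∫_0^s ∂_s G dy`. -/
theorem derivative_IS [CharZero K] (G : K[X][X]) : derivative (IS G) = eval X G + IS (dmap ds G) := by
  induction G using Polynomial.induction_on' with
  | add p q hp hq => rw [IS_add, derivative_add, hp, hq, eval_add, map_add, IS_add]; ring
  | monomial j a =>
    have hd : dmap ds (monomial j a : K[X][X]) = monomial j (derivative a) := by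
      ext1 i
      rw [dmap_coeff, coeff_monomial, coeff_monomial]
      split_ifs with h
      · exact ds_apply a
      · exact map_zero _
    rw [hd, M1_monomial, M1_monomial, eval_monomial]
    have h : ((j : K) + 1) ≠ 0 := by exact_mod_cast Nat.succ_ne_zero j
    have h2 : C (((j : K) + 1)⁻¹) * C ((j : K) + 1) = (1 : K[X]) := by
      rw [← C_mul, inv_mul_cancel₀ h, C_1]
    rw [derivative_mul, derivative_C_mul, derivative_X_pow]
    have h3 : C ((((j + 1 : ℕ)) : K)) = C ((j : K) + 1) := by simp
    rw [h3]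
    simp only [Nat.add_sub_cancel]
    calc derivative a * (C (((j : K) + 1)⁻¹) * X ^ (j + 1)) + a * (C (((j : K) + 1)⁻¹) * (C ((j : K) + 1) * X ^ j))
        = derivative a * (C (((j : K) + 1)⁻¹) * X ^ (j + 1)) + a * X ^ j * (C (((j : K) + 1)⁻¹) * C ((j : K) + 1)) := by ring
      _ = _ := by rw [h2]; ring

end Pool.Agent.FCT
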