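import Pool.Agent.FCT.A1
import Pool.Agent.FCT.M1

/-! Row FCT-D1: the sequences `eG F G = (∫_0^s G F^n dy)_n` and `e2 F G = (n ∫_0^s G F^(n-1) dy)_n`. -/

set_option autoImplicit false

namespace Pool.Agent.FCT

open Polynomial Finset

variable {K : Type*} [Field K]

/-- `∫_0^s G dy/(c-F)` -/
noncomputable def eG (F G : K[X][X]) : ℕ → K[X] := fun n => IS (G * F ^ n)

/-- `∫_0^s G dy/(c-F)^2` -/
noncomputable def e2 (F G : K[X][X]) : ℕ → K[X] := fun n => (n : K[X]) * IS (G * F ^ (n - 1))

/-- geometric sequence `g A^n`, i.e. `g/(c-A)` -/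
noncomputable def geo (g A : K[X]) : ℕ → K[X] := fun n => g * A ^ n

theorem eG_X_pow (F : K[X][X]) (k : ℕ) : eG F (X ^ k) = ee F k := rfl

theorem eG_add (F G H : K[X][X]) : eG F (G + H) = eG F G + eG F H := by
  funext n
  simp only [eG, Pi.add_apply]
  rw [add_mul, IS_add]

theorem eG_sum (F : K[X][X]) {α : Type*} (s : Finset α) (G : α → K[X][X]) :
    eG F (∑ i ∈ s, G i) = ∑ i ∈ s, eG F (G i) := by
  funext n
  simp only [eG, Finset.sum_apply]
  rw [Finset.sum_mul, IS_sum]

/-- the action of a monomial -/
theorem D1_act_monomial (j : ℕ) (p : K[X]) (a : ℕ → K[X]) (n : ℕ) :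
    act (monomial j p) a n = p * a (n + j) := by
  unfold act
  exact Polynomial.sum_monomial_index p _ (by simp)

theorem D1_e2_add (F G H : K[X][X]) : e2 F (G + H) = e2 F G + e2 F H := by
  funext n
  simp only [e2, Pi.add_apply]
  rw [add_mul, IS_add, mul_add]

/-- `P(c) ∫ G/(c-F) = ∫ P(F) G/(c-F)` modulo polynomials in `c` -/
theorem act_eG (F G P : K[X][X]) : act P (eG F G) = eG F (P.comp F * G) := by
  induction P using Polynomial.induction_on' with
  | add p q hp hq => rw [act_add, hp, hq, add_comp, add_mul, eG_add]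
  | monomial j a =>
    funext n
    rw [D1_act_monomial]
    simp only [eG]
    rw [monomial_comp]
    have h : C a * F ^ j * G * F ^ n = C a * (G * F ^ (n + j)) := by rw [pow_add]; ring
    rw [h, IS_C_mul]

/-- induction on `P` (`Polynomial.induction_on'` or on monomials): `act X (e2 F G) = e2 F (F * G) + eG F G`. -/
theorem act_e2 (F G P : K[X][X]) :
    act P (e2 F G) = e2 F (P.comp F * G) + eG F ((derivative P).comp F * G) := by
  induction P using Polynomial.induction_on' with
  | add p q hp hq =>
    rw [act_add, hp, hq, add_comp, add_mul, D1_e2_add, derivative_add, add_comp, add_mul, eG_add]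
    abel
  | monomial j a =>
    funext n
    rw [D1_act_monomial]
    simp only [eG, e2, Pi.add_apply]
    rw [monomial_comp, derivative_monomial, monomial_comp]
    have h2 : C (a * (j : K[X])) * F ^ (j - 1) * G * F ^ n
        = C (a * (j : K[X])) * (G * F ^ (j - 1) * F ^ n) := by ring
    rw [h2, IS_C_mul]
    have h1 : C a * F ^ j * G * F ^ (n - 1) = C a * (G * F ^ j * F ^ (n - 1)) := by ring
    rw [h1, IS_C_mul]
    rcases Nat.eq_zero_or_pos j with hj | hj
    · subst hj
      simp
      ring
    · have e2' : G * F ^ (j - 1) * F ^ n = G * F ^ (n + j - 1) := by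
        rw [mul_assoc, ← pow_add]; congr 2; omega
      rw [e2']
      rcases Nat.eq_zero_or_pos n with hn | hn
      · subst hn
        simp
        ring
      · have e1' : G * F ^ j * F ^ (n - 1) = G * F ^ (n + j - 1) := by
          rw [mul_assoc, ← pow_add]; congr 2; omega
        rw [e1']
        push_cast
        ring

theorem act_geo (P : K[X][X]) (g A : K[X]) : act P (geo g A) = geo (eval A P * g) A := by
  induction P using Polynomial.induction_on' with
  | add p q hp hq =>
    rw [act_add, hp, hq]
    funext n
    simp only [geo, Pi.add_apply, eval_add]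
    ring
  | monomial j a =>
    funext n
    rw [D1_act_monomial]
    simp only [geo, eval_monomial]
    rw [pow_add]; ring

end Pool.Agent.FCT
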