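import Pool.Agent.FCT.D1

/-! Row FCT-D2: the connection on the sequences `eG`. -/

set_option autoImplicit false

namespace Pool.Agent.FCT

open Polynomial Finset

variable {K : Type*} [Field K]

/-- `∂_s ∫_0^s G F^n dy` (from `derivative_IS`, Leibniz) -/
theorem dd_eG [CharZero K] (F G : K[X][X]) :
    dd (eG F G) = geo (eval X G) (eval X F) + eG F (dmap ds G) + e2 F (G * dmap ds F) := by
  funext n
  simp only [dd, eG, geo, e2, Pi.add_apply]
  rw [derivative_IS, eval_mul, eval_pow, Derivation.leibniz, Derivation.leibniz_pow, IS_add]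
  have h1 : G • (n • F ^ (n - 1) • dmap ds F) = (n : K[X][X]) * (G * dmap ds F * F ^ (n - 1)) := by
    simp only [smul_eq_mul, nsmul_eq_mul]; ring
  have h2 : F ^ n • dmap ds G = dmap ds G * F ^ n := by
    simp only [smul_eq_mul]; ring
  rw [h1, h2, IS_natCast_mul]
  ring

/-- integration by parts (`IS_derivative` for `G F^n`) -/
theorem e2_parts [CharZero K] (F G : K[X][X]) :
    e2 F (G * derivative F) = geo (eval X G) (eval X F) - geo (eval 0 G) (eval 0 F) - eG F (derivative G) := by
  funext n
  simp only [eG, geo, e2, Pi.sub_apply]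
  have h := IS_derivative (G * F ^ n)
  rw [derivative_mul, derivative_pow, IS_add, eval_mul, eval_mul, eval_pow, eval_pow] at h
  have h1 : G * (C ((n : K[X])) * F ^ (n - 1) * derivative F)
      = (n : K[X][X]) * (G * derivative F * F ^ (n - 1)) := by
    rw [show (C ((n : K[X])) : K[X][X]) = (n : K[X][X]) by simp]; ring
  rw [h1, IS_natCast_mul] at h
  linear_combination h

theorem D2_geo_add (g h A : K[X]) : geo (g + h) A = geo g A + geo h A := by
  funext n; simp only [geo, Pi.add_apply]; ring

/-- The connection: with `χ(F) = F_y Q`.  Act by `χ` on `dd_eG`; `act χ (e2 F (G F_s)) = e2 F (F_y (Q G F_s)) + eG F (…)`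
(`act_e2`), then `e2_parts`; finally `(X - C A)(X - C B)` kills the geometric sequences (`act_geo`). -/
theorem connection_eG [CharZero K] (F χ Q : K[X][X]) (hχ : χ.comp F = derivative F * Q) (G : K[X][X]) :
    ∃ G' : K[X][X], act ((X - C (eval X F)) * (X - C (eval 0 F)) * χ) (dd (eG F G)) = eG F G' := by
  set R : K[X][X] := (X - C (eval X F)) * (X - C (eval 0 F)) with hR
  have hRX : eval (eval X F) R = 0 := by simp [hR]
  have hR0 : eval (eval 0 F) R = 0 := by simp [hR]
  have h0 : ∀ A : K[X], geo (0 : K[X]) A = 0 := by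
    intro A; funext n; simp [geo]
  have e1 : act χ (e2 F (G * dmap ds F)) = geo (eval X (Q * (G * dmap ds F))) (eval X F)
      - geo (eval 0 (Q * (G * dmap ds F))) (eval 0 F) - eG F (derivative (Q * (G * dmap ds F)))
      + eG F ((derivative χ).comp F * (G * dmap ds F)) := by
    rw [act_e2, hχ, ← e2_parts]
    congr 2
    ring
  refine ⟨R.comp F * (χ.comp F * dmap ds G - derivative (Q * (G * dmap ds F))
    + (derivative χ).comp F * (G * dmap ds F)), ?_⟩
  rw [act_mul, dd_eG]
  simp only [act_add_right]
  rw [e1]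
  simp only [act_add_right, act_sub_right, act_geo, act_eG, hRX, hR0, zero_mul, h0]
  have e3 : R.comp F * (χ.comp F * dmap ds G - derivative (Q * (G * dmap ds F))
    + (derivative χ).comp F * (G * dmap ds F)) + R.comp F * derivative (Q * (G * dmap ds F))
    = R.comp F * (χ.comp F * dmap ds G) + R.comp F * ((derivative χ).comp F * (G * dmap ds F)) := by ring
  have e4 := congrArg (eG F) e3
  rw [eG_add, eG_add] at e4
  rw [sub_zero, zero_sub, zero_add]
  have e5 := eq_sub_of_add_eq e4
  rw [e5]
  abel

end Pool.Agent.FCT
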