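import Mathlib

/-!
# Factorial conjecture for n = 2: definitions, block 1 (arithmetic)
-/

set_option autoImplicit false

namespace Pool.Agent.FCT

open Polynomial

section Act

variable {A : Type*} [CommRing A]

/-- The action of `A[Y]` on sequences `a : ℕ → A`; `Y` acts by the shift: `(act P a) n = ∑ j, P_j * a (n + j)`.
(Think of `a` as the series `∑ a n c^(-n-1)` modulo polynomials in `c`, and `Y = c`.) -/
noncomputable def act (P : A[X]) (a : ℕ → A) : ℕ → A :=
  fun n => P.sum (fun j p => p * a (n + j))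

/-- Coefficientwise application of a derivation of `A` to `A[X]`. -/
noncomputable def dmap (δ : Derivation ℤ A A) : Derivation ℤ A[X] A[X] :=
  letI : Differential A := ⟨δ⟩
  Differential.mapCoeffs

theorem dmap_coeff (δ : Derivation ℤ A A) (P : A[X]) (i : ℕ) : (dmap δ P).coeff i = δ (P.coeff i) := rfl

end Act

section Seq

variable {K : Type*} [Field K]

/-- `d/ds` on `K[s]` as a `ℤ`-derivation. -/
noncomputable def ds : Derivation ℤ K[X] K[X] := (Polynomial.derivative' (R := K)).restrictScalars ℤ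

theorem ds_apply (p : K[X]) : ds p = derivative p := rfl

/-- `d/ds` on sequences of polynomials. -/
noncomputable def dd (a : ℕ → K[X]) : ℕ → K[X] := fun n => derivative (a n)

/-- `∫_0^s G(s,y) dy` for `G ∈ K[s][y]`. -/
noncomputable def IS (G : K[X][X]) : K[X] :=
  G.sum (fun j g => g * (C ((j + 1 : K)⁻¹) * X ^ (j + 1)))

/-- `L1 (∑ p_j s^j) = ∑ j! p_j` (`= ∫_0^∞ p(s) e^{-s} ds`). -/
noncomputable def L1 (p : K[X]) : K := p.sum (fun j a => (j.factorial : K) * a)

/-- `F(s,y) = f(s-y, y) ∈ K[s][y]`. -/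
noncomputable def Fs (f : MvPolynomial (Fin 2) K) : K[X][X] :=
  MvPolynomial.aeval (fun i : Fin 2 => if i = 0 then (C X - X : K[X][X]) else X) f

/-- the factorial functional on `K[U_i : i ∈ σ]` -/
noncomputable def LL {σ : Type*} [Fintype σ] (f : MvPolynomial σ K) : K :=
  ∑ s ∈ f.support, MvPolynomial.coeff s f * ∏ i : σ, ((s i).factorial : K)

/-- `ee F k n = ∫_0^s y^k F^n dy`, the coefficient of `c^(-n-1)` in `∫_0^s y^k dy/(c-F)`. -/
noncomputable def ee (F : K[X][X]) (k : ℕ) : ℕ → K[X] := fun n => IS (X ^ k * F ^ n)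

/-- the right hand side of `h' - h = ψ` -/
noncomputable def psi (F : K[X][X]) : ℕ → K[X] := fun n => if n = 0 then 0 else IS (F ^ n)

end Seq

section NF

variable {K : Type*} [Field K] [NumberField K]

/-- `ℓ¹`-norm of the houses of the coefficients -/
noncomputable def hs (p : K[X]) : ℝ := ∑ j ∈ p.support, NumberField.house (p.coeff j)

/-- all coefficients are algebraic integers -/
def IntP (p : K[X]) : Prop := ∀ j, IsIntegral ℤ (p.coeff j)

/-- G-type sequences: geometric denominators and geometric size at all places -/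
def GType (a : ℕ → K[X]) : Prop :=
  ∃ C : ℕ, 1 ≤ C ∧ (∀ n, hs (a n) ≤ (C : ℝ) ^ (n + 1)) ∧
    ∃ den : ℕ → ℕ, (∀ n, 1 ≤ den n ∧ den n ≤ C ^ (n + 1)) ∧
      ∀ m n, m ≤ n → IntP (((den n : ℕ) : K[X]) * a m)
end NF

end Pool.Agent.FCT
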