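import Mathlib

/-! Change of the `Algebra ℤ R` instance in the type of a derivation (for `RatFunc`, `LaurentSeries`, `SplittingField` Lean finds
another instance than the generic `Ring.toIntAlgebra`).  `Der R` always uses the generic one. -/

set_option autoImplicit false

namespace Pool.Agent.FCT

/-- derivations of `R`, with the generic `ℤ`-algebra structure -/
abbrev Der (R : Type*) [CommRing R] := Derivation ℤ R R

/-- A derivation for one `ℤ`-algebra structure is a derivation for any other.
Use: `obtain ⟨D', hD'⟩ : ∃ D' : Der (RatFunc κ), ∀ z, D' z = D z := exists_cast_der _ _ D`. -/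
theorem exists_cast_der {R : Type*} [CommRing R] (i1 i2 : Algebra ℤ R)
    (D : @Derivation ℤ R R _ _ _ i1 _ _) : ∃ D' : @Derivation ℤ R R _ _ _ i2 _ _, ∀ z, D' z = D z := by
  have h : i1 = i2 := Subsingleton.elim _ _
  subst h
  exact ⟨D, fun _ => rfl⟩

end Pool.Agent.FCT
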