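import Mathlib

/-! Row FCT-E0a: a prime that does not divide the powers of a nonzero algebraic integer. -/

set_option autoImplicit false

namespace Pool.Agent.FCT

open NumberField

/-- Proof.  Let `N = Norm α ∈ ℤ` (`α` as an element of `𝓞 K`), `N ≠ 0`; take a prime `p > max B |N|`
(`Nat.exists_infinite_primes`).  If `α^m = p β`, take norms: `N^m = p^[K:ℚ] Norm β`, so `p ∣ N^m`, `p ∣ N` (`[K:ℚ] ≥ 1`),
contradiction with `0 < |N| < p`.  (`Algebra.norm_algebraMap`, `RingOfIntegers`.) -/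
theorem exists_good_prime {K : Type*} [Field K] [NumberField K] (α : K) (hα : IsIntegral ℤ α) (h0 : α ≠ 0) (B : ℕ) :
    ∃ p : ℕ, p.Prime ∧ B < p ∧ ∀ (m : ℕ) (β : K), IsIntegral ℤ β → α ^ m ≠ (p : K) * β := by
  set a : 𝓞 K := ⟨α, hα⟩ with ha
  have ha0 : a ≠ 0 := by
    intro h
    apply h0
    exact congrArg (fun x : 𝓞 K => (x : K)) h
  have hN0 : Algebra.norm ℤ a ≠ 0 := Algebra.norm_ne_zero_iff.2 ha0
  obtain ⟨p, hp1, hp⟩ := Nat.exists_infinite_primes (max B (Algebra.norm ℤ a).natAbs + 1)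
  refine ⟨p, hp, by omega, fun m β hβ h => ?_⟩
  set b : 𝓞 K := ⟨β, hβ⟩ with hb
  have h1 : a ^ m = ((p : ℤ) : 𝓞 K) * b := by
    apply NumberField.RingOfIntegers.coe_injective
    rw [map_pow, map_mul]
    push_cast
    exact h
  have h2 := congrArg (Algebra.norm ℤ) h1
  have h3 : Algebra.norm ℤ ((p : ℤ) : 𝓞 K) = (p : ℤ) ^ Module.finrank ℤ (𝓞 K) := by
    rw [← eq_intCast (algebraMap ℤ (𝓞 K)), Algebra.norm_algebraMap]
  rw [map_pow, map_mul, h3] at h2
  have hpos : 0 < Module.finrank ℤ (𝓞 K) := Module.finrank_pos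
  have h4 : (p : ℤ) ∣ Algebra.norm ℤ a ^ m := by
    rw [h2]
    exact Dvd.dvd.mul_right (dvd_pow_self _ hpos.ne') _
  have h5 : (p : ℤ) ∣ Algebra.norm ℤ a := (Nat.prime_iff_prime_int.1 hp).dvd_of_dvd_pow h4
  have h6 := Int.natAbs_dvd_natAbs.2 h5
  rw [Int.natAbs_natCast] at h6
  have h7 := Nat.le_of_dvd (Int.natAbs_pos.2 hN0) h6
  omega

end Pool.Agent.FCT
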