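import Pool.Agent.FCT.M1

/-! Row FCT-M1b: the Beta integral and the functional. -/

set_option autoImplicit false

namespace Pool.Agent.FCT

open Polynomial Finset

variable {K : Type*} [Field K]

/-- Beta integral: induction on `a` with `(s-y)^(a+1) y^b = s (s-y)^a y^b - (s-y)^a y^(b+1)`. -/
theorem IS_beta [CharZero K] (a b : ℕ) :
    IS ((C X - X : K[X][X]) ^ a * X ^ b) =
      C ((a.factorial : K) * b.factorial / (a + b + 1).factorial) * X ^ (a + b + 1) := by
  induction a generalizing b with
  | zero =>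
    rw [pow_zero, one_mul, IS_X_pow, zero_add]
    congr 2
    have h1 : (b.factorial : K) ≠ 0 := by exact_mod_cast b.factorial_ne_zero
    have h2 : ((b : K) + 1) ≠ 0 := by exact_mod_cast b.succ_ne_zero
    rw [Nat.factorial_succ, Nat.factorial_zero]
    push_cast
    field_simp
  | succ a ih =>
    have e1 : (C X - X : K[X][X]) ^ (a + 1) * X ^ b =
        C X * ((C X - X : K[X][X]) ^ a * X ^ b) - (C X - X : K[X][X]) ^ a * X ^ (b + 1) := by
      ring
    rw [e1, IS_sub, IS_C_mul, ih, ih]
    have e2 : a + (b + 1) + 1 = a + b + 1 + 1 := by ring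
    have e3 : a + 1 + b + 1 = a + b + 1 + 1 := by ring
    rw [e2, e3]
    have e4 : (X : K[X]) * (C ((a.factorial : K) * b.factorial / (a + b + 1).factorial) * X ^ (a + b + 1)) =
        C ((a.factorial : K) * b.factorial / (a + b + 1).factorial) * X ^ (a + b + 1 + 1) := by ring
    rw [e4, ← sub_mul, ← C_sub]
    congr 2
    have h3 : ((a + b + 1).factorial : K) ≠ 0 := by exact_mod_cast (a + b + 1).factorial_ne_zero
    have h4 : ((a : K) + b + 1 + 1) ≠ 0 := by exact_mod_cast (a + b + 1).succ_ne_zero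
    rw [Nat.factorial_succ (a + b + 1), Nat.factorial_succ b, Nat.factorial_succ a]
    push_cast
    field_simp
    ring

theorem L1_add (p q : K[X]) : L1 (p + q) = L1 p + L1 q := by
  unfold L1
  rw [Polynomial.sum_add_index]
  · intro i; simp
  · intro i a b; ring

theorem L1_C_mul_X_pow (a : K) (n : ℕ) : L1 (C a * X ^ n) = n.factorial * a := by
  unfold L1
  rw [C_mul_X_pow_eq_monomial, Polynomial.sum_monomial_index]
  simp

theorem M1b_L1_zero : L1 (0 : K[X]) = 0 := by
  unfold L1
  simp

theorem M1b_L1_sum {α : Type*} (s : Finset α) (g : α → K[X]) : L1 (∑ i ∈ s, g i) = ∑ i ∈ s, L1 (g i) := by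
  classical
  induction s using Finset.induction_on with
  | empty => simp [M1b_L1_zero]
  | insert i s hi ih => rw [Finset.sum_insert hi, Finset.sum_insert hi, L1_add, ih]

theorem M1b_mono [CharZero K] (s : Fin 2 →₀ ℕ) (a : K) :
    L1 (IS (Fs (MvPolynomial.monomial s a))) = a * ∏ i : Fin 2, ((s i).factorial : K) := by
  unfold Fs
  rw [MvPolynomial.aeval_monomial, Finsupp.prod_fintype _ _ (fun i => pow_zero _), Fin.prod_univ_two,
    Fin.prod_univ_two, if_pos rfl, if_neg (by decide)]
  have e1 : (algebraMap K K[X][X]) a = C (C a) := rfl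
  rw [e1, IS_C_mul, IS_beta, ← mul_assoc, ← C_mul, L1_C_mul_X_pow]
  have h3 : ((s 0 + s 1 + 1).factorial : K) ≠ 0 := by exact_mod_cast (s 0 + s 1 + 1).factorial_ne_zero
  field_simp

/-- `L(f) = ∫_0^∞ e^{-s} ∫_0^s f(s-y,y) dy ds`: both sides are additive in `f`; on a monomial use `IS_beta`. -/
theorem LL_eq [CharZero K] (f : MvPolynomial (Fin 2) K) : LL f = L1 (IS (Fs f)) := by
  have h1 : Fs f = ∑ v ∈ f.support, Fs (MvPolynomial.monomial v (MvPolynomial.coeff v f)) := by
    unfold Fs
    conv_lhs => rw [MvPolynomial.as_sum f]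
    rw [map_sum]
  rw [h1, IS_sum, M1b_L1_sum]
  unfold LL
  exact Finset.sum_congr rfl (fun v _ => (M1b_mono v _).symm)

end Pool.Agent.FCT
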