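import Pool.Agent.FCT.A5b
import Pool.Agent.FCT.M1b
import Pool.Agent.FCT.E0a

/-! Row FCT-E0: the case `f = g(x+y)`. -/

set_option autoImplicit false

namespace Pool.Agent.FCT

open Polynomial Finset NumberField

section E0aux

variable {R : Type*} [CommRing R]

/-- `L1` over a commutative ring -/
noncomputable def E0_L (p : R[X]) : R := p.sum (fun j a => (j.factorial : R) * a)

theorem E0_L_add (p q : R[X]) : E0_L (p + q) = E0_L p + E0_L q := by
  unfold E0_L
  exact Polynomial.sum_add_index p q _ (fun i => mul_zero _) (fun i a b => mul_add _ _ _)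

theorem E0_L_monomial (n : ℕ) (a : R) : E0_L (monomial n a) = (n.factorial : R) * a := by
  unfold E0_L
  exact Polynomial.sum_monomial_index (n := n) a (fun (j : ℕ) (a : R) => (j.factorial : R) * a) (mul_zero _)

theorem E0_L_C_mul (c : R) (q : R[X]) : E0_L (C c * q) = c * E0_L q := by
  induction q using Polynomial.induction_on' with
  | add p q hp hq => rw [mul_add, E0_L_add, E0_L_add, hp, hq, mul_add]
  | monomial n a =>
    rw [Polynomial.C_mul_monomial, E0_L_monomial, E0_L_monomial]; ring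

theorem E0_L_natCast_mul (c : ℕ) (q : R[X]) : E0_L ((c : R[X]) * q) = (c : R) * E0_L q := by
  have : (c : R[X]) = C (c : R) := by simp
  rw [this, E0_L_C_mul]

theorem E0_L_X_pow_mul (n : ℕ) (u : R[X]) : ∃ γ, E0_L (X ^ n * u) = (n.factorial : R) * γ := by
  induction u using Polynomial.induction_on' with
  | add p q hp hq =>
    obtain ⟨a, ha⟩ := hp
    obtain ⟨b, hb⟩ := hq
    exact ⟨a + b, by rw [mul_add, E0_L_add, ha, hb, mul_add]⟩
  | monomial j a =>
    obtain ⟨c, hc⟩ := Nat.factorial_dvd_factorial (Nat.le_add_right n j)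
    refine ⟨(c : R) * a, ?_⟩
    have h1 : (X ^ n * monomial j a : R[X]) = monomial (n + j) a := by
      rw [Polynomial.X_pow_eq_monomial, Polynomial.monomial_mul_monomial, one_mul]
    rw [h1, E0_L_monomial, hc]
    push_cast
    ring

theorem E0_case1 (k : ℕ) (q : R[X]) :
    ∃ γ, E0_L (X ^ k * q) = (k.factorial : R) * (q.coeff 0 + ((k + 1 : ℕ) : R) * γ) := by
  obtain ⟨γ, hγ⟩ := E0_L_X_pow_mul (k + 1) q.divX
  refine ⟨γ, ?_⟩
  have h1 : X ^ k * q = C (q.coeff 0) * monomial k (1 : R) + X ^ (k + 1) * q.divX := by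
    conv_lhs => rw [← Polynomial.divX_mul_X_add q]
    rw [← Polynomial.X_pow_eq_monomial]
    ring
  rw [h1, E0_L_add, E0_L_C_mul, E0_L_monomial, hγ, Nat.factorial_succ]
  push_cast
  ring

theorem E0_case2 (p : ℕ) (hp : p.Prime) (h : R[X]) :
    ∃ β, E0_L (X * h ^ p) = (h.coeff 0) ^ p + (p : R) * β := by
  obtain ⟨r, hr⟩ : ∃ r, (C (h.coeff 0) + X * h.divX) ^ p = C (h.coeff 0) ^ p + (X * h.divX) ^ p + (p : R[X]) * r := by
    obtain ⟨r, hr⟩ := exists_add_pow_prime_eq hp (C (h.coeff 0)) (X * h.divX)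
    exact ⟨C (h.coeff 0) * (X * h.divX) * r, by rw [hr]; ring⟩
  obtain ⟨γ, hγ⟩ := E0_L_X_pow_mul (p + 1) (h.divX ^ p)
  refine ⟨((p + 1 : ℕ) : R) * ((p - 1).factorial : R) * γ + E0_L (X * r), ?_⟩
  have h0 : h = C (h.coeff 0) + X * h.divX := by
    conv_lhs => rw [← Polynomial.divX_mul_X_add h]
    ring
  have h1 : X * h ^ p = C ((h.coeff 0) ^ p) * monomial 1 (1 : R) + X ^ (p + 1) * h.divX ^ p
      + (p : R[X]) * (X * r) := by
    conv_lhs => rw [h0, hr]
    rw [← Polynomial.X_pow_eq_monomial, C_pow]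
    ring
  have h2 : (p + 1).factorial = (p + 1) * (p * (p - 1).factorial) := by
    rw [Nat.factorial_succ, Nat.mul_factorial_pred hp.ne_zero]
  rw [h1, E0_L_add, E0_L_add, E0_L_C_mul, E0_L_monomial, hγ, E0_L_natCast_mul, h2]
  push_cast
  simp
  ring

end E0aux

theorem E0_map {K : Type*} [Field K] [NumberField K] (q : (𝓞 K)[X]) :
    L1 (q.map (algebraMap (𝓞 K) K)) = algebraMap (𝓞 K) K (E0_L q) := by
  induction q using Polynomial.induction_on' with
  | add p q hp hq =>
    rw [Polynomial.map_add, E0_L_add, map_add, ← hp, ← hq]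
    exact L1_add _ _
  | monomial n a =>
    rw [Polynomial.map_monomial, E0_L_monomial, map_mul, map_natCast]
    rw [← Polynomial.C_mul_X_pow_eq_monomial]
    exact L1_C_mul_X_pow _ _

/-- Proof.  Multiply `g` by a positive integer to make all coefficients algebraic integers (`L1 (X (m g)^n) = m^n L1 (X g^n)`).
Write `g = X^r h`, `h(0) = α ≠ 0`, `α` integral.  Let `p > max r 2` be the prime of `exists_good_prime`.
Case `r ≥ 1`: choose `m ≥ 1` with `r m + 2 ≡ 0 mod p` (`r` is invertible mod `p`).  `X g^m = X^(rm+1) h^m`, so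
`L1 (X g^m) = ∑_j c_j (rm+1+j)!`, `c_0 = α^m`, `c_j` integral, `= (rm+1)! (α^m + p β)` with `β` integral (for `j ≥ 1` the factor
`rm+2` divides `(rm+1+j)!/(rm+1)!`).  If it were `0`, `α^m = p (-β)`, contradiction.
Case `r = 0`: `m = p`.  In `O_K[X]`, `h^p = ∑ a_j^p X^(pj) + p (…)` (`add_pow_char` in `(O_K/p)[X]`, or `Polynomial.expand_…`), so
`L1 (X h^p) = ∑_j a_j^p (pj+1)! + p(…) = α^p + p β`; same contradiction. -/
theorem E0 {K : Type*} [Field K] [NumberField K] (g : K[X]) (hg : g ≠ 0) :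
    ∃ m : ℕ, 1 ≤ m ∧ L1 (X * g ^ m) ≠ 0 := by
  obtain ⟨b, hb1, hb⟩ := exists_int_mul (C g)
  have hb0 := hb 0
  rw [Polynomial.coeff_C_zero] at hb0
  -- the integral model
  obtain ⟨G, hG⟩ : ∃ G : (𝓞 K)[X], G.map (algebraMap (𝓞 K) K) = (b : K[X]) * g := by
    have : (b : K[X]) * g ∈ Polynomial.lifts (algebraMap (𝓞 K) K) := by
      rw [Polynomial.lifts_iff_coeff_lifts]
      intro n
      exact ⟨⟨_, hb0 n⟩, rfl⟩
    rw [Polynomial.mem_lifts] at this
    exact this
  have hbK : (b : K) ≠ 0 := by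
    have : b ≠ 0 := by omega
    exact_mod_cast this
  have hbX : (b : K[X]) ≠ 0 := by
    have : b ≠ 0 := by omega
    exact_mod_cast this
  have hG0 : G ≠ 0 := by
    rintro rfl
    rw [Polynomial.map_zero] at hG
    exact mul_ne_zero hbX hg hG.symm
  -- reduction to `E0_L`
  have key : ∀ m : ℕ, E0_L (X * G ^ m) ≠ 0 → L1 (X * g ^ m) ≠ 0 := by
    intro m hm h0
    apply hm
    have h1 : (algebraMap (𝓞 K) K) (E0_L (X * G ^ m)) = 0 := by
      rw [← E0_map, Polynomial.map_mul, Polynomial.map_pow, Polynomial.map_X, hG]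
      have h2 : X * ((b : K[X]) * g) ^ m = C ((b : K) ^ m) * (X * g ^ m) := by
        rw [mul_pow, C_pow]
        simp
        ring
      rw [h2]
      have h3 : ∀ q : K[X], L1 (C ((b : K) ^ m) * q) = (b : K) ^ m * L1 q := fun q => E0_L_C_mul _ q
      rw [h3, h0, mul_zero]
    exact (FaithfulSMul.algebraMap_eq_zero_iff (𝓞 K) K).mp h1
  obtain ⟨h, hGh, hXh⟩ := Polynomial.exists_eq_pow_rootMultiplicity_mul_and_not_dvd G hG0 0
  rw [C_0, sub_zero] at hGh hXh
  rw [Polynomial.X_dvd_iff] at hXh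
  set r := G.rootMultiplicity 0 with hr
  have hα0 : (algebraMap (𝓞 K) K) (h.coeff 0) ≠ 0 := by
    intro h0
    exact hXh ((FaithfulSMul.algebraMap_eq_zero_iff (𝓞 K) K).mp h0)
  obtain ⟨p, hp, hpB, hpm⟩ := exists_good_prime ((algebraMap (𝓞 K) K) (h.coeff 0)) (h.coeff 0).2 hα0 (max r 2)
  have hpr : r < p := lt_of_le_of_lt (le_max_left _ _) hpB
  have hp2 : 2 < p := lt_of_le_of_lt (le_max_right _ _) hpB
  -- the contradiction
  have contra : ∀ (m : ℕ) (β : 𝓞 K), (h.coeff 0) ^ m + (p : 𝓞 K) * β ≠ 0 := by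
    intro m β hz
    refine hpm m ((algebraMap (𝓞 K) K) (-β)) (-β).2 ?_
    have h1 := congrArg (algebraMap (𝓞 K) K) hz
    rw [map_add, map_mul, map_pow, map_natCast, map_zero] at h1
    rw [map_neg]
    linear_combination h1
  rcases Nat.eq_zero_or_pos r with hr0 | hrpos
  · -- r = 0
    refine ⟨p, hp.one_lt.le, key p ?_⟩
    have hGh' : G = h := by rw [hGh, hr0, pow_zero, one_mul]
    obtain ⟨β, hβ⟩ := E0_case2 p hp h
    rw [hGh', hβ]
    exact contra p β
  · -- r ≥ 1
    obtain ⟨m, hm1, hm⟩ : ∃ m : ℕ, 1 ≤ m ∧ p ∣ r * m + 2 := by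
      have hcop : Nat.Coprime r p := by
        rw [Nat.coprime_comm, hp.coprime_iff_not_dvd]
        intro hd
        exact absurd (Nat.le_of_dvd hrpos hd) (by omega)
      have : Fact p.Prime := ⟨hp⟩
      have hrz : (r : ZMod p) ≠ 0 := by
        intro h0
        rw [ZMod.natCast_eq_zero_iff] at h0
        exact absurd (Nat.le_of_dvd hrpos h0) (by omega)
      refine ⟨((-2 : ZMod p) * (r : ZMod p)⁻¹).val + p, by have := hp.pos; omega, ?_⟩
      rw [← ZMod.natCast_eq_zero_iff]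
      have hp0 : (p : ZMod p) = 0 := CharP.cast_eq_zero (ZMod p) p
      push_cast
      rw [ZMod.natCast_val, ZMod.cast_id, hp0]
      field_simp
      ring
    refine ⟨m, hm1, key m ?_⟩
    obtain ⟨γ, hγ⟩ := E0_case1 (r * m + 1) (h ^ m)
    have h1 : X * G ^ m = X ^ (r * m + 1) * h ^ m := by
      conv_lhs => rw [hGh]
      ring
    rw [h1, hγ]
    obtain ⟨t, ht⟩ := hm
    refine mul_ne_zero ?_ ?_
    · exact_mod_cast Nat.factorial_ne_zero _
    · have h2 : ((r * m + 1 + 1 : ℕ) : 𝓞 K) = (p : 𝓞 K) * (t : 𝓞 K) := by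
        rw [show r * m + 1 + 1 = r * m + 2 from rfl, ht]
        push_cast
        rfl
      rw [h2, Polynomial.coeff_zero_eq_eval_zero, Polynomial.eval_pow, ← Polynomial.coeff_zero_eq_eval_zero, mul_assoc]
      exact contra m _

end Pool.Agent.FCT
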