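import Pool.Agent.FCT.A1

/-!
# Laurent series at infinity: `𝓔 = L((x))`, `c = x^(-E)`
-/

set_option autoImplicit false

namespace Pool.Agent.FCT

open Polynomial Finset

section

variable (κ L : Type*) [Field κ] [Field L] [Algebra κ L]

/-- the inclusion `κ → L((x))` -/
noncomputable def iE : κ →+* LaurentSeries L := (HahnSeries.C).comp (algebraMap κ L)

/-- `c = x^(-E)` -/
noncomputable def cE (E : ℕ) : LaurentSeries L := HahnSeries.single (-(E : ℤ)) (1 : L)

/-- evaluation `κ[X] → L((x))`, `X ↦ c` -/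
noncomputable def evc (E : ℕ) : κ[X] →+* LaurentSeries L := Polynomial.eval₂RingHom (iE κ L) (cE L E)

end

variable {κ L : Type*} [Field κ] [Field L] [Algebra κ L]

/-- `z` has order `≥ N` -/
def Ov (N : ℤ) (z : LaurentSeries L) : Prop := ∀ n : ℤ, n < N → z.coeff n = 0

/-- The series `∑ a_ν c^(-ν-1) ∈ L((x))`: the coefficient of `x^(E(ν+1))` is `a_ν`, the others are `0`. -/
noncomputable def toE (L : Type*) [Field L] [Algebra κ L] (E : ℕ) (a : ℕ → κ) : LaurentSeries L :=
  HahnSeries.ofPowerSeries ℤ L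
    (PowerSeries.mk fun n => if E ∣ n ∧ n ≠ 0 then algebraMap κ L (a (n / E - 1)) else 0)

/-- `∫_0^s G(y) dy` for `G ∈ κ[y]`, `s ∈ κ` -/
noncomputable def ISk (s : κ) (G : κ[X]) : κ := G.sum (fun j g => g * (((j + 1 : ℕ) : κ)⁻¹ * s ^ (j + 1)))

end Pool.Agent.FCT
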