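import Mathlib

/-! Row FCT-H1: Hensel's lemma for power series -/

set_option autoImplicit false

namespace Pool.Agent.FCT

open Polynomial Finset

/-- Hensel's lemma in `L⟦t⟧` (no monicity).  Proof: Newton iteration in the complete local ring `L⟦t⟧`
(`IsAdicComplete (Ideal.span {X})` is an instance in `Mathlib/RingTheory/AdicCompletion/Completeness.lean`; the proof of
`IsAdicComplete.henselianRing` in `Mathlib/RingTheory/Henselian.lean` does not really use that the polynomial is monic), or: construct the
coefficients of `z` one by one: if `eval (z_n) G ∈ (t^n)` then there is a unique `a ∈ L` with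
`eval (z_n + a t^n) G ∈ (t^(n+1))`, because `G(z_n + a t^n) ≡ G(z_n) + G'(z_n) a t^n mod t^(n+1)` (`n ≥ 1`). -/
theorem hensel_ps {L : Type*} [Field L] (G : (PowerSeries L)[X]) (α : L)
    (h0 : eval α (G.map (PowerSeries.constantCoeff (R := L))) = 0)
    (h1 : eval α (derivative (G.map (PowerSeries.constantCoeff (R := L)))) ≠ 0) :
    ∃ z : PowerSeries L, eval z G = 0 ∧ PowerSeries.constantCoeff (R := L) z = α := by
  let s : ℕ → PowerSeries L := fun n => Nat.rec (PowerSeries.C α)
    (fun _ z => z - eval z G * (eval z (derivative G))⁻¹) n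
  have hs0 : s 0 = PowerSeries.C α := rfl
  have hs : ∀ n, s (n + 1) = s n - eval (s n) G * (eval (s n) (derivative G))⁻¹ := fun n => rfl
  have hcc : ∀ (P : (PowerSeries L)[X]) (z : PowerSeries L), PowerSeries.constantCoeff (eval z P) =
      eval (PowerSeries.constantCoeff z) (P.map (PowerSeries.constantCoeff (R := L))) := by
    intro P z
    rw [Polynomial.eval_map, Polynomial.eval₂_at_apply]
  have hinv : ∀ n, (PowerSeries.X : PowerSeries L) ^ (n + 1) ∣ eval (s n) G ∧ PowerSeries.constantCoeff (s n) = α := by
    intro n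
    induction n with
    | zero =>
      have hc : PowerSeries.constantCoeff (s 0) = α := by rw [hs0, PowerSeries.constantCoeff_C]
      refine ⟨?_, hc⟩
      rw [zero_add, pow_one, PowerSeries.X_dvd_iff, hcc, hc, h0]
    | succ n ih =>
      obtain ⟨⟨q, hq⟩, hc⟩ := ih
      have hd : PowerSeries.constantCoeff (eval (s n) (derivative G)) ≠ 0 := by
        rw [hcc, hc, ← Polynomial.derivative_map]
        exact h1
      have hu : eval (s n) (derivative G) * (eval (s n) (derivative G))⁻¹ = 1 := PowerSeries.mul_inv_cancel _ hd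
      constructor
      · obtain ⟨k, hk⟩ := Polynomial.binomExpansion G (s n) (-(eval (s n) G * (eval (s n) (derivative G))⁻¹))
        rw [hs, sub_eq_add_neg, hk]
        have e : eval (s n) G + eval (s n) (derivative G) * -(eval (s n) G * (eval (s n) (derivative G))⁻¹) = 0 := by
          linear_combination (-eval (s n) G) * hu
        rw [e, zero_add, hq]
        refine ⟨k * (PowerSeries.X ^ n * q ^ 2 * ((eval (s n) (derivative G))⁻¹) ^ 2), ?_⟩
        ring
      · rw [hs, map_sub, map_mul, hq, map_mul, map_pow, PowerSeries.constantCoeff_X, zero_pow (Nat.succ_ne_zero n),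
          zero_mul, zero_mul, sub_zero, hc]
  have hstep : ∀ n, (PowerSeries.X : PowerSeries L) ^ (n + 1) ∣ s (n + 1) - s n := by
    intro n
    obtain ⟨q, hq⟩ := (hinv n).1
    rw [hs, hq]
    exact ⟨-(q * (eval (s n) (derivative G))⁻¹), by ring⟩
  have hle : ∀ n m, n ≤ m → (PowerSeries.X : PowerSeries L) ^ (n + 1) ∣ s m - s n := by
    intro n m h
    induction m, h using Nat.le_induction with
    | base => rw [sub_self]; exact dvd_zero _
    | succ m h ih =>
      have e : s (m + 1) - s n = (s (m + 1) - s m) + (s m - s n) := by ring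
      rw [e]
      exact dvd_add (dvd_trans (pow_dvd_pow _ (by omega)) (hstep m)) ih
  let z : PowerSeries L := PowerSeries.mk fun n => PowerSeries.coeff n (s n)
  have hz : ∀ n, (PowerSeries.X : PowerSeries L) ^ (n + 1) ∣ z - s n := by
    intro n
    rw [PowerSeries.X_pow_dvd_iff]
    intro m hm
    have h2 := (PowerSeries.X_pow_dvd_iff.1 (hle m n (by omega))) m (Nat.lt_succ_self m)
    rw [map_sub, PowerSeries.coeff_mk]
    rw [map_sub] at h2
    rw [sub_eq_zero] at h2 ⊢
    exact h2.symm
  refine ⟨z, ?_, ?_⟩
  · ext n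
    have h2 : (PowerSeries.X : PowerSeries L) ^ (n + 1) ∣ eval z G := by
      have e : eval z G = (eval z G - eval (s n) G) + eval (s n) G := by ring
      rw [e]
      exact dvd_add (dvd_trans (hz n) (Polynomial.sub_dvd_eval_sub _ _ _)) (hinv n).1
    rw [map_zero]
    exact (PowerSeries.X_pow_dvd_iff.1 h2) n (Nat.lt_succ_self n)
  · have h2 : PowerSeries.coeff 0 z = PowerSeries.coeff 0 (s 0) := by rw [PowerSeries.coeff_mk]
    rw [PowerSeries.coeff_zero_eq_constantCoeff_apply, PowerSeries.coeff_zero_eq_constantCoeff_apply, hs0,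
      PowerSeries.constantCoeff_C] at h2
    exact h2

end Pool.Agent.FCT
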