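import Mathlib

/-! Row FCT-H1b: the product formula from distinct roots -/

set_option autoImplicit false

namespace Pool.Agent.FCT

open Polynomial Finset

/-- A polynomial of degree `E` with `E` distinct roots `y i` is `lc * ∏ (X - y i)`. -/
theorem prod_of_roots {R : Type*} [Field R] (p : R[X]) (hp : p ≠ 0) (y : Fin p.natDegree → R)
    (hy : Function.Injective y) (hr : ∀ i, eval (y i) p = 0) :
    p = C p.leadingCoeff * ∏ i, (X - C (y i)) := by
  classical
  have h1 : Multiset.map y (Finset.univ : Finset (Fin p.natDegree)).val ≤ p.roots := by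
    rw [Multiset.le_iff_subset (Multiset.Nodup.map hy Finset.univ.nodup)]
    intro a ha
    rw [Multiset.mem_map] at ha
    obtain ⟨i, -, rfl⟩ := ha
    rw [Polynomial.mem_roots hp]
    exact hr i
  have h2 : Multiset.map y (Finset.univ : Finset (Fin p.natDegree)).val = p.roots := by
    refine Multiset.eq_of_le_of_card_le h1 ?_
    rw [Multiset.card_map, Finset.card_val, Finset.card_univ, Fintype.card_fin]
    exact p.card_roots'
  have h3 : p.roots.card = p.natDegree := by
    rw [← h2, Multiset.card_map, Finset.card_val, Finset.card_univ, Fintype.card_fin]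
  have h4 := Polynomial.C_leadingCoeff_mul_prod_multiset_X_sub_C h3
  rw [← h2, Multiset.map_map] at h4
  exact h4.symm

end Pool.Agent.FCT
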