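import Pool.Agent.FCT.R2
import Pool.Agent.FCT.H1
import Pool.Agent.FCT.H1b

/-! Row FCT-H2: the roots of `F(Y) = c` in `L((x))`, `c = x^(-E)`. -/

set_option autoImplicit false

namespace Pool.Agent.FCT

open Polynomial Finset

variable {κ L : Type*} [Field κ] [Field L] [Algebra κ L]

/-- `Roots F y`: the `y i ∈ R` are pairwise distinct and `F(Y) - c = lc(F) ∏ (Y - y i)` over the field `R ⊇ κ`. -/
def Roots {κ R : Type*} [Field κ] [Field R] (i : κ →+* R) (c : R) (F : κ[X]) (y : Fin F.natDegree → R) : Prop :=
  Function.Injective y ∧ F.map i - C c = C (i F.leadingCoeff) * ∏ j, (X - C (y j))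

private theorem prod_of_roots' {R : Type*} [Field R] (p : R[X]) (hp : p ≠ 0) (n : ℕ)
    (hn : p.natDegree = n) (y : Fin n → R) (hy : Function.Injective y)
    (hr : ∀ i, eval (y i) p = 0) : p = C p.leadingCoeff * ∏ i, (X - C (y i)) := by
  subst hn
  exact prod_of_roots p hp y hy hr

/-- Proof.  `E = natDegree F`, `a_j` the coefficients.  Put `G = ∑_j a_j t^(E-j) X^j - t^0`, i.e.
`G(X) = t^E F(X/t) - 1 ∈ L⟦t⟧[X]`; modulo `t` it is `a_E X^E - 1`, which has `E` distinct roots in `L` by hypothesis
(it splits and is separable: `E a_E ≠ 0` in `L`).  For each of them `hensel_ps` gives a root `z_i ∈ L⟦t⟧` of `G` with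
`constantCoeff z_i = α_i ≠ 0` (`α_i^E a_E = 1`), pairwise distinct.  `y i := x^(-1) z_i`; then `F(y i) = x^(-E) = c`.
The polynomial `F.map iE - C c` has degree `E` and these `E` distinct roots: `prod_of_roots`. -/
theorem roots_inf [CharZero L] (F : κ[X]) (hF : 1 ≤ F.natDegree)
    (hs : (C (algebraMap κ L F.leadingCoeff) * X ^ F.natDegree - 1 : L[X]).Splits) :
    ∃ y : Fin F.natDegree → LaurentSeries L, Roots (iE κ L) (cE L F.natDegree) F y := by
  classical
  set E := F.natDegree with hE
  set p : L[X] := C (algebraMap κ L F.leadingCoeff) * X ^ E - 1 with hp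
  have hF0 : F ≠ 0 := by
    rintro rfl
    rw [natDegree_zero] at hE
    omega
  have hlc : algebraMap κ L F.leadingCoeff ≠ 0 := by
    rw [Ne, map_eq_zero]
    exact leadingCoeff_ne_zero.2 hF0
  have hE0 : (E : L) ≠ 0 := by
    rw [Ne, Nat.cast_eq_zero]
    omega
  have hpdeg : p.natDegree = E := by
    rw [hp, ← C_1]
    rw [natDegree_sub_C]
    exact natDegree_C_mul_X_pow E _ hlc
  have hp0 : p ≠ 0 := by
    intro h0
    rw [h0, natDegree_zero] at hpdeg
    omega
  have hder : derivative p = C (algebraMap κ L F.leadingCoeff * E) * X ^ (E - 1) := by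
    rw [hp]
    simp only [derivative_sub, derivative_C_mul, derivative_X_pow, derivative_one, sub_zero]
    rw [C_mul, mul_assoc, C_eq_natCast]
  have hroot : ∀ α, eval α p = 0 → algebraMap κ L F.leadingCoeff * α ^ E = 1 := by
    intro α hα
    rw [hp] at hα
    simp only [eval_sub, eval_mul, eval_C, eval_pow, eval_X, eval_one] at hα
    exact sub_eq_zero.1 hα
  have hsimple : ∀ α, eval α p = 0 → eval α (derivative p) ≠ 0 := by
    intro α hα
    have h1 := hroot α hα
    have hα0 : α ≠ 0 := by
      rintro rfl
      rw [zero_pow (by omega), mul_zero] at h1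
      exact zero_ne_one h1
    rw [hder]
    simp only [eval_mul, eval_C, eval_pow, eval_X]
    exact mul_ne_zero (mul_ne_zero hlc hE0) (pow_ne_zero _ hα0)
  have hnodup : p.roots.Nodup := by
    rw [Multiset.nodup_iff_count_le_one]
    intro α
    rw [count_roots]
    by_contra hcon
    push Not at hcon
    have h2 : p.IsRoot α := by
      rw [← rootMultiplicity_pos hp0]
      omega
    have h3 := (one_lt_rootMultiplicity_iff_isRoot hp0).1 hcon
    exact hsimple α h2 h3.2
  have hcard : p.roots.toFinset.card = E := by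
    rw [Multiset.toFinset_card_of_nodup hnodup, ← hpdeg]
    exact hs.natDegree_eq_card_roots.symm
  let e : Fin E ≃ p.roots.toFinset :=
    (Fintype.equivFinOfCardEq (by rw [Fintype.card_coe, hcard])).symm
  have hα : ∀ i, eval (e i : L) p = 0 := by
    intro i
    have h1 := (e i).2
    rw [Multiset.mem_toFinset] at h1
    exact (mem_roots hp0).1 h1
  -- the polynomial over the power series
  let G : (PowerSeries L)[X] :=
    (∑ j ∈ range (E + 1), C (PowerSeries.C (algebraMap κ L (F.coeff j)) *
      (PowerSeries.X : PowerSeries L) ^ (E - j)) * X ^ j) - 1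
  have hGmap : G.map (PowerSeries.constantCoeff (R := L)) = p := by
    show Polynomial.map _ ((∑ j ∈ range (E + 1), C (PowerSeries.C (algebraMap κ L (F.coeff j)) *
      (PowerSeries.X : PowerSeries L) ^ (E - j)) * X ^ j) - 1) = p
    rw [Polynomial.map_sub, Polynomial.map_sum, Polynomial.map_one, hp, Finset.sum_range_succ,
      Finset.sum_eq_zero, zero_add]
    · simp only [Nat.sub_self, pow_zero, mul_one, Polynomial.map_mul, Polynomial.map_C,
        Polynomial.map_pow, Polynomial.map_X, PowerSeries.constantCoeff_C]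
      rfl
    · intro j hj
      rw [Finset.mem_range] at hj
      have h1 : E - j ≠ 0 := by omega
      rw [Polynomial.map_mul, Polynomial.map_C, map_mul, map_pow, PowerSeries.constantCoeff_X,
        zero_pow h1, mul_zero, C_0, zero_mul]
  have hz : ∀ i : Fin E, ∃ z : PowerSeries L, eval z G = 0 ∧
      PowerSeries.constantCoeff (R := L) z = (e i : L) := by
    intro i
    refine hensel_ps G (e i : L) ?_ ?_
    · rw [hGmap]; exact hα i
    · rw [hGmap]; exact hsimple _ (hα i)
  choose z hz0 hz1 using hz
  let φ : PowerSeries L →+* LaurentSeries L := HahnSeries.ofPowerSeries ℤ L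
  let y : Fin E → LaurentSeries L := fun i => HahnSeries.single (-1 : ℤ) (1 : L) * φ (z i)
  have hφX : φ (PowerSeries.X : PowerSeries L) = HahnSeries.single (1 : ℤ) (1 : L) :=
    HahnSeries.ofPowerSeries_X
  have hφC : ∀ a : L, φ (PowerSeries.C a) = HahnSeries.C a := fun a => HahnSeries.ofPowerSeries_C a
  have hx : HahnSeries.single (-1 : ℤ) (1 : L) * HahnSeries.single (1 : ℤ) (1 : L) = 1 := by
    rw [HahnSeries.single_mul_single]
    simp
  have hcE : cE L E = (HahnSeries.single (-1 : ℤ) (1 : L) : LaurentSeries L) ^ E := by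
    rw [cE, HahnSeries.single_pow]
    simp
  have hyroot : ∀ i, eval₂ (iE κ L) (y i) F = cE L E := by
    intro i
    have h1 : ∑ j ∈ range (E + 1), PowerSeries.C (algebraMap κ L (F.coeff j)) *
        (PowerSeries.X : PowerSeries L) ^ (E - j) * (z i) ^ j = 1 := by
      have h2 := hz0 i
      have h3 : eval (z i) G = (∑ j ∈ range (E + 1), PowerSeries.C (algebraMap κ L (F.coeff j)) *
        (PowerSeries.X : PowerSeries L) ^ (E - j) * (z i) ^ j) - 1 := by
        show eval (z i) ((∑ j ∈ range (E + 1), C (PowerSeries.C (algebraMap κ L (F.coeff j)) *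
          (PowerSeries.X : PowerSeries L) ^ (E - j)) * X ^ j) - 1) = _
        rw [eval_sub, eval_finsetSum, eval_one]
        congr 1
        refine Finset.sum_congr rfl fun j _ => ?_
        rw [eval_mul, eval_C, eval_pow, eval_X]
      rw [h3] at h2
      exact sub_eq_zero.1 h2
    have h4 := congrArg φ h1
    rw [map_sum, map_one] at h4
    rw [eval₂_eq_sum_range, ← hE, hcE]
    calc ∑ j ∈ range (E + 1), iE κ L (F.coeff j) * y i ^ j
        = ∑ j ∈ range (E + 1), (HahnSeries.single (-1 : ℤ) (1 : L) : LaurentSeries L) ^ E *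
            φ (PowerSeries.C (algebraMap κ L (F.coeff j)) *
            (PowerSeries.X : PowerSeries L) ^ (E - j) * (z i) ^ j) := by
          refine Finset.sum_congr rfl fun j hj => ?_
          rw [Finset.mem_range] at hj
          obtain ⟨r, hr⟩ : ∃ r, E = r + j := ⟨E - j, by omega⟩
          rw [map_mul, map_mul, map_pow, map_pow, hφX, hφC]
          have h5 : E - j = r := by omega
          rw [h5]
          have h6 : (HahnSeries.single (-1 : ℤ) (1 : L) : LaurentSeries L) ^ E =
              (HahnSeries.single (-1 : ℤ) (1 : L)) ^ r * (HahnSeries.single (-1 : ℤ) (1 : L)) ^ j := by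
            rw [hr, pow_add]
          rw [h6]
          show iE κ L (F.coeff j) * (HahnSeries.single (-1 : ℤ) (1 : L) * φ (z i)) ^ j = _
          have h7 : (HahnSeries.single (-1 : ℤ) (1 : L) : LaurentSeries L) ^ r *
              (HahnSeries.single (1 : ℤ) (1 : L)) ^ r = 1 := by
            rw [← mul_pow, hx, one_pow]
          have h8 : iE κ L (F.coeff j) = HahnSeries.C (algebraMap κ L (F.coeff j)) := rfl
          rw [h8, mul_pow]
          calc HahnSeries.C (algebraMap κ L (F.coeff j)) *
                ((HahnSeries.single (-1 : ℤ) (1 : L)) ^ j * φ (z i) ^ j)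
              = 1 * (HahnSeries.C (algebraMap κ L (F.coeff j)) *
                ((HahnSeries.single (-1 : ℤ) (1 : L)) ^ j * φ (z i) ^ j)) := by rw [one_mul]
            _ = _ := by
              rw [← h7]
              ring
      _ = (HahnSeries.single (-1 : ℤ) (1 : L) : LaurentSeries L) ^ E := by
          rw [← Finset.mul_sum, h4, mul_one]
  have hinj : Function.Injective y := by
    intro i j hij
    have h1 : φ (z i) = φ (z j) := by
      have h2 : HahnSeries.single (1 : ℤ) (1 : L) * y i = HahnSeries.single (1 : ℤ) (1 : L) * y j := by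
        rw [hij]
      have h3 : ∀ w : LaurentSeries L, HahnSeries.single (1 : ℤ) (1 : L) *
          (HahnSeries.single (-1 : ℤ) (1 : L) * w) = w := by
        intro w
        rw [← mul_assoc, mul_comm (HahnSeries.single (1 : ℤ) (1 : L)), hx, one_mul]
      have h4 : HahnSeries.single (1 : ℤ) (1 : L) * (HahnSeries.single (-1 : ℤ) (1 : L) * φ (z i)) =
          HahnSeries.single (1 : ℤ) (1 : L) * (HahnSeries.single (-1 : ℤ) (1 : L) * φ (z j)) := h2
      rw [h3, h3] at h4
      exact h4
    have h5 : z i = z j := HahnSeries.ofPowerSeries_injective h1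
    have h6 : (e i : L) = (e j : L) := by rw [← hz1 i, ← hz1 j, h5]
    exact e.injective (Subtype.ext h6)
  refine ⟨y, hinj, ?_⟩
  have hlcI : iE κ L F.leadingCoeff ≠ 0 := by
    rw [Ne, map_eq_zero]
    exact leadingCoeff_ne_zero.2 hF0
  have hmapdeg : (F.map (iE κ L)).natDegree = E := natDegree_map (iE κ L)
  have hqdeg : (F.map (iE κ L) - C (cE L E)).natDegree = E := by
    rw [natDegree_sub_C, hmapdeg]
  have hq0 : F.map (iE κ L) - C (cE L E) ≠ 0 := by
    intro h0
    rw [h0, natDegree_zero] at hqdeg
    omega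
  have hqlc : (F.map (iE κ L) - C (cE L E)).leadingCoeff = iE κ L F.leadingCoeff := by
    rw [leadingCoeff, hqdeg, coeff_sub, coeff_map, coeff_C, if_neg (by omega), sub_zero]
    rfl
  have h9 := prod_of_roots' (F.map (iE κ L) - C (cE L E)) hq0 E hqdeg y hinj (by
    intro i
    rw [eval_sub, eval_C, eval_map, hyroot i, sub_self])
  rw [hqlc] at h9
  exact h9

end Pool.Agent.FCT
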