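import Pool.Agent.FCT.H1

/-! Row FCT-H3a: Puiseux, local part -/

set_option autoImplicit false

namespace Pool.Agent.FCT

open Polynomial Finset

/-- Local part.  `P = (Y - a)^m U(Y)` with `U(a) ≠ 0`, `1 ≤ m`, `e = m k`, `k ≥ 1`.  Then `P(Y) = t^e` has `m` distinct roots in
`Lb⟦t⟧` with constant coefficient `a`.  Proof: put `Y = a + t^k X`: the equation is `t^e (X^m U(a + t^k X) - 1) = 0`.  The polynomial
`G(X) = X^m U(a + t^k X) - 1` reduces modulo `t` to `U(a) X^m - 1`, which has `m` distinct roots in `Lb`; `hensel_ps`. -/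
theorem local_roots {Lb : Type*} [Field Lb] [IsAlgClosed Lb] [CharZero Lb] (P U : Lb[X]) (a : Lb) (m k : ℕ)
    (hm : 1 ≤ m) (hk : 1 ≤ k) (hP : P = (X - C a) ^ m * U) (hU : eval a U ≠ 0) :
    ∃ z : Fin m → PowerSeries Lb, Function.Injective z ∧
      (∀ i, PowerSeries.constantCoeff (R := Lb) (z i) = a) ∧
      ∀ i, eval₂ (PowerSeries.C (R := Lb)) (z i) P = PowerSeries.X ^ (m * k) := by
  have hm0 : (m : Lb) ≠ 0 := Nat.cast_ne_zero.2 (by omega)
  have : NeZero (m : Lb) := ⟨hm0⟩
  obtain ⟨β, hβ⟩ := IsAlgClosed.exists_pow_nat_eq (eval a U)⁻¹ (show 0 < m by omega)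
  have hβ0 : β ≠ 0 := by
    rintro rfl
    rw [zero_pow (by omega)] at hβ
    exact inv_ne_zero hU hβ.symm
  obtain ⟨ζ, hζ⟩ := HasEnoughRootsOfUnity.exists_primitiveRoot Lb m
  let x : Fin m → Lb := fun i => β * ζ ^ (i : ℕ)
  have hx : ∀ i, (x i) ^ m = (eval a U)⁻¹ := by
    intro i
    simp only [x]
    rw [mul_pow, hβ, ← pow_mul, mul_comm (i : ℕ) m, pow_mul, hζ.pow_eq_one, one_pow, mul_one]
  have hxinj : Function.Injective x := by
    intro i j h
    have h1 : ζ ^ (i : ℕ) = ζ ^ (j : ℕ) := mul_left_cancel₀ hβ0 h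
    exact Fin.ext (hζ.pow_inj i.2 j.2 h1)
  have hx0 : ∀ i, x i ≠ 0 := by
    intro i h
    have := hx i
    rw [h, zero_pow (by omega)] at this
    exact inv_ne_zero hU this.symm
  let G : (PowerSeries Lb)[X] := X ^ m * (U.map (PowerSeries.C (R := Lb))).comp
    (C (PowerSeries.C a) + C (PowerSeries.X ^ k) * X) - 1
  have hG : G.map (PowerSeries.constantCoeff (R := Lb)) = C (eval a U) * X ^ m - 1 := by
    simp only [G]
    rw [Polynomial.map_sub, Polynomial.map_mul, Polynomial.map_pow, Polynomial.map_X, Polynomial.map_comp,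
      Polynomial.map_map, Polynomial.map_add, Polynomial.map_mul, Polynomial.map_C, Polynomial.map_C, map_pow,
      PowerSeries.constantCoeff_X, zero_pow (by omega : k ≠ 0), PowerSeries.constantCoeff_C, Polynomial.map_one,
      map_zero, zero_mul, add_zero]
    have h2 : (PowerSeries.constantCoeff (R := Lb)).comp (PowerSeries.C (R := Lb)) = RingHom.id Lb := by
      ext r
      simp
    rw [h2, Polynomial.map_id, Polynomial.comp_C, mul_comm]
  have hex : ∀ i, ∃ w : PowerSeries Lb, eval w G = 0 ∧ PowerSeries.constantCoeff (R := Lb) w = x i := by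
    intro i
    apply hensel_ps
    · rw [hG, eval_sub, eval_mul, eval_C, eval_pow, eval_X, eval_one, hx, mul_inv_cancel₀ hU, sub_self]
    · rw [hG, derivative_sub, derivative_one, sub_zero, derivative_C_mul, derivative_X_pow, eval_mul, eval_mul, eval_C,
        eval_C, eval_pow, eval_X]
      exact mul_ne_zero hU (mul_ne_zero hm0 (pow_ne_zero _ (hx0 i)))
  choose w hw hw' using hex
  refine ⟨fun i => PowerSeries.C a + PowerSeries.X ^ k * w i, ?_, ?_, ?_⟩
  · intro i j h
    have h1 : (PowerSeries.X : PowerSeries Lb) ^ k * w i = PowerSeries.X ^ k * w j := add_left_cancel h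
    have h2 : w i = w j := mul_left_cancel₀ (pow_ne_zero _ PowerSeries.X_ne_zero) h1
    apply hxinj
    rw [← hw', ← hw', h2]
  · intro i
    rw [map_add, map_mul, map_pow, PowerSeries.constantCoeff_X, zero_pow (by omega : k ≠ 0), zero_mul, add_zero,
      PowerSeries.constantCoeff_C]
  · intro i
    have h1 : w i ^ m * eval₂ (PowerSeries.C (R := Lb)) (PowerSeries.C a + PowerSeries.X ^ k * w i) U = 1 := by
      have h2 := hw i
      simp only [G] at h2
      rw [eval_sub, eval_mul, eval_pow, eval_X, eval_comp, eval_add, eval_mul, eval_C, eval_C, eval_X, eval_one,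
        sub_eq_zero, eval_map] at h2
      exact h2
    rw [hP, eval₂_mul, eval₂_pow, eval₂_sub, eval₂_X, eval₂_C, add_sub_cancel_left, mul_pow, mul_assoc, h1, mul_one,
      ← pow_mul, mul_comm]

end Pool.Agent.FCT
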