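import Pool.Agent.FCT.H2
import Pool.Agent.FCT.H3a

/-! Row FCT-H3: the roots of F(Y) = c0 + t^e in Lb((t)), Lb algebraically closed (Puiseux) -/

set_option autoImplicit false

namespace Pool.Agent.FCT

open Polynomial Finset

/-- Proof.  `P = F - c0` over `Lb` is `lc ∏_a (Y - a)^{m_a}` over its distinct roots `a` (multiplicities `m_a ≥ 1`, sum `E`).
Take `e = ∏ m_a` (or `E!`); `local_roots` for each `a` with `k = e / m_a` gives `m_a` roots with constant coefficient `a`; all together
`∑ m_a = E` distinct roots in `Lb⟦t⟧ ⊂ Lb((t))`.  Conclude with `prod_of_roots` for `F.map - C (c0 + t^e)`. -/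
theorem roots_fin {κ Lb : Type*} [Field κ] [Field Lb] [Algebra κ Lb] [IsAlgClosed Lb] [CharZero Lb] (F : κ[X])
    (hF : 1 ≤ F.natDegree) (c0 : κ) :
    ∃ e : ℕ, 1 ≤ e ∧ ∃ y : Fin F.natDegree → LaurentSeries Lb,
      Roots (iE κ Lb) (iE κ Lb c0 + HahnSeries.single (e : ℤ) (1 : Lb)) F y := by
  classical
  set P : Lb[X] := F.map (algebraMap κ Lb) - C (algebraMap κ Lb c0) with hP
  have hPd : P.natDegree = F.natDegree := by
    rw [hP, natDegree_sub_C, natDegree_map]
  have hP0 : P ≠ 0 := by
    intro h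
    rw [h, natDegree_zero] at hPd
    omega
  set e : ℕ := P.natDegree.factorial with he
  have he1 : 1 ≤ e := Nat.factorial_pos _
  let S : Finset Lb := P.roots.toFinset
  let m : S → ℕ := fun a => P.rootMultiplicity (a : Lb)
  have hm1 : ∀ a : S, 1 ≤ m a := by
    intro a
    have h1 := Multiset.mem_toFinset.1 a.2
    exact (Polynomial.rootMultiplicity_pos hP0).2 ((Polynomial.mem_roots hP0).1 h1)
  have hmle : ∀ a : S, m a ≤ P.natDegree := by
    intro a
    have h1 : m a = P.roots.count (a : Lb) := (Polynomial.count_roots P).symm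
    rw [h1]
    exact (Multiset.count_le_card _ _).trans (Polynomial.card_roots' P)
  have hdvd : ∀ a : S, m a ∣ e := fun a => Nat.dvd_factorial (hm1 a) (hmle a)
  have hloc : ∀ a : S, ∃ z : Fin (m a) → PowerSeries Lb, Function.Injective z ∧
      (∀ i, PowerSeries.constantCoeff (R := Lb) (z i) = a) ∧
      ∀ i, eval₂ (PowerSeries.C (R := Lb)) (z i) P = PowerSeries.X ^ e := by
    intro a
    obtain ⟨k, hk⟩ := hdvd a
    have hk1 : 1 ≤ k := by
      rcases Nat.eq_zero_or_pos k with h | h
      · rw [h, mul_zero] at hk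
        omega
      · exact h
    have h := local_roots P (P /ₘ (X - C (a : Lb)) ^ (m a)) (a : Lb) (m a) k (hm1 a) hk1
      (pow_mul_divByMonic_rootMultiplicity_eq P (a : Lb)).symm
      (eval_divByMonic_pow_rootMultiplicity_ne_zero (a : Lb) hP0)
    rw [← hk] at h
    exact h
  choose z hzinj hzc hze using hloc
  let T := Σ a : S, Fin (m a)
  have hcard : Fintype.card T = F.natDegree := by
    rw [Fintype.card_sigma]
    simp only [Fintype.card_fin]
    have h1 : ∑ a : S, m a = ∑ a ∈ S, P.roots.count a := by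
      rw [← Finset.sum_coe_sort S]
      exact Finset.sum_congr rfl fun a _ => (Polynomial.count_roots P).symm
    rw [h1, Multiset.toFinset_sum_count_eq, ← hPd]
    exact (IsAlgClosed.splits P).natDegree_eq_card_roots.symm
  let zz : T → PowerSeries Lb := fun t => z t.1 t.2
  have hzz : Function.Injective zz := by
    rintro ⟨a, i⟩ ⟨b, j⟩ h
    have h1 : (a : Lb) = b := by
      rw [← hzc a i, ← hzc b j]
      exact congrArg _ h
    have h2 : a = b := Subtype.ext h1
    subst h2
    have h3 : i = j := hzinj a h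
    rw [h3]
  let ε : Fin F.natDegree ≃ T := (Fintype.equivFinOfCardEq hcard).symm
  let y : Fin F.natDegree → LaurentSeries Lb := fun k => HahnSeries.ofPowerSeries ℤ Lb (zz (ε k))
  have hy : Function.Injective y := fun a b h => ε.injective (hzz (HahnSeries.ofPowerSeries_injective h))
  have hyr : ∀ k, eval₂ (iE κ Lb) (y k) F = iE κ Lb c0 + HahnSeries.single (e : ℤ) (1 : Lb) := by
    intro k
    have h1 := congrArg (HahnSeries.ofPowerSeries ℤ Lb) (hze (ε k).1 (ε k).2)
    rw [hom_eval₂, HahnSeries.ofPowerSeries_X_pow, hP, eval₂_sub, eval₂_C, eval₂_map] at h1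
    have h2 : ((HahnSeries.ofPowerSeries ℤ Lb).comp (PowerSeries.C (R := Lb))).comp (algebraMap κ Lb) = iE κ Lb := by
      ext1 a
      change HahnSeries.ofPowerSeries ℤ Lb (PowerSeries.C (algebraMap κ Lb a)) = HahnSeries.C (algebraMap κ Lb a)
      rw [HahnSeries.ofPowerSeries_C]
    have h3 : ((HahnSeries.ofPowerSeries ℤ Lb).comp (PowerSeries.C (R := Lb))) (algebraMap κ Lb c0) = iE κ Lb c0 := by
      rw [← h2]
      rfl
    rw [h2, h3] at h1
    rw [← h1]
    change eval₂ (iE κ Lb) (y k) F = iE κ Lb c0 + (eval₂ (iE κ Lb) (y k) F - iE κ Lb c0)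
    ring
  refine ⟨e, he1, y, hy, ?_⟩
  set c := iE κ Lb c0 + HahnSeries.single (e : ℤ) (1 : Lb) with hc
  have hpd : (F.map (iE κ Lb) - C c).natDegree = F.natDegree := by
    rw [natDegree_sub_C, natDegree_map]
  have hp0 : F.map (iE κ Lb) - C c ≠ 0 := by
    intro h
    rw [h, natDegree_zero] at hpd
    omega
  have h1 := prod_of_roots (F.map (iE κ Lb) - C c) hp0 (fun k => y (Fin.cast hpd k))
    (fun a b h => Fin.cast_injective hpd (hy h)) (fun k => by
      rw [eval_sub, eval_C, eval_map, hyr, sub_self])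
  have h2 : (F.map (iE κ Lb) - C c).leadingCoeff = iE κ Lb F.leadingCoeff := by
    rw [leadingCoeff, hpd, coeff_sub, coeff_C, if_neg (by omega), sub_zero, coeff_map]
    rfl
  rw [h2] at h1
  rw [h1]
  congr 1
  exact (finCongr hpd).prod_comp (fun k => X - C (y k))

end Pool.Agent.FCT
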