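import Pool.Agent.FCT.R2

/-! Row FCT-Lg1: the logarithm `lg u = log (1 - u)`. -/

set_option autoImplicit false

namespace Pool.Agent.FCT

open Polynomial Finset

variable {κ L : Type*} [Field κ] [Field L] [Algebra κ L]

theorem Lg1_tail (u : LaurentSeries L) (hu : Ov 1 u) {M N : ℕ} (h : M ≤ N) :
    Ov ((M : ℤ) + 1) (∑ n ∈ range N, HahnSeries.C (((n + 1 : ℕ) : L)⁻¹) * u ^ (n + 1) -
      ∑ n ∈ range M, HahnSeries.C (((n + 1 : ℕ) : L)⁻¹) * u ^ (n + 1)) := by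
  rw [← Finset.sum_sdiff_eq_sub (Finset.range_mono h)]
  apply Ov_sum
  intro n hn
  rw [Finset.mem_sdiff, Finset.mem_range, Finset.mem_range] at hn
  have h1 := Ov_mul (Ov_C (((n + 1 : ℕ) : L)⁻¹)) (Ov_pow hu (n + 1))
  refine Ov_mono ?_ h1
  push_cast
  omega

/-- Proof.  Put `S_N = ∑_{n<N} u^(n+1)/(n+1)`; for `N ≤ M`, `S_M - S_N` has order `≥ N+1`.  Define `ℓ` by
`ℓ.coeff m = - (S_m).coeff m` for `m ≥ 1` and `0` for `m ≤ 0` (a power series). -/
theorem exists_lg (u : LaurentSeries L) (hu : Ov 1 u) : ∃ l : LaurentSeries L, Ov 1 l ∧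
    ∀ N : ℕ, Ov ((N : ℤ) + 1) (l + ∑ n ∈ range N, HahnSeries.C (((n + 1 : ℕ) : L)⁻¹) * u ^ (n + 1)) := by
  obtain ⟨S, hS⟩ : ∃ S : ℕ → LaurentSeries L,
      S = fun N => ∑ n ∈ range N, HahnSeries.C (((n + 1 : ℕ) : L)⁻¹) * u ^ (n + 1) := ⟨_, rfl⟩
  have hS0 : S 0 = 0 := by rw [hS]; exact Finset.sum_range_zero _
  have htail : ∀ {M N : ℕ}, M ≤ N → Ov ((M : ℤ) + 1) (S N - S M) := by
    intro M N h
    rw [hS]
    exact Lg1_tail u hu h
  have hSN : ∀ N, Ov 1 (S N) := by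
    intro N
    have h1 := htail (Nat.zero_le N)
    rw [hS0, sub_zero, Nat.cast_zero, zero_add] at h1
    exact h1
  obtain ⟨l, hl⟩ : ∃ l : LaurentSeries L, l = HahnSeries.ofPowerSeries ℤ L (PowerSeries.mk fun m => -(S m).coeff (m : ℤ)) :=
    ⟨_, rfl⟩
  have hl0 : ∀ m : ℕ, l.coeff (m : ℤ) = -(S m).coeff (m : ℤ) := by
    intro m
    rw [hl, HahnSeries.ofPowerSeries_apply_coeff, PowerSeries.coeff_mk]
  have hln : ∀ n : ℤ, n < 0 → l.coeff n = 0 := by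
    intro n hn
    rw [hl, PowerSeries.coeff_coe, if_pos hn]
  refine ⟨l, ?_, ?_⟩
  · intro n hn
    rcases lt_or_ge n 0 with h | h
    · exact hln n h
    · obtain rfl : n = ((0 : ℕ) : ℤ) := by push_cast; omega
      rw [hl0 0, hS0, HahnSeries.coeff_zero, neg_zero]
  · intro N n hn
    have hSe : ∑ n ∈ range N, HahnSeries.C (((n + 1 : ℕ) : L)⁻¹) * u ^ (n + 1) = S N := by rw [hS]
    rw [hSe, HahnSeries.coeff_add]
    rcases lt_or_ge n 0 with h | h
    · rw [hln n h, hSN N n (by omega), add_zero]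
    · obtain ⟨m, rfl⟩ := Int.eq_ofNat_of_zero_le h
      have h1 := htail (M := m) (N := N) (by omega) (m : ℤ) (by omega)
      rw [HahnSeries.coeff_sub] at h1
      rw [hl0 m]
      linear_combination h1

open Classical in
/-- `lg u = log (1 - u) = - ∑ u^(n+1)/(n+1)` if `ord u ≥ 1` -/
noncomputable def lg (u : LaurentSeries L) : LaurentSeries L := if h : Ov 1 u then (exists_lg u h).choose else 0

theorem Ov_lg (u : LaurentSeries L) (hu : Ov 1 u) : Ov 1 (lg u) := by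
  rw [lg, dif_pos hu]; exact (exists_lg u hu).choose_spec.1

theorem lg_spec (u : LaurentSeries L) (hu : Ov 1 u) (N : ℕ) :
    Ov ((N : ℤ) + 1) (lg u + ∑ n ∈ range N, HahnSeries.C (((n + 1 : ℕ) : L)⁻¹) * u ^ (n + 1)) := by
  rw [lg, dif_pos hu]; exact (exists_lg u hu).choose_spec.2 N

end Pool.Agent.FCT
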