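import Pool.Agent.FCT.R2

/-! Row FCT-R3: the derivation `∂_c` of `L((x))`, `c = x^(-E)`: `∂_c x^m = -(m/E) x^(m+E)`. -/

set_option autoImplicit false

namespace Pool.Agent.FCT

open Polynomial Finset

variable {κ L : Type*} [Field κ] [Field L] [Algebra κ L]

theorem R3_mk {A : Type*} [CommRing A] [alg : Algebra ℤ A] (F : A →+ A) (hF : ∀ z w, F (z * w) = z * F w + w * F z)
    (mod : Module ℤ A) : ∃ d : @Derivation ℤ A A _ _ _ alg _ mod, ∀ z, d z = F z := by
  have h1 : alg = Ring.toIntAlgebra A := Subsingleton.elim _ _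
  have h2 : mod = AddCommGroup.toIntModule A := Subsingleton.elim _ _
  subst h1 h2
  exact ⟨Derivation.mk' F.toIntLinearMap hF, fun z => rfl⟩

/-- A family of additive maps `T n` with `T (i+j) (a b) = T i a b + a T j b` gives a derivation. -/
theorem R3_gen (T : ℤ → L →+ L) (hT : ∀ (i j : ℤ) (a b : L), T (i + j) (a * b) = T i a * b + a * T j b) :
    ∃ d : Derivation ℤ (LaurentSeries L) (LaurentSeries L), ∀ z n, (d z).coeff n = T n (z.coeff n) := by
  let f : LaurentSeries L → LaurentSeries L := fun z =>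
    ⟨fun n => T n (z.coeff n), z.isPWO_support.mono (fun n hn => by
      rw [Function.mem_support] at hn
      rw [HahnSeries.mem_support]
      intro h
      exact hn (by rw [h, map_zero]))⟩
  have hf : ∀ z n, (f z).coeff n = T n (z.coeff n) := fun z n => rfl
  have hs : ∀ z, (f z).support ⊆ z.support := by
    intro z n hn
    rw [HahnSeries.mem_support] at hn ⊢
    intro h
    exact hn (by rw [hf, h, map_zero])
  let F : LaurentSeries L →+ LaurentSeries L :=
    { toFun := f
      map_zero' := by
        ext n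
        rw [hf, HahnSeries.coeff_zero, map_zero]
      map_add' := fun z w => by
        ext n
        rw [HahnSeries.coeff_add, hf, hf, hf, HahnSeries.coeff_add, map_add] }
  have hF : ∀ z w, F (z * w) = z * F w + w * F z := by
    intro z w
    change f (z * w) = z * f w + w * f z
    ext n
    rw [HahnSeries.coeff_add, hf, mul_comm w (f z), HahnSeries.coeff_mul,
      HahnSeries.coeff_mul_right' w.isPWO_support (hs w), HahnSeries.coeff_mul_left' z.isPWO_support (hs z), map_sum,
      ← Finset.sum_add_distrib]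
    refine Finset.sum_congr rfl fun ij hij => ?_
    rw [Finset.mem_antidiagonal] at hij
    rw [← hij.2.2, hT, hf, hf, add_comm]
  obtain ⟨d, hd⟩ := R3_mk F hF (AddCommGroup.toIntModule _)
  refine ⟨d, fun z n => ?_⟩
  rw [hd]
  rfl

/-- Define the function by `HahnSeries.mk`/`HahnSeries.single (E) (-1/E) * (…)`; e.g. `z ↦ single E (-(1/E)) * θ z` with
`θ z` having the coefficients `n z_n` (an additive map; Leibniz by comparing coefficients, `HahnSeries.coeff_mul`). -/
theorem exists_dcE (L : Type*) [Field L] (E : ℕ) :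
    ∃ d : Derivation ℤ (LaurentSeries L) (LaurentSeries L), ∀ z n,
      (d z).coeff n = -(((n - E : ℤ) : L) * (E : L)⁻¹) * z.coeff (n - E) := by
  obtain ⟨θ, hθ⟩ := R3_gen (L := L) (fun n => AddMonoidHom.mulLeft (n : L)) (by
    intro i j a b
    simp only [AddMonoidHom.coe_mulLeft]
    push_cast
    ring)
  refine ⟨(HahnSeries.single (E : ℤ) (-(E : L)⁻¹) : LaurentSeries L) • θ, fun z n => ?_⟩
  rw [Derivation.smul_apply, smul_eq_mul, HahnSeries.coeff_single_mul, hθ, AddMonoidHom.coe_mulLeft]
  push_cast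
  ring

/-- `∂_c` -/
noncomputable def dcE (L : Type*) [Field L] (E : ℕ) : Derivation ℤ (LaurentSeries L) (LaurentSeries L) :=
  (exists_dcE L E).choose

theorem coeff_dcE (E : ℕ) (z : LaurentSeries L) (n : ℤ) :
    (dcE L E z).coeff n = -(((n - E : ℤ) : L) * (E : L)⁻¹) * z.coeff (n - E) :=
  (exists_dcE L E).choose_spec z n

theorem dcE_iE [CharZero L] (E : ℕ) (a : κ) : dcE L E (iE κ L a) = 0 := by
  ext n
  rw [coeff_dcE, iE, RingHom.comp_apply, HahnSeries.C_apply, HahnSeries.coeff_zero]
  by_cases h : n - (E : ℤ) = 0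
  · rw [h, Int.cast_zero, zero_mul, neg_zero, zero_mul]
  · rw [HahnSeries.coeff_single_of_ne h, mul_zero]

theorem dcE_cE [CharZero L] (E : ℕ) (hE : 1 ≤ E) : dcE L E (cE L E) = 1 := by
  have hE0 : (E : L) ≠ 0 := Nat.cast_ne_zero.2 (by omega)
  ext n
  rw [coeff_dcE, cE, HahnSeries.coeff_one]
  by_cases h : n = 0
  · subst h
    rw [if_pos rfl, zero_sub, HahnSeries.coeff_single_same, Int.cast_neg, Int.cast_natCast]
    field_simp
  · rw [if_neg h, HahnSeries.coeff_single_of_ne (by omega), mul_zero]

theorem dcE_evc [CharZero L] (E : ℕ) (hE : 1 ≤ E) (P : κ[X]) :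
    dcE L E (evc κ L E P) = evc κ L E (derivative P) := by
  induction P using Polynomial.induction_on' with
  | add p q hp hq => rw [map_add, map_add, hp, hq, derivative_add, map_add]
  | monomial n a =>
    have h1 : evc κ L E (monomial n a) = iE κ L a * cE L E ^ n := by
      rw [← C_mul_X_pow_eq_monomial, map_mul, map_pow, evc_C, evc_X]
    have h2 : evc κ L E (derivative (monomial n a)) = iE κ L a * ((n : LaurentSeries L) * cE L E ^ (n - 1)) := by
      rw [← C_mul_X_pow_eq_monomial, derivative_C_mul, derivative_X_pow, map_mul, map_mul, map_pow, evc_C, evc_C, evc_X,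
        map_natCast]
    rw [h1, h2, Derivation.leibniz, dcE_iE, smul_zero, add_zero, Derivation.leibniz_pow, dcE_cE E hE]
    simp only [smul_eq_mul, nsmul_eq_mul, mul_one]

theorem Ov_dcE (E : ℕ) {N : ℤ} {z : LaurentSeries L} (hz : Ov N z) : Ov (N + E) (dcE L E z) := by
  intro n hn
  rw [coeff_dcE, hz _ (by omega), mul_zero]

/-- the constants of `∂_c` are the elements of `L` -/
theorem const_of_dcE [CharZero L] (E : ℕ) (hE : 1 ≤ E) (z : LaurentSeries L) (hz : dcE L E z = 0) :
    z = HahnSeries.C (z.coeff 0) := by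
  have hE0 : (E : L) ≠ 0 := Nat.cast_ne_zero.2 (by omega)
  ext m
  rw [HahnSeries.C_apply]
  by_cases h : m = 0
  · subst h
    rw [HahnSeries.coeff_single_same]
  · rw [HahnSeries.coeff_single_of_ne h]
    have h1 := coeff_dcE E z (m + E)
    rw [hz, HahnSeries.coeff_zero, add_sub_cancel_right] at h1
    rcases mul_eq_zero.1 h1.symm with h2 | h2
    · rw [neg_eq_zero] at h2
      rcases mul_eq_zero.1 h2 with h3 | h3
      · exact absurd (Int.cast_eq_zero.1 h3) h
      · exact absurd h3 (inv_ne_zero hE0)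
    · exact h2

end Pool.Agent.FCT
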