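import Pool.Agent.FCT.Lg1
import Pool.Agent.FCT.R3

/-! Row FCT-Lg2: derivative and additivity of the logarithm. -/

set_option autoImplicit false

namespace Pool.Agent.FCT

open Polynomial Finset

variable {κ L : Type*} [Field κ] [Field L] [Algebra κ L]

theorem Lg2_cast_ne [CharZero L] (n : ℕ) : ((n + 1 : ℕ) : LaurentSeries L) ≠ 0 := by
  intro h
  have h1 : HahnSeries.C (((n + 1 : ℕ) : L)) = (0 : LaurentSeries L) := by
    rw [map_natCast]
    exact h
  have h2 : ((n + 1 : ℕ) : L) = 0 := by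
    apply HahnSeries.C_injective (Γ := ℤ)
    rw [h1, map_zero]
  exact (Nat.cast_ne_zero.2 (Nat.succ_ne_zero n)) h2

theorem Lg2_D_inv [CharZero L] (D : Derivation ℤ (LaurentSeries L) (LaurentSeries L)) (n : ℕ) :
    D (HahnSeries.C (((n + 1 : ℕ) : L)⁻¹)) = 0 := by
  have h1 : ((n + 1 : ℕ) : LaurentSeries L) * HahnSeries.C (((n + 1 : ℕ) : L)⁻¹) = 1 := by
    rw [← map_natCast (HahnSeries.C (Γ := ℤ) (R := L)), ← map_mul,
      mul_inv_cancel₀ (Nat.cast_ne_zero.2 (Nat.succ_ne_zero n)), map_one]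
  have h2 := congrArg D h1
  rw [Derivation.leibniz, Derivation.map_natCast, Derivation.map_one_eq_zero, smul_zero, add_zero, smul_eq_mul] at h2
  exact (mul_eq_zero.1 h2).resolve_left (Lg2_cast_ne n)

theorem Lg2_D_term [CharZero L] (D : Derivation ℤ (LaurentSeries L) (LaurentSeries L)) (u : LaurentSeries L) (n : ℕ) :
    D (HahnSeries.C (((n + 1 : ℕ) : L)⁻¹) * u ^ (n + 1)) = u ^ n * D u := by
  have h1 : ((n + 1 : ℕ) : LaurentSeries L) * HahnSeries.C (((n + 1 : ℕ) : L)⁻¹) = 1 := by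
    rw [← map_natCast (HahnSeries.C (Γ := ℤ) (R := L)), ← map_mul,
      mul_inv_cancel₀ (Nat.cast_ne_zero.2 (Nat.succ_ne_zero n)), map_one]
  rw [Derivation.leibniz, Lg2_D_inv, smul_zero, add_zero, Derivation.leibniz_pow, Nat.add_sub_cancel, smul_eq_mul,
    nsmul_eq_mul, smul_eq_mul]
  linear_combination (u ^ n * D u) * h1

theorem Lg2_logd (D : Derivation ℤ (LaurentSeries L) (LaurentSeries L)) {ι : Type*} (s : Finset ι) (m : ι → ℤ)
    (g : ι → LaurentSeries L) (hg : ∀ i, g i ≠ 0) :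
    D (∏ i ∈ s, g i ^ m i) = (∏ i ∈ s, g i ^ m i) * ∑ i ∈ s, (m i : LaurentSeries L) * (D (g i) / g i) := by
  classical
  induction s using Finset.induction_on with
  | empty => rw [Finset.prod_empty, Finset.sum_empty, mul_zero, Derivation.map_one_eq_zero]
  | insert a s ha ih =>
    rw [Finset.prod_insert ha, Finset.sum_insert ha, Derivation.leibniz, ih, Derivation.leibniz_zpow]
    simp only [smul_eq_mul, zsmul_eq_mul]
    rw [zpow_sub_one₀ (hg a)]
    field_simp
    ring

/-- Proof.  `S_N = ∑_{n<N} u^(n+1)/(n+1)`: `D S_N = ∑_{n<N} u^n D u` (a derivation kills rational constants), so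
`(1-u) D S_N = (1 - u^N) D u`.  Apply `D` to `lg_spec`: `D (lg u) + D S_N` has order `≥ N+1`; multiply by `1 - u` (order `≥ 0`); `u^N D u`
has order `≥ N+1`.  So `D (lg u) (1-u) + D u` has order `≥ N+1` for all `N`: it is `0` (`eq_zero_of_Ov`). -/
theorem lg_deriv [CharZero L] (D : Derivation ℤ (LaurentSeries L) (LaurentSeries L))
    (hD : ∀ (N : ℤ) (z : LaurentSeries L), Ov N z → Ov N (D z)) (u : LaurentSeries L) (hu : Ov 1 u) :
    D (lg u) * (1 - u) = - D u := by
  have h0 : D (lg u) * (1 - u) + D u = 0 := by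
    apply eq_zero_of_Ov
    intro N
    have h1 := hD _ _ (lg_spec u hu N)
    rw [map_add, map_sum] at h1
    have h2 : ∑ n ∈ range N, D (HahnSeries.C (((n + 1 : ℕ) : L)⁻¹) * u ^ (n + 1)) = (∑ n ∈ range N, u ^ n) * D u := by
      rw [Finset.sum_mul]
      exact Finset.sum_congr rfl fun n _ => Lg2_D_term D u n
    rw [h2] at h1
    have h3 : Ov 0 (1 - u) := Ov_sub Ov_one (Ov_mono (by norm_num) hu)
    have h4 := Ov_mul h1 h3
    have h5 := Ov_mul (Ov_pow hu N) (hD 1 u hu)
    have h6 := Ov_add (Ov_mono (N := (N : ℤ)) (by omega) h4) (Ov_mono (N := (N : ℤ)) (by omega) h5)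
    have h7 : (1 - u) * ∑ n ∈ range N, u ^ n = 1 - u ^ N := mul_neg_geom_sum u N
    have h8 : D (lg u) * (1 - u) + D u = (D (lg u) + (∑ n ∈ range N, u ^ n) * D u) * (1 - u) + u ^ N * D u := by
      linear_combination (- D u) * h7
    rw [h8]
    exact h6
  linear_combination h0

/-- Additivity.  Proof: `D = dcE L 1`: put `g i = 1 - u i` (nonzero: constant coefficient `1`).  `D (lg (u i)) = D (g i)/g i`, so
`D (∑ m_i lg (u i)) = ∑ m_i D(g i)/g i = D (∏ g_i^{m_i}) / ∏ g_i^{m_i} = 0` (logarithmic derivative of a product of integer powers).  So the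
sum is a constant (`const_of_dcE`) of order `≥ 1`, hence `0`. -/
theorem lg_add [CharZero L] {ι : Type*} [Fintype ι] (m : ι → ℤ) (u : ι → LaurentSeries L) (hu : ∀ i, Ov 1 (u i))
    (hprod : ∏ i, (1 - u i) ^ (m i) = 1) : ∑ i, (m i : LaurentSeries L) * lg (u i) = 0 := by
  obtain ⟨D, hD⟩ : ∃ D, D = dcE L 1 := ⟨_, rfl⟩
  have hDO : ∀ (N : ℤ) (z : LaurentSeries L), Ov N z → Ov N (D z) := by
    intro N z hz
    rw [hD]
    exact Ov_mono (by omega) (Ov_dcE 1 hz)
  have hne : ∀ i, 1 - u i ≠ 0 := by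
    intro i h
    have h1 : (1 - u i).coeff 0 = 1 := by
      rw [HahnSeries.coeff_sub, hu i 0 (by norm_num), HahnSeries.coeff_one, if_pos rfl, sub_zero]
    rw [h, HahnSeries.coeff_zero] at h1
    exact zero_ne_one h1
  have h1 : ∀ i, D (lg (u i)) = D (1 - u i) / (1 - u i) := by
    intro i
    rw [eq_div_iff (hne i), lg_deriv D hDO (u i) (hu i), map_sub, Derivation.map_one_eq_zero, zero_sub]
  have h2 := Lg2_logd D univ m (fun i => 1 - u i) hne
  rw [hprod, Derivation.map_one_eq_zero, one_mul] at h2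
  have h3 : D (∑ i, (m i : LaurentSeries L) * lg (u i)) = 0 := by
    rw [map_sum, h2]
    refine Finset.sum_congr rfl fun i _ => ?_
    rw [Derivation.leibniz, Derivation.map_intCast, smul_zero, add_zero, h1, smul_eq_mul]
  rw [hD] at h3
  have h4 := const_of_dcE 1 le_rfl _ h3
  have h5 : Ov 1 (∑ i, (m i : LaurentSeries L) * lg (u i)) := by
    apply Ov_sum
    intro i _
    have h6 : Ov (0 + 1) ((m i : LaurentSeries L) * lg (u i)) := by
      rw [← map_intCast (HahnSeries.C (Γ := ℤ) (R := L))]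
      exact Ov_mul (Ov_C _) (Ov_lg (u i) (hu i))
    rwa [zero_add] at h6
  rw [h4, h5 0 (by norm_num), map_zero]

end Pool.Agent.FCT
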