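import Pool.Agent.FCT.R5

/-! Row FCT-Lg3c: the inverse of c - F(Y) as a series in 1/c -/

set_option autoImplicit false

namespace Pool.Agent.FCT

open Polynomial Finset
variable {κ L : Type*} [Field κ] [Field L] [Algebra κ L]

/-- `c * toE b = toE (shift b) + b 0` -/
theorem Lg3c_shift (E : ℕ) (hE : 1 ≤ E) (b : ℕ → κ) :
    cE L E * toE L E b = toE L E (fun n => b (n + 1)) + iE κ L (b 0) := by
  have hcases : ∀ n : ℤ, (∃ ν : ℕ, n = ((E * (ν + 1) : ℕ) : ℤ)) ∨ ∀ ν : ℕ, n ≠ ((E * (ν + 1) : ℕ) : ℤ) := by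
    intro n
    by_cases h : ∃ ν : ℕ, n = ((E * (ν + 1) : ℕ) : ℤ)
    · exact Or.inl h
    · exact Or.inr (not_exists.1 h)
  ext n
  rw [cE, HahnSeries.coeff_single_mul, one_mul, HahnSeries.coeff_add, iE, RingHom.comp_apply, HahnSeries.C_apply]
  have e : n - -(E : ℤ) = n + E := by ring
  rw [e]
  by_cases h0 : n = 0
  · subst h0
    have e1 : (0 : ℤ) + E = ((E * (0 + 1) : ℕ) : ℤ) := by push_cast; ring
    rw [e1, coeff_toE E hE, HahnSeries.coeff_single_same, coeff_toE_of_not E _ 0 (fun ν h => ?_) hE, zero_add]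
    have h2 := Nat.mul_pos hE (Nat.succ_pos ν)
    have h3 : (0 : ℤ) < ((E * (ν + 1) : ℕ) : ℤ) := by exact_mod_cast h2
    omega
  · rw [HahnSeries.coeff_single_of_ne h0, add_zero]
    rcases hcases n with ⟨ν, rfl⟩ | h1
    · have e1 : ((E * (ν + 1) : ℕ) : ℤ) + E = ((E * (ν + 1 + 1) : ℕ) : ℤ) := by push_cast; ring
      rw [e1, coeff_toE E hE, coeff_toE E hE]
    · rw [coeff_toE_of_not E _ n h1 hE, coeff_toE_of_not E _ _ (fun ν h => ?_) hE]
      rcases Nat.eq_zero_or_pos ν with h2 | h2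
      · subst h2
        apply h0
        have e1 : ((E * (0 + 1) : ℕ) : ℤ) = E := by push_cast; ring
        rw [e1] at h
        omega
      · apply h1 (ν - 1)
        rw [Nat.sub_add_cancel h2]
        have e1 : ((E * (ν + 1) : ℕ) : ℤ) = ((E * ν : ℕ) : ℤ) + E := by push_cast; ring
        rw [e1] at h
        omega

/-- The same for `∑_ν (F^ν)_n c^(-ν-1)`: coefficient of `Y^n` of `(c - F(Y)) * ∑_n v_n Y^n`, `v_n = toE (ν ↦ (F^ν).coeff n)`: by `toE_act`
for `P = X` or directly `c * toE a = toE (shift a) + a_0`, and `(F^(ν+1)).coeff n = ∑_{j ≤ n} F_j (F^ν).coeff (n-j)`, so it is `δ_{n0}`. -/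
theorem v_inv (F : κ[X]) (hF : 1 ≤ F.natDegree) :
    ((C (cE L F.natDegree) - F.map (iE κ L) : (LaurentSeries L)[X]) : PowerSeries (LaurentSeries L)) *
      PowerSeries.mk (fun n => toE L F.natDegree (fun ν => (F ^ ν).coeff n)) = 1 := by
  ext1 n
  rw [Polynomial.coe_sub, Polynomial.coe_C, sub_mul, map_sub, PowerSeries.coeff_C_mul, PowerSeries.coeff_mk,
    Lg3c_shift _ hF, PowerSeries.coeff_mul, PowerSeries.coeff_one]
  have h1 : ∑ p ∈ antidiagonal n, PowerSeries.coeff p.1 ((F.map (iE κ L) : (LaurentSeries L)[X]) : PowerSeries (LaurentSeries L)) *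
      PowerSeries.coeff p.2 (PowerSeries.mk (fun n => toE L F.natDegree (fun ν => (F ^ ν).coeff n))) =
      toE L F.natDegree (fun ν => (F ^ (ν + 1)).coeff n) := by
    have h2 : (fun ν => (F ^ (ν + 1)).coeff n) = ∑ p ∈ antidiagonal n, fun ν => F.coeff p.1 * (F ^ ν).coeff p.2 := by
      funext ν
      rw [pow_succ', Polynomial.coeff_mul, Finset.sum_apply]
    rw [h2, toE_sum]
    refine Finset.sum_congr rfl fun p _ => ?_
    rw [toE_mul_left, PowerSeries.coeff_mk, Polynomial.coeff_coe, Polynomial.coeff_map]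
  rw [h1, add_sub_cancel_left, pow_zero, Polynomial.coeff_one]
  by_cases hn : n = 0
  · rw [if_pos hn, if_pos hn, map_one]
  · rw [if_neg hn, if_neg hn, map_zero]

end Pool.Agent.FCT
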