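import Pool.Agent.FCT.Lg3b
import Pool.Agent.FCT.Lg3c

/-! Row FCT-Lg3: coefficients of 1/(c - F(Y)) -/

set_option autoImplicit false

namespace Pool.Agent.FCT

open Polynomial Finset
variable {κ L : Type*} [Field κ] [Field L] [Algebra κ L]

/-- Combine: both are inverses of the same power series, so the coefficients agree; for `Y^k F^ν`: `(X^k F^ν).coeff n` is
`(F^ν).coeff (n-k)` for `n ≥ k` and `0` for `n < k`; for `n < k ≤ E-1` use `euler_zero`. (`y k ≠ 0` by `order_root`.) -/
theorem toE_coeff_pow (F : κ[X]) (hF : 1 ≤ F.natDegree) (y : Fin F.natDegree → LaurentSeries L)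
    (hy : Roots (iE κ L) (cE L F.natDegree) F y) (k : ℕ) (hk : k < F.natDegree) (n : ℕ) :
    toE L F.natDegree (fun ν => (X ^ k * F ^ ν).coeff n) =
      ∑ j, rho (iE κ L) F (y j) * y j ^ k * (y j)⁻¹ ^ (n + 1) := by
  have hroot : ∀ j, eval₂ (iE κ L) (y j) F = cE L F.natDegree := by
    intro j
    have h1 := congrArg (eval (y j)) hy.2
    rw [eval_sub, eval_C, eval_map, eval_mul, eval_prod, Finset.prod_eq_zero (Finset.mem_univ j), mul_zero, sub_eq_zero] at h1
    · exact h1
    · rw [eval_sub, eval_X, eval_C, sub_self]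
  have h0 : ∀ j, y j ≠ 0 := by
    intro j h
    have h1 := (order_root F hF (y j) (hroot j)).2
    rw [h] at h1
    exact h1 HahnSeries.coeff_zero
  have h1 := pf_inv (iE κ L) (cE L F.natDegree) F hF y hy h0
  have h2 := v_inv (L := L) F hF
  have h3 : (PowerSeries.mk (fun n => toE L F.natDegree (fun ν => (F ^ ν).coeff n)) : PowerSeries (LaurentSeries L)) =
      PowerSeries.mk (fun n => ∑ k, rho (iE κ L) F (y k) * (y k)⁻¹ ^ (n + 1)) := by
    exact left_inv_eq_right_inv ((mul_comm _ _).trans h2) h1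
  have h4 : ∀ n, toE L F.natDegree (fun ν => (F ^ ν).coeff n) = ∑ k, rho (iE κ L) F (y k) * (y k)⁻¹ ^ (n + 1) := by
    intro n
    have h5 := congrArg (PowerSeries.coeff n) h3
    rwa [PowerSeries.coeff_mk, PowerSeries.coeff_mk] at h5
  by_cases hn : k ≤ n
  · have h5 : (fun ν => (X ^ k * F ^ ν).coeff n) = fun ν => (F ^ ν).coeff (n - k) := by
      funext ν
      rw [coeff_X_pow_mul', if_pos hn]
    rw [h5, h4]
    refine Finset.sum_congr rfl fun j _ => ?_
    have h6 : y j ^ k * (y j)⁻¹ ^ (n + 1) = (y j)⁻¹ ^ (n - k + 1) := by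
      have h7 : n + 1 = k + (n - k + 1) := by omega
      rw [h7, pow_add, ← mul_assoc, ← mul_pow, mul_inv_cancel₀ (h0 j), one_pow, one_mul]
    rw [mul_assoc, h6]
  · have h5 : (fun ν => (X ^ k * F ^ ν).coeff n) = (0 : ℕ → κ) := by
      funext ν
      rw [coeff_X_pow_mul', if_neg hn]
      rfl
    rw [h5, toE_zero, ← euler_zero (iE κ L) (cE L F.natDegree) F hF y hy (k - n - 1) (by omega)]
    refine Finset.sum_congr rfl fun j _ => ?_
    have h6 : y j ^ k * (y j)⁻¹ ^ (n + 1) = y j ^ (k - n - 1) := by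
      have h7 : k = (k - n - 1) + (n + 1) := by omega
      conv_lhs => rw [h7]
      rw [pow_add, mul_assoc, ← mul_pow, mul_inv_cancel₀ (h0 j), one_pow, mul_one]
    rw [mul_assoc, h6]

end Pool.Agent.FCT
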