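import Pool.Agent.FCT.H2

/-! `ρ = 1/F'(y)` -/

set_option autoImplicit false

namespace Pool.Agent.FCT

open Polynomial Finset

/-- `ρ = 1/F'(y)` -/
noncomputable def rho {κ R : Type*} [Field κ] [Field R] (i : κ →+* R) (F : κ[X]) (y : R) : R := (eval₂ i y (derivative F))⁻¹

end Pool.Agent.FCT
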