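import Pool.Agent.FCT.H2
import Pool.Agent.FCT.RhoDef

/-! Row FCT-Lg3a: derivative at the roots, Euler's formula -/

set_option autoImplicit false

namespace Pool.Agent.FCT

open Polynomial Finset
variable {κ L : Type*} [Field κ] [Field L] [Algebra κ L]

/-- `F'(y_i) = lc ∏_{j ≠ i} (y_i - y_j) ≠ 0` -/
theorem deriv_root {R : Type*} [Field R] (i : κ →+* R) (c : R) (F : κ[X]) (y : Fin F.natDegree → R)
    (hy : Roots i c F y) (k : Fin F.natDegree) :
    eval₂ i (y k) (derivative F) = i F.leadingCoeff * ∏ j ∈ univ.erase k, (y k - y j) ∧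
      eval₂ i (y k) (derivative F) ≠ 0 := by
  obtain ⟨hinj, hprod⟩ := hy
  have h1 : derivative (F.map i) = C (i F.leadingCoeff) * derivative (Lagrange.nodal univ y) := by
    have h2 := congrArg derivative hprod
    rw [derivative_sub, derivative_C, sub_zero, derivative_C_mul] at h2
    rw [h2, Lagrange.nodal_eq]
  have h2 : eval₂ i (y k) (derivative F) = i F.leadingCoeff * ∏ j ∈ univ.erase k, (y k - y j) := by
    rw [eval₂_eq_eval_map, ← derivative_map, h1, eval_mul, eval_C,
      Lagrange.eval_nodal_derivative_eval_node_eq (Finset.mem_univ k), Lagrange.eval_nodal]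
  refine ⟨h2, ?_⟩
  rw [h2]
  refine mul_ne_zero ?_ (Finset.prod_ne_zero_iff.2 fun j hj => sub_ne_zero.2 fun h => ?_)
  · intro h3
    have h4 : F.leadingCoeff = 0 := (map_eq_zero i).1 h3
    have h5 : F = 0 := leadingCoeff_eq_zero.1 h4
    have h6 : 0 < F.natDegree := lt_of_le_of_lt (Nat.zero_le _) k.2
    have h7 : F.natDegree = 0 := by rw [h5, natDegree_zero]
    omega
  · exact (Finset.ne_of_mem_erase hj) (hinj h).symm

/-- Euler: `∑_i y_i^j / F'(y_i) = 0` for `j + 2 ≤ E`.  Proof: Lagrange interpolation of `Y^j` at the nodes `y_i`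
(`Lagrange.interpolate`, `Lagrange.eq_interpolate`), compare the coefficients of `Y^(E-1)`. -/
theorem euler_zero {R : Type*} [Field R] (i : κ →+* R) (c : R) (F : κ[X]) (hF : 1 ≤ F.natDegree)
    (y : Fin F.natDegree → R)
    (hy : Roots i c F y) (j : ℕ) (hj : j + 2 ≤ F.natDegree) :
    ∑ k, rho i F (y k) * y k ^ j = 0 := by
  have h1 : ((X : R[X]) ^ j).degree < ((univ : Finset (Fin F.natDegree)).card : ℕ) := by
    rw [degree_X_pow, Finset.card_fin]
    exact_mod_cast (by omega : j < F.natDegree)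
  have h2 := Lagrange.coeff_eq_sum (s := univ) (v := y) (hy.1.injOn) h1
  rw [Finset.card_fin, coeff_X_pow, if_neg (by omega)] at h2
  have h3 : ∑ k, rho i F (y k) * y k ^ j =
      (i F.leadingCoeff)⁻¹ * ∑ k, eval (y k) ((X : R[X]) ^ j) / ∏ l ∈ univ.erase k, (y k - y l) := by
    rw [Finset.mul_sum]
    refine Finset.sum_congr rfl fun k _ => ?_
    rw [rho, (deriv_root i c F y hy k).1, eval_pow, eval_X, mul_inv, div_eq_mul_inv]
    ring
  rw [h3, ← h2, mul_zero]

end Pool.Agent.FCT
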