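import Pool.Agent.FCT.Lg3a

/-! Row FCT-Lg3b: partial fractions -/

set_option autoImplicit false

namespace Pool.Agent.FCT

open Polynomial Finset
variable {κ L : Type*} [Field κ] [Field L] [Algebra κ L]

/-- Partial fractions: `∑_i ρ_i ∏_{j≠i} (Y - y_j) * lc = 1` (`Lagrange.sum_basis`), in the form: the power series
`∑_n (∑_i ρ_i y_i^(-n-1)) Y^n` is the inverse of `c - F(Y)` in `R⟦Y⟧`. -/
theorem pf_inv {R : Type*} [Field R] (i : κ →+* R) (c : R) (F : κ[X]) (hF : 1 ≤ F.natDegree)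
    (y : Fin F.natDegree → R) (hy : Roots i c F y) (h0 : ∀ k, y k ≠ 0) :
    ((C c - F.map i : R[X]) : PowerSeries R) *
      PowerSeries.mk (fun n => ∑ k, rho i F (y k) * (y k)⁻¹ ^ (n + 1)) = 1 := by
  classical
  have hgeo : ∀ k, (PowerSeries.C (y k) - PowerSeries.X) * PowerSeries.mk (fun n => (y k)⁻¹ ^ (n + 1)) = 1 := by
    intro k
    ext n
    rw [sub_mul, map_sub, PowerSeries.coeff_C_mul, PowerSeries.coeff_mk]
    cases n with
    | zero =>
      rw [PowerSeries.coeff_zero_X_mul, zero_add, pow_one, mul_inv_cancel₀ (h0 k), sub_zero]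
      simp
    | succ n =>
      rw [PowerSeries.coeff_succ_X_mul, PowerSeries.coeff_mk, PowerSeries.coeff_one, if_neg (Nat.succ_ne_zero n),
        pow_succ' _ (n + 1), ← mul_assoc, mul_inv_cancel₀ (h0 k), one_mul, sub_self]
  have hsum : PowerSeries.mk (fun n => ∑ k, rho i F (y k) * (y k)⁻¹ ^ (n + 1)) =
      ∑ k, PowerSeries.C (rho i F (y k)) * PowerSeries.mk (fun n => (y k)⁻¹ ^ (n + 1)) := by
    ext n
    rw [PowerSeries.coeff_mk, map_sum]
    refine Finset.sum_congr rfl fun k _ => ?_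
    rw [PowerSeries.coeff_C_mul, PowerSeries.coeff_mk]
  have hprod : (C c - F.map i : R[X]) = - (C (i F.leadingCoeff) * ∏ j, (X - C (y j))) := by
    rw [← hy.2]
    ring
  have hfac : ∀ k, ((C c - F.map i : R[X]) : PowerSeries R) * PowerSeries.mk (fun n => (y k)⁻¹ ^ (n + 1)) =
      ((C (i F.leadingCoeff) * ∏ j ∈ univ.erase k, (X - C (y j)) : R[X]) : PowerSeries R) := by
    intro k
    have h1 : (C c - F.map i : R[X]) = (C (i F.leadingCoeff) * ∏ j ∈ univ.erase k, (X - C (y j))) * (C (y k) - X) := by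
      rw [hprod, ← Finset.prod_erase_mul univ _ (Finset.mem_univ k)]
      ring
    rw [h1, Polynomial.coe_mul, Polynomial.coe_sub, Polynomial.coe_C, Polynomial.coe_X, mul_assoc, hgeo, mul_one]
  have hlag : ∑ k, C (rho i F (y k)) * (C (i F.leadingCoeff) * ∏ j ∈ univ.erase k, (X - C (y j))) = (1 : R[X]) := by
    have : Nonempty (Fin F.natDegree) := ⟨⟨0, hF⟩⟩
    rw [← Lagrange.sum_basis (s := (univ : Finset (Fin F.natDegree))) (v := y) (fun a _ b _ h => hy.1 h)
      Finset.univ_nonempty]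
    refine Finset.sum_congr rfl fun k _ => ?_
    obtain ⟨h1, h2⟩ := deriv_root i c F y hy k
    rw [h1] at h2
    have hlc := left_ne_zero_of_mul h2
    rw [Lagrange.basis, rho, h1]
    simp only [Lagrange.basisDivisor]
    rw [Finset.prod_mul_distrib, ← mul_assoc, ← C_mul, ← map_prod, Finset.prod_inv_distrib, mul_inv, mul_comm (i F.leadingCoeff)⁻¹,
      mul_assoc (∏ j ∈ univ.erase k, (y k - y j))⁻¹, inv_mul_cancel₀ hlc, mul_one]
  rw [hsum, Finset.mul_sum]
  have h3 : ∀ k, ((C c - F.map i : R[X]) : PowerSeries R) *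
      (PowerSeries.C (rho i F (y k)) * PowerSeries.mk (fun n => (y k)⁻¹ ^ (n + 1))) =
      ((C (rho i F (y k)) * (C (i F.leadingCoeff) * ∏ j ∈ univ.erase k, (X - C (y j))) : R[X]) : PowerSeries R) := by
    intro k
    rw [mul_left_comm, hfac, Polynomial.coe_mul (C (rho i F (y k))), Polynomial.coe_C]
  rw [Finset.sum_congr rfl (fun k _ => h3 k)]
  have h4 := congrArg (Polynomial.coeToPowerSeries.ringHom (R := R)) hlag
  rw [map_sum, map_one] at h4
  exact h4

end Pool.Agent.FCT
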