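import Pool.Agent.FCT.Lg2
import Pool.Agent.FCT.Lg3

/-! Row FCT-Lg4: `∫_0^s y^k dy/(c - F) = - ∑ ρ_i y_i^k log(1 - s/y_i)`. -/

set_option autoImplicit false

namespace Pool.Agent.FCT

open Polynomial Finset

variable {κ L : Type*} [Field κ] [Field L] [Algebra κ L]

theorem Lg4_root {R : Type*} [Field R] (i : κ →+* R) (c : R) (F : κ[X]) (y : Fin F.natDegree → R)
    (hy : Roots i c F y) (k : Fin F.natDegree) : eval₂ i (y k) F = c := by
  have h := congrArg (eval (y k)) hy.2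
  rw [eval_sub, eval_C, eval_mul, eval_prod, Finset.prod_eq_zero (Finset.mem_univ k) (by simp), mul_zero,
    eval_map] at h
  exact sub_eq_zero.1 h

theorem Lg4_s_div (F : κ[X]) (hF : 1 ≤ F.natDegree) (y : Fin F.natDegree → LaurentSeries L)
    (hy : Roots (iE κ L) (cE L F.natDegree) F y) (s : κ) (j : Fin F.natDegree) :
    Ov 1 (iE κ L s * (y j)⁻¹) := by
  obtain ⟨h1, h2⟩ := order_root F hF (y j) (Lg4_root _ _ _ _ hy j)
  have h3 := (Ov_inv h1 h2).1
  have h4 := Ov_mul (Ov_C (algebraMap κ L s)) h3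
  refine Ov_mono ?_ h4
  norm_num

theorem Lg4_ISk (s : κ) (G : κ[X]) {T : ℕ} (hT : G.natDegree < T) :
    ISk s G = ∑ n ∈ range T, (((n + 1 : ℕ) : κ)⁻¹ * s ^ (n + 1)) * G.coeff n := by
  unfold ISk
  rw [Polynomial.sum_over_range' _ (fun n => by rw [zero_mul]) _ hT]
  exact Finset.sum_congr rfl fun n _ => mul_comm _ _

theorem Lg4_trunc (F : κ[X]) (hF : 1 ≤ F.natDegree) (s : κ) (k M : ℕ) :
    Ov ((F.natDegree * (M + 1) : ℕ) : ℤ) (toE L F.natDegree (fun ν => ISk s (X ^ k * F ^ ν)) -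
      ∑ n ∈ range (k + F.natDegree * M + 1), iE κ L (((n + 1 : ℕ) : κ)⁻¹ * s ^ (n + 1)) *
        toE L F.natDegree (fun ν => (X ^ k * F ^ ν).coeff n)) := by
  have h1 : ∑ n ∈ range (k + F.natDegree * M + 1), iE κ L (((n + 1 : ℕ) : κ)⁻¹ * s ^ (n + 1)) *
        toE L F.natDegree (fun ν => (X ^ k * F ^ ν).coeff n) =
      toE L F.natDegree (∑ n ∈ range (k + F.natDegree * M + 1),
        fun ν => (((n + 1 : ℕ) : κ)⁻¹ * s ^ (n + 1)) * (X ^ k * F ^ ν).coeff n) := by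
    rw [toE_sum]
    exact Finset.sum_congr rfl fun n _ => (toE_mul_left F.natDegree _ _).symm
  rw [h1, ← toE_sub]
  refine Ov_toE F.natDegree hF _ M fun ν hν => ?_
  rw [Pi.sub_apply, Finset.sum_apply, sub_eq_zero]
  refine Lg4_ISk s _ ?_
  have h2 : (X ^ k * F ^ ν : κ[X]).natDegree ≤ k + ν * F.natDegree := by
    refine Polynomial.natDegree_mul_le.trans (add_le_add ?_ Polynomial.natDegree_pow_le)
    exact (Polynomial.natDegree_X_pow k).le
  have h3 : ν * F.natDegree ≤ F.natDegree * M := by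
    rw [mul_comm]
    exact Nat.mul_le_mul_left _ hν.le
  omega

theorem Lg4_sum [CharZero κ] [CharZero L] (F : κ[X]) (hF : 1 ≤ F.natDegree) (y : Fin F.natDegree → LaurentSeries L)
    (hy : Roots (iE κ L) (cE L F.natDegree) F y) (s : κ) (k : ℕ) (hk : k < F.natDegree) (T : ℕ) :
    ∑ n ∈ range T, iE κ L (((n + 1 : ℕ) : κ)⁻¹ * s ^ (n + 1)) *
        toE L F.natDegree (fun ν => (X ^ k * F ^ ν).coeff n) =
      ∑ j, rho (iE κ L) F (y j) * y j ^ k *
        ∑ n ∈ range T, HahnSeries.C (((n + 1 : ℕ) : L)⁻¹) * (iE κ L s * (y j)⁻¹) ^ (n + 1) := by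
  simp_rw [Finset.mul_sum]
  rw [Finset.sum_comm]
  refine Finset.sum_congr rfl fun n _ => ?_
  rw [toE_coeff_pow F hF y hy k hk n, Finset.mul_sum]
  refine Finset.sum_congr rfl fun j _ => ?_
  have h1 : iE κ L (((n + 1 : ℕ) : κ)⁻¹ * s ^ (n + 1)) =
      HahnSeries.C (((n + 1 : ℕ) : L)⁻¹) * iE κ L s ^ (n + 1) := by
    rw [map_mul, map_pow]
    congr 1
    show HahnSeries.C (algebraMap κ L (((n + 1 : ℕ) : κ)⁻¹)) = _
    rw [map_inv₀, map_natCast]
  rw [h1, mul_pow]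
  ring

/-- Proof.  Compare the coefficients of `x^N` (`N` arbitrary integer).
`ISk s (X^k F^ν) = ∑_n ((n+1)⁻¹ s^(n+1)) (X^k F^ν).coeff n`, so for the truncation at `n < T`:
`∑_{n<T} iE ((n+1)⁻¹ s^(n+1)) * toE (ν ↦ (X^k F^ν).coeff n)` agrees with the left side in all coefficients of `x^m`, `m ≤ N`, if `T` is large
(`m = E(ν+1)`, and `(X^k F^ν).coeff n = 0` for `n > k + ν E`).  By `toE_coeff_pow` it is
`∑_j ρ_j y_j^k ∑_{n<T} iE((n+1)⁻¹ s^(n+1)) (y_j)⁻¹^(n+1)`, and by `lg_spec` with `u = iE s * (y j)⁻¹` the inner sum is `- lg u` up to order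
`≥ T+1`; `ρ_j y_j^k` has order `≥ -k ≥ -E` (only some bound independent of `T` is needed: `exists_Ov`). -/
theorem toE_ISk [CharZero κ] [CharZero L] (F : κ[X]) (hF : 1 ≤ F.natDegree) (y : Fin F.natDegree → LaurentSeries L)
    (hy : Roots (iE κ L) (cE L F.natDegree) F y) (s : κ) (k : ℕ) (hk : k < F.natDegree) :
    toE L F.natDegree (fun ν => ISk s (X ^ k * F ^ ν)) =
      - ∑ j, rho (iE κ L) F (y j) * y j ^ k * lg (iE κ L s * (y j)⁻¹) := by
  have hB : ∀ j : Fin F.natDegree, ∃ B : ℕ, Ov (-(B : ℤ)) (rho (iE κ L) F (y j) * y j ^ k) := fun j => exists_Ov _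
  choose B hB using hB
  rw [← sub_eq_zero, sub_neg_eq_add]
  refine eq_zero_of_Ov fun N => ?_
  -- the truncation
  set M : ℕ := N + ∑ j, B j with hM
  have h1 := Lg4_trunc (L := L) F hF s k M
  have h2 := Lg4_sum F hF y hy s k hk (k + F.natDegree * M + 1)
  have hEM : M ≤ F.natDegree * M := Nat.le_mul_of_pos_left M hF
  have h3 : Ov (N : ℤ) (∑ n ∈ range (k + F.natDegree * M + 1), iE κ L (((n + 1 : ℕ) : κ)⁻¹ * s ^ (n + 1)) *
        toE L F.natDegree (fun ν => (X ^ k * F ^ ν).coeff n) +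
        ∑ j, rho (iE κ L) F (y j) * y j ^ k * lg (iE κ L s * (y j)⁻¹)) := by
    rw [h2, ← Finset.sum_add_distrib]
    refine Ov_sum _ _ fun j _ => ?_
    rw [← mul_add, add_comm (∑ n ∈ range (k + F.natDegree * M + 1), _)]
    have h4 := lg_spec (iE κ L s * (y j)⁻¹) (Lg4_s_div F hF y hy s j) (k + F.natDegree * M + 1)
    refine Ov_mono ?_ (Ov_mul (hB j) h4)
    have h5 : B j ≤ ∑ j, B j := Finset.single_le_sum (f := B) (fun _ _ => Nat.zero_le _) (Finset.mem_univ j)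
    have h6 : N + B j ≤ k + F.natDegree * M + 1 + 1 := by omega
    have h7 : ((N + B j : ℕ) : ℤ) ≤ ((k + F.natDegree * M + 1 + 1 : ℕ) : ℤ) := by exact_mod_cast h6
    push_cast at h7 ⊢
    linarith
  have h8 : Ov (N : ℤ) (toE L F.natDegree (fun ν => ISk s (X ^ k * F ^ ν)) -
      ∑ n ∈ range (k + F.natDegree * M + 1), iE κ L (((n + 1 : ℕ) : κ)⁻¹ * s ^ (n + 1)) *
        toE L F.natDegree (fun ν => (X ^ k * F ^ ν).coeff n)) := by
    refine Ov_mono ?_ h1
    have h9 : N ≤ F.natDegree * (M + 1) := by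
      have : F.natDegree * (M + 1) = F.natDegree * M + F.natDegree := by ring
      omega
    exact_mod_cast h9
  have h10 := Ov_add h8 h3
  rwa [← add_assoc, sub_add_cancel] at h10

/-- `u = s/y_j` has order `≥ 1` -/
theorem Ov_s_div (F : κ[X]) (hF : 1 ≤ F.natDegree) (y : Fin F.natDegree → LaurentSeries L)
    (hy : Roots (iE κ L) (cE L F.natDegree) F y) (s : κ) (j : Fin F.natDegree) :
    Ov 1 (iE κ L s * (y j)⁻¹) := Lg4_s_div F hF y hy s j

end Pool.Agent.FCT
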