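import Pool.Agent.FCT.R5
import Pool.Agent.FCT.M1

/-! Row FCT-Lg5: compatibility IS / ISk -/

set_option autoImplicit false

namespace Pool.Agent.FCT

open Polynomial Finset
variable {κ L : Type*} [Field κ] [Field L] [Algebra κ L]

/-- compatibility of `IS` over `K[s]` with `ISk` over `RatFunc K`, `s = X` -/
theorem ISk_ratFunc {K : Type*} [Field K] [CharZero K] (G : K[X][X]) :
    algebraMap K[X] (RatFunc K) (IS G) =
      ISk (RatFunc.X : RatFunc K) (G.map (algebraMap K[X] (RatFunc K))) := by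
  have hinj : Function.Injective (algebraMap K[X] (RatFunc K)) := RatFunc.algebraMap_injective K
  have h1 : ISk (RatFunc.X : RatFunc K) (G.map (algebraMap K[X] (RatFunc K))) =
      ∑ j ∈ range (G.natDegree + 1), (G.map (algebraMap K[X] (RatFunc K))).coeff j *
        ((((j + 1 : ℕ) : RatFunc K))⁻¹ * (RatFunc.X : RatFunc K) ^ (j + 1)) := by
    unfold ISk
    refine Polynomial.sum_over_range' _ (fun n => by rw [zero_mul]) _ ?_
    rw [Polynomial.natDegree_map_eq_of_injective hinj]
    exact Nat.lt_succ_self _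
  rw [h1, IS_eq_sum_range G (Nat.lt_succ_self _), map_sum]
  refine Finset.sum_congr rfl fun j _ => ?_
  have h2 : algebraMap K[X] (RatFunc K) (C ((j + 1 : K)⁻¹)) = (((j + 1 : ℕ) : RatFunc K))⁻¹ := by
    have h3 : algebraMap K[X] (RatFunc K) (C ((j + 1 : K)⁻¹)) =
        ((algebraMap K[X] (RatFunc K)).comp (C : K →+* K[X])) ((j + 1 : K)⁻¹) := rfl
    rw [h3, map_inv₀, map_add, map_natCast, map_one, Nat.cast_add, Nat.cast_one]
  rw [map_mul, map_mul, map_pow, RatFunc.algebraMap_X, Polynomial.coeff_map, h2]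

end Pool.Agent.FCT
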