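import Pool.Agent.FCT.A5
import Pool.Agent.FCT.A5b

/-! Row FCT-M2: the polynomial solution of `h' = h + p`. -/

set_option autoImplicit false

namespace Pool.Agent.FCT

open Polynomial Finset NumberField

section alg

variable {K : Type*} [Field K]

/-- `∑_{j<i} j! p_j` -/
noncomputable def M2_S (p : K[X]) (i : ℕ) : K := ∑ j ∈ range i, (j.factorial : K) * p.coeff j

theorem M2_S_succ (p : K[X]) (i : ℕ) : M2_S p (i + 1) = M2_S p i + (i.factorial : K) * p.coeff i := by
  unfold M2_S
  rw [Finset.sum_range_succ]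

theorem M2_S_big (p : K[X]) (hp : L1 p = 0) (i : ℕ) (hi : p.natDegree < i) : M2_S p i = 0 := by
  rw [← hp]
  unfold L1 M2_S
  rw [Polynomial.sum_over_range' p (f := fun j a => (j.factorial : K) * a) (fun n => by simp) i hi]

noncomputable def M2_h (p : K[X]) : K[X] :=
  ∑ i ∈ range (p.natDegree + 1), C (((i.factorial : K))⁻¹ * M2_S p i) * X ^ i

theorem M2_coeff (p : K[X]) (hp : L1 p = 0) (i : ℕ) :
    (M2_h p).coeff i = ((i.factorial : K))⁻¹ * M2_S p i := by
  unfold M2_h
  rw [finsetSum_coeff]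
  by_cases hi : i < p.natDegree + 1
  · rw [Finset.sum_eq_single i]
    · rw [coeff_C_mul, coeff_X_pow, if_pos rfl, mul_one]
    · intro b _ hb
      rw [coeff_C_mul, coeff_X_pow, if_neg (Ne.symm hb), mul_zero]
    · intro h; exact absurd (Finset.mem_range.2 hi) h
  · rw [M2_S_big p hp i (by omega), mul_zero]
    refine Finset.sum_eq_zero (fun b hb => ?_)
    rw [Finset.mem_range] at hb
    rw [coeff_C_mul, coeff_X_pow, if_neg (by omega), mul_zero]

theorem M2_deg (p : K[X]) : (M2_h p).natDegree < p.natDegree + 1 := by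
  refine Nat.lt_succ_of_le ?_
  refine natDegree_sum_le_of_forall_le _ _ (fun i hi => ?_)
  rw [Finset.mem_range] at hi
  exact (natDegree_C_mul_X_pow_le _ _).trans (by omega)

theorem M2_deriv [CharZero K] (p : K[X]) (hp : L1 p = 0) : derivative (M2_h p) = M2_h p + p := by
  ext i
  rw [coeff_derivative, coeff_add, M2_coeff p hp, M2_coeff p hp, M2_S_succ, Nat.factorial_succ]
  have h1 : (i.factorial : K) ≠ 0 := by exact_mod_cast i.factorial_ne_zero
  have h2 : ((i : K) + 1) ≠ 0 := by exact_mod_cast i.succ_ne_zero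
  push_cast
  field_simp

theorem M2_S_neg (p : K[X]) (hp : L1 p = 0) (i : ℕ) :
    M2_S p i = - ∑ j ∈ Ico i (max i (p.natDegree + 1)), (j.factorial : K) * p.coeff j := by
  have h1 : M2_S p (max i (p.natDegree + 1)) = 0 := M2_S_big p hp _ (by omega)
  have h2 : M2_S p i + ∑ j ∈ Ico i (max i (p.natDegree + 1)), (j.factorial : K) * p.coeff j =
      M2_S p (max i (p.natDegree + 1)) := by
    unfold M2_S
    exact Finset.sum_range_add_sum_Ico _ (le_max_left _ _)
  rw [h1] at h2
  exact eq_neg_of_add_eq_zero_left h2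

end alg

variable {K : Type*} [Field K] [NumberField K]

theorem M2_house (p : K[X]) (hp : L1 p = 0) (i : ℕ) : house ((M2_h p).coeff i) ≤ hs p := by
  have hf : (i.factorial : K) ≠ 0 := by exact_mod_cast i.factorial_ne_zero
  have hfr : (0 : ℝ) < (i.factorial : ℝ) := by exact_mod_cast i.factorial_pos
  have h1 : (i.factorial : K) * (M2_h p).coeff i = M2_S p i := by
    rw [M2_coeff p hp]
    field_simp
  have h2 : (i.factorial : ℝ) * house ((M2_h p).coeff i) = house (M2_S p i) := by
    rw [← house_nat_mul, h1]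
  have h3 : house (M2_S p i) ≤ (i.factorial : ℝ) * hs p := by
    unfold M2_S
    refine (house_sum_le_sum_house _ _).trans ?_
    have hle : i ≤ max i (p.natDegree + 1) := le_max_left _ _
    rw [hs_eq_sum_range p (N := max i (p.natDegree + 1)) (by omega), Finset.mul_sum]
    refine (Finset.sum_le_sum (g := fun j => (i.factorial : ℝ) * house (p.coeff j)) ?_).trans ?_
    · intro j hj
      rw [Finset.mem_range] at hj
      rw [house_nat_mul]
      refine mul_le_mul_of_nonneg_right ?_ (house_nonneg _)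
      exact_mod_cast Nat.factorial_le hj.le
    · refine Finset.sum_le_sum_of_subset_of_nonneg (Finset.range_mono hle) (fun j _ _ => ?_)
      exact mul_nonneg hfr.le (house_nonneg _)
  rw [← h2] at h3
  exact le_of_mul_le_mul_left h3 hfr

theorem M2_int (p : K[X]) (hp : L1 p = 0) (B : ℕ) (hB : IntP ((B : K[X]) * p)) :
    IntP ((B : K[X]) * M2_h p) := by
  intro i
  have e0 : ∀ (g : K[X]) (j : ℕ), ((B : K[X]) * g).coeff j = (B : K) * g.coeff j := by
    intro g j
    have : (B : K[X]) = C (B : K) := by simp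
    rw [this, coeff_C_mul]
  rw [e0, M2_coeff p hp, M2_S_neg p hp]
  have hf : (i.factorial : K) ≠ 0 := by exact_mod_cast i.factorial_ne_zero
  have e1 : (B : K) * ((i.factorial : K)⁻¹ *
      -∑ j ∈ Ico i (max i (p.natDegree + 1)), (j.factorial : K) * p.coeff j) =
      -∑ j ∈ Ico i (max i (p.natDegree + 1)), ((j.factorial / i.factorial : ℕ) : K) * ((B : K) * p.coeff j) := by
    rw [mul_neg, mul_neg, Finset.mul_sum, Finset.mul_sum]
    congr 1
    refine Finset.sum_congr rfl (fun j hj => ?_)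
    rw [Finset.mem_Ico] at hj
    rw [Nat.cast_div (Nat.factorial_dvd_factorial hj.1) hf]
    field_simp
  rw [e1]
  refine IsIntegral.neg (IsIntegral.sum _ (fun j _ => ?_))
  refine IsIntegral.mul ?_ ?_
  · have h5 : ((j.factorial / i.factorial : ℕ) : K) =
        algebraMap ℤ K ((j.factorial / i.factorial : ℕ) : ℤ) := by
      rw [eq_intCast, Int.cast_natCast]
    rw [h5]
    exact isIntegral_algebraMap
  · rw [← e0]
    exact hB j

/-- Proof.  `h := ∑_{i ≤ natDegree p} C ((i!)⁻¹ * ∑_{j<i} j! p_j) X^i`.  As `L1 p = 0` the inner sum vanishes for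
`i > natDegree p`, so the formula `i! h_i = ∑_{j<i} j! p_j` holds for all `i`; hence `(i+1) h_{i+1} = h_i + p_i`, i.e.
`h' = h + p`.  Norm: `i! house (h_i) = house (i! h_i) ≤ ∑_{j<i} j! house (p_j) ≤ i! ∑_j house (p_j)` (`house_nat_mul`), sum over
`i ≤ natDegree p`.  Integrality: also `h_i = - ∑_{j ≥ i} (j!/i!) p_j` with `i! ∣ j!`. -/
theorem exists_h (p : K[X]) (hp : L1 p = 0) :
    ∃ h : K[X], derivative h = h + p ∧ hs h ≤ (p.natDegree + 1 : ℕ) * hs p ∧
      ∀ B : ℕ, IntP ((B : K[X]) * p) → IntP ((B : K[X]) * h) := by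
  refine ⟨M2_h p, M2_deriv p hp, ?_, M2_int p hp⟩
  rw [hs_eq_sum_range _ (M2_deg p)]
  refine (Finset.sum_le_sum (fun i _ => M2_house p hp i)).trans ?_
  rw [Finset.sum_const, Finset.card_range, nsmul_eq_mul]

end Pool.Agent.FCT
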