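import Mathlib

/-! Row FCT-M3a: `lcm(1..n) ≤ C^n`. -/

set_option autoImplicit false

namespace Pool.Agent.FCT

open Finset

/-- Proof.  `L = lcm(1,…,n) = ∏_{p ≤ n} p^{⌊log_p n⌋}`; the primes `p > √n` occur with exponent `≤ 1` and contribute
`≤ primorial n ≤ 4^n` (`primorial_le_four_pow`), the primes `p ≤ √n` contribute `≤ n` each, so `≤ n^{√n} ≤ C^n`.
Any constant `C` is fine.  (Alternative: `L := (∏_{p ≤ √n} p^{log_p n}) * primorial n`, and check `j ∣ L` by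
`Nat.factorization_le_iff_dvd`; or use `(n choose …)`.)  Check first whether Mathlib has a Chebyshev bound
(`Chebyshev.psi`, Mathlib/NumberTheory/Chebyshev.lean). -/
theorem exists_lcm_bound : ∃ C : ℕ, 1 ≤ C ∧ ∀ n : ℕ, ∃ L : ℕ, 1 ≤ L ∧ L ≤ C ^ n ∧
    ∀ j, 1 ≤ j → j ≤ n → j ∣ L := by
  refine ⟨⌈Real.exp (Real.log 4 + 4)⌉₊ + 1, by omega, fun n => ?_⟩
  refine ⟨Nat.lcmUpto n, Nat.lcmUpto_pos n, ?_, ?_⟩
  · have h1 : Real.log (Nat.lcmUpto n) ≤ (Real.log 4 + 4) * n := by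
      rw [← Chebyshev.psi_eq_log_lcmUpto]
      exact Chebyshev.psi_le_const_mul_self (Nat.cast_nonneg n)
    have hpos : (0 : ℝ) < (Nat.lcmUpto n : ℝ) := by exact_mod_cast Nat.lcmUpto_pos n
    have h2 : (Nat.lcmUpto n : ℝ) ≤ Real.exp (Real.log 4 + 4) ^ n := by
      rw [← Real.exp_log hpos, ← Real.exp_nat_mul]
      refine Real.exp_le_exp.2 ?_
      rw [mul_comm]; exact h1
    have h3 : Real.exp (Real.log 4 + 4) ≤ ((⌈Real.exp (Real.log 4 + 4)⌉₊ + 1 : ℕ) : ℝ) := by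
      push_cast
      have := Nat.le_ceil (Real.exp (Real.log 4 + 4))
      linarith
    have h4 : (Nat.lcmUpto n : ℝ) ≤ (((⌈Real.exp (Real.log 4 + 4)⌉₊ + 1) ^ n : ℕ) : ℝ) := by
      refine h2.trans ?_
      rw [Nat.cast_pow]
      exact pow_le_pow_left₀ (Real.exp_pos _).le h3 n
    exact_mod_cast h4
  · intro j h1 h2
    exact Finset.dvd_lcm (f := id) (mem_Icc.2 ⟨h1, h2⟩)

end Pool.Agent.FCT
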