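import Pool.Agent.FCT.M1
import Pool.Agent.FCT.M2
import Pool.Agent.FCT.M3a

/-! Row FCT-M3: the moment sequences are of G-type. -/

set_option autoImplicit false

namespace Pool.Agent.FCT

open Polynomial Finset NumberField

variable {K : Type*} [Field K] [NumberField K]

/-- the real polynomial of the norms of the coefficients -/
noncomputable def M3_hat (G : K[X][X]) : ℝ[X] :=
  ∑ j ∈ range (G.natDegree + 1), Polynomial.monomial j (hs (G.coeff j))

theorem M3_hat_coeff (G : K[X][X]) (i : ℕ) : (M3_hat G).coeff i = hs (G.coeff i) := by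
  unfold M3_hat
  rw [Polynomial.finsetSum_coeff]
  simp only [Polynomial.coeff_monomial]
  rw [Finset.sum_ite_eq']
  split_ifs with h
  · rfl
  · rw [Finset.mem_range, not_lt] at h
    rw [Polynomial.coeff_eq_zero_of_natDegree_lt (by omega), hs_zero]

/-- sum of the norms of the coefficients -/
noncomputable def M3_hs2 (G : K[X][X]) : ℝ := (M3_hat G).eval 1

theorem M3_hat_natDegree (G : K[X][X]) : (M3_hat G).natDegree ≤ G.natDegree := by
  rw [Polynomial.natDegree_le_iff_coeff_eq_zero]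
  intro i hi
  rw [M3_hat_coeff, Polynomial.coeff_eq_zero_of_natDegree_lt hi, hs_zero]

theorem M3_hs2_eq (G : K[X][X]) {N : ℕ} (hN : G.natDegree < N) :
    M3_hs2 G = ∑ j ∈ range N, hs (G.coeff j) := by
  unfold M3_hs2
  rw [Polynomial.eval_eq_sum_range' (lt_of_le_of_lt (M3_hat_natDegree G) hN)]
  simp only [one_pow, mul_one, M3_hat_coeff]

theorem M3_hs2_nonneg (G : K[X][X]) : 0 ≤ M3_hs2 G := by
  rw [M3_hs2_eq G (Nat.lt_succ_self _)]
  exact Finset.sum_nonneg fun _ _ => hs_nonneg _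

theorem M3_hs2_mul_le (G H : K[X][X]) : M3_hs2 (G * H) ≤ M3_hs2 G * M3_hs2 H := by
  set N := G.natDegree + H.natDegree + 1 with hN
  have h1 : (G * H).natDegree < N := lt_of_le_of_lt Polynomial.natDegree_mul_le (by omega)
  rw [M3_hs2_eq (G * H) h1]
  unfold M3_hs2
  rw [← Polynomial.eval_mul]
  have h2 : (M3_hat G * M3_hat H).natDegree < N :=
    lt_of_le_of_lt Polynomial.natDegree_mul_le
      (by have := M3_hat_natDegree G; have := M3_hat_natDegree H; omega)
  rw [Polynomial.eval_eq_sum_range' h2]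
  refine Finset.sum_le_sum fun k _ => ?_
  rw [one_pow, mul_one, Polynomial.coeff_mul, Polynomial.coeff_mul]
  refine (hs_sum_le _ _).trans (Finset.sum_le_sum fun x _ => ?_)
  rw [M3_hat_coeff, M3_hat_coeff]
  exact hs_mul_le _ _

theorem M3_hs2_one : M3_hs2 (1 : K[X][X]) = 1 := by
  rw [M3_hs2_eq (N := 1) 1 (by rw [Polynomial.natDegree_one]; exact Nat.one_pos),
    Finset.sum_range_one, Polynomial.coeff_one_zero, hs_one]

theorem M3_hs2_pow_le (G : K[X][X]) (n : ℕ) : M3_hs2 (G ^ n) ≤ M3_hs2 G ^ n := by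
  induction n with
  | zero => rw [pow_zero, pow_zero, M3_hs2_one]
  | succ n ih =>
    rw [pow_succ, pow_succ]
    exact (M3_hs2_mul_le _ _).trans (mul_le_mul_of_nonneg_right ih (M3_hs2_nonneg _))

theorem M3_hs2_X_pow (k : ℕ) : M3_hs2 (X ^ k : K[X][X]) ≤ 1 := by
  rw [M3_hs2_eq (N := k + 1) _ (by rw [Polynomial.natDegree_X_pow]; exact Nat.lt_succ_self _)]
  rw [Finset.sum_eq_single k]
  · rw [Polynomial.coeff_X_pow_self, hs_one]
  · intro j _ hj
    rw [Polynomial.coeff_X_pow, if_neg hj, hs_zero]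
  · intro h
    exact absurd (Finset.self_mem_range_succ k) h

theorem M3_house_inv (j : ℕ) : house ((j + 1 : K)⁻¹) ≤ 1 := by
  have hne : ((j : K) + 1) ≠ 0 := by
    have : ((j + 1 : ℕ) : K) ≠ 0 := by exact_mod_cast Nat.succ_ne_zero j
    exact_mod_cast this
  have h1 : house (((j + 1 : ℕ) : K) * ((j + 1 : K)⁻¹)) = ((j + 1 : ℕ) : ℝ) * house ((j + 1 : K)⁻¹) :=
    house_nat_mul _ _
  have h2 : ((j + 1 : ℕ) : K) * ((j + 1 : K)⁻¹) = 1 := by
    push_cast
    exact mul_inv_cancel₀ hne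
  have h3 : house (1 : K) = 1 := by
    have := house_intCast (K := K) 1
    simpa using this
  rw [h2, h3] at h1
  have h4 := house_nonneg ((j + 1 : K)⁻¹)
  have h5 : (1 : ℝ) ≤ ((j + 1 : ℕ) : ℝ) := by exact_mod_cast Nat.succ_le_succ (Nat.zero_le j)
  nlinarith

theorem M3_hs_IS_le (G : K[X][X]) : hs (IS G) ≤ M3_hs2 G := by
  rw [IS_eq_sum_range G (Nat.lt_succ_self _), M3_hs2_eq G (Nat.lt_succ_self _)]
  refine (hs_sum_le _ _).trans (Finset.sum_le_sum fun j _ => ?_)
  refine (hs_mul_le _ _).trans ?_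
  have h1 : hs (C ((j + 1 : K)⁻¹) * X ^ (j + 1)) ≤ 1 := by
    refine (hs_mul_le _ _).trans ?_
    rw [hs_C, hs_X_pow, mul_one]
    exact M3_house_inv j
  calc hs (G.coeff j) * hs (C ((j + 1 : K)⁻¹) * X ^ (j + 1)) ≤ hs (G.coeff j) * 1 :=
        mul_le_mul_of_nonneg_left h1 (hs_nonneg _)
    _ = hs (G.coeff j) := mul_one _

theorem M3_coeff_mul {p q : K[X][X]} (hp : ∀ i, IntP (p.coeff i))
    (hq : ∀ i, IntP (q.coeff i)) (i : ℕ) : IntP ((p * q).coeff i) := by
  rw [Polynomial.coeff_mul]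
  exact IntP.sum _ _ fun x _ => (hp _).mul (hq _)

theorem M3_coeff_pow {q : K[X][X]} (hq : ∀ i, IntP (q.coeff i)) (n : ℕ) :
    ∀ i, IntP ((q ^ n).coeff i) := by
  induction n with
  | zero =>
    intro i
    rw [pow_zero, Polynomial.coeff_one]
    split_ifs
    · exact IntP.one
    · exact IntP.zero
  | succ n ih =>
    intro i
    rw [pow_succ]
    exact M3_coeff_mul ih hq i

theorem M3_coeff_X_pow (n i : ℕ) : IntP ((X ^ n : K[X][X]).coeff i) := by
  rw [Polynomial.coeff_X_pow]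
  split_ifs
  · exact IntP.one
  · exact IntP.zero

/-- Norm: put `hs2 G := ∑ j ∈ G.support, hs (G.coeff j)`; it is submultiplicative, `hs2 (X^k) = 1`, and
`hs (IS G) ≤ hs2 G` (`hs_mul_le`, `house ((j+1)⁻¹) ≤ 1`), so `hs (IS (X^k F^n)) ≤ (hs2 F)^n`.
Denominators: let `m ≥ 1` with all `m * F.coeff i` integral (`exists_int_mul`); then `m^n * (X^k F^n)` is integral and, with
`j ∣ L` for `1 ≤ j ≤ k + n natDegree F + 1` (`exists_lcm_bound`), `m^n L * IS (X^k F^n)` is integral.  So take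
`den n = m^n * L_{k + n E + 1}` (it works for all smaller indices, if `L_N` is replaced by... note `L_N` must be divisible by all
`j ≤ N`, and for `m' ≤ n` the polynomial `den n * IS (X^k F^{m'})` is integral as `m^{m'} ∣ m^n` and
`k + m' E + 1 ≤ k + n E + 1`). -/
theorem gtype_ee (F : K[X][X]) (k : ℕ) : GType (ee F k) := by
  obtain ⟨C0, hC0, hL⟩ := exists_lcm_bound
  choose L hL1 hLle hLdvd using hL
  obtain ⟨m, hm1, hm⟩ := exists_int_mul F
  set E := F.natDegree with hE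
  set C1 : ℕ := ⌈M3_hs2 F⌉₊ + 1 with hC1
  have hC1le : M3_hs2 F ≤ C1 := by
    rw [hC1]
    push_cast
    exact (Nat.le_ceil _).trans (by linarith)
  have hC1one : 1 ≤ C1 := by omega
  have hCpos : 1 ≤ C1 * m * C0 ^ (k + E + 1) :=
    Nat.succ_le_of_lt (Nat.mul_pos (Nat.mul_pos hC1one hm1) (Nat.pow_pos hC0))
  refine ⟨C1 * m * C0 ^ (k + E + 1), hCpos, ?_, fun n => m ^ n * L (k + n * E + 1), ?_, ?_⟩
  · intro n
    have h1 : hs (ee F k n) ≤ M3_hs2 F ^ n := by
      unfold ee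
      refine (M3_hs_IS_le _).trans ((M3_hs2_mul_le _ _).trans ?_)
      calc M3_hs2 (X ^ k : K[X][X]) * M3_hs2 (F ^ n) ≤ 1 * M3_hs2 F ^ n :=
            mul_le_mul (M3_hs2_X_pow k) (M3_hs2_pow_le F n) (M3_hs2_nonneg _) zero_le_one
        _ = _ := one_mul _
    have h2 : M3_hs2 F ^ n ≤ (C1 : ℝ) ^ n := pow_le_pow_left₀ (M3_hs2_nonneg _) hC1le _
    have h3 : (C1 : ℝ) ^ n ≤ (C1 : ℝ) ^ (n + 1) :=
      pow_le_pow_right₀ (by exact_mod_cast hC1one) (Nat.le_succ n)
    have h4 : (C1 : ℝ) ^ (n + 1) ≤ ((C1 * m * C0 ^ (k + E + 1) : ℕ) : ℝ) ^ (n + 1) := by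
      refine pow_le_pow_left₀ (Nat.cast_nonneg _) ?_ _
      have h5 : C1 ≤ C1 * m * C0 ^ (k + E + 1) := by
        rw [Nat.mul_assoc]
        exact Nat.le_mul_of_pos_right _ (Nat.mul_pos hm1 (Nat.pow_pos hC0))
      exact_mod_cast h5
    exact h1.trans (h2.trans (h3.trans h4))
  · intro n
    constructor
    · exact Nat.succ_le_of_lt (Nat.mul_pos (Nat.pow_pos hm1) (hL1 _))
    · have h1 : L (k + n * E + 1) ≤ C0 ^ (k + n * E + 1) := hLle _
      have h2 : C0 ^ (k + n * E + 1) ≤ (C0 ^ (k + E + 1)) ^ (n + 1) := by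
        rw [← pow_mul]
        refine Nat.pow_le_pow_right hC0 ?_
        nlinarith [Nat.zero_le (k * n), Nat.zero_le n, Nat.zero_le E]
      have h3 : m ^ n ≤ m ^ (n + 1) := Nat.pow_le_pow_right hm1 (Nat.le_succ n)
      have h4 : 1 ≤ C1 ^ (n + 1) := Nat.one_le_pow _ _ hC1one
      calc m ^ n * L (k + n * E + 1) ≤ m ^ (n + 1) * (C0 ^ (k + E + 1)) ^ (n + 1) :=
            Nat.mul_le_mul h3 (h1.trans h2)
        _ ≤ C1 ^ (n + 1) * (m ^ (n + 1) * (C0 ^ (k + E + 1)) ^ (n + 1)) :=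
            Nat.le_mul_of_pos_left _ h4
        _ = (C1 * m * C0 ^ (k + E + 1)) ^ (n + 1) := by
            rw [mul_pow, mul_pow, mul_assoc]
  · intro m' n hmn
    have hG : ∀ i, IntP ((C ((m : ℕ) : K[X]) * F : K[X][X]).coeff i) := by
      intro i
      rw [Polynomial.coeff_C_mul]
      exact hm i
    have hint : ∀ i, IntP (((m : ℕ) : K[X]) ^ m' * (X ^ k * F ^ m' : K[X][X]).coeff i) := by
      intro i
      have h1 := M3_coeff_mul (M3_coeff_X_pow (K := K) k) (M3_coeff_pow hG m') i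
      have h2 : (X ^ k * (C ((m : ℕ) : K[X]) * F) ^ m' : K[X][X]) =
          C (((m : ℕ) : K[X]) ^ m') * (X ^ k * F ^ m') := by
        rw [mul_pow, ← C_pow]
        ring
      rw [h2, Polynomial.coeff_C_mul] at h1
      exact h1
    have hdeg : (X ^ k * F ^ m' : K[X][X]).natDegree < k + m' * E + 1 := by
      have h1 : (X ^ k * F ^ m' : K[X][X]).natDegree ≤ k + m' * E :=
        Polynomial.natDegree_mul_le.trans (Nat.add_le_add (Polynomial.natDegree_X_pow_le _)
          Polynomial.natDegree_pow_le)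
      omega
    unfold ee
    rw [IS_eq_sum_range _ hdeg, Finset.mul_sum]
    refine IntP.sum _ _ fun j hj => ?_
    have hj1 : j + 1 ≤ k + n * E + 1 := by
      have h1 := Finset.mem_range.1 hj
      have h2 : m' * E ≤ n * E := Nat.mul_le_mul_right _ hmn
      omega
    obtain ⟨t, ht⟩ := hLdvd (k + n * E + 1) (j + 1) (by omega) hj1
    obtain ⟨s, hs'⟩ : ∃ s, n = m' + s := ⟨n - m', by omega⟩
    have hne : ((j : K) + 1) ≠ 0 := by
      have : ((j + 1 : ℕ) : K) ≠ 0 := by exact_mod_cast Nat.succ_ne_zero j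
      exact_mod_cast this
    have hLt : ((L (k + n * E + 1) : ℕ) : K[X]) * C ((j + 1 : K)⁻¹) = ((t : ℕ) : K[X]) := by
      rw [ht]
      have h1 : (((j + 1) * t : ℕ) : K[X]) = C ((j : K) + 1) * ((t : ℕ) : K[X]) := by
        push_cast
        simp
      rw [h1]
      calc C ((j : K) + 1) * ((t : ℕ) : K[X]) * C ((j + 1 : K)⁻¹)
          = ((t : ℕ) : K[X]) * (C ((j : K) + 1) * C ((j + 1 : K)⁻¹)) := by ring
        _ = ((t : ℕ) : K[X]) := by
            rw [← C_mul, mul_inv_cancel₀ hne, C_1, mul_one]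
    have hfin : ((m ^ n * L (k + n * E + 1) : ℕ) : K[X]) *
        ((X ^ k * F ^ m' : K[X][X]).coeff j * (C ((j + 1 : K)⁻¹) * X ^ (j + 1))) =
        (((m : ℕ) : K[X]) ^ m' * (X ^ k * F ^ m' : K[X][X]).coeff j) *
          (((m ^ s : ℕ) : K[X]) * ((t : ℕ) : K[X]) * X ^ (j + 1)) := by
      rw [← hLt, hs', pow_add]
      push_cast
      ring
    rw [hfin]
    exact (hint j).mul (((IntP.natCast _).mul (IntP.natCast _)).mul (IntP.X_pow _))

end Pool.Agent.FCT
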