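import Pool.Agent.FCT.Defs

/-! Row FCT-N1: reduction to a number field. -/

set_option autoImplicit false

namespace Pool.Agent.FCT

open Polynomial Finset

/-- the functional over a commutative ring -/
noncomputable def N1_L {R : Type*} [CommRing R] {σ : Type*} [Fintype σ] (f : MvPolynomial σ R) : R :=
  ∑ s ∈ f.support, MvPolynomial.coeff s f * ∏ i : σ, ((s i).factorial : R)

theorem N1_L_of_subset {R : Type*} [CommRing R] {σ : Type*} [Fintype σ] (f : MvPolynomial σ R) (T : Finset (σ →₀ ℕ))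
    (hT : f.support ⊆ T) : N1_L f = ∑ s ∈ T, MvPolynomial.coeff s f * ∏ i : σ, ((s i).factorial : R) := by
  unfold N1_L
  refine Finset.sum_subset hT fun s _ hs => ?_
  rw [MvPolynomial.notMem_support_iff.1 hs, zero_mul]

theorem N1_L_map {R S : Type*} [CommRing R] [CommRing S] {σ : Type*} [Fintype σ] (φ : R →+* S) (f : MvPolynomial σ R) :
    N1_L (MvPolynomial.map φ f) = φ (N1_L f) := by
  rw [N1_L_of_subset (MvPolynomial.map φ f) f.support (MvPolynomial.support_map_subset φ f), N1_L, map_sum]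
  refine Finset.sum_congr rfl fun s _ => ?_
  rw [MvPolynomial.coeff_map, map_mul, map_prod]
  simp only [map_natCast]

theorem N1_L_C_mul {R : Type*} [CommRing R] {σ : Type*} [Fintype σ] (a : R) (f : MvPolynomial σ R) :
    N1_L (MvPolynomial.C a * f) = a * N1_L f := by
  rw [N1_L_of_subset (MvPolynomial.C a * f) f.support, N1_L, Finset.mul_sum]
  · refine Finset.sum_congr rfl fun s _ => ?_
    rw [MvPolynomial.coeff_C_mul, mul_assoc]
  · intro s hs
    rw [MvPolynomial.mem_support_iff, MvPolynomial.coeff_C_mul] at hs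
    rw [MvPolynomial.mem_support_iff]
    exact right_ne_zero_of_mul hs

/-- `LL` commutes with ring homomorphisms (the support may shrink; sum over the larger support). -/
theorem LL_map {A B : Type*} [Field A] [Field B] {σ : Type*} [Fintype σ] (φ : A →+* B) (f : MvPolynomial σ A) :
    LL (MvPolynomial.map φ f) = φ (LL f) := N1_L_map φ f

theorem N1_main (f : MvPolynomial (Fin 2) ℂ) (α₀ : Fin 2 →₀ ℕ) (hf : MvPolynomial.coeff α₀ f = 1)
    (h : ∀ m, 1 ≤ m → N1_L (f ^ m) = 0) :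
    ∃ (K : Type) (_ : Field K) (_ : NumberField K) (g : MvPolynomial (Fin 2) K),
      g ≠ 0 ∧ ∀ m, 1 ≤ m → LL (g ^ m) = 0 := by
  classical
  have hα : α₀ ∈ f.support := by
    rw [MvPolynomial.mem_support_iff, hf]
    exact one_ne_zero
  let R : Type := MvPolynomial f.support ℚ
  let Φ : MvPolynomial (Fin 2) R := ∑ α : f.support, MvPolynomial.monomial α.1 (MvPolynomial.X α : R)
  have hΦ : ∀ β : f.support, MvPolynomial.coeff β.1 Φ = (MvPolynomial.X β : R) := by
    intro β
    rw [MvPolynomial.coeff_sum, Finset.sum_eq_single β]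
    · rw [MvPolynomial.coeff_monomial, if_pos rfl]
    · intro γ _ hγ
      rw [MvPolynomial.coeff_monomial, if_neg]
      exact fun h1 => hγ (Subtype.ext h1)
    · exact fun h1 => absurd (Finset.mem_univ _) h1
  let ev : R →+* ℂ := (MvPolynomial.aeval (fun α : f.support => MvPolynomial.coeff α.1 f) : MvPolynomial f.support ℚ →ₐ[ℚ] ℂ).toRingHom
  have hev : ∀ α : f.support, ev (MvPolynomial.X α) = MvPolynomial.coeff α.1 f := by
    intro α
    exact MvPolynomial.aeval_X _ _
  have hmap : MvPolynomial.map ev Φ = f := by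
    rw [map_sum]
    simp only [MvPolynomial.map_monomial, hev]
    conv_rhs => rw [MvPolynomial.as_sum f]
    exact Finset.sum_coe_sort f.support (fun v => MvPolynomial.monomial v (MvPolynomial.coeff v f))
  let I : Ideal R := Ideal.span (insert ((MvPolynomial.X ⟨α₀, hα⟩ : R) - 1) (Set.range fun m : ℕ => N1_L (Φ ^ (m + 1))))
  have hIk : I ≤ RingHom.ker ev := by
    rw [Ideal.span_le]
    intro x hx
    rcases hx with hx | ⟨m, hx⟩
    · rw [hx, SetLike.mem_coe, RingHom.mem_ker, map_sub, map_one, hev, hf, sub_self]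
    · rw [← hx, SetLike.mem_coe, RingHom.mem_ker, ← N1_L_map, map_pow, hmap]
      exact h (m + 1) (Nat.le_add_left 1 m)
  have hI : I ≠ ⊤ := by
    intro h1
    rw [h1, top_le_iff] at hIk
    exact RingHom.ker_ne_top ev hIk
  obtain ⟨𝔪, h𝔪, hle⟩ := Ideal.exists_le_maximal I hI
  let _ : Field (R ⧸ 𝔪) := Ideal.Quotient.field 𝔪
  have hft : Algebra.FiniteType ℚ (R ⧸ 𝔪) := Algebra.FiniteType.of_surjective (Ideal.Quotient.mkₐ ℚ 𝔪) (Ideal.Quotient.mkₐ_surjective ℚ 𝔪)
  have hfin : Module.Finite ℚ (R ⧸ 𝔪) := finite_of_finite_type_of_isJacobsonRing ℚ (R ⧸ 𝔪)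
  have hch : CharZero (R ⧸ 𝔪) := algebraRat.charZero (R ⧸ 𝔪)
  have hnf : NumberField (R ⧸ 𝔪) := by
    refine { to_charZero := hch, to_finiteDimensional := ?_ }
    convert hfin
    exact (subsingleton_rat_module _).elim _ _
  refine ⟨R ⧸ 𝔪, inferInstance, hnf, MvPolynomial.map (Ideal.Quotient.mk 𝔪) Φ, ?_, ?_⟩
  · intro h1
    have h2 := congrArg (MvPolynomial.coeff α₀) h1
    rw [MvPolynomial.coeff_map, MvPolynomial.coeff_zero, hΦ ⟨α₀, hα⟩] at h2
    have h3 : Ideal.Quotient.mk 𝔪 ((MvPolynomial.X ⟨α₀, hα⟩ : R) - 1) = 0 :=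
      Ideal.Quotient.eq_zero_iff_mem.2 (hle (Ideal.subset_span (Set.mem_insert _ _)))
    rw [map_sub, map_one, h2, zero_sub, neg_eq_zero] at h3
    exact one_ne_zero h3
  · intro m hm
    have h2 : LL (MvPolynomial.map (Ideal.Quotient.mk 𝔪) Φ ^ m) = Ideal.Quotient.mk 𝔪 (N1_L (Φ ^ m)) := by
      rw [← map_pow]
      exact N1_L_map (Ideal.Quotient.mk 𝔪) (Φ ^ m)
    rw [h2, Ideal.Quotient.eq_zero_iff_mem]
    refine hle (Ideal.subset_span (Set.mem_insert_of_mem _ ⟨m - 1, ?_⟩))
    simp only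
    rw [Nat.sub_add_cancel hm]

/-- Proof.  `S = f.support`, `α₀ ∈ S`; dividing `f` by its coefficient at `α₀` we may assume it is `1`
(`LL` is linear: `LL ((C a * f)^m) = a^m LL (f^m)`).  `R = MvPolynomial S ℚ` (coefficient variables),
`Φ = ∑_{α ∈ S} X_α x^α ∈ R[x,y]`, `I ⊂ R` the ideal generated by `X_{α₀} - 1` and by the elements `LLR (Φ^m)`, `m ≥ 1`, where
`LLR` is the same sum `∑ coeff * ∏ factorial` over the commutative ring `R`.  The homomorphism `R → ℂ`, `X_α ↦ coeff f α`, kills `I`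
(naturality as in `LL_map`), so `I ≠ ⊤`; take a maximal ideal `m ⊇ I`, `K = R/m`: a field of characteristic 0, finitely generated as a
`ℚ`-algebra, hence finite over `ℚ` (Zariski's lemma: `finite_of_finite_type_of_isJacobsonRing`), so a number field.
`g` = image of `Φ`: its coefficient at `α₀` is `1`, and `LL (g^m)` = image of `LLR (Φ^m)` `= 0`. -/
theorem exists_numberField (f : MvPolynomial (Fin 2) ℂ) (hf : f ≠ 0) (h : ∀ m, 1 ≤ m → LL (f ^ m) = 0) :
    ∃ (K : Type) (_ : Field K) (_ : NumberField K) (g : MvPolynomial (Fin 2) K),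
      g ≠ 0 ∧ ∀ m, 1 ≤ m → LL (g ^ m) = 0 := by
  obtain ⟨α₀, hα⟩ := MvPolynomial.ne_zero_iff.1 hf
  refine N1_main (MvPolynomial.C (MvPolynomial.coeff α₀ f)⁻¹ * f) α₀ ?_ fun m hm => ?_
  · rw [MvPolynomial.coeff_C_mul, inv_mul_cancel₀ hα]
  · rw [mul_pow, ← map_pow, N1_L_C_mul]
    have h1 : N1_L (f ^ m) = 0 := h m hm
    rw [h1, mul_zero]

end Pool.Agent.FCT
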