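import Pool.Agent.FCT.A1
import Pool.Agent.FCT.M1

/-! Row FCT-N2: base change. -/

set_option autoImplicit false

namespace Pool.Agent.FCT

open Polynomial Finset

variable {K K' : Type*} [Field K] [Field K'] (φ : K →+* K')

/-- the induced map `K[s][y] → K'[s][y]` -/
noncomputable def mm : K[X][X] →+* K'[X][X] := Polynomial.mapRingHom (Polynomial.mapRingHom φ)

theorem N2_coeff (G : K[X][X]) (j : ℕ) : (mm φ G).coeff j = (G.coeff j).map φ := by
  simp only [mm, coe_mapRingHom, coeff_map]

theorem natDegree_mm (F : K[X][X]) : (mm φ F).natDegree = F.natDegree := by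
  simp only [mm, coe_mapRingHom]
  exact natDegree_map_eq_of_injective (Polynomial.map_injective φ φ.injective) F

theorem IS_mm (G : K[X][X]) : IS (mm φ G) = (IS G).map φ := by
  rw [IS_eq_sum_range (mm φ G) (N := G.natDegree + 1) (by rw [natDegree_mm]; omega),
    IS_eq_sum_range G (N := G.natDegree + 1) (by omega), Polynomial.map_sum]
  refine Finset.sum_congr rfl fun j _ => ?_
  have h : φ ((j + 1 : K)⁻¹) = (j + 1 : K')⁻¹ := by rw [map_inv₀, map_add, map_natCast, map_one]
  rw [N2_coeff, Polynomial.map_mul, Polynomial.map_mul, Polynomial.map_pow, Polynomial.map_X, Polynomial.map_C, h]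

theorem ee_mm (F : K[X][X]) (k n : ℕ) : ee (mm φ F) k n = (ee F k n).map φ := by
  have h : (X ^ k * mm φ F ^ n : K'[X][X]) = mm φ (X ^ k * F ^ n) := by
    rw [map_mul, map_pow, map_pow]
    congr 2
    simp only [mm, coe_mapRingHom, Polynomial.map_X]
  simp only [ee]
  rw [h, IS_mm]

theorem psi_mm (F : K[X][X]) (n : ℕ) : psi (mm φ F) n = (psi F n).map φ := by
  simp only [psi]
  split_ifs with h
  · rw [Polynomial.map_zero]
  · rw [← map_pow, IS_mm]

/-- If `act P h = ∑ act (Q l) (ee F l)` over `K` then the same over `K'` (`act_map` with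
`Polynomial.mapRingHom φ`). -/
theorem rel_mm (F : K[X][X]) (h : ℕ → K[X]) (hh : dd h = h + psi F) (P : K[X][X])
    (Q : ℕ → K[X][X]) (E : ℕ) (hrel : act P h = ∑ l ∈ range E, act (Q l) (ee F l)) :
    dd (fun n => (h n).map φ) = (fun n => (h n).map φ) + psi (mm φ F) ∧
      act (mm φ P) (fun n => (h n).map φ) = ∑ l ∈ range E, act (mm φ (Q l)) (ee (mm φ F) l) := by
  constructor
  · funext n
    have h1 := congrFun hh n
    simp only [dd, Pi.add_apply] at h1 ⊢
    rw [derivative_map, h1, Polynomial.map_add, psi_mm]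
  · funext n
    have h1 := congrFun hrel n
    have h2 := congrArg (Polynomial.mapRingHom φ) h1
    rw [act_map] at h2
    simp only [coe_mapRingHom] at h2
    have h3 : act (mm φ P) (fun n => (h n).map φ) n = act (P.map (mapRingHom φ)) (fun m => (h m).map φ) n := rfl
    rw [h3, h2, Finset.sum_apply, Finset.sum_apply, Polynomial.map_sum]
    refine Finset.sum_congr rfl fun l _ => ?_
    have h4 := act_map (Polynomial.mapRingHom φ) (Q l) (ee F l) n
    simp only [coe_mapRingHom] at h4
    rw [h4]
    have h5 : ee (mm φ F) l = fun m => (ee F l m).map φ := by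
      funext m
      exact ee_mm φ F l m
    rw [h5]
    rfl

/-- `Fs` commutes with base change. -/
theorem Fs_map (f : MvPolynomial (Fin 2) K) : Fs (MvPolynomial.map φ f) = mm φ (Fs f) := by
  have h : ((MvPolynomial.aeval (fun i : Fin 2 => if i = 0 then (C X - X : K'[X][X]) else X) :
      MvPolynomial (Fin 2) K' →ₐ[K'] K'[X][X]).toRingHom.comp (MvPolynomial.map φ)) =
      (mm φ).comp (MvPolynomial.aeval (fun i : Fin 2 => if i = 0 then (C X - X : K[X][X]) else X) :
        MvPolynomial (Fin 2) K →ₐ[K] K[X][X]).toRingHom := by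
    apply MvPolynomial.ringHom_ext
    · intro a
      simp [mm, Polynomial.algebraMap_apply]
    · intro i
      fin_cases i
      · simp [mm]
      · simp [mm]
  exact congrArg (fun g => g f) h

/-- `Fs` is injective: `(x, y) ↦ (s - y, y)` is an automorphism (inverse `s ↦ x + y`, `y ↦ y`). -/
theorem Fs_ne_zero (f : MvPolynomial (Fin 2) K) (hf : f ≠ 0) : Fs f ≠ 0 := by
  have h : (Polynomial.eval₂RingHom (Polynomial.aeval (MvPolynomial.X 0 + MvPolynomial.X 1 : MvPolynomial (Fin 2) K)).toRingHom
      (MvPolynomial.X 1 : MvPolynomial (Fin 2) K)).comp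
      (MvPolynomial.aeval (fun i : Fin 2 => if i = 0 then (C X - X : K[X][X]) else X) :
        MvPolynomial (Fin 2) K →ₐ[K] K[X][X]).toRingHom = RingHom.id _ := by
    apply MvPolynomial.ringHom_ext
    · intro a
      simp [Polynomial.algebraMap_apply]
    · intro i
      fin_cases i
      · simp
      · simp
  intro h0
  apply hf
  have h1 := congrArg (fun g => g f) h
  have h2 : (Polynomial.eval₂RingHom (Polynomial.aeval (MvPolynomial.X 0 + MvPolynomial.X 1 : MvPolynomial (Fin 2) K)).toRingHom
      (MvPolynomial.X 1 : MvPolynomial (Fin 2) K)) (Fs f) = f := h1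
  rw [h0, map_zero] at h2
  exact h2.symm

theorem Fs_pow (f : MvPolynomial (Fin 2) K) (m : ℕ) : Fs (f ^ m) = Fs f ^ m := by
  simp only [Fs]
  rw [map_pow]

end Pool.Agent.FCT
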