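import Pool.Agent.FCT.ODefs

/-! Row FCT-O1: derivations extend to the fraction field. -/

set_option autoImplicit false

namespace Pool.Agent.FCT

open Polynomial Finset

theorem O1_mk {S R M : Type*} [CommRing S] [CommRing R] [Algebra S R] [AddCommGroup M] [Module S M] [Module R M]
    (A : R →+ M) (hs : ∀ (n : S) x, A (n • x) = n • A x) (h : ∀ a b, A (a * b) = a • A b + b • A a) :
    ∃ D : Derivation S R M, ∀ z, D z = A z :=
  ⟨Derivation.mk' { toFun := A
                    map_add' := A.map_add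
                    map_smul' := hs } h, fun _ => rfl⟩

/-- the ring homomorphism `p ↦ (p, d p)` -/
noncomputable def O1_g {κ : Type*} [Field κ] (d : Derivation ℤ κ[X] κ[X]) :
    κ[X] →+* TrivSqZeroExt (RatFunc κ) (RatFunc κ) where
  toFun p := TrivSqZeroExt.inl (algebraMap κ[X] (RatFunc κ) p) + TrivSqZeroExt.inr (algebraMap κ[X] (RatFunc κ) (d p))
  map_one' := by
    ext
    · simp
    · simp
  map_mul' p q := by
    ext
    · simp
    · simp only [TrivSqZeroExt.snd_add, TrivSqZeroExt.snd_inl, TrivSqZeroExt.snd_inr, TrivSqZeroExt.snd_mul,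
        TrivSqZeroExt.fst_add, TrivSqZeroExt.fst_inl, TrivSqZeroExt.fst_inr, Derivation.leibniz, map_add, smul_eq_mul,
        map_mul, MulOpposite.smul_eq_mul_unop, MulOpposite.unop_op]
      ring
  map_zero' := by
    ext
    · simp
    · simp
  map_add' p q := by
    ext
    · simp
    · simp only [TrivSqZeroExt.snd_add, TrivSqZeroExt.snd_inl, TrivSqZeroExt.snd_inr, map_add]
      ring

/-- Proof.  Direct: `D (p/q) = (d p q - p d q)/q^2`.  Slick way: the ring homomorphism `κ[X] → TrivSqZeroExt R R` (`R = RatFunc κ`),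
`p ↦ (p, d p)`, sends nonzero `p` to units (first component nonzero, `TrivSqZeroExt.isUnit_iff_isUnit_fst`), so it extends to
`RatFunc κ` (`IsLocalization.lift`), and the second component of the extension is the derivation. -/
theorem exists_der_ratFunc {κ : Type*} [Field κ] (d : Derivation ℤ κ[X] κ[X]) :
    ∃ D : Derivation ℤ (RatFunc κ) (RatFunc κ), ∀ p : κ[X],
      D (algebraMap κ[X] (RatFunc κ) p) = algebraMap κ[X] (RatFunc κ) (d p) := by
  have hg : ∀ y : nonZeroDivisors κ[X], IsUnit (O1_g d y) := by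
    intro y
    rw [TrivSqZeroExt.isUnit_iff_isUnit_fst]
    have h1 : (O1_g d y).fst = algebraMap κ[X] (RatFunc κ) y := by
      simp [O1_g]
    rw [h1, isUnit_iff_ne_zero, Ne, map_eq_zero_iff _ (IsFractionRing.injective κ[X] (RatFunc κ))]
    exact nonZeroDivisors.ne_zero y.2
  let Lf : RatFunc κ →+* TrivSqZeroExt (RatFunc κ) (RatFunc κ) := IsLocalization.lift hg
  have hL : ∀ p : κ[X], Lf (algebraMap κ[X] (RatFunc κ) p) = O1_g d p := fun p => IsLocalization.lift_eq hg p
  have hf : ∀ z : RatFunc κ, (Lf z).fst = z := by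
    intro z
    have h2 : ((TrivSqZeroExt.fstHom (RatFunc κ) (RatFunc κ) (RatFunc κ) : TrivSqZeroExt (RatFunc κ) (RatFunc κ) →+* RatFunc κ).comp Lf)
        = RingHom.id _ := by
      apply IsLocalization.ringHom_ext (nonZeroDivisors κ[X])
      ext p
      · simp only [RingHom.comp_apply, hL]
        simp [O1_g]
      · simp only [RingHom.comp_apply, hL]
        simp [O1_g]
    exact congrArg (fun f : RatFunc κ →+* RatFunc κ => f z) h2
  let A : RatFunc κ →+ RatFunc κ := 
    { toFun := fun z => (Lf z).snd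
      map_zero' := by rw [map_zero]; rfl
      map_add' := fun x y => by rw [map_add, TrivSqZeroExt.snd_add] }
  obtain ⟨D, hD⟩ := O1_mk (S := ℤ) (R := RatFunc κ) (M := RatFunc κ) A (fun n x => by
    have h := map_zsmul A n x
    rw [zsmul_eq_mul] at h
    rw [Algebra.smul_def, eq_intCast]
    exact h) (fun a b => by
    change (Lf (a * b)).snd = a • (Lf b).snd + b • (Lf a).snd
    rw [map_mul, TrivSqZeroExt.snd_mul, hf, hf, MulOpposite.smul_eq_mul_unop, MulOpposite.unop_op]
    simp only [smul_eq_mul]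
    rw [mul_comm (Lf a).snd])
  refine ⟨D, fun p => ?_⟩
  rw [hD]
  change (Lf (algebraMap κ[X] (RatFunc κ) p)).snd = _
  rw [hL]
  change (TrivSqZeroExt.inl (algebraMap κ[X] (RatFunc κ) p) + TrivSqZeroExt.inr (algebraMap κ[X] (RatFunc κ) (d p)) :
    TrivSqZeroExt (RatFunc κ) (RatFunc κ)).snd = _
  rw [TrivSqZeroExt.snd_add, TrivSqZeroExt.snd_inl, TrivSqZeroExt.snd_inr, zero_add]

end Pool.Agent.FCT
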