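import Pool.Agent.FCT.O1

/-! Row FCT-O2: the derivations `∂_c` and `D` of `Ω`. -/

set_option autoImplicit false

namespace Pool.Agent.FCT

open Polynomial Finset

variable {κ : Type*} [Field κ] [CharZero κ]

theorem O2_ev (F : κ[X]) (p : κ[X]) :
    evO F p = algebraMap (RatFunc κ) (Om F) (algebraMap κ[X] (RatFunc κ) p) := by
  have h : evO F = (algebraMap (RatFunc κ) (Om F)).comp (algebraMap κ[X] (RatFunc κ)) := by
    apply Polynomial.ringHom_ext
    · intro a
      simp only [evO, coe_eval₂RingHom, eval₂_C, RingHom.comp_apply, iO]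
      rw [RatFunc.algebraMap_C]
      rfl
    · simp only [evO, coe_eval₂RingHom, eval₂_X, RingHom.comp_apply, cO, RatFunc.algebraMap_X]
  rw [h]
  rfl

theorem O2_conv {R : Type*} [CommRing R] (i : Algebra ℤ R) (m : Module ℤ R) (A : R →+ R)
    (h : ∀ a b, A (a * b) = a • A b + b • A a) :
    ∃ D : @Derivation ℤ R R _ _ _ i _ m, ∀ z, D z = A z := by
  refine @O1_mk ℤ R R _ _ i _ m _ A (fun n x => ?_) h
  rw [Algebra.smul_def, eq_intCast, ← zsmul_eq_mul, map_zsmul]
  exact (int_smul_eq_zsmul m n (A x)).symm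

theorem O2_add {R : Type*} [CommRing R] (i2 : Differential R) :
    ∃ A : R →+ R, (∀ z, A z = i2.deriv z) ∧ ∀ a b, A (a * b) = a • A b + b • A a :=
  ⟨{ toFun := i2.deriv, map_zero' := map_zero i2.deriv, map_add' := map_add i2.deriv }, fun _ => rfl,
    fun a b => i2.deriv.leibniz a b⟩

theorem O2_diff {R : Type*} [CommRing R] (i2 : Differential R) (i : Algebra ℤ R) (m : Module ℤ R) :
    ∃ D : @Derivation ℤ R R _ _ _ i _ m, ∀ z, D z = i2.deriv z := by
  obtain ⟨A, hA, hA2⟩ := O2_add i2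
  obtain ⟨D, hD⟩ := O2_conv i m A hA2
  exact ⟨D, fun z => (hD z).trans (hA z)⟩

/-- Proof.  `exists_der_ratFunc`, then `Ω` is a finite extension of `RatFunc κ` (characteristic zero): Mathlib's
`Differential.differentialFiniteDimensional`, `differentialAlgebraFiniteDimensional` (FieldTheory/Differential/Basic.lean).
`evO F p = algebraMap (RatFunc κ) Ω (algebraMap κ[X] (RatFunc κ) p)`. -/
theorem exists_der_O (F : κ[X]) (d : Derivation ℤ κ[X] κ[X]) :
    ∃ D : Derivation ℤ (Om F) (Om F), ∀ p : κ[X], D (evO F p) = evO F (d p) := by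
  obtain ⟨D0, hD0⟩ := exists_der_ratFunc d
  obtain ⟨D1, hD1⟩ := O2_conv (Ring.toIntAlgebra (RatFunc κ)) (AddCommGroup.toIntModule (RatFunc κ))
    { toFun := D0, map_zero' := map_zero D0, map_add' := map_add D0 } (fun a b => D0.leibniz a b)
  let i1 : Differential (RatFunc κ) := ⟨D1⟩
  let i2 : Differential (Om F) := Differential.differentialFiniteDimensional (RatFunc κ) (Om F)
  have i3 : DifferentialAlgebra (RatFunc κ) (Om F) := Differential.differentialAlgebraFiniteDimensional
  obtain ⟨D2, hD2⟩ := O2_diff i2 (SplittingField.instAlgebra (pk F)) (AddCommGroup.toIntModule (Om F))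
  refine ⟨D2, fun p => ?_⟩
  rw [O2_ev, O2_ev, hD2]
  have h := i3.deriv_algebraMap (algebraMap κ[X] (RatFunc κ) p)
  refine h.trans ?_
  congr 1
  have h2 := hD1 (algebraMap κ[X] (RatFunc κ) p)
  exact h2.trans (hD0 p)

/-- `∂_c` on `Ω` -/
noncomputable def dcO (F : κ[X]) : Derivation ℤ (Om F) (Om F) :=
  (exists_der_O F ((Polynomial.derivative' (R := κ)).restrictScalars ℤ)).choose

/-- `D` on `Ω`: `D c = 0`, `D = δ` on `κ` -/
noncomputable def DO (F : κ[X]) (δ : Derivation ℤ κ κ) : Derivation ℤ (Om F) (Om F) :=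
  (exists_der_O F (dmap δ)).choose

theorem dcO_evO (F : κ[X]) (p : κ[X]) : dcO F (evO F p) = evO F (derivative p) :=
  (exists_der_O F ((Polynomial.derivative' (R := κ)).restrictScalars ℤ)).choose_spec p

theorem DO_evO (F : κ[X]) (δ : Derivation ℤ κ κ) (p : κ[X]) : DO F δ (evO F p) = evO F (dmap δ p) :=
  (exists_der_O F (dmap δ)).choose_spec p

theorem O2_iO (F : κ[X]) (a : κ) : iO F a = evO F (C a) := by
  simp [evO]

theorem O2_cO (F : κ[X]) : cO F = evO F X := by
  simp [evO]

theorem dcO_iO (F : κ[X]) (a : κ) : dcO F (iO F a) = 0 := by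
  rw [O2_iO, dcO_evO, derivative_C, map_zero]

theorem dcO_cO (F : κ[X]) : dcO F (cO F) = 1 := by
  rw [O2_cO, dcO_evO, derivative_X, map_one]

theorem DO_iO (F : κ[X]) (δ : Derivation ℤ κ κ) (a : κ) : DO F δ (iO F a) = iO F (δ a) := by
  have h : dmap δ (C a) = C (δ a) := by
    ext i
    rw [dmap_coeff, coeff_C, coeff_C]
    split_ifs with h
    · rfl
    · exact map_zero δ
  rw [O2_iO, DO_evO, O2_iO, h]

theorem DO_cO (F : κ[X]) (δ : Derivation ℤ κ κ) : DO F δ (cO F) = 0 := by
  have h : dmap δ (X : κ[X]) = 0 := by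
    ext i
    rw [dmap_coeff, coeff_X, coeff_zero]
    split_ifs with h
    · exact Derivation.map_one_eq_zero δ
    · exact map_zero δ
  rw [O2_cO, DO_evO, h, map_zero]

end Pool.Agent.FCT
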