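import Pool.Agent.FCT.O2

/-! Row FCT-O3: compatibility of derivations. -/

set_option autoImplicit false

namespace Pool.Agent.FCT

open Polynomial Finset

variable {κ : Type*} [Field κ] [CharZero κ]

theorem O3_gen {A B R : Type*} [Field A] [Field B] [Algebra A B] [Field R] (φ : B →+* R) (δ : B → R)
    (hadd : ∀ a b, δ (a + b) = δ a + δ b) (hmul : ∀ a b, δ (a * b) = φ a * δ b + φ b * δ a)
    (h0 : ∀ a : A, δ (algebraMap A B a) = 0) (z : B) (hz : IsSeparable A z) : δ z = 0 := by
  have h1 : δ 1 = 0 := by rw [← map_one (algebraMap A B), h0]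
  have hz0 : δ 0 = 0 := by rw [← map_zero (algebraMap A B), h0]
  have hpow : ∀ n : ℕ, δ (z ^ n) = (n : R) * φ z ^ (n - 1) * δ z := by
    intro n
    induction n with
    | zero => rw [pow_zero, h1]; simp
    | succ n ih =>
      rw [pow_succ, hmul, ih, map_pow]
      rcases Nat.eq_zero_or_pos n with hn | hn
      · subst hn; simp
      · obtain ⟨m, rfl⟩ : ∃ m, n = m + 1 := ⟨n - 1, by omega⟩
        simp only [Nat.add_sub_cancel]
        push_cast
        ring
  have hpoly : ∀ p : A[X], δ (aeval z p) = φ (aeval z (derivative p)) * δ z := by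
    intro p
    induction p using Polynomial.induction_on' with
    | add p q hp hq => rw [map_add, hadd, hp, hq, derivative_add, map_add, map_add, add_mul]
    | monomial n a =>
      rw [aeval_monomial, hmul, hpow, h0, mul_zero, add_zero, derivative_monomial, aeval_monomial]
      simp only [map_mul, map_pow, map_natCast]
      ring
  have hsep : (minpoly A z).Separable := hz
  have h2 := hpoly (minpoly A z)
  rw [minpoly.aeval, hz0] at h2
  have h3 := hsep.aeval_derivative_ne_zero (minpoly.aeval A z)
  have h4 : φ (aeval z (derivative (minpoly A z))) ≠ 0 := by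
    rw [Ne, map_eq_zero]
    exact h3
  exact (mul_eq_zero.1 h2.symm).resolve_left h4

/-- Proof.  The set of `z` with `dR (φ z) = φ (d z)` is closed under `+`, `*`, inverse and contains `κ` and `c`, hence the image of
`RatFunc κ` (`RatFunc` is the fraction field of `κ[X]`: `RatFunc.induction_on`).  For `z ∈ Ω` let `p` be its minimal polynomial over `RatFunc κ`
(separable).  Applying `dR ∘ φ` and `φ ∘ d` to `p(z) = 0` gives twice `A + φ(p'(z)) * x = 0` with the same `A` (the coefficients of `p` are
in the image of `RatFunc κ`) and `x = dR (φ z)` resp. `φ (d z)`; `φ(p'(z)) ≠ 0`.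
(Compare the proof of `Differential.algHom_deriv` in RingTheory/Derivation/MapCoeffs.lean.) -/
theorem compat_O (F : κ[X]) {R : Type*} [Field R] (d : Derivation ℤ (Om F) (Om F)) (dR : Derivation ℤ R R)
    (φ : Om F →+* R) (h1 : ∀ a : κ, dR (φ (iO F a)) = φ (d (iO F a))) (h2 : dR (φ (cO F)) = φ (d (cO F))) (z : Om F) :
    dR (φ z) = φ (d z) := by
  obtain ⟨δ, hδ⟩ : ∃ δ : Om F → R, ∀ z, δ z = dR (φ z) - φ (d z) := ⟨_, fun _ => rfl⟩
  have hadd : ∀ a b, δ (a + b) = δ a + δ b := by
    intro a b
    rw [hδ, hδ, hδ, map_add, map_add, map_add, map_add]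
    ring
  have hmul : ∀ a b, δ (a * b) = φ a * δ b + φ b * δ a := by
    intro a b
    have e1 := dR.leibniz (φ a) (φ b)
    have e2 := d.leibniz a b
    rw [smul_eq_mul, smul_eq_mul] at e1 e2
    rw [hδ, hδ, hδ, map_mul, e1, e2, map_add, map_mul, map_mul]
    ring
  have hp : ∀ p : κ[X], δ (evO F p) = 0 := by
    intro p
    have hiO : ∀ a, δ (iO F a) = 0 := fun a => by rw [hδ, h1, sub_self]
    have hcO : δ (cO F) = 0 := by rw [hδ, h2, sub_self]
    induction p using Polynomial.induction_on with
    | C a => rw [← O2_iO]; exact hiO a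
    | add p q hp hq => rw [map_add, hadd, hp, hq, add_zero]
    | monomial n a ih =>
      rw [pow_succ, ← mul_assoc, map_mul, hmul, ih, ← O2_cO, hcO, mul_zero, mul_zero, add_zero]
  have h0 : ∀ a : RatFunc κ, δ (algebraMap (RatFunc κ) (Om F) a) = 0 := by
    intro a
    induction a using RatFunc.induction_on with
    | f p q hq =>
      rw [map_div₀, ← O2_ev, ← O2_ev]
      have hq0 : evO F q ≠ 0 := by
        rw [O2_ev, Ne, map_eq_zero, map_eq_zero_iff _ (IsFractionRing.injective κ[X] (RatFunc κ))]
        exact hq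
      have e1 := hmul (evO F p / evO F q) (evO F q)
      rw [div_mul_cancel₀ _ hq0, hp, hp, mul_zero, zero_add] at e1
      have h4 : φ (evO F q) ≠ 0 := by rw [Ne, map_eq_zero]; exact hq0
      exact (mul_eq_zero.1 e1.symm).resolve_left h4
  have h3 := O3_gen φ δ hadd hmul h0 z (Algebra.IsSeparable.isSeparable (RatFunc κ) z)
  rw [hδ] at h3
  exact sub_eq_zero.1 h3

end Pool.Agent.FCT
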