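import Pool.Agent.FCT.ODefs

/-! Row FCT-O4: embeddings of `Ω`. -/

set_option autoImplicit false

namespace Pool.Agent.FCT

open Polynomial Finset

variable {κ : Type*} [Field κ]

/-- Proof.  As `c` is transcendental over `i(κ)`, the homomorphism `eval₂ i c : κ[X] → R` is injective and extends to `j : RatFunc κ → R`
(`RatFunc.liftRingHom`/`IsFractionRing.lift`).  `(pk F).map j = F.map i - C c` splits over `R` by `hy` (a product of linear factors).
With `letI := j.toAlgebra`, `Polynomial.SplittingField.lift` gives `φ : Ω →ₐ[RatFunc κ] R`. -/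
theorem exists_emb (F : κ[X]) (hF : 1 ≤ F.natDegree) {R : Type*} [Field R] (i : κ →+* R) (c : R)
    (hc : ∀ P : κ[X], eval₂ i c P = 0 → P = 0) (y : Fin F.natDegree → R) (hy : Roots i c F y) :
    ∃ φ : Om F →+* R, (∀ a : κ, φ (iO F a) = i a) ∧ φ (cO F) = c := by
  have hinj : Function.Injective (eval₂RingHom i c) := by
    rw [injective_iff_map_eq_zero]
    intro P hP
    exact hc P hP
  let j : RatFunc κ →+* R := IsFractionRing.lift (A := κ[X]) (K := RatFunc κ) hinj
  have hj : ∀ P : κ[X], j (algebraMap κ[X] (RatFunc κ) P) = eval₂ i c P := fun P =>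
    IsFractionRing.lift_algebraMap hinj P
  have hjC : ∀ a : κ, j (algebraMap κ (RatFunc κ) a) = i a := by
    intro a
    have h1 : algebraMap κ (RatFunc κ) a = algebraMap κ[X] (RatFunc κ) (C a) := by
      rw [RatFunc.algebraMap_eq_C, RatFunc.algebraMap_C]
    rw [h1, hj, eval₂_C]
  have hjX : j RatFunc.X = c := by
    rw [← RatFunc.algebraMap_X, hj, eval₂_X]
  have hmap : (pk F).map j = F.map i - C c := by
    unfold pk
    rw [Polynomial.map_sub, Polynomial.map_map, map_C, hjX]
    congr 2
    exact RingHom.ext hjC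
  let _ := j.toAlgebra
  have hsplit : ((pk F).map (algebraMap (RatFunc κ) R)).Splits := by
    have h1 : (algebraMap (RatFunc κ) R) = j := rfl
    rw [h1, hmap, hy.2]
    refine Polynomial.Splits.mul (Polynomial.Splits.C _) ?_
    exact Polynomial.Splits.prod fun k _ => Polynomial.Splits.X_sub_C _
  let φ : Om F →ₐ[RatFunc κ] R := Polynomial.SplittingField.lift (pk F) hsplit
  refine ⟨φ, fun a => ?_, ?_⟩
  · change φ (algebraMap (RatFunc κ) (Om F) (algebraMap κ (RatFunc κ) a)) = i a
    rw [φ.commutes]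
    exact hjC a
  · change φ (algebraMap (RatFunc κ) (Om F) RatFunc.X) = c
    rw [φ.commutes]
    exact hjX

/-- `Roots` is preserved by homomorphisms of fields. -/
theorem Roots_map {R S : Type*} [Field R] [Field S] (F : κ[X]) (i : κ →+* R) (c : R) (y : Fin F.natDegree → R)
    (hy : Roots i c F y) (φ : R →+* S) : Roots (φ.comp i) (φ c) F (fun k => φ (y k)) := by
  refine ⟨fun a b h => hy.1 (φ.injective h), ?_⟩
  have h := congrArg (Polynomial.map φ) hy.2
  rw [Polynomial.map_sub, Polynomial.map_map, map_C, Polynomial.map_mul, map_C, Polynomial.map_prod] at h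
  rw [h]
  congr 1
  refine Finset.prod_congr rfl fun k _ => ?_
  rw [Polynomial.map_sub, map_X, map_C]

theorem rho_map {R S : Type*} [Field R] [Field S] (F : κ[X]) (i : κ →+* R) (y : R) (φ : R →+* S) :
    φ (rho i F y) = rho (φ.comp i) F (φ y) := by
  unfold rho
  rw [map_inv₀, hom_eval₂]

/-- `F(y_k) = c` -/
theorem Roots_eval {R : Type*} [Field R] (F : κ[X]) (i : κ →+* R) (c : R) (y : Fin F.natDegree → R)
    (hy : Roots i c F y) (k : Fin F.natDegree) : eval₂ i (y k) F = c := by
  have h := congrArg (Polynomial.eval (y k)) hy.2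
  rw [eval_sub, eval_C, eval_map, eval_mul, eval_C, eval_prod,
    Finset.prod_eq_zero (Finset.mem_univ k) (by rw [eval_sub, eval_X, eval_C, sub_self]), mul_zero] at h
  exact sub_eq_zero.1 h

/-- every root of `F(Y) = c` is one of the `y_k` -/
theorem Roots_mem {R : Type*} [Field R] (F : κ[X]) (hF : 1 ≤ F.natDegree) (i : κ →+* R) (c : R) (y : Fin F.natDegree → R)
    (hy : Roots i c F y) (z : R) (hz : eval₂ i z F = c) : ∃ k, z = y k := by
  have h := congrArg (Polynomial.eval z) hy.2
  rw [eval_sub, eval_C, eval_map, eval_mul, eval_C, eval_prod, hz, sub_self] at h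
  have h1 : i F.leadingCoeff ≠ 0 := by
    intro h0
    have h2 : F.leadingCoeff = 0 := (map_eq_zero i).1 h0
    rw [leadingCoeff_eq_zero] at h2
    rw [h2, natDegree_zero] at hF
    omega
  have h2 := (mul_eq_zero.1 h.symm).resolve_left h1
  obtain ⟨k, -, hk⟩ := Finset.prod_eq_zero_iff.1 h2
  refine ⟨k, ?_⟩
  rw [eval_sub, eval_X, eval_C] at hk
  exact sub_eq_zero.1 hk

end Pool.Agent.FCT
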