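import Pool.Agent.FCT.O4

/-! Row FCT-O5: roots, transcendence -/

set_option autoImplicit false

namespace Pool.Agent.FCT

open Polynomial Finset
variable {κ : Type*} [Field κ]

theorem evO_eq (F : κ[X]) (p : κ[X]) :
    evO F p = algebraMap (RatFunc κ) (Om F) (algebraMap κ[X] (RatFunc κ) p) := by
  have h : evO F = (algebraMap (RatFunc κ) (Om F)).comp (algebraMap κ[X] (RatFunc κ)) := by
    apply Polynomial.ringHom_ext
    · intro a
      rw [evO, coe_eval₂RingHom, eval₂_C, RingHom.comp_apply, RatFunc.algebraMap_C, ← RatFunc.algebraMap_eq_C]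
      rfl
    · rw [evO, coe_eval₂RingHom, eval₂_X, RingHom.comp_apply, RatFunc.algebraMap_X]
      rfl
  rw [h]
  rfl

/-- `c` is transcendental over `κ` -/
theorem evO_injective (F : κ[X]) : Function.Injective (evO F) := by
  intro p q h
  rw [evO_eq, evO_eq] at h
  exact RatFunc.algebraMap_injective κ ((algebraMap (RatFunc κ) (Om F)).injective h)

theorem O5_c (F P : κ[X]) (h : eval₂ (iO F) (cO F) P = 0) : P = 0 := by
  apply evO_injective F
  rw [map_zero]
  exact h

theorem O5_not_alg {R : Type*} [Field R] (i : κ →+* R) (c : R) (hc : ∀ P : κ[X], eval₂ i c P = 0 → P = 0) (F : κ[X])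
    (y : R) (hy : eval₂ i y F = c) (P : κ[X]) (hP : eval₂ i y P = 0) : P = 0 := by
  by_contra hP0
  let _ := i.toAlgebra
  have h1 : IsAlgebraic κ y := ⟨P, hP0, by rw [aeval_def]; exact hP⟩
  have h2 : IsIntegral κ y := isAlgebraic_iff_isIntegral.1 h1
  have h3 : aeval y F ∈ integralClosure κ R := adjoin_le_integralClosure h2 (aeval_mem_adjoin_singleton κ y)
  have h4 : IsIntegral κ c := by
    rw [← hy]
    exact h3
  obtain ⟨Q, hQm, hQ⟩ := h4
  exact hQm.ne_zero (hc Q hQ)

/-- Proof.  `pk F` has degree `E = natDegree F ≥ 1` and splits in `Ω`.  Its roots are simple: a multiple root `η` would satisfy `F'(η) = 0`, so `η`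
is algebraic over `κ` (`F' ≠ 0`, characteristic zero), and so is `c = F(η)`, contradiction.  So there are `E` distinct roots; number them by
`Fin E` and use `prod_of_roots`. -/
theorem exists_rootsO [CharZero κ] (F : κ[X]) (hF : 1 ≤ F.natDegree) :
    ∃ y : Fin F.natDegree → Om F, Roots (iO F) (cO F) F y := by
  obtain ⟨q, hq⟩ : ∃ q, q = (pk F).map (algebraMap (RatFunc κ) (Om F)) := ⟨_, rfl⟩
  have hq1 : q = F.map (iO F) - C (cO F) := by
    have h1 : (F.map (algebraMap κ (RatFunc κ)) - C RatFunc.X : (RatFunc κ)[X]).map (algebraMap (RatFunc κ) (Om F)) =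
        F.map (iO F) - C (cO F) := by
      rw [Polynomial.map_sub, Polynomial.map_map, Polynomial.map_C]
      rfl
    exact hq.trans h1
  have hdeg : q.natDegree = F.natDegree := by
    rw [hq1, natDegree_sub_C, natDegree_map]
  have hq0 : q ≠ 0 := by
    intro h
    rw [h, natDegree_zero] at hdeg
    omega
  have hlc : q.leadingCoeff = iO F F.leadingCoeff := by
    rw [leadingCoeff, hdeg, hq1, coeff_sub, coeff_map, coeff_C, if_neg (by omega), sub_zero, leadingCoeff]
  have hspl : q.Splits := by
    rw [hq]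
    exact SplittingField.splits (pk F)
  have hder : derivative F ≠ 0 := by
    intro h
    have h1 := derivative_eq_zero.1 h
    omega
  classical
  have hnd : q.roots.Nodup := by
    rw [Multiset.nodup_iff_count_le_one]
    intro a
    rw [count_roots]
    by_contra h
    rw [not_le, one_lt_rootMultiplicity_iff_isRoot hq0] at h
    obtain ⟨h1, h2⟩ := h
    have h3 : eval₂ (iO F) a F = cO F := by
      rw [IsRoot.def, hq1, eval_sub, eval_C, eval_map] at h1
      exact sub_eq_zero.1 h1
    have h4 : eval₂ (iO F) a (derivative F) = 0 := by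
      rw [IsRoot.def, hq1, derivative_sub, derivative_C, sub_zero, derivative_map, eval_map] at h2
      exact h2
    exact hder (O5_not_alg (iO F) (cO F) (O5_c F) F a h3 _ h4)
  have hcard : q.roots.toFinset.card = F.natDegree := by
    rw [Multiset.toFinset_card_of_nodup hnd, ← hspl.natDegree_eq_card_roots, hdeg]
  obtain ⟨e⟩ : Nonempty (q.roots.toFinset ≃ Fin F.natDegree) := ⟨q.roots.toFinset.equivFinOfCardEq hcard⟩
  have hinj : Function.Injective (fun j => ((e.symm j : q.roots.toFinset) : Om F)) :=
    Subtype.val_injective.comp e.symm.injective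
  refine ⟨fun j => ((e.symm j : q.roots.toFinset) : Om F), hinj, ?_⟩
  have h1 := prod_of_roots q hq0 (fun j => ((e.symm (Fin.cast hdeg j) : q.roots.toFinset) : Om F))
    (hinj.comp (Fin.cast_injective hdeg)) (fun j => by
      have h2 := (e.symm (Fin.cast hdeg j)).2
      rw [Multiset.mem_toFinset, mem_roots hq0] at h2
      exact h2)
  rw [hlc] at h1
  rw [← hq1]
  refine h1.trans ?_
  congr 1
  exact Fintype.prod_equiv (finCongr hdeg) _ _ fun j => rfl

/-- `y_k` is transcendental over `κ`: if `y_k` were algebraic, so would be `c = F(y_k)`. -/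
theorem y_transc (F : κ[X]) (y : Fin F.natDegree → Om F) (hy : Roots (iO F) (cO F) F y) (k : Fin F.natDegree)
    (P : κ[X]) (hP : eval₂ (iO F) (y k) P = 0) : P = 0 :=
  O5_not_alg (iO F) (cO F) (O5_c F) F (y k) (Roots_eval F (iO F) (cO F) y hy k) P hP

end Pool.Agent.FCT
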