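import Pool.Agent.FCT.O5

/-! Row FCT-O6: permutations of the roots, fixed elements -/

set_option autoImplicit false

namespace Pool.Agent.FCT

open Polynomial Finset
variable {κ : Type*} [Field κ]

/-- The permutation of the roots induced by an automorphism. -/
theorem exists_perm (F : κ[X]) (hF : 1 ≤ F.natDegree) (y : Fin F.natDegree → Om F) (hy : Roots (iO F) (cO F) F y) :
    ∃ π : GO F → Equiv.Perm (Fin F.natDegree), (∀ σ k, σ (y k) = y (π σ k)) ∧ (∀ σ τ, π (σ * τ) = π σ * π τ) := by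
  have h1 : ∀ (σ : GO F) (k : Fin F.natDegree), ∃ l, σ (y k) = y l := by
    intro σ k
    apply Roots_mem F hF (iO F) (cO F) y hy
    have h2 : eval₂ (iO F) (σ (y k)) F = σ (eval₂ (iO F) (y k) F) := by
      have h3 := hom_eval₂ F (iO F) (σ.toAlgHom.toRingHom : Om F →+* Om F) (y k)
      have h4 : (σ.toAlgHom.toRingHom : Om F →+* Om F).comp (iO F) = iO F :=
        RingHom.ext fun a => σ.commutes _
      rw [h4] at h3
      exact h3.symm
    rw [h2, Roots_eval F (iO F) (cO F) y hy k]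
    exact σ.commutes _
  choose f hf using h1
  have hinj : ∀ σ, Function.Injective (f σ) := by
    intro σ k l h
    apply hy.1
    apply σ.injective
    rw [hf, hf, h]
  refine ⟨fun σ => Equiv.ofBijective (f σ) (Finite.injective_iff_bijective.1 (hinj σ)), hf, ?_⟩
  intro σ τ
  ext1 k
  apply hy.1
  show y (f (σ * τ) k) = y (f σ (f τ k))
  rw [← hf, ← hf, ← hf]
  rfl

theorem O6_galois [CharZero κ] (F : κ[X]) : IsGalois (RatFunc κ) (Om F) := by
  have h0 : CharZero (RatFunc κ) := charZero_of_injective_algebraMap (algebraMap κ (RatFunc κ)).injective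
  have h1 : Normal (RatFunc κ) (Om F) := Normal.of_isSplittingField (pk F)
  have h2 : Algebra.IsSeparable (RatFunc κ) (Om F) := inferInstance
  exact ⟨⟩

theorem O6_fixed [CharZero κ] (F : κ[X]) (z : Om F) (hz : ∀ σ : GO F, σ z = z) :
    ∃ r : RatFunc κ, algebraMap (RatFunc κ) (Om F) r = z := by
  have h0 := O6_galois F
  exact (IsGalois.mem_range_algebraMap_iff_fixed z).2 hz

/-- An element fixed by all automorphisms is in `κ(c)`: `Ω` is Galois over `RatFunc κ` (splitting field of a separable polynomial: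
`IsGalois.of_separable_splitting_field`; characteristic zero). -/
theorem fixed_O [CharZero κ] (F : κ[X]) (z : Om F) (hz : ∀ σ : GO F, σ z = z) :
    ∃ N Δ : κ[X], Δ ≠ 0 ∧ z * evO F Δ = evO F N := by
  obtain ⟨r, hr⟩ := O6_fixed F z hz
  obtain ⟨N, Δ, hΔ, h⟩ := IsFractionRing.div_surjective (A := κ[X]) r
  have hΔ0 : Δ ≠ 0 := nonZeroDivisors.ne_zero hΔ
  refine ⟨N, Δ, hΔ0, ?_⟩
  have h1 : algebraMap κ[X] (RatFunc κ) Δ ≠ 0 := by
    intro h2
    apply hΔ0
    apply RatFunc.algebraMap_injective κ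
    rw [h2, map_zero]
  rw [evO_eq, evO_eq, ← hr, ← map_mul, ← h, div_mul_cancel₀ _ h1]

/-- An element fixed by all automorphisms and integral over `κ[c]` is in `κ[c]` (`κ[X]` is integrally closed). -/
theorem fixed_int_O [CharZero κ] (F : κ[X]) (z : Om F) (hz : ∀ σ : GO F, σ z = z) (hi : (evO F).IsIntegralElem z) :
    ∃ T : κ[X], z = evO F T := by
  obtain ⟨r, hr⟩ := O6_fixed F z hz
  obtain ⟨p, hp, hpz⟩ := hi
  have h1 : IsIntegral κ[X] r := by
    refine ⟨p, hp, ?_⟩
    apply (algebraMap (RatFunc κ) (Om F)).injective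
    rw [map_zero, hom_eval₂, hr, ← hpz]
    have h2 : (algebraMap (RatFunc κ) (Om F)).comp (algebraMap κ[X] (RatFunc κ)) = evO F :=
      RingHom.ext fun q => (evO_eq F q).symm
    rw [h2]
  obtain ⟨T, hT⟩ := IsIntegrallyClosed.isIntegral_iff.1 h1
  refine ⟨T, ?_⟩
  rw [evO_eq, hT, hr]

end Pool.Agent.FCT
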