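import Pool.Agent.FCT.O3
import Pool.Agent.FCT.O6

/-! Row FCT-O8: derivatives of the roots; automorphisms commute with the derivations. -/

set_option autoImplicit false

namespace Pool.Agent.FCT

open Polynomial Finset

variable {κ : Type*} [Field κ] [CharZero κ]

omit [CharZero κ] in
theorem O8_der {Ω : Type*} [Field Ω] (i : κ →+* Ω) (δ : Derivation ℤ κ κ) (D : Ω → Ω)
    (hadd : ∀ a b, D (a + b) = D a + D b) (hmul : ∀ a b, D (a * b) = a * D b + b * D a)
    (hD : ∀ a : κ, D (i a) = i (δ a)) (z : Ω) (P : κ[X]) :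
    D (eval₂ i z P) = eval₂ i z (dmap δ P) + eval₂ i z (derivative P) * D z := by
  have hone : D 1 = 0 := by
    have h := hmul 1 1
    rw [one_mul, one_mul] at h
    exact left_eq_add.1 h
  have hpow : ∀ n : ℕ, D (z ^ n) = n * z ^ (n - 1) * D z := by
    intro n
    induction n with
    | zero => rw [pow_zero, hone]; simp
    | succ n ih =>
      rw [pow_succ, hmul, ih]
      rcases n with _ | n
      · simp
      · simp only [Nat.add_sub_cancel, pow_succ]
        push_cast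
        ring
  induction P using Polynomial.induction_on' with
  | add p q hp hq =>
    rw [eval₂_add, hadd, hp, hq, map_add (dmap δ), derivative_add, eval₂_add, eval₂_add]
    ring
  | monomial n a =>
    have h1 : dmap δ (monomial n a) = monomial n (δ a) := by
      ext m
      rw [dmap_coeff, coeff_monomial, coeff_monomial]
      split_ifs
      · rfl
      · exact map_zero δ
    rw [h1, derivative_monomial, eval₂_monomial, eval₂_monomial, eval₂_monomial, hmul, hpow, hD, map_mul,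
      map_natCast]
    ring

omit [CharZero κ] in
theorem O8_conv {Ω : Type*} [Field Ω] [inst : Algebra ℤ Ω]
    (D : @Derivation ℤ Ω Ω _ _ _ inst _ (AddCommGroup.toIntModule Ω)) :
    ∃ D' : @Derivation ℤ Ω Ω _ _ _ (Ring.toIntAlgebra Ω) _ (AddCommGroup.toIntModule Ω), ∀ z, D' z = D z :=
  ⟨@Derivation.mk' ℤ _ Ω _ (Ring.toIntAlgebra Ω) Ω _ (AddCommGroup.toIntModule Ω) _ D.toLinearMap (fun a b => D.leibniz a b),
    fun _ => rfl⟩

/-- apply `∂_c` to `F(y_k) = c`; `F'(y_k) ≠ 0` since `y_k` is transcendental (`y_transc`) -/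
theorem dcO_y (F : κ[X]) (hF : 1 ≤ F.natDegree) (y : Fin F.natDegree → Om F) (hy : Roots (iO F) (cO F) F y)
    (k : Fin F.natDegree) : dcO F (y k) = rho (iO F) F (y k) := by
  have h1 := O8_der (iO F) (0 : Derivation ℤ κ κ) (dcO F) (map_add _) (dcO F).leibniz (fun a => by rw [dcO_iO]; simp) (y k) F
  have h0 : dmap (0 : Derivation ℤ κ κ) F = 0 := by
    ext n
    rw [dmap_coeff]
    simp
  rw [h0, eval₂_zero, zero_add, Roots_eval F (iO F) (cO F) y hy k, dcO_cO] at h1
  exact eq_inv_of_mul_eq_one_right h1.symm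

/-- apply `D` to `F(y_k) = c` -/
theorem DO_y (F : κ[X]) (hF : 1 ≤ F.natDegree) (δ : Derivation ℤ κ κ) (y : Fin F.natDegree → Om F)
    (hy : Roots (iO F) (cO F) F y) (k : Fin F.natDegree) :
    DO F δ (y k) = - eval₂ (iO F) (y k) (dmap δ F) * rho (iO F) F (y k) := by
  have h1 := O8_der (iO F) δ (DO F δ) (map_add _) (DO F δ).leibniz (fun a => DO_iO F δ a) (y k) F
  have h2 := O8_der (iO F) (0 : Derivation ℤ κ κ) (dcO F) (map_add _) (dcO F).leibniz (fun a => by rw [dcO_iO]; simp) (y k) F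
  have h0 : dmap (0 : Derivation ℤ κ κ) F = 0 := by
    ext n
    rw [dmap_coeff]
    simp
  rw [h0, eval₂_zero, zero_add, Roots_eval F (iO F) (cO F) y hy k, dcO_cO] at h2
  have h3 : eval₂ (iO F) (y k) (derivative F) ≠ 0 := fun h => by
    rw [h, zero_mul] at h2
    exact one_ne_zero h2
  rw [Roots_eval F (iO F) (cO F) y hy k, DO_cO] at h1
  unfold rho
  rw [eq_mul_inv_iff_mul_eq₀ h3, mul_comm]
  exact eq_neg_of_add_eq_zero_right h1.symm

/-- `D (P(y)) = P^δ(y) + P'(y) D y` -/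
theorem DO_eval (F : κ[X]) (δ : Derivation ℤ κ κ) (P : κ[X]) (z : Om F) :
    DO F δ (eval₂ (iO F) z P) = eval₂ (iO F) z (dmap δ P) + eval₂ (iO F) z (derivative P) * DO F δ z := by
  exact O8_der (iO F) δ (DO F δ) (map_add _) (DO F δ).leibniz (fun a => DO_iO F δ a) z P

theorem sigma_DO (F : κ[X]) (δ : Derivation ℤ κ κ) (σ : GO F) (z : Om F) : DO F δ (σ z) = σ (DO F δ z) := by
  obtain ⟨D', hD'⟩ := O8_conv (DO F δ)
  rw [← hD']
  refine compat_O F (DO F δ) D' ((σ : Om F →ₐ[RatFunc κ] Om F) : Om F →+* Om F) (fun a => ?_) ?_ z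
  all_goals rw [hD']
  · show DO F δ (σ (iO F a)) = σ (DO F δ (iO F a))
    have h1 : ∀ b : κ, σ (iO F b) = iO F b := fun b => σ.commutes _
    rw [h1, DO_iO, h1]
  · show DO F δ (σ (cO F)) = σ (DO F δ (cO F))
    have h1 : σ (cO F) = cO F := σ.commutes _
    rw [h1, DO_cO, map_zero]

theorem sigma_dcO (F : κ[X]) (σ : GO F) (z : Om F) : dcO F (σ z) = σ (dcO F z) := by
  obtain ⟨D', hD'⟩ := O8_conv (dcO F)
  rw [← hD']
  refine compat_O F (dcO F) D' ((σ : Om F →ₐ[RatFunc κ] Om F) : Om F →+* Om F) (fun a => ?_) ?_ z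
  all_goals rw [hD']
  · show dcO F (σ (iO F a)) = σ (dcO F (iO F a))
    have h1 : ∀ b : κ, σ (iO F b) = iO F b := fun b => σ.commutes _
    rw [h1, dcO_iO, map_zero]
  · show dcO F (σ (cO F)) = σ (dcO F (cO F))
    have h1 : σ (cO F) = cO F := σ.commutes _
    rw [h1, dcO_cO, map_one]

theorem sigma_iO (F : κ[X]) (σ : GO F) (a : κ) : σ (iO F a) = iO F a := by
  exact σ.commutes _

theorem sigma_evO (F : κ[X]) (σ : GO F) (p : κ[X]) : σ (evO F p) = evO F p := by
  rw [evO_eq]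
  exact σ.commutes _

theorem sigma_rho (F : κ[X]) (σ : GO F) (z : Om F) : σ (rho (iO F) F z) = rho (iO F) F (σ z) := by
  have h1 : ((σ : Om F →ₐ[RatFunc κ] Om F) : Om F →+* Om F).comp (iO F) = iO F := by
    ext a
    exact σ.commutes _
  have h2 := rho_map F (iO F) z ((σ : Om F →ₐ[RatFunc κ] Om F) : Om F →+* Om F)
  rw [h1] at h2
  exact h2

end Pool.Agent.FCT
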