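import Pool.Agent.FCT.RhoDef

/-!
# The splitting field `Ω` of `F(Y) - c` over `κ(c)`
-/

set_option autoImplicit false

namespace Pool.Agent.FCT

open Polynomial Finset

variable {κ : Type*} [Field κ]

/-- `F(Y) - c` over `κ(c) = RatFunc κ` -/
noncomputable def pk (F : κ[X]) : (RatFunc κ)[X] := F.map (algebraMap κ (RatFunc κ)) - C RatFunc.X

/-- `Ω` -/
abbrev Om (F : κ[X]) : Type _ := (pk F).SplittingField

/-- inclusion `κ → Ω` -/
noncomputable def iO (F : κ[X]) : κ →+* Om F := (algebraMap (RatFunc κ) (Om F)).comp (algebraMap κ (RatFunc κ))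

/-- `c ∈ Ω` -/
noncomputable def cO (F : κ[X]) : Om F := algebraMap (RatFunc κ) (Om F) RatFunc.X

/-- evaluation `κ[X] → Ω`, `X ↦ c` -/
noncomputable def evO (F : κ[X]) : κ[X] →+* Om F := Polynomial.eval₂RingHom (iO F) (cO F)

/-- the automorphisms of `Ω` over `κ(c)` -/
abbrev GO (F : κ[X]) : Type _ := Om F ≃ₐ[RatFunc κ] Om F

end Pool.Agent.FCT
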