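import Mathlib

/-! Row FCT-P1: a subspace stable under a derivation is spanned by constant vectors. -/

set_option autoImplicit false

namespace Pool.Agent.FCT

open Finset

/-- the support -/
def P1_supp {Ω : Type*} [Field Ω] [DecidableEq Ω] {n : Type*} [Fintype n] (v : n → Ω) : Finset n :=
  univ.filter fun i => v i ≠ 0

theorem P1_mem {Ω : Type*} [Field Ω] [DecidableEq Ω] {n : Type*} [Fintype n] (v : n → Ω) (i : n) :
    i ∈ P1_supp v ↔ v i ≠ 0 := by
  simp [P1_supp]

/-- a constant vector with support inside the support of `w` -/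
theorem P1_const {Ω : Type*} [Field Ω] [DecidableEq Ω] (d : Derivation ℤ Ω Ω) {n : Type*} [Fintype n] [DecidableEq n]
    (W : Submodule Ω (n → Ω)) (hW : ∀ w ∈ W, (fun i => d (w i)) ∈ W) (w : n → Ω) (hw : w ∈ W) (h0 : w ≠ 0) :
    ∃ v ∈ W, (∀ i, d (v i) = 0) ∧ P1_supp v ⊆ P1_supp w ∧ ∃ i, v i = 1 := by
  classical
  have hex : ∃ N : ℕ, ∃ v ∈ W, v ≠ 0 ∧ P1_supp v ⊆ P1_supp w ∧ (P1_supp v).card = N :=
    ⟨_, w, hw, h0, Finset.Subset.refl _, rfl⟩
  obtain ⟨v, hv, hv0, hvs, hvc⟩ := Nat.find_spec hex
  have hmin := fun N h => Nat.find_min hex (m := N) h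
  obtain ⟨i, hi⟩ : ∃ i, v i ≠ 0 := by
    by_contra hc
    push Not at hc
    exact hv0 (funext hc)
  refine ⟨(v i)⁻¹ • v, W.smul_mem _ hv, ?_, ?_, i, ?_⟩
  · have hu : (v i)⁻¹ • v ∈ W := W.smul_mem _ hv
    have hdu := hW _ hu
    by_contra hc
    push Not at hc
    obtain ⟨k, hk⟩ := hc
    have hsub : P1_supp (fun j => d (((v i)⁻¹ • v) j)) ⊆ (P1_supp v).erase i := by
      intro j hj
      rw [P1_mem] at hj
      rw [Finset.mem_erase, P1_mem]
      constructor
      · rintro rfl
        apply hj
        have : ((v j)⁻¹ • v) j = 1 := by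
          rw [Pi.smul_apply, smul_eq_mul, inv_mul_cancel₀ hi]
        rw [this]
        exact Derivation.map_one_eq_zero d
      · intro hvj
        apply hj
        have : ((v i)⁻¹ • v) j = 0 := by
          rw [Pi.smul_apply, smul_eq_mul, hvj, mul_zero]
        rw [this, map_zero]
    have hcard : (P1_supp (fun j => d (((v i)⁻¹ • v) j))).card < Nat.find hex := by
      rw [← hvc]
      exact (Finset.card_le_card hsub).trans_lt (Finset.card_erase_lt_of_mem ((P1_mem v i).2 hi))
    apply hmin _ hcard
    refine ⟨_, hdu, ?_, hsub.trans ((Finset.erase_subset _ _).trans hvs), rfl⟩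
    intro h
    exact hk (congrFun h k)
  · intro j hj
    apply hvs
    rw [P1_mem] at hj ⊢
    intro hvj
    apply hj
    rw [Pi.smul_apply, hvj, smul_zero]
  · rw [Pi.smul_apply, smul_eq_mul, inv_mul_cancel₀ hi]

/-- Proof.  Strong induction on the size of the support of `w`.  `w = 0`: `m = 0`.  Otherwise, among the nonzero `v ∈ W` with
`supp v ⊆ supp w` choose one of minimal support, scaled so that `v i₀ = 1` for some `i₀ ∈ supp v`.  `d v := (d (v i))_i ∈ W` has support contained in
`supp v \ {i₀}` (`d 1 = 0`, `d 0 = 0`), so it is `0` by minimality: `v` is constant.  `w - w i₀ • v ∈ W` has support in `supp w \ {i₀}`: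
induction. -/
theorem const_basis {Ω : Type*} [Field Ω] (d : Derivation ℤ Ω Ω) {n : Type*} [Fintype n] [DecidableEq n]
    (W : Submodule Ω (n → Ω)) (hW : ∀ w ∈ W, (fun i => d (w i)) ∈ W) (w : n → Ω) (hw : w ∈ W) :
    ∃ (m : ℕ) (lam : Fin m → n → Ω) (a : Fin m → Ω),
      (∀ k, lam k ∈ W ∧ ∀ i, d (lam k i) = 0) ∧ w = ∑ k, a k • lam k := by
  classical
  set V : Submodule Ω (n → Ω) := Submodule.span Ω {v | v ∈ W ∧ ∀ i, d (v i) = 0} with hV
  have key : ∀ (N : ℕ) (w : n → Ω), w ∈ W → (P1_supp w).card = N → w ∈ V := by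
    intro N
    induction N using Nat.strong_induction_on with
    | _ N ih =>
      intro w hw hc
      by_cases h0 : w = 0
      · rw [h0]; exact V.zero_mem
      · obtain ⟨v, hv, hvd, hvs, i, hi⟩ := P1_const d W hW w hw h0
        have hvV : v ∈ V := Submodule.subset_span ⟨hv, hvd⟩
        have hiw : i ∈ P1_supp w := hvs ((P1_mem v i).2 (by rw [hi]; exact one_ne_zero))
        have h1 : w - w i • v ∈ W := W.sub_mem hw (W.smul_mem _ hv)
        have hsub : P1_supp (w - w i • v) ⊆ (P1_supp w).erase i := by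
          intro j hj
          rw [P1_mem] at hj
          rw [Finset.mem_erase, P1_mem]
          constructor
          · rintro rfl
            apply hj
            rw [Pi.sub_apply, Pi.smul_apply, hi, smul_eq_mul, mul_one, sub_self]
          · intro hwj
            apply hj
            have hvj : v j = 0 := by
              by_contra hvj
              exact (P1_mem w j).1 (hvs ((P1_mem v j).2 hvj)) hwj
            rw [Pi.sub_apply, Pi.smul_apply, hwj, hvj, smul_zero, sub_zero]
        have hcard : (P1_supp (w - w i • v)).card < N := by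
          rw [← hc]
          exact (Finset.card_le_card hsub).trans_lt (Finset.card_erase_lt_of_mem hiw)
        have h2 := ih _ hcard (w - w i • v) h1 rfl
        have h3 := V.add_mem h2 (V.smul_mem (w i) hvV)
        rwa [sub_add_cancel] at h3
  have h1 := key _ w hw rfl
  rw [hV, Submodule.mem_span_set'] at h1
  obtain ⟨m, a, g, hg⟩ := h1
  exact ⟨m, fun k => (g k : n → Ω), a, fun k => (g k).2, hg.symm⟩

end Pool.Agent.FCT
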