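import Pool.Agent.FCT.R1

/-! Row FCT-P2: residues in `Lb((t))`. -/

set_option autoImplicit false

namespace Pool.Agent.FCT

open Polynomial Finset

/-- `t^m ↦ m t^m` -/
noncomputable def P2_th {Lb : Type*} [Field Lb] (z : LaurentSeries Lb) : LaurentSeries Lb where
  coeff n := (n : Lb) * z.coeff n
  isPWO_support' := z.isPWO_support.mono (by
    intro n hn h
    exact hn (by simp only [h, mul_zero]))

theorem P2_th_coeff {Lb : Type*} [Field Lb] (z : LaurentSeries Lb) (n : ℤ) : (P2_th z).coeff n = (n : Lb) * z.coeff n := rfl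

theorem P2_th_supp {Lb : Type*} [Field Lb] (z : LaurentSeries Lb) : (P2_th z).support ⊆ z.support := by
  intro n hn h
  exact hn (by rw [P2_th_coeff, h, mul_zero])

theorem P2_th_mul {Lb : Type*} [Field Lb] (x y : LaurentSeries Lb) : P2_th (x * y) = x * P2_th y + y * P2_th x := by
  ext n
  rw [P2_th_coeff, HahnSeries.coeff_add, HahnSeries.coeff_mul,
    HahnSeries.coeff_mul_right' y.isPWO_support (P2_th_supp y), mul_comm y (P2_th x),
    HahnSeries.coeff_mul_left' x.isPWO_support (P2_th_supp x), Finset.mul_sum, ← Finset.sum_add_distrib]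
  refine Finset.sum_congr rfl (fun ij hij => ?_)
  rw [Finset.mem_antidiagonal] at hij
  rw [P2_th_coeff, P2_th_coeff, ← hij.2.2]
  push_cast
  ring

theorem P2_der {A : Type*} [CommRing A] (F : A →+ A) (hF : ∀ a b, F (a * b) = a * F b + b * F a) (alg : Algebra ℤ A)
    (mod : Module ℤ A) : ∃ d : @Derivation ℤ A A _ _ _ alg _ mod, ∀ z, d z = F z := by
  have h1 : alg = Ring.toIntAlgebra A := Subsingleton.elim _ _
  have h2 : mod = AddCommGroup.toIntModule A := Subsingleton.elim _ _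
  subst h1 h2
  exact ⟨Derivation.mk' F.toIntLinearMap hF, fun z => rfl⟩

/-- the derivation `d/dc`, `c = c0 + t^e`, of `Lb((t))`: `t^m ↦ (m/e) t^(m-e)` -/
theorem exists_dF (Lb : Type*) [Field Lb] (e : ℕ) :
    ∃ d : Derivation ℤ (LaurentSeries Lb) (LaurentSeries Lb), ∀ z n,
      (d z).coeff n = ((n + e : ℤ) : Lb) * (e : Lb)⁻¹ * z.coeff (n + e) := by
  let f : LaurentSeries Lb →+ LaurentSeries Lb :=
    { toFun := fun z => HahnSeries.single (-(e : ℤ)) ((e : Lb)⁻¹) * P2_th z
      map_zero' := by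
        have h : P2_th (0 : LaurentSeries Lb) = 0 := by
          ext n
          rw [P2_th_coeff]
          simp
        rw [h, mul_zero]
      map_add' := by
        intro x y
        have h : P2_th (x + y) = P2_th x + P2_th y := by
          ext n
          rw [P2_th_coeff, HahnSeries.coeff_add, HahnSeries.coeff_add, P2_th_coeff, P2_th_coeff]
          ring
        rw [h, mul_add] }
  have hf : ∀ z, f z = HahnSeries.single (-(e : ℤ)) ((e : Lb)⁻¹) * P2_th z := fun z => rfl
  obtain ⟨d, hd⟩ := P2_der f (by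
    intro x y
    rw [hf, hf, hf, P2_th_mul]
    ring) inferInstance inferInstance
  refine ⟨d, ?_⟩
  intro z n
  rw [hd, hf, HahnSeries.coeff_single_mul, P2_th_coeff, sub_neg_eq_add]
  ring

/-- `d/dc` -/
noncomputable def dF (Lb : Type*) [Field Lb] (e : ℕ) : Derivation ℤ (LaurentSeries Lb) (LaurentSeries Lb) :=
  (exists_dF Lb e).choose

theorem coeff_dF {Lb : Type*} [Field Lb] (e : ℕ) (z : LaurentSeries Lb) (n : ℤ) :
    (dF Lb e z).coeff n = ((n + e : ℤ) : Lb) * (e : Lb)⁻¹ * z.coeff (n + e) :=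
  (exists_dF Lb e).choose_spec z n

variable {Lb : Type*} [Field Lb] [CharZero Lb]

theorem dF_C (e : ℕ) (a : Lb) : dF Lb e (HahnSeries.C a) = 0 := by
  ext n
  rw [coeff_dF, HahnSeries.C_apply, HahnSeries.coeff_single, HahnSeries.coeff_zero]
  by_cases h : n + (e : ℤ) = 0
  · rw [h]
    simp
  · rw [if_neg h, mul_zero]

theorem dF_c (e : ℕ) (he : 1 ≤ e) (a : Lb) :
    dF Lb e (HahnSeries.C a + HahnSeries.single (e : ℤ) (1 : Lb)) = 1 := by
  have he0 : (e : Lb) ≠ 0 := by exact_mod_cast (show e ≠ 0 by omega)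
  rw [map_add, dF_C, zero_add]
  ext n
  rw [coeff_dF, HahnSeries.coeff_single, HahnSeries.coeff_one]
  by_cases h : n = 0
  · subst h
    rw [zero_add, if_pos rfl, if_pos rfl, Int.cast_natCast, mul_one, mul_inv_cancel₀ he0]
  · rw [if_neg h, if_neg (by omega), mul_zero]

theorem const_of_dF (e : ℕ) (he : 1 ≤ e) (z : LaurentSeries Lb) (hz : dF Lb e z = 0) :
    z = HahnSeries.C (z.coeff 0) := by
  have he0 : (e : Lb) ≠ 0 := by exact_mod_cast (show e ≠ 0 by omega)
  ext m
  rw [HahnSeries.C_apply, HahnSeries.coeff_single]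
  by_cases h : m = 0
  · rw [if_pos h, h]
  · rw [if_neg h]
    have h1 := coeff_dF (Lb := Lb) e z (m - e)
    rw [hz, HahnSeries.coeff_zero, sub_add_cancel] at h1
    have h2 : (m : Lb) ≠ 0 := by exact_mod_cast h
    exact (mul_eq_zero.1 h1.symm).resolve_left (mul_ne_zero h2 (inv_ne_zero he0))

/-- the residue of one logarithmic derivative -/
theorem P2_res (e : ℕ) (g : LaurentSeries Lb) (hg : g ≠ 0) :
    (dF Lb e g * g⁻¹).coeff (-(e : ℤ)) = ((g.order : ℤ) : Lb) * (e : Lb)⁻¹ := by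
  have h1 : Ov g.order g := fun n hn => HahnSeries.coeff_eq_zero_of_lt_order hn
  have h2 : g.coeff g.order ≠ 0 := by
    intro h
    exact hg (HahnSeries.coeff_order_eq_zero.1 h)
  obtain ⟨h3, h4⟩ := Ov_inv h1 h2
  have h5 : Ov (g.order - e) (dF Lb e g) := by
    intro n hn
    rw [coeff_dF, h1 (n + e) (by omega), mul_zero]
  have h6 := coeff_mul_lead h5 h3
  have h7 : g.order - (e : ℤ) + -g.order = -(e : ℤ) := by ring
  rw [h7, h4, coeff_dF, sub_add_cancel] at h6
  rw [h6]
  field_simp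

/-- Residue.  Multiply by `e t^(e-1)`: `e t^(e-1) * dF z = dz/dt` has coefficient `(n+1) z_{n+1}` at `t^n`, so no `t^(-1)` term, and
`(dg/dt)/g` has `t^(-1)`-coefficient `ord g` (`g = a t^N (1 + …)`: write `g = t^N v` with `v` of exact order `0`; `(dg/dt)/g = N/t + (dv/dt)/v`). -/
theorem residue (e : ℕ) (he : 1 ≤ e) {ι : Type*} [Fintype ι] (lam : ι → Lb) (g : ι → LaurentSeries Lb)
    (hg : ∀ i, g i ≠ 0) (η : LaurentSeries Lb)
    (h : ∑ i, HahnSeries.C (lam i) * (dF Lb e (g i) * (g i)⁻¹) = dF Lb e η) :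
    ∑ i, lam i * (((g i).order : ℤ) : Lb) = 0 := by
  have he0 : (e : Lb) ≠ 0 := by exact_mod_cast (show e ≠ 0 by omega)
  have h1 := congrArg (fun z : LaurentSeries Lb => z.coeff (-(e : ℤ))) h
  beta_reduce at h1
  rw [HahnSeries.coeff_sum, coeff_dF, neg_add_cancel, Int.cast_zero, zero_mul, zero_mul] at h1
  have h2 : ∀ i, (HahnSeries.C (lam i) * (dF Lb e (g i) * (g i)⁻¹)).coeff (-(e : ℤ)) =
      lam i * (((g i).order : ℤ) : Lb) * (e : Lb)⁻¹ := by
    intro i
    rw [HahnSeries.C_mul_eq_smul, HahnSeries.coeff_smul, P2_res e (g i) (hg i), smul_eq_mul, mul_assoc]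
  rw [Finset.sum_congr rfl (fun i _ => h2 i), ← Finset.sum_mul] at h1
  exact (mul_eq_zero.1 h1).resolve_right (inv_ne_zero he0)

end Pool.Agent.FCT
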