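import Pool.Agent.FCT.P1
import Pool.Agent.FCT.P2

/-! Row FCT-P3: Claim 1. -/

set_option autoImplicit false

namespace Pool.Agent.FCT

open Polynomial Finset

/-- the subspace `W` of claim 1 -/
def P3_W {Ω E' : Type*} [Field Ω] [Field E'] (j : Ω →+* E') {ι : Type*} [Fintype ι] (l : ι → E') :
    Submodule Ω (ι → Ω) where
  carrier := {w | ∃ η : Ω, ∑ i, j (w i) * l i = j η}
  add_mem' := by
    rintro w w' ⟨η, h⟩ ⟨η', h'⟩
    refine ⟨η + η', ?_⟩
    rw [map_add, ← h, ← h', ← Finset.sum_add_distrib]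
    refine Finset.sum_congr rfl (fun i _ => ?_)
    rw [Pi.add_apply, map_add]
    ring
  zero_mem' := ⟨0, by simp⟩
  smul_mem' := by
    rintro a w ⟨η, h⟩
    refine ⟨a * η, ?_⟩
    rw [map_mul, ← h, Finset.mul_sum]
    refine Finset.sum_congr rfl (fun i _ => ?_)
    rw [Pi.smul_apply, smul_eq_mul, map_mul]
    ring

theorem P3_mem {Ω E' : Type*} [Field Ω] [Field E'] (j : Ω →+* E') {ι : Type*} [Fintype ι] (l : ι → E') (w : ι → Ω) :
    w ∈ P3_W j l ↔ ∃ η : Ω, ∑ i, j (w i) * l i = j η := Iff.rfl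

theorem P3_der {Ω E' : Type*} [Field Ω] [Field E'] (d : Derivation ℤ Ω Ω)
    (j : Ω →+* E') (dE : Derivation ℤ E' E') (hj : ∀ z, dE (j z) = j (d z)) {ι : Type*} [Fintype ι]
    (l : ι → E') (g : ι → Ω) (hl : ∀ i, dE (l i) = j (d (g i) * (g i)⁻¹))
    (w : ι → Ω) (η : Ω) (h : ∑ i, j (w i) * l i = j η) :
    ∑ i, j (d (w i)) * l i = j (d η - ∑ i, w i * (d (g i) * (g i)⁻¹)) := by
  have h1 := congrArg dE h
  rw [map_sum, hj] at h1
  rw [map_sub, ← h1, map_sum, eq_sub_iff_add_eq, ← Finset.sum_add_distrib]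
  refine Finset.sum_congr rfl (fun i _ => ?_)
  rw [Derivation.leibniz, smul_eq_mul, smul_eq_mul, hj, hl, map_mul (f := j) (w i)]
  ring

theorem P3_const {Ω E' Lb : Type*} [Field Ω] [Field E'] [Field Lb] [CharZero Lb] (d : Derivation ℤ Ω Ω)
    (j : Ω →+* E') (dE : Derivation ℤ E' E') (hj : ∀ z, dE (j z) = j (d z)) {ι : Type*} [Fintype ι]
    (l : ι → E') (g : ι → Ω) (hg : ∀ i, g i ≠ 0) (hl : ∀ i, dE (l i) = j (d (g i) * (g i)⁻¹))
    (e : ℕ) (he : 1 ≤ e) (φ : Ω →+* LaurentSeries Lb) (hφ : ∀ z, dF Lb e (φ z) = φ (d z))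
    (w : ι → Ω) (hw : w ∈ P3_W j l) (hc : ∀ i, d (w i) = 0) :
    ∑ i, (((φ (g i)).order : ℤ) : Ω) * w i = 0 := by
  obtain ⟨η, h⟩ := (P3_mem j l w).mp hw
  have h1 := P3_der d j dE hj l g hl w η h
  have h2 : ∑ i, j (d (w i)) * l i = 0 := by
    apply Finset.sum_eq_zero
    intro i _
    rw [hc i, map_zero, zero_mul]
  rw [h2, eq_comm, map_eq_zero j, sub_eq_zero] at h1
  have h3 : ∀ i, φ (w i) = HahnSeries.C ((φ (w i)).coeff 0) := by
    intro i
    apply const_of_dF e he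
    rw [hφ, hc i, map_zero]
  have h4 : ∑ i, HahnSeries.C ((φ (w i)).coeff 0) * (dF Lb e (φ (g i)) * (φ (g i))⁻¹) = dF Lb e (φ η) := by
    rw [hφ, h1, map_sum]
    refine Finset.sum_congr rfl (fun i _ => ?_)
    rw [← h3 i, map_mul, map_mul, hφ, map_inv₀]
  have h5 := residue e he (fun i => (φ (w i)).coeff 0) (fun i => φ (g i))
    (fun i => (map_ne_zero φ).mpr (hg i)) (φ η) h4
  have h6 : φ (∑ i, (((φ (g i)).order : ℤ) : Ω) * w i) = 0 := by
    rw [map_sum]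
    have h7 : (HahnSeries.C (∑ i, (φ (w i)).coeff 0 * (((φ (g i)).order : ℤ) : Lb)) : LaurentSeries Lb) = 0 := by
      rw [h5, map_zero]
    rw [← h7, map_sum]
    refine Finset.sum_congr rfl (fun i _ => ?_)
    rw [map_mul, map_mul, map_intCast, map_intCast, ← h3 i]
    ring
  exact (map_eq_zero φ).mp h6

/-- Claim 1.  Proof.  `W = {w | ∃ η, ∑ j(w i) ℓ i = j η}` is a subspace of `ι → Ω`, stable under `d`:
`dE (∑ j(w i) ℓ i) = ∑ j(d (w i)) ℓ i + j (∑ w i * (d (g i) / g i))` and `dE (j η) = j (d η)`.  By `const_basis`, `w = ∑ a_k λ_k`, `λ_k ∈ W` constant.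
For such `λ`: `∑ j(λ i) ℓ i = j η`; apply `dE`: `j (∑ λ i * (d (g i)/g i)) = j (d η)`, so (`j` injective) `∑ λ i * (d (g i)/g i) = d η`.  Apply `φ`:
`φ (λ i)` is killed by `dF` (`hφ`), so `φ (λ i) = C (lam i)` (`const_of_dF`), and `residue` gives `∑ lam i * ord(φ (g i)) = 0`, i.e.
`φ (∑ ord(φ (g i)) λ i) = 0`, so `∑ ord(φ (g i)) λ i = 0`.  Sum up with the `a_k`. -/
theorem claim1 {Ω E' Lb : Type*} [Field Ω] [Field E'] [Field Lb] [CharZero Lb] (d : Derivation ℤ Ω Ω)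
    (j : Ω →+* E') (dE : Derivation ℤ E' E') (hj : ∀ z, dE (j z) = j (d z)) {ι : Type*} [Fintype ι] [DecidableEq ι]
    (l : ι → E') (g : ι → Ω) (hg : ∀ i, g i ≠ 0) (hl : ∀ i, dE (l i) = j (d (g i) * (g i)⁻¹))
    (e : ℕ) (he : 1 ≤ e) (φ : Ω →+* LaurentSeries Lb) (hφ : ∀ z, dF Lb e (φ z) = φ (d z))
    (w : ι → Ω) (η : Ω) (hw : ∑ i, j (w i) * l i = j η) :
    ∑ i, (((φ (g i)).order : ℤ) : Ω) * w i = 0 := by
  have hwW : w ∈ P3_W j l := ⟨η, hw⟩
  have hst : ∀ v ∈ P3_W j l, (fun i => d (v i)) ∈ P3_W j l := by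
    rintro v ⟨η', hv⟩
    exact ⟨_, P3_der d j dE hj l g hl v η' hv⟩
  obtain ⟨m, lam, a, hlam, hsum⟩ := const_basis d (P3_W j l) hst w hwW
  have h1 : ∀ k, ∑ i, (((φ (g i)).order : ℤ) : Ω) * lam k i = 0 := fun k =>
    P3_const d j dE hj l g hg hl e he φ hφ (lam k) (hlam k).1 (hlam k).2
  have h2 : ∀ i, w i = ∑ k, a k * lam k i := by
    intro i
    have := congrFun hsum i
    simpa using this
  calc ∑ i, (((φ (g i)).order : ℤ) : Ω) * w i
      = ∑ i, ∑ k, a k * ((((φ (g i)).order : ℤ) : Ω) * lam k i) := by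
        refine Finset.sum_congr rfl (fun i _ => ?_)
        rw [h2 i, Finset.mul_sum]
        refine Finset.sum_congr rfl (fun k _ => ?_)
        ring
    _ = ∑ k, a k * ∑ i, (((φ (g i)).order : ℤ) : Ω) * lam k i := by
        rw [Finset.sum_comm]
        refine Finset.sum_congr rfl (fun k _ => ?_)
        rw [Finset.mul_sum]
    _ = 0 := by
        apply Finset.sum_eq_zero
        intro k _
        rw [h1 k, mul_zero]

end Pool.Agent.FCT
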