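import Pool.Agent.FCT.P4c

/-! Row FCT-P4: Claim 2 -/

set_option autoImplicit false

namespace Pool.Agent.FCT

open Polynomial Finset
variable {κ : Type*} [Field κ]

/-- Claim 2.  `lin_comb` with `𝒩 = NN φA ∪ NN φB`, `prod_eq_one`, `lg_add` (`u i = iE s * (j (y i))⁻¹`, `1 - u i = j (g_i)`). -/
theorem claim2 [CharZero κ] {Lb L : Type*} [Field Lb] [Algebra κ Lb] [Field L] [CharZero L] [Algebra κ L] (F : κ[X])
    (hF : 1 ≤ F.natDegree) (s : κ) (y : Fin F.natDegree → Om F) (hy : Roots (iO F) (cO F) F y)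
    (φA : Om F →+* LaurentSeries Lb) (hA1 : ∀ b : κ, φA (iO F b) = iE κ Lb b) (eA : ℕ) (heA : 1 ≤ eA)
    (hA2 : φA (cO F) = iE κ Lb (eval s F) + HahnSeries.single (eA : ℤ) (1 : Lb))
    (φB : Om F →+* LaurentSeries Lb) (hB1 : ∀ b : κ, φB (iO F b) = iE κ Lb b) (eB : ℕ) (heB : 1 ≤ eB)
    (hB2 : φB (cO F) = iE κ Lb (eval 0 F) + HahnSeries.single (eB : ℤ) (1 : Lb))
    (j : Om F →+* LaurentSeries L) (hj1 : ∀ b : κ, j (iO F b) = iE κ L b) (hj2 : j (cO F) = cE L F.natDegree)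
    (w : Fin F.natDegree → LaurentSeries L)
    (hw : ∀ n ∈ NN F s y φA ∪ NN F s y φB, ∑ i, (n i : LaurentSeries L) * w i = 0) :
    ∑ i, w i * lg (iE κ L s * (j (y i))⁻¹) = 0 := by
  have hji : j.comp (iO F) = iE κ L := by
    ext1 b
    exact hj1 b
  have hord : ∀ l, Ov (-1) (j (y l)) ∧ (j (y l)).coeff (-1) ≠ 0 := by
    intro l
    refine order_root (κ := κ) F hF (j (y l)) ?_
    rw [← hji, ← hom_eval₂, Roots_eval F (iO F) (cO F) y hy l, hj2]
  have hu : ∀ i, Ov 1 (iE κ L s * (j (y i))⁻¹) := by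
    intro i
    have h1 := (Ov_inv (hord i).1 (hord i).2).1
    have h2 := Ov_mul (Ov_C (algebraMap κ L s)) h1
    rw [neg_neg, zero_add] at h2
    exact h2
  haveI : CharZero (LaurentSeries L) :=
    charZero_of_injective_ringHom (f := (HahnSeries.C : L →+* LaurentSeries L)) HahnSeries.C_injective
  have hcomm : ∑ i, w i * lg (iE κ L s * (j (y i))⁻¹) = 0 := by
    refine lin_comb (NN F s y φA ∪ NN F s y φB) (fun i => lg (iE κ L s * (j (y i))⁻¹)) (fun m hm => ?_) w hw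
    refine lg_add m (fun i => iE κ L s * (j (y i))⁻¹) hu ?_
    have h1 := congrArg j (prod_eq_one F hF s y hy φA hA1 eA heA hA2 φB hB1 eB heB hB2 j hj1 hj2 m hm)
    rw [map_prod, map_one] at h1
    refine Eq.trans ?_ h1
    refine Finset.prod_congr rfl fun i _ => ?_
    rw [map_zpow₀, gO, map_sub, map_one, map_mul, hj1, map_inv₀]
  exact hcomm

end Pool.Agent.FCT
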