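import Pool.Agent.FCT.R1

/-! Row FCT-R2: polynomials in `c`. -/

set_option autoImplicit false

namespace Pool.Agent.FCT

open Polynomial Finset

variable {κ L : Type*} [Field κ] [Field L] [Algebra κ L]

theorem evc_C (E : ℕ) (a : κ) : evc κ L E (C a) = iE κ L a := by
  simp only [evc, coe_eval₂RingHom, eval₂_C]

theorem evc_X (E : ℕ) : evc κ L E X = cE L E := by
  simp only [evc, coe_eval₂RingHom, eval₂_X]

theorem cE_pow (E j : ℕ) : (cE L E) ^ j = HahnSeries.single (-(E * j : ℕ) : ℤ) (1 : L) := by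
  rw [cE, HahnSeries.single_pow, one_pow]
  congr 1
  rw [nsmul_eq_mul, Nat.cast_mul, mul_neg, mul_comm]

theorem R2_evc (E : ℕ) (P : κ[X]) : evc κ L E P =
    ∑ n ∈ range (P.natDegree + 1), HahnSeries.single (-(E * n : ℕ) : ℤ) (algebraMap κ L (P.coeff n)) := by
  simp only [evc, coe_eval₂RingHom]
  rw [eval₂_eq_sum_range]
  refine Finset.sum_congr rfl fun n _ => ?_
  rw [cE_pow, iE, RingHom.comp_apply, HahnSeries.C_apply, HahnSeries.single_mul_single, zero_add, mul_one]

/-- `coeff (-(E j))` of `P(c)` is `P_j` -/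
theorem coeff_evc (E : ℕ) (hE : 1 ≤ E) (P : κ[X]) (j : ℕ) :
    (evc κ L E P).coeff (-(E * j : ℕ) : ℤ) = algebraMap κ L (P.coeff j) := by
  rw [R2_evc, HahnSeries.coeff_sum]
  by_cases hj : j ∈ range (P.natDegree + 1)
  · rw [Finset.sum_eq_single j]
    · exact HahnSeries.coeff_single_same _ _
    · intro n _ hn
      refine HahnSeries.coeff_single_of_ne fun h => hn ?_
      have h1 : E * j = E * n := by omega
      exact (Nat.eq_of_mul_eq_mul_left hE h1).symm
    · exact fun h => absurd hj h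
  · rw [Finset.sum_eq_zero, coeff_eq_zero_of_natDegree_lt, map_zero]
    · rw [Finset.mem_range] at hj
      omega
    · intro n hn
      refine HahnSeries.coeff_single_of_ne fun h => hj ?_
      have h1 : E * j = E * n := by omega
      rwa [Nat.eq_of_mul_eq_mul_left hE h1]

theorem coeff_evc_of_pos (E : ℕ) (P : κ[X]) (n : ℤ) (hn : 0 < n) : (evc κ L E P).coeff n = 0 := by
  rw [R2_evc, HahnSeries.coeff_sum]
  refine Finset.sum_eq_zero fun i _ => ?_
  refine HahnSeries.coeff_single_of_ne fun h => ?_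
  omega

theorem Ov_evc (E : ℕ) (P : κ[X]) : Ov (-(E * P.natDegree : ℕ) : ℤ) (evc κ L E P) := by
  intro n hn
  rw [R2_evc, HahnSeries.coeff_sum]
  refine Finset.sum_eq_zero fun i hi => ?_
  refine HahnSeries.coeff_single_of_ne fun h => ?_
  rw [Finset.mem_range] at hi
  have h1 : E * i ≤ E * P.natDegree := Nat.mul_le_mul_left E (by omega)
  omega

theorem evc_lead (E : ℕ) (hE : 1 ≤ E) (P : κ[X]) (hP : P ≠ 0) :
    (evc κ L E P).coeff (-(E * P.natDegree : ℕ) : ℤ) ≠ 0 := by
  rw [coeff_evc E hE]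
  exact (_root_.map_ne_zero _).2 (leadingCoeff_ne_zero.2 hP)

theorem evc_injective (E : ℕ) (hE : 1 ≤ E) : Function.Injective (evc κ L E) := by
  rw [injective_iff_map_eq_zero]
  intro P hP
  by_contra h
  apply evc_lead (L := L) E hE P h
  rw [hP, HahnSeries.coeff_zero]

/-- a polynomial in `c` of positive order vanishes -/
theorem eq_zero_of_Ov_evc (E : ℕ) (hE : 1 ≤ E) (P : κ[X]) (h : Ov 1 (evc κ L E P)) : P = 0 := by
  by_contra h0
  exact evc_lead (L := L) E hE P h0 (h _ (by omega))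

theorem R2_pow_lead {N : ℤ} {z : LaurentSeries L} (hz : Ov N z) (n : ℕ) : (z ^ n).coeff (n * N) = (z.coeff N) ^ n := by
  induction n with
  | zero =>
    simp only [Nat.cast_zero, zero_mul, pow_zero]
    rw [HahnSeries.coeff_one, if_pos rfl]
  | succ n ih =>
    have e : ((n + 1 : ℕ) : ℤ) * N = (n : ℤ) * N + N := by push_cast; ring
    rw [pow_succ, e, coeff_mul_lead (Ov_pow hz n) hz, ih, pow_succ]

/-- a root `Y` of `F(Y) = c` has order exactly `-1` (if `ord Y ≥ 0` then `ord F(Y) ≥ 0`; if `ord Y = -m < 0` then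
`ord F(Y) = -m E`), `E = natDegree F ≥ 1`. -/
theorem order_root (F : κ[X]) (hF : 1 ≤ F.natDegree) (y : LaurentSeries L)
    (hy : eval₂ (iE κ L) y F = cE L F.natDegree) : Ov (-1) y ∧ y.coeff (-1) ≠ 0 := by
  have hF0 : F ≠ 0 := by
    rintro rfl
    simp at hF
  have hi : ∀ a : κ, Ov 0 (iE κ L a) := fun a => Ov_C _
  have hnot : ¬ Ov 0 y := by
    intro h0
    have h1 : Ov 0 (eval₂ (iE κ L) y F) := by
      rw [eval₂_eq_sum_range]
      refine Ov_sum _ _ fun n _ => ?_
      have h2 := Ov_mul (hi (F.coeff n)) (Ov_pow h0 n)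
      rw [mul_zero, add_zero] at h2
      exact h2
    rw [hy] at h1
    have h2 := h1 (-(F.natDegree : ℤ)) (by omega)
    rw [cE, HahnSeries.coeff_single_same] at h2
    exact one_ne_zero h2
  have hy0 : y ≠ 0 := by
    rintro rfl
    exact hnot (Ov_zero 0)
  obtain ⟨N, hN, hN0⟩ := exists_lead hy0
  have hNneg : N < 0 := by
    by_contra h
    exact hnot (Ov_mono (not_lt.1 h) hN)
  have hc : (eval₂ (iE κ L) y F).coeff (F.natDegree * N) = algebraMap κ L F.leadingCoeff * (y.coeff N) ^ F.natDegree := by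
    rw [eval₂_eq_sum_range, HahnSeries.coeff_sum, Finset.sum_eq_single F.natDegree]
    · have h2 := coeff_mul_lead (hi (F.coeff F.natDegree)) (Ov_pow hN F.natDegree)
      rw [zero_add] at h2
      rw [h2, R2_pow_lead hN, iE, RingHom.comp_apply, HahnSeries.C_apply, HahnSeries.coeff_single_same]
      rfl
    · intro n hn hne
      rw [Finset.mem_range] at hn
      have h2 := Ov_mul (hi (F.coeff n)) (Ov_pow hN n)
      refine h2 _ ?_
      have h3 : (n : ℤ) + 1 ≤ F.natDegree := by omega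
      nlinarith
    · intro h
      exact absurd (Finset.mem_range.2 (Nat.lt_succ_self _)) h
  have hc0 : (eval₂ (iE κ L) y F).coeff (F.natDegree * N) ≠ 0 := by
    rw [hc]
    exact mul_ne_zero ((_root_.map_ne_zero _).2 (leadingCoeff_ne_zero.2 hF0)) (pow_ne_zero _ hN0)
  rw [hy, cE] at hc0
  have h4 : (F.natDegree : ℤ) * N = -(F.natDegree : ℤ) := by
    by_contra h
    exact hc0 (HahnSeries.coeff_single_of_ne h)
  have h5 : N = -1 := by
    have h6 : (F.natDegree : ℤ) * (N + 1) = 0 := by rw [mul_add, h4]; ring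
    rcases mul_eq_zero.1 h6 with h7 | h7
    · omega
    · omega
  rw [h5] at hN hN0
  exact ⟨hN, hN0⟩

end Pool.Agent.FCT
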