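import Pool.Agent.FCT.O8
import Pool.Agent.FCT.R2

/-! Row FCT-P4a: integrality of the units. -/

set_option autoImplicit false

namespace Pool.Agent.FCT

open Polynomial Finset

variable {κ : Type*} [Field κ]

/-- `g = 1 - s/y` -/
noncomputable def gO (F : κ[X]) (s : κ) (y : Om F) : Om F := 1 - iO F s * y⁻¹

theorem P4a_ne (F : κ[X]) (y : Fin F.natDegree → Om F) (hy : Roots (iO F) (cO F) F y)
    (k : Fin F.natDegree) (a : κ) : y k - iO F a ≠ 0 := by
  intro h
  have h1 : eval₂ (iO F) (y k) (X - C a) = 0 := by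
    rw [eval₂_sub, eval₂_X, eval₂_C]; exact h
  exact X_sub_C_ne_zero a (y_transc F y hy k (X - C a) h1)

theorem P4a_ne0 (F : κ[X]) (y : Fin F.natDegree → Om F) (hy : Roots (iO F) (cO F) F y)
    (k : Fin F.natDegree) : y k ≠ 0 := by
  have h := P4a_ne F y hy k 0
  rwa [map_zero, sub_zero] at h

theorem P4a_g (F : κ[X]) (s : κ) (z : Om F) (hz : z ≠ 0) : gO F s z = (z - iO F s) * z⁻¹ := by
  unfold gO; rw [sub_mul, mul_inv_cancel₀ hz]

theorem gO_ne_zero [CharZero κ] (F : κ[X]) (s : κ) (y : Fin F.natDegree → Om F) (hy : Roots (iO F) (cO F) F y)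
    (k : Fin F.natDegree) : gO F s (y k) ≠ 0 := by
  rw [P4a_g F s _ (P4a_ne0 F y hy k)]
  exact mul_ne_zero (P4a_ne F y hy k s) (inv_ne_zero (P4a_ne0 F y hy k))

theorem P4a_sigma_iO (F : κ[X]) (σ : GO F) (a : κ) : σ (iO F a) = iO F a := by
  show σ (algebraMap (RatFunc κ) (Om F) (algebraMap κ (RatFunc κ) a)) = _
  rw [AlgEquiv.commutes]; rfl

theorem P4a_sigma_cO (F : κ[X]) (σ : GO F) : σ (cO F) = cO F := by
  show σ (algebraMap (RatFunc κ) (Om F) RatFunc.X) = _
  rw [AlgEquiv.commutes]; rfl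

theorem P4a_sigma_evO (F : κ[X]) (σ : GO F) (p : κ[X]) : σ (evO F p) = evO F p := by
  rw [evO_eq, AlgEquiv.commutes]

theorem sigma_gO (F : κ[X]) (s : κ) (σ : GO F) (z : Om F) : σ (gO F s z) = gO F s (σ z) := by
  unfold gO
  rw [map_sub, map_one, map_mul, P4a_sigma_iO, map_inv₀]

theorem P4a_evO_C (F : κ[X]) (a : κ) : evO F (C a) = iO F a := by
  show eval₂ (iO F) (cO F) (C a) = _
  rw [eval₂_C]

theorem P4a_evO_X (F : κ[X]) : evO F X = cO F := by
  show eval₂ (iO F) (cO F) X = _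
  rw [eval₂_X]

theorem P4a_int_ev (F : κ[X]) (p : κ[X]) : (evO F).IsIntegralElem (evO F p) :=
  RingHom.isIntegralElem_map _

/-- `y_k` is a root of `F(Y) - c`, whose leading coefficient is a unit of `κ`. -/
theorem int_y (F : κ[X]) (hF : 1 ≤ F.natDegree) (y : Fin F.natDegree → Om F) (hy : Roots (iO F) (cO F) F y)
    (k : Fin F.natDegree) : (evO F).IsIntegralElem (y k) := by
  have hF0 : F ≠ 0 := by
    rintro rfl; simp at hF
  have hl : F.leadingCoeff ≠ 0 := leadingCoeff_ne_zero.2 hF0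
  -- the monic polynomial `l⁻¹ (F(Y) - c)`
  let G : κ[X] := C (F.leadingCoeff)⁻¹ * F
  have hGm : G.Monic := by
    show (C (F.leadingCoeff)⁻¹ * F).leadingCoeff = 1
    rw [leadingCoeff_mul, leadingCoeff_C, inv_mul_cancel₀ hl]
  have hGd : G.natDegree = F.natDegree := by
    show (C (F.leadingCoeff)⁻¹ * F).natDegree = _
    exact natDegree_C_mul (inv_ne_zero hl)
  let P : κ[X][X] := G.map C - C (C (F.leadingCoeff)⁻¹ * X)
  have hdeg : (C (C (F.leadingCoeff)⁻¹ * X) : κ[X][X]).degree < (G.map C).degree := by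
    refine lt_of_le_of_lt degree_C_le ?_
    rw [degree_map_eq_of_injective C_injective, degree_eq_natDegree hGm.ne_zero, hGd]
    exact_mod_cast hF
  refine ⟨P, (hGm.map C).sub_of_left hdeg, ?_⟩
  show eval₂ (evO F) (y k) (G.map C - C (C (F.leadingCoeff)⁻¹ * X)) = 0
  rw [eval₂_sub, eval₂_C, map_mul, P4a_evO_C, P4a_evO_X, eval₂_map]
  have hc : (evO F).comp C = iO F := by
    ext a; exact P4a_evO_C F a
  rw [hc]
  show eval₂ (iO F) (y k) (C (F.leadingCoeff)⁻¹ * F) - _ = 0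
  rw [eval₂_mul, eval₂_C, Roots_eval F _ _ y hy k, sub_self]

theorem P4a_int_eval (F : κ[X]) (hF : 1 ≤ F.natDegree) (y : Fin F.natDegree → Om F) (hy : Roots (iO F) (cO F) F y)
    (k : Fin F.natDegree) (Q : κ[X]) : (evO F).IsIntegralElem (eval₂ (iO F) (y k) Q) := by
  induction Q using Polynomial.induction_on' with
  | add p q hp hq => rw [eval₂_add]; exact RingHom.IsIntegralElem.add _ hp hq
  | monomial n a =>
    rw [eval₂_monomial]
    refine RingHom.IsIntegralElem.mul _ ?_ ?_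
    · rw [← P4a_evO_C]; exact P4a_int_ev F _
    · induction n with
      | zero => rw [pow_zero, ← map_one (evO F)]; exact P4a_int_ev F 1
      | succ n ih => rw [pow_succ]; exact RingHom.IsIntegralElem.mul _ ih (int_y F hF y hy k)

/-- `c - F(a) = F(y) - F(a) = (y - a) S(y)` with `S ∈ κ[Y]`, so `(y - a)⁻¹ (c - F(a)) = S(y)`. -/
theorem int_inv (F : κ[X]) (hF : 1 ≤ F.natDegree) (y : Fin F.natDegree → Om F) (hy : Roots (iO F) (cO F) F y)
    (k : Fin F.natDegree) (a : κ) : (evO F).IsIntegralElem ((y k - iO F a)⁻¹ * evO F (X - C (eval a F))) := by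
  obtain ⟨S, hS⟩ : (X - C a) ∣ F - C (eval a F) := by
    rw [dvd_iff_isRoot]; simp [IsRoot]
  have h1 : evO F (X - C (eval a F)) = (y k - iO F a) * eval₂ (iO F) (y k) S := by
    have h2 := congrArg (eval₂ (iO F) (y k)) hS
    rw [eval₂_sub, eval₂_C, Roots_eval F _ _ y hy k, eval₂_mul, eval₂_sub, eval₂_X, eval₂_C] at h2
    rw [map_sub, P4a_evO_X, P4a_evO_C, h2]
  rw [h1, ← mul_assoc, inv_mul_cancel₀ (P4a_ne F y hy k a), one_mul]
  exact P4a_int_eval F hF y hy k S

theorem P4a_int_pow (F : κ[X]) (z : Om F) (hz : (evO F).IsIntegralElem z) (n : ℕ) : (evO F).IsIntegralElem (z ^ n) := by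
  induction n with
  | zero => rw [pow_zero, ← map_one (evO F)]; exact P4a_int_ev F 1
  | succ n ih => rw [pow_succ]; exact RingHom.IsIntegralElem.mul _ ih hz

/-- With `A = F(s)`, `B = F(0)`: `g_k = (y_k - s) * y_k⁻¹`, so `g_k (c-A)(c-B)` and `g_k⁻¹ (c-A)(c-B)` are integral; take `N = ∑ |m_k|`. -/
theorem int_prod [CharZero κ] (F : κ[X]) (hF : 1 ≤ F.natDegree) (s : κ) (y : Fin F.natDegree → Om F)
    (hy : Roots (iO F) (cO F) F y) (m : Fin F.natDegree → ℤ) :
    ∃ N : ℕ, (evO F).IsIntegralElem ((∏ k, gO F s (y k) ^ (m k)) *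
      evO F (((X - C (eval s F)) * (X - C (eval 0 F))) ^ N)) := by
  have hA : ∀ k, (evO F).IsIntegralElem (gO F s (y k) * evO F ((X - C (eval s F)) * (X - C (eval 0 F)))) := by
    intro k
    rw [P4a_g F s _ (P4a_ne0 F y hy k), map_mul]
    have h0 := int_inv F hF y hy k 0
    rw [map_zero, sub_zero] at h0
    have h1 : (evO F).IsIntegralElem (y k - iO F s) := by
      rw [← P4a_evO_C]; exact RingHom.IsIntegralElem.sub _ (int_y F hF y hy k) (P4a_int_ev F _)
    have h2 : (y k - iO F s) * (y k)⁻¹ * (evO F (X - C (eval s F)) * evO F (X - C (eval 0 F)))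
        = ((y k - iO F s) * evO F (X - C (eval s F))) * ((y k)⁻¹ * evO F (X - C (eval 0 F))) := by ring
    rw [h2]
    exact RingHom.IsIntegralElem.mul _ (RingHom.IsIntegralElem.mul _ h1 (P4a_int_ev F _)) h0
  have hB : ∀ k, (evO F).IsIntegralElem ((gO F s (y k))⁻¹ * evO F ((X - C (eval s F)) * (X - C (eval 0 F)))) := by
    intro k
    rw [P4a_g F s _ (P4a_ne0 F y hy k), map_mul, mul_inv, inv_inv]
    have h1 := int_inv F hF y hy k s
    have h2 : (y k - iO F s)⁻¹ * y k * (evO F (X - C (eval s F)) * evO F (X - C (eval 0 F)))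
        = ((y k - iO F s)⁻¹ * evO F (X - C (eval s F))) * (y k * evO F (X - C (eval 0 F))) := by ring
    rw [h2]
    exact RingHom.IsIntegralElem.mul _ h1 (RingHom.IsIntegralElem.mul _ (int_y F hF y hy k) (P4a_int_ev F _))
  refine ⟨∑ k, (m k).natAbs, ?_⟩
  rw [← Finset.prod_pow_eq_pow_sum, map_prod, ← Finset.prod_mul_distrib]
  refine Finset.prod_induction _ (fun z => (evO F).IsIntegralElem z)
    (fun a b ha hb => RingHom.IsIntegralElem.mul _ ha hb)
    (by rw [← map_one (evO F)]; exact P4a_int_ev F 1) ?_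
  intro k _
  rw [map_pow]
  rcases le_or_gt 0 (m k) with h | h
  · obtain ⟨j, hj⟩ := Int.eq_ofNat_of_zero_le h
    have : (m k).natAbs = j := by rw [hj]; simp
    rw [this, hj, zpow_natCast, ← mul_pow]
    exact P4a_int_pow F _ (hA k) j
  · obtain ⟨j, hj⟩ := Int.eq_ofNat_of_zero_le (neg_nonneg.2 h.le)
    have h3 : m k = -(j : ℤ) := by rw [← hj]; simp
    have : (m k).natAbs = j := by rw [h3]; simp
    rw [this, h3, zpow_neg, zpow_natCast, ← inv_pow, ← mul_pow]
    exact P4a_int_pow F _ (hB k) j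

/-- an automorphism preserves integrality over `κ[c]` -/
theorem int_sigma (F : κ[X]) (σ : GO F) (z : Om F) (hz : (evO F).IsIntegralElem z) : (evO F).IsIntegralElem (σ z) := by
  obtain ⟨P, hP, h0⟩ := hz
  refine ⟨P, hP, ?_⟩
  have h1 := congrArg σ h0
  rw [map_zero] at h1
  rw [← h1]
  have h2 : σ (eval₂ (evO F) z P) = (σ : Om F →+* Om F) (eval₂ (evO F) z P) := rfl
  rw [h2, hom_eval₂]
  have h3 : ((σ : Om F →+* Om F)).comp (evO F) = evO F := by
    ext p
    · exact P4a_sigma_evO F σ (C p)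
    · exact P4a_sigma_evO F σ X
  rw [h3]; rfl

end Pool.Agent.FCT
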