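import Pool.Agent.FCT.O8
import Pool.Agent.FCT.R2

/-! Row FCT-P4b: an element of `Ω` without zeros and poles, equal to 1 at infinity. -/

set_option autoImplicit false

namespace Pool.Agent.FCT

open Polynomial Finset

variable {κ : Type*} [Field κ]

theorem P4b_coeff {Lb : Type*} [Field Lb] [Algebra κ Lb] (e : ℕ) (he : 1 ≤ e) (P : κ[X]) (d : ℕ) :
    (eval₂ (iE κ Lb) (HahnSeries.single (e : ℤ) (1 : Lb)) P).coeff ((e * d : ℕ) : ℤ) = algebraMap κ Lb (P.coeff d) := by
  induction P using Polynomial.induction_on' with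
  | add p q hp hq => rw [Polynomial.eval₂_add, HahnSeries.coeff_add, hp, hq, Polynomial.coeff_add, map_add]
  | monomial n a =>
    rw [Polynomial.eval₂_monomial, HahnSeries.single_pow, one_pow, Polynomial.coeff_monomial]
    show ((HahnSeries.C (algebraMap κ Lb a) : LaurentSeries Lb) * HahnSeries.single (n • (e : ℤ)) (1 : Lb)).coeff _ = _
    rw [HahnSeries.C_mul_eq_smul, HahnSeries.coeff_smul]
    by_cases h : n = d
    · subst h
      have h1 : (n • (e : ℤ)) = ((e * n : ℕ) : ℤ) := by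
        push_cast
        rw [nsmul_eq_mul, mul_comm]
      rw [if_pos rfl, h1, HahnSeries.coeff_single_same, smul_eq_mul, mul_one]
    · rw [if_neg h, HahnSeries.coeff_single_of_ne, smul_zero, map_zero]
      intro h1
      apply h
      have h2 : (e : ℤ) * d = e * n := by
        rw [nsmul_eq_mul] at h1
        push_cast at h1
        rw [h1, mul_comm]
      have h3 : (e : ℤ) ≠ 0 := by
        have := he
        omega
      have h4 := mul_left_cancel₀ h3 h2
      exact_mod_cast h4.symm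

theorem P4b_Ov_prod {L : Type*} [Field L] {α : Type*} (s : Finset α) (f : α → LaurentSeries L) (h : ∀ i ∈ s, Ov 0 (f i)) :
    Ov 0 (∏ i ∈ s, f i) := by
  classical
  induction s using Finset.induction_on with
  | empty => rw [Finset.prod_empty]; exact Ov_one
  | insert a s ha ih =>
    rw [Finset.prod_insert ha]
    have h1 := Ov_mul (h a (Finset.mem_insert_self a s)) (ih fun i hi => h i (Finset.mem_insert_of_mem hi))
    rwa [add_zero] at h1

/-- `T = ∑ t_j (X - a)^j` (Taylor), so `φ(T(c)) = ∑ t_j t^(e j)`: the coefficient of `t^(e j)` is `t_j`. -/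
theorem dvd_of_Ov {Lb : Type*} [Field Lb] [Algebra κ Lb] (F : κ[X]) (φ : Om F →+* LaurentSeries Lb)
    (h1 : ∀ b : κ, φ (iO F b) = iE κ Lb b) (e : ℕ) (he : 1 ≤ e) (a : κ)
    (h2 : φ (cO F) = iE κ Lb a + HahnSeries.single (e : ℤ) (1 : Lb)) (T : κ[X]) (k : ℕ)
    (hT : Ov ((e * k : ℕ) : ℤ) (φ (evO F T))) : (X - C a) ^ k ∣ T := by
  rw [Polynomial.X_sub_C_pow_dvd_iff, Polynomial.X_pow_dvd_iff]
  intro d hd
  have h3 : φ (evO F T) = eval₂ (iE κ Lb) (HahnSeries.single (e : ℤ) (1 : Lb)) (T.comp (X + C a)) := by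
    have h4 : (φ.comp (iO F)) = iE κ Lb := RingHom.ext h1
    rw [Polynomial.eval₂_comp, Polynomial.eval₂_add, Polynomial.eval₂_X, Polynomial.eval₂_C, add_comm, ← h2]
    show φ (eval₂ (iO F) (cO F) T) = _
    rw [Polynomial.hom_eval₂, h4]
  have h5 : (φ (evO F T)).coeff ((e * d : ℕ) : ℤ) = 0 := hT _ (by
    exact_mod_cast Nat.mul_lt_mul_of_pos_left hd he)
  rw [h3, P4b_coeff e he] at h5
  exact (map_eq_zero (algebraMap κ Lb)).1 h5

/-- Proof.  `γ = ∏_σ (1 - σ z)` is fixed by all automorphisms.  `D = (X-C A)(X-C B)`, `n = card (GO F)` (finite).  `(1 - σ z) * evO (D^N)` is integral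
for all `σ`, so `γ * evO (D^(N n))` is integral and fixed: `= evO T` (`fixed_int_O`).  `φA γ` has order `≥ 0` (product of `1 - φA (σ z)`), so
`φA (evO T)` has order `≥ e_A N n` (and `≥ 2 e_A N n` if `A = B`), as `φA (c - A) = t^(e_A)`.  By `dvd_of_Ov`, `(X-A)^(N n)` resp. `(X-A)^(2 N n)` divides `T`;
same for `B`; so `D^(N n) ∣ T` (coprimality of the powers if `A ≠ B`), `T = D^(N n) T'`, `γ = evO T'`.  At infinity: `j γ = ∏ (1 - j(σ z))` has order `≥ 1`
(the group is nonempty), and `j (evO T') = evc T'`, so `T' = 0` (`eq_zero_of_Ov_evc`), `γ = 0`, some `σ z = 1`, `z = 1`. -/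
theorem eq_one_of_units [CharZero κ] {Lb L : Type*} [Field Lb] [Algebra κ Lb] [Field L] [Algebra κ L] (F : κ[X])
    (hF : 1 ≤ F.natDegree) (z : Om F) (A B : κ) (N : ℕ)
    (hint : ∀ σ : GO F, (evO F).IsIntegralElem (σ z * evO F (((X - C A) * (X - C B)) ^ N)))
    (φA : Om F →+* LaurentSeries Lb) (hA1 : ∀ b : κ, φA (iO F b) = iE κ Lb b) (eA : ℕ) (heA : 1 ≤ eA)
    (hA2 : φA (cO F) = iE κ Lb A + HahnSeries.single (eA : ℤ) (1 : Lb)) (hA : ∀ σ : GO F, Ov 0 (φA (σ z)))
    (φB : Om F →+* LaurentSeries Lb) (hB1 : ∀ b : κ, φB (iO F b) = iE κ Lb b) (eB : ℕ) (heB : 1 ≤ eB)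
    (hB2 : φB (cO F) = iE κ Lb B + HahnSeries.single (eB : ℤ) (1 : Lb)) (hB : ∀ σ : GO F, Ov 0 (φB (σ z)))
    (j : Om F →+* LaurentSeries L) (hj1 : ∀ b : κ, j (iO F b) = iE κ L b) (hj2 : j (cO F) = cE L F.natDegree)
    (hinf : ∀ σ : GO F, Ov 1 (1 - j (σ z))) : z = 1 := by
  classical
  have : Fintype (GO F) := Fintype.ofFinite _
  obtain ⟨γ, hγ⟩ : ∃ γ : Om F, γ = ∏ σ : GO F, (1 - σ z) := ⟨_, rfl⟩
  obtain ⟨D, hD⟩ : ∃ D : κ[X], D = (X - C A) * (X - C B) := ⟨_, rfl⟩
  obtain ⟨n, hn⟩ : ∃ n : ℕ, n = Fintype.card (GO F) := ⟨_, rfl⟩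
  have hD0 : D ≠ 0 := by
    rw [hD]
    exact mul_ne_zero (Polynomial.X_sub_C_ne_zero A) (Polynomial.X_sub_C_ne_zero B)
  rw [← hD] at hint
  have hfix : ∀ τ : GO F, τ γ = γ := by
    intro τ
    rw [hγ, map_prod]
    refine Fintype.prod_equiv (Equiv.mulLeft τ) _ _ fun σ => ?_
    rw [map_sub, map_one]
    rfl
  have hprod : γ * evO F (D ^ (N * n)) = ∏ σ : GO F, ((1 - σ z) * evO F (D ^ N)) := by
    rw [Finset.prod_mul_distrib, ← hγ, Finset.prod_const, Finset.card_univ, ← hn, ← map_pow, ← pow_mul]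
  have hI : (evO F).IsIntegralElem (γ * evO F (D ^ (N * n))) := by
    rw [hprod]
    have h1 : ∀ s : Finset (GO F), (evO F).IsIntegralElem (∏ σ ∈ s, ((1 - σ z) * evO F (D ^ N))) := by
      intro s
      induction s using Finset.induction_on with
      | empty => rw [Finset.prod_empty]; exact (evO F).isIntegralElem_one
      | insert a s ha ih =>
        rw [Finset.prod_insert ha]
        refine RingHom.IsIntegralElem.mul _ ?_ ih
        rw [sub_mul, one_mul]
        exact RingHom.IsIntegralElem.sub _ (evO F).isIntegralElem_map (hint a)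
    exact h1 _
  obtain ⟨T, hT⟩ := fixed_int_O F _ (fun σ => by rw [map_mul, hfix, sigma_evO]) hI
  -- a place over `a ∈ {A, B}`
  have hplace : ∀ (φ : Om F →+* LaurentSeries Lb) (a b : κ) (e : ℕ), D = (X - C a) * (X - C b) → 1 ≤ e →
      (∀ b : κ, φ (iO F b) = iE κ Lb b) → φ (cO F) = iE κ Lb a + HahnSeries.single (e : ℤ) (1 : Lb) →
      (∀ σ : GO F, Ov 0 (φ (σ z))) → (X - C a) ^ ((if a = b then 2 else 1) * (N * n)) ∣ T := by
    intro φ a b e hDab he h1 h2 h3
    apply dvd_of_Ov F φ h1 e he a h2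
    have hg : Ov 0 (φ γ) := by
      rw [hγ, map_prod]
      apply P4b_Ov_prod
      intro σ _
      rw [map_sub, map_one]
      exact Ov_sub Ov_one (h3 σ)
    have hev : ∀ x : κ, φ (evO F (X - C x)) = φ (cO F) - iE κ Lb x := by
      intro x
      have h4 : evO F (X - C x) = cO F - iO F x := by
        show eval₂ (iO F) (cO F) (X - C x) = _
        rw [Polynomial.eval₂_sub, Polynomial.eval₂_X, Polynomial.eval₂_C]
      rw [h4, map_sub, h1]
    have ha : Ov (e : ℤ) (φ (evO F (X - C a))) := by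
      rw [hev, h2, add_sub_cancel_left]
      exact Ov_single _ _
    have hb : Ov 0 (φ (evO F (X - C b))) := by
      rw [hev, h2]
      refine Ov_sub (Ov_add (Ov_C _) (Ov_mono ?_ (Ov_single _ _))) (Ov_C _)
      exact Int.natCast_nonneg e
    have hDo : Ov (((e * (if a = b then 2 else 1) : ℕ)) : ℤ) (φ (evO F D)) := by
      rw [hDab, map_mul, map_mul]
      by_cases hab : a = b
      · rw [if_pos hab]
        rw [← hab]
        have h5 := Ov_mul ha ha
        have h6 : ((e * 2 : ℕ) : ℤ) = (e : ℤ) + e := by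
          push_cast
          ring
        rw [h6]
        exact h5
      · rw [if_neg hab, mul_one]
        have h5 := Ov_mul ha hb
        rwa [add_zero] at h5
    rw [← hT, map_mul, map_pow, map_pow]
    have h7 := Ov_mul hg (Ov_pow hDo (N * n))
    rw [zero_add] at h7
    have h8 : ((e * ((if a = b then 2 else 1) * (N * n)) : ℕ) : ℤ) =
        ((N * n : ℕ) : ℤ) * ((e * (if a = b then 2 else 1) : ℕ) : ℤ) := by
      push_cast
      ring
    rw [h8]
    exact h7
  have hTA := hplace φA A B eA hD heA hA1 hA2 hA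
  have hTB := hplace φB B A eB (by rw [hD, mul_comm]) heB hB1 hB2 hB
  have hDT : D ^ (N * n) ∣ T := by
    by_cases hAB : A = B
    · rw [if_pos hAB] at hTA
      rw [hD, ← hAB, ← pow_two, ← pow_mul]
      exact hTA
    · rw [if_neg hAB, one_mul] at hTA
      rw [if_neg (fun h => hAB h.symm), one_mul] at hTB
      rw [hD, mul_pow]
      exact IsCoprime.mul_dvd ((Polynomial.isCoprime_X_sub_C_of_isUnit_sub (sub_ne_zero.2 hAB).isUnit).pow) hTA hTB
  obtain ⟨T', hT'⟩ := hDT
  have hev0 : evO F (D ^ (N * n)) ≠ 0 := by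
    intro h
    exact pow_ne_zero _ hD0 (evO_injective F (by rw [h, map_zero]))
  have hγT : γ = evO F T' := by
    apply mul_right_cancel₀ hev0
    rw [hT, hT', map_mul, mul_comm]
  have hjγ : Ov 1 (j γ) := by
    rw [hγ, ← Finset.mul_prod_erase Finset.univ (fun σ : GO F => 1 - σ z) (Finset.mem_univ 1), map_mul, map_prod]
    have h1 : ∀ σ : GO F, Ov 1 (j (1 - σ z)) := by
      intro σ
      rw [map_sub, map_one]
      exact hinf σ
    have h2 := Ov_mul (h1 1) (P4b_Ov_prod (Finset.univ.erase (1 : GO F)) (fun σ => j (1 - σ z))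
      fun σ _ => Ov_mono (by norm_num) (h1 σ))
    rwa [add_zero] at h2
  have hjT : j (evO F T') = evc κ L F.natDegree T' := by
    have h4 : (j.comp (iO F)) = iE κ L := RingHom.ext hj1
    show j (eval₂ (iO F) (cO F) T') = eval₂ (iE κ L) (cE L F.natDegree) T'
    rw [Polynomial.hom_eval₂, h4, hj2]
  rw [hγT, hjT] at hjγ
  have hT0 := eq_zero_of_Ov_evc F.natDegree hF T' hjγ
  rw [hT0, map_zero, hγ] at hγT
  obtain ⟨σ, -, hσ⟩ := Finset.prod_eq_zero_iff.1 hγT
  have h1 : σ z = 1 := (sub_eq_zero.1 hσ).symm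
  exact σ.injective (by rw [h1, map_one])

end Pool.Agent.FCT
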