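import Mathlib

/-! Row FCT-P5: rational linear algebra. -/

set_option autoImplicit false

namespace Pool.Agent.FCT

open Finset

/-- Proof.  The `ℚ`-span of the finitely many `w i` in `R` is finite dimensional; take a basis. -/
theorem qbasis {R : Type*} [Field R] [CharZero R] {ι : Type*} [Fintype ι] (w : ι → R) :
    ∃ (r : ℕ) (b : Fin r → R) (q : ι → Fin r → ℚ), LinearIndependent ℚ b ∧ ∀ i, w i = ∑ k, (q i k : R) * b k := by
  obtain ⟨S, hS⟩ : ∃ S : Submodule ℚ R, S = Submodule.span ℚ (Set.range w) := ⟨_, rfl⟩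
  have hfin : FiniteDimensional ℚ S := by
    rw [hS]
    exact FiniteDimensional.span_of_finite ℚ (Set.finite_range w)
  have hw : ∀ i, w i ∈ S := fun i => by
    rw [hS]
    exact Submodule.subset_span ⟨i, rfl⟩
  refine ⟨Module.finrank ℚ S, fun k => ((Module.finBasis ℚ S k : S) : R),
    fun i k => (Module.finBasis ℚ S).repr ⟨w i, hw i⟩ k, ?_, ?_⟩
  · exact (Module.finBasis ℚ S).linearIndependent.map' S.subtype (Submodule.ker_subtype S)
  · intro i
    have h1 := (Module.finBasis ℚ S).sum_repr ⟨w i, hw i⟩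
    have h2 := congrArg (S.subtype) h1
    rw [map_sum] at h2
    simp only [Submodule.subtype_apply, Submodule.coe_smul] at h2
    rw [← h2]
    exact Finset.sum_congr rfl fun k _ => Rat.smul_def _ _

theorem P5_li {R : Type*} [Field R] [CharZero R] {r : ℕ} {b : Fin r → R} (hb : LinearIndependent ℚ b) (c : Fin r → ℚ)
    (h : ∑ k, (c k : R) * b k = 0) (k : Fin r) : c k = 0 := by
  refine (Fintype.linearIndependent_iff.1 hb) c ?_ k
  rw [← h]
  exact Finset.sum_congr rfl fun k _ => Rat.smul_def _ _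

theorem P5_comb {R : Type*} [Field R] [CharZero R] {ι : Type*} [Fintype ι] {r : ℕ} (b : Fin r → R) (q : ι → Fin r → ℚ)
    (n : ι → ℤ) : ∑ i, (n i : R) * ∑ k, (q i k : R) * b k = ∑ k, ((∑ i, (n i : ℚ) * q i k : ℚ) : R) * b k := by
  simp only [Finset.mul_sum]
  rw [Finset.sum_comm]
  refine Finset.sum_congr rfl fun k _ => ?_
  push_cast
  rw [Finset.sum_mul]
  exact Finset.sum_congr rfl fun i _ => by ring

theorem P5_denom {ι : Type*} [Fintype ι] (q : ι → ℚ) : ∃ (D : ℕ) (m : ι → ℤ), D ≠ 0 ∧ ∀ i, (m i : ℚ) = D * q i := by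
  classical
  refine ⟨∏ i, (q i).den, fun i => (∏ j ∈ Finset.univ.erase i, ((q j).den : ℤ)) * (q i).num,
    Finset.prod_ne_zero_iff.2 fun i _ => (q i).den_nz, fun i => ?_⟩
  rw [← Finset.mul_prod_erase Finset.univ (fun j => (q j).den) (Finset.mem_univ i)]
  push_cast
  have h1 : ((q i).num : ℚ) = (q i).den * q i := by
    rw [mul_comm]
    exact (Rat.mul_den_eq_num (q i)).symm
  rw [h1]
  ring

/-- Proof.  `w i = ∑_k q_{ik} b_k` (`qbasis`).  For `n ∈ 𝒩`: `0 = ∑_i n_i w_i = ∑_k (∑_i n_i q_{ik}) b_k`, so `∑_i n_i q_{ik} = 0` for all `k`.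
Multiply the column `q_{·k}` by a common denominator `D_k ≥ 1` to get `m ∈ ℤ^ι`, `hΛ` gives `∑ m_i ℓ_i = 0`, so `∑_i q_{ik} ℓ_i = 0`; sum over `k` with
`b_k`. -/
theorem lin_comb {R : Type*} [Field R] [CharZero R] {ι : Type*} [Fintype ι] (𝒩 : Set (ι → ℤ)) (l : ι → R)
    (hΛ : ∀ m : ι → ℤ, (∀ n ∈ 𝒩, ∑ i, n i * m i = 0) → ∑ i, (m i : R) * l i = 0)
    (w : ι → R) (hw : ∀ n ∈ 𝒩, ∑ i, (n i : R) * w i = 0) : ∑ i, w i * l i = 0 := by
  obtain ⟨r, b, q, hb, hq⟩ := qbasis w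
  have h1 : ∀ k, ∑ i, ((q i k : ℚ) : R) * l i = 0 := by
    intro k
    obtain ⟨D, m, hD, hm⟩ := P5_denom fun i => q i k
    have h2 : ∀ n ∈ 𝒩, ∑ i, n i * m i = 0 := by
      intro n hn
      have h3 := hw n hn
      have h4 : ∑ i, (n i : R) * w i = ∑ i, (n i : R) * ∑ k, (q i k : R) * b k :=
        Finset.sum_congr rfl fun i _ => by rw [← hq i]
      rw [h4, P5_comb] at h3
      have h5 := P5_li hb _ h3 k
      have h6 : ((∑ i, n i * m i : ℤ) : ℚ) = D * ∑ i, (n i : ℚ) * q i k := by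
        push_cast
        rw [Finset.mul_sum]
        exact Finset.sum_congr rfl fun i _ => by rw [hm i]; ring
      rw [h5, mul_zero] at h6
      exact_mod_cast h6
    have h3 := hΛ m h2
    have h4 : ∑ i, (m i : R) * l i = (D : R) * ∑ i, ((q i k : ℚ) : R) * l i := by
      rw [Finset.mul_sum]
      refine Finset.sum_congr rfl fun i _ => ?_
      have h5 : ((m i : ℤ) : R) = ((m i : ℚ) : R) := by norm_cast
      rw [h5, hm i]
      push_cast
      ring
    rw [h4] at h3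
    exact (mul_eq_zero.1 h3).resolve_left (Nat.cast_ne_zero.2 hD)
  have h2 : ∑ i, w i * l i = ∑ k, b k * ∑ i, ((q i k : ℚ) : R) * l i := by
    simp only [Finset.mul_sum]
    rw [Finset.sum_comm]
    refine Finset.sum_congr rfl fun i _ => ?_
    rw [hq i, Finset.sum_mul]
    exact Finset.sum_congr rfl fun k _ => by ring
  rw [h2]
  exact Finset.sum_eq_zero fun k _ => by rw [h1 k, mul_zero]

/-- Proof.  `w i = ∑_k q_{ik} b_k` (`qbasis`).  The hypothesis gives for each `k`: `∑_j (∑_g n g i * n g j) q_{jk} = 0` for all `i`; multiply by `q_{ik}` and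
sum over `i`: `∑_g (∑_i n g i q_{ik})^2 = 0` in `ℚ`, so `∑_i n g i q_{ik} = 0` for all `g`. -/
theorem ker_T {R : Type*} [Field R] [CharZero R] {ι G : Type*} [Fintype ι] [Fintype G] (n : G → ι → ℤ) (w : ι → R)
    (h : ∀ i, ∑ j, ((∑ g, n g i * n g j : ℤ) : R) * w j = 0) (g : G) : ∑ i, (n g i : R) * w i = 0 := by
  obtain ⟨r, b, q, hb, hq⟩ := qbasis w
  have h1 : ∀ (c : ι → ℤ), ∑ i, (c i : R) * w i = ∑ k, ((∑ i, (c i : ℚ) * q i k : ℚ) : R) * b k := by
    intro c
    rw [← P5_comb]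
    exact Finset.sum_congr rfl fun i _ => by rw [← hq i]
  have h2 : ∀ k i, ∑ j, ((∑ g, n g i * n g j : ℤ) : ℚ) * q j k = 0 := by
    intro k i
    have h3 := h i
    rw [h1 (fun j => ∑ g, n g i * n g j)] at h3
    exact P5_li hb _ h3 k
  have h3 : ∀ k, ∑ g, (∑ i, (n g i : ℚ) * q i k) ^ 2 = 0 := by
    intro k
    have h4 : ∑ g, (∑ i, (n g i : ℚ) * q i k) ^ 2 = ∑ i, q i k * ∑ j, ((∑ g, n g i * n g j : ℤ) : ℚ) * q j k := by
      push_cast
      have e1 : ∀ g, (∑ i, (n g i : ℚ) * q i k) ^ 2 = ∑ i, ∑ j, ((n g i : ℚ) * q i k) * ((n g j : ℚ) * q j k) := by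
        intro g
        rw [sq, Finset.sum_mul_sum]
      simp only [e1, Finset.mul_sum, Finset.sum_mul]
      rw [Finset.sum_comm]
      refine Finset.sum_congr rfl fun i _ => ?_
      rw [Finset.sum_comm]
      refine Finset.sum_congr rfl fun j _ => ?_
      exact Finset.sum_congr rfl fun g _ => by ring
    rw [h4]
    exact Finset.sum_eq_zero fun i _ => by rw [h2 k i, mul_zero]
  rw [h1]
  refine Finset.sum_eq_zero fun k _ => ?_
  have h4 := (Finset.sum_eq_zero_iff_of_nonneg fun g _ => sq_nonneg (∑ i, (n g i : ℚ) * q i k)).1 (h3 k) g (Finset.mem_univ g)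
  rw [pow_eq_zero_iff (by norm_num : (2 : ℕ) ≠ 0)] at h4
  rw [h4, Rat.cast_zero, zero_mul]

end Pool.Agent.FCT
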