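import Pool.Agent.FCT.P4a
import Pool.Agent.FCT.P4b
import Pool.Agent.FCT.P5
import Pool.Agent.FCT.Lg2

/-! Row FCT-P4c: product of units -/

set_option autoImplicit false

namespace Pool.Agent.FCT

open Polynomial Finset
variable {κ : Type*} [Field κ]

/-- the order vectors `n_i = ord φ(σ g_i)` for a given place `φ` -/
noncomputable def NN {Lb : Type*} [Field Lb] (F : κ[X]) (s : κ) (y : Fin F.natDegree → Om F)
    (φ : Om F →+* LaurentSeries Lb) : Set (Fin F.natDegree → ℤ) :=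
  {n | ∃ σ : GO F, n = fun i => (φ (σ (gO F s (y i)))).order}

/-- exact order -/
def P4c_Ex {L : Type*} [Field L] (N : ℤ) (z : LaurentSeries L) : Prop := Ov N z ∧ z.coeff N ≠ 0

theorem P4c_mul {L : Type*} [Field L] {N M : ℤ} {z w : LaurentSeries L} (hz : P4c_Ex N z) (hw : P4c_Ex M w) :
    P4c_Ex (N + M) (z * w) := by
  refine ⟨Ov_mul hz.1 hw.1, ?_⟩
  rw [coeff_mul_lead hz.1 hw.1]
  exact mul_ne_zero hz.2 hw.2

theorem P4c_inv {L : Type*} [Field L] {N : ℤ} {z : LaurentSeries L} (hz : P4c_Ex N z) : P4c_Ex (-N) z⁻¹ := by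
  obtain ⟨h1, h2⟩ := Ov_inv hz.1 hz.2
  refine ⟨h1, ?_⟩
  rw [h2]
  exact inv_ne_zero hz.2

theorem P4c_one {L : Type*} [Field L] : P4c_Ex 0 (1 : LaurentSeries L) := by
  refine ⟨Ov_one, ?_⟩
  rw [HahnSeries.coeff_one, if_pos rfl]
  exact one_ne_zero

theorem P4c_pow {L : Type*} [Field L] {N : ℤ} {z : LaurentSeries L} (hz : P4c_Ex N z) (n : ℕ) :
    P4c_Ex (N * n) (z ^ n) := by
  induction n with
  | zero =>
    rw [pow_zero, Nat.cast_zero, mul_zero]
    exact P4c_one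
  | succ n ih =>
    have h := P4c_mul ih hz
    rw [← pow_succ] at h
    have e : N * ((n + 1 : ℕ) : ℤ) = N * n + N := by push_cast; ring
    rw [e]
    exact h

theorem P4c_zpow {L : Type*} [Field L] {N : ℤ} {z : LaurentSeries L} (hz : P4c_Ex N z) (n : ℤ) :
    P4c_Ex (N * n) (z ^ n) := by
  obtain ⟨k, rfl | rfl⟩ := n.eq_nat_or_neg
  · rw [zpow_natCast]
    exact P4c_pow hz k
  · rw [zpow_neg, zpow_natCast, mul_neg]
    exact P4c_inv (P4c_pow hz k)

theorem P4c_prod {L : Type*} [Field L] {ι : Type*} (s : Finset ι) {N : ι → ℤ} {z : ι → LaurentSeries L}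
    (h : ∀ i ∈ s, P4c_Ex (N i) (z i)) : P4c_Ex (∑ i ∈ s, N i) (∏ i ∈ s, z i) := by
  classical
  induction s using Finset.induction_on with
  | empty =>
    rw [Finset.sum_empty, Finset.prod_empty]
    exact P4c_one
  | insert i s hi ih =>
    rw [Finset.sum_insert hi, Finset.prod_insert hi]
    exact P4c_mul (h i (Finset.mem_insert_self _ _)) (ih fun j hj => h j (Finset.mem_insert_of_mem hj))

theorem P4c_order {L : Type*} [Field L] {z : LaurentSeries L} (hz : z ≠ 0) : P4c_Ex z.order z :=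
  ⟨fun _ hn => HahnSeries.coeff_eq_zero_of_lt_order hn, fun h0 => hz (HahnSeries.coeff_order_eq_zero.1 h0)⟩

/-- the product of the values has order `0` -/
theorem P4c_val [CharZero κ] {Lb : Type*} [Field Lb] (F : κ[X]) (s : κ) (y : Fin F.natDegree → Om F)
    (hy : Roots (iO F) (cO F) F y) (φ : Om F →+* LaurentSeries Lb) (m : Fin F.natDegree → ℤ)
    (hm : ∀ n ∈ NN F s y φ, ∑ i, n i * m i = 0) (σ : GO F) : Ov 0 (φ (σ (∏ k, gO F s (y k) ^ (m k)))) := by
  have h1 := P4c_prod (Finset.univ : Finset (Fin F.natDegree))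
    (N := fun k => (φ (σ (gO F s (y k)))).order * m k) (z := fun k => (φ (σ (gO F s (y k)))) ^ (m k))
    (fun k _ => P4c_zpow (P4c_order (by
      intro h0
      have h2 : σ (gO F s (y k)) = 0 := (map_eq_zero φ).1 h0
      exact gO_ne_zero F s y hy k ((map_eq_zero σ).1 h2))) (m k))
  have h2 := hm (fun i => (φ (σ (gO F s (y i)))).order) ⟨σ, rfl⟩
  have e : φ (σ (∏ k, gO F s (y k) ^ (m k))) = ∏ k, (φ (σ (gO F s (y k)))) ^ (m k) := by
    rw [map_prod, map_prod]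
    refine Finset.prod_congr rfl fun k _ => ?_
    rw [map_zpow₀, map_zpow₀]
  rw [e]
  have h3 : Ov (∑ k, (φ (σ (gO F s (y k)))).order * m k) (∏ k, (φ (σ (gO F s (y k)))) ^ (m k)) := h1.1
  have h4 : ∑ k, (φ (σ (gO F s (y k)))).order * m k = 0 := h2
  rw [h4] at h3
  exact h3

theorem P4c_u_mul {L : Type*} [Field L] {z w : LaurentSeries L} (hz : Ov 1 (1 - z)) (hw : Ov 1 (1 - w)) :
    Ov 1 (1 - z * w) := by
  have hz0 : Ov 0 z := by
    have h := Ov_sub (Ov_one (L := L)) (Ov_mono (by norm_num : (0 : ℤ) ≤ 1) hz)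
    rwa [sub_sub_cancel] at h
  have h1 := Ov_mul hz0 hw
  rw [zero_add] at h1
  have h2 := Ov_add hz h1
  have e : 1 - z + z * (1 - w) = 1 - z * w := by ring
  rwa [e] at h2

theorem P4c_u_ex {L : Type*} [Field L] {z : LaurentSeries L} (hz : Ov 1 (1 - z)) : P4c_Ex 0 z := by
  have hz0 : Ov 0 z := by
    have h := Ov_sub (Ov_one (L := L)) (Ov_mono (by norm_num : (0 : ℤ) ≤ 1) hz)
    rwa [sub_sub_cancel] at h
  refine ⟨hz0, ?_⟩
  have h1 := hz 0 (by norm_num)
  rw [HahnSeries.coeff_sub, HahnSeries.coeff_one, if_pos rfl] at h1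
  have h2 : z.coeff 0 = 1 := (sub_eq_zero.1 h1).symm
  rw [h2]
  exact one_ne_zero

theorem P4c_u_inv {L : Type*} [Field L] {z : LaurentSeries L} (hz : Ov 1 (1 - z)) : Ov 1 (1 - z⁻¹) := by
  have h1 := P4c_u_ex hz
  have h2 := P4c_inv h1
  rw [neg_zero] at h2
  have hz0 : z ≠ 0 := by
    rintro rfl
    exact h1.2 (by simp)
  have h3 := Ov_mul hz h2.1
  rw [add_zero] at h3
  have h4 := Ov_neg h3
  have e : -((1 - z) * z⁻¹) = 1 - z⁻¹ := by
    rw [sub_mul, one_mul, mul_inv_cancel₀ hz0]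
    ring
  rwa [e] at h4

theorem P4c_u_one {L : Type*} [Field L] : Ov 1 (1 - (1 : LaurentSeries L)) := by
  rw [sub_self]
  exact Ov_zero 1

theorem P4c_u_pow {L : Type*} [Field L] {z : LaurentSeries L} (hz : Ov 1 (1 - z)) (n : ℕ) : Ov 1 (1 - z ^ n) := by
  induction n with
  | zero =>
    rw [pow_zero]
    exact P4c_u_one
  | succ n ih =>
    rw [pow_succ]
    exact P4c_u_mul ih hz

theorem P4c_u_zpow {L : Type*} [Field L] {z : LaurentSeries L} (hz : Ov 1 (1 - z)) (n : ℤ) : Ov 1 (1 - z ^ n) := by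
  obtain ⟨k, rfl | rfl⟩ := n.eq_nat_or_neg
  · rw [zpow_natCast]
    exact P4c_u_pow hz k
  · rw [zpow_neg, zpow_natCast]
    exact P4c_u_inv (P4c_u_pow hz k)

theorem P4c_u_prod {L : Type*} [Field L] {ι : Type*} (s : Finset ι) {z : ι → LaurentSeries L}
    (h : ∀ i ∈ s, Ov 1 (1 - z i)) : Ov 1 (1 - ∏ i ∈ s, z i) := by
  classical
  induction s using Finset.induction_on with
  | empty =>
    rw [Finset.prod_empty]
    exact P4c_u_one
  | insert i s hi ih =>
    rw [Finset.prod_insert hi]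
    exact P4c_u_mul (h i (Finset.mem_insert_self _ _)) (ih fun j hj => h j (Finset.mem_insert_of_mem hj))

/-- the units are `≡ 1` at infinity -/
theorem P4c_inf [CharZero κ] {L : Type*} [Field L] [Algebra κ L] (F : κ[X])
    (hF : 1 ≤ F.natDegree) (s : κ) (y : Fin F.natDegree → Om F) (hy : Roots (iO F) (cO F) F y)
    (j : Om F →+* LaurentSeries L) (hj1 : ∀ b : κ, j (iO F b) = iE κ L b) (hj2 : j (cO F) = cE L F.natDegree)
    (σ : GO F) (k : Fin F.natDegree) : Ov 1 (1 - j (σ (gO F s (y k)))) := by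
  have h1 := Roots_eval F (iO F) (cO F) y hy k
  have hroot : eval₂ (iE κ L) (j (σ (y k))) F = cE L F.natDegree := by
    have h2 : j (σ (eval₂ (iO F) (y k) F)) = cE L F.natDegree := by
      rw [h1]
      have h3 : σ (cO F) = cO F := σ.commutes _
      rw [h3, hj2]
    rw [← h2]
    have h4 : (σ : Om F →+* Om F) (eval₂ (iO F) (y k) F) = eval₂ ((σ : Om F →+* Om F).comp (iO F)) (σ (y k)) F :=
      hom_eval₂ F (iO F) (σ : Om F →+* Om F) (y k)
    have h5 : σ (eval₂ (iO F) (y k) F) = eval₂ (iO F) (σ (y k)) F := by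
      have e : (σ : Om F →+* Om F).comp (iO F) = iO F := by
        ext b
        exact sigma_iO F σ b
      rw [e] at h4
      exact h4
    rw [h5, hom_eval₂]
    have e2 : j.comp (iO F) = iE κ L := by
      ext b : 1
      exact hj1 b
    rw [e2]
  obtain ⟨h6, h7⟩ := order_root F hF _ hroot
  obtain ⟨h8, -⟩ := Ov_inv h6 h7
  rw [neg_neg] at h8
  rw [sigma_gO]
  unfold gO
  rw [map_sub, map_one, map_mul, hj1, map_inv₀, sub_sub_cancel]
  have h9 : Ov 0 (iE κ L s) := Ov_C _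
  have h10 := Ov_mul h9 h8
  rwa [zero_add] at h10

/-- Proof.  `z = ∏ g_k^(m_k)`.  `σ z = ∏ (σ g_k)^(m_k)`, `φA (σ z)` has order `∑ m_k ord(φA (σ g_k)) = 0`.  Integrality: `int_prod`, `int_sigma`
(`evO` is fixed by `σ`: `sigma_evO`).  At infinity: `j (σ g_k) = 1 - iE s * (j (σ y_k))⁻¹` and `σ y_k` is a root of `F(Y) = c`, so `j (σ y_k)` has exact
order `-1` (`order_root`), `j (σ g_k) ∈ 1 + x L⟦x⟧`, and so is the product of integer powers.  `eq_one_of_units`. -/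
theorem prod_eq_one [CharZero κ] {Lb L : Type*} [Field Lb] [Algebra κ Lb] [Field L] [Algebra κ L] (F : κ[X])
    (hF : 1 ≤ F.natDegree) (s : κ) (y : Fin F.natDegree → Om F) (hy : Roots (iO F) (cO F) F y)
    (φA : Om F →+* LaurentSeries Lb) (hA1 : ∀ b : κ, φA (iO F b) = iE κ Lb b) (eA : ℕ) (heA : 1 ≤ eA)
    (hA2 : φA (cO F) = iE κ Lb (eval s F) + HahnSeries.single (eA : ℤ) (1 : Lb))
    (φB : Om F →+* LaurentSeries Lb) (hB1 : ∀ b : κ, φB (iO F b) = iE κ Lb b) (eB : ℕ) (heB : 1 ≤ eB)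
    (hB2 : φB (cO F) = iE κ Lb (eval 0 F) + HahnSeries.single (eB : ℤ) (1 : Lb))
    (j : Om F →+* LaurentSeries L) (hj1 : ∀ b : κ, j (iO F b) = iE κ L b) (hj2 : j (cO F) = cE L F.natDegree)
    (m : Fin F.natDegree → ℤ) (hm : ∀ n ∈ NN F s y φA ∪ NN F s y φB, ∑ i, n i * m i = 0) :
    ∏ k, gO F s (y k) ^ (m k) = 1 := by
  obtain ⟨N, hN⟩ := int_prod F hF s y hy m
  refine eq_one_of_units F hF _ (eval s F) (eval 0 F) N ?_ φA hA1 eA heA hA2 ?_ φB hB1 eB heB hB2 ?_ j hj1 hj2 ?_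
  · intro σ
    have h := int_sigma F σ _ hN
    rwa [map_mul, sigma_evO] at h
  · intro σ
    exact P4c_val F s y hy φA m (fun n hn => hm n (Or.inl hn)) σ
  · intro σ
    exact P4c_val F s y hy φB m (fun n hn => hm n (Or.inr hn)) σ
  · intro σ
    have e : j (σ (∏ k, gO F s (y k) ^ (m k))) = ∏ k, (j (σ (gO F s (y k)))) ^ (m k) := by
      rw [map_prod, map_prod]
      refine Finset.prod_congr rfl fun k _ => ?_
      rw [map_zpow₀, map_zpow₀]
    rw [e]
    exact P4c_u_prod _ fun k _ => P4c_u_zpow (P4c_inf F hF s y hy j hj1 hj2 σ k) (m k)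

end Pool.Agent.FCT
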