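import Pool.Agent.FCT.R2

/-! Row FCT-R4: the coefficientwise derivation of `L((x))` induced by a derivation of `L`. -/

set_option autoImplicit false

namespace Pool.Agent.FCT

open Polynomial Finset

variable {κ L : Type*} [Field κ] [Field L] [Algebra κ L]

theorem R4_mk {A : Type*} [CommRing A] [alg : Algebra ℤ A] (F : A →+ A) (hF : ∀ z w, F (z * w) = z * F w + w * F z)
    (mod : Module ℤ A) : ∃ d : @Derivation ℤ A A _ _ _ alg _ mod, ∀ z, d z = F z := by
  have h1 : alg = Ring.toIntAlgebra A := Subsingleton.elim _ _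
  have h2 : mod = AddCommGroup.toIntModule A := Subsingleton.elim _ _
  subst h1 h2
  exact ⟨Derivation.mk' F.toIntLinearMap hF, fun z => rfl⟩

theorem exists_dD (δ : Derivation ℤ L L) :
    ∃ d : Derivation ℤ (LaurentSeries L) (LaurentSeries L), ∀ z n, (d z).coeff n = δ (z.coeff n) := by
  let f : LaurentSeries L → LaurentSeries L := fun z =>
    ⟨fun n => δ (z.coeff n), z.isPWO_support.mono (fun n hn => by
      rw [Function.mem_support] at hn
      rw [HahnSeries.mem_support]
      intro h
      exact hn (by rw [h, map_zero]))⟩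
  have hf : ∀ z n, (f z).coeff n = δ (z.coeff n) := fun z n => rfl
  have hs : ∀ z, (f z).support ⊆ z.support := by
    intro z n hn
    rw [HahnSeries.mem_support] at hn ⊢
    intro h
    exact hn (by rw [hf, h, map_zero])
  let F : LaurentSeries L →+ LaurentSeries L :=
    { toFun := f
      map_zero' := by
        ext n
        rw [hf, HahnSeries.coeff_zero, map_zero]
      map_add' := fun z w => by
        ext n
        rw [HahnSeries.coeff_add, hf, hf, hf, HahnSeries.coeff_add, map_add] }
  have hF : ∀ z w, F (z * w) = z * F w + w * F z := by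
    intro z w
    change f (z * w) = z * f w + w * f z
    ext n
    rw [HahnSeries.coeff_add, hf, mul_comm w (f z), HahnSeries.coeff_mul,
      HahnSeries.coeff_mul_right' w.isPWO_support (hs w), HahnSeries.coeff_mul_left' z.isPWO_support (hs z), map_sum,
      ← Finset.sum_add_distrib]
    refine Finset.sum_congr rfl fun ij hij => ?_
    rw [Derivation.leibniz, hf, hf, smul_eq_mul, smul_eq_mul, mul_comm (w.coeff ij.2)]
  obtain ⟨d, hd⟩ := R4_mk F hF (AddCommGroup.toIntModule _)
  refine ⟨d, fun z n => ?_⟩
  rw [hd]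
  rfl

/-- coefficientwise derivation -/
noncomputable def dD (δ : Derivation ℤ L L) : Derivation ℤ (LaurentSeries L) (LaurentSeries L) :=
  (exists_dD δ).choose

theorem coeff_dD (δ : Derivation ℤ L L) (z : LaurentSeries L) (n : ℤ) : (dD δ z).coeff n = δ (z.coeff n) :=
  (exists_dD δ).choose_spec z n

theorem R4_single (δ : Derivation ℤ L L) (n : ℤ) (a : L) :
    dD δ (HahnSeries.single n a) = HahnSeries.single n (δ a) := by
  ext m
  rw [coeff_dD]
  by_cases h : m = n
  · subst h
    rw [HahnSeries.coeff_single_same, HahnSeries.coeff_single_same]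
  · rw [HahnSeries.coeff_single_of_ne h, HahnSeries.coeff_single_of_ne h, map_zero]

theorem dD_iE (δ : Derivation ℤ L L) (δ0 : Derivation ℤ κ κ)
    (hδ : ∀ a : κ, δ (algebraMap κ L a) = algebraMap κ L (δ0 a)) (a : κ) :
    dD δ (iE κ L a) = iE κ L (δ0 a) := by
  rw [iE, RingHom.comp_apply, RingHom.comp_apply, HahnSeries.C_apply, HahnSeries.C_apply, R4_single, hδ]

theorem dD_cE (δ : Derivation ℤ L L) (E : ℕ) : dD δ (cE L E) = 0 := by
  rw [cE, R4_single, Derivation.map_one_eq_zero, map_zero]

theorem dD_evc (δ : Derivation ℤ L L) (δ0 : Derivation ℤ κ κ)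
    (hδ : ∀ a : κ, δ (algebraMap κ L a) = algebraMap κ L (δ0 a)) (E : ℕ) (P : κ[X]) :
    dD δ (evc κ L E P) = evc κ L E (dmap δ0 P) := by
  have hmon : ∀ (n : ℕ) (a : κ), dmap δ0 (monomial n a) = monomial n (δ0 a) := by
    intro n a
    ext i
    rw [dmap_coeff, coeff_monomial, coeff_monomial]
    split_ifs
    · rfl
    · rw [map_zero]
  induction P using Polynomial.induction_on' with
  | add p q hp hq => rw [map_add, map_add, hp, hq, map_add, map_add]
  | monomial n a =>
    have h1 : ∀ b : κ, evc κ L E (monomial n b) = iE κ L b * cE L E ^ n := fun b => by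
      rw [← C_mul_X_pow_eq_monomial, map_mul, map_pow, evc_C, evc_X]
    rw [hmon, h1, h1, Derivation.leibniz, dD_iE δ δ0 hδ, Derivation.leibniz_pow, dD_cE, smul_zero, smul_zero, smul_zero,
      zero_add, smul_eq_mul, mul_comm]

theorem Ov_dD (δ : Derivation ℤ L L) {N : ℤ} {z : LaurentSeries L} (hz : Ov N z) : Ov N (dD δ z) := by
  intro n hn
  rw [coeff_dD, hz n hn, map_zero]

end Pool.Agent.FCT
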