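import Pool.Agent.FCT.O8
import Pool.Agent.FCT.H3
import Pool.Agent.FCT.P2
import Pool.Agent.FCT.R3
import Pool.Agent.FCT.R4

/-! Row FCT-Q1: the embeddings of `Ω` at infinity and at finite places. -/

set_option autoImplicit false

namespace Pool.Agent.FCT

open Polynomial Finset

/-- A derivation for one `ℤ`-algebra structure is a derivation for any other. -/
theorem Q1_cast {R : Type*} [CommRing R] (i1 i2 : Algebra ℤ R) (m1 m2 : Module ℤ R)
    (D : @Derivation ℤ R R _ _ _ i1 _ m1) : ∃ D' : @Derivation ℤ R R _ _ _ i2 _ m2, ∀ z, D' z = D z := by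
  have h : i1 = i2 := Subsingleton.elim _ _
  have h' : m1 = m2 := Subsingleton.elim _ _
  subst h h'
  exact ⟨D, fun _ => rfl⟩

variable {κ : Type*} [Field κ] [CharZero κ]

/-- Proof.  `roots_inf` gives the roots in `L((x))`; `c = cE` is transcendental over `κ` (`evc_injective`; `evc P = eval₂ iE cE P`); `exists_emb`; `compat_O`
(`dcE` kills `iE a` and `dcE cE = 1`; `dD δL (iE a) = iE (δ a)`, `dD cE = 0`). -/
theorem exists_inf {L : Type*} [Field L] [CharZero L] [Algebra κ L] (δ : Derivation ℤ κ κ) (δL : Derivation ℤ L L)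
    (hδ : ∀ a : κ, δL (algebraMap κ L a) = algebraMap κ L (δ a)) (F : κ[X]) (hF : 1 ≤ F.natDegree)
    (hs : (C (algebraMap κ L F.leadingCoeff) * X ^ F.natDegree - 1 : L[X]).Splits) :
    ∃ j : Om F →+* LaurentSeries L, (∀ b : κ, j (iO F b) = iE κ L b) ∧ j (cO F) = cE L F.natDegree ∧
      (∀ z, dcE L F.natDegree (j z) = j (dcO F z)) ∧ (∀ z, dD δL (j z) = j (DO F δ z)) := by
  obtain ⟨y, hy⟩ := roots_inf (L := L) F hF hs
  have hc : ∀ P : κ[X], eval₂ (iE κ L) (cE L F.natDegree) P = 0 → P = 0 := by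
    intro P hP
    apply evc_injective (κ := κ) (L := L) F.natDegree hF
    rw [map_zero]
    exact hP
  obtain ⟨j, h1, h2⟩ := exists_emb F hF (iE κ L) (cE L F.natDegree) hc y hy
  refine ⟨j, h1, h2, ?_, ?_⟩
  · obtain ⟨D, hD⟩ := Q1_cast _ (Ring.toIntAlgebra (LaurentSeries L)) _ (AddCommGroup.toIntModule (LaurentSeries L))
      (dcE L F.natDegree)
    intro z
    rw [← hD]
    refine compat_O F (dcO F) D j ?_ ?_ z
    · intro a
      rw [hD, h1, dcO_iO, map_zero, dcE_iE]
    · rw [hD, h2, dcO_cO, map_one, dcE_cE _ hF]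
  · obtain ⟨D, hD⟩ := Q1_cast _ (Ring.toIntAlgebra (LaurentSeries L)) _ (AddCommGroup.toIntModule (LaurentSeries L))
      (dD δL)
    intro z
    rw [← hD]
    refine compat_O F (DO F δ) D j ?_ ?_ z
    · intro a
      rw [hD, h1, DO_iO, h1, dD_iE δL δ hδ]
    · rw [hD, h2, DO_cO, map_zero, dD_cE]

omit [CharZero κ] in
theorem Q1_coeff {Lb : Type*} [Field Lb] [Algebra κ Lb] (e : ℕ) (he : 1 ≤ e) (P : κ[X]) (j : ℕ) :
    (eval₂ (iE κ Lb) (HahnSeries.single (e : ℤ) (1 : Lb)) P).coeff ((j * e : ℕ) : ℤ) = algebraMap κ Lb (P.coeff j) := by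
  rw [eval₂_eq_sum_range' _ (lt_of_le_of_lt (le_max_left P.natDegree j) (Nat.lt_succ_self _)), HahnSeries.coeff_sum]
  rw [Finset.sum_eq_single j]
  · rw [HahnSeries.single_pow, one_pow]
    show (HahnSeries.C (algebraMap κ Lb (P.coeff j)) * HahnSeries.single (j • (e : ℤ)) (1 : Lb)).coeff _ = _
    rw [HahnSeries.C_mul_eq_smul, HahnSeries.coeff_smul, HahnSeries.coeff_single, if_pos (by push_cast; simp), smul_eq_mul, mul_one]
  · intro i _ hi
    rw [HahnSeries.single_pow, one_pow]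
    show (HahnSeries.C (algebraMap κ Lb (P.coeff i)) * HahnSeries.single (i • (e : ℤ)) (1 : Lb)).coeff _ = _
    rw [HahnSeries.C_mul_eq_smul, HahnSeries.coeff_smul, HahnSeries.coeff_single, if_neg, smul_zero]
    intro h
    apply hi
    have h1 : ((j * e : ℕ) : ℤ) = ((i * e : ℕ) : ℤ) := by
      rw [h]
      push_cast
      simp
    have h2 : j * e = i * e := by exact_mod_cast h1
    exact (Nat.eq_of_mul_eq_mul_right (by omega) h2).symm
  · intro h
    exfalso
    apply h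
    rw [Finset.mem_range]
    omega

omit [CharZero κ] in
theorem Q1_transc {Lb : Type*} [Field Lb] [Algebra κ Lb] (e : ℕ) (he : 1 ≤ e) (c0 : κ) (P : κ[X])
    (hP : eval₂ (iE κ Lb) (iE κ Lb c0 + HahnSeries.single (e : ℤ) (1 : Lb)) P = 0) : P = 0 := by
  have h1 : eval₂ (iE κ Lb) (HahnSeries.single (e : ℤ) (1 : Lb)) (P.comp (X + C c0)) = 0 := by
    rw [eval₂_comp, eval₂_add, eval₂_X, eval₂_C, add_comm]
    exact hP
  have h2 : P.comp (X + C c0) = 0 := by
    ext j
    have h3 := Q1_coeff (Lb := Lb) e he (P.comp (X + C c0)) j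
    rw [h1, HahnSeries.coeff_zero] at h3
    rw [coeff_zero]
    exact (map_eq_zero (algebraMap κ Lb)).1 h3.symm
  have h4 : (P.comp (X + C c0)).comp (X - C c0) = P := by
    rw [comp_assoc]
    simp
  rw [← h4, h2, zero_comp]

/-- Proof.  `Lb = AlgebraicClosure κ`; `roots_fin` for `c0 = F(a)`; `F(a) + t^e` is transcendental over `κ` (a polynomial relation would make `t`
algebraic over `Lb`; compare coefficients: `P(F(a) + t^e) = ∑ p_j t^(e j)` by Taylor); `exists_emb`; `compat_O` with `dF`. -/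
theorem exists_fin (F : κ[X]) (hF : 1 ≤ F.natDegree) (a : κ) :
    ∃ e : ℕ, 1 ≤ e ∧ ∃ φ : Om F →+* LaurentSeries (AlgebraicClosure κ),
      (∀ b : κ, φ (iO F b) = iE κ (AlgebraicClosure κ) b) ∧
      φ (cO F) = iE κ (AlgebraicClosure κ) (eval a F) + HahnSeries.single (e : ℤ) (1 : AlgebraicClosure κ) ∧
      ∀ z, dF (AlgebraicClosure κ) e (φ z) = φ (dcO F z) := by
  have : CharZero (AlgebraicClosure κ) := charZero_of_injective_algebraMap (algebraMap κ (AlgebraicClosure κ)).injective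
  obtain ⟨e, he, y, hy⟩ := roots_fin (Lb := AlgebraicClosure κ) F hF (eval a F)
  obtain ⟨φ, h1, h2⟩ := exists_emb F hF (iE κ (AlgebraicClosure κ)) _ (Q1_transc (Lb := AlgebraicClosure κ) e he (eval a F)) y hy
  refine ⟨e, he, φ, h1, h2, ?_⟩
  obtain ⟨D, hD⟩ := Q1_cast _ (Ring.toIntAlgebra (LaurentSeries (AlgebraicClosure κ))) _
    (AddCommGroup.toIntModule (LaurentSeries (AlgebraicClosure κ))) (dF (AlgebraicClosure κ) e)
  intro z
  rw [← hD]
  refine compat_O F (dcO F) D φ ?_ ?_ z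
  · intro b
    rw [hD, h1, dcO_iO, map_zero]
    exact dF_C e _
  · rw [hD, h2, dcO_cO, map_one φ]
    exact dF_c e he _

end Pool.Agent.FCT
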