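import Pool.Agent.FCT.R5

/-! Row FCT-V0: from sequences to series and back. -/

set_option autoImplicit false

namespace Pool.Agent.FCT

open Polynomial Finset

variable {κ L : Type*} [Field κ] [Field L] [Algebra κ L]

theorem V0_aux {ι : Type*} [Fintype ι] (E : ℕ) (hE : 1 ≤ E) (h : ℕ → κ) (e : ι → ℕ → κ) (P : κ[X]) (Q : ι → κ[X])
    (D : ℕ) (hP : P.natDegree ≤ D) (hQ : ∀ l, (Q l).natDegree ≤ D) :
    ∃ T : κ[X], T.natDegree ≤ D ∧
      evc κ L E P * toE L E h + ∑ l, evc κ L E (Q l) * toE L E (e l) =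
        toE L E (act P h + ∑ l, act (Q l) (e l)) + evc κ L E T := by
  obtain ⟨T0, hT0, h0⟩ := toE_act (L := L) E hE P h
  choose T1 hT1 h1 using fun l => toE_act (L := L) E hE (Q l) (e l)
  refine ⟨T0 + ∑ l, T1 l, ?_, ?_⟩
  · refine (natDegree_add_le _ _).trans (max_le (hT0.trans hP) ?_)
    exact natDegree_sum_le_of_forall_le _ _ (fun l _ => (hT1 l).trans (hQ l))
  · rw [h0, Finset.sum_congr rfl (fun l _ => h1 l), Finset.sum_add_distrib, toE_add, toE_sum, map_add, map_sum]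
    ring

/-- `toE_act` for `P` and all `Q l`; the sum of the polynomial parts is `T`; `Ov_toE` for the sequence
`act P h + ∑ act (Q l) (e l)`. -/
theorem rel_series {ι : Type*} [Fintype ι] (E : ℕ) (hE : 1 ≤ E) (h : ℕ → κ) (e : ι → ℕ → κ) (P : κ[X]) (Q : ι → κ[X])
    (D N : ℕ) (hP : P.natDegree ≤ D) (hQ : ∀ l, (Q l).natDegree ≤ D)
    (hz : ∀ ν < N, act P h ν + ∑ l, act (Q l) (e l) ν = 0) :
    ∃ T : κ[X], T.natDegree ≤ D ∧
      Ov ((E * (N + 1) : ℕ) : ℤ) (evc κ L E P * toE L E h + ∑ l, evc κ L E (Q l) * toE L E (e l) - evc κ L E T) := by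
  obtain ⟨T, hT, h1⟩ := V0_aux (L := L) E hE h e P Q D hP hQ
  refine ⟨T, hT, ?_⟩
  rw [h1, add_sub_cancel_right]
  apply Ov_toE E hE
  intro ν hν
  rw [Pi.add_apply, Finset.sum_apply]
  exact hz ν hν

/-- Converse: by `toE_act`, `toE (act P h + ∑ act (Q l) (e l)) = evc (T - T')` has order `≥ 1` (`Ov_toE` with `N = 0`), so it is zero
(`eq_zero_of_Ov_evc`), and `toE_eq_zero`. -/
theorem seq_of_series {ι : Type*} [Fintype ι] (E : ℕ) (hE : 1 ≤ E) (h : ℕ → κ) (e : ι → ℕ → κ) (P : κ[X]) (Q : ι → κ[X])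
    (T : κ[X])
    (hz : evc κ L E P * toE L E h + ∑ l, evc κ L E (Q l) * toE L E (e l) = evc κ L E T) (ν : ℕ) :
    act P h ν + ∑ l, act (Q l) (e l) ν = 0 := by
  obtain ⟨T', -, h1⟩ := V0_aux (L := L) E hE h e P Q (P.natDegree + ∑ l, (Q l).natDegree) (Nat.le_add_right _ _)
    (fun l => (Finset.single_le_sum (f := fun l => (Q l).natDegree) (fun _ _ => Nat.zero_le _) (Finset.mem_univ l)).trans
      (Nat.le_add_left _ _))
  rw [hz] at h1
  have h2 : toE L E (act P h + ∑ l, act (Q l) (e l)) = evc κ L E (T - T') := by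
    rw [map_sub, h1]; ring
  have h3 : Ov ((E * (0 + 1) : ℕ) : ℤ) (toE L E (act P h + ∑ l, act (Q l) (e l))) :=
    Ov_toE E hE _ 0 (fun ν hν => absurd hν (Nat.not_lt_zero _))
  rw [h2] at h3
  have h4 : T - T' = 0 := by
    apply eq_zero_of_Ov_evc (L := L) E hE
    apply Ov_mono _ h3
    have : 1 ≤ E * (0 + 1) := by omega
    exact_mod_cast this
  rw [h4, map_zero] at h2
  have h5 := toE_eq_zero E hE _ h2 ν
  rw [Pi.add_apply, Finset.sum_apply] at h5
  exact h5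

end Pool.Agent.FCT
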