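import Pool.Agent.FCT.P4
import Pool.Agent.FCT.V0
import Pool.Agent.FCT.Lg4

/-! Row FCT-Q2: `H` as a linear form in logarithms. -/

set_option autoImplicit false

namespace Pool.Agent.FCT

open Polynomial Finset

variable {κ : Type*} [Field κ]

/-- `∑_i z_i log(1 - s/y_i)` -/
noncomputable def Th {L : Type*} [Field L] [Algebra κ L] (F : κ[X]) (s : κ) (y : Fin F.natDegree → Om F)
    (j : Om F →+* LaurentSeries L) (z : Fin F.natDegree → Om F) : LaurentSeries L :=
  ∑ i, j (z i) * lg (iE κ L s * (j (y i))⁻¹)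

theorem Q2_comp {L : Type*} [Field L] [Algebra κ L] (F : κ[X])
    (j : Om F →+* LaurentSeries L) (hj1 : ∀ b : κ, j (iO F b) = iE κ L b) : j.comp (iO F) = iE κ L :=
  RingHom.ext hj1

theorem Q2_evc {L : Type*} [Field L] [Algebra κ L] (F : κ[X])
    (j : Om F →+* LaurentSeries L) (hj1 : ∀ b : κ, j (iO F b) = iE κ L b) (hj2 : j (cO F) = cE L F.natDegree)
    (p : κ[X]) : j (evO F p) = evc κ L F.natDegree p := by
  have : (j.comp (evO F)) = evc κ L F.natDegree := by
    apply Polynomial.ringHom_ext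
    · intro a
      simp [evO, evc, hj1]
    · simp [evO, evc, hj2]
  exact congrArg (fun f : κ[X] →+* LaurentSeries L => f p) this

/-- `θ_k = - Th (ρ y^k)`: `toE_ISk` for the roots `j ∘ y` (`Roots_map`, `rho_map`). -/
theorem toE_eq_Th [CharZero κ] {L : Type*} [Field L] [CharZero L] [Algebra κ L] (F : κ[X]) (hF : 1 ≤ F.natDegree)
    (s : κ) (y : Fin F.natDegree → Om F) (hy : Roots (iO F) (cO F) F y)
    (j : Om F →+* LaurentSeries L) (hj1 : ∀ b : κ, j (iO F b) = iE κ L b) (hj2 : j (cO F) = cE L F.natDegree)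
    (k : ℕ) (hk : k < F.natDegree) :
    toE L F.natDegree (fun ν => ISk s (X ^ k * F ^ ν)) =
      - Th F s y j (fun i => rho (iO F) F (y i) * y i ^ k) := by
  have h1 := Roots_map F (iO F) (cO F) y hy j
  rw [Q2_comp F j hj1, hj2] at h1
  rw [toE_ISk F hF (fun i => j (y i)) h1 s k hk, Th]
  congr 1
  refine Finset.sum_congr rfl fun i _ => ?_
  rw [map_mul, map_pow, rho_map, Q2_comp F j hj1]

/-- Proof.  By `toE_act`: `P(c) H = ∑ Q_l(c) θ_l + a(c)` (polynomial parts collected in `a`), divide by `P(c) ≠ 0`.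
`ζ_i = (∑_l evO (Q l) ρ_i y_i^l) (evO P)⁻¹`, `u = evO a (evO P)⁻¹`, `evc p = j (evO p)`. -/
theorem exists_rep [CharZero κ] {L : Type*} [Field L] [CharZero L] [Algebra κ L] (F : κ[X]) (hF : 1 ≤ F.natDegree)
    (s : κ) (y : Fin F.natDegree → Om F) (hy : Roots (iO F) (cO F) F y)
    (π : GO F → Equiv.Perm (Fin F.natDegree)) (hπ : ∀ σ k, σ (y k) = y (π σ k))
    (j : Om F →+* LaurentSeries L) (hj1 : ∀ b : κ, j (iO F b) = iE κ L b) (hj2 : j (cO F) = cE L F.natDegree)
    (h : ℕ → κ) (P : κ[X]) (hP : P ≠ 0) (Q : Fin F.natDegree → κ[X])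
    (hrel : ∀ ν, act P h ν = ∑ l : Fin F.natDegree, act (Q l) (fun m => ISk s (X ^ (l : ℕ) * F ^ m)) ν) :
    ∃ (ζ : Fin F.natDegree → Om F) (a : κ[X]), (∀ (σ : GO F) k, σ (ζ k) = ζ (π σ k)) ∧
      toE L F.natDegree h = - Th F s y j ζ + j (evO F a * (evO F P)⁻¹) := by
  classical
  obtain ⟨T, _, hT⟩ := toE_act (L := L) F.natDegree hF P h
  have hTl := fun l : Fin F.natDegree => toE_act (L := L) F.natDegree hF (Q l) (fun m => ISk s (X ^ (l : ℕ) * F ^ m))
  choose Tl _ hTl using hTl
  have hev : ∀ p : κ[X], j (evO F p) = evc κ L F.natDegree p := Q2_evc F j hj1 hj2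
  have hPne : evO F P ≠ 0 := by
    intro h0
    exact hP (evO_injective F (by rw [h0, map_zero]))
  have hact : act P h = ∑ l : Fin F.natDegree, act (Q l) (fun m => ISk s (X ^ (l : ℕ) * F ^ m)) := by
    funext ν
    rw [hrel ν, Finset.sum_apply]
  have hσev : ∀ (σ : GO F) (p : κ[X]), σ (evO F p) = evO F p := by
    intro σ p
    rw [evO_eq]
    exact σ.commutes _
  have hσi : ∀ (σ : GO F), (σ : Om F →+* Om F).comp (iO F) = iO F := by
    intro σ
    refine RingHom.ext fun b => ?_
    simp only [RingHom.coe_comp, Function.comp_apply, iO, RingHom.coe_coe]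
    exact σ.commutes _
  have hσr : ∀ (σ : GO F) (k : Fin F.natDegree), σ (rho (iO F) F (y k)) = rho (iO F) F (y (π σ k)) := by
    intro σ k
    have h1 := rho_map F (iO F) (y k) (σ : Om F →+* Om F)
    rw [hσi σ] at h1
    have h2 : (σ : Om F →+* Om F) (y k) = y (π σ k) := hπ σ k
    rw [h2] at h1
    exact h1
  refine ⟨fun i => (∑ l : Fin F.natDegree, evO F (Q l) * (rho (iO F) F (y i) * y i ^ (l : ℕ))) * (evO F P)⁻¹,
    T - ∑ l, Tl l, ?_, ?_⟩
  · intro σ k
    simp only [map_mul, map_sum, map_inv₀, map_pow, hσev, hσr, hπ]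
  · have hPj : j (evO F P) ≠ 0 := by
      rw [Ne, map_eq_zero]; exact hPne
    have key : j (evO F P) * toE L F.natDegree h =
        j (evO F P) * (- Th F s y j (fun i => (∑ l : Fin F.natDegree, evO F (Q l) * (rho (iO F) F (y i) * y i ^ (l : ℕ))) * (evO F P)⁻¹)
          + j (evO F (T - ∑ l, Tl l) * (evO F P)⁻¹)) := by
      have hTh : ∀ l : Fin F.natDegree, toE L F.natDegree (fun m => ISk s (X ^ (l : ℕ) * F ^ m)) =
          - Th F s y j (fun i => rho (iO F) F (y i) * y i ^ (l : ℕ)) :=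
        fun l => toE_eq_Th F hF s y hy j hj1 hj2 l l.2
      rw [hev P, hT, hact, toE_sum]
      have h3 : ∀ l : Fin F.natDegree, toE L F.natDegree (act (Q l) (fun m => ISk s (X ^ (l : ℕ) * F ^ m))) =
          evc κ L F.natDegree (Q l) * (- Th F s y j (fun i => rho (iO F) F (y i) * y i ^ (l : ℕ))) - evc κ L F.natDegree (Tl l) := by
        intro l
        have := hTl l
        rw [hTh l] at this
        rw [this]; ring
      rw [Finset.sum_congr rfl (fun l _ => h3 l), Finset.sum_sub_distrib, mul_add]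
      have e1 : evc κ L F.natDegree P * (j (evO F (T - ∑ l, Tl l) * (evO F P)⁻¹)) = evc κ L F.natDegree T - ∑ l, evc κ L F.natDegree (Tl l) := by
        rw [map_mul, map_inv₀, hev, ← hev P, map_sub, map_sum]
        field_simp
      have e2 : evc κ L F.natDegree P * (- Th F s y j (fun i => (∑ l : Fin F.natDegree, evO F (Q l) * (rho (iO F) F (y i) * y i ^ (l : ℕ))) * (evO F P)⁻¹))
          = ∑ l : Fin F.natDegree, evc κ L F.natDegree (Q l) * (- Th F s y j (fun i => rho (iO F) F (y i) * y i ^ (l : ℕ))) := by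
        simp only [Th, mul_neg, Finset.sum_neg_distrib]
        congr 1
        simp only [Finset.mul_sum]
        rw [Finset.sum_comm]
        refine Finset.sum_congr rfl fun i _ => ?_
        rw [map_mul, map_inv₀, map_sum, ← hev P]
        rw [show ∀ A B W : LaurentSeries L, A * (B * (j (evO F P))⁻¹ * W) = (A * (j (evO F P))⁻¹) * (B * W) from
          fun A B W => by ring, mul_inv_cancel₀ hPj, one_mul]
        rw [Finset.sum_mul]
        refine Finset.sum_congr rfl fun l _ => ?_
        rw [map_mul, hev]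
        ring
      rw [e1, e2]
      ring
    exact mul_left_cancel₀ hPj key

end Pool.Agent.FCT
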