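import Pool.Agent.FCT.Q2
import Pool.Agent.FCT.R3
import Pool.Agent.FCT.R4

/-! Row FCT-Q3: derivatives of the linear forms. -/

set_option autoImplicit false

namespace Pool.Agent.FCT

open Polynomial Finset

variable {κ : Type*} [Field κ]

theorem Q3_lg_gen [CharZero κ] {L : Type*} [Field L] [CharZero L] [Algebra κ L] (F : κ[X]) (hF : 1 ≤ F.natDegree)
    (s : κ) (y : Fin F.natDegree → Om F) (hy : Roots (iO F) (cO F) F y)
    (j : Om F →+* LaurentSeries L) (hj1 : ∀ b : κ, j (iO F b) = iE κ L b) (hj2 : j (cO F) = cE L F.natDegree)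
    (dE : Derivation ℤ (LaurentSeries L) (LaurentSeries L)) (hdE : ∀ (N : ℤ) (z : LaurentSeries L), Ov N z → Ov N (dE z))
    (d : Derivation ℤ (Om F) (Om F)) (hd : ∀ z, dE (j z) = j (d z)) (i : Fin F.natDegree) :
    dE (lg (iE κ L s * (j (y i))⁻¹)) = j (d (gO F s (y i)) * (gO F s (y i))⁻¹) := by
  have hcomp : j.comp (iO F) = iE κ L := RingHom.ext fun b => hj1 b
  have hroots : Roots (iE κ L) (cE L F.natDegree) F (fun k => j (y k)) := by
    have h := Roots_map F (iO F) (cO F) y hy j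
    rw [hcomp, hj2] at h
    exact h
  have hu : Ov 1 (iE κ L s * (j (y i))⁻¹) := Ov_s_div F hF (fun k => j (y k)) hroots s i
  have hg : j (gO F s (y i)) = 1 - iE κ L s * (j (y i))⁻¹ := by
    rw [gO, map_sub, map_one, map_mul, map_inv₀, hj1]
  have hg0 : j (gO F s (y i)) ≠ 0 := by
    rw [Ne, map_eq_zero]
    exact gO_ne_zero F s y hy i
  have h1 := lg_deriv dE hdE _ hu
  rw [← hg] at h1
  have h2 : dE (j (gO F s (y i))) = - dE (iE κ L s * (j (y i))⁻¹) := by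
    rw [hg, map_sub, Derivation.map_one_eq_zero, zero_sub]
  rw [← h2, hd] at h1
  rw [map_mul, map_inv₀, ← h1, mul_assoc, mul_inv_cancel₀ hg0, mul_one]

/-- `∂_c log(1 - s/y_i) = j (∂g_i/g_i)`: `lg_deriv` for `dcE` with `1 - u = j (g_i)`, `- dcE u = dcE (1 - u) = j (dcO g_i)`. -/
theorem dcE_lg [CharZero κ] {L : Type*} [Field L] [CharZero L] [Algebra κ L] (F : κ[X]) (hF : 1 ≤ F.natDegree)
    (s : κ) (y : Fin F.natDegree → Om F) (hy : Roots (iO F) (cO F) F y)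
    (j : Om F →+* LaurentSeries L) (hj1 : ∀ b : κ, j (iO F b) = iE κ L b) (hj2 : j (cO F) = cE L F.natDegree)
    (hj3 : ∀ z, dcE L F.natDegree (j z) = j (dcO F z)) (i : Fin F.natDegree) :
    dcE L F.natDegree (lg (iE κ L s * (j (y i))⁻¹)) = j (dcO F (gO F s (y i)) * (gO F s (y i))⁻¹) := by
  exact Q3_lg_gen F hF s y hy j hj1 hj2 (dcE L F.natDegree)
    (fun N z hz => Ov_mono (by omega) (Ov_dcE F.natDegree hz)) (dcO F) hj3 i

/-- the same for `D` -/
theorem dD_lg [CharZero κ] {L : Type*} [Field L] [CharZero L] [Algebra κ L] (F : κ[X]) (hF : 1 ≤ F.natDegree)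
    (δ : Derivation ℤ κ κ) (δL : Derivation ℤ L L)
    (s : κ) (y : Fin F.natDegree → Om F) (hy : Roots (iO F) (cO F) F y)
    (j : Om F →+* LaurentSeries L) (hj1 : ∀ b : κ, j (iO F b) = iE κ L b) (hj2 : j (cO F) = cE L F.natDegree)
    (hj4 : ∀ z, dD δL (j z) = j (DO F δ z)) (i : Fin F.natDegree) :
    dD δL (lg (iE κ L s * (j (y i))⁻¹)) = j (DO F δ (gO F s (y i)) * (gO F s (y i))⁻¹) := by
  exact Q3_lg_gen F hF s y hy j hj1 hj2 (dD δL) (fun N z hz => Ov_dD δL hz) (DO F δ) hj4 i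

theorem Q3_ISk_one [CharZero κ] (s : κ) : ISk s (1 : κ[X]) = s := by
  unfold ISk
  rw [← C_1, sum_C_index]
  · simp
  · simp

/-- Proof.  `dD (toE h) = toE (δ ∘ h) = toE h + toE ψ` (`dD_toE`, `hh`), `ψ ν = ISk s (F^ν)` for `ν ≥ 1`, `ψ 0 = 0`, so
`toE ψ = toE (ν ↦ ISk s (X^0 F^ν)) - iE s * (cE)⁻¹` (`ISk s 1 = s`).  By `toE_eq_Th`, `exists_rep`-form `hrep` and `dD_lg`:
`(dD - 1)(toE h) = - Th (Dζ - ζ) - j(∑ ζ_i D g_i/g_i) + j (D u - u)`, and this is `- Th (ρ) - j (iO s * (cO)⁻¹)`. -/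
theorem exists_eta [CharZero κ] {L : Type*} [Field L] [CharZero L] [Algebra κ L] (F : κ[X]) (hF : 1 ≤ F.natDegree)
    (δ : Derivation ℤ κ κ) (δL : Derivation ℤ L L)
    (hδ : ∀ a : κ, δL (algebraMap κ L a) = algebraMap κ L (δ a))
    (s : κ) (y : Fin F.natDegree → Om F) (hy : Roots (iO F) (cO F) F y)
    (j : Om F →+* LaurentSeries L) (hj1 : ∀ b : κ, j (iO F b) = iE κ L b) (hj2 : j (cO F) = cE L F.natDegree)
    (hj4 : ∀ z, dD δL (j z) = j (DO F δ z))
    (h : ℕ → κ) (hh : ∀ ν, δ (h ν) = h ν + if ν = 0 then 0 else ISk s (F ^ ν))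
    (ζ : Fin F.natDegree → Om F) (u : Om F) (hrep : toE L F.natDegree h = - Th F s y j ζ + j u) :
    ∃ η : Om F, Th F s y j (fun i => DO F δ (ζ i) - ζ i - rho (iO F) F (y i)) = j η := by
  -- the sequence `ψ`
  have hψ : (fun ν => δ (h ν)) = h + ((fun ν => ISk s (X ^ 0 * F ^ ν)) - fun ν => s * (0 : κ) ^ ν) := by
    funext ν
    rw [Pi.add_apply, Pi.sub_apply, hh ν, pow_zero, one_mul]
    rcases Nat.eq_zero_or_pos ν with h0 | h0
    · subst h0
      rw [if_pos rfl, pow_zero, pow_zero, Q3_ISk_one]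
      ring
    · rw [if_neg (by omega), zero_pow (by omega), mul_zero, sub_zero]
  have hgeo : toE L F.natDegree (fun n => (0 : κ) ^ n) = (cE L F.natDegree)⁻¹ := by
    have h1 := toE_geo (L := L) F.natDegree hF (0 : κ)
    rw [map_zero, sub_zero] at h1
    exact eq_inv_of_mul_eq_one_right h1
  have hρ : (fun i => rho (iO F) F (y i) * y i ^ 0) = fun i => rho (iO F) F (y i) := by
    funext i
    rw [pow_zero, mul_one]
  have hD1 : dD δL (toE L F.natDegree h) = toE L F.natDegree h + (- Th F s y j (fun i => rho (iO F) F (y i)) -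
      iE κ L s * (cE L F.natDegree)⁻¹) := by
    rw [dD_toE δL δ hδ, hψ, toE_add, toE_sub, toE_mul_left, hgeo,
      toE_eq_Th F hF s y hy j hj1 hj2 0 (by omega), hρ]
  have hDTh : dD δL (Th F s y j ζ) = Th F s y j (fun i => DO F δ (ζ i)) +
      j (∑ i, ζ i * (DO F δ (gO F s (y i)) * (gO F s (y i))⁻¹)) := by
    unfold Th
    rw [map_sum, map_sum, ← Finset.sum_add_distrib]
    refine Finset.sum_congr rfl fun i _ => ?_
    rw [Derivation.leibniz, smul_eq_mul, smul_eq_mul, hj4, dD_lg F hF δ δL s y hy j hj1 hj2 hj4 i, map_mul j (ζ i)]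
    ring
  have hTh : Th F s y j (fun i => DO F δ (ζ i) - ζ i - rho (iO F) F (y i)) =
      Th F s y j (fun i => DO F δ (ζ i)) - Th F s y j ζ - Th F s y j (fun i => rho (iO F) F (y i)) := by
    unfold Th
    rw [← Finset.sum_sub_distrib, ← Finset.sum_sub_distrib]
    refine Finset.sum_congr rfl fun i _ => ?_
    rw [map_sub, map_sub]
    ring
  refine ⟨- (∑ i, ζ i * (DO F δ (gO F s (y i)) * (gO F s (y i))⁻¹)) + DO F δ u - u + iO F s * (cO F)⁻¹, ?_⟩
  have h3 : dD δL (toE L F.natDegree h) = - dD δL (Th F s y j ζ) + j (DO F δ u) := by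
    rw [hrep, map_add, map_neg, hj4]
  rw [hD1, hDTh, hrep] at h3
  rw [hTh, map_add, map_sub, map_add, map_neg, map_mul, map_inv₀, hj1, hj2]
  linear_combination h3

end Pool.Agent.FCT
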