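import Pool.Agent.FCT.Q4a

/-! Row FCT-Q4: Part II, first conclusion -/

set_option autoImplicit false

namespace Pool.Agent.FCT

open Polynomial Finset
variable {κ : Type*} [Field κ]

/-- the order vectors of a place are permuted -/
theorem Q4_NN_perm {Lb : Type*} [Field Lb] (F : κ[X]) (s : κ) (y : Fin F.natDegree → Om F)
    (π : GO F → Equiv.Perm (Fin F.natDegree)) (hπ : ∀ σ k, σ (y k) = y (π σ k))
    (φ : Om F →+* LaurentSeries Lb) (n : Fin F.natDegree → ℤ) (hn : n ∈ NN F s y φ) (σ : GO F) :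
    (fun i => n (π σ i)) ∈ NN F s y φ := by
  obtain ⟨σ₀, rfl⟩ := hn
  refine ⟨σ₀ * σ, ?_⟩
  funext i
  change (φ (σ₀ (gO F s (y (π σ i))))).order = (φ (σ₀ (σ (gO F s (y i))))).order
  rw [← hπ σ i, sigma_gO F s σ (y i)]

/-- Part II, first conclusion.  Proof.  Data: `j` (`exists_inf`), `y` (`exists_rootsO`), `π` (`exists_perm`), `φA, φB` (`exists_fin` at `a = s` and `a = 0`), `ζ, u`
(`exists_rep`), `η` (`exists_eta`), `w_i = D ζ_i - ζ_i - ρ_i`.  If all `n ∈ NN φA ∪ NN φB` satisfied `∑ n_i ρ_i = 0`, then `claim2` (with `w = j ∘ ρ`) and `toE_eq_Th`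
(`k = 0`) would give `toE (ν ↦ ISk s (F^ν)) = 0`, so `s = ISk s 1 = 0` (`toE_eq_zero`), contradiction.  Let `n` be a bad vector: `n i = ord φ(σ₀ g_i)`; then
`n (π σ i) = ord φ(σ₀ (σ g_i))`, so `n ∘ π σ ∈ NN φ` and `claim1_NN` gives `∑ n (π σ i) w_i = 0` for all `σ`.  `T_trick`. -/
theorem part2a [CharZero κ] {L : Type*} [Field L] [CharZero L] [Algebra κ L] (δ : Derivation ℤ κ κ) (δL : Derivation ℤ L L)
    (hδ : ∀ a : κ, δL (algebraMap κ L a) = algebraMap κ L (δ a)) (F : κ[X]) (hF : 1 ≤ F.natDegree)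
    (hs : (C (algebraMap κ L F.leadingCoeff) * X ^ F.natDegree - 1 : L[X]).Splits) (s : κ) (hs0 : s ≠ 0)
    (h : ℕ → κ) (hh : ∀ ν, δ (h ν) = h ν + if ν = 0 then 0 else ISk s (F ^ ν))
    (P : κ[X]) (hP : P ≠ 0) (Q : Fin F.natDegree → κ[X])
    (hrel : ∀ ν, act P h ν = ∑ l : Fin F.natDegree, act (Q l) (fun m => ISk s (X ^ (l : ℕ) * F ^ m)) ν) :
    ∃ N Δ : κ[X], Δ ≠ 0 ∧ PDE δ F N Δ := by
  obtain ⟨j, hj1, hj2, hj3, hj4⟩ := exists_inf δ δL hδ F hF hs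
  obtain ⟨y, hy⟩ := exists_rootsO F hF
  obtain ⟨π, hπ, hmul⟩ := exists_perm F hF y hy
  obtain ⟨eA, heA, φA, hA1, hA2, hA3⟩ := exists_fin F hF s
  obtain ⟨eB, heB, φB, hB1, hB2, hB3⟩ := exists_fin F hF 0
  obtain ⟨ζ, a, hζ, hrep⟩ := exists_rep F hF s y hy π hπ j hj1 hj2 h P hP Q hrel
  obtain ⟨η, hη⟩ := exists_eta F hF δ δL hδ s y hy j hj1 hj2 hj4 h hh ζ _ hrep
  have hfinish : ∀ (e : ℕ) (_ : 1 ≤ e) (φ : Om F →+* LaurentSeries (AlgebraicClosure κ))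
      (_ : ∀ z, dF (AlgebraicClosure κ) e (φ z) = φ (dcO F z)) (n : Fin F.natDegree → ℤ)
      (_ : n ∈ NN F s y φ) (_ : ∑ k, (n k : Om F) * rho (iO F) F (y k) ≠ 0),
      ∃ N Δ : κ[X], Δ ≠ 0 ∧ PDE δ F N Δ := by
    intro e he φ hφ n hn hne
    refine T_trick F hF δ y hy π hπ hmul j hj1 hj2 ζ hζ n hne fun σ => ?_
    exact claim1_NN F hF s y hy j hj1 hj2 hj3 e he φ hφ
      (fun k => DO F δ (ζ k) - ζ k - rho (iO F) F (y k)) η hη (fun i => n (π σ i))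
      (Q4_NN_perm F s y π hπ φ n hn σ)
  by_cases hbad : ∃ n ∈ NN F s y φA ∪ NN F s y φB, ∑ k, (n k : Om F) * rho (iO F) F (y k) ≠ 0
  · obtain ⟨n, hn, hne⟩ := hbad
    rcases hn with hn | hn
    · exact hfinish eA heA φA hA3 n hn hne
    · exact hfinish eB heB φB hB3 n hn hne
  · exfalso
    push Not at hbad
    have h1 := claim2 F hF s y hy φA hA1 eA heA hA2 φB hB1 eB heB hB2 j hj1 hj2
      (fun i => j (rho (iO F) F (y i))) (fun n hn => by
        have h2 := congrArg j (hbad n hn)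
        rw [map_sum, map_zero] at h2
        rw [← h2]
        refine Finset.sum_congr rfl fun i _ => ?_
        rw [map_mul, map_intCast])
    have h2 := toE_eq_Th F hF s y hy j hj1 hj2 0 (by omega)
    have h3 : Th F s y j (fun i => rho (iO F) F (y i) * y i ^ 0) = 0 := by
      unfold Th
      rw [← h1]
      refine Finset.sum_congr rfl fun i _ => ?_
      simp only [pow_zero, mul_one]
    rw [h3, neg_zero] at h2
    have h4 := toE_eq_zero F.natDegree hF _ h2 0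
    rw [pow_zero, pow_zero, one_mul, Q3_ISk_one] at h4
    exact hs0 h4

end Pool.Agent.FCT
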