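import Pool.Agent.FCT.ODefs

/-! Row FCT-T3b: eigenvalues of integer matrices are constants -/

set_option autoImplicit false

namespace Pool.Agent.FCT

open Polynomial Finset
variable {κ : Type*} [Field κ]

theorem T3b_aux [CharZero κ] (δ : Derivation ℤ κ κ) (α : κ) (m : ℕ) :
    ∀ P : ℤ[X], P.natDegree ≤ m → P ≠ 0 → eval₂ (Int.castRingHom κ) α P = 0 → δ α = 0 := by
  induction m with
  | zero =>
    intro P hP hP0 h
    rw [eq_C_of_natDegree_le_zero hP, eval₂_C] at h
    have h1 : P.coeff 0 = 0 := by
      have h2 : ((P.coeff 0 : ℤ) : κ) = 0 := h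
      exact_mod_cast h2
    exact absurd (by rw [eq_C_of_natDegree_le_zero hP, h1, C_0]) hP0
  | succ m ih =>
    intro P hP hP0 h
    have h1 : δ (aeval α P) = aeval α (derivative P) • δ α := δ.map_aeval P α
    have h2 : aeval α P = eval₂ (Int.castRingHom κ) α P := rfl
    have h3 : aeval α (derivative P) = eval₂ (Int.castRingHom κ) α (derivative P) := rfl
    rw [h2, h, map_zero, h3, smul_eq_mul] at h1
    rcases mul_eq_zero.1 h1.symm with h4 | h4
    · by_cases h5 : derivative P = 0
      · have h6 : P.natDegree = 0 := natDegree_eq_zero_of_derivative_eq_zero h5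
        exact ih P (by omega) hP0 h
      · refine ih (derivative P) ?_ h5 h4
        have h7 : P.natDegree ≠ 0 := by
          intro h8
          apply h5
          rw [eq_C_of_natDegree_eq_zero h8, derivative_C]
        have h8 := natDegree_derivative_lt h7
        omega
    · exact h4

/-- an eigenvalue in `κ` of an integer matrix is killed by every derivation of `κ`: it is a root of the characteristic polynomial
(`Matrix.charpoly`, `det (α - T) = 0` because of the eigenvector), which is monic with integer coefficients; take its minimal polynomial `m` over `ℚ`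
(separable): `0 = δ(m(α)) = m'(α) δ(α)`. -/
theorem alpha_const {Ω : Type*} [Field Ω] [CharZero κ] (i : κ →+* Ω) (δ : Derivation ℤ κ κ) (α : κ) {n : Type*}
    [Fintype n] [DecidableEq n] (T : n → n → ℤ) (v : n → Ω) (hv : v ≠ 0)
    (h : ∀ k, ∑ l, (T k l : Ω) * v l = i α * v k) : δ α = 0 := by
  let M : Matrix n n ℤ := Matrix.of T
  have h1 : (M.map (Int.castRingHom Ω)).charpoly.eval (i α) = 0 := by
    rw [Matrix.eval_charpoly]
    refine Matrix.exists_mulVec_eq_zero_iff.1 ⟨v, hv, ?_⟩
    rw [Matrix.sub_mulVec, sub_eq_zero]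
    ext k
    rw [Matrix.scalar_apply, Matrix.mulVec_diagonal]
    rw [← h k]
    simp only [Matrix.mulVec, dotProduct, Matrix.map_apply]
    rfl
  rw [Matrix.charpoly_map, eval_map] at h1
  have h2 : eval₂ (Int.castRingHom κ) α M.charpoly = 0 := by
    apply i.injective
    rw [hom_eval₂, map_zero, ← h1]
    congr 1
    exact RingHom.ext_int _ _
  exact T3b_aux δ α M.charpoly.natDegree M.charpoly le_rfl M.charpoly_monic.ne_zero h2

end Pool.Agent.FCT
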