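import Pool.Agent.FCT.T4
import Pool.Agent.FCT.T3b
import Pool.Agent.FCT.P5

/-! Row FCT-TT: the T-trick. -/

set_option autoImplicit false

namespace Pool.Agent.FCT

open Polynomial Finset

variable {κ : Type*} [Field κ]

/-- The equation `D(N/Δ) - N/Δ = 1/F'` in `κ(Y)`, `D = δ - (F^δ/F') ∂_Y`, cleared of denominators. -/
def PDE (δ : Derivation ℤ κ κ) (F N Δ : κ[X]) : Prop :=
  (dmap δ N * derivative F - derivative N * dmap δ F) * Δ - N * (dmap δ Δ * derivative F - derivative Δ * dmap δ F) =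
    N * Δ * derivative F + Δ ^ 2

theorem TT_charZero [CharZero κ] (F : κ[X]) : CharZero (Om F) :=
  charZero_of_injective_algebraMap (FaithfulSMul.algebraMap_injective (RatFunc κ) (Om F))

theorem TT_dF_ne [CharZero κ] (F : κ[X]) (hF : 1 ≤ F.natDegree) : derivative F ≠ 0 := by
  intro h
  have := Polynomial.derivative_eq_zero.mp h
  omega

/-- from `z Δ(y) = N(y)` and `D z - z = ρ` to the polynomial identity -/
theorem TT_clear [CharZero κ] (F : κ[X]) (hF : 1 ≤ F.natDegree)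
    (δ : Derivation ℤ κ κ) (y : Fin F.natDegree → Om F)
    (hy : Roots (iO F) (cO F) F y) (k : Fin F.natDegree) (z : Om F) (N Δ : κ[X])
    (h : z * eval₂ (iO F) (y k) Δ = eval₂ (iO F) (y k) N)
    (hD : DO F δ z - z = rho (iO F) F (y k)) : PDE δ F N Δ := by
  have hFp : eval₂ (iO F) (y k) (derivative F) ≠ 0 := fun h0 => TT_dF_ne F hF (y_transc F y hy k _ h0)
  have h1 : DO F δ (z * eval₂ (iO F) (y k) Δ) = DO F δ (eval₂ (iO F) (y k) N) := by rw [h]
  rw [Derivation.leibniz, smul_eq_mul, smul_eq_mul, DO_eval, DO_eval, DO_y F hF δ y hy k] at h1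
  have hz : DO F δ z = z + rho (iO F) F (y k) := by rw [← hD]; ring
  rw [hz] at h1
  have hrho : rho (iO F) F (y k) * eval₂ (iO F) (y k) (derivative F) = 1 := by
    unfold rho
    exact inv_mul_cancel₀ hFp
  generalize rho (iO F) F (y k) = r at h1 hrho
  unfold PDE
  rw [← sub_eq_zero]
  apply y_transc F y hy k
  simp only [eval₂_sub, eval₂_mul, eval₂_add, eval₂_pow]
  generalize eval₂ (iO F) (y k) (derivative F) = Fp at h1 hrho ⊢
  generalize eval₂ (iO F) (y k) (dmap δ F) = Fd at h1 hrho ⊢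
  generalize eval₂ (iO F) (y k) (dmap δ N) = Nd at h1 hrho ⊢
  generalize eval₂ (iO F) (y k) (dmap δ Δ) = Dd at h1 hrho ⊢
  generalize eval₂ (iO F) (y k) (derivative N) = Np at h1 hrho ⊢
  generalize eval₂ (iO F) (y k) (derivative Δ) = Dp at h1 hrho ⊢
  generalize eval₂ (iO F) (y k) N = Ne at h h1 hrho ⊢
  generalize eval₂ (iO F) (y k) Δ = De at h h1 hrho ⊢
  subst h
  linear_combination (-Fp * De) * h1 + (De * De + De * z * (-Fd * Dp) + De * Np * Fd) * hrho

/-- Proof.  `T k l = ∑_σ n (π σ k) * n (π σ l)` (finite group).  `T (πτk) (πτl) = T k l` (reindex `σ ↦ σ τ`, `hmul`).  `T_linear`: `∑ T k l y_l = α y_k + β`;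
apply `dcO`: `∑ T k l ρ_l = α ρ_k` (`dcO_y`, `dcO_iO`, derivation kills integers).  `T ρ ≠ 0`: otherwise `ker_T` (with `g = σ ↦ n ∘ π σ`, at `σ = 1`, `π 1 = 1`)
gives `∑ n_l ρ_l = 0`; so `α ≠ 0`.  `alpha_const`: `δ α = 0`.  `∑_l T k l w_l = ∑_σ n(πσk) ∑_l n(πσl) w_l = 0` where `w_l = D ζ_l - ζ_l - ρ_l`.
Put `z_k = (iO α)⁻¹ ∑_l T k l ζ_l`: `D z_k - z_k = (iO α)⁻¹ ∑ T k l (ρ_l + w_l) = ρ_k`.  `z` is equivariant, `equiv_rat`: `z_k Δ(y_k) = N(y_k)`.  With
`D(N(y)) = N^δ(y) + N'(y) D y`, `D y = - F^δ(y)/F'(y)` (`DO_eval`, `DO_y`) clear denominators: the polynomial `LHS - RHS` of `PDE` vanishes at `y_k`, so it is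
zero (`y_transc`). -/
theorem T_trick [CharZero κ] {L : Type*} [Field L] [CharZero L] [Algebra κ L] (F : κ[X]) (hF : 1 ≤ F.natDegree)
    (δ : Derivation ℤ κ κ) (y : Fin F.natDegree → Om F)
    (hy : Roots (iO F) (cO F) F y) (π : GO F → Equiv.Perm (Fin F.natDegree)) (hπ : ∀ σ k, σ (y k) = y (π σ k))
    (hmul : ∀ σ τ, π (σ * τ) = π σ * π τ)
    (j : Om F →+* LaurentSeries L) (hj1 : ∀ b : κ, j (iO F b) = iE κ L b) (hj2 : j (cO F) = cE L F.natDegree)
    (ζ : Fin F.natDegree → Om F) (hζ : ∀ (σ : GO F) k, σ (ζ k) = ζ (π σ k)) (n : Fin F.natDegree → ℤ)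
    (hn : ∑ k, (n k : Om F) * rho (iO F) F (y k) ≠ 0)
    (hw : ∀ σ : GO F, ∑ k, (n (π σ k) : Om F) * (DO F δ (ζ k) - ζ k - rho (iO F) F (y k)) = 0) :
    ∃ N Δ : κ[X], Δ ≠ 0 ∧ PDE δ F N Δ := by
  classical
  have : CharZero (Om F) := TT_charZero F
  have : Finite (GO F) := inferInstance
  let _ : Fintype (GO F) := Fintype.ofFinite _
  set ρ : Fin F.natDegree → Om F := fun k => rho (iO F) F (y k) with hρ
  have hπ1 : π 1 = 1 := by
    have := hmul 1 1
    rw [mul_one] at this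
    exact (mul_eq_left.mp this.symm)
  set nn : GO F → Fin F.natDegree → ℤ := fun σ k => n (π σ k) with hnn
  set T : Fin F.natDegree → Fin F.natDegree → ℤ := fun k l => ∑ σ : GO F, nn σ k * nn σ l with hTdef
  have hT : ∀ τ k l, T (π τ k) (π τ l) = T k l := by
    intro τ k l
    simp only [hTdef, hnn]
    refine Fintype.sum_equiv (Equiv.mulRight τ) _ _ (fun σ => ?_)
    simp only [Equiv.coe_mulRight, hmul, Equiv.Perm.coe_mul, Function.comp_apply]
  obtain ⟨α, β, hαβ⟩ := T_linear F hF y hy π hπ j hj1 hj2 T hT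
  have hTρ : ∀ k, ∑ l, (T k l : Om F) * ρ l = iO F α * ρ k := by
    intro k
    have h1 := congrArg (dcO F) (hαβ k)
    rw [map_add, map_sum, dcO_iO, add_zero, Derivation.leibniz, dcO_iO, smul_zero, add_zero, smul_eq_mul,
      dcO_y F hF y hy] at h1
    rw [← h1]
    refine Finset.sum_congr rfl (fun l _ => ?_)
    rw [← zsmul_eq_mul, ← zsmul_eq_mul, map_zsmul, dcO_y F hF y hy]
  have hα : α ≠ 0 := by
    intro h0
    apply hn
    have := ker_T nn ρ (fun i => by rw [hTρ i, h0, map_zero, zero_mul]) 1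
    simpa [hnn, hπ1] using this
  have hρ0 : ρ ≠ 0 := by
    intro h0
    apply hn
    apply Finset.sum_eq_zero
    intro k _
    have : rho (iO F) F (y k) = 0 := congrFun h0 k
    rw [this, mul_zero]
  have hδα : δ α = 0 := alpha_const (iO F) δ α T ρ hρ0 hTρ
  have hδα' : δ α⁻¹ = 0 := by
    have h1 : δ (α * α⁻¹) = 0 := by rw [mul_inv_cancel₀ hα]; exact Derivation.map_one_eq_zero _
    rw [Derivation.leibniz, hδα, smul_zero, add_zero, smul_eq_mul] at h1
    exact (mul_eq_zero.mp h1).resolve_left hα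
  have hTw : ∀ k, ∑ l, (T k l : Om F) * (DO F δ (ζ l) - ζ l - ρ l) = 0 := by
    intro k
    simp only [hTdef, Int.cast_sum, Int.cast_mul, Finset.sum_mul]
    rw [Finset.sum_comm]
    apply Finset.sum_eq_zero
    intro σ _
    have h1 := hw σ
    have h2 : ∑ l, (nn σ k : Om F) * (nn σ l : Om F) * (DO F δ (ζ l) - ζ l - ρ l) =
        (nn σ k : Om F) * ∑ l, (n (π σ l) : Om F) * (DO F δ (ζ l) - ζ l - rho (iO F) F (y l)) := by
      rw [Finset.mul_sum]
      refine Finset.sum_congr rfl (fun l _ => ?_)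
      simp only [hnn, hρ]
      ring
    rw [h2, h1, mul_zero]
  set z : Fin F.natDegree → Om F := fun k => iO F α⁻¹ * ∑ l, (T k l : Om F) * ζ l with hz
  have hzσ : ∀ (σ : GO F) k, σ (z k) = z (π σ k) := by
    intro σ k
    simp only [hz]
    rw [map_mul, sigma_iO, map_sum]
    congr 1
    rw [← Equiv.sum_comp (π σ) (fun l => (T (π σ k) l : Om F) * ζ l)]
    refine Finset.sum_congr rfl (fun l _ => ?_)
    rw [map_mul, map_intCast, hζ, hT]
  have hzD : ∀ k, DO F δ (z k) - z k = rho (iO F) F (y k) := by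
    intro k
    have e1 : DO F δ (z k) = iO F α⁻¹ * ∑ l, (T k l : Om F) * DO F δ (ζ l) := by
      simp only [hz]
      rw [Derivation.leibniz, DO_iO, hδα', map_zero, smul_zero, add_zero, smul_eq_mul, map_sum]
      congr 1
      refine Finset.sum_congr rfl (fun l _ => ?_)
      rw [← zsmul_eq_mul, ← zsmul_eq_mul, map_zsmul]
    have e2 : ∑ l, (T k l : Om F) * DO F δ (ζ l) = ∑ l, (T k l : Om F) * ζ l + iO F α * ρ k := by
      rw [← hTρ k, ← sub_eq_zero, ← hTw k, ← Finset.sum_add_distrib, ← Finset.sum_sub_distrib]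
      refine Finset.sum_congr rfl (fun l _ => ?_)
      ring
    have e3 : iO F α⁻¹ * iO F α = 1 := by rw [← map_mul, inv_mul_cancel₀ hα, map_one]
    rw [e1, e2]
    simp only [hz]
    have : ρ k = rho (iO F) F (y k) := rfl
    rw [← this]
    linear_combination ρ k * e3
  obtain ⟨N, Δ, hΔ, hN⟩ := equiv_rat F hF y hy π hπ z hzσ
  have k0 : Fin F.natDegree := ⟨0, hF⟩
  exact ⟨N, Δ, hΔ, TT_clear F hF δ y hy k0 (z k0) N Δ (hN k0) (hzD k0)⟩

end Pool.Agent.FCT
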