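import Pool.Agent.FCT.Q1
import Pool.Agent.FCT.Q3
import Pool.Agent.FCT.P3
import Pool.Agent.FCT.TT

/-! Row FCT-Q4a: Claim 1 for the order vectors of a place -/

set_option autoImplicit false

namespace Pool.Agent.FCT

open Polynomial Finset
variable {κ : Type*} [Field κ]

/-- `claim1` for any `ℤ`-algebra structures (they are unique) -/
theorem Q4a_claim1 {Ω E' Lb : Type*} [Field Ω] [Field E'] [Field Lb] [CharZero Lb] (A1 : Algebra ℤ Ω) (A2 : Algebra ℤ E')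
    (d : @Derivation ℤ Ω Ω _ _ _ A1 _ _) (j : Ω →+* E') (dE : @Derivation ℤ E' E' _ _ _ A2 _ _)
    (hj : ∀ z, dE (j z) = j (d z)) {ι : Type*} [Fintype ι] [DecidableEq ι]
    (l : ι → E') (g : ι → Ω) (hg : ∀ i, g i ≠ 0) (hl : ∀ i, dE (l i) = j (d (g i) * (g i)⁻¹))
    (e : ℕ) (he : 1 ≤ e) (φ : Ω →+* LaurentSeries Lb) (hφ : ∀ z, dF Lb e (φ z) = φ (d z))
    (w : ι → Ω) (η : Ω) (hw : ∑ i, j (w i) * l i = j η) :
    ∑ i, (((φ (g i)).order : ℤ) : Ω) * w i = 0 := by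
  obtain rfl : A1 = Ring.toIntAlgebra Ω := Subsingleton.elim _ _
  obtain rfl : A2 = Ring.toIntAlgebra E' := Subsingleton.elim _ _
  exact claim1 d j dE hj l g hg hl e he φ hφ w η hw

/-- Claim 1 for the order vectors of a place: apply `claim1` with `φ ∘ σ` (`sigma_dcO`), `g = gO`, `l = lg …`, `hl` from `dcE_lg`. -/
theorem claim1_NN [CharZero κ] {Lb L : Type*} [Field Lb] [CharZero Lb] [Field L] [CharZero L] [Algebra κ L] (F : κ[X])
    (hF : 1 ≤ F.natDegree)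
    (s : κ) (y : Fin F.natDegree → Om F) (hy : Roots (iO F) (cO F) F y)
    (j : Om F →+* LaurentSeries L) (hj1 : ∀ b : κ, j (iO F b) = iE κ L b) (hj2 : j (cO F) = cE L F.natDegree)
    (hj3 : ∀ z, dcE L F.natDegree (j z) = j (dcO F z)) (e : ℕ) (he : 1 ≤ e) (φ : Om F →+* LaurentSeries Lb)
    (hφ : ∀ z, dF Lb e (φ z) = φ (dcO F z)) (w : Fin F.natDegree → Om F) (η : Om F) (hw : Th F s y j w = j η)
    (n : Fin F.natDegree → ℤ) (hn : n ∈ NN F s y φ) : ∑ i, (n i : Om F) * w i = 0 := by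
  obtain ⟨σ, rfl⟩ := hn
  exact Q4a_claim1 _ _ (dcO F) j (dcE L F.natDegree) hj3 (fun i => lg (iE κ L s * (j (y i))⁻¹))
    (fun i => gO F s (y i))
    (fun i => gO_ne_zero F s y hy i) (fun i => dcE_lg F hF s y hy j hj1 hj2 hj3 i) e he
    (φ.comp (σ : Om F →+* Om F)) (fun z => by
      rw [RingHom.comp_apply, RingHom.comp_apply, hφ]
      exact congrArg φ (sigma_dcO F σ z)) w η hw

end Pool.Agent.FCT
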