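import Pool.Agent.FCT.Q5a

/-! Row FCT-Q5: Part II, second conclusion -/

set_option autoImplicit false

namespace Pool.Agent.FCT

open Polynomial Finset
variable {κ : Type*} [Field κ]

/-- Part II, second conclusion.  Proof.  Same data as in `part2a`.  `ζ1 = ζ + ρ`; `D ρ_i = 0` gives `D ζ1_i - ζ1_i = w_i`.  For `n ∈ NN φA ∪ NN φB`:
`∑ n_i w_i = 0` (`claim1_NN`, `exists_eta`), so `θ = ∑ n_i ζ1_i` satisfies `D θ = θ`; then `dD (j θ) = j θ`, coefficientwise `δL x = x`, so `j θ = 0` (`no_exp`), `θ = 0`.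
`claim2` (with `w = j ∘ ζ1`): `Th ζ1 = 0`, so `toE h = - Th ζ + j u = Th ρ + j u = - toE (ν ↦ ISk s (F^ν)) + j u` (`toE_eq_Th`, `k = 0`), `j u = evc a / evc P`. -/
theorem part2b [CharZero κ] {L : Type*} [Field L] [CharZero L] [Algebra κ L] [Algebra.IsAlgebraic κ L]
    (δ : Derivation ℤ κ κ) (δL : Derivation ℤ L L)
    (hδ : ∀ a : κ, δL (algebraMap κ L a) = algebraMap κ L (δ a)) (F : κ[X]) (hF : 1 ≤ F.natDegree)
    (hs : (C (algebraMap κ L F.leadingCoeff) * X ^ F.natDegree - 1 : L[X]).Splits) (s : κ)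
    (h : ℕ → κ) (hh : ∀ ν, δ (h ν) = h ν + if ν = 0 then 0 else ISk s (F ^ ν))
    (P : κ[X]) (hP : P ≠ 0) (Q : Fin F.natDegree → κ[X])
    (hrel : ∀ ν, act P h ν = ∑ l : Fin F.natDegree, act (Q l) (fun m => ISk s (X ^ (l : ℕ) * F ^ m)) ν)
    (hne : ∀ (n : ℕ) (a : κ), 1 ≤ n → δ a = n * a → a = 0)
    (hρ : ∀ z : Om F, eval₂ (iO F) z F = cO F → DO F δ (rho (iO F) F z) = 0) :
    ∃ a : κ[X], evc κ L F.natDegree P * (toE L F.natDegree h + toE L F.natDegree (fun ν => ISk s (F ^ ν))) =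
      evc κ L F.natDegree a := by
  obtain ⟨j, hj1, hj2, hj3, hj4⟩ := exists_inf (L := L) δ δL hδ F hF hs
  obtain ⟨y, hy⟩ := exists_rootsO F hF
  obtain ⟨π, hπ, hmul⟩ := exists_perm F hF y hy
  obtain ⟨eA, heA, φA, hA1, hA2, hA3⟩ := exists_fin F hF s
  obtain ⟨eB, heB, φB, hB1, hB2, hB3⟩ := exists_fin F hF 0
  obtain ⟨ζ, a, hζ, hrep⟩ := exists_rep F hF s y hy π hπ j hj1 hj2 h P hP Q hrel
  obtain ⟨η, hη⟩ := exists_eta F hF δ δL hδ s y hy j hj1 hj2 hj4 h hh ζ _ hrep
  have hDρ : ∀ i, DO F δ (rho (iO F) F (y i)) = 0 := fun i => hρ _ (Roots_eval F _ _ y hy i)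
  have hkey : ∀ n ∈ NN F s y φA ∪ NN F s y φB,
      ∑ i, (n i : Om F) * (ζ i + rho (iO F) F (y i)) = 0 := by
    intro n hn
    have hw : ∑ i, (n i : Om F) * (DO F δ (ζ i) - ζ i - rho (iO F) F (y i)) = 0 := by
      rcases hn with hn | hn
      · exact claim1_NN F hF s y hy j hj1 hj2 hj3 eA heA φA hA3 _ η hη n hn
      · exact claim1_NN F hF s y hy j hj1 hj2 hj3 eB heB φB hB3 _ η hη n hn
    have hD : DO F δ (∑ i, (n i : Om F) * (ζ i + rho (iO F) F (y i))) =
        ∑ i, (n i : Om F) * (ζ i + rho (iO F) F (y i)) := by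
      rw [map_sum]
      have h1 : ∀ i, DO F δ ((n i : Om F) * (ζ i + rho (iO F) F (y i))) =
          (n i : Om F) * (ζ i + rho (iO F) F (y i)) +
            (n i : Om F) * (DO F δ (ζ i) - ζ i - rho (iO F) F (y i)) := by
        intro i
        have h2 : DO F δ ((n i : Om F) * (ζ i + rho (iO F) F (y i))) =
            (n i : Om F) * DO F δ (ζ i + rho (iO F) F (y i)) := by
          rw [← zsmul_eq_mul, map_zsmul, zsmul_eq_mul]
        rw [h2, map_add, hDρ i]
        ring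
      rw [Finset.sum_congr rfl (fun i _ => h1 i), Finset.sum_add_distrib, hw, add_zero]
    have hjθ : j (∑ i, (n i : Om F) * (ζ i + rho (iO F) F (y i))) = 0 := by
      have h3 := hj4 (∑ i, (n i : Om F) * (ζ i + rho (iO F) F (y i)))
      rw [hD] at h3
      ext m
      have h4 := coeff_dD δL (j (∑ i, (n i : Om F) * (ζ i + rho (iO F) F (y i)))) m
      rw [h3] at h4
      rw [HahnSeries.coeff_zero]
      exact no_exp δ δL hδ hne _ h4.symm
    exact (map_eq_zero j).1 hjθ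
  have hTh : Th F s y j (fun i => ζ i + rho (iO F) F (y i)) = 0 := by
    refine claim2 F hF s y hy φA hA1 eA heA hA2 φB hB1 eB heB hB2 j hj1 hj2
      (fun i => j (ζ i + rho (iO F) F (y i))) ?_
    intro n hn
    have h5 := congrArg j (hkey n hn)
    rw [map_sum, map_zero] at h5
    rw [← h5]
    refine Finset.sum_congr rfl fun i _ => ?_
    rw [map_mul, map_intCast]
  have hadd : Th F s y j (fun i => ζ i + rho (iO F) F (y i)) =
      Th F s y j ζ + Th F s y j (fun i => rho (iO F) F (y i)) := by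
    unfold Th
    rw [← Finset.sum_add_distrib]
    refine Finset.sum_congr rfl fun i _ => ?_
    rw [map_add, add_mul]
  have hE := toE_eq_Th (L := L) F hF s y hy j hj1 hj2 0 (by omega)
  have hE1 : toE L F.natDegree (fun ν => ISk s (F ^ ν)) = - Th F s y j (fun i => rho (iO F) F (y i)) := by
    simpa only [pow_zero, one_mul, mul_one] using hE
  have hjev : ∀ p : κ[X], j (evO F p) = evc κ L F.natDegree p := by
    intro p
    have h6 : j (evO F p) = eval₂ (j.comp (iO F)) (j (cO F)) p := by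
      show j (eval₂ (iO F) (cO F) p) = _
      rw [Polynomial.hom_eval₂]
    rw [h6, hj2]
    have h7 : j.comp (iO F) = iE κ L := RingHom.ext hj1
    rw [h7]
    rfl
  have hP0 : evO F P ≠ 0 := by
    intro h8
    exact hP (evO_injective F (by rw [h8, map_zero]))
  refine ⟨a, ?_⟩
  have hsum : toE L F.natDegree h + toE L F.natDegree (fun ν => ISk s (F ^ ν)) =
      j (evO F a * (evO F P)⁻¹) := by
    rw [hrep, hE1]
    have h9 : Th F s y j ζ = - Th F s y j (fun i => rho (iO F) F (y i)) :=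
      eq_neg_of_add_eq_zero_left (by rw [← hadd]; exact hTh)
    rw [h9]
    ring
  rw [hsum, ← hjev, ← map_mul, ← hjev]
  congr 1
  field_simp

end Pool.Agent.FCT
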