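import Pool.Agent.FCT.Q4a

/-! Row FCT-Q5a: no exponentials -/

set_option autoImplicit false

namespace Pool.Agent.FCT

open Polynomial Finset
variable {κ : Type*} [Field κ]

theorem Q5a_pow {L : Type*} [Field L] (δL : Derivation ℤ L L) (x : L) (hx : δL x = x) (i : ℕ) :
    δL (x ^ i) = (i : L) * x ^ i := by
  induction i with
  | zero => simp
  | succ m ih =>
    rw [pow_succ, Derivation.leibniz, ih, hx]
    simp only [smul_eq_mul]
    push_cast
    ring

/-- No exponentials in an algebraic extension.  Proof.  Let `x ≠ 0`, `δL x = x`, minimal polynomial `X^n + a_{n-1} X^{n-1} + … + a_0` over `κ`, `n ≥ 1`, `a_0 ≠ 0`.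
Apply `δL` to the relation and subtract `n` times it: `∑_{i<n} (δ a_i + i a_i - n a_i) x^i = 0`, degree `< n`, so `δ a_0 = n a_0`, contradiction with `hne`. -/
theorem no_exp {L : Type*} [Field L] [Algebra κ L] [Algebra.IsAlgebraic κ L] (δ : Derivation ℤ κ κ) (δL : Derivation ℤ L L)
    (hδ : ∀ a : κ, δL (algebraMap κ L a) = algebraMap κ L (δ a))
    (hne : ∀ (n : ℕ) (a : κ), 1 ≤ n → δ a = n * a → a = 0) (x : L) (hx : δL x = x) : x = 0 := by
  by_contra hx0
  have hint : IsIntegral κ x := (Algebra.IsAlgebraic.isAlgebraic x).isIntegral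
  set p := minpoly κ x with hp
  have hmon : p.Monic := minpoly.monic hint
  have hn : 1 ≤ p.natDegree := minpoly.natDegree_pos hint
  set n := p.natDegree with hnn
  have hroot : ∑ i ∈ range (n + 1), algebraMap κ L (p.coeff i) * x ^ i = 0 := by
    have h1 := minpoly.aeval κ x
    rw [← hp, aeval_eq_sum_range, ← hnn] at h1
    simpa [Algebra.smul_def] using h1
  have hD : ∑ i ∈ range (n + 1), algebraMap κ L (δ (p.coeff i) + i * p.coeff i) * x ^ i = 0 := by
    have h1 := congrArg δL hroot
    rw [map_zero, map_sum] at h1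
    rw [← h1]
    refine Finset.sum_congr rfl fun i _ => ?_
    rw [Derivation.leibniz, Q5a_pow δL x hx, hδ]
    simp only [smul_eq_mul, map_add, map_mul, map_natCast]
    ring
  set q : κ[X] := ∑ i ∈ range n, C (δ (p.coeff i) + i * p.coeff i - n * p.coeff i) * X ^ i with hq
  have hqc : ∀ m, m < n → q.coeff m = δ (p.coeff m) + m * p.coeff m - n * p.coeff m := by
    intro m hm
    rw [hq, Polynomial.finsetSum_coeff]
    simp only [coeff_C_mul, coeff_X_pow]
    rw [Finset.sum_eq_single m]
    · simp
    · intro b _ hb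
      simp [Ne.symm hb]
    · intro h
      exact absurd (Finset.mem_range.2 hm) h
  have hqd : q.degree < p.degree := by
    rw [degree_eq_natDegree hmon.ne_zero, ← hnn]
    rw [hq]
    refine lt_of_le_of_lt (degree_sum_le _ _) ?_
    rw [Finset.sup_lt_iff (WithBot.bot_lt_coe _)]
    intro i hi
    refine lt_of_le_of_lt (degree_C_mul_X_pow_le _ _) ?_
    exact_mod_cast Finset.mem_range.1 hi
  have hq0 : aeval x q = 0 := by
    have hlast : p.coeff n = 1 := hmon.coeff_natDegree
    have h2 : ∑ i ∈ range (n + 1), algebraMap κ L (δ (p.coeff i) + i * p.coeff i - n * p.coeff i) * x ^ i = 0 := by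
      have : ∑ i ∈ range (n + 1), algebraMap κ L (δ (p.coeff i) + i * p.coeff i - n * p.coeff i) * x ^ i
          = ∑ i ∈ range (n + 1), algebraMap κ L (δ (p.coeff i) + i * p.coeff i) * x ^ i
            - (n : L) * ∑ i ∈ range (n + 1), algebraMap κ L (p.coeff i) * x ^ i := by
        rw [Finset.mul_sum, ← Finset.sum_sub_distrib]
        refine Finset.sum_congr rfl fun i _ => ?_
        simp only [map_sub, map_add, map_mul, map_natCast]
        ring
      rw [this, hD, hroot]
      ring
    rw [Finset.sum_range_succ, hlast] at h2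
    rw [hq, map_sum]
    have h3 : algebraMap κ L (δ 1 + n * 1 - n * 1) * x ^ n = 0 := by
      simp
    rw [h3, add_zero] at h2
    rw [← h2]
    refine Finset.sum_congr rfl fun i _ => ?_
    simp
  have hqz : q = 0 := by
    by_contra hne'
    have := minpoly.degree_le_of_ne_zero κ x hne' hq0
    exact absurd hqd (not_lt.2 this)
  have h0 := hqc 0 (by omega)
  rw [hqz, coeff_zero] at h0
  have h1 : δ (p.coeff 0) = n * p.coeff 0 := by
    have h2 : δ (p.coeff 0) - n * p.coeff 0 = 0 := by
      rw [h0]; push_cast; ring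
    linear_combination h2
  have h3 := hne n (p.coeff 0) hn h1
  exact minpoly.coeff_zero_ne_zero hint hx0 h3

/-- In `K(s)`: `δ a = n a`, `n ≥ 1`, implies `a = 0`.  Proof: `a = p/q`, `q ≠ 0`: `p' q - p q' = n p q`; if `p ≠ 0` the degree of the right side is
`deg p + deg q`, the left side has smaller degree. -/
theorem no_exp_ratFunc {K : Type*} [Field K] [CharZero K] (δ : Derivation ℤ (RatFunc K) (RatFunc K))
    (hδ : ∀ p : K[X], δ (algebraMap K[X] (RatFunc K) p) = algebraMap K[X] (RatFunc K) (derivative p))
    (n : ℕ) (hn : 1 ≤ n) (a : RatFunc K) (ha : δ a = n * a) : a = 0 := by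
  by_contra ha0
  set p := a.num with hp
  set q := a.denom with hq
  have hq0 : q ≠ 0 := a.denom_ne_zero
  have hqq : algebraMap K[X] (RatFunc K) q ≠ 0 := RatFunc.algebraMap_ne_zero hq0
  have hp0 : p ≠ 0 := RatFunc.num_ne_zero ha0
  have haq : a * algebraMap K[X] (RatFunc K) q = algebraMap K[X] (RatFunc K) p := by
    have := RatFunc.num_div_denom a
    rw [← hp, ← hq] at this
    rw [div_eq_iff hqq] at this
    exact this.symm
  have h1 := congrArg δ haq
  rw [Derivation.leibniz, hδ, hδ, ha] at h1
  simp only [smul_eq_mul] at h1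
  have h2 : algebraMap K[X] (RatFunc K) (p * derivative q + (n : K[X]) * (p * q))
      = algebraMap K[X] (RatFunc K) (derivative p * q) := by
    simp only [map_add, map_mul, map_natCast]
    rw [← haq]
    linear_combination (algebraMap K[X] (RatFunc K) q) * h1
  have h3 : p * derivative q + (n : K[X]) * (p * q) = derivative p * q :=
    RatFunc.algebraMap_injective K h2
  have h4 : (n : K[X]) * (p * q) = derivative p * q - p * derivative q := by
    rw [← h3]; ring
  have hnK : (n : K) ≠ 0 := by
    exact_mod_cast (by omega : n ≠ 0)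
  have h5 := congrArg (fun r => coeff r (p.natDegree + q.natDegree)) h4
  beta_reduce at h5
  have e1 : coeff ((n : K[X]) * (p * q)) (p.natDegree + q.natDegree) = n * (p.leadingCoeff * q.leadingCoeff) := by
    rw [show (n : K[X]) = C (n : K) by simp, coeff_C_mul, coeff_mul_degree_add_degree]
  have e2 : coeff (derivative p * q) (p.natDegree + q.natDegree) = 0 := by
    by_cases hd : p.natDegree = 0
    · have : derivative p = 0 := by
        obtain ⟨c, hc⟩ := natDegree_eq_zero.1 hd
        rw [← hc]; simp
      rw [this]; simp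
    · apply coeff_eq_zero_of_natDegree_lt
      refine lt_of_le_of_lt natDegree_mul_le ?_
      have := natDegree_derivative_lt hd
      omega
  have e3 : coeff (p * derivative q) (p.natDegree + q.natDegree) = 0 := by
    by_cases hd : q.natDegree = 0
    · have : derivative q = 0 := by
        obtain ⟨c, hc⟩ := natDegree_eq_zero.1 hd
        rw [← hc]; simp
      rw [this]; simp
    · apply coeff_eq_zero_of_natDegree_lt
      refine lt_of_le_of_lt natDegree_mul_le ?_
      have := natDegree_derivative_lt hd
      omega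
  rw [e1, coeff_sub, e2, e3, sub_zero] at h5
  rcases mul_eq_zero.1 h5 with h6 | h6
  · exact hnK h6
  · rcases mul_eq_zero.1 h6 with h7 | h7
    · exact hp0 (leadingCoeff_eq_zero.1 h7)
    · exact hq0 (leadingCoeff_eq_zero.1 h7)

end Pool.Agent.FCT
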