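import Pool.Agent.FCT.EDefs

/-! Row FCT-R1: orders of Laurent series.  (`HahnSeries.coeff_mul`, `HahnSeries.order`, `HahnSeries.leadingCoeff`.) -/

set_option autoImplicit false

namespace Pool.Agent.FCT

open Polynomial Finset

variable {L : Type*} [Field L]

theorem Ov_mono {N M : ℤ} (h : N ≤ M) {z : LaurentSeries L} (hz : Ov M z) : Ov N z :=
  fun n hn => hz n (lt_of_lt_of_le hn h)

theorem Ov_zero (N : ℤ) : Ov N (0 : LaurentSeries L) := fun _ _ => HahnSeries.coeff_zero

theorem Ov_add {N : ℤ} {z w : LaurentSeries L} (hz : Ov N z) (hw : Ov N w) : Ov N (z + w) := by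
  intro n hn
  rw [HahnSeries.coeff_add, hz n hn, hw n hn, add_zero]

theorem Ov_neg {N : ℤ} {z : LaurentSeries L} (hz : Ov N z) : Ov N (-z) := by
  intro n hn
  rw [HahnSeries.coeff_neg, hz n hn, neg_zero]

theorem Ov_sub {N : ℤ} {z w : LaurentSeries L} (hz : Ov N z) (hw : Ov N w) : Ov N (z - w) := by
  intro n hn
  rw [HahnSeries.coeff_sub, hz n hn, hw n hn, sub_zero]

theorem Ov_sum {α : Type*} (s : Finset α) (f : α → LaurentSeries L) {N : ℤ} (h : ∀ i ∈ s, Ov N (f i)) :
    Ov N (∑ i ∈ s, f i) := by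
  classical
  induction s using Finset.induction_on with
  | empty => exact Ov_zero N
  | insert i s hi ih =>
    rw [Finset.sum_insert hi]
    exact Ov_add (h i (Finset.mem_insert_self i s)) (ih fun j hj => h j (Finset.mem_insert_of_mem hj))

theorem Ov_mul {N M : ℤ} {z w : LaurentSeries L} (hz : Ov N z) (hw : Ov M w) : Ov (N + M) (z * w) := by
  intro n hn
  rw [HahnSeries.coeff_mul]
  refine Finset.sum_eq_zero fun ij hij => ?_
  rw [Finset.mem_antidiagonal] at hij
  obtain ⟨-, -, h⟩ := hij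
  by_cases h1 : ij.1 < N
  · rw [hz _ h1, zero_mul]
  · rw [hw _ (by omega), mul_zero]

theorem Ov_single (n : ℤ) (a : L) : Ov n (HahnSeries.single n a : LaurentSeries L) := by
  intro m hm
  exact HahnSeries.coeff_single_of_ne hm.ne

theorem Ov_C (a : L) : Ov 0 (HahnSeries.C a : LaurentSeries L) := Ov_single 0 a

theorem Ov_one : Ov 0 (1 : LaurentSeries L) := Ov_single 0 1

theorem Ov_pow {N : ℤ} {z : LaurentSeries L} (hz : Ov N z) (n : ℕ) : Ov (n * N) (z ^ n) := by
  induction n with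
  | zero =>
    simp only [Nat.cast_zero, zero_mul, pow_zero]
    exact Ov_one
  | succ n ih =>
    rw [pow_succ]
    have h := Ov_mul ih hz
    have e : ((n + 1 : ℕ) : ℤ) * N = (n : ℤ) * N + N := by push_cast; ring
    rw [e]
    exact h

/-- a nonzero series has an exact order -/
theorem exists_lead {z : LaurentSeries L} (hz : z ≠ 0) : ∃ N : ℤ, Ov N z ∧ z.coeff N ≠ 0 :=
  ⟨z.order, fun _ hn => HahnSeries.coeff_eq_zero_of_lt_order hn, mt HahnSeries.coeff_order_eq_zero.1 hz⟩

theorem exists_Ov (z : LaurentSeries L) : ∃ N : ℕ, Ov (-(N : ℤ)) z := by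
  by_cases hz : z = 0
  · exact ⟨0, by rw [hz]; exact Ov_zero _⟩
  · obtain ⟨N, hN, -⟩ := exists_lead hz
    refine ⟨N.natAbs, Ov_mono ?_ hN⟩
    rw [Int.natCast_natAbs]
    exact neg_abs_le N

theorem eq_zero_of_Ov {z : LaurentSeries L} (h : ∀ N : ℕ, Ov (N : ℤ) z) : z = 0 := by
  by_contra hz
  obtain ⟨N, -, hN⟩ := exists_lead hz
  refine hN (h (N.natAbs + 1) N ?_)
  rw [Nat.cast_add, Int.natCast_natAbs, Nat.cast_one]
  exact lt_of_le_of_lt (le_abs_self N) (lt_add_one _)

theorem coeff_mul_lead {N M : ℤ} {z w : LaurentSeries L} (hz : Ov N z) (hw : Ov M w) :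
    (z * w).coeff (N + M) = z.coeff N * w.coeff M := by
  rw [HahnSeries.coeff_mul]
  rw [Finset.sum_eq_single (N, M)]
  · rintro ⟨i, j⟩ hij hne
    rw [Finset.mem_antidiagonal] at hij
    obtain ⟨-, -, h⟩ := hij
    simp only at h ⊢
    by_cases h1 : i < N
    · rw [hz _ h1, zero_mul]
    · by_cases h2 : i = N
      · exact absurd (Prod.ext h2 (by simp only; omega)) hne
      · rw [hw _ (by omega), mul_zero]
  · intro h
    rw [Finset.mem_antidiagonal] at h
    simp only [HahnSeries.mem_support, and_true] at h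
    by_cases h1 : z.coeff N = 0
    · rw [h1, zero_mul]
    · have h2 : w.coeff M = 0 := by
        by_contra h3
        exact h ⟨h1, h3⟩
      rw [h2, mul_zero]

theorem Ov_inv {N : ℤ} {z : LaurentSeries L} (hz : Ov N z) (h : z.coeff N ≠ 0) :
    Ov (-N) z⁻¹ ∧ (z⁻¹).coeff (-N) = (z.coeff N)⁻¹ := by
  have hz0 : z ≠ 0 := by
    rintro rfl
    exact h HahnSeries.coeff_zero
  obtain ⟨M, hM, hM0⟩ := exists_lead (inv_ne_zero hz0)
  have h1 := coeff_mul_lead hz hM
  rw [mul_inv_cancel₀ hz0, HahnSeries.coeff_one] at h1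
  by_cases h2 : N + M = 0
  · have h3 : M = -N := by omega
    subst h3
    rw [if_pos h2] at h1
    exact ⟨hM, (eq_inv_of_mul_eq_one_right h1.symm)⟩
  · rw [if_neg h2] at h1
    exact absurd h1.symm (mul_ne_zero h hM0)

/-- If `z w` has order `≥ N` and `w` has exact order `M` then `z` has order `≥ N - M`. -/
theorem Ov_of_mul {N M : ℤ} {z w : LaurentSeries L} (h : Ov N (z * w)) (hw : Ov M w) (h0 : w.coeff M ≠ 0) :
    Ov (N - M) z := by
  have hw0 : w ≠ 0 := by
    rintro rfl
    exact h0 HahnSeries.coeff_zero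
  have h1 := Ov_mul h (Ov_inv hw h0).1
  rw [mul_assoc, mul_inv_cancel₀ hw0, mul_one] at h1
  exact h1

end Pool.Agent.FCT
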