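import Pool.Agent.FCT.R4

/-! Row FCT-R5: the series `toE a = ∑ a_ν c^(-ν-1)`. -/

set_option autoImplicit false

namespace Pool.Agent.FCT

open Polynomial Finset

variable {κ L : Type*} [Field κ] [Field L] [Algebra κ L]

theorem R5_nat (E : ℕ) (a : ℕ → κ) (n : ℕ) :
    (toE L E a).coeff (n : ℤ) = if E ∣ n ∧ n ≠ 0 then algebraMap κ L (a (n / E - 1)) else 0 := by
  rw [toE, HahnSeries.ofPowerSeries_apply_coeff, PowerSeries.coeff_mk]

theorem R5_neg (E : ℕ) (a : ℕ → κ) (n : ℤ) (hn : n < 0) : (toE L E a).coeff n = 0 := by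
  rw [toE, HahnSeries.ofPowerSeries_apply]
  refine HahnSeries.embDomain_of_notMem_range ?_
  rintro ⟨m, hm⟩
  have hm' : (m : ℤ) = n := hm
  omega

theorem coeff_toE (E : ℕ) (hE : 1 ≤ E) (a : ℕ → κ) (ν : ℕ) :
    (toE L E a).coeff ((E * (ν + 1) : ℕ) : ℤ) = algebraMap κ L (a ν) := by
  rw [R5_nat, if_pos ⟨Dvd.intro _ rfl, (Nat.mul_pos hE (Nat.succ_pos ν)).ne'⟩, Nat.mul_div_cancel_left _ hE,
    Nat.add_sub_cancel]

theorem coeff_toE_of_not (E : ℕ) (a : ℕ → κ) (n : ℤ) (hn : ∀ ν : ℕ, n ≠ ((E * (ν + 1) : ℕ) : ℤ)) (hE : 1 ≤ E) :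
    (toE L E a).coeff n = 0 := by
  rcases lt_or_ge n 0 with h | h
  · exact R5_neg E a n h
  · obtain ⟨m, rfl⟩ := Int.eq_ofNat_of_zero_le h
    rw [R5_nat, if_neg]
    rintro ⟨⟨k, hk⟩, h0⟩
    have hk0 : k ≠ 0 := by
      rintro rfl
      exact h0 (by rw [hk, mul_zero])
    apply hn (k - 1)
    rw [Nat.sub_add_cancel (by omega), hk]

theorem R5_cases (E : ℕ) (n : ℤ) : (∃ ν : ℕ, n = ((E * (ν + 1) : ℕ) : ℤ)) ∨ ∀ ν : ℕ, n ≠ ((E * (ν + 1) : ℕ) : ℤ) := by
  by_cases h : ∃ ν : ℕ, n = ((E * (ν + 1) : ℕ) : ℤ)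
  · exact Or.inl h
  · exact Or.inr (not_exists.1 h)

theorem toE_add (E : ℕ) (a b : ℕ → κ) : toE L E (a + b) = toE L E a + toE L E b := by
  rw [toE, toE, toE, ← map_add]
  congr 1
  ext n
  rw [map_add, PowerSeries.coeff_mk, PowerSeries.coeff_mk, PowerSeries.coeff_mk]
  split_ifs
  · rw [Pi.add_apply, map_add]
  · rw [add_zero]

theorem toE_sub (E : ℕ) (a b : ℕ → κ) : toE L E (a - b) = toE L E a - toE L E b := by
  rw [toE, toE, toE, ← map_sub]
  congr 1
  ext n
  rw [map_sub, PowerSeries.coeff_mk, PowerSeries.coeff_mk, PowerSeries.coeff_mk]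
  split_ifs
  · rw [Pi.sub_apply, map_sub]
  · rw [sub_zero]

theorem toE_zero (E : ℕ) : toE L E (0 : ℕ → κ) = 0 := by
  have h := toE_add (L := L) E (0 : ℕ → κ) 0
  rw [add_zero] at h
  exact left_eq_add.1 h

theorem toE_sum (E : ℕ) {α : Type*} (s : Finset α) (a : α → ℕ → κ) :
    toE L E (∑ i ∈ s, a i) = ∑ i ∈ s, toE L E (a i) := by
  classical
  induction s using Finset.induction_on with
  | empty => rw [Finset.sum_empty, Finset.sum_empty, toE_zero]
  | insert i s hi ih => rw [Finset.sum_insert hi, Finset.sum_insert hi, toE_add, ih]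

theorem toE_mul_left (E : ℕ) (r : κ) (a : ℕ → κ) : toE L E (fun n => r * a n) = iE κ L r * toE L E a := by
  rw [toE, toE, iE, RingHom.comp_apply, ← HahnSeries.ofPowerSeries_C, ← map_mul]
  congr 1
  ext n
  rw [PowerSeries.coeff_C_mul, PowerSeries.coeff_mk, PowerSeries.coeff_mk]
  split_ifs
  · rw [map_mul]
  · rw [mul_zero]

theorem Ov_toE (E : ℕ) (hE : 1 ≤ E) (a : ℕ → κ) (N : ℕ) (h : ∀ ν < N, a ν = 0) :
    Ov ((E * (N + 1) : ℕ) : ℤ) (toE L E a) := by
  intro n hn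
  rcases R5_cases E n with ⟨ν, rfl⟩ | h1
  · rw [coeff_toE E hE, h ν, map_zero]
    have h2 : E * (ν + 1) < E * (N + 1) := by exact_mod_cast hn
    have h3 := lt_of_mul_lt_mul_left h2 (Nat.zero_le E)
    omega
  · exact coeff_toE_of_not E a n h1 hE

theorem toE_eq_zero (E : ℕ) (hE : 1 ≤ E) (a : ℕ → κ) (h : toE L E a = 0) (ν : ℕ) : a ν = 0 := by
  have h1 := coeff_toE (L := L) E hE a ν
  rw [h, HahnSeries.coeff_zero] at h1
  exact (map_eq_zero (algebraMap κ L)).1 h1.symm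

theorem dD_toE (δ : Derivation ℤ L L) (δ0 : Derivation ℤ κ κ)
    (hδ : ∀ a : κ, δ (algebraMap κ L a) = algebraMap κ L (δ0 a)) (E : ℕ) (a : ℕ → κ) :
    dD δ (toE L E a) = toE L E (fun n => δ0 (a n)) := by
  ext n
  rw [coeff_dD]
  rcases lt_or_ge n 0 with h | h
  · rw [R5_neg E a n h, R5_neg E _ n h, map_zero]
  · obtain ⟨m, rfl⟩ := Int.eq_ofNat_of_zero_le h
    rw [R5_nat, R5_nat]
    split_ifs
    · rw [hδ]
    · rw [map_zero]

/-- `c * toE b = toE (shift b) + b 0` -/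
theorem R5_shift (E : ℕ) (hE : 1 ≤ E) (b : ℕ → κ) :
    cE L E * toE L E b = toE L E (fun n => b (n + 1)) + iE κ L (b 0) := by
  ext n
  rw [cE, HahnSeries.coeff_single_mul, one_mul, HahnSeries.coeff_add, iE, RingHom.comp_apply, HahnSeries.C_apply]
  have e : n - -(E : ℤ) = n + E := by ring
  rw [e]
  by_cases h0 : n = 0
  · subst h0
    have e1 : (0 : ℤ) + E = ((E * (0 + 1) : ℕ) : ℤ) := by push_cast; ring
    rw [e1, coeff_toE E hE, HahnSeries.coeff_single_same, coeff_toE_of_not E _ 0 (fun ν h => ?_) hE, zero_add]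
    have h2 := Nat.mul_pos hE (Nat.succ_pos ν)
    have h3 : (0 : ℤ) < ((E * (ν + 1) : ℕ) : ℤ) := by exact_mod_cast h2
    omega
  · rw [HahnSeries.coeff_single_of_ne h0, add_zero]
    rcases R5_cases E n with ⟨ν, rfl⟩ | h1
    · have e1 : ((E * (ν + 1) : ℕ) : ℤ) + E = ((E * (ν + 1 + 1) : ℕ) : ℤ) := by push_cast; ring
      rw [e1, coeff_toE E hE, coeff_toE E hE]
    · rw [coeff_toE_of_not E _ n h1 hE, coeff_toE_of_not E _ _ (fun ν h => ?_) hE]
      rcases Nat.eq_zero_or_pos ν with h2 | h2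
      · subst h2
        apply h0
        have e1 : ((E * (0 + 1) : ℕ) : ℤ) = E := by push_cast; ring
        rw [e1] at h
        omega
      · apply h1 (ν - 1)
        rw [Nat.sub_add_cancel h2]
        have e1 : ((E * (ν + 1) : ℕ) : ℤ) = ((E * ν : ℕ) : ℤ) + E := by push_cast; ring
        rw [e1] at h
        omega

theorem R5_pow (E : ℕ) (hE : 1 ≤ E) (b : ℕ → κ) (j : ℕ) :
    ∃ T : κ[X], T.natDegree ≤ j ∧ cE L E ^ j * toE L E b = toE L E (fun n => b (n + j)) + evc κ L E T := by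
  induction j with
  | zero => exact ⟨0, by rw [natDegree_zero], by rw [pow_zero, one_mul, map_zero, add_zero]; rfl⟩
  | succ j ih =>
    obtain ⟨T, hT, h⟩ := ih
    refine ⟨X * T + C (b j), ?_, ?_⟩
    · refine (natDegree_add_le _ _).trans (max_le ?_ ?_)
      · refine natDegree_mul_le.trans ?_
        have := natDegree_X_le (R := κ)
        omega
      · rw [natDegree_C]
        exact Nat.zero_le _
    · rw [pow_succ', mul_assoc, h, mul_add, R5_shift E hE, map_add, map_mul, evc_X, evc_C]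
      have e1 : (fun n => b (n + 1 + j)) = fun n => b (n + (j + 1)) := by
        funext n
        congr 1
        ring
      rw [e1, zero_add]
      ring

/-- `P(c) ∑ a_ν c^(-ν-1) = ∑ (act P a)_ν c^(-ν-1) + (polynomial in c of degree < natDegree P)`:
for `P = X`, `c * toE a = toE (shift a) + a_0`; then induction (`act_mul`) or directly on monomials. -/
theorem toE_act (E : ℕ) (hE : 1 ≤ E) (P : κ[X]) (a : ℕ → κ) :
    ∃ T : κ[X], T.natDegree ≤ P.natDegree ∧ evc κ L E P * toE L E a = toE L E (act P a) + evc κ L E T := by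
  choose T hT hT' using fun j => R5_pow (L := L) E hE a j
  refine ⟨∑ j ∈ range (P.natDegree + 1), C (P.coeff j) * T j, ?_, ?_⟩
  · refine natDegree_sum_le_of_forall_le _ _ fun j hj => ?_
    rw [Finset.mem_range] at hj
    exact (natDegree_C_mul_le _ _).trans ((hT j).trans (by omega))
  · have h1 : act P a = ∑ j ∈ range (P.natDegree + 1), fun n => P.coeff j * a (n + j) := by
      funext n
      rw [act_apply P a n (Nat.lt_succ_self _), Finset.sum_apply]
    have h2 : evc κ L E P = ∑ j ∈ range (P.natDegree + 1), iE κ L (P.coeff j) * cE L E ^ j := by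
      simp only [evc, coe_eval₂RingHom]
      rw [eval₂_eq_sum_range]
    rw [h1, toE_sum, h2, Finset.sum_mul, map_sum, ← Finset.sum_add_distrib]
    refine Finset.sum_congr rfl fun j _ => ?_
    rw [mul_assoc, hT', toE_mul_left, map_mul, evc_C, mul_add]

/-- the geometric series: `(c - A) * toE (A^ν) = 1` -/
theorem toE_geo (E : ℕ) (hE : 1 ≤ E) (A : κ) :
    (cE L E - iE κ L A) * toE L E (fun n => A ^ n) = 1 := by
  rw [sub_mul, R5_shift E hE, ← toE_mul_left]
  have e1 : (fun n => A ^ (n + 1)) = fun n => A * A ^ n := by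
    funext n
    rw [pow_succ']
  rw [e1, pow_zero, map_one]
  ring

end Pool.Agent.FCT
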