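import Pool.Agent.FCT.W1

set_option autoImplicit false

namespace Pool.Agent.FCT

open Polynomial

/-- `R = ℂ[w]((t))` -/
abbrev RW := LaurentSeries ℂ[X]

end Pool.Agent.FCT
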