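import Pool.Agent.FCT.O8

/-! Row FCT-T2: equivariant tuples are values of a rational function. -/

set_option autoImplicit false

namespace Pool.Agent.FCT

open Polynomial Finset

variable {κ : Type*} [Field κ]

theorem T2_evO_comp (F P : κ[X]) (η : Om F) (h : eval₂ (iO F) η F = cO F) :
    evO F P = eval₂ (iO F) η (P.comp F) := by
  rw [Polynomial.eval₂_comp, h]; rfl

theorem T2_comp_ne (F P : κ[X]) (hF : 1 ≤ F.natDegree) (hP : P ≠ 0) : P.comp F ≠ 0 := by
  intro h
  rw [Polynomial.comp_eq_zero_iff] at h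
  rcases h with h | ⟨_, h⟩
  · exact hP h
  · have : F.natDegree = 0 := by rw [h]; exact Polynomial.natDegree_C _
    omega

/-- the interpolation polynomial of an equivariant tuple is fixed -/
theorem T2_interp (F : κ[X]) (y : Fin F.natDegree → Om F) (hinj : Function.Injective y)
    (π : GO F → Equiv.Perm (Fin F.natDegree)) (hπ : ∀ σ k, σ (y k) = y (π σ k))
    (z : Fin F.natDegree → Om F) (hz : ∀ (σ : GO F) k, σ (z k) = z (π σ k)) (σ : GO F) (a : ℕ) :
    σ ((Lagrange.interpolate Finset.univ y z).coeff a) = (Lagrange.interpolate Finset.univ y z).coeff a := by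
  classical
  have hi : Set.InjOn y ((Finset.univ : Finset (Fin F.natDegree)) : Set (Fin F.natDegree)) := hinj.injOn
  have h1 : (Lagrange.interpolate Finset.univ y z).map (σ : Om F →+* Om F) =
      Lagrange.interpolate Finset.univ y z := by
    apply Lagrange.eq_interpolate_of_eval_eq _ hi
    · refine lt_of_le_of_lt (Polynomial.degree_map_le) ?_
      exact Lagrange.degree_interpolate_lt _ hi
    · intro l _
      have hl : l = π σ ((π σ).symm l) := by simp
      have e1 : y l = (σ : Om F →+* Om F) (y ((π σ).symm l)) := by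
        change y l = σ (y ((π σ).symm l))
        rw [hπ, ← hl]
      rw [e1, Polynomial.eval_map_apply, Lagrange.eval_interpolate_at_node _ hi (Finset.mem_univ _)]
      change σ (z _) = _
      rw [hz, ← hl]
  have h2 := congrArg (fun p => Polynomial.coeff p a) h1
  simpa [Polynomial.coeff_map] using h2

/-- Proof.  `R = Lagrange.interpolate univ y z ∈ Ω[Y]` (degree `< E`, `R(y_k) = z_k`).  For `σ`: `R.map σ` has degree `< E` and takes the value
`σ(z_k) = z_{π σ k}` at `σ(y_k) = y_{π σ k}`, i.e. `z_l` at `y_l` for all `l`; so `R.map σ = R` (uniqueness of interpolation).  So the coefficients `r_a`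
(`a < E`) are fixed: `r_a * evO Δ_a = evO N_a`, `Δ_a ≠ 0` (`fixed_O`).  `evO P = eval₂ iO c P = eval₂ iO (y_k) (P.comp F)` (`F(y_k) = c`).  With
`Δ = (∏ Δ_a).comp F` (`≠ 0` since `natDegree F ≥ 1`) and `N = ∑_a (N_a ∏_{b≠a} Δ_b).comp F * X^a` we get `z_k Δ(y_k) = N(y_k)`. -/
theorem equiv_rat [CharZero κ] (F : κ[X]) (hF : 1 ≤ F.natDegree) (y : Fin F.natDegree → Om F)
    (hy : Roots (iO F) (cO F) F y) (π : GO F → Equiv.Perm (Fin F.natDegree)) (hπ : ∀ σ k, σ (y k) = y (π σ k))
    (z : Fin F.natDegree → Om F) (hz : ∀ (σ : GO F) k, σ (z k) = z (π σ k)) :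
    ∃ N Δ : κ[X], Δ ≠ 0 ∧ ∀ k, z k * eval₂ (iO F) (y k) Δ = eval₂ (iO F) (y k) N := by
  classical
  have hinj : Function.Injective y := hy.1
  have hi : Set.InjOn y ((Finset.univ : Finset (Fin F.natDegree)) : Set (Fin F.natDegree)) := hinj.injOn
  set R := Lagrange.interpolate Finset.univ y z with hR
  choose N Δ hΔ hN using fun a => fixed_O F (R.coeff a)
    (fun σ => T2_interp F y hinj π hπ z hz σ a)
  have hdeg : R.natDegree < F.natDegree := by
    have h1 : R.degree < ((Finset.univ : Finset (Fin F.natDegree)).card : WithBot ℕ) :=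
      Lagrange.degree_interpolate_lt _ hi
    rw [Finset.card_univ, Fintype.card_fin] at h1
    by_cases h0 : R = 0
    · rw [h0, Polynomial.natDegree_zero]; omega
    · rwa [Polynomial.degree_eq_natDegree h0, Nat.cast_lt] at h1
  refine ⟨∑ a ∈ Finset.range F.natDegree, (N a * ∏ b ∈ (Finset.range F.natDegree).erase a, Δ b).comp F * X ^ a,
    (∏ a ∈ Finset.range F.natDegree, Δ a).comp F, ?_, ?_⟩
  · exact T2_comp_ne F _ hF (Finset.prod_ne_zero_iff.mpr (fun a _ => hΔ a))
  · intro k
    have hk : eval₂ (iO F) (y k) F = cO F := Roots_eval F (iO F) (cO F) y hy k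
    have hzk : z k = ∑ a ∈ Finset.range F.natDegree, R.coeff a * y k ^ a := by
      rw [← Polynomial.eval_eq_sum_range' hdeg, hR, Lagrange.eval_interpolate_at_node _ hi (Finset.mem_univ _)]
    rw [← T2_evO_comp F _ _ hk, hzk, Finset.sum_mul, Polynomial.eval₂_finsetSum]
    refine Finset.sum_congr rfl (fun a ha => ?_)
    rw [Polynomial.eval₂_mul, ← T2_evO_comp F _ _ hk, map_mul, ← hN a, Polynomial.eval₂_X_pow,
      ← Finset.mul_prod_erase _ _ ha, map_mul]
    ring

end Pool.Agent.FCT
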