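import Pool.Agent.FCT.O8

/-! Row FCT-T3: integral rational functions are polynomials -/

set_option autoImplicit false

namespace Pool.Agent.FCT

open Polynomial Finset
variable {κ : Type*} [Field κ]

/-- Proof.  Let `ev = eval₂RingHom iO (y k) : κ[X] → Ω`, injective (`y_transc`); it extends to `RatFunc κ → Ω` (injective).  Every `y_l` is integral over
`κ[y_k]` (`IsIntegralElem ev`): it is a root of `F(Y) - F(y_k)` (`F(y_l) = c = F(y_k)`), whose leading coefficient is a unit of `κ`.  So
`z = ∑ t_l y_l` is integral.  `z` is the image of `r = N/Δ ∈ RatFunc κ`, so `r` is integral over `κ[X]` (injectivity), hence in `κ[X]`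
(`IsIntegrallyClosed κ[X]`): `N = p Δ`. -/
theorem int_poly [CharZero κ] (F : κ[X]) (hF : 1 ≤ F.natDegree) (y : Fin F.natDegree → Om F)
    (hy : Roots (iO F) (cO F) F y) (t : Fin F.natDegree → ℤ) (k : Fin F.natDegree) (N Δ : κ[X]) (hΔ : Δ ≠ 0)
    (h : (∑ l, (t l : Om F) * y l) * eval₂ (iO F) (y k) Δ = eval₂ (iO F) (y k) N) :
    ∃ p : κ[X], N = p * Δ := by
  have hinj : Function.Injective (eval₂RingHom (iO F) (y k)) := by
    rw [injective_iff_map_eq_zero]
    intro P hP
    exact y_transc F y hy k P hP
  set f : κ[X] →+* Om F := eval₂RingHom (iO F) (y k) with hf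
  have hfC : f.comp C = iO F := by
    ext a
    simp [hf]
  have hFk : f F = cO F := Roots_eval F (iO F) (cO F) y hy k
  have hlc : F.leadingCoeff ≠ 0 := by
    intro h0
    rw [leadingCoeff_eq_zero] at h0
    rw [h0, natDegree_zero] at hF
    omega
  have hint : ∀ l, f.IsIntegralElem (y l) := by
    intro l
    refine ⟨C (C F.leadingCoeff⁻¹) * (F.map C - C F), ?_, ?_⟩
    · have hd : (F.map (C : κ →+* κ[X])).natDegree = F.natDegree := natDegree_map_eq_of_injective C_injective F
      have hl : (F.map (C : κ →+* κ[X])).leadingCoeff = C F.leadingCoeff := leadingCoeff_map_of_injective C_injective F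
      have hlt : (C F : κ[X][X]).degree < (F.map (C : κ →+* κ[X])).degree := by
        refine lt_of_le_of_lt degree_C_le ?_
        rw [← natDegree_pos_iff_degree_pos, hd]
        omega
      have h1 : (F.map (C : κ →+* κ[X]) - C F).leadingCoeff = C F.leadingCoeff := by
        rw [leadingCoeff_sub_of_degree_lt hlt, hl]
      unfold Monic
      rw [leadingCoeff_mul, leadingCoeff_C, h1, ← C_mul, inv_mul_cancel₀ hlc, C_1]
    · simp only [eval₂_mul, eval₂_sub, eval₂_map, eval₂_C]
      rw [hfC, Roots_eval F (iO F) (cO F) y hy l, hFk, sub_self, mul_zero]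
  have hz : f.IsIntegralElem (∑ l, (t l : Om F) * y l) := by
    have : ∀ s : Finset (Fin F.natDegree), f.IsIntegralElem (∑ l ∈ s, (t l : Om F) * y l) := by
      intro s
      induction s using Finset.induction_on with
      | empty => rw [Finset.sum_empty]; exact f.isIntegralElem_zero
      | insert a s ha ih =>
        rw [Finset.sum_insert ha]
        refine RingHom.IsIntegralElem.add f (RingHom.IsIntegralElem.mul f ?_ (hint a)) ih
        have h1 : ((t a : ℤ) : Om F) = f ((t a : ℤ) : κ[X]) := (map_intCast f _).symm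
        rw [h1]
        exact RingHom.isIntegralElem_map f
    exact this univ
  obtain ⟨p, hpm, hp⟩ := hz
  set z : Om F := ∑ l, (t l : Om F) * y l with hzdef
  let g : RatFunc κ →+* Om F := IsFractionRing.lift (A := κ[X]) (K := RatFunc κ) (g := f) hinj
  have hg : ∀ q : κ[X], g (algebraMap κ[X] (RatFunc κ) q) = f q := fun q => IsFractionRing.lift_algebraMap hinj q
  have hΔ' : algebraMap κ[X] (RatFunc κ) Δ ≠ 0 := fun h0 => hΔ (RatFunc.algebraMap_injective κ (h0.trans (map_zero _).symm))
  set r : RatFunc κ := algebraMap κ[X] (RatFunc κ) N / algebraMap κ[X] (RatFunc κ) Δ with hr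
  have hgr : g r = z := by
    rw [hr, map_div₀, hg, hg, div_eq_iff]
    · exact h.symm
    · intro h0
      exact hΔ (hinj (h0.trans (map_zero f).symm))
  have hri : IsIntegral κ[X] r := by
    refine ⟨p, hpm, ?_⟩
    apply g.injective
    rw [hom_eval₂, map_zero, hgr, ← hp]
    congr 1
    ext q
    · exact congrArg _ rfl |>.trans (hg _)
    · exact hg _
  obtain ⟨q, hq⟩ := IsIntegrallyClosed.isIntegral_iff.1 hri
  refine ⟨q, ?_⟩
  apply RatFunc.algebraMap_injective κ
  rw [map_mul, hq, hr, div_mul_cancel₀ _ hΔ']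

end Pool.Agent.FCT
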