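import Pool.Agent.FCT.T2
import Pool.Agent.FCT.T3
import Pool.Agent.FCT.R2

/-! Row FCT-T4: an equivariant integer matrix acts on the roots by an affine function. -/

set_option autoImplicit false

namespace Pool.Agent.FCT

open Polynomial Finset

variable {κ : Type*} [Field κ]

theorem T4_lead {L : Type*} [Field L] [Algebra κ L] (Y : LaurentSeries L) (hY : Ov (-1) Y) (p : κ[X]) (m : ℕ)
    (hm : p.natDegree ≤ m) :
    (eval₂ (iE κ L) Y p).coeff (-(m : ℤ)) = algebraMap κ L (p.coeff m) * (Y.coeff (-1)) ^ m := by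
  have hpow : ∀ i : ℕ, Ov (-(i : ℤ)) (Y ^ i) ∧ (Y ^ i).coeff (-(i : ℤ)) = (Y.coeff (-1)) ^ i := by
    intro i
    induction i with
    | zero =>
      refine ⟨?_, ?_⟩
      · simpa using (Ov_one (L := L))
      · simp
    | succ i ih =>
      have e1 : -((i + 1 : ℕ) : ℤ) = -(i : ℤ) + -1 := by push_cast; ring
      refine ⟨?_, ?_⟩
      · rw [pow_succ, e1]
        exact Ov_mul ih.1 hY
      · rw [pow_succ, e1, coeff_mul_lead ih.1 hY, ih.2, pow_succ]
  rw [eval₂_eq_sum_range' (iE κ L) (Nat.lt_succ_of_le hm), Finset.sum_range_succ]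
  have h1 : (iE κ L (p.coeff m) * Y ^ m).coeff (-(m : ℤ)) = algebraMap κ L (p.coeff m) * (Y.coeff (-1)) ^ m := by
    have h2 := coeff_mul_lead (Ov_C (algebraMap κ L (p.coeff m))) (hpow m).1
    rw [zero_add] at h2
    have h3 : (HahnSeries.C (algebraMap κ L (p.coeff m)) : LaurentSeries L).coeff 0 = algebraMap κ L (p.coeff m) := by
      simp
    rw [h3, (hpow m).2] at h2
    exact h2
  have h4 : (∑ i ∈ Finset.range m, iE κ L (p.coeff i) * Y ^ i).coeff (-(m : ℤ)) = 0 := by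
    have h5 : Ov (-(m : ℤ) + 1) (∑ i ∈ Finset.range m, iE κ L (p.coeff i) * Y ^ i) := by
      refine Ov_sum _ _ fun i hi => ?_
      have hi' := Finset.mem_range.1 hi
      have h6 := Ov_mul (Ov_C (algebraMap κ L (p.coeff i))) (hpow i).1
      refine Ov_mono ?_ h6
      omega
    exact h5 _ (by omega)
  rw [HahnSeries.coeff_add, h4, h1, zero_add]

/-- Proof.  `z_k = ∑_l T k l y_l` is an equivariant tuple: `σ z_k = ∑_l T k l y_{πσl} = ∑_l T (πσk) (πσl) y_{πσl} = z_{πσk}`.  `equiv_rat` gives `N, Δ`;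
`int_poly` (for one `k`, e.g. the first index) gives `N = p Δ`; so `z_k = p(y_k)` for all `k` (`Δ(y_k) ≠ 0` by `y_transc`).  Under `j` all `j(y_l)` have exact
order `-1` (`order_root`), so `j(z_k)` has order `≥ -1`, while `j(p(y_k))` has exact order `-natDegree p`; so `natDegree p ≤ 1`, `p = α X + β`. -/
theorem T_linear [CharZero κ] {L : Type*} [Field L] [CharZero L] [Algebra κ L] (F : κ[X]) (hF : 1 ≤ F.natDegree)
    (y : Fin F.natDegree → Om F)
    (hy : Roots (iO F) (cO F) F y) (π : GO F → Equiv.Perm (Fin F.natDegree)) (hπ : ∀ σ k, σ (y k) = y (π σ k))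
    (j : Om F →+* LaurentSeries L) (hj1 : ∀ b : κ, j (iO F b) = iE κ L b) (hj2 : j (cO F) = cE L F.natDegree)
    (T : Fin F.natDegree → Fin F.natDegree → ℤ) (hT : ∀ σ k l, T (π σ k) (π σ l) = T k l) :
    ∃ α β : κ, ∀ k, ∑ l, (T k l : Om F) * y l = iO F α * y k + iO F β := by
  have hz : ∀ (σ : GO F) k, σ (∑ l, (T k l : Om F) * y l) = ∑ l, (T (π σ k) l : Om F) * y l := by
    intro σ k
    rw [map_sum, ← Equiv.sum_comp (π σ) (fun l => (T (π σ k) l : Om F) * y l)]
    refine Finset.sum_congr rfl fun l _ => ?_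
    rw [map_mul, map_intCast, hT, hπ]
  obtain ⟨N, Δ, hΔ, hN⟩ := equiv_rat F hF y hy π hπ (fun k => ∑ l, (T k l : Om F) * y l) hz
  obtain ⟨p, hp⟩ := int_poly F hF y hy (T ⟨0, by omega⟩) ⟨0, by omega⟩ N Δ hΔ (hN ⟨0, by omega⟩)
  have hzp : ∀ k, ∑ l, (T k l : Om F) * y l = eval₂ (iO F) (y k) p := by
    intro k
    have h1 := hN k
    rw [hp, eval₂_mul] at h1
    exact mul_right_cancel₀ (fun h0 => hΔ (y_transc F y hy k Δ h0)) h1
  have hji : j.comp (iO F) = iE κ L := by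
    ext1 b
    exact hj1 b
  have hord : ∀ l, Ov (-1) (j (y l)) ∧ (j (y l)).coeff (-1) ≠ 0 := by
    intro l
    refine order_root (κ := κ) F hF (j (y l)) ?_
    rw [← hji, ← hom_eval₂, Roots_eval F (iO F) (cO F) y hy l, hj2]
  have hk0 : 0 < F.natDegree := by omega
  have hdeg : p.natDegree ≤ 1 := by
    by_contra hcon
    push Not at hcon
    have h1 := congrArg j (hzp ⟨0, hk0⟩)
    rw [hom_eval₂, hji, map_sum] at h1
    have h2 : Ov (-1) (∑ l, j ((T ⟨0, hk0⟩ l : Om F) * y l)) := by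
      refine Ov_sum _ _ fun l _ => ?_
      rw [map_mul, map_intCast]
      have h3 : ((T ⟨0, hk0⟩ l : ℤ) : LaurentSeries L) = HahnSeries.C ((T ⟨0, hk0⟩ l : ℤ) : L) := (map_intCast _ _).symm
      rw [h3]
      have h4 := Ov_mul (Ov_C ((T ⟨0, hk0⟩ l : ℤ) : L)) (hord l).1
      rw [zero_add] at h4
      exact h4
    rw [h1] at h2
    have h5 := h2 (-(p.natDegree : ℤ)) (by omega)
    rw [T4_lead _ (hord ⟨0, hk0⟩).1 p p.natDegree le_rfl] at h5
    rcases mul_eq_zero.1 h5 with h6 | h6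
    · rw [map_eq_zero, coeff_natDegree, leadingCoeff_eq_zero] at h6
      rw [h6, natDegree_zero] at hcon
      omega
    · exact (hord ⟨0, hk0⟩).2 (pow_eq_zero_iff (by omega) |>.1 h6)
  obtain ⟨α, β, hαβ⟩ := exists_eq_X_add_C_of_natDegree_le_one hdeg
  refine ⟨α, β, fun k => ?_⟩
  rw [hzp k, hαβ]
  simp

end Pool.Agent.FCT
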