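import Pool.Agent.FCT.M1
import Pool.Agent.FCT.O8

/-! Row FCT-U1: the case `F = φ(y - b(s))`. -/

set_option autoImplicit false

namespace Pool.Agent.FCT

open Polynomial Finset

variable {K : Type*} [Field K] [CharZero K]

theorem U1_dmap_X {A : Type*} [CommRing A] (δ : Derivation ℤ A A) : dmap δ (X : A[X]) = 0 := by
  ext i
  rw [dmap_coeff, coeff_X, coeff_zero]
  split_ifs
  · exact Derivation.map_one_eq_zero δ
  · exact map_zero δ

theorem U1_dmap_C {A : Type*} [CommRing A] (δ : Derivation ℤ A A) (a : A) : dmap δ (C a) = C (δ a) := by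
  ext i
  rw [dmap_coeff, coeff_C, coeff_C]
  split_ifs
  · rfl
  · exact map_zero δ

/-- chain rule -/
theorem dmap_comp_phi (φ b : K[X]) :
    dmap ds ((φ.map (C : K →+* K[X])).comp (X - C b)) =
      - (C (derivative b) * derivative ((φ.map (C : K →+* K[X])).comp (X - C b))) := by
  induction φ using Polynomial.induction_on' with
  | add p q hp hq =>
    rw [Polynomial.map_add, add_comp, map_add, map_add, hp, hq]
    ring
  | monomial n a =>
    have h1 : dmap ds (X - C b : K[X][X]) = -C (derivative b) := by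
      rw [map_sub, U1_dmap_X, U1_dmap_C, zero_sub]
      rfl
    have h2 : dmap ds (C (C a) : K[X][X]) = 0 := by
      rw [U1_dmap_C]
      change C (derivative (C a)) = 0
      rw [derivative_C, map_zero]
    rw [← C_mul_X_pow_eq_monomial, Polynomial.map_mul, Polynomial.map_pow, Polynomial.map_X, Polynomial.map_C, mul_comp,
      C_comp, pow_comp, X_comp, Derivation.leibniz, h2, smul_zero, add_zero, Derivation.leibniz_pow, h1,
      derivative_C_mul, derivative_pow, derivative_sub, derivative_X, derivative_C]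
    simp only [smul_eq_mul, nsmul_eq_mul, map_natCast]
    ring

/-- values at `y = s` and `y = 0` -/
theorem eval_comp_phi (φ b : K[X]) :
    eval X ((φ.map (C : K →+* K[X])).comp (X - C b)) = φ.comp (X - b) ∧
      eval 0 ((φ.map (C : K →+* K[X])).comp (X - C b)) = φ.comp (-b) := by
  constructor
  · rw [eval_comp, eval_map, eval_sub, eval_X, eval_C]
    rfl
  · rw [eval_comp, eval_map, eval_sub, eval_X, eval_C, zero_sub]
    rfl

/-- Proof.  `derivative_IS` for `G = F^ν`; `dmap ds (F^ν) = ν F^(ν-1) dmap ds F = - C b' * derivative (F^ν)`; `IS_C_mul`, `IS_derivative`. -/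
theorem derivative_IS_phi (φ b : K[X]) (ν : ℕ) :
    derivative (IS (((φ.map (C : K →+* K[X])).comp (X - C b)) ^ ν)) =
      (1 - derivative b) * (φ.comp (X - b)) ^ ν + derivative b * (φ.comp (-b)) ^ ν := by
  obtain ⟨e1, e2⟩ := eval_comp_phi φ b
  have h1 := dmap_comp_phi φ b
  set F := (φ.map (C : K →+* K[X])).comp (X - C b) with hF
  have h2 : dmap ds (F ^ ν) = C (-derivative b) * derivative (F ^ ν) := by
    rw [Derivation.leibniz_pow, h1, derivative_pow, map_neg]
    simp only [smul_eq_mul, nsmul_eq_mul, map_natCast]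
    ring
  rw [derivative_IS, h2, IS_C_mul, IS_derivative, eval_pow, eval_pow, e1, e2]
  ring

/-- If `F^δ = - C β F'` with `δ`-arbitrary `β ∈ κ`, then `D (F'(z))= 0` for the roots `z` of `F(z) = c`, so `D (1/F'(z)) = 0`.  Proof: `D z = - F^δ(z)/F'(z) = β`
(apply `D` to `F(z) = c`; `F'(z) ≠ 0` because `z` is transcendental: as in `y_transc`, or by `Roots_mem` and `exists_rootsO`), and
`D (F'(z)) = (F')^δ(z) + F''(z) D z = (derivative (dmap δ F))(z) + β F''(z) = 0` (`dmap δ` commutes with `derivative`). -/
theorem DO_rho_zero {κ : Type*} [Field κ] [CharZero κ] (F : κ[X]) (hF : 1 ≤ F.natDegree) (δ : Derivation ℤ κ κ) (β : κ)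
    (h : dmap δ F = - (C β * derivative F)) (z : Om F) (hz : eval₂ (iO F) z F = cO F) :
    DO F δ (rho (iO F) F z) = 0 := by
  by_cases h0 : eval₂ (iO F) z (derivative F) = 0
  · rw [rho, h0, inv_zero, map_zero]
  · have h1 := DO_eval F δ F z
    rw [hz, DO_cO, h, eval₂_neg, eval₂_mul, eval₂_C] at h1
    have h2 : DO F δ z = iO F β := by
      have h3 : eval₂ (iO F) z (derivative F) * (DO F δ z - iO F β) = 0 := by
        linear_combination (-1 : Om F) * h1
      rcases mul_eq_zero.1 h3 with h4 | h4
      · exact absurd h4 h0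
      · exact sub_eq_zero.1 h4
    have hcomm : dmap δ (derivative F) = derivative (dmap δ F) := by
      ext i
      rw [dmap_coeff, coeff_derivative, coeff_derivative, dmap_coeff, Derivation.leibniz]
      have h5 : δ ((i : κ) + 1) = 0 := by
        rw [map_add, Derivation.map_natCast, Derivation.map_one_eq_zero, add_zero]
      rw [h5, smul_zero, zero_add, smul_eq_mul, mul_comm]
    have h3 : DO F δ (eval₂ (iO F) z (derivative F)) = 0 := by
      rw [DO_eval, hcomm, h, derivative_neg, derivative_C_mul, eval₂_neg, eval₂_mul, eval₂_C, h2]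
      ring
    rw [rho, Derivation.leibniz_inv, h3, smul_zero]

end Pool.Agent.FCT
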