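import Pool.Agent.FCT.R5

/-! Row FCT-U2: the final equation, cleared of denominators. -/

set_option autoImplicit false

namespace Pool.Agent.FCT

open Polynomial Finset

variable {κ L : Type*} [Field κ] [Field L] [Algebra κ L]

theorem U2_alg {M : Type*} [CommRing M] (p pa pd ad c th te gA gB g0 α b be σ : M)
    (hPa : p * (th + te) = pa) (hg0 : (c - 0) * g0 = 1) (hgA : (c - α) * gA = 1) (hgB : (c - b) * gB = 1)
    (hD : p * (th + (te - σ * g0) + ((1 - be) * gA + be * gB)) + (th + te) * pd = ad) :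
    (ad * p - pa * pd - pa * p) * ((c - α) * (c - b) * c) =
      p ^ 2 * ((1 - be) * (c - b) * c + be * (c - α) * c - σ * ((c - α) * (c - b))) := by
  linear_combination (-(p * c * (c - α) * (c - b))) * hD + ((pd + p) * c * (c - α) * (c - b)) * hPa
    + (p ^ 2 * (1 - be) * c * (c - b)) * hgA + (p ^ 2 * be * c * (c - α)) * hgB - (p ^ 2 * σ * (c - α) * (c - b)) * hg0

/-- Proof.  `w = toE h + toE e0`, `P(c) w = a(c)`, `P(c) ≠ 0`.  Apply `dD` (`dD_toE`, `dD_evc`): `(P^δ)(c) w + P(c) dD w = (a^δ)(c)`, and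
`dD w = toE (δ h) + toE (δ e0) = toE h + toE ψ + toE (δ e0)` with `ψ = e0` except `ψ 0 = 0` (`e0 0 = s`), so `toE ψ = toE e0 - s/c`, and
`toE (δ e0) = (1-β)/(c-A) + β/(c-B)` (`toE_geo`).  So `dD w = w - s/c + (1-β)/(c-A) + β/(c-B)`.  Multiply by `P(c)²(c-A)(c-B)c` and use `evc_injective`. -/
theorem final_eq [CharZero L] (δ : Derivation ℤ κ κ) (δL : Derivation ℤ L L)
    (hδ : ∀ a : κ, δL (algebraMap κ L a) = algebraMap κ L (δ a)) (E : ℕ) (hE : 1 ≤ E) (h e0 : ℕ → κ) (s A B β : κ)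
    (he0 : e0 0 = s) (hh : ∀ ν, δ (h ν) = h ν + if ν = 0 then 0 else e0 ν)
    (he : ∀ ν, δ (e0 ν) = (1 - β) * A ^ ν + β * B ^ ν) (P a : κ[X]) (hP : P ≠ 0)
    (hPa : evc κ L E P * (toE L E h + toE L E e0) = evc κ L E a) :
    (dmap δ a * P - a * dmap δ P - a * P) * ((X - C A) * (X - C B) * X) =
      P ^ 2 * (C (1 - β) * (X - C B) * X + C β * (X - C A) * X - C s * ((X - C A) * (X - C B))) := by
  have hgA := toE_geo (L := L) E hE A
  have hgB := toE_geo (L := L) E hE B
  have hg0 := toE_geo (L := L) E hE (0 : κ)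
  have h1 : (fun n => δ (h n)) = h + (e0 - fun n => s * (0 : κ) ^ n) := by
    funext ν
    rw [hh ν]
    rcases Nat.eq_zero_or_pos ν with h0 | h0
    · subst h0
      simp [he0]
    · have : ν ≠ 0 := by omega
      simp [this]
  have h2 : (fun n => δ (e0 n)) = (fun n => (1 - β) * A ^ n) + (fun n => β * B ^ n) := by
    funext ν
    rw [he ν]; rfl
  have hD := congrArg (dD δL) hPa
  rw [Derivation.leibniz, map_add, dD_evc δL δ hδ, dD_evc δL δ hδ, dD_toE δL δ hδ, dD_toE δL δ hδ, h1, h2] at hD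
  rw [toE_add, toE_sub, toE_mul_left, toE_add, toE_mul_left, toE_mul_left] at hD
  simp only [smul_eq_mul] at hD
  apply evc_injective (L := L) E hE
  simp only [map_mul, map_sub, map_add, map_pow, evc_X, evc_C, map_one, map_zero] at hD hgA hgB hg0 ⊢
  exact U2_alg _ _ _ _ _ _ _ _ _ _ _ _ _ _ hPa hg0 hgA hgB hD

theorem U2_tmul (δ : Derivation ℤ κ κ) (α : κ) (μ : ℕ) :
    (X - C α) * dmap δ ((X - C α) ^ μ) = - (C (μ : κ) * C (δ α)) * (X - C α) ^ μ := by
  have hX : dmap δ (X : κ[X]) = 0 := by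
    ext i
    rw [dmap_coeff, coeff_X, coeff_zero]
    split_ifs <;> simp
  have hC : dmap δ (C α) = C (δ α) := by
    ext i
    rw [dmap_coeff, coeff_C, coeff_C]
    split_ifs <;> simp
  induction μ with
  | zero => simp
  | succ m ih =>
    rw [pow_succ, Derivation.leibniz, map_sub, hX, hC]
    simp only [smul_eq_mul]
    have : (X - C α) * ((X - C α) ^ m * (0 - C (δ α)) + (X - C α) * dmap δ ((X - C α) ^ m))
      = (X - C α) ^ m * (X - C α) * (0 - C (δ α)) + (X - C α) * ((X - C α) * dmap δ ((X - C α) ^ m)) := by ring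
    rw [this, ih]
    push_cast
    simp only [map_add, map_natCast, map_one]
    ring

/-- Proof.  `a ≠ 0` (else `0 = P² R`).  `a = (X - α)^μ a1`, `P = (X - α)^ν P1` with `a1(α), P1(α) ≠ 0`.
`dmap δ ((X - C α)^μ) = - μ δα (X - C α)^(μ-1)` (`μ ≥ 1`).  So `dmap δ a * P - a * dmap δ P = (X-α)^(μ+ν-1) (-(μ-ν) δα a1 P1 + (X-α)(…))` (if `μ = ν = 0` there is no pole; treat `μ = ν` and `μ ≠ ν`
separately).  If `μ ≠ ν` the left side of `h` has multiplicity exactly `μ + ν` at `α`; if `μ = ν` at least `2ν + 1`.  The right side has multiplicity exactly `2 ν`.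
Contradiction in both cases. -/
theorem no_simple_pole [CharZero κ] (δ : Derivation ℤ κ κ) (α : κ) (hα : δ α ≠ 0) (a P G R : κ[X]) (hP : P ≠ 0)
    (hG : eval α G ≠ 0) (hR : eval α R ≠ 0)
    (h : (dmap δ a * P - a * dmap δ P - a * P) * ((X - C α) * G) = P ^ 2 * R) : False := by
  have hR0 : R ≠ 0 := by
    intro h0; rw [h0] at hR; simp at hR
  have ha0 : a ≠ 0 := by
    intro h0
    rw [h0] at h
    simp only [map_zero, zero_mul, sub_zero] at h
    exact mul_ne_zero (pow_ne_zero 2 hP) hR0 h.symm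
  obtain ⟨a1, ha1, hna⟩ := Polynomial.exists_eq_pow_rootMultiplicity_mul_and_not_dvd a ha0 α
  obtain ⟨P1, hP1, hnP⟩ := Polynomial.exists_eq_pow_rootMultiplicity_mul_and_not_dvd P hP α
  set μ := rootMultiplicity α a
  set ν := rootMultiplicity α P
  have ea : eval α a1 ≠ 0 := fun h0 => hna (dvd_iff_isRoot.2 h0)
  have eP : eval α P1 ≠ 0 := fun h0 => hnP (dvd_iff_isRoot.2 h0)
  have ht0 : (X - C α : κ[X]) ≠ 0 := X_sub_C_ne_zero α
  have hta : (X - C α) * dmap δ a = (X - C α) ^ μ * (- (C (μ : κ) * C (δ α)) * a1 + (X - C α) * dmap δ a1) := by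
    conv_lhs => rw [ha1]
    rw [Derivation.leibniz]
    simp only [smul_eq_mul]
    have : (X - C α) * ((X - C α) ^ μ * dmap δ a1 + a1 * dmap δ ((X - C α) ^ μ))
      = (X - C α) ^ μ * ((X - C α) * dmap δ a1) + a1 * ((X - C α) * dmap δ ((X - C α) ^ μ)) := by ring
    rw [this, U2_tmul]
    ring
  have htP : (X - C α) * dmap δ P = (X - C α) ^ ν * (- (C (ν : κ) * C (δ α)) * P1 + (X - C α) * dmap δ P1) := by
    conv_lhs => rw [hP1]
    rw [Derivation.leibniz]
    simp only [smul_eq_mul]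
    have : (X - C α) * ((X - C α) ^ ν * dmap δ P1 + P1 * dmap δ ((X - C α) ^ ν))
      = (X - C α) ^ ν * ((X - C α) * dmap δ P1) + P1 * ((X - C α) * dmap δ ((X - C α) ^ ν)) := by ring
    rw [this, U2_tmul]
    ring
  have hmain : (X - C α) ^ (μ + ν) * (((C (ν : κ) - C (μ : κ)) * C (δ α) * a1 * P1
      + (X - C α) * (dmap δ a1 * P1 - a1 * dmap δ P1 - a1 * P1)) * G) = (X - C α) ^ (2 * ν) * (P1 ^ 2 * R) := by
    have e1 : (X - C α) ^ (2 * ν) * (P1 ^ 2 * R) = P ^ 2 * R := by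
      conv_rhs => rw [hP1]
      ring
    rw [e1, ← h]
    have e2 : (dmap δ a * P - a * dmap δ P - a * P) * ((X - C α) * G)
      = (((X - C α) * dmap δ a) * P - a * ((X - C α) * dmap δ P) - (X - C α) * a * P) * G := by ring
    rw [e2, hta, htP]
    have e3 : ∀ U V W : κ[X], (U * P - a * V - W * a * P) * G =
      (U * ((X - C α) ^ ν * P1) - ((X - C α) ^ μ * a1) * V - W * ((X - C α) ^ μ * a1) * ((X - C α) ^ ν * P1)) * G := by
      intro U V W
      rw [← ha1, ← hP1]
    rw [e3]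
    ring
  rcases lt_trichotomy μ ν with hlt | heq | hgt
  · have e4 : (X - C α) ^ (2 * ν) = (X - C α) ^ (μ + ν) * (X - C α) ^ (ν - μ) := by
      rw [← pow_add]; congr 1; omega
    rw [e4] at hmain
    have h5 := mul_left_cancel₀ (pow_ne_zero _ ht0) (hmain.trans (mul_assoc _ _ _))
    have h6 := congrArg (eval α) h5
    have h7 : (0 : κ) ^ (ν - μ) = 0 := zero_pow (by omega)
    simp only [eval_mul, eval_add, eval_sub, eval_C, eval_X, sub_self, zero_mul, add_zero, eval_pow, h7] at h6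
    have h8 : ((ν : κ) - (μ : κ)) ≠ 0 := by
      rw [sub_ne_zero]
      exact_mod_cast (by omega : ν ≠ μ)
    exact mul_ne_zero (mul_ne_zero (mul_ne_zero (mul_ne_zero h8 hα) ea) eP) hG h6
  · rw [heq, sub_self, zero_mul, zero_mul, zero_mul, zero_add, ← two_mul] at hmain
    have h5 := mul_left_cancel₀ (pow_ne_zero _ ht0) hmain
    have h6 := congrArg (eval α) h5
    simp only [eval_mul, eval_sub, eval_C, eval_X, sub_self, zero_mul, eval_pow] at h6
    exact mul_ne_zero (pow_ne_zero 2 eP) hR h6.symm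
  · have e4 : (X - C α) ^ (μ + ν) = (X - C α) ^ (2 * ν) * (X - C α) ^ (μ - ν) := by
      rw [← pow_add]; congr 1; omega
    rw [e4] at hmain
    have h5 := mul_left_cancel₀ (pow_ne_zero _ ht0) ((mul_assoc _ _ _).symm.trans hmain)
    have h6 := congrArg (eval α) h5
    have h7 : (0 : κ) ^ (μ - ν) = 0 := zero_pow (by omega)
    simp only [eval_mul, eval_sub, eval_C, eval_X, sub_self, zero_mul, eval_pow, h7] at h6
    exact mul_ne_zero (pow_ne_zero 2 eP) hR h6.symm

end Pool.Agent.FCT
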