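import Pool.Agent.FCT.U2
import Pool.Agent.FCT.DerCast

/-! Row FCT-U3: the final contradiction. -/

set_option autoImplicit false

namespace Pool.Agent.FCT

open Polynomial Finset

theorem U3_nonconst (φ q : ℂ[X]) (hφ : 1 ≤ φ.natDegree) (hq : 1 ≤ q.natDegree) :
    derivative (φ.comp q) ≠ 0 ∧ φ.comp q ≠ 0 := by
  have h : (φ.comp q).natDegree = φ.natDegree * q.natDegree := natDegree_comp
  have h1 : 1 ≤ (φ.comp q).natDegree := by rw [h]; exact Nat.mul_pos hφ hq
  refine ⟨?_, ?_⟩
  · intro h0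
    have := Polynomial.derivative_eq_zero.mp h0
    omega
  · intro h0
    rw [h0, natDegree_zero] at h1
    omega

theorem U3_map_ne (p : ℂ[X]) (hp : p ≠ 0) : algebraMap ℂ[X] (RatFunc ℂ) p ≠ 0 :=
  RatFunc.algebraMap_ne_zero hp

/-- Proof.  `A = φ(s - b(s))`, `B = φ(-b(s))`, `β = b'`; `κ = RatFunc ℂ`, everything mapped by `algebraMap ℂ[X] κ`.
Case 1: `A ≠ B`, `b' ≠ 0`: `b` is nonconstant, so `B = φ ∘ (-b)` is nonconstant (`natDegree_comp`), `δB ≠ 0`, `B ≠ 0`.  `no_simple_pole` at `α = B`, `G = (X - A) X`,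
`R` = the bracket: `R(B) = β (B - A) B ≠ 0`, `G(B) = (B - A) B ≠ 0`.
Case 2: `A ≠ B`, `b' = 0`: `b` constant, `A = φ ∘ (X - b)` nonconstant; `α = A`, `G = (X - B) X`, `R(A) = (1 - β)(A - B) A ≠ 0`.
Case 3: `A = B`: nonconstant (if `b' ≠ 0` it is `B`, nonconstant; if `b' = 0` it is `A`).  The bracket is `(X - A) (X - s (X - A))`; cancel `X - A`:
`α = A`, `G = X`, `R = X - C s * (X - A)`, `R(A) = A ≠ 0`. -/
theorem final_contra (δ : Der (RatFunc ℂ))
    (hδ : ∀ p : ℂ[X], δ (algebraMap ℂ[X] (RatFunc ℂ) p) = algebraMap ℂ[X] (RatFunc ℂ) (derivative p))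
    (φ b : ℂ[X]) (hφ : 1 ≤ φ.natDegree) (P a : (RatFunc ℂ)[X]) (hP : P ≠ 0) (A B β s : RatFunc ℂ)
    (hA : A = algebraMap ℂ[X] (RatFunc ℂ) (φ.comp (X - b))) (hB : B = algebraMap ℂ[X] (RatFunc ℂ) (φ.comp (-b)))
    (hβ : β = algebraMap ℂ[X] (RatFunc ℂ) (derivative b))
    (h : (dmap δ a * P - a * dmap δ P - a * P) * ((X - C A) * (X - C B) * X) =
      P ^ 2 * (C (1 - β) * (X - C B) * X + C β * (X - C A) * X - C s * ((X - C A) * (X - C B)))) : False := by
  by_cases hb : derivative b = 0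
  · -- `b` constant: `A` is nonconstant
    have hb0 : b.natDegree = 0 := Polynomial.derivative_eq_zero.mp hb
    have hq : 1 ≤ (X - b).natDegree := by
      rw [Polynomial.eq_C_of_natDegree_eq_zero hb0, natDegree_X_sub_C]
    obtain ⟨hA1, hA2⟩ := U3_nonconst φ (X - b) hφ hq
    have hAne : A ≠ 0 := by rw [hA]; exact U3_map_ne _ hA2
    have hδA : δ A ≠ 0 := by rw [hA, hδ]; exact U3_map_ne _ hA1
    by_cases hAB : A = B
    · -- case 3
      subst hAB
      refine no_simple_pole δ A hδA a P X (X - C s * (X - C A)) hP (by rw [eval_X]; exact hAne)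
        (by rw [eval_sub, eval_X, eval_mul, eval_sub, eval_X, eval_C, eval_C, sub_self, mul_zero, sub_zero]; exact hAne) ?_
      apply mul_left_cancel₀ (X_sub_C_ne_zero A)
      rw [map_sub, map_one] at h
      linear_combination h
    · -- case 2
      have hβ0 : β = 0 := by rw [hβ, hb, map_zero]
      refine no_simple_pole δ A hδA a P ((X - C B) * X)
        (C (1 - β) * (X - C B) * X + C β * (X - C A) * X - C s * ((X - C A) * (X - C B))) hP ?_ ?_ ?_
      · simp only [eval_mul, eval_sub, eval_X, eval_C]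
        exact mul_ne_zero (sub_ne_zero.mpr hAB) hAne
      · simp only [eval_mul, eval_sub, eval_add, eval_X, eval_C, hβ0, sub_self, sub_zero, zero_mul, mul_zero, add_zero,
          one_mul]
        exact mul_ne_zero (sub_ne_zero.mpr hAB) hAne
      · rw [← h]
        ring
  · have hb0 : 1 ≤ (-b).natDegree := by
      rw [natDegree_neg]
      by_contra h0
      have h1 : b.natDegree = 0 := by omega
      exact hb (Polynomial.derivative_eq_zero.mpr h1)
    obtain ⟨hB1, hB2⟩ := U3_nonconst φ (-b) hφ hb0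
    have hBne : B ≠ 0 := by rw [hB]; exact U3_map_ne _ hB2
    have hδB : δ B ≠ 0 := by rw [hB, hδ]; exact U3_map_ne _ hB1
    by_cases hAB : A = B
    · -- case 3
      have hAne : A ≠ 0 := by rw [hAB]; exact hBne
      have hδA : δ A ≠ 0 := by rw [hAB]; exact hδB
      clear hBne hδB
      subst hAB
      refine no_simple_pole δ A hδA a P X (X - C s * (X - C A)) hP (by rw [eval_X]; exact hAne)
        (by rw [eval_sub, eval_X, eval_mul, eval_sub, eval_X, eval_C, eval_C, sub_self, mul_zero, sub_zero]; exact hAne) ?_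
      apply mul_left_cancel₀ (X_sub_C_ne_zero A)
      rw [map_sub, map_one] at h
      linear_combination h
    · -- case 1
      have hβ0 : β ≠ 0 := by rw [hβ]; exact U3_map_ne _ hb
      refine no_simple_pole δ B hδB a P ((X - C A) * X)
        (C (1 - β) * (X - C B) * X + C β * (X - C A) * X - C s * ((X - C A) * (X - C B))) hP ?_ ?_ ?_
      · simp only [eval_mul, eval_sub, eval_X, eval_C]
        exact mul_ne_zero (sub_ne_zero.mpr (Ne.symm hAB)) hBne
      · simp only [eval_mul, eval_sub, eval_add, eval_X, eval_C, sub_self, sub_zero, zero_mul, mul_zero, zero_add]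
        exact mul_ne_zero (mul_ne_zero hβ0 (sub_ne_zero.mpr (Ne.symm hAB))) hBne
      · rw [← h]
        ring

end Pool.Agent.FCT
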