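import Pool.Agent.FCT.Z4a

/-! Row FCT-Z4: the zero estimate -/

set_option autoImplicit false

namespace Pool.Agent.FCT

open Polynomial Finset
variable {κ L : Type*} [Field κ] [Field L] [Algebra κ L]

theorem Z4_pow (F : κ[X]) (y : Fin F.natDegree → LaurentSeries L) (j : Fin F.natDegree) (k : ℕ) :
    Rep F y k (y j ^ k) := by
  have h1 := Rep_eval F y ((MvPolynomial.X j : MvPolynomial (Fin F.natDegree) κ) ^ k)
  rw [MvPolynomial.eval₂_pow, MvPolynomial.eval₂_X] at h1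
  refine Rep_mono F y ?_ h1
  refine (MvPolynomial.totalDegree_pow _ _).trans ?_
  rw [MvPolynomial.totalDegree_X, mul_one]

theorem Z4_sum (F : κ[X]) (hF : 1 ≤ F.natDegree) (y : Fin F.natDegree → LaurentSeries L)
    (hy : Roots (iE κ L) (cE L F.natDegree) F y) {ι : Type*} [DecidableEq ι] (s : Finset ι) :
    ∃ C : ℕ, ∀ (H : ℕ) (f : ι → LaurentSeries L), (∀ i ∈ s, Rep F y H (f i)) → Rep F y (C * H) (∑ i ∈ s, f i) := by
  induction s using Finset.induction_on with
  | empty => exact ⟨0, fun H f _ => by simpa using Rep_zero F y⟩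
  | insert a s ha ih =>
    obtain ⟨C, hC⟩ := ih
    refine ⟨(F.natDegree + 1) * (1 + C), fun H f hf => ?_⟩
    rw [Finset.sum_insert ha]
    have h1 := Rep_add F y hF hy (hf a (Finset.mem_insert_self _ _))
      (hC H f fun i hi => hf i (Finset.mem_insert_of_mem hi))
    have e : (F.natDegree + 1) * (1 + C) * H = (F.natDegree + 1) * (H + C * H) := by ring
    rw [e]
    exact h1

/-- The zero estimate.  Proof: by `toE_ISk`, `v = a(c) - ∑_j (∑_k b_k(c) ρ_j y_j^k) ℓ_j`; the coefficients have `Rep` with bound `C (G+1)`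
(`Rep_evc`, `Rep_rho`, `Rep_y`); apply `zero_est_log` with `S = univ`. -/
theorem zero_est [CharZero κ] [CharZero L] (F : κ[X]) (hF : 1 ≤ F.natDegree)
    (y : Fin F.natDegree → LaurentSeries L)
    (hy : Roots (iE κ L) (cE L F.natDegree) F y) (s : κ) :
    ∃ C0 : ℕ, ∀ (G : ℕ) (a : κ[X]) (b : Fin F.natDegree → κ[X]), a.natDegree ≤ G → (∀ k, (b k).natDegree ≤ G) →
      evc κ L F.natDegree a + ∑ k : Fin F.natDegree, evc κ L F.natDegree (b k) *
        toE L F.natDegree (fun ν => ISk s (X ^ (k : ℕ) * F ^ ν)) ≠ 0 →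
      ¬ Ov ((C0 * (G + 1) : ℕ) : ℤ) (evc κ L F.natDegree a + ∑ k : Fin F.natDegree, evc κ L F.natDegree (b k) *
        toE L F.natDegree (fun ν => ISk s (X ^ (k : ℕ) * F ^ ν))) := by
  obtain ⟨Gρ, hGρ⟩ := Rep_rho F hF y hy
  obtain ⟨C1, hC1⟩ := Z4_sum F hF y hy (univ : Finset (Fin F.natDegree))
  obtain ⟨C, hC⟩ := zero_est_log F hF y hy s univ
  set K : ℕ := F.natDegree + C1 * (2 * F.natDegree + Gρ) with hK
  refine ⟨C * (K + 1), fun G a b ha hb hne hOv => ?_⟩
  have hv : evc κ L F.natDegree a + ∑ k : Fin F.natDegree, evc κ L F.natDegree (b k) * toE L F.natDegree (fun ν => ISk s (X ^ (k : ℕ) * F ^ ν)) =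
      evc κ L F.natDegree a + ∑ j ∈ univ, (-(∑ k : Fin F.natDegree, evc κ L F.natDegree (b k) * (rho (iE κ L) F (y j) * y j ^ (k : ℕ)))) *
        lg (iE κ L s * (y j)⁻¹) := by
    congr 1
    have h1 : ∀ k : Fin F.natDegree, evc κ L F.natDegree (b k) * toE L F.natDegree (fun ν => ISk s (X ^ (k : ℕ) * F ^ ν)) =
        ∑ j, -(evc κ L F.natDegree (b k) * (rho (iE κ L) F (y j) * y j ^ (k : ℕ)) * lg (iE κ L s * (y j)⁻¹)) := by
      intro k
      rw [toE_ISk F hF y hy s k k.2, Finset.sum_neg_distrib, mul_neg, Finset.mul_sum]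
      congr 1
      refine Finset.sum_congr rfl fun j _ => ?_
      ring
    rw [Finset.sum_congr rfl fun k _ => h1 k, Finset.sum_comm]
    refine Finset.sum_congr rfl fun j _ => ?_
    rw [Finset.sum_neg_distrib, neg_mul, Finset.sum_mul]
  rw [hv] at hne hOv
  have hK1 : F.natDegree * G ≤ K * (G + 1) := by
    rw [hK]
    nlinarith [Nat.zero_le (C1 * (2 * F.natDegree + Gρ) * (G + 1)), Nat.zero_le F.natDegree]
  have hK2 : C1 * (F.natDegree * G + (Gρ + F.natDegree)) ≤ K * (G + 1) := by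
    rw [hK]
    have h1 : F.natDegree * G + (Gρ + F.natDegree) ≤ (2 * F.natDegree + Gρ) * (G + 1) := by nlinarith [Nat.zero_le (F.natDegree * G), Nat.zero_le (Gρ * G)]
    calc C1 * (F.natDegree * G + (Gρ + F.natDegree)) ≤ C1 * ((2 * F.natDegree + Gρ) * (G + 1)) := Nat.mul_le_mul_left _ h1
      _ ≤ (F.natDegree + C1 * (2 * F.natDegree + Gρ)) * (G + 1) := by
          rw [← mul_assoc]
          exact Nat.mul_le_mul_right _ (Nat.le_add_left _ _)
  have hRa : Rep F y (K * (G + 1)) (evc κ L F.natDegree a) :=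
    Rep_mono F y ((Nat.mul_le_mul_left _ ha).trans hK1) (Rep_evc F y a hF hy)
  have hRb : ∀ j, Rep F y (K * (G + 1)) (-(∑ k : Fin F.natDegree, evc κ L F.natDegree (b k) * (rho (iE κ L) F (y j) * y j ^ (k : ℕ)))) := by
    intro j
    refine Rep_neg F y (Rep_mono F y hK2 (hC1 _ _ fun k _ => ?_))
    refine Rep_mul F y (Rep_mono F y (Nat.mul_le_mul_left _ (hb k)) (Rep_evc F y (b k) hF hy)) ?_
    exact Rep_mul F y (hGρ j) (Rep_mono F y k.2.le (Z4_pow F y j k))
  refine hC (K * (G + 1)) _ _ hRa hRb hne (Ov_mono ?_ hOv)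
  have h2 : C * (K * (G + 1) + 1) ≤ C * (K + 1) * (G + 1) := by
    rw [mul_assoc]
    refine Nat.mul_le_mul_left _ ?_
    nlinarith
  exact_mod_cast h2

end Pool.Agent.FCT
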