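import Pool.Agent.FCT.V0
import Pool.Agent.FCT.Z4

/-! Row FCT-V1: elimination. -/

set_option autoImplicit false

namespace Pool.Agent.FCT

open Polynomial Finset

variable {κ : Type*} [Field κ]

/-- the moment sequences over `κ` -/
noncomputable def ek (s : κ) (F : κ[X]) (k : ℕ) : ℕ → κ := fun ν => ISk s (X ^ k * F ^ ν)

theorem V1_act_neg {A : Type*} [CommRing A] (P : A[X]) (a : ℕ → A) (n : ℕ) : act (-P) a n = - act P a n := by
  have h := act_sub (0 : A[X]) P a
  rw [zero_sub, act_zero, zero_sub] at h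
  rw [h]
  rfl

/-- Proof.  `E = natDegree F`, `C0` from `zero_est`, `Λ := 2 C1 + C0 (4 C1 + 1) + 1`, `M0` from `hAR Λ` (and `M0 ≥ 1`).  For `M ≥ M0` let
`P_M, Q_M`, `T_M` (`rel_series`, `D = C1 M`, `N = Λ M`), `R_M = P_M(c) H + ∑ Q_M,l(c) θ_l - T_M(c)`, of order `≥ E (Λ M + 1)`,
`H = toE h`, `θ_l = toE (ek s F l)`.
(1) `P_M ≠ 0`: otherwise `R_M` is of the form of `zero_est` with `G = C1 M`, and `E (Λ M + 1) ≥ C0 (G+1)`, so `R_M = 0`; by `seq_of_series`
(with `P = 0`) and `hind` all `Q_M,l = 0`, contradiction.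
(2) `v = P_{M+1}(c) R_M - P_M(c) R_{M+1}` has no `H`-term, coefficients of degree `≤ 2 C1 (M+1) =: G`, and order
`≥ E Λ M - E C1 (M+1) ≥ C0 (G+1)` (`Ov_evc`, `Ov_mul`); so `v = 0` by `zero_est`.
(3) So `X := R_M / P_M(c)` is the same for all `M ≥ M0`; its order is `≥ E Λ M` (`ord P_M(c) ≤ 0`: `evc_lead`, `Ov_of_mul`) for all `M`: `X = 0`
(`eq_zero_of_Ov`), `R_{M0} = 0`.  Conclude with `seq_of_series` (and `Q := - Q_{M0}`). -/
theorem elim (L : Type*) [Field L] [Algebra κ L] [CharZero κ] [CharZero L] (F : κ[X]) (hF : 1 ≤ F.natDegree)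
    (y : Fin F.natDegree → LaurentSeries L)
    (hy : Roots (iE κ L) (cE L F.natDegree) F y) (s : κ) (h : ℕ → κ) (I : Finset (Fin F.natDegree))
    (hind : ∀ B : Fin F.natDegree → κ[X], (∀ l, l ∉ I → B l = 0) →
        (∀ ν, ∑ l : Fin F.natDegree, act (B l) (ek s F l) ν = 0) → ∀ l, B l = 0)
    (C1 : ℕ) (hAR : ∀ Λ : ℕ, ∃ M0 : ℕ, ∀ M, M0 ≤ M →
        ∃ (P : κ[X]) (Q : Fin F.natDegree → κ[X]),
          (P ≠ 0 ∨ ∃ l, Q l ≠ 0) ∧ (∀ l, l ∉ I → Q l = 0) ∧ P.natDegree ≤ C1 * M ∧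
          (∀ l, (Q l).natDegree ≤ C1 * M) ∧
          ∀ ν < Λ * M, act P h ν + ∑ l : Fin F.natDegree, act (Q l) (ek s F l) ν = 0) :
    ∃ (P : κ[X]) (Q : Fin F.natDegree → κ[X]), P ≠ 0 ∧
      ∀ ν, act P h ν = ∑ l : Fin F.natDegree, act (Q l) (ek s F l) ν := by
  classical
  obtain ⟨C0, hC0⟩ := zero_est F hF y hy s
  set Λ : ℕ := 2 * C1 + C0 * (4 * C1 + 1) + 1 with hΛ
  obtain ⟨M0', hM0'⟩ := hAR Λ
  set M0 : ℕ := max M0' 1 with hM0
  set θ : Fin F.natDegree → LaurentSeries L := fun l => toE L F.natDegree (ek s F l) with hθ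
  set H := toE L F.natDegree h with hH
  -- the data
  have hdata : ∀ M, M0 ≤ M → ∃ (P : κ[X]) (Q : Fin F.natDegree → κ[X]) (T : κ[X]), P ≠ 0 ∧ (∀ l, l ∉ I → Q l = 0) ∧
      P.natDegree ≤ C1 * M ∧ (∀ l, (Q l).natDegree ≤ C1 * M) ∧ T.natDegree ≤ C1 * M ∧
      Ov ((F.natDegree * (Λ * M + 1) : ℕ) : ℤ) (evc κ L F.natDegree P * H + ∑ l, evc κ L F.natDegree (Q l) * θ l - evc κ L F.natDegree T) := by
    intro M hM
    have hM1 : 1 ≤ M := (le_max_right _ _).trans hM
    obtain ⟨P, Q, hne, hQI, hP, hQ, hz⟩ := hM0' M ((le_max_left _ _).trans hM)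
    obtain ⟨T, hT, hov⟩ := rel_series (L := L) F.natDegree hF h (fun l : Fin F.natDegree => ek s F l) P Q (C1 * M) (Λ * M) hP hQ hz
    refine ⟨P, Q, T, ?_, hQI, hP, hQ, hT, hov⟩
    rintro rfl
    rw [map_zero, zero_mul, zero_add] at hov
    have e1 : evc κ L F.natDegree (-T) + ∑ l, evc κ L F.natDegree (Q l) * θ l = ∑ l, evc κ L F.natDegree (Q l) * θ l - evc κ L F.natDegree T := by
      rw [map_neg]
      ring
    have h0 : evc κ L F.natDegree (-T) + ∑ l, evc κ L F.natDegree (Q l) * θ l = 0 := by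
      by_contra hv
      refine hC0 (C1 * M) (-T) Q (by rw [natDegree_neg]; exact hT) hQ hv ?_
      change Ov _ (evc κ L F.natDegree (-T) + ∑ l, evc κ L F.natDegree (Q l) * θ l)
      rw [e1]
      refine Ov_mono ?_ hov
      have : C0 * (C1 * M + 1) ≤ F.natDegree * (Λ * M + 1) := by
        have a0 : Λ * M ≤ F.natDegree * (Λ * M + 1) :=
          (Nat.le_succ _).trans (Nat.le_mul_of_pos_left _ hF)
        refine le_trans ?_ a0
        have a1 : C0 * (C1 * M + 1) ≤ Λ * M := by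
          rw [hΛ]
          have : C0 * (C1 * M + 1) ≤ C0 * (4 * C1 + 1) * M := by
            have : C1 * M + 1 ≤ (4 * C1 + 1) * M := by nlinarith
            calc C0 * (C1 * M + 1) ≤ C0 * ((4 * C1 + 1) * M) := Nat.mul_le_mul_left _ this
              _ = _ := by ring
          nlinarith [Nat.zero_le (C1 * M)]
        exact a1
      exact_mod_cast this
    have h1 : evc κ L F.natDegree (0 : κ[X]) * toE L F.natDegree h + ∑ l, evc κ L F.natDegree (Q l) * toE L F.natDegree (ek s F l) = evc κ L F.natDegree T := by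
      rw [map_zero, zero_mul, zero_add]
      rw [e1] at h0
      exact sub_eq_zero.1 h0
    have h2 : ∀ ν, ∑ l : Fin F.natDegree, act (Q l) (ek s F l) ν = 0 := by
      intro ν
      have := seq_of_series (L := L) F.natDegree hF h (fun l : Fin F.natDegree => ek s F l) 0 Q T h1 ν
      rw [act_zero] at this
      rw [Pi.zero_apply, zero_add] at this
      exact this
    rcases hne with h3 | ⟨l, hl⟩
    · exact h3 rfl
    · exact hl (hind Q hQI h2 l)
  choose! P Q T hP0 hQI hPd hQd hTd hov using hdata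
  set R : ℕ → LaurentSeries L := fun M => evc κ L F.natDegree (P M) * H + ∑ l, evc κ L F.natDegree (Q M l) * θ l - evc κ L F.natDegree (T M) with hR
  -- the two term relation
  have hrel : ∀ M, M0 ≤ M → evc κ L F.natDegree (P (M + 1)) * R M = evc κ L F.natDegree (P M) * R (M + 1) := by
    intro M hM
    have hM1 : 1 ≤ M := (le_max_right _ _).trans hM
    have hM' : M0 ≤ M + 1 := hM.trans (Nat.le_succ M)
    set a : κ[X] := P M * T (M + 1) - P (M + 1) * T M with ha
    set b : Fin F.natDegree → κ[X] := fun l => P (M + 1) * Q M l - P M * Q (M + 1) l with hb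
    have e1 : evc κ L F.natDegree (P (M + 1)) * R M - evc κ L F.natDegree (P M) * R (M + 1) =
        evc κ L F.natDegree a + ∑ l, evc κ L F.natDegree (b l) * θ l := by
      have e2 : ∑ l, evc κ L F.natDegree (b l) * θ l = evc κ L F.natDegree (P (M + 1)) * (∑ l, evc κ L F.natDegree (Q M l) * θ l) -
          evc κ L F.natDegree (P M) * (∑ l, evc κ L F.natDegree (Q (M + 1) l) * θ l) := by
        rw [Finset.mul_sum, Finset.mul_sum, ← Finset.sum_sub_distrib]
        refine Finset.sum_congr rfl fun l _ => ?_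
        rw [hb]
        simp only [map_sub, map_mul]
        ring
      rw [e2, ha, map_sub, map_mul, map_mul]
      simp only [hR]
      ring
    rw [← sub_eq_zero, e1]
    by_contra hv
    have hdeg : ∀ p q : κ[X], p.natDegree ≤ C1 * (M + 1) → q.natDegree ≤ C1 * (M + 1) →
        (p * q).natDegree ≤ 2 * (C1 * (M + 1)) := by
      intro p q hp hq
      exact natDegree_mul_le.trans (by omega)
    have hmm : C1 * M ≤ C1 * (M + 1) := Nat.mul_le_mul_left _ (Nat.le_succ M)
    refine hC0 (2 * (C1 * (M + 1))) a b ?_ ?_ hv ?_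
    · refine (natDegree_sub_le _ _).trans (max_le ?_ ?_)
      · exact hdeg _ _ ((hPd M hM).trans hmm) (hTd (M + 1) hM')
      · exact hdeg _ _ (hPd (M + 1) hM') ((hTd M hM).trans hmm)
    · intro l
      refine (natDegree_sub_le _ _).trans (max_le ?_ ?_)
      · exact hdeg _ _ (hPd (M + 1) hM') ((hQd M hM l).trans hmm)
      · exact hdeg _ _ ((hPd M hM).trans hmm) (hQd (M + 1) hM' l)
    · change Ov _ (evc κ L F.natDegree a + ∑ l, evc κ L F.natDegree (b l) * θ l)
      rw [← e1]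
      have o1 : Ov (-((F.natDegree * (C1 * (M + 1)) : ℕ) : ℤ) + ((F.natDegree * (Λ * M + 1) : ℕ) : ℤ))
          (evc κ L F.natDegree (P (M + 1)) * R M) := by
        refine Ov_mul (Ov_mono ?_ (Ov_evc F.natDegree (P (M + 1)))) (hov M hM)
        have := Nat.mul_le_mul_left F.natDegree (hPd (M + 1) hM')
        rw [neg_le_neg_iff]
        exact_mod_cast this
      have o2 : Ov (-((F.natDegree * (C1 * M) : ℕ) : ℤ) + ((F.natDegree * (Λ * (M + 1) + 1) : ℕ) : ℤ))
          (evc κ L F.natDegree (P M) * R (M + 1)) := by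
        refine Ov_mul (Ov_mono ?_ (Ov_evc F.natDegree (P M))) (hov (M + 1) hM')
        have := Nat.mul_le_mul_left F.natDegree (hPd M hM)
        rw [neg_le_neg_iff]
        exact_mod_cast this
      have key : C0 * (2 * (C1 * (M + 1)) + 1) + C1 * (M + 1) ≤ Λ * M := by
        have b1 : 2 * (C1 * (M + 1)) + 1 ≤ (4 * C1 + 1) * M := by nlinarith
        have b2 : C0 * (2 * (C1 * (M + 1)) + 1) ≤ C0 * ((4 * C1 + 1) * M) := Nat.mul_le_mul_left _ b1
        have b3 : C1 * (M + 1) ≤ 2 * C1 * M := by nlinarith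
        have b4 : Λ * M = 2 * C1 * M + C0 * ((4 * C1 + 1) * M) + M := by rw [hΛ]; ring
        omega
      have key2 : C0 * (2 * (C1 * (M + 1)) + 1) + F.natDegree * (C1 * (M + 1)) ≤ F.natDegree * (Λ * M + 1) := by
        have c1 : F.natDegree * (C0 * (2 * (C1 * (M + 1)) + 1)) + F.natDegree * (C1 * (M + 1)) ≤ F.natDegree * (Λ * M + 1) := by
          rw [← Nat.mul_add]
          exact Nat.mul_le_mul_left _ (key.trans (Nat.le_succ _))
        have c2 : C0 * (2 * (C1 * (M + 1)) + 1) ≤ F.natDegree * (C0 * (2 * (C1 * (M + 1)) + 1)) :=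
          Nat.le_mul_of_pos_left _ hF
        exact (Nat.add_le_add_right c2 _).trans c1
      have key3 : F.natDegree * (C1 * M) + F.natDegree * (Λ * M + 1) ≤ F.natDegree * (C1 * (M + 1)) + F.natDegree * (Λ * (M + 1) + 1) := by
        have d1 : F.natDegree * (C1 * M) ≤ F.natDegree * (C1 * (M + 1)) := Nat.mul_le_mul_left _ hmm
        have d2 : F.natDegree * (Λ * M + 1) ≤ F.natDegree * (Λ * (M + 1) + 1) :=
          Nat.mul_le_mul_left _ (Nat.succ_le_succ (Nat.mul_le_mul_left _ (Nat.le_succ M)))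
        omega
      refine Ov_sub (Ov_mono ?_ o1) (Ov_mono ?_ o2)
      · have : ((C0 * (2 * (C1 * (M + 1)) + 1) : ℕ) : ℤ) + ((F.natDegree * (C1 * (M + 1)) : ℕ) : ℤ) ≤ ((F.natDegree * (Λ * M + 1) : ℕ) : ℤ) := by
          exact_mod_cast key2
        linarith
      · have e5 : ((C0 * (2 * (C1 * (M + 1)) + 1) : ℕ) : ℤ) + ((F.natDegree * (C1 * (M + 1)) : ℕ) : ℤ) ≤ ((F.natDegree * (Λ * M + 1) : ℕ) : ℤ) := by
          exact_mod_cast key2
        have key4 : F.natDegree * (C1 * M) + (C0 * (2 * (C1 * (M + 1)) + 1)) ≤ F.natDegree * (Λ * (M + 1) + 1) := by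
          have d1 : F.natDegree * (C1 * M) ≤ F.natDegree * (C1 * (M + 1)) := Nat.mul_le_mul_left _ hmm
          have d2 : F.natDegree * (Λ * M + 1) ≤ F.natDegree * (Λ * (M + 1) + 1) :=
            Nat.mul_le_mul_left _ (Nat.succ_le_succ (Nat.mul_le_mul_left _ (Nat.le_succ M)))
          omega
        have e6 : ((F.natDegree * (C1 * M) : ℕ) : ℤ) + ((C0 * (2 * (C1 * (M + 1)) + 1) : ℕ) : ℤ) ≤ ((F.natDegree * (Λ * (M + 1) + 1) : ℕ) : ℤ) := by
          exact_mod_cast key4
        linarith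
  have hev : ∀ M, M0 ≤ M → evc κ L F.natDegree (P M) ≠ 0 := by
    intro M hM h0
    exact hP0 M hM (evc_injective F.natDegree hF (by rw [h0, map_zero]))
  set X0 : LaurentSeries L := R M0 * (evc κ L F.natDegree (P M0))⁻¹ with hX0
  have hX : ∀ M, M0 ≤ M → R M = X0 * evc κ L F.natDegree (P M) := by
    intro M hM
    induction M, hM using Nat.le_induction with
    | base =>
      rw [hX0, mul_assoc, inv_mul_cancel₀ (hev M0 le_rfl), mul_one]
    | succ n hn ih =>
      have h1 := hrel n hn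
      rw [ih] at h1
      have h2 : evc κ L F.natDegree (P n) * R (n + 1) = evc κ L F.natDegree (P n) * (X0 * evc κ L F.natDegree (P (n + 1))) := by
        rw [← h1]
        ring
      exact mul_left_cancel₀ (hev n hn) h2
  have hX00 : X0 = 0 := by
    apply eq_zero_of_Ov
    intro N
    have hM : M0 ≤ max M0 N := le_max_left _ _
    have h1 := hov (max M0 N) hM
    change Ov _ (R (max M0 N)) at h1
    rw [hX _ hM] at h1
    have h2 := Ov_of_mul h1 (Ov_evc F.natDegree (P (max M0 N))) (evc_lead F.natDegree hF _ (hP0 _ hM))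
    refine Ov_mono ?_ h2
    have h3 : N ≤ F.natDegree * (Λ * (max M0 N) + 1) := by
      have a1 : N ≤ max M0 N := le_max_right _ _
      have a2 : max M0 N ≤ Λ * max M0 N := Nat.le_mul_of_pos_left _ (by rw [hΛ]; omega)
      have a3 : Λ * max M0 N + 1 ≤ F.natDegree * (Λ * max M0 N + 1) := Nat.le_mul_of_pos_left _ hF
      omega
    have h4 : (N : ℤ) ≤ ((F.natDegree * (Λ * (max M0 N) + 1) : ℕ) : ℤ) := by exact_mod_cast h3
    have h5 : (0 : ℤ) ≤ ((F.natDegree * (P (max M0 N)).natDegree : ℕ) : ℤ) := Int.natCast_nonneg _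
    linarith
  have hR0 : R M0 = 0 := by
    rw [hX M0 le_rfl, hX00, zero_mul]
  refine ⟨P M0, fun l => - Q M0 l, hP0 M0 le_rfl, fun ν => ?_⟩
  have h1 := seq_of_series (L := L) F.natDegree hF h (fun l : Fin F.natDegree => ek s F l) (P M0) (Q M0) (T M0)
    (sub_eq_zero.1 hR0) ν
  have h2 : ∑ l : Fin F.natDegree, act (- Q M0 l) (ek s F l) ν = - ∑ l : Fin F.natDegree, act (Q M0 l) (ek s F l) ν := by
    rw [← Finset.sum_neg_distrib]
    exact Finset.sum_congr rfl fun l _ => V1_act_neg _ _ _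
  rw [h2]
  exact eq_neg_of_add_eq_zero_left h1

end Pool.Agent.FCT
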