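import Pool.Agent.FCT.AF
import Pool.Agent.FCT.V1
import Pool.Agent.FCT.Lg5

/-! Row FCT-V2: the relation over `K[s]`. -/

set_option autoImplicit false

namespace Pool.Agent.FCT

open Polynomial Finset NumberField

theorem V2_elim {κ : Type*} [Field κ] (L : Type*) [Field L] [Algebra κ L] [CharZero κ] [CharZero L] (F : κ[X])
    (hF : 1 ≤ F.natDegree)
    (y : Fin F.natDegree → LaurentSeries L)
    (hy : Roots (iE κ L) (cE L F.natDegree) F y) (s : κ) (h : ℕ → κ) (E : ℕ) (hE : F.natDegree = E)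
    (I : Finset (Fin E))
    (hind : ∀ B : Fin E → κ[X], (∀ l, l ∉ I → B l = 0) →
        (∀ ν, ∑ l : Fin E, act (B l) (ek s F l) ν = 0) → ∀ l, B l = 0)
    (C1 : ℕ) (hAR : ∀ Λ : ℕ, ∃ M0 : ℕ, ∀ M, M0 ≤ M →
        ∃ (P : κ[X]) (Q : Fin E → κ[X]),
          (P ≠ 0 ∨ ∃ l, Q l ≠ 0) ∧ (∀ l, l ∉ I → Q l = 0) ∧ P.natDegree ≤ C1 * M ∧
          (∀ l, (Q l).natDegree ≤ C1 * M) ∧
          ∀ ν < Λ * M, act P h ν + ∑ l : Fin E, act (Q l) (ek s F l) ν = 0) :
    ∃ (P : κ[X]) (Q : Fin E → κ[X]), P ≠ 0 ∧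
      ∀ ν, act P h ν = ∑ l : Fin E, act (Q l) (ek s F l) ν := by
  subst hE
  exact elim L F hF y hy s h I hind C1 hAR

theorem V2_norm {K : Type*} [Field K] (p : (RatFunc K)[X]) : ∃ b : K[X], b ≠ 0 ∧
    ∃ q : K[X][X], q.map (algebraMap K[X] (RatFunc K)) = C (algebraMap K[X] (RatFunc K) b) * p := by
  obtain ⟨b, hb, h⟩ := IsLocalization.integerNormalization_spec (nonZeroDivisors K[X]) p
  refine ⟨b, nonZeroDivisors.ne_zero hb, _, h.trans ?_⟩
  ext i
  rw [coeff_smul, coeff_C_mul, Algebra.smul_def]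

theorem V2_ek {K : Type*} [Field K] [CharZero K] (F : K[X][X]) (l : ℕ) :
    ek (RatFunc.X : RatFunc K) (F.map (algebraMap K[X] (RatFunc K))) l = rf (ee F l) := by
  funext ν
  rw [rf, ee, ISk_ratFunc, ek]
  simp only [Polynomial.map_mul, Polynomial.map_pow, map_X]

theorem V2_act {K : Type*} [Field K] (P' : K[X][X]) (P : (RatFunc K)[X]) (d : K[X])
    (h : P'.map (algebraMap K[X] (RatFunc K)) = C (algebraMap K[X] (RatFunc K) d) * P) (a : ℕ → K[X]) (ν : ℕ) :
    algebraMap K[X] (RatFunc K) (act P' a ν) = algebraMap K[X] (RatFunc K) d * act P (rf a) ν := by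
  have h1 := act_map (algebraMap K[X] (RatFunc K)) P' a ν
  have h2 : act (P'.map (algebraMap K[X] (RatFunc K))) (rf a) ν = algebraMap K[X] (RatFunc K) d * act P (rf a) ν := by
    rw [h, act_mul, act_C]
  rw [← h2]
  exact h1

/-- Proof.  `κ = RatFunc K`, `Fκ = F.map (algebraMap K[X] κ)` (same degree `E`), `s = RatFunc.X`, `L` = the splitting field over `κ` of
`C a * X^E - 1` (`a` = leading coefficient; `Polynomial.SplittingField`), `y` from `roots_inf`.  `ISk_ratFunc` gives
`ek s Fκ k ν = algebraMap (ee F k ν) = rf (ee F k) ν`.  Apply `AR_F` and `elim` (with `h = rf h`).  Beware that the index type is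
`Fin Fκ.natDegree` versus `Fin F.natDegree` (equal numbers; `Fin.castOrderIso`/`subst` a variable for the degree).
Finally clear the denominators of `P, Q l` in `K[s]` and use `act_map` and injectivity of `K[X] → RatFunc K`. -/
theorem elim_final {K : Type} [Field K] [NumberField K] (F : K[X][X]) (hF : 1 ≤ F.natDegree)
    (hL : ∀ m, 1 ≤ m → L1 (IS (F ^ m)) = 0) :
    ∃ (h : ℕ → K[X]) (P : K[X][X]) (Q : ℕ → K[X][X]), dd h = h + psi F ∧ P ≠ 0 ∧
      act P h = ∑ l ∈ range F.natDegree, act (Q l) (ee F l) := by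
  classical
  obtain ⟨h, I, hh, hind, C1, hAR⟩ := AR_F F hF hL
  set Fk : (RatFunc K)[X] := F.map (algebraMap K[X] (RatFunc K)) with hFk
  have hdeg : Fk.natDegree = F.natDegree :=
    natDegree_map_eq_of_injective (RatFunc.algebraMap_injective K) F
  have hFk1 : 1 ≤ Fk.natDegree := by rw [hdeg]; exact hF
  let g : (RatFunc K)[X] := C Fk.leadingCoeff * X ^ Fk.natDegree - 1
  have hs : (C (algebraMap (RatFunc K) g.SplittingField Fk.leadingCoeff) * X ^ Fk.natDegree - 1 :
      (g.SplittingField)[X]).Splits := by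
    have h1 := SplittingField.splits g
    have h2 : ∀ (M : Type) [Field M] (φ : RatFunc K →+* M), g.map φ =
        (C (φ Fk.leadingCoeff) * X ^ Fk.natDegree - 1 : M[X]) := by
      intro M _ φ
      change (C Fk.leadingCoeff * X ^ Fk.natDegree - 1 : (RatFunc K)[X]).map φ = _
      rw [Polynomial.map_sub, Polynomial.map_mul, Polynomial.map_C, Polynomial.map_pow, Polynomial.map_X,
        Polynomial.map_one]
    rw [← h2]
    exact h1
  have : CharZero g.SplittingField :=
    charZero_of_injective_algebraMap (algebraMap (RatFunc K) g.SplittingField).injective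
  obtain ⟨y, hy⟩ := roots_inf (κ := RatFunc K) (L := g.SplittingField) Fk hFk1 hs
  obtain ⟨P, Q, hP, hPQ⟩ := V2_elim (κ := RatFunc K) g.SplittingField Fk hFk1 y hy RatFunc.X (rf h) F.natDegree hdeg I
    (by
      intro B hB hB2
      refine hind B hB fun ν => ?_
      rw [← hB2 ν]
      refine Finset.sum_congr rfl fun l _ => ?_
      rw [V2_ek]) C1
    (by
      intro Λ
      obtain ⟨M0, hM0⟩ := hAR Λ
      refine ⟨M0, fun M hM => ?_⟩
      obtain ⟨P, Q, h1, h2, h3, h4, h5⟩ := hM0 M hM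
      refine ⟨P, Q, h1, h2, h3, h4, fun ν hν => ?_⟩
      rw [← h5 ν hν]
      congr 1
      refine Finset.sum_congr rfl fun l _ => ?_
      rw [V2_ek])
  obtain ⟨bP, hbP, p', hp'⟩ := V2_norm P
  choose b hb q hq using fun l => V2_norm (Q l)
  let d : K[X] := bP * ∏ l, b l
  have hd : d ≠ 0 := mul_ne_zero hbP (Finset.prod_ne_zero_iff.2 fun l _ => hb l)
  have hP' : (C (∏ l, b l) * p').map (algebraMap K[X] (RatFunc K)) = C (algebraMap K[X] (RatFunc K) d) * P := by
    rw [Polynomial.map_mul, Polynomial.map_C, hp', ← mul_assoc, ← C_mul, ← map_mul]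
    congr 3
    exact mul_comm _ _
  have hQ' : ∀ l, (C (bP * ∏ m ∈ univ.erase l, b m) * q l).map (algebraMap K[X] (RatFunc K)) =
      C (algebraMap K[X] (RatFunc K) d) * Q l := by
    intro l
    rw [Polynomial.map_mul, Polynomial.map_C, hq, ← mul_assoc, ← C_mul, ← map_mul]
    congr 3
    rw [mul_assoc, mul_comm _ (b l), Finset.mul_prod_erase univ b (Finset.mem_univ l)]
  refine ⟨h, C (∏ l, b l) * p', fun l => if hl : l < F.natDegree then
    C (bP * ∏ m ∈ univ.erase ⟨l, hl⟩, b m) * q ⟨l, hl⟩ else 0, hh, ?_, ?_⟩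
  · intro h0
    rw [h0, Polynomial.map_zero] at hP'
    have h1 : (C (algebraMap K[X] (RatFunc K) d) : (RatFunc K)[X]) ≠ 0 := by
      rw [Ne, C_eq_zero]
      exact RatFunc.algebraMap_ne_zero hd
    exact mul_ne_zero h1 hP hP'.symm
  · funext ν
    apply RatFunc.algebraMap_injective K
    rw [V2_act _ _ _ hP', hPQ ν, Finset.mul_sum, Finset.sum_apply, map_sum, Finset.sum_range]
    refine Finset.sum_congr rfl fun l _ => ?_
    beta_reduce
    rw [dif_pos l.2, V2_act _ _ _ (hQ' l), V2_ek]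

end Pool.Agent.FCT
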