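import Pool.Agent.FCT.TT
import Pool.Agent.FCT.DerCast

/-! Row FCT-W1: reduction of the equation to lowest terms. -/

set_option autoImplicit false

namespace Pool.Agent.FCT

open Polynomial Finset

variable {κ : Type*} [Field κ]

/-- The derivation `B G = G^δ F' - G' F^δ` of `κ[Y]` (it kills `F`). -/
noncomputable def BB (δ : Derivation ℤ κ κ) (F G : κ[X]) : κ[X] := dmap δ G * derivative F - derivative G * dmap δ F

theorem BB_mul (δ : Derivation ℤ κ κ) (F G H : κ[X]) : BB δ F (G * H) = G * BB δ F H + H * BB δ F G := by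
  unfold BB
  rw [Derivation.leibniz, derivative_mul, smul_eq_mul, smul_eq_mul]
  ring

theorem W1_BB_sum (δ : Derivation ℤ κ κ) (F : κ[X]) {ι : Type*} (s : Finset ι) (f : ι → κ[X]) :
    BB δ F (∑ i ∈ s, f i) = ∑ i ∈ s, BB δ F (f i) := by
  unfold BB
  rw [map_sum, derivative_sum, Finset.sum_mul, Finset.sum_mul, Finset.sum_sub_distrib]

theorem W1_BB_pow (δ : Derivation ℤ κ κ) (F : κ[X]) (n : ℕ) : BB δ F (F ^ n) = 0 := by
  induction n with
  | zero =>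
    rw [pow_zero]
    unfold BB
    rw [Derivation.map_one_eq_zero, derivative_one]
    ring
  | succ n ih =>
    rw [pow_succ, BB_mul, ih]
    unfold BB
    ring

theorem W1_BB_C (δ : Derivation ℤ κ κ) (F : κ[X]) (a : κ) (ha : δ a = 0) : BB δ F (C a) = 0 := by
  have h : dmap δ (C a) = 0 := by
    ext i
    rw [dmap_coeff, coeff_C, coeff_zero]
    split_ifs
    · exact ha
    · exact map_zero _
  unfold BB
  rw [h, derivative_C]
  ring

/-- `B (χ(F)) = 0` if the coefficients of `χ` are killed by `δ`: `B` is additive, `B F = 0`, `B (C a) = 0` if `δ a = 0`. -/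
theorem BB_comp (δ : Derivation ℤ κ κ) (F χ : κ[X]) (hχ : ∀ i, δ (χ.coeff i) = 0) : BB δ F (χ.comp F) = 0 := by
  rw [Polynomial.comp, eval₂_eq_sum_range, W1_BB_sum]
  apply Finset.sum_eq_zero
  intro i _
  rw [BB_mul, W1_BB_pow, W1_BB_C _ _ _ (hχ i)]
  ring

/-- Proof.  `g = gcd N Δ` (`EuclideanDomain.gcd`), `N = g N'`, `Δ = g Δ'`: `B(N) Δ - N B(Δ) = g² (B(N') Δ' - N' B(Δ'))`; cancel `g²`. -/
theorem PDE_coprime (δ : Derivation ℤ κ κ) (F N Δ : κ[X]) (hΔ : Δ ≠ 0) (h : PDE δ F N Δ) :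
    ∃ N' Δ' : κ[X], Δ' ≠ 0 ∧ IsCoprime N' Δ' ∧ PDE δ F N' Δ' := by
  classical
  obtain ⟨N', hN'⟩ := EuclideanDomain.gcd_dvd_left N Δ
  obtain ⟨Δ', hΔ'⟩ := EuclideanDomain.gcd_dvd_right N Δ
  have hab := EuclideanDomain.gcd_eq_gcd_ab N Δ
  generalize EuclideanDomain.gcd N Δ = g at hN' hΔ' hab
  generalize EuclideanDomain.gcdA N Δ = a at hab
  generalize EuclideanDomain.gcdB N Δ = b at hab
  have hg : g ≠ 0 := by
    rintro rfl
    rw [zero_mul] at hΔ'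
    exact hΔ hΔ'
  have hΔ1 : Δ' ≠ 0 := by
    rintro rfl
    rw [mul_zero] at hΔ'
    exact hΔ hΔ'
  refine ⟨N', Δ', hΔ1, ⟨a, b, ?_⟩, ?_⟩
  · apply mul_left_cancel₀ hg
    rw [mul_one]
    conv_rhs => rw [hab]
    rw [hN', hΔ']
    ring
  · have h1 : BB δ F N * Δ - N * BB δ F Δ = N * Δ * derivative F + Δ ^ 2 := h
    have h2 : BB δ F N' * Δ' - N' * BB δ F Δ' = N' * Δ' * derivative F + Δ' ^ 2 := by
      apply mul_left_cancel₀ (pow_ne_zero 2 hg)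
      rw [hN', hΔ', BB_mul, BB_mul] at h1
      linear_combination h1
    exact h2

/-- From `B(N) Δ - N B(Δ) = N Δ F' + Δ²`: `Δ ∣ N B(Δ)`. -/
theorem dvd_BB (δ : Derivation ℤ κ κ) (F N Δ : κ[X]) (hc : IsCoprime N Δ) (h : PDE δ F N Δ) : Δ ∣ BB δ F Δ := by
  have h1 : BB δ F N * Δ - N * BB δ F Δ = N * Δ * derivative F + Δ ^ 2 := h
  have h2 : Δ ∣ N * BB δ F Δ := ⟨BB δ F N - N * derivative F - Δ, by linear_combination -h1⟩
  exact hc.symm.dvd_of_dvd_mul_left h2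

/-- Proof.  `χ(F) = Δ R`, `Z = N R`.  `Δ * (B Z - Z F' - χ(F)) = R * (B(N) Δ - N B(Δ) - N Δ F' - Δ²) = 0`, using
`0 = B(χ(F)) = Δ B(R) + R B(Δ)`. -/
theorem exists_Z_of_dvd (δ : Derivation ℤ κ κ) (F N Δ χ : κ[X]) (hΔ : Δ ≠ 0) (h : PDE δ F N Δ)
    (hχ : ∀ i, δ (χ.coeff i) = 0) (hd : Δ ∣ χ.comp F) :
    ∃ Z : κ[X], BB δ F Z - Z * derivative F = χ.comp F := by
  obtain ⟨R, hR⟩ := hd
  refine ⟨N * R, ?_⟩
  have h0 := BB_comp δ F χ hχ
  rw [hR, BB_mul] at h0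
  have h1 : BB δ F N * Δ - N * BB δ F Δ = N * Δ * derivative F + Δ ^ 2 := h
  apply mul_left_cancel₀ hΔ
  rw [hR, BB_mul]
  linear_combination R * h1 + N * h0

end Pool.Agent.FCT
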