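import Pool.Agent.FCT.W3c

/-! Row FCT-W3: polynomial form of the equation -/

set_option autoImplicit false

namespace Pool.Agent.FCT

open Polynomial Finset

/-- Combine `PDE_coprime`, `dvd_BB`, `exists_chi_dvd`, `exists_Z_of_dvd` (`δ` kills complex numbers: `hδ` for constant polynomials). -/
theorem exists_Z (δ : Der (RatFunc ℂ))
    (hδ : ∀ p : ℂ[X], δ (algebraMap ℂ[X] (RatFunc ℂ) p) = algebraMap ℂ[X] (RatFunc ℂ) (derivative p))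
    (F N Δ : (RatFunc ℂ)[X]) (hΔ : Δ ≠ 0) (h : PDE δ F N Δ) :
    ∃ (χ : ℂ[X]) (Z : (RatFunc ℂ)[X]), χ ≠ 0 ∧
      BB δ F Z - Z * derivative F = (χ.map (algebraMap ℂ (RatFunc ℂ))).comp F := by
  obtain ⟨N', Δ', hΔ', hc, h'⟩ := PDE_coprime δ F N Δ hΔ h
  obtain ⟨χ, hχ, hd⟩ := exists_chi_dvd δ hδ F Δ' hΔ' (dvd_BB δ F N' Δ' hc h')
  obtain ⟨Z, hZ⟩ := exists_Z_of_dvd δ F N' Δ' (χ.map (algebraMap ℂ (RatFunc ℂ))) hΔ' h' (by
    intro i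
    rw [coeff_map]
    have h1 : algebraMap ℂ (RatFunc ℂ) (χ.coeff i) = algebraMap ℂ[X] (RatFunc ℂ) (C (χ.coeff i)) := by
      rw [RatFunc.algebraMap_C]
      rfl
    rw [h1, hδ, derivative_C, map_zero]) hd
  exact ⟨χ, Z, hχ, hZ⟩

end Pool.Agent.FCT
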