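import Pool.Agent.FCT.W1

/-! Row FCT-W3a: constants of K(s) and of its algebraic extensions -/

set_option autoImplicit false

namespace Pool.Agent.FCT

open Polynomial Finset

theorem W3a_leib {R : Type*} [CommRing R] (D : Der R) (a b : R) : D (a * b) = a * D b + b * D a := by
  rw [Derivation.leibniz, smul_eq_mul, smul_eq_mul]

theorem W3a_one {R : Type*} [CommRing R] (D : Der R) : D 1 = 0 := Derivation.map_one_eq_zero _

/-- Proof.  `a = p/q` in lowest terms (or any): `p' q = p q'`; with `p, q` coprime `q ∣ q'`, so `q' = 0`, `q` constant, then `p' = 0`. -/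
theorem const_ratFunc {K : Type*} [Field K] [CharZero K] (δ : Der (RatFunc K))
    (hδ : ∀ p : K[X], δ (algebraMap K[X] (RatFunc K) p) = algebraMap K[X] (RatFunc K) (derivative p))
    (a : RatFunc K) (ha : δ a = 0) : ∃ x : K, a = algebraMap K (RatFunc K) x := by
  have hq0 : algebraMap K[X] (RatFunc K) a.denom ≠ 0 := RatFunc.algebraMap_ne_zero a.denom_ne_zero
  have h1 : a * algebraMap K[X] (RatFunc K) a.denom = algebraMap K[X] (RatFunc K) a.num := by
    conv_lhs => rw [← RatFunc.num_div_denom a]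
    rw [RatFunc.num_div_denom a]
    nth_rewrite 1 [← RatFunc.num_div_denom a]
    exact div_mul_cancel₀ _ hq0
  have h2 := congrArg δ h1
  rw [W3a_leib, ha, mul_zero, add_zero, hδ, hδ] at h2
  have h3 : a.num * derivative a.denom = derivative a.num * a.denom := by
    apply RatFunc.algebraMap_injective (K := K)
    rw [map_mul, map_mul, ← h1, ← h2]
    ring
  have h4 : a.denom ∣ derivative a.denom := by
    have h5 : a.denom ∣ a.num * derivative a.denom := ⟨derivative a.num, by rw [h3]; ring⟩
    exact a.isCoprime_num_denom.symm.dvd_of_dvd_mul_left h5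
  have h6 : derivative a.denom = 0 := by
    by_contra h7
    have h8 := Polynomial.degree_le_of_dvd h4 h7
    have h9 := Polynomial.degree_derivative_lt (p := a.denom) a.denom_ne_zero
    exact absurd (lt_of_lt_of_le h9 h8) (lt_irrefl _)
  have h7 : a.denom = 1 := by
    have h8 : a.denom.natDegree = 0 := Polynomial.derivative_eq_zero.mp h6
    exact a.monic_denom.natDegree_eq_zero.mp h8
  have h8 : derivative a.num = 0 := by
    rw [h6, h7, mul_zero, mul_one] at h3
    exact h3.symm
  have h9 : a.num.natDegree = 0 := Polynomial.derivative_eq_zero.mp h8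
  rw [h7, map_one, mul_one] at h1
  refine ⟨a.num.coeff 0, h1.trans ?_⟩
  conv_lhs => rw [Polynomial.eq_C_of_natDegree_eq_zero h9]
  rw [RatFunc.algebraMap_C]
  rfl

/-- chain rule -/
theorem W3a_chain {κ M : Type*} [Field κ] [Field M] (i : κ →+* M) (δ : Derivation ℤ κ κ) (δM : Derivation ℤ M M)
    (hM : ∀ a, δM (i a) = i (δ a)) (z : M) (P : κ[X]) :
    δM (eval₂ i z P) = eval₂ i z (dmap δ P) + eval₂ i z (derivative P) * δM z := by
  induction P using Polynomial.induction_on' with
  | add p q hp hq =>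
    rw [eval₂_add, map_add, hp, hq, map_add, derivative_add, eval₂_add, eval₂_add]
    ring
  | monomial n a =>
    have h : dmap δ (monomial n a) = monomial n (δ a) := by
      ext m
      rw [dmap_coeff, coeff_monomial, coeff_monomial]
      split_ifs
      · rfl
      · exact map_zero _
    rw [h, eval₂_monomial, eval₂_monomial, derivative_monomial, eval₂_monomial, Derivation.leibniz, hM,
      Derivation.leibniz_pow, smul_eq_mul, smul_eq_mul, nsmul_eq_mul, smul_eq_mul, map_mul, map_natCast]
    ring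

/-- Proof.  Minimal polynomial `p` of `z` over `κ = RatFunc ℂ`; apply `δM` to `p(z) = 0`: `(dmap δ p)(z) = 0`, and `dmap δ p` has smaller degree
(`p` monic), so `dmap δ p = 0`: the coefficients of `p` are complex numbers (`const_ratFunc`).  `p = p0.map`, `p0 ∈ ℂ[X]` splits, so `z` is a complex
number. -/
theorem const_alg {M : Type*} [Field M] [Algebra (RatFunc ℂ) M] [Algebra.IsAlgebraic (RatFunc ℂ) M]
    (δ : Der (RatFunc ℂ))
    (hδ : ∀ p : ℂ[X], δ (algebraMap ℂ[X] (RatFunc ℂ) p) = algebraMap ℂ[X] (RatFunc ℂ) (derivative p))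
    (δM : Derivation ℤ M M) (hM : ∀ a, δM (algebraMap (RatFunc ℂ) M a) = algebraMap (RatFunc ℂ) M (δ a))
    (z : M) (hz : δM z = 0) : ∃ x : ℂ, z = algebraMap (RatFunc ℂ) M (algebraMap ℂ (RatFunc ℂ) x) := by
  have hint : IsIntegral (RatFunc ℂ) z := (Algebra.IsAlgebraic.isAlgebraic z).isIntegral
  set p := minpoly (RatFunc ℂ) z with hp
  have hmon : p.Monic := minpoly.monic hint
  have h0 : eval₂ (algebraMap (RatFunc ℂ) M) z p = 0 := minpoly.aeval (RatFunc ℂ) z
  have h1 : eval₂ (algebraMap (RatFunc ℂ) M) z (dmap δ p) = 0 := by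
    have h2 := W3a_chain (algebraMap (RatFunc ℂ) M) δ δM hM z p
    rw [h0, map_zero, hz, mul_zero, add_zero] at h2
    exact h2.symm
  have h2 : dmap δ p = 0 := by
    have hd : p ∣ dmap δ p := minpoly.dvd (RatFunc ℂ) z h1
    refine Polynomial.eq_zero_of_dvd_of_degree_lt hd ?_
    rw [Polynomial.degree_eq_natDegree hmon.ne_zero, Polynomial.degree_lt_iff_coeff_zero]
    intro m hm
    rw [dmap_coeff]
    rcases Nat.eq_or_lt_of_le hm with h | h
    · rw [← h, hmon.coeff_natDegree]
      exact W3a_one δ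
    · rw [Polynomial.coeff_eq_zero_of_natDegree_lt h, map_zero]
  have h3 : ∀ n, p.coeff n ∈ Set.range (algebraMap ℂ (RatFunc ℂ)) := by
    intro n
    have h4 : δ (p.coeff n) = 0 := by
      rw [← dmap_coeff, h2, coeff_zero]
    obtain ⟨x, hx⟩ := const_ratFunc δ hδ _ h4
    exact ⟨x, hx.symm⟩
  obtain ⟨p0, hp0⟩ := (Polynomial.mem_lifts p).mp ((Polynomial.lifts_iff_coeff_lifts p).mpr h3)
  have h5 : p0.degree ≠ 0 := by
    have h6 : p.degree = p0.degree := by
      rw [← hp0]
      exact Polynomial.degree_map p0 _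
    rw [← h6]
    exact (minpoly.degree_pos hint).ne'
  obtain ⟨x, hx⟩ := IsAlgClosed.exists_root p0 h5
  refine ⟨x, ?_⟩
  have h7 : IsRoot (minpoly (RatFunc ℂ) z) (algebraMap ℂ (RatFunc ℂ) x) := by
    rw [← hp, ← hp0, IsRoot, Polynomial.eval_map_apply, hx.eq_zero, map_zero]
  exact (minpoly.root hint h7).symm

end Pool.Agent.FCT
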