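import Pool.Agent.FCT.W1

/-! Row FCT-W3b: values of F at the roots of the denominator are constants -/

set_option autoImplicit false

namespace Pool.Agent.FCT

open Polynomial Finset

/-- chain rule -/
theorem W3b_chain {κ M : Type*} [Field κ] [Field M] (i : κ →+* M) (δ : Derivation ℤ κ κ) (δM : Derivation ℤ M M)
    (hM : ∀ a, δM (i a) = i (δ a)) (z : M) (P : κ[X]) :
    δM (eval₂ i z P) = eval₂ i z (dmap δ P) + eval₂ i z (derivative P) * δM z := by
  induction P using Polynomial.induction_on' with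
  | add p q hp hq =>
    rw [eval₂_add, map_add, hp, hq, map_add, derivative_add, eval₂_add, eval₂_add]
    ring
  | monomial n a =>
    have h : dmap δ (monomial n a) = monomial n (δ a) := by
      ext m
      rw [dmap_coeff, coeff_monomial, coeff_monomial]
      split_ifs
      · rfl
      · exact map_zero _
    rw [h, eval₂_monomial, eval₂_monomial, derivative_monomial, eval₂_monomial, Derivation.leibniz, hM,
      Derivation.leibniz_pow, smul_eq_mul, smul_eq_mul, nsmul_eq_mul, smul_eq_mul, map_mul, map_natCast]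
    ring

theorem W3b_dmap {κ M : Type*} [Field κ] [Field M] (i : κ →+* M) (δ : Derivation ℤ κ κ) (δM : Derivation ℤ M M)
    (hM : ∀ a, δM (i a) = i (δ a)) (P : κ[X]) : (dmap δ P).map i = dmap δM (P.map i) := by
  ext m
  rw [coeff_map, dmap_coeff, dmap_coeff, coeff_map, hM]

theorem W3b_BB {κ M : Type*} [Field κ] [Field M] (i : κ →+* M) (δ : Derivation ℤ κ κ) (δM : Derivation ℤ M M)
    (hM : ∀ a, δM (i a) = i (δ a)) (F P : κ[X]) : (BB δ F P).map i = BB δM (F.map i) (P.map i) := by
  unfold BB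
  rw [Polynomial.map_sub, Polynomial.map_mul, Polynomial.map_mul, W3b_dmap i δ δM hM, W3b_dmap i δ δM hM,
    derivative_map, derivative_map]

theorem W3b_pow {M : Type*} [Field M] (δ : Derivation ℤ M M) (F G : M[X]) (n : ℕ) :
    BB δ F (G ^ (n + 1)) = (n + 1 : M[X]) * G ^ n * BB δ F G := by
  induction n with
  | zero => simp
  | succ n ih =>
    rw [pow_succ, BB_mul, ih]
    push_cast
    ring

theorem W3b_X_sub_C {M : Type*} [Field M] (δ : Derivation ℤ M M) (F : M[X]) (β : M) :
    BB δ F (X - C β) = -(C (δ β) * derivative F) - dmap δ F := by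
  have h : dmap δ (X - C β) = - C (δ β) := by
    rw [map_sub]
    have h1 : dmap δ (X : M[X]) = 0 := by
      ext m
      rw [dmap_coeff, coeff_X, coeff_zero]
      split_ifs
      · exact Derivation.map_one_eq_zero _
      · exact map_zero _
    have h2 : dmap δ (C β) = C (δ β) := by
      ext m
      rw [dmap_coeff, coeff_C, coeff_C]
      split_ifs
      · rfl
      · exact map_zero _
    rw [h1, h2, zero_sub]
  unfold BB
  rw [h, derivative_sub, derivative_X, derivative_C]
  ring

/-- Proof.  `Δ.map = (X - β)^m Δ1`, `m ≥ 1`, `Δ1(β) ≠ 0` over `M`.  Modulo `(X - β)^m`: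
`B(Δ) ≡ m (X - β)^(m-1) Δ1 (- δM(β) F' - F^δ)` (where `B`, `F` are mapped to `M`), and `(X-β)^m ∣ B(Δ)`, so `X - β` divides
`δM(β) F' + F^δ`; evaluate at `β`: `δM (F(β)) = F^δ(β) + F'(β) δM(β) = 0`. -/
theorem root_const {κ M : Type*} [Field κ] [CharZero κ] [Field M] [Algebra κ M] (δ : Derivation ℤ κ κ) (δM : Derivation ℤ M M)
    (hM : ∀ a, δM (algebraMap κ M a) = algebraMap κ M (δ a)) (F Δ : κ[X]) (hΔ : Δ ≠ 0) (hd : Δ ∣ BB δ F Δ) (β : M)
    (hβ : eval₂ (algebraMap κ M) β Δ = 0) : δM (eval₂ (algebraMap κ M) β F) = 0 := by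
  classical
  have : CharZero M := charZero_of_injective_algebraMap (algebraMap κ M).injective
  set i := algebraMap κ M with hi
  have hΔM : Δ.map i ≠ 0 := (Polynomial.map_ne_zero_iff i.injective).mpr hΔ
  have hdM : Δ.map i ∣ BB δM (F.map i) (Δ.map i) := by
    rw [← W3b_BB i δ δM hM]
    exact Polynomial.map_dvd i hd
  have hroot : IsRoot (Δ.map i) β := by
    rw [IsRoot, Polynomial.eval_map]
    exact hβ
  obtain ⟨Q, hQ, hQβ⟩ := Polynomial.exists_eq_pow_rootMultiplicity_mul_and_not_dvd (Δ.map i) hΔM β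
  have hm : 0 < Polynomial.rootMultiplicity β (Δ.map i) := (Polynomial.rootMultiplicity_pos hΔM).mpr hroot
  obtain ⟨n, hn⟩ : ∃ n, Polynomial.rootMultiplicity β (Δ.map i) = n + 1 := ⟨_, (Nat.succ_pred_eq_of_pos hm).symm⟩
  rw [hn] at hQ
  have h1 : (X - C β) ^ (n + 1) ∣ BB δM (F.map i) (Δ.map i) := by
    refine dvd_trans ?_ hdM
    conv_rhs => rw [hQ]
    exact Dvd.intro _ rfl
  rw [hQ, BB_mul, W3b_pow] at h1
  have h2 : (X - C β) ^ (n + 1) ∣ Q * ((n + 1 : M[X]) * (X - C β) ^ n * BB δM (F.map i) (X - C β)) := by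
    exact (dvd_add_right (Dvd.intro _ rfl)).mp h1
  have h3 : (X - C β) ∣ Q * ((n + 1 : M[X]) * BB δM (F.map i) (X - C β)) := by
    have h4 : (X - C β) ^ n * (X - C β) ∣ (X - C β) ^ n * (Q * ((n + 1 : M[X]) * BB δM (F.map i) (X - C β))) := by
      rw [← pow_succ]
      refine dvd_trans h2 (dvd_of_eq ?_)
      ring
    exact (mul_dvd_mul_iff_left (pow_ne_zero n (Polynomial.X_sub_C_ne_zero β))).mp h4
  have hprime : Prime (X - C β : M[X]) := Polynomial.prime_X_sub_C β
  have h5 : (X - C β) ∣ BB δM (F.map i) (X - C β) := by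
    rcases hprime.dvd_or_dvd h3 with h | h
    · exact absurd h hQβ
    · rcases hprime.dvd_or_dvd h with h | h
      · exfalso
        have h6 : ((n + 1 : M[X])) = C ((n + 1 : M)) := by simp
        rw [h6] at h
        have h7 := Polynomial.dvd_iff_isRoot.mp h
        rw [IsRoot, eval_C] at h7
        have h8 : ((n : M) + 1) ≠ 0 := Nat.cast_add_one_ne_zero n
        exact h8 h7
      · exact h
  have h6 := Polynomial.dvd_iff_isRoot.mp h5
  rw [W3b_X_sub_C, IsRoot, eval_sub, eval_neg, eval_mul, eval_C, ← W3b_dmap i δ δM hM, derivative_map,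
    Polynomial.eval_map, Polynomial.eval_map] at h6
  rw [W3b_chain i δ δM hM]
  linear_combination -h6

end Pool.Agent.FCT
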