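import Pool.Agent.FCT.W3a
import Pool.Agent.FCT.W3b

/-! Row FCT-W3c: divisibility by chi(F) -/

set_option autoImplicit false

namespace Pool.Agent.FCT

open Polynomial Finset

theorem W3c_exists_der {κ : Type*} [Field κ] [CharZero κ] (δ : Der κ) (M : Type*) [Field M] [Algebra κ M]
    [FiniteDimensional κ M] :
    ∃ δM : Derivation ℤ M M, ∀ a, δM (algebraMap κ M a) = algebraMap κ M (δ a) := by
  letI : Differential κ := ⟨δ⟩
  letI : Differential M := Differential.differentialFiniteDimensional κ M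
  haveI : DifferentialAlgebra κ M := Differential.differentialAlgebraFiniteDimensional
  exact ⟨Differential.deriv, fun a => DifferentialAlgebra.deriv_algebraMap a⟩

theorem W3c_main {κ M : Type*} [Field κ] [Algebra ℂ κ] [Field M] [Algebra κ M] (F Δ : κ[X]) (hs : (Δ.map (algebraMap κ M)).Splits)
    (hc : ∀ β : M, eval₂ (algebraMap κ M) β Δ = 0 → ∃ x : ℂ, eval₂ (algebraMap κ M) β F =
      algebraMap κ M (algebraMap ℂ κ x)) (hΔ : Δ ≠ 0) :
    ∃ χ : ℂ[X], χ ≠ 0 ∧ Δ ∣ (χ.map (algebraMap ℂ κ)).comp F := by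
  classical
  have hΔM : Δ.map (algebraMap κ M) ≠ 0 := (Polynomial.map_ne_zero_iff (algebraMap κ M).injective).mpr hΔ
  have hc' : ∀ β : M, ∃ x : ℂ, eval₂ (algebraMap κ M) β Δ = 0 → eval₂ (algebraMap κ M) β F =
      algebraMap κ M (algebraMap ℂ κ x) := by
    intro β
    by_cases h : eval₂ (algebraMap κ M) β Δ = 0
    · obtain ⟨x, hx⟩ := hc β h
      exact ⟨x, fun _ => hx⟩
    · exact ⟨0, fun h' => absurd h' h⟩
  choose c hc using hc'
  refine ⟨((Δ.map (algebraMap κ M)).roots.map (fun β => X - C (c β))).prod, ?_, ?_⟩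
  · exact (Polynomial.monic_multiset_prod_of_monic _ _ (fun β _ => Polynomial.monic_X_sub_C _)).ne_zero
  · rw [← Polynomial.map_dvd_map' (algebraMap κ M)]
    have h1 : Δ.map (algebraMap κ M) = C ((Δ.map (algebraMap κ M)).leadingCoeff) *
        ((Δ.map (algebraMap κ M)).roots.map (fun β => X - C β)).prod := hs.eq_prod_roots
    have h2 : Δ.map (algebraMap κ M) ∣ ((Δ.map (algebraMap κ M)).roots.map (fun β => X - C β)).prod := by
      have hu : IsUnit (C ((Δ.map (algebraMap κ M)).leadingCoeff)) :=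
        Polynomial.isUnit_C.mpr (isUnit_iff_ne_zero.mpr (Polynomial.leadingCoeff_ne_zero.mpr hΔM))
      conv_lhs => rw [h1]
      exact (hu.mul_left_dvd).mpr dvd_rfl
    refine dvd_trans h2 ?_
    rw [Polynomial.map_comp, Polynomial.map_map, Polynomial.map_multiset_prod, Multiset.map_map,
      Polynomial.multiset_prod_comp, Multiset.map_map]
    apply Multiset.prod_dvd_prod_of_dvd
    intro β hβ
    simp only [Function.comp_apply, Polynomial.map_sub, Polynomial.map_X, Polynomial.map_C, Polynomial.sub_comp,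
      Polynomial.X_comp, Polynomial.C_comp]
    rw [Polynomial.dvd_iff_isRoot, IsRoot, eval_sub, eval_C, Polynomial.eval_map]
    rw [hc β]
    · rw [RingHom.comp_apply, sub_self]
    · have h3 := (Polynomial.mem_roots hΔM).mp hβ
      rw [IsRoot, Polynomial.eval_map] at h3
      exact h3

/-- Proof.  `M` = splitting field of `Δ` over `κ = RatFunc ℂ` (finite; `Differential.differentialFiniteDimensional` gives `δM`).  Over `M`:
`Δ = lc ∏ (X - β_i)` and `F(β_i) = c_i ∈ ℂ` (`root_const`, `const_alg`), so `X - β_i ∣ F - c_i` and `Δ ∣ ∏ (F - c_i) = χ(F)`, `χ = ∏ (X - c_i)`.  Divisibility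
descends to `κ[X]` (`Polynomial.map_dvd_map'`). -/
theorem exists_chi_dvd (δ : Der (RatFunc ℂ))
    (hδ : ∀ p : ℂ[X], δ (algebraMap ℂ[X] (RatFunc ℂ) p) = algebraMap ℂ[X] (RatFunc ℂ) (derivative p))
    (F Δ : (RatFunc ℂ)[X]) (hΔ : Δ ≠ 0) (hd : Δ ∣ BB δ F Δ) :
    ∃ χ : ℂ[X], χ ≠ 0 ∧ Δ ∣ (χ.map (algebraMap ℂ (RatFunc ℂ))).comp F := by
  obtain ⟨δM, hM⟩ := W3c_exists_der δ (Polynomial.SplittingField Δ)
  refine W3c_main (M := Polynomial.SplittingField Δ) F Δ (Polynomial.SplittingField.splits Δ) ?_ hΔ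
  intro β hβ
  exact const_alg δ hδ δM hM _ (root_const δ δM hM F Δ hΔ hd β hβ)

end Pool.Agent.FCT
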