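import Pool.Agent.FCT.W1

/-! Row FCT-W5b: the first order equation for the leading coefficient -/

set_option autoImplicit false

namespace Pool.Agent.FCT

open Polynomial Finset

theorem W5b_leib {R : Type*} [CommRing R] (δ : Der R) (a b : R) : δ (a * b) = a * δ b + b * δ a := by
  rw [Derivation.leibniz]
  rfl

/-- step 1: the denominator has no root -/
theorem W5b_root (a p q : ℂ[X]) (ha : a ≠ 0) (hq : q ≠ 0) (hpq : IsCoprime p q) (E : ℕ) (hE : 1 ≤ E) (x : ℂ)
    (h : (E : ℂ[X]) * a * (derivative p * q - p * derivative q) - E * a * p * q - derivative a * p * q = C x * a * q ^ 2)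
    (s : ℂ) : ¬ q.IsRoot s := by
  intro hs
  obtain ⟨a0, ha0, ha1⟩ := exists_eq_pow_rootMultiplicity_mul_and_not_dvd a ha s
  obtain ⟨q0, hq0, hq1⟩ := exists_eq_pow_rootMultiplicity_mul_and_not_dvd q hq s
  obtain ⟨v, hv⟩ : ∃ v, q.rootMultiplicity s = v + 1 := by
    have : 0 < q.rootMultiplicity s := (rootMultiplicity_pos hq).2 hs
    exact ⟨_, (Nat.succ_pred_eq_of_pos this).symm⟩
  obtain ⟨α, hα⟩ : ∃ α, a.rootMultiplicity s = α := ⟨_, rfl⟩
  rw [hα] at ha0
  rw [hv] at hq0
  obtain ⟨r, hr⟩ : ∃ r : ℂ[X], r = X - C s := ⟨_, rfl⟩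
  rw [← hr] at ha0 ha1 hq0 hq1
  have hr0 : r ≠ 0 := by rw [hr]; exact X_sub_C_ne_zero s
  have hdr : derivative r = 1 := by rw [hr]; simp
  have hra : r * derivative a = r ^ α * ((α : ℂ[X]) * a0 + r * derivative a0) := by
    rw [ha0, derivative_mul, derivative_pow, hdr]
    rcases α with _ | α
    · simp
    · have hC : (C ((α : ℂ) + 1) : ℂ[X]) = (α : ℂ[X]) + 1 := by simp
      push_cast
      rw [hC]
      ring
  have hrq : r * derivative q = r ^ (v + 1) * (((v : ℂ[X]) + 1) * q0 + r * derivative q0) := by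
    rw [hq0, derivative_mul, derivative_pow, hdr]
    have hC : (C ((v : ℂ) + 1) : ℂ[X]) = (v : ℂ[X]) + 1 := by simp
    push_cast
    rw [hC]
    ring
  have key : r ^ (α + v + 1) * ((E : ℂ[X]) * a0 * derivative p * q0 * r - E * a0 * p * (((v : ℂ[X]) + 1) * q0 + r * derivative q0)
      - E * a0 * p * q0 * r - ((α : ℂ[X]) * a0 + r * derivative a0) * p * q0 - C x * a0 * q0 ^ 2 * r ^ (v + 2)) = 0 := by
    have h1 : (E : ℂ[X]) * a * (derivative p * q * r - p * (r * derivative q)) - E * a * p * q * r -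
        (r * derivative a) * p * q - C x * a * q ^ 2 * r = 0 := by
      linear_combination r * h
    rw [hra, hrq] at h1
    rw [← h1]
    rw [show a = r ^ α * a0 from ha0, show q = r ^ (v + 1) * q0 from hq0]
    ring
  have key2 := (mul_eq_zero.1 key).resolve_left (pow_ne_zero _ hr0)
  have h3 := congrArg (eval s) key2
  have hers : eval s r = 0 := by rw [hr]; simp
  simp only [eval_sub, eval_mul, eval_add, eval_pow, hers, eval_natCast, eval_one, eval_zero, eval_C, mul_zero, zero_mul,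
    add_zero, zero_sub, sub_zero, zero_pow (show v + 2 ≠ 0 by omega)] at h3
  have e1 : eval s a0 ≠ 0 := by
    intro h4
    apply ha1
    rw [hr]
    exact dvd_iff_isRoot.2 h4
  have e2 : eval s q0 ≠ 0 := by
    intro h4
    apply hq1
    rw [hr]
    exact dvd_iff_isRoot.2 h4
  have e3 : eval s p ≠ 0 := by
    intro h4
    obtain ⟨c, d, hcd⟩ := hpq
    have h5 := congrArg (eval s) hcd
    rw [eval_add, eval_mul, eval_mul, h4, hs.eq_zero, mul_zero, mul_zero, add_zero, eval_one] at h5
    exact zero_ne_one h5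
  have h6 : ((E : ℂ) * (v + 1) + α) * (eval s a0 * eval s p * eval s q0) = 0 := by
    linear_combination -h3
  have h7 : ((E : ℂ) * (v + 1) + α) ≠ 0 := by
    have : E * (v + 1) + α ≠ 0 := by
      have : 0 < E * (v + 1) := Nat.mul_pos hE (Nat.succ_pos v)
      omega
    exact_mod_cast this
  exact (mul_ne_zero h7 (mul_ne_zero (mul_ne_zero e1 e3) e2)) h6

/-- step 2: the polynomial case -/
theorem W5b_poly (a u : ℂ[X]) (ha : a ≠ 0) (E : ℕ) (hE : 1 ≤ E) (x : ℂ) (hx : x ≠ 0)
    (h : (E : ℂ[X]) * a * derivative u - E * a * u - derivative a * u = C x * a) : a.natDegree = 0 := by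
  by_contra hda
  have hEC : (E : ℂ[X]) = C (E : ℂ) := by simp
  have hE0 : (E : ℂ) ≠ 0 := by exact_mod_cast (show E ≠ 0 by omega)
  have h1 : a * (C (E : ℂ) * derivative u - C (E : ℂ) * u - C x) = derivative a * u := by
    rw [← hEC]
    linear_combination h
  have hda' : (derivative a).natDegree < a.natDegree := natDegree_derivative_lt hda
  have hda0 : derivative a ≠ 0 := by
    intro h2
    exact hda (derivative_eq_zero.1 h2)
  by_cases hu : u.natDegree = 0
  · obtain ⟨c, rfl⟩ : ∃ c, u = C c := ⟨_, eq_C_of_natDegree_eq_zero hu⟩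
    rw [derivative_C, mul_zero, zero_sub] at h1
    have e1 : -(C (E : ℂ) * C c) - C x = C (-(E * c) - x) := by
      simp only [map_sub, map_neg, map_mul]
    rw [e1] at h1
    have h2 : (-(E * c) - x : ℂ) = 0 := by
      by_contra h3
      have h4 : (a * C (-(E * c) - x)).natDegree = a.natDegree := natDegree_mul_C h3
      rw [h1] at h4
      have h5 : (derivative a * C c).natDegree ≤ (derivative a).natDegree := natDegree_mul_C_le _ _
      omega
    rw [h2, C_0, mul_zero] at h1
    have h3 : C c = 0 := (mul_eq_zero.1 h1.symm).resolve_left hda0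
    rw [C_eq_zero] at h3
    rw [h3, mul_zero, neg_zero, zero_sub, neg_eq_zero] at h2
    exact hx h2
  · have h2 : (C (E : ℂ) * derivative u - C (E : ℂ) * u - C x).natDegree = u.natDegree := by
      have hdu : (derivative u).natDegree < u.natDegree := natDegree_derivative_lt hu
      have e1 : (C (E : ℂ) * derivative u - C x).natDegree < (C (E : ℂ) * u).natDegree := by
        rw [natDegree_C_mul hE0]
        refine lt_of_le_of_lt (natDegree_sub_le _ _) (max_lt ?_ ?_)
        · rwa [natDegree_C_mul hE0]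
        · rw [natDegree_C]; omega
      have e2 : C (E : ℂ) * derivative u - C (E : ℂ) * u - C x = (C (E : ℂ) * derivative u - C x) - C (E : ℂ) * u := by ring
      rw [e2, natDegree_sub_eq_right_of_natDegree_lt e1, natDegree_C_mul hE0]
    have h3 : (C (E : ℂ) * derivative u - C (E : ℂ) * u - C x) ≠ 0 := by
      intro h4
      rw [h4, natDegree_zero] at h2
      exact hu h2.symm
    have h4 := congrArg natDegree h1
    rw [natDegree_mul ha h3, h2] at h4
    have h5 := natDegree_mul_le (p := derivative a) (q := u)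
    omega

/-- Proof.  Write `u = p/q`, `p, q` coprime polynomials, `q ≠ 0`.  The equation becomes `E a (p' q - p q') - E a p q - a' p q = x a q²`.
(1) At a root `s0` of `a q` let `α`, `v(p)`, `v(q)` be the multiplicities in `a, p, q` (one of `v(p), v(q)` is `0`), `β = v(p) - v(q)`.
If `v(q) > 0` (`β < 0`): the left side has multiplicity exactly `α + v(q) - 1` (leading coefficient `(E β - α)·… ≠ 0`; the term `E a p q` has multiplicity
`α + v(q)`), the right side `α + 2 v(q)`: contradiction.  So `q` is constant.  If `v(q) = 0`, `α > 0` and `p(s0) ≠ 0`: the left side has multiplicity exactly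
`α - 1` (term `a' p q`), the right side `α`: contradiction.  So `u` is a polynomial vanishing at all roots of `a`.
(2) Degrees: `E a u' - E a u - a' u = x a` gives `deg u = 0`, so `u` is constant, `≠ 0` (as `x a ≠ 0`); so `a` has no root, `natDegree a = 0`. -/
theorem u_lemma (δ : Der (RatFunc ℂ))
    (hδ : ∀ p : ℂ[X], δ (algebraMap ℂ[X] (RatFunc ℂ) p) = algebraMap ℂ[X] (RatFunc ℂ) (derivative p))
    (a : ℂ[X]) (ha : a ≠ 0) (E : ℕ) (hE : 1 ≤ E) (x : ℂ) (hx : x ≠ 0) (u : RatFunc ℂ)
    (h : (E : RatFunc ℂ) * algebraMap ℂ[X] (RatFunc ℂ) a * δ u - E * algebraMap ℂ[X] (RatFunc ℂ) a * u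
      - δ (algebraMap ℂ[X] (RatFunc ℂ) a) * u = algebraMap ℂ (RatFunc ℂ) x * algebraMap ℂ[X] (RatFunc ℂ) a) :
    a.natDegree = 0 := by
  obtain ⟨p, q, hq, hpq, hu⟩ : ∃ p q : ℂ[X], q ≠ 0 ∧ IsCoprime p q ∧
      u * algebraMap ℂ[X] (RatFunc ℂ) q = algebraMap ℂ[X] (RatFunc ℂ) p := by
    refine ⟨u.num, u.denom, u.denom_ne_zero, u.isCoprime_num_denom, ?_⟩
    have h1 := u.num_div_denom
    have h2 : algebraMap ℂ[X] (RatFunc ℂ) u.denom ≠ 0 := RatFunc.algebraMap_ne_zero u.denom_ne_zero
    exact ((div_eq_iff h2).1 h1).symm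
  have hdu : δ u * algebraMap ℂ[X] (RatFunc ℂ) q =
      algebraMap ℂ[X] (RatFunc ℂ) (derivative p) - u * algebraMap ℂ[X] (RatFunc ℂ) (derivative q) := by
    have h1 := congrArg δ hu
    rw [W5b_leib, hδ, hδ] at h1
    linear_combination h1
  have hxC : algebraMap ℂ (RatFunc ℂ) x = algebraMap ℂ[X] (RatFunc ℂ) (C x) :=
    IsScalarTower.algebraMap_apply ℂ ℂ[X] (RatFunc ℂ) x
  have hmain : (E : ℂ[X]) * a * (derivative p * q - p * derivative q) - E * a * p * q - derivative a * p * q =
      C x * a * q ^ 2 := by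
    apply RatFunc.algebraMap_injective ℂ
    simp only [map_sub, map_mul, map_pow, map_natCast]
    rw [hδ, hxC] at h
    have h1 := congrArg (fun z => z * algebraMap ℂ[X] (RatFunc ℂ) q ^ 2) h
    linear_combination h1 - (E : RatFunc ℂ) * algebraMap ℂ[X] (RatFunc ℂ) a * algebraMap ℂ[X] (RatFunc ℂ) q * hdu +
      ((E : RatFunc ℂ) * algebraMap ℂ[X] (RatFunc ℂ) a * algebraMap ℂ[X] (RatFunc ℂ) (derivative q) +
        (E : RatFunc ℂ) * algebraMap ℂ[X] (RatFunc ℂ) a * algebraMap ℂ[X] (RatFunc ℂ) q +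
        algebraMap ℂ[X] (RatFunc ℂ) (derivative a) * algebraMap ℂ[X] (RatFunc ℂ) q) * hu
  have hroot := W5b_root a p q ha hq hpq E hE x hmain
  have hq0 : q.natDegree = 0 := by
    by_contra h1
    obtain ⟨s, hs⟩ := IsAlgClosed.exists_root q (by
      intro h2
      exact h1 (natDegree_eq_zero_iff_degree_le_zero.2 h2.le))
    exact hroot s hs
  obtain ⟨c, rfl⟩ : ∃ c, q = C c := ⟨_, eq_C_of_natDegree_eq_zero hq0⟩
  have hc : c ≠ 0 := by
    rintro rfl
    exact hq C_0
  refine W5b_poly a (C c⁻¹ * p) ha E hE x hx ?_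
  rw [derivative_C, mul_zero, sub_zero] at hmain
  rw [derivative_C_mul]
  have h5 : (C c : ℂ[X]) * C c⁻¹ = 1 := by
    rw [← C_mul, mul_inv_cancel₀ hc, C_1]
  linear_combination (C c⁻¹) ^ 2 * hmain + (-(C c⁻¹ * ((E : ℂ[X]) * a * derivative p - (E : ℂ[X]) * a * p - derivative a * p)) +
    C x * a * (1 + C c * C c⁻¹)) * h5

end Pool.Agent.FCT
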