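import Pool.Agent.FCT.W5a
import Pool.Agent.FCT.W5b

/-! Row FCT-W5: the leading coefficient of F is constant -/

set_option autoImplicit false

namespace Pool.Agent.FCT

open Polynomial Finset

theorem W5_leib {R : Type*} [CommRing R] (δ : Der R) (a b : R) : δ (a * b) = a * δ b + b * δ a := by
  rw [Derivation.leibniz, smul_eq_mul, smul_eq_mul]

theorem W5_dmap_deg {κ : Type*} [Field κ] (δ : Der κ) (P : κ[X]) : (dmap δ P).natDegree ≤ P.natDegree := by
  rw [natDegree_le_iff_coeff_eq_zero]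
  intro N hN
  rw [dmap_coeff, coeff_eq_zero_of_natDegree_lt hN]
  exact map_zero δ

theorem W5_coeff {κ : Type*} [Field κ] (δ : Der κ) (F Z : κ[X]) (hF : 1 ≤ F.natDegree) :
    (BB δ F Z - Z * derivative F).natDegree ≤ Z.natDegree + (F.natDegree - 1) ∧
      (BB δ F Z - Z * derivative F).coeff (Z.natDegree + (F.natDegree - 1)) =
        (F.natDegree : κ) * F.leadingCoeff * δ Z.leadingCoeff - Z.natDegree * Z.leadingCoeff * δ F.leadingCoeff -
          F.natDegree * F.leadingCoeff * Z.leadingCoeff := by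
  have h1 : (derivative F).natDegree ≤ F.natDegree - 1 := natDegree_derivative_le F
  have h2 := W5_dmap_deg δ Z
  have h3 := W5_dmap_deg δ F
  have hcF : (derivative F).coeff (F.natDegree - 1) = F.natDegree * F.leadingCoeff := by
    rw [coeff_derivative, Nat.sub_add_cancel hF, Nat.cast_sub hF]
    rw [leadingCoeff]
    push_cast
    ring
  have hB : (derivative Z * dmap δ F).natDegree ≤ Z.natDegree + (F.natDegree - 1) ∧
      (derivative Z * dmap δ F).coeff (Z.natDegree + (F.natDegree - 1)) = Z.natDegree * Z.leadingCoeff * δ F.leadingCoeff := by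
    rcases Nat.eq_zero_or_pos Z.natDegree with h0 | h0
    · have h4 : derivative Z = 0 := by
        rw [eq_C_of_natDegree_eq_zero h0, derivative_C]
      rw [h4, zero_mul, natDegree_zero, coeff_zero, h0, Nat.cast_zero, zero_mul, zero_mul]
      exact ⟨Nat.zero_le _, rfl⟩
    · have h4 : (derivative Z).natDegree ≤ Z.natDegree - 1 := natDegree_derivative_le Z
      have e1 : Z.natDegree + (F.natDegree - 1) = (Z.natDegree - 1) + F.natDegree := by omega
      constructor
      · refine natDegree_mul_le.trans ?_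
        omega
      · rw [e1, coeff_mul_add_eq_of_natDegree_le h4 h3, coeff_derivative, Nat.sub_add_cancel h0, Nat.cast_sub h0, dmap_coeff]
        rw [leadingCoeff, leadingCoeff]
        push_cast
        ring
  constructor
  · unfold BB
    refine (natDegree_sub_le _ _).trans (max_le ((natDegree_sub_le _ _).trans (max_le ?_ hB.1)) ?_)
    · exact natDegree_mul_le.trans (by omega)
    · exact natDegree_mul_le.trans (by omega)
  · unfold BB
    rw [coeff_sub, coeff_sub, hB.2, coeff_mul_add_eq_of_natDegree_le h2 h1, coeff_mul_add_eq_of_natDegree_le le_rfl h1, hcF, dmap_coeff]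
    rw [leadingCoeff, leadingCoeff]
    ring

theorem W5_pow {κ : Type*} [Field κ] (δ : Der κ) (a : κ) (k : ℕ) : a * δ (a ^ k) = k * a ^ k * δ a := by
  induction k with
  | zero =>
    rw [pow_zero, Derivation.map_one_eq_zero, mul_zero, Nat.cast_zero, zero_mul, zero_mul]
  | succ k ih =>
    rw [pow_succ, W5_leib, mul_add]
    push_cast
    linear_combination a * ih

theorem W5_u {κ : Type*} [Field κ] (δ : Der κ) (a z u x : κ) (E r k : ℕ) (ha : a ≠ 0) (hu : u * a ^ k = z * a)
    (hr : (r : κ) + E = k * E + 1) (hθ : (E : κ) * a * δ z - r * z * δ a - E * a * z = x * a ^ k) :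
    (E : κ) * a * δ u - E * a * u - δ a * u = x * a := by
  have h1 := congrArg δ hu
  rw [W5_leib, W5_leib] at h1
  have h2 := W5_pow δ a k
  apply mul_left_cancel₀ (pow_ne_zero k ha)
  linear_combination (E : κ) * a * h1 - E * u * h2 - (E * a + δ a) * hu - E * k * δ a * hu + a * hθ + a * z * δ a * hr

/-- Proof.  `κ = RatFunc ℂ`, `F = F0.map`, `E = natDegree F`, `a` its leading coefficient, `k = natDegree χ`.  `Z ≠ 0` as `χ(F) ≠ 0`; `z = lc(Z)`, `r = natDegree Z`.
The coefficient of `Y^(r+E-1)` of `B(Z) - Z F'` is `θ = E a δz - r z δa - E a z ≠ 0` (`theta_ne_zero`), and it has degree `≤ r+E-1` in `Y`.  `χ(F)` has degree `k E` and leading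
coefficient `χ_k a^k`.  So `r + E - 1 = k E` and `θ = χ_k a^k`.  Put `u = z * a^(1-k)` (`zpow`), `z = a^(k-1) u`; as `r = E(k-1)+1` (as integers), `θ = a^(k-1) (E a δu - E a u - δa u)`, so
`u_lemma` applies with `x = χ_k`. -/
theorem lead_const (δ : Der (RatFunc ℂ))
    (hδ : ∀ p : ℂ[X], δ (algebraMap ℂ[X] (RatFunc ℂ) p) = algebraMap ℂ[X] (RatFunc ℂ) (derivative p))
    (F0 : ℂ[X][X]) (hF : 1 ≤ F0.natDegree) (χ : ℂ[X]) (hχ : χ ≠ 0) (Z : (RatFunc ℂ)[X])
    (h : BB δ (F0.map (algebraMap ℂ[X] (RatFunc ℂ))) Z - Z * derivative (F0.map (algebraMap ℂ[X] (RatFunc ℂ))) =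
      (χ.map (algebraMap ℂ (RatFunc ℂ))).comp (F0.map (algebraMap ℂ[X] (RatFunc ℂ)))) :
    F0.leadingCoeff.natDegree = 0 := by
  have hinj : Function.Injective (algebraMap ℂ[X] (RatFunc ℂ)) := IsFractionRing.injective ℂ[X] (RatFunc ℂ)
  have hdeg : (F0.map (algebraMap ℂ[X] (RatFunc ℂ))).natDegree = F0.natDegree := natDegree_map_eq_of_injective hinj F0
  have hlc : (F0.map (algebraMap ℂ[X] (RatFunc ℂ))).leadingCoeff = algebraMap ℂ[X] (RatFunc ℂ) F0.leadingCoeff :=
    leadingCoeff_map_of_injective hinj F0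
  have hF00 : F0.leadingCoeff ≠ 0 := by
    rw [Ne, leadingCoeff_eq_zero]
    rintro rfl
    simp at hF
  have ha : algebraMap ℂ[X] (RatFunc ℂ) F0.leadingCoeff ≠ 0 := fun h1 => hF00 (hinj (by rw [h1, map_zero]))
  have hχd : (χ.map (algebraMap ℂ (RatFunc ℂ))).natDegree = χ.natDegree := natDegree_map _
  have hχl : (χ.map (algebraMap ℂ (RatFunc ℂ))).leadingCoeff = algebraMap ℂ (RatFunc ℂ) χ.leadingCoeff := leadingCoeff_map _
  set F := F0.map (algebraMap ℂ[X] (RatFunc ℂ)) with hFdef
  set X1 := χ.map (algebraMap ℂ (RatFunc ℂ)) with hX1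
  have hG1 : (X1.comp F).natDegree = χ.natDegree * F0.natDegree := by rw [natDegree_comp, hχd, hdeg]
  have hG2 : (X1.comp F).leadingCoeff = algebraMap ℂ (RatFunc ℂ) χ.leadingCoeff * F.leadingCoeff ^ χ.natDegree := by
    rw [leadingCoeff_comp (by rw [hdeg]; omega), hχl, hχd]
  have hχ0 : algebraMap ℂ (RatFunc ℂ) χ.leadingCoeff ≠ 0 := (_root_.map_ne_zero _).2 (leadingCoeff_ne_zero.2 hχ)
  have hG0 : X1.comp F ≠ 0 := by
    rw [← leadingCoeff_ne_zero, hG2, hlc]
    exact mul_ne_zero hχ0 (pow_ne_zero _ ha)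
  have hZ0 : Z ≠ 0 := by
    rintro rfl
    apply hG0
    rw [← h]
    unfold BB
    have h1 : dmap δ (0 : (RatFunc ℂ)[X]) = 0 := map_zero _
    rw [h1, derivative_zero]
    ring
  obtain ⟨c1, c2⟩ := W5_coeff δ F Z (by rw [hdeg]; exact hF)
  have hθ := theta_ne_zero δ hδ F.leadingCoeff Z.leadingCoeff (by rw [hlc]; exact ha) (leadingCoeff_ne_zero.2 hZ0)
    F.natDegree (by rw [hdeg]; exact hF) Z.natDegree
  have hn : (X1.comp F).natDegree = Z.natDegree + (F.natDegree - 1) := by
    rw [← h]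
    exact natDegree_eq_of_le_of_coeff_ne_zero c1 (by rw [c2]; exact hθ)
  rw [h, ← hn] at c2
  have hc3 : (X1.comp F).coeff (X1.comp F).natDegree = (X1.comp F).leadingCoeff := rfl
  rw [hc3, hG2] at c2
  have hr : (Z.natDegree : RatFunc ℂ) + F.natDegree = χ.natDegree * F.natDegree + 1 := by
    have h1 : Z.natDegree + F.natDegree = χ.natDegree * F.natDegree + 1 := by
      rw [hG1, ← hdeg] at hn
      have h2 : 1 ≤ F.natDegree := by rw [hdeg]; exact hF
      omega
    exact_mod_cast h1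
  have hA : F.leadingCoeff ≠ 0 := by rw [hlc]; exact ha
  have hu : (Z.leadingCoeff * F.leadingCoeff / F.leadingCoeff ^ χ.natDegree) * F.leadingCoeff ^ χ.natDegree =
      Z.leadingCoeff * F.leadingCoeff := div_mul_cancel₀ _ (pow_ne_zero _ hA)
  have hfin := W5_u δ F.leadingCoeff Z.leadingCoeff _ (algebraMap ℂ (RatFunc ℂ) χ.leadingCoeff) F.natDegree Z.natDegree
    χ.natDegree hA hu hr c2.symm
  rw [hlc] at hfin
  exact u_lemma δ hδ F0.leadingCoeff hF00 F.natDegree (by rw [hdeg]; exact hF) χ.leadingCoeff (leadingCoeff_ne_zero.2 hχ)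
    _ hfin

end Pool.Agent.FCT
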