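import Pool.Agent.FCT.W1

/-! Row FCT-W5a: degrees at infinity -/

set_option autoImplicit false

namespace Pool.Agent.FCT

open Polynomial Finset

theorem W5a_zero {R : Type*} [CommRing R] (δ : Der R) : δ 0 = 0 := map_zero δ

theorem W5a_leib {R : Type*} [CommRing R] (δ : Der R) (a b : R) : δ (a * b) = a * δ b + b * δ a := by
  rw [Derivation.leibniz, smul_eq_mul, smul_eq_mul]

theorem W5a_pd (p q : ℂ[X]) (hp : p ≠ 0) (hq : q ≠ 0) (h : derivative p * q - p * derivative q ≠ 0) :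
    (derivative p * q - p * derivative q).natDegree < p.natDegree + q.natDegree := by
  have h1 : (derivative p * q).degree < (p.natDegree + q.natDegree : ℕ) := by
    rw [degree_mul, Nat.cast_add, ← degree_eq_natDegree hp, ← degree_eq_natDegree hq]
    exact WithBot.add_lt_add_right (degree_ne_bot.2 hq) (degree_derivative_lt hp)
  have h2 : (p * derivative q).degree < (p.natDegree + q.natDegree : ℕ) := by
    rw [degree_mul, Nat.cast_add, ← degree_eq_natDegree hp, ← degree_eq_natDegree hq]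
    exact WithBot.add_lt_add_left (degree_ne_bot.2 hp) (degree_derivative_lt hq)
  have h3 := lt_of_le_of_lt (degree_sub_le (derivative p * q) (p * derivative q)) (max_lt h1 h2)
  rw [degree_eq_natDegree h] at h3
  exact_mod_cast h3

/-- `p'/q' `: differentiation lowers the degree at infinity: `δ (p/q) = (p' q - p q')/q²`. -/
theorem intDegree_der (δ : Der (RatFunc ℂ))
    (hδ : ∀ p : ℂ[X], δ (algebraMap ℂ[X] (RatFunc ℂ) p) = algebraMap ℂ[X] (RatFunc ℂ) (derivative p))
    (z : RatFunc ℂ) (hz : δ z ≠ 0) : (δ z).intDegree < z.intDegree := by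
  have hz0 : z ≠ 0 := by
    rintro rfl
    exact hz (W5a_zero δ)
  have hq0 : z.denom ≠ 0 := z.denom_ne_zero
  have hp0 : z.num ≠ 0 := RatFunc.num_ne_zero hz0
  set p := z.num with hp
  set q := z.denom with hq
  have hinj : Function.Injective (algebraMap ℂ[X] (RatFunc ℂ)) := IsFractionRing.injective ℂ[X] (RatFunc ℂ)
  have hA : ∀ r : ℂ[X], r ≠ 0 → algebraMap ℂ[X] (RatFunc ℂ) r ≠ 0 := by
    intro r hr h
    exact hr (hinj (by rw [h, map_zero]))
  have h1 : z * algebraMap ℂ[X] (RatFunc ℂ) q = algebraMap ℂ[X] (RatFunc ℂ) p := by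
    conv_lhs => rw [← RatFunc.num_div_denom z]
    rw [div_mul_cancel₀ _ (hA _ hq0)]
  have h2 : δ z * algebraMap ℂ[X] (RatFunc ℂ) (q * q) =
      algebraMap ℂ[X] (RatFunc ℂ) (derivative p * q - p * derivative q) := by
    have h3 := congrArg δ h1
    rw [W5a_leib, hδ, hδ] at h3
    rw [map_sub, map_mul, map_mul, map_mul]
    linear_combination algebraMap ℂ[X] (RatFunc ℂ) q * h3 - algebraMap ℂ[X] (RatFunc ℂ) (derivative q) * h1
  have hn : derivative p * q - p * derivative q ≠ 0 := by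
    intro h0
    rw [h0, map_zero] at h2
    rcases mul_eq_zero.1 h2 with h4 | h4
    · exact hz h4
    · exact hA _ (mul_ne_zero hq0 hq0) h4
  have h3 := congrArg RatFunc.intDegree h2
  rw [RatFunc.intDegree_mul hz (hA _ (mul_ne_zero hq0 hq0)), RatFunc.intDegree_polynomial, RatFunc.intDegree_polynomial,
    natDegree_mul hq0 hq0] at h3
  have h4 := congrArg RatFunc.intDegree h1
  rw [RatFunc.intDegree_mul hz0 (hA _ hq0), RatFunc.intDegree_polynomial, RatFunc.intDegree_polynomial] at h4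
  have h5 := W5a_pd p q hp0 hq0 hn
  push_cast at h3
  omega

/-- bounded degree -/
def W5a_lt (x : RatFunc ℂ) (d : ℤ) : Prop := x ≠ 0 → x.intDegree < d

theorem W5a_sub {x y : RatFunc ℂ} {d : ℤ} (hx : W5a_lt x d) (hy : W5a_lt y d) : W5a_lt (x - y) d := by
  intro h
  by_cases hy0 : y = 0
  · rw [hy0, sub_zero] at h ⊢
    exact hx h
  · by_cases hx0 : x = 0
    · rw [hx0, zero_sub, RatFunc.intDegree_neg]
      exact hy hy0
    · rw [sub_eq_add_neg] at h ⊢
      refine lt_of_le_of_lt (RatFunc.intDegree_add_le (neg_ne_zero.2 hy0) h) ?_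
      rw [RatFunc.intDegree_neg]
      exact max_lt (hx hx0) (hy hy0)

theorem W5a_nat (n : ℕ) : (n : RatFunc ℂ).intDegree = 0 := by
  have h : (n : RatFunc ℂ) = algebraMap ℂ[X] (RatFunc ℂ) (n : ℂ[X]) := by rw [map_natCast]
  rw [h, RatFunc.intDegree_polynomial, natDegree_natCast]
  rfl

theorem W5a_term {δ : Der (RatFunc ℂ)}
    (hδ : ∀ p : ℂ[X], δ (algebraMap ℂ[X] (RatFunc ℂ) p) = algebraMap ℂ[X] (RatFunc ℂ) (derivative p))
    (n : ℕ) (a z : RatFunc ℂ) : W5a_lt (n * a * δ z) (a.intDegree + z.intDegree) := by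
  intro h
  have h1 : (n : RatFunc ℂ) * a ≠ 0 := left_ne_zero_of_mul h
  have h2 : δ z ≠ 0 := right_ne_zero_of_mul h
  rw [RatFunc.intDegree_mul h1 h2, RatFunc.intDegree_mul (left_ne_zero_of_mul h1) (right_ne_zero_of_mul h1), W5a_nat]
  have := intDegree_der δ hδ z h2
  omega

/-- Proof.  If it were zero, `E a z = E a δz - r z δa`; degrees at infinity (`intDegree`): `deg(a δz) < deg a + deg z`, `deg(z δa) < deg a + deg z`,
contradiction (`intDegree_der`, `intDegree_add_le`, `intDegree_mul`). -/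
theorem theta_ne_zero (δ : Der (RatFunc ℂ))
    (hδ : ∀ p : ℂ[X], δ (algebraMap ℂ[X] (RatFunc ℂ) p) = algebraMap ℂ[X] (RatFunc ℂ) (derivative p))
    (a z : RatFunc ℂ) (ha : a ≠ 0) (hz : z ≠ 0) (E : ℕ) (hE : 1 ≤ E) (r : ℕ) :
    (E : RatFunc ℂ) * a * δ z - r * z * δ a - E * a * z ≠ 0 := by
  intro h
  have hE0 : (E : RatFunc ℂ) ≠ 0 := by
    have h1 : (E : RatFunc ℂ) = algebraMap ℂ[X] (RatFunc ℂ) (E : ℂ[X]) := by rw [map_natCast]
    rw [h1]
    intro h2
    have h3 : (E : ℂ[X]) = 0 := IsFractionRing.injective ℂ[X] (RatFunc ℂ) (by rw [h2, map_zero])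
    rw [Nat.cast_eq_zero] at h3
    omega
  have h1 := W5a_term hδ E a z
  have h2 := W5a_term hδ r z a
  rw [add_comm z.intDegree] at h2
  have h3 := W5a_sub h1 h2
  rw [sub_eq_zero.1 h] at h3
  have h4 := h3 (mul_ne_zero (mul_ne_zero hE0 ha) hz)
  rw [RatFunc.intDegree_mul (mul_ne_zero hE0 ha) hz, RatFunc.intDegree_mul hE0 ha, W5a_nat] at h4
  omega

end Pool.Agent.FCT
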