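import Pool.Agent.FCT.RWDef

/-! Row FCT-W6b: weighted leading forms, abstract part -/

set_option autoImplicit false

namespace Pool.Agent.FCT

open Polynomial Finset

theorem W6b_mul {N M : ℤ} {z w : RW} (hz : ∀ n < N, z.coeff n = 0) (hw : ∀ n < M, w.coeff n = 0) :
    ∀ n < N + M, (z * w).coeff n = 0 := by
  intro n hn
  rw [HahnSeries.coeff_mul]
  refine Finset.sum_eq_zero fun ij hij => ?_
  rw [Finset.mem_antidiagonal] at hij
  obtain ⟨-, -, h⟩ := hij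
  by_cases h1 : ij.1 < N
  · rw [hz _ h1, zero_mul]
  · rw [hw _ (by omega), mul_zero]

theorem W6b_lead {N M : ℤ} {z w : RW} (hz : ∀ n < N, z.coeff n = 0) (hw : ∀ n < M, w.coeff n = 0) :
    (z * w).coeff (N + M) = z.coeff N * w.coeff M := by
  rw [HahnSeries.coeff_mul]
  rw [Finset.sum_eq_single (N, M)]
  · rintro ⟨i, j⟩ hij hne
    rw [Finset.mem_antidiagonal] at hij
    obtain ⟨-, -, h⟩ := hij
    simp only at h ⊢
    by_cases h1 : i < N
    · rw [hz _ h1, zero_mul]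
    · by_cases h2 : i = N
      · exact absurd (Prod.ext h2 (by simp only; omega)) hne
      · rw [hw _ (by omega), mul_zero]
  · intro h
    rw [Finset.mem_antidiagonal] at h
    simp only [HahnSeries.mem_support, and_true] at h
    by_cases h1 : z.coeff N = 0
    · rw [h1, zero_mul]
    · have h2 : w.coeff M = 0 := by
        by_contra h3
        exact h ⟨h1, h3⟩
      rw [h2, mul_zero]

theorem W6b_pow {e : ℕ} {Fh : RW} (hF : ∀ n < -(e : ℤ), Fh.coeff n = 0) (j : ℕ) :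
    (∀ n < -((e * j : ℕ) : ℤ), (Fh ^ j).coeff n = 0) ∧ (Fh ^ j).coeff (-((e * j : ℕ) : ℤ)) = Fh.coeff (-(e : ℤ)) ^ j := by
  induction j with
  | zero =>
    simp only [mul_zero, Nat.cast_zero, neg_zero, pow_zero]
    refine ⟨fun n hn => ?_, ?_⟩
    · rw [HahnSeries.coeff_one, if_neg hn.ne]
    · rw [HahnSeries.coeff_one, if_pos rfl]
  | succ j ih =>
    have e1 : -((e * (j + 1) : ℕ) : ℤ) = -((e * j : ℕ) : ℤ) + -(e : ℤ) := by push_cast; ring
    rw [e1, pow_succ, pow_succ]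
    exact ⟨W6b_mul ih.1 hF, by rw [W6b_lead ih.1 hF, ih.2]⟩

theorem W6b_C (a : ℂ[X]) (z : RW) (n : ℤ) : ((HahnSeries.C a : RW) * z).coeff n = a * z.coeff n := by
  rw [HahnSeries.C_mul_eq_smul, HahnSeries.coeff_smul, smul_eq_mul]

theorem W6b_rhs {e : ℕ} (he : 1 ≤ e) {Fh : RW} (hF : ∀ n < -(e : ℤ), Fh.coeff n = 0) (χ : ℂ[X]) :
    (∀ n < -((e * χ.natDegree : ℕ) : ℤ), (eval₂ ((HahnSeries.C).comp (C : ℂ →+* ℂ[X])) Fh χ : RW).coeff n = 0) ∧
      (eval₂ ((HahnSeries.C).comp (C : ℂ →+* ℂ[X])) Fh χ : RW).coeff (-((e * χ.natDegree : ℕ) : ℤ)) =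
        C χ.leadingCoeff * Fh.coeff (-(e : ℤ)) ^ χ.natDegree := by
  have h1 : ∀ n, (eval₂ ((HahnSeries.C).comp (C : ℂ →+* ℂ[X])) Fh χ : RW).coeff n =
      ∑ j ∈ range (χ.natDegree + 1), C (χ.coeff j) * (Fh ^ j).coeff n := by
    intro n
    rw [eval₂_eq_sum_range, HahnSeries.coeff_sum]
    refine Finset.sum_congr rfl fun j _ => ?_
    rw [RingHom.comp_apply, W6b_C]
  constructor
  · intro n hn
    rw [h1]
    refine Finset.sum_eq_zero fun j hj => ?_
    rw [Finset.mem_range] at hj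
    have h2 : e * j ≤ e * χ.natDegree := Nat.mul_le_mul_left e (by omega)
    rw [(W6b_pow hF j).1 n (by omega), mul_zero]
  · rw [h1, Finset.sum_eq_single χ.natDegree]
    · rw [(W6b_pow hF χ.natDegree).2]
      rfl
    · intro j hj hne
      rw [Finset.mem_range] at hj
      have h2 : e * j < e * χ.natDegree := Nat.mul_lt_mul_of_pos_left (by omega) he
      rw [(W6b_pow hF j).1 _ (by omega), mul_zero]
    · intro h
      exact absurd (Finset.mem_range.2 (Nat.lt_succ_self _)) h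

/-- Proof.  Let `N0` be the order of `Zh` (`Zh ≠ 0`, otherwise the left side is `0` — `D1 0 = D2 0 = 0` by `hD1`, `hD2` — while the right side has the nonzero
coefficient `χ_k P^k` at `-(e k)`), `ζ` its leading coefficient.  `D2 Fh` has order `-e + p` and leading coefficient `P' ≠ 0`.  `D1 Zh * D2 Fh` and `D2 Zh * D1 Fh` have order
`≥ N0 + q - e + p`; `Zh * D2 Fh` has exact order `N0 - e + p`, leading coefficient `ζ P'`.  The right side has exact order `-(e k)`, leading coefficient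
`χ_k P^k` (`k = natDegree χ`, `e ≥ 1`).  So `- ζ P' = χ_k P^k`. -/
theorem weight_dvd (p q e : ℕ) (hq : 1 ≤ q) (he : 1 ≤ e) (D1 D2 : RW → RW)
    (hD1 : ∀ (N : ℤ) (z : RW), (∀ n < N, z.coeff n = 0) → ∀ n < N + q, (D1 z).coeff n = 0)
    (hD2 : ∀ (z : RW) (n : ℤ), (D2 z).coeff n = derivative (z.coeff (n - p)))
    (Zh Fh : RW) (P : ℂ[X]) (hP : derivative P ≠ 0) (hF1 : ∀ n < -(e : ℤ), Fh.coeff n = 0) (hF2 : Fh.coeff (-(e : ℤ)) = P)
    (χ : ℂ[X]) (hχ : χ ≠ 0)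
    (h : D1 Zh * D2 Fh - D2 Zh * D1 Fh - Zh * D2 Fh =
      eval₂ ((HahnSeries.C).comp (C : ℂ →+* ℂ[X])) Fh χ) :
    derivative P ∣ P ^ χ.natDegree := by
  obtain ⟨hR0, hR1⟩ := W6b_rhs he hF1 χ
  rw [hF2] at hR1
  have hP0 : P ≠ 0 := by
    rintro rfl
    exact hP derivative_zero
  have hlc : χ.leadingCoeff ≠ 0 := leadingCoeff_ne_zero.2 hχ
  have hRne : (C χ.leadingCoeff * P ^ χ.natDegree : ℂ[X]) ≠ 0 := mul_ne_zero (C_ne_zero.2 hlc) (pow_ne_zero _ hP0)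
  have hZ0 : Zh ≠ 0 := by
    rintro rfl
    have h1 : D2 0 = 0 := by
      refine HahnSeries.ext (funext fun n => ?_)
      rw [hD2, HahnSeries.coeff_zero, HahnSeries.coeff_zero, derivative_zero]
    have h2 : D1 0 = 0 := by
      refine HahnSeries.ext (funext fun n => ?_)
      rw [hD1 (n + 1) 0 (fun m _ => HahnSeries.coeff_zero) n (by omega), HahnSeries.coeff_zero]
    simp only [h1, h2, zero_mul, sub_zero] at h
    rw [← h, HahnSeries.coeff_zero] at hR1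
    exact hRne hR1.symm
  set N0 := Zh.order with hN0
  have hZ1 : ∀ n < N0, Zh.coeff n = 0 := fun n hn => HahnSeries.coeff_eq_zero_of_lt_order hn
  have hZ2 : Zh.coeff N0 ≠ 0 := mt HahnSeries.coeff_order_eq_zero.1 hZ0
  have hd : ∀ (N : ℤ) (z : RW), (∀ n < N, z.coeff n = 0) → ∀ n < N + p, (D2 z).coeff n = 0 := by
    intro N z hz n hn
    rw [hD2, hz _ (by omega), derivative_zero]
  have hF3 : ∀ n < -(e : ℤ) + p, (D2 Fh).coeff n = 0 := hd _ _ hF1
  have hF4 : (D2 Fh).coeff (-(e : ℤ) + p) = derivative P := by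
    rw [hD2, add_sub_cancel_right, hF2]
  have t1 : ∀ n < (N0 + q) + (-(e : ℤ) + p), (D1 Zh * D2 Fh).coeff n = 0 := W6b_mul (hD1 _ _ hZ1) hF3
  have t2 : ∀ n < (N0 + p) + (-(e : ℤ) + q), (D2 Zh * D1 Fh).coeff n = 0 := W6b_mul (hd _ _ hZ1) (hD1 _ _ hF1)
  have t3 : ∀ n < N0 + (-(e : ℤ) + p), (Zh * D2 Fh).coeff n = 0 := W6b_mul hZ1 hF3
  have t4 : (Zh * D2 Fh).coeff (N0 + (-(e : ℤ) + p)) = Zh.coeff N0 * derivative P := by
    rw [W6b_lead hZ1 hF3, hF4]
  have l0 : ∀ n < N0 + (-(e : ℤ) + p), (D1 Zh * D2 Fh - D2 Zh * D1 Fh - Zh * D2 Fh).coeff n = 0 := by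
    intro n hn
    rw [HahnSeries.coeff_sub, HahnSeries.coeff_sub, t1 n (by omega), t2 n (by omega), t3 n hn, sub_zero, sub_zero]
  have l1 : (D1 Zh * D2 Fh - D2 Zh * D1 Fh - Zh * D2 Fh).coeff (N0 + (-(e : ℤ) + p)) = -(Zh.coeff N0 * derivative P) := by
    rw [HahnSeries.coeff_sub, HahnSeries.coeff_sub, t1 _ (by omega), t2 _ (by omega), t4, sub_zero, zero_sub]
  rw [h] at l0 l1
  have hne : -(Zh.coeff N0 * derivative P) ≠ 0 := neg_ne_zero.2 (mul_ne_zero hZ2 hP)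
  have hM : N0 + (-(e : ℤ) + p) = -((e * χ.natDegree : ℕ) : ℤ) := by
    rcases lt_trichotomy (N0 + (-(e : ℤ) + p)) (-((e * χ.natDegree : ℕ) : ℤ)) with h1 | h1 | h1
    · rw [hR0 _ h1] at l1
      exact absurd l1.symm hne
    · exact h1
    · rw [l0 _ h1] at hR1
      exact absurd hR1.symm hRne
  rw [hM, hR1] at l1
  have h5 : P ^ χ.natDegree = derivative P * (-(Zh.coeff N0) * C (χ.leadingCoeff)⁻¹) := by
    have h6 : (C (χ.leadingCoeff)⁻¹ * C χ.leadingCoeff : ℂ[X]) = 1 := by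
      rw [← C_mul, inv_mul_cancel₀ hlc, C_1]
    calc P ^ χ.natDegree = (C (χ.leadingCoeff)⁻¹ * C χ.leadingCoeff) * P ^ χ.natDegree := by rw [h6, one_mul]
      _ = C (χ.leadingCoeff)⁻¹ * (C χ.leadingCoeff * P ^ χ.natDegree) := by ring
      _ = _ := by rw [l1]; ring
  exact ⟨_, h5⟩

end Pool.Agent.FCT
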