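import Pool.Agent.FCT.RWDef

/-! Row FCT-W6c: p' divides p^k implies p is a pure power -/

set_option autoImplicit false

namespace Pool.Agent.FCT

open Polynomial Finset

/-- Proof.  Over `ℂ`, `P = lc ∏ (X - r_i)^{m_i}` over the distinct roots; the multiplicity of `r_i` in `P'` is `m_i - 1` and every root of `P'` is a root of `P` (as
`P' ∣ P^k`), so `deg P - 1 = deg P' = ∑ (m_i - 1) = deg P - #roots`; so there is only one root `r`. -/
theorem pure_power (P : ℂ[X]) (hP : 1 ≤ P.natDegree) (k : ℕ) (h : derivative P ∣ P ^ k) :
    ∃ r : ℂ, P = C P.leadingCoeff * (X - C r) ^ P.natDegree := by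
  classical
  have hP0 : P ≠ 0 := by
    rintro rfl
    simp at hP
  have hd : (derivative P).natDegree = P.natDegree - 1 := by
    refine natDegree_eq_of_degree_eq_some ?_
    exact degree_derivative (by omega)
  have hP'0 : derivative P ≠ 0 := by
    intro h0
    rw [h0, zero_dvd_iff] at h
    exact pow_ne_zero k hP0 h
  have hc : P.roots.card = P.natDegree := (splits_iff_card_roots.1 (IsAlgClosed.splits P))
  have hc' : (derivative P).roots.card = P.natDegree - 1 := by
    rw [← hd]
    exact (splits_iff_card_roots.1 (IsAlgClosed.splits (derivative P)))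
  have hsub : ∀ a ∈ (derivative P).roots, a ∈ P.roots.toFinset := by
    intro a ha
    rw [mem_roots hP'0, IsRoot.def] at ha
    rw [Multiset.mem_toFinset, mem_roots hP0, IsRoot.def]
    obtain ⟨Q, hQ⟩ := h
    have h1 := congrArg (eval a) hQ
    rw [eval_mul, ha, zero_mul, eval_pow] at h1
    by_contra hne
    exact pow_ne_zero k hne h1
  have h1 : ∑ a ∈ P.roots.toFinset, P.roots.count a = P.natDegree := by
    rw [Multiset.toFinset_sum_count_eq, hc]
  have h2 : ∑ a ∈ P.roots.toFinset, (derivative P).roots.count a = P.natDegree - 1 := by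
    rw [Multiset.sum_count_eq_card hsub, hc']
  have h3 : ∀ a ∈ P.roots.toFinset, P.roots.count a = (derivative P).roots.count a + 1 := by
    intro a ha
    rw [Multiset.mem_toFinset] at ha
    rw [count_roots, count_roots, derivative_rootMultiplicity_of_root ((mem_roots hP0).1 ha)]
    have h4 : 0 < P.rootMultiplicity a := by
      rw [rootMultiplicity_pos hP0]
      exact (mem_roots hP0).1 ha
    omega
  have h4 : P.roots.toFinset.card = 1 := by
    rw [Finset.sum_congr rfl h3, Finset.sum_add_distrib, h2, Finset.sum_const, smul_eq_mul, mul_one] at h1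
    omega
  obtain ⟨r, hr⟩ := Finset.card_eq_one.1 h4
  refine ⟨r, ?_⟩
  have h5 : P.roots = Multiset.replicate P.natDegree r := by
    rw [Multiset.eq_replicate]
    refine ⟨hc, fun b hb => ?_⟩
    have h6 : b ∈ P.roots.toFinset := Multiset.mem_toFinset.2 hb
    rw [hr] at h6
    exact Finset.mem_singleton.1 h6
  have h6 := C_leadingCoeff_mul_prod_multiset_X_sub_C hc
  rw [h5, Multiset.map_replicate, Multiset.prod_replicate] at h6
  exact h6.symm

end Pool.Agent.FCT
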