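import Pool.Agent.FCT.W6a
import Pool.Agent.FCT.W6b
import Pool.Agent.FCT.W6c

/-! Row FCT-W6d: weights -/

set_option autoImplicit false

namespace Pool.Agent.FCT

open Polynomial Finset

/-- the coefficients of `Φ F` -/
theorem W6d_coeff (p q : ℕ) (Φ : (RatFunc ℂ)[X] →+* RW)
    (hC : ∀ a : ℂ[X], Φ (C (algebraMap ℂ[X] (RatFunc ℂ) a)) =
        ∑ i ∈ range (a.natDegree + 1), HahnSeries.single (-(q * i : ℕ) : ℤ) (C (a.coeff i)))
    (hX : Φ X = HahnSeries.single (-(p : ℤ)) (X : ℂ[X])) (F1 : ℂ[X][X]) (n : ℤ) :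
    (Φ (F1.map (algebraMap ℂ[X] (RatFunc ℂ)))).coeff n = ∑ j ∈ range (F1.natDegree + 1),
      ∑ i ∈ range ((F1.coeff j).natDegree + 1), if n = -((q * i + p * j : ℕ) : ℤ) then C ((F1.coeff j).coeff i) * X ^ j else 0 := by
  conv_lhs => rw [F1.as_sum_range_C_mul_X_pow]
  rw [Polynomial.map_sum, map_sum, HahnSeries.coeff_sum]
  refine Finset.sum_congr rfl (fun j _ => ?_)
  rw [Polynomial.map_mul, Polynomial.map_pow, map_C, map_X, map_mul, map_pow, hC, hX, HahnSeries.single_pow, Finset.sum_mul,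
    HahnSeries.coeff_sum]
  refine Finset.sum_congr rfl (fun i _ => ?_)
  rw [HahnSeries.single_mul_single, HahnSeries.coeff_single]
  have e : (-(q * i : ℕ) : ℤ) + j • (-(p : ℤ)) = -((q * i + p * j : ℕ) : ℤ) := by
    rw [nsmul_eq_mul]
    push_cast
    ring
  rw [e]
  split_ifs <;> rfl

/-- the coefficients of the leading form -/
theorem W6d_P (p q E : ℕ) (F1 : ℂ[X][X]) (k : ℕ) (hk : k < F1.natDegree + 1) :
    (∑ j ∈ range (F1.natDegree + 1), ∑ i ∈ range ((F1.coeff j).natDegree + 1),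
      if (-(E : ℤ)) = -((q * i + p * j : ℕ) : ℤ) then C ((F1.coeff j).coeff i) * X ^ j else (0 : ℂ[X])).coeff k =
      ∑ i ∈ range ((F1.coeff k).natDegree + 1), if E = q * i + p * k then (F1.coeff k).coeff i else 0 := by
  rw [finsetSum_coeff, Finset.sum_eq_single k]
  · rw [finsetSum_coeff]
    refine Finset.sum_congr rfl (fun i _ => ?_)
    by_cases h : E = q * i + p * k
    · rw [if_pos (by rw [← h]), if_pos h, coeff_C_mul, coeff_X_pow, if_pos rfl, mul_one]
    · rw [if_neg, if_neg h, coeff_zero]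
      intro h1
      apply h
      exact_mod_cast neg_inj.1 h1
  · intro j _ hj
    rw [finsetSum_coeff]
    refine Finset.sum_eq_zero (fun i _ => ?_)
    split_ifs
    · rw [coeff_C_mul, coeff_X_pow, if_neg (Ne.symm hj), mul_zero]
    · rw [coeff_zero]
  · intro h
    exact absurd (Finset.mem_range.2 hk) h

theorem W6d_P_big (p q E : ℕ) (F1 : ℂ[X][X]) (k : ℕ) (hk : F1.natDegree < k) :
    (∑ j ∈ range (F1.natDegree + 1), ∑ i ∈ range ((F1.coeff j).natDegree + 1),
      if (-(E : ℤ)) = -((q * i + p * j : ℕ) : ℤ) then C ((F1.coeff j).coeff i) * X ^ j else (0 : ℂ[X])).coeff k = 0 := by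
  rw [finsetSum_coeff]
  refine Finset.sum_eq_zero (fun j hj => ?_)
  rw [Finset.mem_range] at hj
  rw [finsetSum_coeff]
  refine Finset.sum_eq_zero (fun i _ => ?_)
  split_ifs
  · rw [coeff_C_mul, coeff_X_pow, if_neg (by omega), mul_zero]
  · rw [coeff_zero]

/-- the maximal slope -/
theorem W6d_slope (F1 : ℂ[X][X]) (j1 : ℕ) (h1 : j1 < F1.natDegree) (h2 : 1 ≤ (F1.coeff j1).natDegree) :
    ∃ j0 < F1.natDegree, 1 ≤ (F1.coeff j0).natDegree ∧
      ∀ j < F1.natDegree, (F1.natDegree - j0) * (F1.coeff j).natDegree ≤ (F1.coeff j0).natDegree * (F1.natDegree - j) := by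
  obtain ⟨j0, hj0, hmax⟩ := Finset.exists_max_image (range F1.natDegree)
    (fun j => ((F1.coeff j).natDegree : ℚ) / ((F1.natDegree - j : ℕ) : ℚ)) ⟨j1, Finset.mem_range.2 h1⟩
  rw [Finset.mem_range] at hj0
  have hkey : ∀ j < F1.natDegree, (F1.natDegree - j0) * (F1.coeff j).natDegree ≤ (F1.coeff j0).natDegree * (F1.natDegree - j) := by
    intro j hj
    have h3 := hmax j (Finset.mem_range.2 hj)
    have hp1 : (0 : ℚ) < ((F1.natDegree - j : ℕ) : ℚ) := by exact_mod_cast (by omega : 0 < F1.natDegree - j)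
    have hp2 : (0 : ℚ) < ((F1.natDegree - j0 : ℕ) : ℚ) := by exact_mod_cast (by omega : 0 < F1.natDegree - j0)
    rw [div_le_div_iff₀ hp1 hp2] at h3
    have h4 : (F1.coeff j).natDegree * (F1.natDegree - j0) ≤ (F1.coeff j0).natDegree * (F1.natDegree - j) := by exact_mod_cast h3
    rw [mul_comm]
    exact h4
  refine ⟨j0, hj0, ?_, hkey⟩
  have h3 := hkey j1 h1
  by_contra h4
  have h5 : (F1.coeff j0).natDegree = 0 := by omega
  rw [h5, zero_mul] at h3
  have h6 : 0 < (F1.natDegree - j0) * (F1.coeff j1).natDegree := Nat.mul_pos (by omega) (by omega)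
  omega

/-- Proof.  Suppose some coefficient of `F1` is not constant.  Among the `j ≤ E - 2` (the coefficients of `X^E`, `X^(E-1)` are constant) choose `j0` maximizing `deg a_j/(E - j)` (`a_j = F1.coeff j`),
`p = natDegree a_{j0} ≥ 1`, `q = E - j0`; then `q deg a_j ≤ p (E - j)` for all `j`.  With `Φ` of `exists_Phi`: `Fh = Φ (F1.map) = ∑_j ∑_i single(-(q i + p j)) (a_{j,i} w^j)`: no terms below `-(pE)`, and the
coefficient at `-(pE)` is `P = ∑_{q i + p j = p E} a_{j,i} w^j`: coefficient of `w^E` is the leading coefficient `a0 ≠ 0`, of `w^(E-1)` zero (`a_{E-1} = 0`), of `w^{j0}` the leading coefficient of `a_{j0}`,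
nonzero, none above `E`.  `Φ` of the equation `h` gives the hypothesis of `weight_dvd` (`e = p E`; `Φ (C (algebraMap x)) = C (C x)`), so `P' ∣ P^k`, and `pure_power`: `P = a0 (w - r)^E`; coefficient of
`w^(E-1)`: `- E r a0 = 0`, `r = 0`, `P = a0 w^E`, contradiction with the coefficient of `w^{j0}`. -/
theorem weights (δ : Der (RatFunc ℂ))
    (hδ : ∀ p : ℂ[X], δ (algebraMap ℂ[X] (RatFunc ℂ) p) = algebraMap ℂ[X] (RatFunc ℂ) (derivative p))
    (F1 : ℂ[X][X]) (hF : 1 ≤ F1.natDegree) (hlead : F1.leadingCoeff.natDegree = 0) (hsub : F1.coeff (F1.natDegree - 1) = 0)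
    (χ : ℂ[X]) (hχ : χ ≠ 0) (Z : (RatFunc ℂ)[X])
    (h : BB δ (F1.map (algebraMap ℂ[X] (RatFunc ℂ))) Z - Z * derivative (F1.map (algebraMap ℂ[X] (RatFunc ℂ))) =
      (χ.map (algebraMap ℂ (RatFunc ℂ))).comp (F1.map (algebraMap ℂ[X] (RatFunc ℂ)))) :
    ∀ j, (F1.coeff j).natDegree = 0 := by
  by_contra hcon
  push Not at hcon
  obtain ⟨j1, hj1⟩ := hcon
  have hj1lt : j1 < F1.natDegree := by
    rcases lt_trichotomy j1 F1.natDegree with h1 | h1 | h1
    · exact h1
    · rw [h1] at hj1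
      exact absurd hlead hj1
    · rw [coeff_eq_zero_of_natDegree_lt h1, natDegree_zero] at hj1
      exact absurd rfl hj1
  obtain ⟨j0, hj0, hp1, hmax⟩ := W6d_slope F1 j1 hj1lt (by omega)
  obtain ⟨p, hp⟩ : ∃ p, p = (F1.coeff j0).natDegree := ⟨_, rfl⟩
  obtain ⟨q, hq⟩ : ∃ q, q = F1.natDegree - j0 := ⟨_, rfl⟩
  rw [← hp] at hp1 hmax
  rw [← hq] at hmax
  have hq1 : 1 ≤ q := by omega
  have hj0' : j0 + q = F1.natDegree := by omega
  have hj2 : j0 ≠ F1.natDegree - 1 := by
    intro h1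
    rw [h1, hsub, natDegree_zero] at hp
    omega
  obtain ⟨Φ, D1, D2, hC, hX, hD1Φ, hD2Φ, hD1, hD2⟩ := exists_Phi δ hδ p q hq1
  obtain ⟨E, hE⟩ : ∃ E, E = F1.natDegree := ⟨_, rfl⟩
  have hcoeff := W6d_coeff p q Φ hC hX F1
  have hbound : ∀ j ≤ F1.natDegree, ∀ i ≤ (F1.coeff j).natDegree, q * i + p * j ≤ p * F1.natDegree := by
    intro j hj i hi
    rcases Nat.lt_or_ge j F1.natDegree with h1 | h1
    · have h2 := hmax j h1
      have h3 : q * i ≤ q * (F1.coeff j).natDegree := Nat.mul_le_mul_left q hi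
      have h4 : p * (F1.natDegree - j) + p * j = p * F1.natDegree := by
        rw [← Nat.mul_add]
        congr 1
        omega
      omega
    · have h2 : j = F1.natDegree := le_antisymm hj h1
      subst h2
      have h3 : (F1.coeff F1.natDegree).natDegree = 0 := hlead
      have h4 : i = 0 := by omega
      subst h4
      omega
  obtain ⟨P, hP⟩ : ∃ P, P = (Φ (F1.map (algebraMap ℂ[X] (RatFunc ℂ)))).coeff (-((p * F1.natDegree : ℕ) : ℤ)) := ⟨_, rfl⟩
  have hPk : ∀ k < F1.natDegree + 1, P.coeff k =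
      ∑ i ∈ range ((F1.coeff k).natDegree + 1), if p * F1.natDegree = q * i + p * k then (F1.coeff k).coeff i else 0 := by
    intro k hk
    rw [hP, hcoeff]
    exact W6d_P p q (p * F1.natDegree) F1 k hk
  have hPbig : ∀ k, F1.natDegree < k → P.coeff k = 0 := by
    intro k hk
    rw [hP, hcoeff]
    exact W6d_P_big p q (p * F1.natDegree) F1 k hk
  have hPE : P.coeff F1.natDegree ≠ 0 := by
    rw [hPk _ (Nat.lt_succ_self _)]
    have h3 : (F1.coeff F1.natDegree).natDegree = 0 := hlead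
    rw [h3, zero_add, Finset.sum_range_one, if_pos (by ring)]
    intro h4
    have h5 : F1.leadingCoeff = 0 := by
      have h6 : F1.leadingCoeff = C (F1.leadingCoeff.coeff 0) := eq_C_of_natDegree_eq_zero hlead
      rw [h6]
      have h7 : F1.leadingCoeff.coeff 0 = 0 := h4
      rw [h7, C_0]
    rw [leadingCoeff_eq_zero] at h5
    rw [h5, natDegree_zero] at hF
    omega
  have hPdeg : P.natDegree = F1.natDegree := by
    refine le_antisymm ?_ (le_natDegree_of_ne_zero hPE)
    rw [natDegree_le_iff_coeff_eq_zero]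
    exact fun k hk => hPbig k hk
  have hPsub : P.coeff (F1.natDegree - 1) = 0 := by
    rw [hPk _ (by omega), hsub]
    simp
  have hPj0 : P.coeff j0 ≠ 0 := by
    rw [hPk _ (by omega), Finset.sum_eq_single p]
    · rw [if_pos]
      · rw [hp]
        have h5 : F1.coeff j0 ≠ 0 := by
          intro h6
          rw [h6, natDegree_zero] at hp
          omega
        exact fun h6 => h5 (leadingCoeff_eq_zero.1 h6)
      · rw [← hj0']
        ring
    · intro i _ hi
      rw [if_neg]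
      intro h5
      apply hi
      have h6 : q * i = q * p := by
        have h7 : p * F1.natDegree = q * p + p * j0 := by
          rw [← hj0']
          ring
        omega
      exact Nat.eq_of_mul_eq_mul_left (by omega) h6
    · intro h5
      exfalso
      apply h5
      rw [Finset.mem_range, ← hp]
      omega
  have hdP : derivative P ≠ 0 := by
    intro h5
    have := derivative_eq_zero.1 h5
    omega
  have hF1 : ∀ n < -((p * F1.natDegree : ℕ) : ℤ), (Φ (F1.map (algebraMap ℂ[X] (RatFunc ℂ)))).coeff n = 0 := by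
    intro n hn
    rw [hcoeff]
    refine Finset.sum_eq_zero (fun j hj => Finset.sum_eq_zero (fun i hi => ?_))
    rw [Finset.mem_range] at hj hi
    rw [if_neg]
    intro h5
    have h6 := hbound j (by omega) i (by omega)
    have h7 : ((q * i + p * j : ℕ) : ℤ) ≤ ((p * F1.natDegree : ℕ) : ℤ) := by exact_mod_cast h6
    omega
  have hxC : ∀ x : ℂ, algebraMap ℂ (RatFunc ℂ) x = algebraMap ℂ[X] (RatFunc ℂ) (C x) := fun x =>
    IsScalarTower.algebraMap_apply ℂ ℂ[X] (RatFunc ℂ) x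
  have hmain : D1 (Φ Z) * D2 (Φ (F1.map (algebraMap ℂ[X] (RatFunc ℂ)))) -
      D2 (Φ Z) * D1 (Φ (F1.map (algebraMap ℂ[X] (RatFunc ℂ)))) - Φ Z * D2 (Φ (F1.map (algebraMap ℂ[X] (RatFunc ℂ)))) =
      eval₂ ((HahnSeries.C).comp (C : ℂ →+* ℂ[X])) (Φ (F1.map (algebraMap ℂ[X] (RatFunc ℂ)))) χ := by
    have h5 := congrArg Φ h
    unfold BB at h5
    rw [map_sub, map_sub, map_mul, map_mul, map_mul, hD1Φ, hD2Φ, hD2Φ, hD1Φ] at h5
    rw [h5, comp, eval₂_map, hom_eval₂]
    congr 1
    ext x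
    · rw [RingHom.comp_apply, RingHom.comp_apply, RingHom.comp_apply, hxC, hC, natDegree_C, zero_add, Finset.sum_range_one]
      simp
  have hdvd := weight_dvd p q (p * F1.natDegree) hq1 (Nat.mul_pos hp1 hF) D1 D2 hD1 hD2 (Φ Z) _ P hdP hF1 hP.symm χ hχ hmain
  obtain ⟨r, hr⟩ := pure_power P (by omega) _ hdvd
  rw [hPdeg] at hr
  have hlc : P.leadingCoeff ≠ 0 := by
    rw [leadingCoeff, hPdeg]
    exact hPE
  have hr0 : r = 0 := by
    have hXr : (X - C r : ℂ[X]) = X + C (-r) := by rw [C_neg, sub_eq_add_neg]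
    rw [hr, coeff_C_mul, hXr, coeff_X_add_C_pow] at hPsub
    have h5 := (mul_eq_zero.1 hPsub).resolve_left hlc
    have h6 : F1.natDegree - (F1.natDegree - 1) = 1 := by omega
    rw [h6, pow_one] at h5
    have h7 : ((F1.natDegree.choose (F1.natDegree - 1) : ℕ) : ℂ) ≠ 0 := by
      have : 0 < F1.natDegree.choose (F1.natDegree - 1) := Nat.choose_pos (by omega)
      exact_mod_cast this.ne'
    have h8 := (mul_eq_zero.1 h5).resolve_right h7
    exact neg_eq_zero.1 h8
  apply hPj0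
  rw [hr, hr0, C_0, sub_zero, coeff_C_mul, coeff_X_pow, if_neg (by omega), mul_zero]

end Pool.Agent.FCT
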