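import Pool.Agent.FCT.W3
import Pool.Agent.FCT.W5
import Pool.Agent.FCT.W6d

/-! Row FCT-W6: Part III -/

set_option autoImplicit false

namespace Pool.Agent.FCT

open Polynomial Finset

theorem W6_leib {R : Type*} [CommRing R] (δ : Der R) (a b : R) : δ (a * b) = a * δ b + b * δ a := by
  rw [Derivation.leibniz, smul_eq_mul, smul_eq_mul]

theorem W6_dmap_X {A : Type*} [CommRing A] (δ : Der A) : dmap δ (X : A[X]) = 0 := by
  ext i
  rw [dmap_coeff, coeff_X, coeff_zero]
  split_ifs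
  · exact Derivation.map_one_eq_zero δ
  · exact map_zero δ

theorem W6_dmap_C {A : Type*} [CommRing A] (δ : Der A) (a : A) : dmap δ (C a) = C (δ a) := by
  ext i
  rw [dmap_coeff, coeff_C, coeff_C]
  split_ifs
  · rfl
  · exact map_zero δ

theorem W6_dmap_comp {A : Type*} [CommRing A] (δ : Der A) (G : A[X]) (b : A) :
    dmap δ (G.comp (X + C b)) = (dmap δ G).comp (X + C b) + (derivative G).comp (X + C b) * C (δ b) := by
  induction G using Polynomial.induction_on' with
  | add p q hp hq =>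
    rw [add_comp, map_add, map_add, hp, hq, derivative_add, add_comp, add_comp]
    ring
  | monomial n a =>
    have h1 : dmap δ (X + C b : A[X]) = C (δ b) := by
      rw [map_add, W6_dmap_X, W6_dmap_C, zero_add]
    have h2 : dmap δ (C a * X ^ n) = C (δ a) * X ^ n := by
      rw [Derivation.leibniz, Derivation.leibniz_pow, W6_dmap_X, W6_dmap_C, smul_zero, smul_zero, smul_zero, zero_add,
        smul_eq_mul, mul_comm]
    rw [← C_mul_X_pow_eq_monomial, h2, mul_comp, C_comp, pow_comp, X_comp, Derivation.leibniz, W6_dmap_C,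
      Derivation.leibniz_pow, h1, derivative_C_mul, derivative_X_pow, mul_comp, C_comp, pow_comp, X_comp, mul_comp,
      C_comp, mul_comp, C_comp, pow_comp, X_comp]
    simp only [smul_eq_mul, nsmul_eq_mul, map_natCast]
    ring

theorem W6_BB {κ : Type*} [Field κ] (δ : Der κ) (F Z : κ[X]) (b : κ) :
    BB δ (F.comp (X + C b)) (Z.comp (X + C b)) - Z.comp (X + C b) * derivative (F.comp (X + C b)) =
      (BB δ F Z - Z * derivative F).comp (X + C b) := by
  have hd : ∀ G : κ[X], derivative (G.comp (X + C b)) = (derivative G).comp (X + C b) := by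
    intro G
    rw [derivative_comp, derivative_add, derivative_X, derivative_C, add_zero, one_mul]
  unfold BB
  rw [W6_dmap_comp, W6_dmap_comp, hd, hd, sub_comp, sub_comp, mul_comp, mul_comp, mul_comp]
  ring

theorem W6_sub (F0 : ℂ[X][X]) (hF : 1 ≤ F0.natDegree) (b : ℂ[X]) :
    (F0.comp (X + C b)).coeff (F0.natDegree - 1) = F0.coeff (F0.natDegree - 1) + F0.natDegree * F0.leadingCoeff * b := by
  have h1 : F0.comp (X + C b) = taylor b F0 := by rw [taylor_apply]
  rw [h1, taylor_coeff]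
  have h2 : (hasseDeriv (F0.natDegree - 1) F0).natDegree < 2 := by
    have h3 := natDegree_hasseDeriv_le F0 (F0.natDegree - 1)
    omega
  rw [eval_eq_sum_range' h2, Finset.sum_range_succ, Finset.sum_range_one, hasseDeriv_coeff, hasseDeriv_coeff, pow_zero,
    pow_one, zero_add, mul_one]
  have h4 : 1 + (F0.natDegree - 1) = F0.natDegree := by omega
  rw [h4, Nat.choose_self, Nat.cast_one, one_mul]
  have h5 : F0.natDegree.choose (F0.natDegree - 1) = F0.natDegree := by
    obtain ⟨m, hm⟩ : ∃ m, F0.natDegree = m + 1 := ⟨F0.natDegree - 1, by omega⟩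
    rw [hm, Nat.add_sub_cancel, Nat.choose_succ_self_right]
  rw [h5]
  rfl

/-- Proof.  `exists_Z`, `lead_const`: the leading coefficient of `F0` is a constant `a0`.  `b = - C (E a0)⁻¹ * F0.coeff (E-1) ∈ ℂ[X]`, `F1 = F0.comp (X + C b)`, `Z1 = Z.comp (X + C b)`: the coefficient of `X^(E-1)`
of `F1` is `0`, the leading coefficient is the same.  `dmap δ (G.comp (X + C b)) = (dmap δ G).comp (X + C b) + (G').comp (X + C b) * C (δ b)`, so `B_{F1}(Z1) = (B_F(Z)).comp (X + C b)`: the equation holds for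
`F1, Z1`.  By `weights` all coefficients of `F1` are constants, `F1 = φ.map C`; `F0 = F1.comp (X - C b)`. -/
theorem part3 (δ : Der (RatFunc ℂ))
    (hδ : ∀ p : ℂ[X], δ (algebraMap ℂ[X] (RatFunc ℂ) p) = algebraMap ℂ[X] (RatFunc ℂ) (derivative p))
    (F0 : ℂ[X][X]) (hF : 1 ≤ F0.natDegree) (N Δ : (RatFunc ℂ)[X]) (hΔ : Δ ≠ 0)
    (h : PDE δ (F0.map (algebraMap ℂ[X] (RatFunc ℂ))) N Δ) :
    ∃ φ b : ℂ[X], φ.natDegree = F0.natDegree ∧ F0 = (φ.map (C : ℂ →+* ℂ[X])).comp (X - C b) := by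
  obtain ⟨χ, Z, hχ, hZ⟩ := exists_Z δ hδ _ N Δ hΔ h
  have hlead := lead_const δ hδ F0 hF χ hχ Z hZ
  have hF00 : F0.leadingCoeff ≠ 0 := by
    rw [Ne, leadingCoeff_eq_zero]
    rintro rfl
    simp at hF
  obtain ⟨a0, ha0⟩ : ∃ a0 : ℂ, F0.leadingCoeff = C a0 := ⟨_, eq_C_of_natDegree_eq_zero hlead⟩
  have ha00 : a0 ≠ 0 := by
    rintro rfl
    rw [C_0] at ha0
    exact hF00 ha0
  have hE0 : (F0.natDegree : ℂ) ≠ 0 := Nat.cast_ne_zero.2 (by omega)
  set b : ℂ[X] := -(C (((F0.natDegree : ℂ) * a0)⁻¹) * F0.coeff (F0.natDegree - 1)) with hb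
  set F1 := F0.comp (X + C b) with hF1
  have hd1 : F1.natDegree = F0.natDegree := by
    rw [hF1, natDegree_comp, natDegree_X_add_C, mul_one]
  have hl1 : F1.leadingCoeff = F0.leadingCoeff := by
    rw [hF1, leadingCoeff_comp (by rw [natDegree_X_add_C]; exact one_ne_zero), leadingCoeff_X_add_C, one_pow, mul_one]
  have hsub : F1.coeff (F1.natDegree - 1) = 0 := by
    rw [hd1, hF1, W6_sub F0 hF b, ha0, hb]
    have h1 : ((F0.natDegree : ℂ[X]) * C a0) * C (((F0.natDegree : ℂ) * a0)⁻¹) = 1 := by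
      have h2 : (F0.natDegree : ℂ[X]) = C (F0.natDegree : ℂ) := by rw [map_natCast]
      rw [h2, ← C_mul, ← C_mul, mul_inv_cancel₀ (mul_ne_zero hE0 ha00), C_1]
    linear_combination (-F0.coeff (F0.natDegree - 1)) * h1
  have hmap : F1.map (algebraMap ℂ[X] (RatFunc ℂ)) =
      (F0.map (algebraMap ℂ[X] (RatFunc ℂ))).comp (X + C (algebraMap ℂ[X] (RatFunc ℂ) b)) := by
    rw [hF1, Polynomial.map_comp, Polynomial.map_add, Polynomial.map_X, Polynomial.map_C]
  have hZ1 : BB δ (F1.map (algebraMap ℂ[X] (RatFunc ℂ))) (Z.comp (X + C (algebraMap ℂ[X] (RatFunc ℂ) b))) -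
      Z.comp (X + C (algebraMap ℂ[X] (RatFunc ℂ) b)) * derivative (F1.map (algebraMap ℂ[X] (RatFunc ℂ))) =
      (χ.map (algebraMap ℂ (RatFunc ℂ))).comp (F1.map (algebraMap ℂ[X] (RatFunc ℂ))) := by
    rw [hmap, W6_BB, hZ, comp_assoc]
  have hconst := weights δ hδ F1 (by rw [hd1]; exact hF) (by rw [hl1]; exact hlead) hsub χ hχ _ hZ1
  have hφ : (F1.map (evalRingHom (0 : ℂ))).map (C : ℂ →+* ℂ[X]) = F1 := by
    refine Polynomial.ext fun j => ?_
    rw [coeff_map, coeff_map, coe_evalRingHom, ← coeff_zero_eq_eval_zero]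
    exact (eq_C_of_natDegree_eq_zero (hconst j)).symm
  refine ⟨F1.map (evalRingHom (0 : ℂ)), b, ?_, ?_⟩
  · rw [← hd1]
    conv_rhs => rw [← hφ]
    rw [natDegree_map_eq_of_injective C_injective]
  · rw [hφ, hF1, comp_assoc, add_comp, X_comp, C_comp, sub_add_cancel, comp_X]

end Pool.Agent.FCT
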