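import Pool.Agent.FCT.RWDef

/-! Row FCT-W6a: the substitution Phi -/

set_option autoImplicit false

namespace Pool.Agent.FCT

open Polynomial Finset

/-- A family of additive maps `T n` with `T (i+j) (a b) = T i a * b + a * T j b` gives a derivation of `L((t))`. -/
theorem W6a_gen {L : Type*} [CommRing L] (T : ℤ → L → L) (h0 : ∀ n, T n 0 = 0) (ha : ∀ n a b, T n (a + b) = T n a + T n b)
    (hT : ∀ (i j : ℤ) (a b : L), T (i + j) (a * b) = T i a * b + a * T j b) :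
    ∃ f : LaurentSeries L → LaurentSeries L, (∀ z n, (f z).coeff n = T n (z.coeff n)) ∧
      (∀ x y, f (x + y) = f x + f y) ∧ (∀ x y, f (x * y) = x * f y + y * f x) := by
  let f : LaurentSeries L → LaurentSeries L := fun z =>
    ⟨fun n => T n (z.coeff n), z.isPWO_support.mono (fun n hn => by
      rw [Function.mem_support] at hn
      rw [HahnSeries.mem_support]
      intro h
      exact hn (by rw [h, h0]))⟩
  have hf : ∀ z n, (f z).coeff n = T n (z.coeff n) := fun z n => rfl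
  have hs : ∀ z, (f z).support ⊆ z.support := by
    intro z n hn
    rw [HahnSeries.mem_support] at hn ⊢
    intro h
    exact hn (by rw [hf, h, h0])
  have hsum : ∀ (n : ℤ) (s : Finset (ℤ × ℤ)) (g : ℤ × ℤ → L), T n (∑ i ∈ s, g i) = ∑ i ∈ s, T n (g i) := by
    intro n s g
    exact map_sum ({ toFun := T n, map_zero' := h0 n, map_add' := ha n } : L →+ L) g s
  refine ⟨f, hf, ?_, ?_⟩
  · intro x y
    ext n
    rw [HahnSeries.coeff_add, hf, hf, hf, HahnSeries.coeff_add, ha]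
  · intro x y
    ext n
    rw [hf, HahnSeries.coeff_add, HahnSeries.coeff_mul,
      HahnSeries.coeff_mul_right' y.isPWO_support (hs y), mul_comm y (f x),
      HahnSeries.coeff_mul_left' x.isPWO_support (hs x), hsum, ← Finset.sum_add_distrib]
    refine Finset.sum_congr rfl (fun ij hij => ?_)
    rw [Finset.mem_antidiagonal] at hij
    rw [hf, hf, ← hij.2.2, hT]
    ring

/-- derivations along a ring homomorphism -/
structure W6a_Al {A B : Type*} [CommRing A] [CommRing B] (φ : A →+* B) (D : A → B) : Prop where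
  add : ∀ a b, D (a + b) = D a + D b
  mul : ∀ a b, D (a * b) = φ a * D b + φ b * D a

theorem W6a_Al.zero {A B : Type*} [CommRing A] [CommRing B] {φ : A →+* B} {D : A → B} (h : W6a_Al φ D) : D 0 = 0 := by
  have := h.add 0 0
  rw [add_zero] at this
  exact left_eq_add.1 this

theorem W6a_Al.one {A B : Type*} [CommRing A] [CommRing B] {φ : A →+* B} {D : A → B} (h : W6a_Al φ D) : D 1 = 0 := by
  have := h.mul 1 1
  rw [mul_one, map_one, one_mul] at this
  exact left_eq_add.1 this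

theorem W6a_poly {A B : Type*} [CommRing A] [CommRing B] {φ : A[X] →+* B} {D D' : A[X] → B} (h : W6a_Al φ D)
    (h' : W6a_Al φ D') (hC : ∀ a, D (C a) = D' (C a)) (hX : D X = D' X) (G : A[X]) : D G = D' G := by
  induction G using Polynomial.induction_on' with
  | add p q hp hq => rw [h.add, h'.add, hp, hq]
  | monomial n a =>
    rw [← C_mul_X_pow_eq_monomial, h.mul, h'.mul, hC]
    have hn : D (X ^ n) = D' (X ^ n) := by
      induction n with
      | zero => rw [pow_zero, h.one, h'.one]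
      | succ n ih => rw [pow_succ, h.mul, h'.mul, ih, hX]
    rw [hn]

theorem W6a_frac {B : Type*} [CommRing B] {φ : RatFunc ℂ →+* B} {D D' : RatFunc ℂ → B} (h : W6a_Al φ D)
    (h' : W6a_Al φ D') (hC : ∀ a : ℂ[X], D (algebraMap ℂ[X] (RatFunc ℂ) a) = D' (algebraMap ℂ[X] (RatFunc ℂ) a)) (r : RatFunc ℂ) :
    D r = D' r := by
  obtain ⟨p, q, hq, hr⟩ : ∃ p q : ℂ[X], q ≠ 0 ∧ r * algebraMap ℂ[X] (RatFunc ℂ) q = algebraMap ℂ[X] (RatFunc ℂ) p := by
    refine ⟨r.num, r.denom, r.denom_ne_zero, ?_⟩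
    have h1 := r.num_div_denom
    have h2 : algebraMap ℂ[X] (RatFunc ℂ) r.denom ≠ 0 := RatFunc.algebraMap_ne_zero r.denom_ne_zero
    exact ((div_eq_iff h2).1 h1).symm
  have h1 : D (r * algebraMap ℂ[X] (RatFunc ℂ) q) = D' (r * algebraMap ℂ[X] (RatFunc ℂ) q) := by rw [hr, hC]
  rw [h.mul, h'.mul, hC] at h1
  have h2 := add_left_cancel h1
  have hu : IsUnit (φ (algebraMap ℂ[X] (RatFunc ℂ) q)) :=
    (IsUnit.mk0 _ (RatFunc.algebraMap_ne_zero hq)).map φ
  exact hu.mul_left_cancel h2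

/-- `ℂ((t)) → ℂ[w]((t))` -/
noncomputable def W6a_cm : LaurentSeries ℂ →+* RW where
  toFun z := z.map (C : ℂ →+* ℂ[X])
  map_zero' := by ext n; simp
  map_one' := by
    ext n
    rw [HahnSeries.map_coeff, HahnSeries.coeff_one, HahnSeries.coeff_one]
    split_ifs <;> simp
  map_add' := by
    intro x y
    ext n
    simp
  map_mul' := by
    intro x y
    have := HahnSeries.map_mul ((C : ℂ →+* ℂ[X]) : ℂ →ₙ+* ℂ[X]) (x := x) (y := y)
    exact this

theorem W6a_cm_coeff (z : LaurentSeries ℂ) (n : ℤ) : (W6a_cm z).coeff n = C (z.coeff n) := rfl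

theorem W6a_cm_single (n : ℤ) (a : ℂ) : W6a_cm (HahnSeries.single n a) = HahnSeries.single n (C a) := by
  ext m
  rw [W6a_cm_coeff, HahnSeries.coeff_single, HahnSeries.coeff_single]
  split_ifs <;> simp

/-- `s ↦ t^(-q)` on polynomials -/
noncomputable def W6a_f0 (q : ℕ) : ℂ[X] →+* LaurentSeries ℂ :=
  Polynomial.eval₂RingHom HahnSeries.C (HahnSeries.single (-(q : ℤ)) (1 : ℂ))

theorem W6a_f0_sum (q : ℕ) (a : ℂ[X]) {N : ℕ} (hN : a.natDegree < N) :
    W6a_f0 q a = ∑ i ∈ range N, HahnSeries.single (-(q * i : ℕ) : ℤ) (a.coeff i) := by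
  show eval₂ HahnSeries.C (HahnSeries.single (-(q : ℤ)) (1 : ℂ)) a = _
  rw [eval₂_eq_sum_range' _ hN]
  refine Finset.sum_congr rfl (fun i _ => ?_)
  rw [HahnSeries.single_pow, one_pow, HahnSeries.C_apply, HahnSeries.single_mul_single, zero_add, mul_one]
  congr 1
  rw [nsmul_eq_mul]
  push_cast
  ring

theorem W6a_f0_coeff (q : ℕ) (hq : 1 ≤ q) (a : ℂ[X]) (j : ℕ) : (W6a_f0 q a).coeff (-(q * j : ℕ) : ℤ) = a.coeff j := by
  rw [W6a_f0_sum q a (lt_of_le_of_lt (le_max_left a.natDegree j) (Nat.lt_succ_self _)), HahnSeries.coeff_sum,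
    Finset.sum_eq_single j]
  · rw [HahnSeries.coeff_single, if_pos rfl]
  · intro i _ hi
    rw [HahnSeries.coeff_single, if_neg]
    intro h
    apply hi
    have h1 : ((q * j : ℕ) : ℤ) = ((q * i : ℕ) : ℤ) := neg_inj.1 h
    have h2 : q * j = q * i := by exact_mod_cast h1
    exact (Nat.eq_of_mul_eq_mul_left (by omega) h2).symm
  · intro h
    exfalso
    apply h
    rw [Finset.mem_range]
    omega

theorem W6a_f0_inj (q : ℕ) (hq : 1 ≤ q) : Function.Injective (W6a_f0 q) := by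
  rw [injective_iff_map_eq_zero]
  intro a ha
  ext j
  rw [← W6a_f0_coeff q hq, ha]
  simp

theorem W6a_dm {A : Type*} [CommRing A] (δ : Derivation ℤ A A) (P Q : A[X]) : dmap δ (P * Q) = P * dmap δ Q + Q * dmap δ P := by
  rw [Derivation.leibniz]
  rfl

theorem W6a_da {A : Type*} [CommRing A] (δ : Derivation ℤ A A) (P Q : A[X]) : dmap δ (P + Q) = dmap δ P + dmap δ Q := map_add _ _ _

theorem W6a_dC {A : Type*} [CommRing A] (δ : Derivation ℤ A A) (a : A) : dmap δ (C a) = C (δ a) := by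
  ext i
  rw [dmap_coeff, coeff_C, coeff_C]
  split_ifs
  · rfl
  · exact map_zero δ

theorem W6a_dX {A : Type*} [CommRing A] (δ : Derivation ℤ A A) : dmap δ (X : A[X]) = 0 := by
  ext i
  rw [dmap_coeff, coeff_X, coeff_zero]
  split_ifs
  · exact Derivation.map_one_eq_zero δ
  · exact map_zero δ

/-- the inclusion `RatFunc ℂ → ℂ[w]((t))` -/
noncomputable def W6a_g (q : ℕ) (hq : 1 ≤ q) : RatFunc ℂ →+* RW :=
  W6a_cm.comp (IsFractionRing.lift (W6a_f0_inj q hq))

theorem W6a_g_alg (q : ℕ) (hq : 1 ≤ q) (a : ℂ[X]) : W6a_g q hq (algebraMap ℂ[X] (RatFunc ℂ) a) = W6a_cm (W6a_f0 q a) := by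
  rw [W6a_g, RingHom.comp_apply, IsFractionRing.lift_algebraMap]

noncomputable def W6a_Phi (p q : ℕ) (hq : 1 ≤ q) : (RatFunc ℂ)[X] →+* RW :=
  Polynomial.eval₂RingHom (W6a_g q hq) (HahnSeries.single (-(p : ℤ)) (X : ℂ[X]))

theorem W6a_Phi_C (p q : ℕ) (hq : 1 ≤ q) (r : RatFunc ℂ) : W6a_Phi p q hq (C r) = W6a_g q hq r := by
  show eval₂ _ _ (C r) = _
  rw [eval₂_C]

theorem W6a_Phi_X (p q : ℕ) (hq : 1 ≤ q) : W6a_Phi p q hq X = HahnSeries.single (-(p : ℤ)) (X : ℂ[X]) := by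
  show eval₂ _ _ X = _
  rw [eval₂_X]

theorem W6a_single {L : Type*} [CommRing L] (T : ℤ → L → L) (h0 : ∀ n, T n 0 = 0) (f : LaurentSeries L → LaurentSeries L)
    (hf : ∀ z n, (f z).coeff n = T n (z.coeff n)) (m : ℤ) (a : L) : f (HahnSeries.single m a) = HahnSeries.single m (T m a) := by
  ext n
  rw [hf, HahnSeries.coeff_single, HahnSeries.coeff_single]
  by_cases h : n = m
  · rw [if_pos h, if_pos h, h]
  · rw [if_neg h, if_neg h, h0]

/-- Main comparison: two derivations along `Φ`. -/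
theorem W6a_main (p q : ℕ) (hq : 1 ≤ q) {D D' : (RatFunc ℂ)[X] → RW} (h : W6a_Al (W6a_Phi p q hq) D)
    (h' : W6a_Al (W6a_Phi p q hq) D') (h1 : ∀ c : ℂ, D (C (algebraMap ℂ[X] (RatFunc ℂ) (C c))) = D' (C (algebraMap ℂ[X] (RatFunc ℂ) (C c))))
    (h2 : D (C (algebraMap ℂ[X] (RatFunc ℂ) X)) = D' (C (algebraMap ℂ[X] (RatFunc ℂ) X))) (h3 : D X = D' X)
    (G : (RatFunc ℂ)[X]) : D G = D' G := by
  refine W6a_poly h h' ?_ h3 G
  intro r
  refine W6a_frac (φ := (W6a_Phi p q hq).comp C) (D := fun r => D (C r)) (D' := fun r => D' (C r)) ?_ ?_ ?_ r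
  · refine ⟨fun a b => ?_, fun a b => ?_⟩
    · show D (C (a + b)) = D (C a) + D (C b)
      rw [C_add, h.add]
    · show D (C (a * b)) = _
      rw [C_mul, h.mul]
      rfl
  · refine ⟨fun a b => ?_, fun a b => ?_⟩
    · show D' (C (a + b)) = D' (C a) + D' (C b)
      rw [C_add, h'.add]
    · show D' (C (a * b)) = _
      rw [C_mul, h'.mul]
      rfl
  · intro a
    refine W6a_poly (φ := ((W6a_Phi p q hq).comp C).comp (algebraMap ℂ[X] (RatFunc ℂ)))
      (D := fun a => D (C (algebraMap ℂ[X] (RatFunc ℂ) a))) (D' := fun a => D' (C (algebraMap ℂ[X] (RatFunc ℂ) a))) ?_ ?_ ?_ ?_ a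
    · refine ⟨fun a b => ?_, fun a b => ?_⟩
      · show D (C (algebraMap ℂ[X] (RatFunc ℂ) (a + b))) = _
        rw [map_add, C_add, h.add]
      · show D (C (algebraMap ℂ[X] (RatFunc ℂ) (a * b))) = _
        rw [map_mul, C_mul, h.mul]
        rfl
    · refine ⟨fun a b => ?_, fun a b => ?_⟩
      · show D' (C (algebraMap ℂ[X] (RatFunc ℂ) (a + b))) = _
        rw [map_add, C_add, h'.add]
      · show D' (C (algebraMap ℂ[X] (RatFunc ℂ) (a * b))) = _
        rw [map_mul, C_mul, h'.mul]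
        rfl
    · exact h1
    · exact h2

/-- Substitution `s = t^(-q)`, `v = w t^(-p)`.  `Φ` restricted to `RatFunc ℂ` is the field embedding `s ↦ t^(-q)` into `ℂ((t))` followed by the coefficient inclusion
`ℂ → ℂ[w]`; `Φ X = w t^(-p)`.  `D1 = -(1/q) t^q (t ∂_t + p w ∂_w)`, i.e.
`(D1 z).coeff n = -(1/q) ((n-q) z_{n-q} + p w z_{n-q}')`; `D2 = t^p ∂_w`, `(D2 z).coeff n = (z_{n-p})'`.  They are derivations of `R`; `D1 (Φ (C a)) = Φ (C (δ a))`,
`D1 (Φ X) = 0`, `D2 (Φ (C a)) = 0`, `D2 (Φ X) = 1`, so the two formulas hold for all `G` (generators; derivations; for `RatFunc ℂ` as fraction field of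
`ℂ[X]`: on polynomials in `s` first). -/
theorem exists_Phi (δ : Der (RatFunc ℂ))
    (hδ : ∀ p : ℂ[X], δ (algebraMap ℂ[X] (RatFunc ℂ) p) = algebraMap ℂ[X] (RatFunc ℂ) (derivative p))
    (p q : ℕ) (hq : 1 ≤ q) :
    ∃ (Φ : (RatFunc ℂ)[X] →+* RW) (D1 D2 : RW → RW),
      (∀ a : ℂ[X], Φ (C (algebraMap ℂ[X] (RatFunc ℂ) a)) =
        ∑ i ∈ range (a.natDegree + 1), HahnSeries.single (-(q * i : ℕ) : ℤ) (C (a.coeff i))) ∧
      Φ X = HahnSeries.single (-(p : ℤ)) (X : ℂ[X]) ∧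
      (∀ G, Φ (dmap δ G) = D1 (Φ G)) ∧ (∀ G, Φ (derivative G) = D2 (Φ G)) ∧
      (∀ (N : ℤ) (z : RW), (∀ n < N, z.coeff n = 0) → ∀ n < N + q, (D1 z).coeff n = 0) ∧
      (∀ (z : RW) (n : ℤ), (D2 z).coeff n = derivative (z.coeff (n - p))) := by
  have hq0 : (q : ℂ) ≠ 0 := by exact_mod_cast (show q ≠ 0 by omega)
  obtain ⟨T1, hT1⟩ : ∃ T1 : ℤ → ℂ[X] → ℂ[X], ∀ n a, T1 n a = (n : ℂ[X]) * a + (p : ℂ[X]) * X * derivative a := ⟨_, fun _ _ => rfl⟩
  obtain ⟨T2, hT2⟩ : ∃ T2 : ℤ → ℂ[X] → ℂ[X], ∀ n a, T2 n a = derivative a := ⟨_, fun _ _ => rfl⟩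
  have h10 : ∀ n, T1 n 0 = 0 := by intro n; rw [hT1]; simp
  have h20 : ∀ n, T2 n 0 = 0 := by intro n; rw [hT2]; simp
  obtain ⟨f1, hf1, hf1a, hf1m⟩ := W6a_gen T1 h10 (by intro n a b; rw [hT1, hT1, hT1, derivative_add]; ring)
    (by intro i j a b; rw [hT1, hT1, hT1, derivative_mul]; push_cast; ring)
  obtain ⟨f2, hf2, hf2a, hf2m⟩ := W6a_gen T2 h20 (by intro n a b; rw [hT2, hT2, hT2, derivative_add])
    (by intro i j a b; rw [hT2, hT2, hT2, derivative_mul])
  have hg : ∀ c : ℂ, W6a_Phi p q hq (C (algebraMap ℂ[X] (RatFunc ℂ) (C c))) = HahnSeries.single 0 (C c) := by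
    intro c
    rw [W6a_Phi_C, W6a_g_alg]
    have : W6a_f0 q (C c) = HahnSeries.single 0 c := by
      show eval₂ _ _ (C c) = _
      rw [eval₂_C, HahnSeries.C_apply]
    rw [this, W6a_cm_single]
  have hgX : W6a_Phi p q hq (C (algebraMap ℂ[X] (RatFunc ℂ) X)) = HahnSeries.single (-(q : ℤ)) 1 := by
    rw [W6a_Phi_C, W6a_g_alg]
    have : W6a_f0 q X = HahnSeries.single (-(q : ℤ)) 1 := by
      show eval₂ _ _ X = _
      rw [eval₂_X]
    rw [this, W6a_cm_single, C_1]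
  refine ⟨W6a_Phi p q hq, fun z => HahnSeries.single (q : ℤ) (C (-(q : ℂ)⁻¹)) * f1 z, fun z => HahnSeries.single (p : ℤ) 1 * f2 z,
    ?_, W6a_Phi_X p q hq, ?_, ?_, ?_, ?_⟩
  · intro a
    rw [W6a_Phi_C, W6a_g_alg, W6a_f0_sum q a (Nat.lt_succ_self _), map_sum]
    exact Finset.sum_congr rfl (fun i _ => W6a_cm_single _ _)
  · intro G
    refine W6a_main p q hq (D := fun G => W6a_Phi p q hq (dmap δ G))
      (D' := fun G => HahnSeries.single (q : ℤ) (C (-(q : ℂ)⁻¹)) * f1 (W6a_Phi p q hq G)) ?_ ?_ ?_ ?_ ?_ G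
    · refine ⟨fun a b => ?_, fun a b => ?_⟩
      · show W6a_Phi p q hq (dmap δ (a + b)) = _
        rw [W6a_da, map_add]
      · show W6a_Phi p q hq (dmap δ (a * b)) = _
        rw [W6a_dm, map_add, map_mul, map_mul]
    · refine ⟨fun a b => ?_, fun a b => ?_⟩
      · show HahnSeries.single (q : ℤ) (C (-(q : ℂ)⁻¹)) * f1 (W6a_Phi p q hq (a + b)) = _
        rw [map_add, hf1a, mul_add]
      · show HahnSeries.single (q : ℤ) (C (-(q : ℂ)⁻¹)) * f1 (W6a_Phi p q hq (a * b)) = _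
        rw [map_mul, hf1m]
        ring
    · intro c
      show W6a_Phi p q hq (dmap δ (C (algebraMap ℂ[X] (RatFunc ℂ) (C c)))) = _
      rw [W6a_dC, hδ, derivative_C, map_zero, map_zero, map_zero]
      show _ = HahnSeries.single (q : ℤ) (C (-(q : ℂ)⁻¹)) * f1 (W6a_Phi p q hq (C (algebraMap ℂ[X] (RatFunc ℂ) (C c))))
      rw [hg, W6a_single T1 h10 f1 hf1, hT1, derivative_C]
      simp
    · show W6a_Phi p q hq (dmap δ (C (algebraMap ℂ[X] (RatFunc ℂ) X))) =
        HahnSeries.single (q : ℤ) (C (-(q : ℂ)⁻¹)) * f1 (W6a_Phi p q hq (C (algebraMap ℂ[X] (RatFunc ℂ) X)))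
      rw [W6a_dC, hδ, derivative_X, map_one, map_one, map_one, hgX, W6a_single T1 h10 f1 hf1, hT1,
        HahnSeries.single_mul_single, derivative_one, mul_zero, add_zero, mul_one, add_neg_cancel]
      have e1 : (C (-(q : ℂ)⁻¹) : ℂ[X]) * ((-(q : ℤ) : ℤ) : ℂ[X]) = 1 := by
        have e2 : ((-(q : ℤ) : ℤ) : ℂ[X]) = C (-(q : ℂ)) := by simp
        rw [e2, ← C_mul, neg_mul_neg, inv_mul_cancel₀ hq0, C_1]
      rw [e1]
      rfl
    · show W6a_Phi p q hq (dmap δ X) = HahnSeries.single (q : ℤ) (C (-(q : ℂ)⁻¹)) * f1 (W6a_Phi p q hq X)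
      rw [W6a_dX, map_zero, W6a_Phi_X, W6a_single T1 h10 f1 hf1, hT1, derivative_X]
      have e1 : ((-(p : ℤ) : ℤ) : ℂ[X]) * X + (p : ℂ[X]) * X * 1 = 0 := by
        push_cast
        ring
      rw [e1]
      simp
  · intro G
    refine W6a_main p q hq (D := fun G => W6a_Phi p q hq (derivative G))
      (D' := fun G => HahnSeries.single (p : ℤ) 1 * f2 (W6a_Phi p q hq G)) ?_ ?_ ?_ ?_ ?_ G
    · refine ⟨fun a b => ?_, fun a b => ?_⟩
      · show W6a_Phi p q hq (derivative (a + b)) = _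
        rw [derivative_add, map_add]
      · show W6a_Phi p q hq (derivative (a * b)) = _
        rw [derivative_mul, map_add, map_mul, map_mul]
        ring
    · refine ⟨fun a b => ?_, fun a b => ?_⟩
      · show HahnSeries.single (p : ℤ) 1 * f2 (W6a_Phi p q hq (a + b)) = _
        rw [map_add, hf2a, mul_add]
      · show HahnSeries.single (p : ℤ) 1 * f2 (W6a_Phi p q hq (a * b)) = _
        rw [map_mul, hf2m]
        ring
    · intro c
      show W6a_Phi p q hq (derivative (C (algebraMap ℂ[X] (RatFunc ℂ) (C c)))) =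
        HahnSeries.single (p : ℤ) 1 * f2 (W6a_Phi p q hq (C (algebraMap ℂ[X] (RatFunc ℂ) (C c))))
      rw [derivative_C, map_zero, hg, W6a_single T2 h20 f2 hf2, hT2, derivative_C]
      simp
    · show W6a_Phi p q hq (derivative (C (algebraMap ℂ[X] (RatFunc ℂ) X))) =
        HahnSeries.single (p : ℤ) 1 * f2 (W6a_Phi p q hq (C (algebraMap ℂ[X] (RatFunc ℂ) X)))
      rw [derivative_C, map_zero, hgX, W6a_single T2 h20 f2 hf2, hT2, derivative_one]
      simp
    · show W6a_Phi p q hq (derivative X) = HahnSeries.single (p : ℤ) 1 * f2 (W6a_Phi p q hq X)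
      rw [derivative_X, map_one, W6a_Phi_X, W6a_single T2 h20 f2 hf2, hT2, derivative_X, HahnSeries.single_mul_single,
        add_neg_cancel, mul_one]
      rfl
  · intro N z hz n hn
    show (HahnSeries.single (q : ℤ) (C (-(q : ℂ)⁻¹)) * f1 z).coeff n = 0
    rw [HahnSeries.coeff_single_mul, hf1, hz _ (by omega), h10, mul_zero]
  · intro z n
    show (HahnSeries.single (p : ℤ) 1 * f2 z).coeff n = _
    rw [HahnSeries.coeff_single_mul, hf2, hT2, one_mul]

end Pool.Agent.FCT
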