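import Pool.Agent.FCT.Q4
import Pool.Agent.FCT.Q5
import Pool.Agent.FCT.W6
import Pool.Agent.FCT.U1
import Pool.Agent.FCT.U3
import Pool.Agent.FCT.V1
import Pool.Agent.FCT.Lg5

/-! Row FCT-X1: no relation over `ℂ`. -/

set_option autoImplicit false

namespace Pool.Agent.FCT

open Polynomial Finset

/-- a derivation extends to a finite extension -/
theorem X1_ext {κ : Type*} (L : Type*) [Field κ] [Field L] [Algebra κ L] [CharZero κ] [FiniteDimensional κ L]
    (δ : Der κ) : ∃ δL : Der L, ∀ a, δL (algebraMap κ L a) = algebraMap κ L (δ a) := by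
  let _ : Differential κ := ⟨δ⟩
  let _ : Differential L := Differential.differentialFiniteDimensional κ L
  have : DifferentialAlgebra κ L := Differential.differentialAlgebraFiniteDimensional
  exact ⟨Differential.deriv, fun a => DifferentialAlgebra.deriv_algebraMap a⟩

theorem X1_dmap (δ : Der (RatFunc ℂ))
    (hδ : ∀ p : ℂ[X], δ (algebraMap ℂ[X] (RatFunc ℂ) p) = algebraMap ℂ[X] (RatFunc ℂ) (derivative p)) (F0 : ℂ[X][X]) :
    dmap δ (F0.map (algebraMap ℂ[X] (RatFunc ℂ))) = (dmap ds F0).map (algebraMap ℂ[X] (RatFunc ℂ)) := by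
  ext i
  rw [dmap_coeff, coeff_map, coeff_map, dmap_coeff, hδ]
  rfl

/-- Proof.  `κ = RatFunc ℂ`, `F = F0.map (algebraMap ℂ[X] κ)` (same degree), `s = RatFunc.X ≠ 0`, `δ : Der κ` extending `d/ds` (`exists_der_ratFunc` for `ds`, `exists_cast_der`),
`L` = splitting field of `C a * X^E - 1` over `κ` (finite), `δL` from `Differential.differentialFiniteDimensional`.  `ISk_ratFunc`: `ISk s (X^k F^ν) = algebraMap (ee F0 k ν)`.  The relation maps
to `κ` (`act_map`), `δ (algebraMap (h ν)) = algebraMap (h ν) + …` from `hh`.  `part2a` gives `N, Δ`; `part3` gives `F0 = φ(y - b)`; `dmap_comp_phi` (mapped to `κ`) and `DO_rho_zero` give the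
hypothesis `hρ` of `part2b` (`hne` from `no_exp_ratFunc`), so `P(c)(toE h + toE e0) = a(c)`; `final_eq` with `derivative_IS_phi`; `final_contra`. -/
theorem no_relation (F0 : ℂ[X][X]) (hF : 1 ≤ F0.natDegree) (h : ℕ → ℂ[X]) (hh : dd h = h + psi F0) (P : ℂ[X][X])
    (hP : P ≠ 0) (Q : ℕ → ℂ[X][X]) (hrel : act P h = ∑ l ∈ range F0.natDegree, act (Q l) (ee F0 l)) : False := by
  -- the derivation of `κ`
  obtain ⟨δ, hδ⟩ : ∃ δ : Der (RatFunc ℂ),
      ∀ p : ℂ[X], δ (algebraMap ℂ[X] (RatFunc ℂ) p) = algebraMap ℂ[X] (RatFunc ℂ) (derivative p) := by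
    obtain ⟨D1, hD1⟩ := exists_der_ratFunc (κ := ℂ) ds
    obtain ⟨δ, hδ'⟩ : ∃ D' : Der (RatFunc ℂ), ∀ z, D' z = D1 z := exists_cast_der _ _ D1
    exact ⟨δ, fun p => by rw [hδ', hD1, ds_apply]⟩
  have hinj : Function.Injective (algebraMap ℂ[X] (RatFunc ℂ)) := RatFunc.algebraMap_injective ℂ
  obtain ⟨F, hFd⟩ : ∃ F : (RatFunc ℂ)[X], F = F0.map (algebraMap ℂ[X] (RatFunc ℂ)) := ⟨_, rfl⟩
  have hFE : F.natDegree = F0.natDegree := by rw [hFd, natDegree_map_eq_of_injective hinj]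
  have hF1 : 1 ≤ F.natDegree := by rw [hFE]; exact hF
  -- the sequences over `κ`
  have hIS : ∀ k ν, algebraMap ℂ[X] (RatFunc ℂ) (IS (X ^ k * F0 ^ ν)) = ISk (RatFunc.X : RatFunc ℂ) (X ^ k * F ^ ν) := by
    intro k ν
    rw [ISk_ratFunc, hFd]
    simp only [Polynomial.map_mul, Polynomial.map_pow, Polynomial.map_X]
  have hIS0 : ∀ ν, algebraMap ℂ[X] (RatFunc ℂ) (IS (F0 ^ ν)) = ISk (RatFunc.X : RatFunc ℂ) (F ^ ν) := by
    intro ν
    have := hIS 0 ν
    rwa [pow_zero, one_mul, pow_zero, one_mul] at this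
  have hh' : ∀ ν, δ (algebraMap ℂ[X] (RatFunc ℂ) (h ν)) = algebraMap ℂ[X] (RatFunc ℂ) (h ν) +
      if ν = 0 then 0 else ISk (RatFunc.X : RatFunc ℂ) (F ^ ν) := by
    intro ν
    have e : derivative (h ν) = h ν + psi F0 ν := congrFun hh ν
    rw [hδ, e, map_add, psi]
    split_ifs with h0
    · rw [map_zero]
    · rw [hIS0]
  have hP' : P.map (algebraMap ℂ[X] (RatFunc ℂ)) ≠ 0 := (Polynomial.map_ne_zero_iff hinj).2 hP
  have hrel' : ∀ ν, act (P.map (algebraMap ℂ[X] (RatFunc ℂ))) (fun n => algebraMap ℂ[X] (RatFunc ℂ) (h n)) ν =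
      ∑ l : Fin F.natDegree, act ((Q l).map (algebraMap ℂ[X] (RatFunc ℂ)))
        (fun m => ISk (RatFunc.X : RatFunc ℂ) (X ^ (l : ℕ) * F ^ m)) ν := by
    intro ν
    rw [← act_map, hrel, Finset.sum_apply, map_sum, ← hFE,
      Fin.sum_univ_eq_sum_range (fun l => act ((Q l).map (algebraMap ℂ[X] (RatFunc ℂ)))
        (fun m => ISk (RatFunc.X : RatFunc ℂ) (X ^ l * F ^ m)) ν)]
    refine Finset.sum_congr rfl fun l _ => ?_
    rw [act_map]
    have e : (fun m => algebraMap ℂ[X] (RatFunc ℂ) (ee F0 l m)) = fun m => ISk (RatFunc.X : RatFunc ℂ) (X ^ l * F ^ m) :=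
      funext fun m => hIS l m
    rw [e]
  -- the field `L`
  obtain ⟨L, hL1, hL2, hL3, hs⟩ : ∃ (L : Type) (_ : Field L) (_ : Algebra (RatFunc ℂ) L) (_ : FiniteDimensional (RatFunc ℂ) L),
      (C (algebraMap (RatFunc ℂ) L F.leadingCoeff) * X ^ F.natDegree - 1 : L[X]).Splits := by
    refine ⟨(C F.leadingCoeff * X ^ F.natDegree - 1 : (RatFunc ℂ)[X]).SplittingField, inferInstance, inferInstance,
      inferInstance, ?_⟩
    have := Polynomial.SplittingField.splits (C F.leadingCoeff * X ^ F.natDegree - 1 : (RatFunc ℂ)[X])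
    simpa only [Polynomial.map_sub, Polynomial.map_mul, Polynomial.map_C, Polynomial.map_pow, Polynomial.map_X,
      Polynomial.map_one] using this
  have : CharZero L := charZero_of_injective_algebraMap (algebraMap (RatFunc ℂ) L).injective
  have : Algebra.IsAlgebraic (RatFunc ℂ) L := inferInstance
  obtain ⟨δL, hδL⟩ := X1_ext L δ
  obtain ⟨N, Δ, hΔ, hPDE⟩ := part2a δ δL hδL F hF1 hs RatFunc.X RatFunc.X_ne_zero _ hh' _ hP' _ hrel'
  rw [hFd] at hPDE
  obtain ⟨φ, b, hφ, hF0⟩ := part3 δ hδ F0 hF N Δ hΔ hPDE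
  have hdm : dmap δ F = -(C (algebraMap ℂ[X] (RatFunc ℂ) (derivative b)) * derivative F) := by
    rw [hFd, X1_dmap δ hδ]
    have e : dmap ds F0 = -(C (derivative b) * derivative F0) := by
      have := dmap_comp_phi φ b
      rwa [← hF0] at this
    rw [e]
    simp only [Polynomial.map_neg, Polynomial.map_mul, Polynomial.map_C, Polynomial.derivative_map]
  have hne : ∀ (n : ℕ) (a : RatFunc ℂ), 1 ≤ n → δ a = n * a → a = 0 := by
    obtain ⟨δ', hδ'⟩ : ∃ D' : Derivation ℤ (RatFunc ℂ) (RatFunc ℂ), ∀ z, D' z = δ z := exists_cast_der _ _ δ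
    intro n a hn ha
    exact no_exp_ratFunc δ' (fun p => by rw [hδ', hδ]) n hn a (by rw [hδ', ha])
  obtain ⟨a, ha⟩ := part2b δ δL hδL F hF1 hs RatFunc.X _ hh' _ hP' _ hrel' hne
    (fun z hz => DO_rho_zero F hF1 δ _ hdm z hz)
  have he0 : ISk (RatFunc.X : RatFunc ℂ) (F ^ 0) = RatFunc.X := by
    rw [← hIS0 0, pow_zero, IS_one, RatFunc.algebraMap_X]
  have he : ∀ ν, δ (ISk (RatFunc.X : RatFunc ℂ) (F ^ ν)) =
      (1 - algebraMap ℂ[X] (RatFunc ℂ) (derivative b)) * algebraMap ℂ[X] (RatFunc ℂ) (φ.comp (X - b)) ^ ν +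
        algebraMap ℂ[X] (RatFunc ℂ) (derivative b) * algebraMap ℂ[X] (RatFunc ℂ) (φ.comp (-b)) ^ ν := by
    intro ν
    have e := derivative_IS_phi φ b ν
    rw [← hF0] at e
    rw [← hIS0, hδ, e]
    simp only [map_add, map_mul, map_sub, map_one, map_pow]
  have hfin := final_eq δ δL hδL F.natDegree hF1 (fun n => algebraMap ℂ[X] (RatFunc ℂ) (h n))
    (fun ν => ISk (RatFunc.X : RatFunc ℂ) (F ^ ν)) RatFunc.X (algebraMap ℂ[X] (RatFunc ℂ) (φ.comp (X - b)))
    (algebraMap ℂ[X] (RatFunc ℂ) (φ.comp (-b))) (algebraMap ℂ[X] (RatFunc ℂ) (derivative b)) he0 hh' he _ a hP' ha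
  exact final_contra δ hδ φ b (by rw [hφ]; exact hF) _ a hP' _ _ _ _ rfl rfl rfl hfin

end Pool.Agent.FCT
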