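import Pool.Agent.FCT.X1
import Pool.Agent.FCT.V2
import Pool.Agent.FCT.N1
import Pool.Agent.FCT.N2
import Pool.Agent.FCT.E0

/-! Row FCT-X2: the theorem. -/

set_option autoImplicit false

namespace Pool.Agent.FCT

open Polynomial Finset

/-- Proof.  Suppose not; `exists_numberField` gives `K` and `g`.  `F = Fs g ≠ 0` (`Fs_ne_zero`), `L1 (IS (F^m)) = LL (g^m) = 0` (`LL_eq`, `Fs_pow`).
If `natDegree F = 0`, `F = C g0`, `IS (F^m) = X * g0^m` (`IS_C_mul`, `IS_one`), contradiction with `E0`.  Otherwise `elim_final` gives `h, P, Q` over `K`; choose an embedding `K → ℂ` and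
apply `rel_mm`, `natDegree_mm`, and `no_relation` (`mm P ≠ 0` by injectivity). -/
theorem fc2 (f : MvPolynomial (Fin 2) ℂ) (hf : f ≠ 0) : ∃ m, 1 ≤ m ∧ LL (f ^ m) ≠ 0 := by
  by_contra hcon
  have hcon' : ∀ m, 1 ≤ m → LL (f ^ m) = 0 := fun m hm => by
    by_contra h
    exact hcon ⟨m, hm, h⟩
  obtain ⟨K, hK1, hK2, g, hg, hLg⟩ := exists_numberField f hf hcon'
  have hFne := Fs_ne_zero g hg
  have hL : ∀ m, 1 ≤ m → L1 (IS (Fs g ^ m)) = 0 := fun m hm => by
    rw [← Fs_pow, ← LL_eq, hLg m hm]
  rcases Nat.eq_zero_or_pos (Fs g).natDegree with h0 | h1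
  · obtain ⟨g0, hg0⟩ : ∃ g0 : K[X], Fs g = C g0 := ⟨_, eq_C_of_natDegree_eq_zero h0⟩
    have hg0ne : g0 ≠ 0 := by
      rintro rfl
      exact hFne (by rw [hg0, C_0])
    obtain ⟨m, hm, hm'⟩ := E0 g0 hg0ne
    refine hm' ?_
    have e := hL m hm
    rw [hg0, ← C_pow, ← mul_one (C (g0 ^ m)), IS_C_mul, IS_one] at e
    rw [mul_comm]
    exact e
  · obtain ⟨h, P, Q, hh, hP, hrel⟩ := elim_final (Fs g) h1 hL
    obtain ⟨φ⟩ : Nonempty (K →+* ℂ) := inferInstance
    obtain ⟨hh', hrel'⟩ := rel_mm φ (Fs g) h hh P Q (Fs g).natDegree hrel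
    have hinj : Function.Injective (mm φ) :=
      Polynomial.map_injective _ (Polynomial.map_injective _ φ.injective)
    have hP' : mm φ P ≠ 0 := fun h0 => hP (hinj (by rw [h0, map_zero]))
    exact no_relation (mm φ (Fs g)) (by rw [natDegree_mm]; exact h1) _ hh' (mm φ P) hP' (fun l => mm φ (Q l))
      (by rw [natDegree_mm]; exact hrel')

/-- `LL` is invariant under injective renamings of the variables -/
theorem X2_rename {K : Type*} [Field K] {σ τ : Type*} [Fintype σ] [Fintype τ] (e : σ → τ) (he : Function.Injective e)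
    (g : MvPolynomial σ K) : LL (MvPolynomial.rename e g) = LL g := by
  classical
  have hpr : ∀ s : σ →₀ ℕ, ∏ t : τ, ((Finsupp.mapDomain e s t).factorial : K) = ∏ i : σ, ((s i).factorial : K) := by
    intro s
    rw [← Finset.prod_subset (Finset.subset_univ (Finset.univ.image e))]
    · rw [Finset.prod_image fun a _ b _ hab => he hab]
      refine Finset.prod_congr rfl fun i _ => ?_
      rw [Finsupp.mapDomain_apply he]
    · intro t _ ht
      rw [Finsupp.mapDomain_of_notMem_range, Nat.factorial_zero, Nat.cast_one]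
      rintro ⟨i, rfl⟩
      exact ht (Finset.mem_image_of_mem e (Finset.mem_univ i))
  unfold LL
  rw [MvPolynomial.support_rename_of_injective he,
    Finset.sum_image fun a _ b _ hab => Finsupp.mapDomain_injective he hab]
  refine Finset.sum_congr rfl fun s _ => ?_
  rw [MvPolynomial.coeff_rename_mapDomain e he, hpr]

/-- the theorem for polynomials which come from two variables -/
theorem X2_two {n : ℕ} (f : MvPolynomial (Fin n) ℂ) (g : MvPolynomial (Fin 2) ℂ) (hg : g ≠ 0)
    (h : ∀ m, LL (f ^ m) = LL (g ^ m)) (N : ℕ) : ∃ m, N ≤ m ∧ LL (f ^ m) ≠ 0 := by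
  obtain ⟨m, hm, hm'⟩ := fc2 (g ^ (N + 1)) (pow_ne_zero _ hg)
  refine ⟨(N + 1) * m, ?_, ?_⟩
  · calc N ≤ (N + 1) * 1 := by omega
      _ ≤ (N + 1) * m := Nat.mul_le_mul_left _ hm
  · rw [h, pow_mul]
    exact hm'

/-- Proof.  If `f` involves only the variables `i, j` (`f.vars ⊆ {i, j}`) then `f = rename e g` for an injective `e : Fin 2 → σ` (if `i = j` or `n = 1` see below) and `g` in two variables
(`MvPolynomial.exists_rename_eq_of_vars_subset_range`), and `LL (rename e g) = LL g` (the other exponents are `0`, `0! = 1`).  If `i = j`: `f = rename (fun _ => i) g1` with `g1` in one variable;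
view it as a polynomial in two variables: `LL` of `g1` in one variable equals `LL` of its image in `Fin 2` (rename by the injection `Fin 1 → Fin 2`, and by the injection `Fin 1 → σ`).
For infinitely many `m`: apply `fc2` to `g^N`, `N ≥ 1`: `LL (g^(N m)) ≠ 0` with `N m ≥ N`. -/
theorem fc2_vars (n : ℕ) (f : MvPolynomial (Fin n) ℂ) (hf : f ≠ 0) (i j : Fin n) (hv : f.vars ⊆ {i, j}) (N : ℕ) :
    ∃ m, N ≤ m ∧ LL (f ^ m) ≠ 0 := by
  by_cases hij : i = j
  · subst hij
    have he : Function.Injective (fun _ : Fin 1 => i) := fun a b _ => Subsingleton.elim a b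
    obtain ⟨g1, rfl⟩ := MvPolynomial.exists_rename_eq_of_vars_subset_range f (fun _ : Fin 1 => i) he (by
      intro x hx
      have := hv (Finset.mem_coe.1 hx)
      simp only [Finset.insert_eq_of_mem, Finset.mem_singleton] at this
      exact ⟨0, this.symm⟩)
    have he2 : Function.Injective (fun _ : Fin 1 => (0 : Fin 2)) := fun a b _ => Subsingleton.elim a b
    refine X2_two _ (MvPolynomial.rename (fun _ : Fin 1 => (0 : Fin 2)) g1) ?_ (fun m => ?_) N
    · intro h0
      refine hf ?_
      have : g1 = 0 := MvPolynomial.rename_injective _ he2 (by rw [h0, map_zero])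
      rw [this, map_zero]
    · rw [← map_pow, ← map_pow, X2_rename _ he, X2_rename _ he2]
  · have he : Function.Injective (![i, j] : Fin 2 → Fin n) := by
      intro a b hab
      fin_cases a <;> fin_cases b
      · rfl
      · exact absurd hab hij
      · exact absurd hab.symm hij
      · rfl
    obtain ⟨g, rfl⟩ := MvPolynomial.exists_rename_eq_of_vars_subset_range f (![i, j] : Fin 2 → Fin n) he (by
      intro x hx
      have := hv (Finset.mem_coe.1 hx)
      rw [Finset.mem_insert, Finset.mem_singleton] at this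
      rcases this with rfl | rfl
      · exact ⟨0, rfl⟩
      · exact ⟨1, rfl⟩)
    refine X2_two _ g ?_ (fun m => ?_) N
    · rintro rfl
      exact hf (map_zero _)
    · rw [← map_pow, X2_rename _ he]

end Pool.Agent.FCT
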