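import Pool.Agent.FCT.Defs

/-! Row FCT-X3: the functional on products with disjoint variables, and on renamed polynomials. -/

set_option autoImplicit false

namespace Pool.Agent.FCT

open Finset

theorem X3_subset {K σ : Type*} [Field K] [Fintype σ] (f : MvPolynomial σ K) (T : Finset (σ →₀ ℕ))
    (hT : f.support ⊆ T) :
    LL f = ∑ s ∈ T, MvPolynomial.coeff s f * ∏ i : σ, ((s i).factorial : K) := by
  unfold LL
  apply Finset.sum_subset hT
  intro s _ hs
  rw [MvPolynomial.notMem_support_iff.1 hs, zero_mul]

/-- additivity of `LL` -/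
theorem LL_add {K σ : Type*} [Field K] [Fintype σ] (f g : MvPolynomial σ K) : LL (f + g) = LL f + LL g := by
  classical
  rw [X3_subset (f + g) (f.support ∪ g.support) MvPolynomial.support_add,
    X3_subset f (f.support ∪ g.support) Finset.subset_union_left,
    X3_subset g (f.support ∪ g.support) Finset.subset_union_right, ← Finset.sum_add_distrib]
  exact Finset.sum_congr rfl fun s _ => by rw [MvPolynomial.coeff_add, add_mul]

theorem LL_monomial {K σ : Type*} [Field K] [Fintype σ] (s : σ →₀ ℕ) (a : K) :
    LL (MvPolynomial.monomial s a) = a * ∏ i : σ, ((s i).factorial : K) := by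
  classical
  rw [X3_subset _ {s} MvPolynomial.support_monomial_subset, Finset.sum_singleton,
    MvPolynomial.coeff_monomial, if_pos rfl]

/-- `L(f)` does not change under an injective renaming of the variables (the other exponents are `0`, `0! = 1`). -/
theorem LL_rename {K σ τ : Type*} [Field K] [Fintype σ] [Fintype τ] [DecidableEq τ] (e : σ → τ) (he : Function.Injective e)
    (f : MvPolynomial σ K) : LL (MvPolynomial.rename e f) = LL f := by
  induction f using MvPolynomial.induction_on' with
  | monomial s a =>
    rw [MvPolynomial.rename_monomial, LL_monomial, LL_monomial]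
    congr 1
    symm
    apply Fintype.prod_of_injective e he
    · intro i hi
      rw [Finsupp.mapDomain_of_notMem_range _ _ hi, Nat.factorial_zero, Nat.cast_one]
    · intro i
      rw [Finsupp.mapDomain_apply he]
  | add p q hp hq => rw [map_add, LL_add, LL_add, hp, hq]

/-- Proof.  Both sides are additive in `g` (write `g` as the sum of its monomials; every monomial `t` in the support of `g` has `t k = 0` for
`k ≠ i, j` as `g.vars ⊆ {i, j}`).  For a monomial `t`: `∏ ((s + t) k)! = ∏ (s k)! * ∏ (t k)!` because for every `k` one of `s k`, `t k` is `0`. -/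
theorem LL_monomial_mul {K σ : Type*} [Field K] [Fintype σ] [DecidableEq σ] (i j : σ) (s : σ →₀ ℕ) (hi : s i = 0) (hj : s j = 0)
    (g : MvPolynomial σ K) (hv : g.vars ⊆ {i, j}) :
    LL (MvPolynomial.monomial s 1 * g) = (∏ k : σ, ((s k).factorial : K)) * LL g := by
  have h1 : LL (MvPolynomial.monomial s 1 * g)
      = ∑ t ∈ g.support, LL (MvPolynomial.monomial s 1 * MvPolynomial.monomial t (MvPolynomial.coeff t g)) := by
    conv_lhs => rw [g.as_sum, Finset.mul_sum]
    exact map_sum (AddMonoidHom.mk' (LL : MvPolynomial σ K → K) LL_add) _ _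
  rw [h1]
  unfold LL
  rw [Finset.mul_sum]
  apply Finset.sum_congr rfl
  intro t ht
  have h2 := LL_monomial (s + t) (MvPolynomial.coeff t g)
  unfold LL at h2
  rw [MvPolynomial.monomial_mul, one_mul, h2, mul_left_comm]
  congr 1
  rw [← Finset.prod_mul_distrib]
  apply Finset.prod_congr rfl
  intro k _
  have h3 : s k = 0 ∨ t k = 0 := by
    by_cases hk : k ∈ ({i, j} : Finset σ)
    · left
      rcases Finset.mem_insert.1 hk with rfl | hk
      · exact hi
      · rw [Finset.mem_singleton.1 hk]
        exact hj
    · right
      by_contra h0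
      exact hk (hv ((MvPolynomial.mem_vars_iff_mem_support k).2 ⟨t, ht, Finsupp.mem_support_iff.2 h0⟩))
  rw [Finsupp.add_apply]
  rcases h3 with h3 | h3
  · rw [h3, zero_add, Nat.factorial_zero, Nat.cast_one, one_mul]
  · rw [h3, add_zero, Nat.factorial_zero, Nat.cast_one, mul_one]

end Pool.Agent.FCT
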