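import Pool.Agent.FCT.X2
import Pool.Agent.FCT.X3

/-! Row FCT-X4: a uniform bound. -/

set_option autoImplicit false

namespace Pool.Agent.FCT

open Finset

/-- infinitely many `m`: apply `fc2` to `f^(N+1)`, `(f^(N+1))^m = f^((N+1) m)`, `(N+1) m ≥ N`. -/
theorem fc2_inf (f : MvPolynomial (Fin 2) ℂ) (hf : f ≠ 0) (N : ℕ) : ∃ m, N ≤ m ∧ LL (f ^ m) ≠ 0 := by
  obtain ⟨m, hm, hm'⟩ := fc2 (f ^ (N + 1)) (pow_ne_zero _ hf)
  refine ⟨(N + 1) * m, ?_, ?_⟩
  · calc N ≤ (N + 1) * 1 := by omega
      _ ≤ (N + 1) * m := Nat.mul_le_mul_left _ hm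
  · rw [pow_mul]
    exact hm'

/-- the functional over a commutative ring -/
noncomputable def X4_L {R : Type*} [CommRing R] (f : MvPolynomial (Fin 2) R) : R :=
  ∑ s ∈ f.support, MvPolynomial.coeff s f * ∏ i : Fin 2, ((s i).factorial : R)

theorem X4_map {R : Type*} [CommRing R] (φ : R →+* ℂ) (f : MvPolynomial (Fin 2) R) :
    LL (MvPolynomial.map φ f) = φ (X4_L f) := by
  classical
  unfold LL X4_L
  rw [map_sum]
  have h1 : (MvPolynomial.map φ f).support ⊆ f.support := MvPolynomial.support_map_subset _ _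
  rw [Finset.sum_subset h1]
  · refine Finset.sum_congr rfl fun s _ => ?_
    rw [MvPolynomial.coeff_map, map_mul, map_prod]
    simp only [map_natCast]
  · intro s _ hs
    rw [MvPolynomial.notMem_support_iff.1 hs, zero_mul]

/-- Proof.  Let `S` be the finite set of exponents of degree `≤ d`, `R = MvPolynomial S ℂ` (variables = coefficients), `Φ = ∑_{α ∈ S} X_α x^α ∈ R[x,y]`, and `p_m ∈ R` the value of the functional on `Φ^m`
(the sum `∑ coeff * ∏ factorial` over the commutative ring `R`).  For `f` of degree `≤ d` with coefficient vector `a`: `LL (f^m) = eval a p_m` (naturality under `R → ℂ`; compare `LL_map` in `N1.lean`).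
`R` is Noetherian, so the ideal generated by the `p_m`, `m ≥ N`, is generated by `p_N, …, p_{N'}` for some `N'` (a finitely generated ideal: each generator lies in a finite stage; or the ascending chain
`span {p_m | N ≤ m ≤ M}` stabilizes: `monotone_stabilizes_iff_noetherian`).  If `LL (f^m) = 0` for all `N ≤ m ≤ N'`, then for all `m ≥ N`, so `f = 0` by `fc2_inf`. -/
theorem fc2_unif (d N : ℕ) : ∃ N' : ℕ, ∀ f : MvPolynomial (Fin 2) ℂ, f ≠ 0 → f.totalDegree ≤ d →
    ∃ m, N ≤ m ∧ m ≤ N' ∧ LL (f ^ m) ≠ 0 := by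
  classical
  -- exponents with both entries `≤ d`
  let S : Type := Fin (d + 1) × Fin (d + 1)
  let ex : S → (Fin 2 →₀ ℕ) := fun p => Finsupp.single 0 (p.1 : ℕ) + Finsupp.single 1 (p.2 : ℕ)
  let R : Type := MvPolynomial S ℂ
  let Φ : MvPolynomial (Fin 2) R := ∑ p : S, MvPolynomial.monomial (ex p) (MvPolynomial.X p : R)
  -- every polynomial of degree `≤ d` is a specialization
  have hspec : ∀ f : MvPolynomial (Fin 2) ℂ, f.totalDegree ≤ d →
      ∃ a : S → ℂ, MvPolynomial.map (MvPolynomial.eval a : R →+* ℂ) Φ = f := by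
    intro f hf
    refine ⟨fun p => MvPolynomial.coeff (ex p) f, ?_⟩
    have e1 : MvPolynomial.map (MvPolynomial.eval (fun p : S => MvPolynomial.coeff (ex p) f) : R →+* ℂ) Φ =
        ∑ p : S, MvPolynomial.monomial (ex p) (MvPolynomial.coeff (ex p) f) := by
      simp only [Φ, map_sum, MvPolynomial.map_monomial, MvPolynomial.eval_X]
    rw [e1]
    have hinj : Function.Injective ex := by
      intro p q hpq
      have h0 := DFunLike.congr_fun hpq 0
      have h1 := DFunLike.congr_fun hpq 1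
      simp [ex] at h0 h1
      exact Prod.ext (Fin.ext h0) (Fin.ext h1)
    ext t
    rw [MvPolynomial.coeff_sum]
    simp only [MvPolynomial.coeff_monomial]
    by_cases ht : MvPolynomial.coeff t f = 0
    · rw [ht]
      refine Finset.sum_eq_zero fun p _ => ?_
      split_ifs with hp
      · rw [hp, ht]
      · rfl
    · have hdeg : (t.sum fun _ e => e) ≤ d :=
        (MvPolynomial.le_totalDegree (MvPolynomial.mem_support_iff.2 ht)).trans hf
      have hsum : t 0 + t 1 ≤ d := by
        have : (t.sum fun _ e => e) = t 0 + t 1 := by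
          rw [Finsupp.sum_fintype _ _ fun _ => rfl, Fin.sum_univ_two]
        omega
      have hex : ex (⟨t 0, by omega⟩, ⟨t 1, by omega⟩) = t := by
        ext i
        fin_cases i <;> simp [ex]
      rw [Finset.sum_eq_single_of_mem (⟨t 0, by omega⟩, ⟨t 1, by omega⟩) (Finset.mem_univ _)]
      · rw [if_pos hex, hex]
      · intro q _ hq
        rw [if_neg]
        intro h
        exact hq (hinj (h.trans hex.symm))
  -- the ideals
  let I : ℕ →o Ideal R :=
    { toFun := fun M => Ideal.span {x | ∃ m, N ≤ m ∧ m ≤ M ∧ x = X4_L (Φ ^ m)}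
      monotone' := by
        intro a b hab
        refine Ideal.span_mono ?_
        rintro x ⟨m, h1, h2, h3⟩
        exact ⟨m, h1, h2.trans hab, h3⟩ }
  obtain ⟨N', hN'⟩ := monotone_stabilizes_iff_noetherian.2 (inferInstance : IsNoetherian R R) I
  refine ⟨N', fun f hf hd => ?_⟩
  by_contra hcon
  have h0 : ∀ m, N ≤ m → m ≤ N' → LL (f ^ m) = 0 := fun m h1 h2 => by
    by_contra h
    exact hcon ⟨m, h1, h2, h⟩
  obtain ⟨a, ha⟩ := hspec f hd
  have hpow : ∀ m, LL (f ^ m) = MvPolynomial.eval a (X4_L (Φ ^ m)) := by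
    intro m
    rw [← X4_map, map_pow, ha]
  have hker : I N' ≤ RingHom.ker (MvPolynomial.eval a : R →+* ℂ) := by
    refine Ideal.span_le.2 ?_
    rintro x ⟨m, h1, h2, rfl⟩
    rw [SetLike.mem_coe, RingHom.mem_ker, ← hpow, h0 m h1 h2]
  obtain ⟨m, hm, hm'⟩ := fc2_inf f hf N
  refine hm' ?_
  rw [hpow]
  have hmem : X4_L (Φ ^ m) ∈ I (max m N') := Ideal.subset_span ⟨m, hm, le_max_left _ _, rfl⟩
  rw [← hN' (max m N') (le_max_right _ _)] at hmem
  exact hker hmem

end Pool.Agent.FCT
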