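import Pool.Agent.FCT.X4

/-! Row FCT-X5: the final statement. -/

set_option autoImplicit false

namespace Pool.Agent.FCT

open Finset

/-- a polynomial in the variables `i, j` comes from a polynomial in two variables -/
theorem X5_two {n : ℕ} (i j : Fin n) (g : MvPolynomial (Fin n) ℂ) (hg : g ≠ 0) (hv : g.vars ⊆ {i, j}) :
    ∃ g2 : MvPolynomial (Fin 2) ℂ, g2 ≠ 0 ∧ g2.totalDegree ≤ g.totalDegree ∧ ∀ m, LL (g ^ m) = LL (g2 ^ m) := by
  by_cases hij : i = j
  · subst hij
    have he : Function.Injective (fun _ : Fin 1 => i) := fun a b _ => Subsingleton.elim a b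
    obtain ⟨g1, rfl⟩ := MvPolynomial.exists_rename_eq_of_vars_subset_range g (fun _ : Fin 1 => i) he (by
      intro x hx
      have := hv (Finset.mem_coe.1 hx)
      simp only [Finset.insert_eq_of_mem, Finset.mem_singleton] at this
      exact ⟨0, this.symm⟩)
    have he2 : Function.Injective (fun _ : Fin 1 => (0 : Fin 2)) := fun a b _ => Subsingleton.elim a b
    refine ⟨MvPolynomial.rename (fun _ : Fin 1 => (0 : Fin 2)) g1, ?_, ?_, fun m => ?_⟩
    · intro h0
      refine hg ?_
      have : g1 = 0 := MvPolynomial.rename_injective _ he2 (by rw [h0, map_zero])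
      rw [this, map_zero]
    · have e : MvPolynomial.rename (fun _ : Fin 1 => (0 : Fin 2)) g1 =
          MvPolynomial.rename (fun _ : Fin n => (0 : Fin 2)) (MvPolynomial.rename (fun _ : Fin 1 => i) g1) := by
        rw [MvPolynomial.rename_rename]
        rfl
      rw [e]
      exact MvPolynomial.totalDegree_rename_le _ _
    · rw [← map_pow, ← map_pow, LL_rename _ he, LL_rename _ he2]
  · have he : Function.Injective (![i, j] : Fin 2 → Fin n) := by
      intro a b hab
      fin_cases a <;> fin_cases b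
      · rfl
      · exact absurd hab hij
      · exact absurd hab.symm hij
      · rfl
    obtain ⟨g2, rfl⟩ := MvPolynomial.exists_rename_eq_of_vars_subset_range g (![i, j] : Fin 2 → Fin n) he (by
      intro x hx
      have := hv (Finset.mem_coe.1 hx)
      rw [Finset.mem_insert, Finset.mem_singleton] at this
      rcases this with rfl | rfl
      · exact ⟨0, rfl⟩
      · exact ⟨1, rfl⟩)
    refine ⟨g2, ?_, ?_, fun m => ?_⟩
    · rintro rfl
      exact hg (map_zero _)
    · have e : MvPolynomial.rename (Function.invFun (![i, j] : Fin 2 → Fin n))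
          (MvPolynomial.rename (![i, j] : Fin 2 → Fin n) g2) = g2 := by
        rw [MvPolynomial.rename_rename, Function.invFun_comp he, MvPolynomial.rename_id]
        rfl
      calc g2.totalDegree = (MvPolynomial.rename (Function.invFun (![i, j] : Fin 2 → Fin n))
          (MvPolynomial.rename (![i, j] : Fin 2 → Fin n) g2)).totalDegree := by rw [e]
        _ ≤ _ := MvPolynomial.totalDegree_rename_le _ _
    · rw [← map_pow, LL_rename _ he]

/-- Proof.  `N'` from `fc2_unif d N`.  Let `f = monomial s 1 * g`; `f^m = monomial (m • s) 1 * g^m`, `(g^m).vars ⊆ {i, j}`; `LL_monomial_mul`: `LL (f^m) = ∏ (m s_k)! * LL (g^m)`.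
`g = rename e g2` with `e : Fin 2 → Fin n`, `e 0 = i`, `e 1 = j` if `i ≠ j` (`MvPolynomial.exists_rename_eq_of_vars_subset_range`), `totalDegree g2 = totalDegree g`
(`MvPolynomial.totalDegree_rename_le` and `MvPolynomial.killCompl`, or `totalDegree` via `rename` injective), `LL_rename`.  If `i = j`: `g = rename (fun _ : Fin 1 => i) g1`, and use
`g2 = rename (fun _ : Fin 1 => (0 : Fin 2)) g1`, `LL g^m = LL g1^m = LL g2^m`. -/
theorem fc_final (d N : ℕ) : ∃ N' : ℕ, ∀ (n : ℕ) (i j : Fin n) (s : Fin n →₀ ℕ) (g : MvPolynomial (Fin n) ℂ),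
    s i = 0 → s j = 0 → g ≠ 0 → g.vars ⊆ {i, j} → g.totalDegree ≤ d →
    ∃ m, N ≤ m ∧ m ≤ N' ∧ LL ((MvPolynomial.monomial s 1 * g) ^ m) ≠ 0 := by
  obtain ⟨N', hN'⟩ := fc2_unif d N
  refine ⟨N', fun n i j s g hi hj hg hv hd => ?_⟩
  obtain ⟨g2, h1, h2, h3⟩ := X5_two i j g hg hv
  obtain ⟨m, hm1, hm2, hm3⟩ := hN' g2 h1 (h2.trans hd)
  refine ⟨m, hm1, hm2, ?_⟩
  have hvm : (g ^ m).vars ⊆ {i, j} := (MvPolynomial.vars_pow g m).trans hv
  have e : LL ((MvPolynomial.monomial s 1 * g) ^ m) =
      (∏ k : Fin n, (((m • s) k).factorial : ℂ)) * LL (g ^ m) := by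
    rw [mul_pow, MvPolynomial.monomial_pow, one_pow]
    refine LL_monomial_mul i j (m • s) ?_ ?_ (g ^ m) hvm
    · rw [Finsupp.smul_apply, hi, smul_zero]
    · rw [Finsupp.smul_apply, hj, smul_zero]
  rw [e]
  refine mul_ne_zero ?_ (by rw [h3]; exact hm3)
  exact Finset.prod_ne_zero_iff.2 fun k _ => by exact_mod_cast Nat.factorial_ne_zero _

end Pool.Agent.FCT
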