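import Pool.Agent.FCT.X4

/-! The factorial functional is positive definite on real polynomials. -/

set_option autoImplicit false

namespace Pool.Agent.FCT

open Finset

/-- one variable -/
theorem Y1_fact (a b N : ℕ) (ha : a ≤ N) :
    (a + b).factorial = ∑ u ∈ range (N + 1), (a.factorial * a.choose u) * (b.factorial * b.choose u) := by
  have h1 : (a + b).choose a = ∑ u ∈ range (N + 1), a.choose u * b.choose u := by
    rw [Nat.add_choose_eq, Finset.Nat.sum_antidiagonal_eq_sum_range_succ_mk]
    have h2 : ∑ u ∈ range (N + 1), a.choose u * b.choose u = ∑ u ∈ range (a + 1), a.choose u * b.choose u := by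
      symm
      refine Finset.sum_subset (Finset.range_subset_range.2 (by omega)) fun u _ hu => ?_
      rw [Finset.mem_range, not_lt] at hu
      rw [Nat.choose_eq_zero_of_lt (by omega), zero_mul]
    rw [h2, ← Finset.sum_range_reflect]
    refine Finset.sum_congr rfl fun u hu => ?_
    rw [Finset.mem_range] at hu
    have e1 : a + 1 - 1 - u = a - u := by omega
    rw [e1, Nat.choose_symm (show u ≤ a by omega), Nat.sub_sub_self (show u ≤ a by omega)]
  have h3 : (a + b).factorial = (a + b).choose a * a.factorial * b.factorial := by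
    have := Nat.choose_mul_factorial_mul_factorial (show a ≤ a + b by omega)
    rw [Nat.add_sub_cancel_left] at this
    exact this.symm
  rw [h3, h1, Finset.sum_mul, Finset.sum_mul]
  refine Finset.sum_congr rfl fun u _ => ?_
  ring

/-- the value of `LL` on a product -/
theorem Y1_mul {K σ : Type*} [Field K] [Fintype σ] [DecidableEq σ] (p q : MvPolynomial σ K) :
    LL (p * q) = ∑ s ∈ p.support, ∑ t ∈ q.support, MvPolynomial.coeff s p * MvPolynomial.coeff t q *
      ∏ k : σ, (((s + t) k).factorial : K) := by
  have h0 : ∀ (S : Finset (σ →₀ ℕ)) (F : (σ →₀ ℕ) → MvPolynomial σ K),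
      LL (∑ s ∈ S, F s) = ∑ s ∈ S, LL (F s) := fun S F =>
    map_sum (AddMonoidHom.mk' (LL : MvPolynomial σ K → K) LL_add) _ _
  conv_lhs => rw [p.as_sum, q.as_sum, Finset.sum_mul_sum]
  rw [h0]
  refine Finset.sum_congr rfl fun s _ => ?_
  rw [h0]
  refine Finset.sum_congr rfl fun t _ => ?_
  rw [MvPolynomial.monomial_mul, LL_monomial]

/-- positivity on squares -/
theorem Y1_pos {σ : Type*} [Fintype σ] [DecidableEq σ] (r : MvPolynomial σ ℝ) (hr : r ≠ 0) : 0 < LL (r * r) := by
  classical
  set N : ℕ := r.totalDegree with hN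
  have hs : ∀ s ∈ r.support, ∀ k, s k ≤ N := fun s hs k =>
    (Finsupp.le_degree k s).trans (MvPolynomial.le_totalDegree hs)
  have key : LL (r * r) = ∑ u ∈ Fintype.piFinset (fun _ : σ => range (N + 1)),
      (∑ s ∈ r.support, MvPolynomial.coeff s r * ∏ k : σ, (((s k).factorial * (s k).choose (u k) : ℕ) : ℝ)) ^ 2 := by
    rw [Y1_mul]
    have h1 : ∀ s ∈ r.support, ∀ t : σ →₀ ℕ, (∏ k : σ, (((s + t) k).factorial : ℝ)) =
        ∑ u ∈ Fintype.piFinset (fun _ : σ => range (N + 1)),
          (∏ k : σ, (((s k).factorial * (s k).choose (u k) : ℕ) : ℝ)) *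
          ∏ k : σ, (((t k).factorial * (t k).choose (u k) : ℕ) : ℝ) := by
      intro s hs' t
      have h2 : ∀ k : σ, (((s + t) k).factorial : ℝ) = ∑ u ∈ range (N + 1),
          ((((s k).factorial * (s k).choose u : ℕ) : ℝ) * (((t k).factorial * (t k).choose u : ℕ) : ℝ)) := by
        intro k
        rw [Finsupp.add_apply, Y1_fact (s k) (t k) N (hs s hs' k)]
        push_cast
        rfl
      rw [Finset.prod_congr rfl fun k _ => h2 k, Finset.prod_univ_sum]
      refine Finset.sum_congr rfl fun u _ => ?_
      rw [Finset.prod_mul_distrib]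
    calc _ = ∑ s ∈ r.support, ∑ t ∈ r.support, ∑ u ∈ Fintype.piFinset (fun _ : σ => range (N + 1)),
          (MvPolynomial.coeff s r * (∏ k : σ, (((s k).factorial * (s k).choose (u k) : ℕ) : ℝ))) *
          (MvPolynomial.coeff t r * ∏ k : σ, (((t k).factorial * (t k).choose (u k) : ℕ) : ℝ)) := by
          refine Finset.sum_congr rfl fun s hs' => Finset.sum_congr rfl fun t _ => ?_
          rw [h1 s hs' t, Finset.mul_sum]
          refine Finset.sum_congr rfl fun u _ => ?_
          ring
      _ = ∑ u ∈ Fintype.piFinset (fun _ : σ => range (N + 1)), ∑ s ∈ r.support, ∑ t ∈ r.support,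
          (MvPolynomial.coeff s r * (∏ k : σ, (((s k).factorial * (s k).choose (u k) : ℕ) : ℝ))) *
          (MvPolynomial.coeff t r * ∏ k : σ, (((t k).factorial * (t k).choose (u k) : ℕ) : ℝ)) := by
          rw [Finset.sum_comm (s := Fintype.piFinset (fun _ : σ => range (N + 1)))]
          refine Finset.sum_congr rfl fun s _ => ?_
          rw [Finset.sum_comm]
      _ = _ := by
          refine Finset.sum_congr rfl fun u _ => ?_
          rw [sq, Finset.sum_mul_sum]
  rw [key]
  obtain ⟨s0, hs0, hmax⟩ := Finset.exists_max_image r.support (fun s => s.degree)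
    (MvPolynomial.support_nonempty.2 hr)
  refine Finset.sum_pos' (fun u _ => sq_nonneg _) ⟨fun k => s0 k, ?_, ?_⟩
  · rw [Fintype.mem_piFinset]
    intro k
    have := hs s0 hs0 k
    rw [Finset.mem_range]
    omega
  · refine sq_pos_of_ne_zero ?_
    rw [Finset.sum_eq_single s0]
    · refine mul_ne_zero (MvPolynomial.mem_support_iff.1 hs0) (Finset.prod_ne_zero_iff.2 fun k _ => ?_)
      rw [Nat.choose_self, mul_one]
      exact_mod_cast Nat.factorial_ne_zero _
    · intro s hs1 hne
      have : ∃ k, s k < s0 k := by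
        by_contra hcon
        push Not at hcon
        have hle : s0 ≤ s := fun k => hcon k
        obtain ⟨d, rfl⟩ := exists_add_of_le hle
        have h2 := hmax _ hs1
        simp only [map_add] at h2
        have h3 : d.degree = 0 := by omega
        rw [Finsupp.degree_eq_zero_iff] at h3
        exact hne (by rw [h3, add_zero])
      obtain ⟨k, hk⟩ := this
      rw [Finset.prod_eq_zero (Finset.mem_univ k), mul_zero]
      rw [Nat.choose_eq_zero_of_lt hk, mul_zero, Nat.cast_zero]
    · intro h
      exact absurd hs0 h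

end Pool.Agent.FCT
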