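import Pool.Agent.FCT.X5
import Pool.Agent.FCT.Y1

/-! The final statement with a real factor in the other variables. -/

set_option autoImplicit false

namespace Pool.Agent.FCT

open Finset

theorem Y2_disj {K σ : Type*} [Field K] [Fintype σ] [DecidableEq σ] (p q : MvPolynomial σ K)
    (h : Disjoint p.vars q.vars) : LL (p * q) = LL p * LL q := by
  rw [Y1_mul]
  unfold LL
  rw [Finset.sum_mul_sum]
  refine Finset.sum_congr rfl fun s hs => Finset.sum_congr rfl fun t ht => ?_
  have e : (∏ k : σ, (((s + t) k).factorial : K)) =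
      (∏ k : σ, ((s k).factorial : K)) * ∏ k : σ, ((t k).factorial : K) := by
    rw [← Finset.prod_mul_distrib]
    refine Finset.prod_congr rfl fun k _ => ?_
    by_cases hk : s k = 0
    · rw [Finsupp.add_apply, hk]
      simp
    · have h1 : k ∈ p.vars := (MvPolynomial.mem_vars k).2 ⟨s, hs, Finsupp.mem_support_iff.2 hk⟩
      have h2 : t k = 0 := by
        by_contra hk2
        have h3 : k ∈ q.vars := (MvPolynomial.mem_vars k).2 ⟨t, ht, Finsupp.mem_support_iff.2 hk2⟩
        exact Finset.disjoint_left.1 h h1 h3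
      rw [Finsupp.add_apply, h2]
      simp
  rw [e]
  ring

theorem Y2_map {σ : Type*} [Fintype σ] (r : MvPolynomial σ ℝ) :
    LL (MvPolynomial.map Complex.ofRealHom r) = ((LL r : ℝ) : ℂ) := by
  unfold LL
  rw [MvPolynomial.support_map_of_injective _ (RingHom.injective _), Complex.ofReal_sum]
  refine Finset.sum_congr rfl fun s _ => ?_
  rw [MvPolynomial.coeff_map, Complex.ofReal_mul, Complex.ofReal_prod]
  simp

theorem fc_final2 (d N : ℕ) : ∃ N' : ℕ, ∀ (n : ℕ) (i j : Fin n) (r : MvPolynomial (Fin n) ℝ)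
    (g : MvPolynomial (Fin n) ℂ), r ≠ 0 → i ∉ r.vars → j ∉ r.vars → g ≠ 0 → g.vars ⊆ {i, j} →
    g.totalDegree ≤ d →
    ∃ m, N ≤ m ∧ m ≤ N' ∧ LL ((MvPolynomial.map Complex.ofRealHom r * g) ^ m) ≠ 0 := by
  classical
  obtain ⟨N', hN'⟩ := fc_final (2 * d) N
  refine ⟨2 * N', fun n i j r g hr hi hj hg hv hd => ?_⟩
  obtain ⟨m, h1, h2, h3⟩ := hN' n i j 0 (g ^ 2) rfl rfl (pow_ne_zero 2 hg)
    ((MvPolynomial.vars_pow g 2).trans hv)
    ((MvPolynomial.totalDegree_pow g 2).trans (Nat.mul_le_mul_left 2 hd))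
  refine ⟨2 * m, by omega, by omega, ?_⟩
  have e0 : (MvPolynomial.monomial (0 : Fin n →₀ ℕ) (1 : ℂ)) * g ^ 2 = g ^ 2 := by
    rw [show (MvPolynomial.monomial (0 : Fin n →₀ ℕ) (1 : ℂ)) = 1 from rfl, one_mul]
  rw [e0, ← pow_mul] at h3
  have e1 : (MvPolynomial.map Complex.ofRealHom r * g) ^ (2 * m) =
      MvPolynomial.map Complex.ofRealHom (r ^ m * r ^ m) * g ^ (2 * m) := by
    rw [mul_pow, map_mul, map_pow]
    congr 1
    rw [← pow_add]
    congr 1
    omega
  rw [e1, Y2_disj, Y2_map]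
  · refine mul_ne_zero ?_ h3
    exact_mod_cast (Y1_pos (r ^ m) (pow_ne_zero m hr)).ne'
  · have h4 : (MvPolynomial.map Complex.ofRealHom (r ^ m * r ^ m)).vars ⊆ r.vars := by
      refine (MvPolynomial.vars_map _ _).trans ?_
      rw [← pow_add]
      exact MvPolynomial.vars_pow _ _
    have h5 : (g ^ (2 * m)).vars ⊆ {i, j} := (MvPolynomial.vars_pow g _).trans hv
    rw [Finset.disjoint_left]
    intro k hk1 hk2
    have h6 := h4 hk1
    have h7 := h5 hk2
    rw [Finset.mem_insert, Finset.mem_singleton] at h7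
    rcases h7 with rfl | rfl
    · exact hi h6
    · exact hj h6

end Pool.Agent.FCT
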