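import Pool.Agent.FCT.ZDefs

/-! Row FCT-Z1: closure properties of `Rep`. -/

set_option autoImplicit false

namespace Pool.Agent.FCT

open Polynomial Finset

variable {κ L : Type*} [Field κ] [Field L] [Algebra κ L]
variable (F : κ[X]) (hF : 1 ≤ F.natDegree) (y : Fin F.natDegree → LaurentSeries L)
  (hy : Roots (iE κ L) (cE L F.natDegree) F y)

theorem Z1_root {R : Type*} [Field R] (i : κ →+* R) (c : R) (F : κ[X]) (y : Fin F.natDegree → R)
    (hy : Roots i c F y) (k : Fin F.natDegree) : eval₂ i (y k) F = c := by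
  have h := congrArg (eval (y k)) hy.2
  rw [eval_sub, eval_C, eval_mul, eval_prod, Finset.prod_eq_zero (Finset.mem_univ k) (by simp), mul_zero,
    eval_map] at h
  exact sub_eq_zero.1 h

theorem Z1_deg {n : ℕ} (k : Fin n) (R : κ[X]) :
    (Polynomial.aeval (MvPolynomial.X k : MvPolynomial (Fin n) κ) R).totalDegree ≤ R.natDegree := by
  rw [Polynomial.aeval_eq_sum_range]
  refine (MvPolynomial.totalDegree_finsetSum _ _).trans ?_
  refine Finset.sup_le fun i hi => ?_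
  refine (MvPolynomial.totalDegree_smul_le _ _).trans ?_
  rw [MvPolynomial.totalDegree_X_pow]
  exact Nat.lt_succ_iff.1 (Finset.mem_range.1 hi)

theorem Z1_eval {n : ℕ} {R : Type*} [CommRing R] (i : κ →+* R) (y : Fin n → R) (k : Fin n) (Q : κ[X]) :
    MvPolynomial.eval₂ i y (Polynomial.aeval (MvPolynomial.X k : MvPolynomial (Fin n) κ) Q) = eval₂ i (y k) Q := by
  have h : ((MvPolynomial.eval₂Hom i y).comp (Polynomial.aeval (MvPolynomial.X k : MvPolynomial (Fin n) κ)).toRingHom) =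
      Polynomial.eval₂RingHom i (y k) := by
    refine Polynomial.ringHom_ext (fun a => ?_) ?_
    · simp [MvPolynomial.algebraMap_eq]
    · simp
  exact congrArg (fun g => g Q) h

/-- `Q(c) = Q(F(y_0))` is a polynomial of degree `≤ E * natDegree Q` in `y_0`. -/
theorem evc_eq_mv (Q : κ[X]) (hF : 1 ≤ F.natDegree) (hy : Roots (iE κ L) (cE L F.natDegree) F y) :
    ∃ P : MvPolynomial (Fin F.natDegree) κ, P.totalDegree ≤ F.natDegree * Q.natDegree ∧
      MvPolynomial.eval₂ (iE κ L) y P = evc κ L F.natDegree Q := by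
  refine ⟨Polynomial.aeval (MvPolynomial.X ⟨0, hF⟩ : MvPolynomial (Fin F.natDegree) κ) (Q.comp F), ?_, ?_⟩
  · refine (Z1_deg _ _).trans ?_
    rw [Polynomial.natDegree_comp, mul_comm]
  · rw [Z1_eval, Polynomial.eval₂_comp, Z1_root _ _ _ _ hy]
    rfl

theorem Rep_mono {G H : ℕ} (h : G ≤ H) {z : LaurentSeries L} (hz : Rep F y G z) : Rep F y H z := by
  obtain ⟨P, Q, h1, h2, h3, h4⟩ := hz
  exact ⟨P, Q, h1.trans h, h2, h3.trans h, h4⟩

theorem Rep_neg {G : ℕ} {z : LaurentSeries L} (hz : Rep F y G z) : Rep F y G (-z) := by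
  obtain ⟨P, Q, h1, h2, h3, h4⟩ := hz
  refine ⟨-P, Q, ?_, h2, h3, ?_⟩
  · rw [MvPolynomial.totalDegree_neg]
    exact h1
  · rw [mul_neg, h4, MvPolynomial.eval₂_neg]

theorem Rep_mul {G H : ℕ} {z w : LaurentSeries L} (hz : Rep F y G z) (hw : Rep F y H w) : Rep F y (G + H) (z * w) := by
  obtain ⟨P, Q, h1, h2, h3, h4⟩ := hz
  obtain ⟨P', Q', h1', h2', h3', h4'⟩ := hw
  refine ⟨P * P', Q * Q', (MvPolynomial.totalDegree_mul _ _).trans (add_le_add h1 h1'), mul_ne_zero h2 h2',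
    (Polynomial.natDegree_mul_le).trans (add_le_add h3 h3'), ?_⟩
  rw [MvPolynomial.eval₂_mul, ← h4, ← h4', map_mul]
  ring

/-- `z = P₁/Q₁`, `w = P₂/Q₂`: `Q₁ Q₂ (z + w) = Q₂(c) P₁(y) + Q₁(c) P₂(y)` and `evc_eq_mv`. -/
theorem Rep_add {G H : ℕ} {z w : LaurentSeries L} (hF : 1 ≤ F.natDegree)
    (hy : Roots (iE κ L) (cE L F.natDegree) F y) (hz : Rep F y G z) (hw : Rep F y H w) :
    Rep F y ((F.natDegree + 1) * (G + H)) (z + w) := by
  obtain ⟨P, Q, h1, h2, h3, h4⟩ := hz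
  obtain ⟨P', Q', h1', h2', h3', h4'⟩ := hw
  obtain ⟨A, a1, a2⟩ := evc_eq_mv F y Q hF hy
  obtain ⟨A', a1', a2'⟩ := evc_eq_mv F y Q' hF hy
  have b1 : F.natDegree * Q.natDegree ≤ F.natDegree * G := Nat.mul_le_mul_left _ h3
  have b2 : F.natDegree * Q'.natDegree ≤ F.natDegree * H := Nat.mul_le_mul_left _ h3'
  have b3 : (F.natDegree + 1) * (G + H) = F.natDegree * G + F.natDegree * H + (G + H) := by ring
  refine ⟨A' * P + A * P', Q * Q', ?_, mul_ne_zero h2 h2', ?_, ?_⟩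
  · refine (MvPolynomial.totalDegree_add _ _).trans (max_le ?_ ?_)
    · refine (MvPolynomial.totalDegree_mul _ _).trans ?_
      omega
    · refine (MvPolynomial.totalDegree_mul _ _).trans ?_
      omega
  · refine (Polynomial.natDegree_mul_le).trans ?_
    omega
  · rw [MvPolynomial.eval₂_add, MvPolynomial.eval₂_mul, MvPolynomial.eval₂_mul, a2, a2', ← h4, ← h4', map_mul]
    ring

/-- `z = P/1` -/
theorem Rep_eval (P : MvPolynomial (Fin F.natDegree) κ) :
    Rep F y P.totalDegree (MvPolynomial.eval₂ (iE κ L) y P) :=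
  ⟨P, 1, le_rfl, one_ne_zero, by rw [Polynomial.natDegree_one]; exact Nat.zero_le _, by rw [map_one, one_mul]⟩

theorem Rep_zero : Rep F y 0 (0 : LaurentSeries L) := by
  have h := Rep_eval F y (0 : MvPolynomial (Fin F.natDegree) κ)
  rwa [MvPolynomial.totalDegree_zero, MvPolynomial.eval₂_zero] at h

theorem Rep_y (j : Fin F.natDegree) : Rep F y 1 (y j) := by
  have h := Rep_eval F y (MvPolynomial.X j : MvPolynomial (Fin F.natDegree) κ)
  rwa [MvPolynomial.totalDegree_X, MvPolynomial.eval₂_X] at h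

theorem Rep_evc (Q : κ[X]) (hF : 1 ≤ F.natDegree) (hy : Roots (iE κ L) (cE L F.natDegree) F y) :
    Rep F y (F.natDegree * Q.natDegree) (evc κ L F.natDegree Q) := by
  obtain ⟨A, a1, a2⟩ := evc_eq_mv F y Q hF hy
  have h := Rep_eval F y A
  rw [a2] at h
  exact Rep_mono F y a1 h

/-- `1/Q(c)` -/
theorem Rep_inv_evc (Q : κ[X]) (hQ : Q ≠ 0) (hF : 1 ≤ F.natDegree) :
    Rep F y Q.natDegree (evc κ L F.natDegree Q)⁻¹ := by
  refine ⟨1, Q, ?_, hQ, le_rfl, ?_⟩
  · rw [MvPolynomial.totalDegree_one]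
    exact Nat.zero_le _
  · rw [MvPolynomial.eval₂_one]
    refine mul_inv_cancel₀ ?_
    intro h
    exact hQ (evc_injective F.natDegree hF (by rw [h, map_zero]))

theorem Z1_prod {n : ℕ} (y : Fin n → LaurentSeries L) (hy : ∀ j, Ov (-1) (y j)) (d : Fin n → ℕ) (s : Finset (Fin n)) :
    Ov (-((∑ i ∈ s, d i : ℕ) : ℤ)) (∏ i ∈ s, y i ^ d i) := by
  classical
  induction s using Finset.induction_on with
  | empty =>
    rw [Finset.prod_empty, Finset.sum_empty]
    exact Ov_one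
  | insert a s ha ih =>
    rw [Finset.prod_insert ha, Finset.sum_insert ha]
    refine Ov_mono ?_ (Ov_mul (Ov_pow (hy a) (d a)) ih)
    push_cast
    linarith

theorem Z1_mv {n : ℕ} (y : Fin n → LaurentSeries L) (hy : ∀ j, Ov (-1) (y j)) (P : MvPolynomial (Fin n) κ) {G : ℕ}
    (hP : P.totalDegree ≤ G) : Ov (-(G : ℤ)) (MvPolynomial.eval₂ (iE κ L) y P) := by
  rw [MvPolynomial.eval₂_eq']
  refine Ov_sum _ _ fun d hd => ?_
  have h1 := MvPolynomial.le_totalDegree hd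
  rw [Finsupp.sum_fintype _ _ (fun _ => rfl)] at h1
  have h2 : ((∑ i, d i : ℕ) : ℤ) ≤ (G : ℤ) := by exact_mod_cast h1.trans hP
  refine Ov_mono ?_ (Ov_mul (Ov_C _) (Z1_prod y hy d univ))
  linarith

/-- lower bound for the order: `ord z = ord P(y) - ord Q(c) ≥ -G` (`ord y_i = -1`, `ord Q(c) ≤ 0`) -/
theorem Rep_order {G : ℕ} {z : LaurentSeries L} (hF : 1 ≤ F.natDegree)
    (hy : Roots (iE κ L) (cE L F.natDegree) F y) (hz : Rep F y G z) : Ov (-(G : ℤ)) z := by
  obtain ⟨P, Q, h1, h2, h3, h4⟩ := hz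
  have h5 := Z1_mv y (fun j => (order_root F hF (y j) (Z1_root _ _ _ _ hy j)).1) P h1
  rw [← h4, mul_comm] at h5
  refine Ov_mono ?_ (Ov_of_mul h5 (Ov_evc F.natDegree Q) (evc_lead F.natDegree hF Q h2))
  have h6 : (0 : ℤ) ≤ ((F.natDegree * Q.natDegree : ℕ) : ℤ) := Int.natCast_nonneg _
  linarith

end Pool.Agent.FCT
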