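import Pool.Agent.FCT.Z2b

/-! Row FCT-Z2: representation of the derivative of the logarithms -/

set_option autoImplicit false

namespace Pool.Agent.FCT

open Polynomial Finset
variable {κ L : Type*} [Field κ] [Field L] [Algebra κ L]

/-- `∂_c log(1 - s/y_j) = s ρ_j / (y_j (y_j - s))` (`lg_deriv` for `D = dcE`, `dcE_root`), so it has a representation. -/
theorem Rep_dlg [CharZero κ] [CharZero L] (F : κ[X]) (hF : 1 ≤ F.natDegree) (y : Fin F.natDegree → LaurentSeries L)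
    (hy : Roots (iE κ L) (cE L F.natDegree) F y) (s : κ) :
    ∃ G : ℕ, ∀ j, Rep F y G (dcE L F.natDegree (lg (iE κ L s * (y j)⁻¹))) := by
  obtain ⟨G1, h1⟩ := Rep_rho F hF y hy
  obtain ⟨G2, h2⟩ := Rep_inv_sub F hF y hy 0
  obtain ⟨G3, h3⟩ := Rep_inv_sub F hF y hy s
  refine ⟨0 + G1 + G2 + G3, fun j => ?_⟩
  have hs : Rep F y 0 (iE κ L s) := by
    have h := Rep_eval F y (MvPolynomial.C s : MvPolynomial (Fin F.natDegree) κ)
    rwa [MvPolynomial.totalDegree_C, MvPolynomial.eval₂_C] at h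
  have hy0 := (order_root F hF (y j) (Z1_root _ _ _ _ hy j)).2
  have hne : ∀ a : κ, y j - iE κ L a ≠ 0 := by
    intro a h
    rw [sub_eq_zero.1 h] at hy0
    exact hy0 (Ov_C (algebraMap κ L a) (-1) (by norm_num))
  have hn0 : y j ≠ 0 := by
    have := hne 0
    rwa [map_zero, sub_zero] at this
  have hns := hne s
  have hu := Ov_s_div F hF y hy s j
  have h4 := lg_deriv (dcE L F.natDegree) (fun N z hz => Ov_mono (by linarith [Int.natCast_nonneg F.natDegree])
    (Ov_dcE F.natDegree hz)) (iE κ L s * (y j)⁻¹) hu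
  have h5 : dcE L F.natDegree (iE κ L s * (y j)⁻¹) = -(iE κ L s * rho (iE κ L) F (y j) * (y j)⁻¹ ^ 2) := by
    have h6 : dcE L F.natDegree (y j)⁻¹ = -(rho (iE κ L) F (y j) * (y j)⁻¹ ^ 2) := by
      have h7 : dcE L F.natDegree (y j * (y j)⁻¹) = 0 := by
        rw [mul_inv_cancel₀ hn0, Derivation.map_one_eq_zero]
      rw [Derivation.leibniz, dcE_root F hF y hy j] at h7
      simp only [smul_eq_mul] at h7
      have h8 : y j * (dcE L F.natDegree (y j)⁻¹ + rho (iE κ L) F (y j) * (y j)⁻¹ ^ 2) = 0 := by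
        have h9 : y j * (rho (iE κ L) F (y j) * (y j)⁻¹ ^ 2) = (y j)⁻¹ * rho (iE κ L) F (y j) := by
          field_simp
        rw [mul_add, h9, h7]
      exact eq_neg_of_add_eq_zero_left ((mul_eq_zero.1 h8).resolve_left hn0)
    rw [Derivation.leibniz, h6, dcE_iE]
    simp only [smul_eq_mul]
    ring
  have h6 : dcE L F.natDegree (lg (iE κ L s * (y j)⁻¹)) =
      iE κ L s * rho (iE κ L) F (y j) * (y j - iE κ L 0)⁻¹ * (y j - iE κ L s)⁻¹ := by
    have h7 : (1 : LaurentSeries L) - iE κ L s * (y j)⁻¹ = (y j - iE κ L s) * (y j)⁻¹ := by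
      rw [sub_mul, mul_inv_cancel₀ hn0]
    rw [h7, h5, neg_neg] at h4
    rw [map_zero, sub_zero]
    have h8 : (y j - iE κ L s) * (y j)⁻¹ ≠ 0 := mul_ne_zero hns (inv_ne_zero hn0)
    rw [← mul_left_inj' h8, h4]
    field_simp
  rw [h6]
  exact Rep_mul F y (Rep_mul F y (Rep_mul F y hs (h1 j)) (h2 j)) (h3 j)

end Pool.Agent.FCT
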