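import Pool.Agent.FCT.Z1

/-! Row FCT-Z2a: representations of 1/F'(y) and 1/(y-a) -/

set_option autoImplicit false

namespace Pool.Agent.FCT

open Polynomial Finset
variable {κ L : Type*} [Field κ] [Field L] [Algebra κ L]

/-- `F` is transcendental: `χ(F) = 0` implies `χ = 0` -/
theorem Z2a_comp (F : κ[X]) (hF : 1 ≤ F.natDegree) {χ : κ[X]} (h : χ.comp F = 0) : χ = 0 := by
  rcases Polynomial.comp_eq_zero_iff.1 h with h1 | ⟨_, h1⟩
  · exact h1
  · exfalso
    rw [h1, Polynomial.natDegree_C] at hF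
    omega

/-- Over a field `κ` of characteristic 0: `χ(F) = F' Q`, `χ ≠ 0` (the algebra `κ[y]/(F')` is finite dimensional; if `F'` is a nonzero constant take
`χ = 1`). -/
theorem exists_chi_field [CharZero κ] (F : κ[X]) (hF : 1 ≤ F.natDegree) :
    ∃ χ Q : κ[X], χ ≠ 0 ∧ χ.comp F = derivative F * Q := by
  have hd : derivative F ≠ 0 := by
    intro h
    have h1 := Polynomial.derivative_eq_zero.1 h
    omega
  -- the quotient `κ[y]/(F')` is finite dimensional
  have hfin : Module.Finite κ (AdjoinRoot (derivative F)) :=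
    (AdjoinRoot.powerBasis hd).finite
  obtain ⟨p, hp0, hp⟩ : ∃ p : κ[X], p ≠ 0 ∧ aeval (AdjoinRoot.mk (derivative F) F) p = 0 := by
    have hi : IsIntegral κ (AdjoinRoot.mk (derivative F) F) := IsIntegral.of_finite κ _
    obtain ⟨p, h1, h2⟩ := hi
    exact ⟨p, h1.ne_zero, h2⟩
  have h3 : AdjoinRoot.mk (derivative F) (p.comp F) = 0 := by
    have h4 : aeval (AdjoinRoot.mk (derivative F) F) p = AdjoinRoot.mk (derivative F) (aeval F p) := by
      rw [← AdjoinRoot.coe_mkₐ, ← Polynomial.aeval_algHom_apply]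
    rw [h4] at hp
    exact hp
  obtain ⟨Q, hQ⟩ := AdjoinRoot.mk_eq_zero.1 h3
  exact ⟨p, Q, hp0, hQ⟩

/-- `1/F'(y_j) = Q(y_j)/χ(c)`. -/
theorem Rep_rho [CharZero κ] (F : κ[X]) (hF : 1 ≤ F.natDegree) (y : Fin F.natDegree → LaurentSeries L)
    (hy : Roots (iE κ L) (cE L F.natDegree) F y) :
    ∃ G : ℕ, ∀ j, Rep F y G (rho (iE κ L) F (y j)) := by
  obtain ⟨χ, Q, h0, h1⟩ := exists_chi_field F hF
  refine ⟨max Q.natDegree χ.natDegree, fun j => ?_⟩
  refine ⟨Polynomial.aeval (MvPolynomial.X j : MvPolynomial (Fin F.natDegree) κ) Q, χ,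
    (Z1_deg j Q).trans (le_max_left _ _), h0, le_max_right _ _, ?_⟩
  have h2 : evc κ L F.natDegree χ = eval₂ (iE κ L) (y j) (derivative F) * eval₂ (iE κ L) (y j) Q := by
    rw [← Polynomial.eval₂_mul, ← h1, Polynomial.eval₂_comp, Z1_root _ _ _ _ hy]
    rfl
  have h3 := (deriv_root (iE κ L) (cE L F.natDegree) F y hy j).2
  rw [Z1_eval, h2]
  unfold rho
  field_simp

/-- `1/(y_j - a) = S(y_j)/(c - F(a))`, as `c - F(a) = F(y_j) - F(a) = (y_j - a) S(y_j)`; and `y_j ≠ a` (order `-1`), `c ≠ F(a)`. -/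
theorem Rep_inv_sub (F : κ[X]) (hF : 1 ≤ F.natDegree) (y : Fin F.natDegree → LaurentSeries L)
    (hy : Roots (iE κ L) (cE L F.natDegree) F y) (a : κ) :
    ∃ G : ℕ, ∀ j, Rep F y G (y j - iE κ L a)⁻¹ := by
  -- `F - F(a) = (X - a) S`
  obtain ⟨S, hS⟩ : (X - C a) ∣ F - C (F.eval a) := by
    rw [Polynomial.dvd_iff_isRoot, Polynomial.IsRoot.def, Polynomial.eval_sub, Polynomial.eval_C, sub_self]
  refine ⟨max S.natDegree 1, fun j => ?_⟩
  refine ⟨Polynomial.aeval (MvPolynomial.X j : MvPolynomial (Fin F.natDegree) κ) S, X - C (F.eval a),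
    (Z1_deg j S).trans (le_max_left _ _), Polynomial.X_sub_C_ne_zero _, ?_, ?_⟩
  · rw [Polynomial.natDegree_X_sub_C]
    exact le_max_right _ _
  · have h1 : evc κ L F.natDegree (X - C (F.eval a)) = (y j - iE κ L a) * eval₂ (iE κ L) (y j) S := by
      have h2 := congrArg (eval₂ (iE κ L) (y j)) hS
      rw [Polynomial.eval₂_sub, Polynomial.eval₂_C, Polynomial.eval₂_mul, Polynomial.eval₂_sub, Polynomial.eval₂_X,
        Polynomial.eval₂_C, Z1_root _ _ _ _ hy] at h2
      rw [map_sub, evc_X, evc_C]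
      exact h2
    have h3 : y j - iE κ L a ≠ 0 := by
      intro h
      have h4 := (order_root F hF (y j) (Z1_root _ _ _ _ hy j)).2
      rw [sub_eq_zero.1 h] at h4
      exact h4 (Ov_C (algebraMap κ L a) (-1) (by norm_num))
    rw [Z1_eval, h1]
    field_simp

end Pool.Agent.FCT
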