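import Pool.Agent.FCT.Z2a

/-! Row FCT-Z2b: representation of derivatives -/

set_option autoImplicit false

namespace Pool.Agent.FCT

open Polynomial Finset
variable {κ L : Type*} [Field κ] [Field L] [Algebra κ L]

theorem Z2b_chain (D : Derivation ℤ (LaurentSeries L) (LaurentSeries L)) (i : κ →+* LaurentSeries L)
    (hD : ∀ a, D (i a) = 0) (y : LaurentSeries L)
    (F : κ[X]) : D (eval₂ i y F) = eval₂ i y (derivative F) * D y := by
  induction F using Polynomial.induction_on' with
  | add p q hp hq => rw [eval₂_add, map_add, hp, hq, derivative_add, eval₂_add, add_mul]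
  | monomial n a =>
    rw [eval₂_monomial, Derivation.leibniz, hD, derivative_monomial, eval₂_monomial, Derivation.leibniz_pow, smul_zero,
      add_zero, map_mul, map_natCast]
    simp only [smul_eq_mul, nsmul_eq_mul]
    ring

theorem Z2b_mv {n : ℕ} (D : Derivation ℤ (LaurentSeries L) (LaurentSeries L)) (i : κ →+* LaurentSeries L)
    (hD : ∀ a, D (i a) = 0) (y : Fin n → LaurentSeries L) (P : MvPolynomial (Fin n) κ) :
    D (MvPolynomial.eval₂ i y P) = ∑ k, MvPolynomial.eval₂ i y (MvPolynomial.pderiv k P) * D (y k) := by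
  induction P using MvPolynomial.induction_on with
  | C a =>
    rw [MvPolynomial.eval₂_C, hD]
    symm
    refine Finset.sum_eq_zero fun k _ => ?_
    rw [MvPolynomial.pderiv_C, MvPolynomial.eval₂_zero, zero_mul]
  | add p q hp hq =>
    rw [MvPolynomial.eval₂_add, map_add, hp, hq, ← Finset.sum_add_distrib]
    refine Finset.sum_congr rfl fun k _ => ?_
    rw [map_add, MvPolynomial.eval₂_add, add_mul]
  | mul_X p j hp =>
    rw [MvPolynomial.eval₂_mul, MvPolynomial.eval₂_X, Derivation.leibniz, hp]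
    have h1 : ∀ k : Fin n, MvPolynomial.eval₂ i y (MvPolynomial.pderiv k (p * MvPolynomial.X j)) * D (y k) =
        y j * (MvPolynomial.eval₂ i y (MvPolynomial.pderiv k p) * D (y k)) +
          (if k = j then MvPolynomial.eval₂ i y p * D (y j) else 0) := by
      intro k
      rw [MvPolynomial.pderiv_mul, MvPolynomial.eval₂_add, MvPolynomial.eval₂_mul, MvPolynomial.eval₂_mul,
        MvPolynomial.eval₂_X]
      by_cases h : k = j
      · rw [if_pos h, h, MvPolynomial.pderiv_X_self, MvPolynomial.eval₂_one]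
        ring
      · rw [if_neg h, MvPolynomial.pderiv_X_of_ne (Ne.symm h), MvPolynomial.eval₂_zero]
        ring
    rw [Finset.sum_congr rfl fun k _ => h1 k, Finset.sum_add_distrib, ← Finset.mul_sum, Finset.sum_ite_eq' univ j,
      if_pos (Finset.mem_univ j)]
    simp only [smul_eq_mul]
    ring

theorem Z2b_pdeg {n : ℕ} (k : Fin n) (P : MvPolynomial (Fin n) κ) :
    (MvPolynomial.pderiv k P).totalDegree ≤ P.totalDegree := by
  conv_lhs => rw [MvPolynomial.as_sum P, map_sum]
  refine (MvPolynomial.totalDegree_finsetSum _ _).trans ?_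
  refine Finset.sup_le fun d hd => ?_
  rw [MvPolynomial.pderiv_monomial]
  refine (MvPolynomial.totalDegree_monomial_le _ _).trans ?_
  refine le_trans ?_ (MvPolynomial.le_totalDegree hd)
  rw [Finsupp.sum_fintype _ _ (fun _ => rfl), Finsupp.sum_fintype _ _ (fun _ => rfl)]
  refine Finset.sum_le_sum fun i _ => ?_
  rw [Finsupp.tsub_apply]
  exact tsub_le_self

/-- constants of the sums -/
def Z2b_c (E : ℕ) : ℕ → ℕ
  | 0 => 0
  | n + 1 => (E + 1) * (Z2b_c E n + 1)

theorem Z2b_sum (F : κ[X]) (hF : 1 ≤ F.natDegree) (y : Fin F.natDegree → LaurentSeries L)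
    (hy : Roots (iE κ L) (cE L F.natDegree) F y) {ι : Type*} (s : Finset ι) (f : ι → LaurentSeries L) (A : ℕ)
    (h : ∀ i ∈ s, Rep F y A (f i)) : Rep F y (Z2b_c F.natDegree s.card * A) (∑ i ∈ s, f i) := by
  classical
  induction s using Finset.induction_on with
  | empty =>
    rw [Finset.sum_empty]
    exact Rep_mono F y (Nat.zero_le _) (Rep_zero F y)
  | insert a s ha ih =>
    rw [Finset.sum_insert ha, Finset.card_insert_of_notMem ha]
    have h1 := Rep_add F y hF hy (h a (Finset.mem_insert_self a s))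
      (ih fun i hi => h i (Finset.mem_insert_of_mem hi))
    refine Rep_mono F y (le_of_eq ?_) h1
    show (F.natDegree + 1) * (A + Z2b_c F.natDegree s.card * A) = (F.natDegree + 1) * (Z2b_c F.natDegree s.card + 1) * A
    ring

/-- `∂_c y_j = 1/F'(y_j)` (apply `∂_c` to `F(y_j) = c`). -/
theorem dcE_root [CharZero κ] [CharZero L] (F : κ[X]) (hF : 1 ≤ F.natDegree) (y : Fin F.natDegree → LaurentSeries L)
    (hy : Roots (iE κ L) (cE L F.natDegree) F y) (j : Fin F.natDegree) :
    dcE L F.natDegree (y j) = rho (iE κ L) F (y j) := by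
  have h1 := Z2b_chain (dcE L F.natDegree) (iE κ L) (fun a => dcE_iE (L := L) F.natDegree a) (y j) F
  rw [Z1_root _ _ _ _ hy, dcE_cE F.natDegree hF] at h1
  unfold rho
  exact eq_inv_of_mul_eq_one_right h1.symm

/-- From `Q(c) z = P(y)`: `Q(c) ∂z = ∑_i (∂_i P)(y) ρ_i - Q'(c) z`; so `∂z = (∑ (∂_i P)(y) ρ_i - Q'(c) z) * Q(c)⁻¹`.
(`∂ (P(y)) = ∑ (pderiv i P)(y) ∂ y_i`: induction on `P`.) -/
theorem Rep_dcE [CharZero κ] [CharZero L] (F : κ[X]) (hF : 1 ≤ F.natDegree) (y : Fin F.natDegree → LaurentSeries L)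
    (hy : Roots (iE κ L) (cE L F.natDegree) F y) :
    ∃ C : ℕ, ∀ (G : ℕ) (z : LaurentSeries L), Rep F y G z → Rep F y (C * (G + 1)) (dcE L F.natDegree z) := by
  obtain ⟨Gr, hGr⟩ := Rep_rho F hF y hy
  obtain ⟨c, hc⟩ : ∃ c, c = Z2b_c F.natDegree (univ : Finset (Fin F.natDegree)).card := ⟨_, rfl⟩
  refine ⟨(F.natDegree + 1) * (c * (1 + Gr) + (F.natDegree + 1)) + 1, fun G z hz => ?_⟩
  obtain ⟨P, Q, h1, h2, h3, h4⟩ := id hz
  have hne : evc κ L F.natDegree Q ≠ 0 := fun h => h2 (evc_injective F.natDegree hF (by rw [h, map_zero]))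
  have h5 : dcE L F.natDegree z = (∑ k, MvPolynomial.eval₂ (iE κ L) y (MvPolynomial.pderiv k P) * rho (iE κ L) F (y k) +
      -(evc κ L F.natDegree (derivative Q) * z)) * (evc κ L F.natDegree Q)⁻¹ := by
    have h6 := congrArg (dcE L F.natDegree) h4
    rw [Derivation.leibniz, dcE_evc F.natDegree hF, Z2b_mv (dcE L F.natDegree) (iE κ L) (fun a => dcE_iE (L := L) F.natDegree a)] at h6
    simp only [smul_eq_mul] at h6
    have h7 : ∑ k, MvPolynomial.eval₂ (iE κ L) y (MvPolynomial.pderiv k P) * dcE L F.natDegree (y k) =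
        ∑ k, MvPolynomial.eval₂ (iE κ L) y (MvPolynomial.pderiv k P) * rho (iE κ L) F (y k) :=
      Finset.sum_congr rfl fun k _ => by rw [dcE_root F hF y hy k]
    rw [h7] at h6
    rw [← h6, eq_mul_inv_iff_mul_eq₀ hne]
    ring
  have r1 : Rep F y (c * (G + Gr)) (∑ k, MvPolynomial.eval₂ (iE κ L) y (MvPolynomial.pderiv k P) *
      rho (iE κ L) F (y k)) := by
    rw [hc]
    refine Z2b_sum F hF y hy univ _ (G + Gr) fun k _ => ?_
    exact Rep_mul F y (Rep_mono F y ((Z2b_pdeg k P).trans h1) (Rep_eval F y _)) (hGr k)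
  have r2 : Rep F y (F.natDegree * G + G) (-(evc κ L F.natDegree (derivative Q) * z)) := by
    refine Rep_neg F y (Rep_mul F y (Rep_mono F y ?_ (Rep_evc F y (derivative Q) hF hy)) hz)
    refine Nat.mul_le_mul_left _ ?_
    exact (Polynomial.natDegree_derivative_le Q).trans ((Nat.sub_le _ _).trans h3)
  have r3 := Rep_mul F y (Rep_add F y hF hy r1 r2) (Rep_mono F y h3 (Rep_inv_evc F y Q h2 hF))
  rw [h5]
  refine Rep_mono F y ?_ r3
  have e1 : c * (G + Gr) ≤ c * (1 + Gr) * (G + 1) := by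
    rw [mul_assoc]
    refine Nat.mul_le_mul_left c ?_
    nlinarith
  have e2 : c * (G + Gr) + (F.natDegree * G + G) ≤ (c * (1 + Gr) + (F.natDegree + 1)) * (G + 1) := by
    nlinarith
  calc (F.natDegree + 1) * (c * (G + Gr) + (F.natDegree * G + G)) + G
      ≤ (F.natDegree + 1) * ((c * (1 + Gr) + (F.natDegree + 1)) * (G + 1)) + (G + 1) :=
        add_le_add (Nat.mul_le_mul_left _ e2) (Nat.le_succ G)
    _ = ((F.natDegree + 1) * (c * (1 + Gr) + (F.natDegree + 1)) + 1) * (G + 1) := by ring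

end Pool.Agent.FCT
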