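import Pool.Agent.FCT.Z3b

/-! Row FCT-Z3: Liouville inequality -/

set_option autoImplicit false

namespace Pool.Agent.FCT

open Polynomial Finset
variable {κ L : Type*} [Field κ] [Field L] [Algebra κ L]

/-- `ord z = ord P(y) - ord Q(c)`, `-ord Q(c) = E * natDegree Q ≤ E G`. -/
theorem liouville (F : κ[X]) (hF : 1 ≤ F.natDegree) (y : Fin F.natDegree → LaurentSeries L)
    (hy : Roots (iE κ L) (cE L F.natDegree) F y) :
    ∃ C : ℕ, ∀ (G : ℕ) (z : LaurentSeries L), Rep F y G z → z ≠ 0 → ¬ Ov ((C * (G + 1) : ℕ) : ℤ) z := by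
  refine ⟨F.natDegree.factorial + F.natDegree + 1, fun G z hz h0 hO => ?_⟩
  obtain ⟨P, Q, h1, h2, h3, h4⟩ := hz
  have hne : evc κ L F.natDegree Q ≠ 0 := fun h => h2 (evc_injective F.natDegree hF (by rw [h, map_zero]))
  have h5 : MvPolynomial.eval₂ (iE κ L) y P ≠ 0 := by
    rw [← h4]
    exact mul_ne_zero hne h0
  refine liouville_poly F hF y hy P G h1 h5 ?_
  rw [← h4]
  refine Ov_mono ?_ (Ov_mul (Ov_evc F.natDegree Q) hO)
  have h6 : F.natDegree * Q.natDegree ≤ F.natDegree * G := Nat.mul_le_mul_left _ h3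
  have h7 : ((F.natDegree * Q.natDegree : ℕ) : ℤ) ≤ ((F.natDegree * G : ℕ) : ℤ) := by exact_mod_cast h6
  push_cast at h7 ⊢
  have h8 : (0 : ℤ) ≤ (F.natDegree.factorial : ℤ) := Int.natCast_nonneg _
  have h9 : (0 : ℤ) ≤ (F.natDegree : ℤ) := Int.natCast_nonneg _
  have h10 : (0 : ℤ) ≤ (G : ℤ) := Int.natCast_nonneg _
  nlinarith

end Pool.Agent.FCT
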