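import Pool.Agent.FCT.Z1

/-! Row FCT-Z3a: symmetric polynomials in the roots -/

set_option autoImplicit false

namespace Pool.Agent.FCT

open Polynomial Finset
variable {κ L : Type*} [Field κ] [Field L] [Algebra κ L]

theorem Z3a_esymm (F : κ[X]) (hF : 1 ≤ F.natDegree) (y : Fin F.natDegree → LaurentSeries L)
    (hy : Roots (iE κ L) (cE L F.natDegree) F y) (k : ℕ) (hk : k ≤ F.natDegree) :
    ∃ T : κ[X], MvPolynomial.eval₂ (iE κ L) y (MvPolynomial.esymm (Fin F.natDegree) κ k) = evc κ L F.natDegree T := by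
  have hF0 : F ≠ 0 := by rintro rfl; simp at hF
  have hl : F.leadingCoeff ≠ 0 := leadingCoeff_ne_zero.2 hF0
  have hl' : iE κ L F.leadingCoeff ≠ 0 := by
    rw [Ne, map_eq_zero]; exact hl
  have e1 : MvPolynomial.eval₂ (iE κ L) y (MvPolynomial.esymm (Fin F.natDegree) κ k) =
      ((Finset.univ : Finset (Fin F.natDegree)).val.map y).esymm k := by
    letI : Algebra κ (LaurentSeries L) := (iE κ L).toAlgebra
    exact MvPolynomial.aeval_esymm_eq_multiset_esymm _ κ k y
  have e2 : (∏ j, (X - C (y j)) : (LaurentSeries L)[X]).coeff (F.natDegree - k) =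
      (-1) ^ k * ((Finset.univ : Finset (Fin F.natDegree)).val.map y).esymm k := by
    have h := Multiset.prod_X_sub_C_coeff ((Finset.univ : Finset (Fin F.natDegree)).val.map y) (k := F.natDegree - k)
      (by simp)
    rw [Multiset.map_map] at h
    have hc : Multiset.card ((Finset.univ : Finset (Fin F.natDegree)).val.map y) - (F.natDegree - k) = k := by
      simp; omega
    rw [hc] at h
    exact h
  have e3 := congrArg (fun p : (LaurentSeries L)[X] => p.coeff (F.natDegree - k)) hy.2
  simp only [coeff_sub, coeff_map, coeff_C_mul] at e3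
  rw [e2] at e3
  obtain ⟨T0, hT0⟩ : ∃ T0 : κ[X], evc κ L F.natDegree T0 = iE κ L (F.coeff (F.natDegree - k)) -
      (C (cE L F.natDegree)).coeff (F.natDegree - k) := by
    rcases Nat.eq_zero_or_pos (F.natDegree - k) with h0 | h0
    · refine ⟨C (F.coeff (F.natDegree - k)) - X, ?_⟩
      rw [map_sub, evc_C, evc_X, h0, coeff_C_zero]
    · refine ⟨C (F.coeff (F.natDegree - k)), ?_⟩
      rw [evc_C, coeff_C, if_neg (by omega), sub_zero]
  refine ⟨C ((-1) ^ k * F.leadingCoeff⁻¹) * T0, ?_⟩
  rw [map_mul, evc_C, hT0, e3, e1, map_mul, map_inv₀, map_pow, map_neg, map_one]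
  have h5 : ((-1 : LaurentSeries L) ^ k) * (-1) ^ k = 1 := by rw [← mul_pow]; simp
  have h6 : (iE κ L F.leadingCoeff)⁻¹ * iE κ L F.leadingCoeff = 1 := inv_mul_cancel₀ hl'
  linear_combination (-(((Finset.univ : Finset (Fin F.natDegree)).val.map y).esymm k)) * h5 -
    (((Finset.univ : Finset (Fin F.natDegree)).val.map y).esymm k) * ((-1 : LaurentSeries L) ^ k) * (-1) ^ k * h6

/-- A symmetric polynomial in the `y_i` is a polynomial in `c`: by the fundamental theorem (`MvPolynomial.esymmAlgEquiv`, or the surjectivity of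
`MvPolynomial.esymmAlgHom`) it is a polynomial in the `esymm_k(y)`, and by Vieta (`hy.2`, `Polynomial.coeff` of `∏ (X - C (y j))`,
`Multiset.prod_X_sub_C_coeff`/`MvPolynomial.prod_C_add_X…`) each `esymm_k(y)` is `±` a coefficient of `F.map - C c` divided by the leading
coefficient, so it is `evc` of a polynomial (of degree `≤ 1`). -/
theorem symm_eval (F : κ[X]) (hF : 1 ≤ F.natDegree) (y : Fin F.natDegree → LaurentSeries L)
    (hy : Roots (iE κ L) (cE L F.natDegree) F y) (S : MvPolynomial (Fin F.natDegree) κ) (hS : S.IsSymmetric) :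
    ∃ T : κ[X], MvPolynomial.eval₂ (iE κ L) y S = evc κ L F.natDegree T := by
  obtain ⟨P, hP⟩ := MvPolynomial.esymmAlgHom_fin_surjective (R := κ) (n := F.natDegree) (m := F.natDegree) le_rfl ⟨S, hS⟩
  have hS2 : S = MvPolynomial.aeval (fun i : Fin F.natDegree => MvPolynomial.esymm (Fin F.natDegree) κ (i + 1)) P := by
    rw [← MvPolynomial.esymmAlgHom_apply, hP]
  choose T hT using fun i : Fin F.natDegree => Z3a_esymm F hF y hy (i + 1) (by omega)
  refine ⟨MvPolynomial.eval₂ (C : κ →+* κ[X]) T P, ?_⟩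
  have h1 : (evc κ L F.natDegree) (MvPolynomial.eval₂ (C : κ →+* κ[X]) T P) =
      MvPolynomial.eval₂ ((evc κ L F.natDegree).comp C) (fun i => evc κ L F.natDegree (T i)) P :=
    MvPolynomial.eval₂_comp_left (evc κ L F.natDegree) C T P
  have h2 : MvPolynomial.eval₂ (iE κ L) y S = MvPolynomial.eval₂ (iE κ L)
      (fun i : Fin F.natDegree => MvPolynomial.eval₂ (iE κ L) y (MvPolynomial.esymm (Fin F.natDegree) κ (i + 1))) P := by
    rw [hS2]
    have h3 := MvPolynomial.eval₂_comp_left (MvPolynomial.eval₂Hom (iE κ L) y) (MvPolynomial.C)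
      (fun i : Fin F.natDegree => MvPolynomial.esymm (Fin F.natDegree) κ (i + 1)) P
    have h4 : (MvPolynomial.eval₂Hom (iE κ L) y).comp MvPolynomial.C = iE κ L := by
      ext1 a
      simp
    rw [h4] at h3
    exact h3
  rw [h1, h2]
  have h5 : (evc κ L F.natDegree).comp C = iE κ L := by
    ext1 a
    exact evc_C _ a
  rw [h5]
  congr 1
  funext i
  exact hT i

end Pool.Agent.FCT
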