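import Pool.Agent.FCT.Z3a

/-! Row FCT-Z3b: Liouville inequality for polynomials in the roots -/

set_option autoImplicit false

namespace Pool.Agent.FCT

open Polynomial Finset
variable {κ L : Type*} [Field κ] [Field L] [Algebra κ L]

/-- the family `rename τ P` -/
noncomputable def Z3b_f {n : ℕ} (P : MvPolynomial (Fin n) κ) (τ : Equiv.Perm (Fin n)) : MvPolynomial (Fin n) κ :=
  MvPolynomial.rename τ P

/-- the elementary symmetric polynomials of the family `rename τ P` -/
noncomputable def Z3b_e {n : ℕ} (P : MvPolynomial (Fin n) κ) (m : ℕ) : MvPolynomial (Fin n) κ :=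
  MvPolynomial.aeval (Z3b_f P) (MvPolynomial.esymm (Equiv.Perm (Fin n)) κ m)

theorem Z3b_symm {n : ℕ} (P : MvPolynomial (Fin n) κ) (m : ℕ) : (Z3b_e P m).IsSymmetric := by
  intro σ
  have h1 : MvPolynomial.rename (Equiv.mulLeft σ) (MvPolynomial.esymm (Equiv.Perm (Fin n)) κ m) =
      MvPolynomial.esymm (Equiv.Perm (Fin n)) κ m := MvPolynomial.esymm_isSymmetric _ _ m (Equiv.mulLeft σ)
  unfold Z3b_e
  conv_rhs => rw [← h1]
  rw [MvPolynomial.aeval_rename, ← AlgHom.comp_apply, MvPolynomial.comp_aeval]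
  congr 2
  funext τ
  show MvPolynomial.rename σ (MvPolynomial.rename τ P) = MvPolynomial.rename (σ * τ) P
  rw [MvPolynomial.rename_rename]
  rfl

theorem Z3b_eval {n : ℕ} {R : Type*} [Field R] (i : κ →+* R) (y : Fin n → R) (P : MvPolynomial (Fin n) κ) (m : ℕ) :
    MvPolynomial.eval₂ i y (Z3b_e P m) =
      ∑ S ∈ Finset.powersetCard m (univ : Finset (Equiv.Perm (Fin n))), ∏ τ ∈ S, MvPolynomial.eval₂ i (y ∘ τ) P := by
  unfold Z3b_e MvPolynomial.esymm
  rw [map_sum, ← MvPolynomial.coe_eval₂Hom, map_sum]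
  refine Finset.sum_congr rfl fun S _ => ?_
  rw [map_prod, map_prod]
  refine Finset.prod_congr rfl fun τ _ => ?_
  rw [MvPolynomial.aeval_X, MvPolynomial.coe_eval₂Hom]
  unfold Z3b_f
  rw [MvPolynomial.eval₂_rename]

theorem Z3b_prod {α : Type*} [DecidableEq α] (w : α → LaurentSeries L) (G : ℕ) (s : Finset α) (h : ∀ a ∈ s, Ov (-(G : ℤ)) (w a)) :
    Ov (-((G * s.card : ℕ) : ℤ)) (∏ a ∈ s, w a) := by
  induction s using Finset.induction_on with
  | empty =>
    rw [Finset.prod_empty, Finset.card_empty]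
    exact Ov_one
  | insert a s ha ih =>
    rw [Finset.prod_insert ha, Finset.card_insert_of_notMem ha]
    refine Ov_mono ?_ (Ov_mul (h a (Finset.mem_insert_self a s)) (ih fun b hb => h b (Finset.mem_insert_of_mem hb)))
    push_cast
    linarith

/-- Proof.  For a permutation `τ` put `w_τ = P(y ∘ τ) = eval₂ (rename τ P)`.  `χ(T) = ∏_τ (T - w_τ)` has coefficients which are symmetric
polynomials in the `y_i` evaluated at `y` (the polynomial `∏_τ (T - rename τ P)` over `MvPolynomial` is invariant under all renamings), so by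
`symm_eval` they are in the range of `evc`.  Let `r` be the number of `τ` with `w_τ = 0`; the coefficient of `T^r` in `χ` is
`± ∏_{w_τ ≠ 0} w_τ =: γ ≠ 0`, `γ = evc T`, so `¬ Ov 1 γ` (`eq_zero_of_Ov_evc`).  The factor `w_1 = P(y) ≠ 0` occurs in the product, all the others have
order `≥ -G` (`Ov (-G)`), there are at most `E! - 1` of them.  If `P(y)` had order `≥ E! G + 1`, then `γ` would have order `≥ 1`. -/
theorem liouville_poly (F : κ[X]) (hF : 1 ≤ F.natDegree) (y : Fin F.natDegree → LaurentSeries L)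
    (hy : Roots (iE κ L) (cE L F.natDegree) F y) (P : MvPolynomial (Fin F.natDegree) κ) (G : ℕ)
    (hP : P.totalDegree ≤ G) (h0 : MvPolynomial.eval₂ (iE κ L) y P ≠ 0) :
    ¬ Ov ((F.natDegree.factorial * G + 1 : ℕ) : ℤ) (MvPolynomial.eval₂ (iE κ L) y P) := by
  classical
  intro hO
  let w : Equiv.Perm (Fin F.natDegree) → LaurentSeries L := fun τ => MvPolynomial.eval₂ (iE κ L) (y ∘ τ) P
  let A : Finset (Equiv.Perm (Fin F.natDegree)) := univ.filter fun τ => w τ ≠ 0
  have hw1 : w 1 = MvPolynomial.eval₂ (iE κ L) y P := by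
    show MvPolynomial.eval₂ (iE κ L) (y ∘ ⇑(1 : Equiv.Perm (Fin F.natDegree))) P = _
    rw [Equiv.Perm.coe_one, Function.comp_id]
  have hA1 : (1 : Equiv.Perm (Fin F.natDegree)) ∈ A := by
    rw [Finset.mem_filter, hw1]
    exact ⟨Finset.mem_univ _, h0⟩
  obtain ⟨T, hT⟩ := symm_eval F hF y hy (Z3b_e P A.card) (Z3b_symm P A.card)
  have h1 : MvPolynomial.eval₂ (iE κ L) y (Z3b_e P A.card) = ∏ τ ∈ A, w τ := by
    rw [Z3b_eval]
    refine Finset.sum_eq_single_of_mem A (Finset.mem_powersetCard.2 ⟨Finset.subset_univ _, rfl⟩) fun S hS hSA => ?_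
    have h2 : ¬ S ⊆ A := fun h => hSA (Finset.eq_of_subset_of_card_le h (Finset.mem_powersetCard.1 hS).2.ge)
    obtain ⟨τ, h3, h4⟩ := Finset.not_subset.1 h2
    refine Finset.prod_eq_zero h3 ?_
    by_contra h5
    exact h4 (Finset.mem_filter.2 ⟨Finset.mem_univ _, h5⟩)
  have hne : ∏ τ ∈ A, w τ ≠ 0 := Finset.prod_ne_zero_iff.2 fun τ hτ => (Finset.mem_filter.1 hτ).2
  have hyo : ∀ j, Ov (-1) (y j) := fun j => (order_root F hF (y j) (Z1_root _ _ _ _ hy j)).1
  have hcard : A.card ≤ F.natDegree.factorial := by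
    refine (Finset.card_le_univ A).trans ?_
    rw [Fintype.card_perm, Fintype.card_fin]
  have h6 : Ov 1 (∏ τ ∈ A, w τ) := by
    rw [← Finset.mul_prod_erase A w hA1, hw1]
    have h7 := Z3b_prod w G (A.erase 1) fun τ _ => Z1_mv (y ∘ τ) (fun j => hyo (τ j)) P hP
    refine Ov_mono ?_ (Ov_mul hO h7)
    rw [Finset.card_erase_of_mem hA1]
    have h8 : 1 ≤ A.card := Finset.card_pos.2 ⟨1, hA1⟩
    have h9 : G * (A.card - 1) ≤ F.natDegree.factorial * G := by
      rw [mul_comm]
      exact Nat.mul_le_mul_right G ((Nat.sub_le _ _).trans hcard)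
    have h10 : ((G * (A.card - 1) : ℕ) : ℤ) ≤ ((F.natDegree.factorial * G : ℕ) : ℤ) := by exact_mod_cast h9
    push_cast at h10 ⊢
    linarith
  rw [← h1, hT] at h6
  have h7 := eq_zero_of_Ov_evc F.natDegree hF T h6
  rw [← h1, hT, h7, map_zero] at hne
  exact hne rfl

end Pool.Agent.FCT
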