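import Pool.Agent.FCT.Z2
import Pool.Agent.FCT.Z3

/-! Row FCT-Z4a: zero estimate for linear forms in the logarithms -/

set_option autoImplicit false

namespace Pool.Agent.FCT

open Polynomial Finset
variable {κ L : Type*} [Field κ] [Field L] [Algebra κ L]

private theorem Rep_sum (F : κ[X]) (y : Fin F.natDegree → LaurentSeries L) (hF : 1 ≤ F.natDegree)
    (hy : Roots (iE κ L) (cE L F.natDegree) F y) (H : ℕ) (f : Fin F.natDegree → LaurentSeries L)
    (T : Finset (Fin F.natDegree)) (h : ∀ i ∈ T, Rep F y H (f i)) :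
    Rep F y ((2 * (F.natDegree + 1)) ^ T.card * H) (∑ i ∈ T, f i) := by
  classical
  induction T using Finset.induction_on with
  | empty =>
    rw [Finset.sum_empty]
    exact Rep_mono F y (Nat.zero_le _) (Rep_zero F y)
  | insert i0 T hi ih =>
    rw [Finset.sum_insert hi, Finset.card_insert_of_notMem hi]
    have h1 := h i0 (Finset.mem_insert_self _ _)
    have h2 := ih fun i hi' => h i (Finset.mem_insert_of_mem hi')
    refine Rep_mono F y ?_ (Rep_add F y hF hy h1 h2)
    have h3 : 1 ≤ (2 * (F.natDegree + 1)) ^ T.card := Nat.one_le_pow _ _ (by omega)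
    have h4 : H ≤ (2 * (F.natDegree + 1)) ^ T.card * H := Nat.le_mul_of_pos_left _ h3
    rw [pow_succ]
    set P := (2 * (F.natDegree + 1)) ^ T.card * H with hP
    calc (F.natDegree + 1) * (H + P) ≤ (F.natDegree + 1) * (P + P) :=
          Nat.mul_le_mul_left _ (Nat.add_le_add_right h4 _)
      _ = (2 * (F.natDegree + 1)) ^ T.card * (2 * (F.natDegree + 1)) * H := by
          rw [hP]; ring

private theorem Rep_wron (F : κ[X]) (y : Fin F.natDegree → LaurentSeries L) (hF : 1 ≤ F.natDegree)
    (hy : Roots (iE κ L) (cE L F.natDegree) F y) (C1 : ℕ)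
    (hC1 : ∀ (G : ℕ) (z : LaurentSeries L), Rep F y G z →
      Rep F y (C1 * (G + 1)) (dcE L F.natDegree z)) (G : ℕ) (u w : LaurentSeries L)
    (hu : Rep F y G u) (hw : Rep F y G w) :
    Rep F y (2 * (F.natDegree + 1) * (C1 + 1) * (G + 1))
      (u * dcE L F.natDegree w - dcE L F.natDegree u * w) := by
  have h1 : Rep F y ((C1 + 1) * (G + 1)) (u * dcE L F.natDegree w) := by
    refine Rep_mono F y ?_ (Rep_mul F y hu (hC1 G w hw))
    nlinarith
  have h2 : Rep F y ((C1 + 1) * (G + 1)) (-(dcE L F.natDegree u * w)) := by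
    refine Rep_neg F y (Rep_mono F y ?_ (Rep_mul F y (hC1 G u hu) hw))
    nlinarith
  rw [sub_eq_add_neg]
  refine Rep_mono F y (le_of_eq ?_) (Rep_add F y hF hy h1 h2)
  ring

/-- Proof.  Induction on the finite set `S`.  `S = ∅`: `liouville`.  Step `insert i0 S`: if `b i0 = 0`, it is the case `S`.
Otherwise put `v = a + ∑_{i ∈ insert i0 S} b i * ℓ i`, `β = b i0`, `v1 = β ∂v - (∂β) v`.  Then
`v1 = a1 + ∑_{i ∈ S} b1 i * ℓ i` with `b1 i = β ∂(b i) - (∂β) b i` (the coefficient of `ℓ i0` vanishes) and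
`a1 = β ∂a - (∂β) a + ∑_{i ∈ insert i0 S} β b i ∂(ℓ i)`; all have `Rep` with bound `C' (G+1)` (`Rep_mul`, `Rep_add`, `Rep_dcE`, `Rep_dlg`; a finite
number of operations, the number depends only on `E`; use `Rep_mono` generously).
If `v1 = 0` then `∂(v/β) = 0`, `v = γ β` with `γ ∈ L` constant (`const_of_dcE`), `γ ≠ 0`, so `ord v = ord β`, bounded by `liouville`.
If `v1 ≠ 0`: by the induction hypothesis `v1` does not have order `≥ C'' (C' (G+1) + 1)`; but if `v` has order `≥ N` then `v1` has order
`≥ N - (order bounds of β, ∂β) ≥ N - C' (G+1) ` (`Rep_order`, `Ov_dcE`). -/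
theorem zero_est_log [CharZero κ] [CharZero L] (F : κ[X]) (hF : 1 ≤ F.natDegree)
    (y : Fin F.natDegree → LaurentSeries L)
    (hy : Roots (iE κ L) (cE L F.natDegree) F y) (s : κ) (S : Finset (Fin F.natDegree)) :
    ∃ C : ℕ, ∀ (G : ℕ) (a : LaurentSeries L) (b : Fin F.natDegree → LaurentSeries L), Rep F y G a →
      (∀ i, Rep F y G (b i)) → a + ∑ i ∈ S, b i * lg (iE κ L s * (y i)⁻¹) ≠ 0 →
      ¬ Ov ((C * (G + 1) : ℕ) : ℤ) (a + ∑ i ∈ S, b i * lg (iE κ L s * (y i)⁻¹)) := by
  classical
  obtain ⟨CL, hCL⟩ := liouville F hF y hy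
  obtain ⟨C1, hC1⟩ := Rep_dcE F hF y hy
  obtain ⟨G0, hG0⟩ := Rep_dlg F hF y hy s
  set ℓ : Fin F.natDegree → LaurentSeries L := fun i => lg (iE κ L s * (y i)⁻¹) with hℓ
  induction S using Finset.induction_on with
  | empty =>
    refine ⟨CL, fun G a b ha _ hne => ?_⟩
    rw [Finset.sum_empty, add_zero] at hne ⊢
    exact hCL G a ha hne
  | insert i0 S hi ih =>
    obtain ⟨CS, hCS⟩ := ih
    set D := (2 * (F.natDegree + 1)) ^ (insert i0 S).card with hD
    set K := (F.natDegree + 1) * (2 * (F.natDegree + 1) * (C1 + 1) + D * (2 + G0)) with hK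
    refine ⟨CS * (K + 1) + CS + CL + 1, fun G a b ha hb hne hOv => ?_⟩
    have hG1 : 1 ≤ G + 1 := by omega
    set v := a + ∑ i ∈ insert i0 S, b i * lg (iE κ L s * (y i)⁻¹) with hv
    have hvS : v = a + (b i0 * ℓ i0 + ∑ i ∈ S, b i * ℓ i) := by
      rw [hv, Finset.sum_insert hi]
    have hle1 : ((CS * (G + 1) : ℕ) : ℤ) ≤ (((CS * (K + 1) + CS + CL + 1) * (G + 1) : ℕ) : ℤ) := by
      exact_mod_cast Nat.mul_le_mul_right _ (by omega)
    have hle2 : ((CL * (G + 1) : ℕ) : ℤ) ≤ (((CS * (K + 1) + CS + CL + 1) * (G + 1) : ℕ) : ℤ) := by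
      exact_mod_cast Nat.mul_le_mul_right _ (by omega)
    by_cases hβ : b i0 = 0
    · have h1 : v = a + ∑ i ∈ S, b i * lg (iE κ L s * (y i)⁻¹) := by
        rw [hvS, hβ, zero_mul, zero_add]
      have h2 := hCS G a b ha hb (by rw [← h1]; exact hne)
      rw [← h1] at h2
      exact h2 (Ov_mono hle1 hOv)
    · set d := dcE L F.natDegree with hd
      set β := b i0 with hβd
      have hdv : d v = d a + ∑ i ∈ insert i0 S, (b i * d (ℓ i) + d (b i) * ℓ i) := by
        rw [hv, map_add, map_sum]
        congr 1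
        refine Finset.sum_congr rfl fun i _ => ?_
        rw [Derivation.leibniz, smul_eq_mul, smul_eq_mul, mul_comm (lg _) (d (b i))]
      set a1 := (β * d a - d β * a) + ∑ i ∈ insert i0 S, β * b i * d (ℓ i) with ha1
      set b1 : Fin F.natDegree → LaurentSeries L := fun i => β * d (b i) - d β * b i with hb1
      have hv1 : β * d v - d β * v = a1 + ∑ i ∈ S, b1 i * ℓ i := by
        have h1 : ∑ i ∈ insert i0 S, b1 i * ℓ i = ∑ i ∈ S, b1 i * ℓ i := by
          rw [Finset.sum_insert hi]
          have h2 : b1 i0 = 0 := by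
            show β * d (b i0) - d β * b i0 = 0
            rw [← hβd]
            ring
          rw [h2, zero_mul, zero_add]
        rw [← h1, hdv, hv, ha1]
        have h3 : ∑ i ∈ insert i0 S, b1 i * ℓ i = ∑ i ∈ insert i0 S, (β * (d (b i) * ℓ i)) -
            d β * ∑ i ∈ insert i0 S, b i * lg (iE κ L s * (y i)⁻¹) := by
          rw [Finset.mul_sum, ← Finset.sum_sub_distrib]
          refine Finset.sum_congr rfl fun i _ => ?_
          show (β * d (b i) - d β * b i) * ℓ i = _
          ring
        rw [h3, Finset.sum_add_distrib, mul_add, mul_add, Finset.mul_sum, Finset.mul_sum]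
        have h4 : ∑ i ∈ insert i0 S, β * (b i * d (ℓ i)) = ∑ i ∈ insert i0 S, β * b i * d (ℓ i) :=
          Finset.sum_congr rfl fun i _ => by ring
        rw [h4]
        ring
      have hR1 : Rep F y (K * (G + 1)) a1 := by
        have h1 := Rep_wron F y hF hy C1 hC1 G β a (hb i0) ha
        have h2 : Rep F y (D * ((2 + G0) * (G + 1))) (∑ i ∈ insert i0 S, β * b i * d (ℓ i)) := by
          refine Rep_sum F y hF hy ((2 + G0) * (G + 1)) (fun i => β * b i * d (ℓ i)) (insert i0 S) ?_
          intro i _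
          refine Rep_mono F y ?_ (Rep_mul F y (Rep_mul F y (hb i0) (hb i)) (hG0 i))
          nlinarith
        refine Rep_mono F y (le_of_eq ?_) (Rep_add F y hF hy h1 h2)
        rw [hK]
        ring
      have hR2 : ∀ i, Rep F y (K * (G + 1)) (b1 i) := by
        intro i
        have h1 := Rep_wron F y hF hy C1 hC1 G β (b i) (hb i0) (hb i)
        refine Rep_mono F y (Nat.mul_le_mul_right _ ?_) h1
        rw [hK]
        have h2 : 1 ≤ F.natDegree + 1 := by omega
        calc 2 * (F.natDegree + 1) * (C1 + 1) ≤ 2 * (F.natDegree + 1) * (C1 + 1) + D * (2 + G0) := Nat.le_add_right _ _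
          _ = 1 * (2 * (F.natDegree + 1) * (C1 + 1) + D * (2 + G0)) := (one_mul _).symm
          _ ≤ (F.natDegree + 1) * (2 * (F.natDegree + 1) * (C1 + 1) + D * (2 + G0)) := Nat.mul_le_mul_right _ h2
      by_cases hv0 : β * d v - d β * v = 0
      · -- `v` is a constant times `β`
        set w := v * β⁻¹ with hw
        have hvw : v = w * β := by rw [hw, mul_assoc, inv_mul_cancel₀ hβ, mul_one]
        have hdw : d w = 0 := by
          have h1 : d v = w * d β + β * d w := by
            rw [hvw, Derivation.leibniz, smul_eq_mul, smul_eq_mul]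
          have h2 : β * β * d w = 0 := by
            rw [h1] at hv0
            have h3 : β * (w * d β + β * d w) - d β * v = β * β * d w := by
              rw [hvw]
              ring
            rw [h3] at hv0
            exact hv0
          rcases mul_eq_zero.1 h2 with h3 | h3
          · exact absurd (mul_self_eq_zero.1 h3) hβ
          · exact h3
        have hwc := const_of_dcE F.natDegree hF w hdw
        set γ := w.coeff 0 with hγ
        have hγ0 : γ ≠ 0 := by
          intro h0
          apply hne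
          rw [hvw, hwc, h0, map_zero, zero_mul]
        have hβv : β = HahnSeries.C γ⁻¹ * v := by
          rw [hvw, hwc, ← mul_assoc, ← map_mul, inv_mul_cancel₀ hγ0, map_one, one_mul]
        have h1 := Ov_mul (Ov_C (γ⁻¹)) hOv
        rw [← hβv, zero_add] at h1
        exact hCL G β (hb i0) hβ (Ov_mono hle2 h1)
      · -- induction hypothesis
        have h1 := hCS (K * (G + 1)) a1 b1 hR1 hR2 (by rw [← hv1]; exact hv0)
        rw [← hv1] at h1
        apply h1
        have h2 := Ov_mul (Rep_order F y hF hy (hb i0)) (Ov_dcE F.natDegree hOv)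
        have h3 := Ov_mul (Ov_dcE F.natDegree (Rep_order F y hF hy (hb i0))) hOv
        set N : ℤ := (((CS * (K + 1) + CS + CL + 1) * (G + 1) : ℕ) : ℤ) with hN
        have h4 : -(G : ℤ) + (N + F.natDegree) = -(G : ℤ) + F.natDegree + N := by ring
        rw [h4] at h2
        have h5 := Ov_sub h2 h3
        refine Ov_mono ?_ h5
        rw [hN]
        have h6 : CS * (K * (G + 1) + 1) + G ≤ (CS * (K + 1) + CS + CL + 1) * (G + 1) := by
          have h7 : CS * (K * (G + 1) + 1) ≤ (CS * (K + 1)) * (G + 1) := by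
            have h71 : K * (G + 1) + 1 ≤ (K + 1) * (G + 1) := by
              rw [Nat.succ_mul]
              omega
            calc CS * (K * (G + 1) + 1) ≤ CS * ((K + 1) * (G + 1)) := Nat.mul_le_mul_left _ h71
              _ = (CS * (K + 1)) * (G + 1) := by rw [mul_assoc]
          nlinarith
        have h8 : ((CS * (K * (G + 1) + 1) + G : ℕ) : ℤ) ≤
            (((CS * (K + 1) + CS + CL + 1) * (G + 1) : ℕ) : ℤ) := by exact_mod_cast h6
        rw [Nat.cast_add] at h8
        have h9 : (0 : ℤ) ≤ F.natDegree := Int.natCast_nonneg F.natDegree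
        linarith

end Pool.Agent.FCT
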