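import Pool.Agent.FCT.Lg4

/-! Definitions for the zero estimate. -/

set_option autoImplicit false

namespace Pool.Agent.FCT

open Polynomial Finset

variable {κ L : Type*} [Field κ] [Field L] [Algebra κ L]

/-- `z = P(y_1,…,y_E)/Q(c)` with `deg P, deg Q ≤ G` -/
def Rep (F : κ[X]) (y : Fin F.natDegree → LaurentSeries L) (G : ℕ) (z : LaurentSeries L) : Prop :=
  ∃ (P : MvPolynomial (Fin F.natDegree) κ) (Q : κ[X]), P.totalDegree ≤ G ∧ Q ≠ 0 ∧ Q.natDegree ≤ G ∧
    evc κ L F.natDegree Q * z = MvPolynomial.eval₂ (iE κ L) y P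

end Pool.Agent.FCT
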